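import Pool.Agent.HBInd.KerP

/-!
# Circle averages of logarithms of canonical products

* `circleAverage_KK`: `circleAverage_log_norm_sub_const_eq_posLog` (Mathlib) for the logarithm
  (`1 - c u = -c (u - 1/c)`), and the mean value property for `Re (c u)`; for `c = 0` both sides are `0`
  (`log (max 1 0) = 0`).
* `circleAverage_abs_KK_le`: `∫ |KK p (c u)|` over the circle of centre `z` and radius `δ |z|`: scale to
  `w = c z`; for `|w|` small (`(1 + δ) |w| ≤ 1/2`) pointwise `|KK p (w')| ≤ 2 |w'|^{p+1}`; otherwise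
  `|log |1 - w'|| ≤ log (1 + |w'|) + log⁺ (1 / |1 - w'|)`, and the average of `log⁺ (1/|1 - w'|)` is bounded
  by a constant depending on `δ` only (e.g. `|log x| = 2 log⁺ x - log x`, so the average of
  `|log |1 - w'||` is `≤ 2 log (1 + 2 |w|) - log (max ‖1 - w‖ (δ ‖w‖))`).
* `hasSum_circleAverage`: `hasSum_integral_of_summable_integral_norm` for the integrals over the circle; the
  representation of `log ‖f‖` holds off a countable set of angles.
-/

namespace HBInd

open Complex Filter Topology Set MeasureTheory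
open scoped Real

lemma avgsum_circleIntegrable_log (c z : ℂ) (R : ℝ) :
    CircleIntegrable (fun u => Real.log ‖1 - c * u‖) z R :=
  MeromorphicOn.circleIntegrable_log_norm (f := fun u => 1 - c * u) (fun _ _ ↦ by fun_prop)

lemma avgsum_circleIntegrable_re (p : ℕ) (c z : ℂ) (R : ℝ) :
    CircleIntegrable (fun u => (p : ℝ) * (c * u).re) z R := by
  apply ContinuousOn.circleIntegrable'
  fun_prop

lemma avgsum_circleIntegrable_KK (p : ℕ) (c z : ℂ) (R : ℝ) :
    CircleIntegrable (fun u => KK p (c * u)) z R :=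
  (avgsum_circleIntegrable_log c z R).add (avgsum_circleIntegrable_re p c z R)

lemma avgsum_circleAverage_re (p : ℕ) (c z : ℂ) (R : ℝ) :
    Real.circleAverage (fun u => (p : ℝ) * (c * u).re) z R = p * (c * z).re := by
  have h1 : Real.circleAverage (fun u : ℂ => (p : ℂ) * (c * u)) z R = (p : ℂ) * (c * z) := by
    apply DiffContOnCl.circleAverage
    exact Differentiable.diffContOnCl (by fun_prop)
  have h2 := Complex.reCLM.circleAverage_comp_comm (f := fun u : ℂ => (p : ℂ) * (c * u)) (c := z)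
    (R := R) (ContinuousOn.circleIntegrable' (by fun_prop))
  rw [h1] at h2
  have h3 : (Complex.reCLM ∘ fun u : ℂ => (p : ℂ) * (c * u)) = fun u => (p : ℝ) * (c * u).re := by
    funext u
    simp [Complex.reCLM_apply]
  rw [h3] at h2
  rw [h2]
  simp [Complex.reCLM_apply]

lemma avgsum_circleAverage_log (c z : ℂ) {δ : ℝ} (hδ : 0 < δ) :
    Real.circleAverage (fun u => Real.log ‖1 - c * u‖) z (δ * ‖z‖) =
      Real.log (max ‖1 - c * z‖ (δ * ‖c * z‖)) := by
  by_cases hc : c = 0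
  · subst hc; simp [Real.circleAverage_const]
  by_cases hz : z = 0
  · subst hz; simp
  have hR : 0 < δ * ‖z‖ := mul_pos hδ (norm_pos_iff.2 hz)
  have hcn : 0 < ‖c‖ := norm_pos_iff.2 hc
  have h1 : Real.circleAverage (fun u => Real.log ‖1 - c * u‖) z (δ * ‖z‖) =
      Real.circleAverage (fun u => Real.log ‖c‖ + Real.log ‖u - c⁻¹‖) z (δ * ‖z‖) := by
    apply Real.circleAverage_congr_codiscreteWithin _ hR.ne'
    have : {u : ℂ | u ≠ c⁻¹} ∈ codiscreteWithin (Metric.sphere z |δ * ‖z‖|) := by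
      apply codiscreteWithin_iff_locallyFiniteComplementWithin.2
      intro u hu
      use Set.univ
      simp only [univ_mem, ne_eq, Set.univ_inter, true_and]
      apply Set.Subsingleton.finite
      intro z₁ hz₁ z₂ hz₂
      simp_all only [Set.mem_sdiff, Set.mem_ofPred_eq, Decidable.not_not]
    filter_upwards [this] with u hu
    have hu' : u ≠ c⁻¹ := hu
    have h2 : 1 - c * u = -c * (u - c⁻¹) := by field_simp; ring
    rw [h2, norm_mul, norm_neg, Real.log_mul hcn.ne' (norm_ne_zero_iff.2 (sub_ne_zero.2 hu'))]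
  rw [h1, Real.circleAverage_fun_add (circleIntegrable_const _ _ _)
    (circleIntegrable_log_norm_sub_const _), Real.circleAverage_const,
    circleAverage_log_norm_sub_const_eq_log_radius_add_posLog hR.ne']
  have h3 : Real.log (δ * ‖z‖) + Real.posLog ((δ * ‖z‖)⁻¹ * ‖z - c⁻¹‖) =
      Real.log (max (δ * ‖z‖) ‖z - c⁻¹‖) := by
    rcases le_total ‖z - c⁻¹‖ (δ * ‖z‖) with h | h
    · rw [max_eq_left h, Real.posLog_eq_zero_iff _ |>.2, add_zero]
      rw [abs_of_nonneg (by positivity)]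
      exact inv_mul_le_one_of_le₀ h hR.le
    · rw [max_eq_right h, Real.posLog_eq_log]
      · have hpos : 0 < ‖z - c⁻¹‖ := lt_of_lt_of_le hR h
        rw [Real.log_mul (inv_ne_zero hR.ne') hpos.ne', Real.log_inv]; ring
      · rw [abs_of_nonneg (by positivity), inv_mul_eq_div, one_le_div hR]; exact h
  rw [h3, ← Real.log_mul hcn.ne' (by positivity)]
  congr 1
  rw [mul_max_of_nonneg _ _ hcn.le, max_comm]
  congr 1
  · rw [← norm_mul, mul_sub, mul_inv_cancel₀ hc, norm_sub_rev]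
  · rw [norm_mul]; ring

theorem circleAverage_KK (p : ℕ) (c z : ℂ) {δ : ℝ} (hδ : δ ∈ Ioo (0 : ℝ) 1) :
    Real.circleAverage (fun u => KK p (c * u)) z (δ * ‖z‖) = KD p δ (c * z) := by
  unfold KK KD
  rw [Real.circleAverage_fun_add (avgsum_circleIntegrable_log c z _) (avgsum_circleIntegrable_re p c z _),
    avgsum_circleAverage_log c z hδ.1, avgsum_circleAverage_re]

lemma avgsum_abs_KK_small {p : ℕ} (hp : p ≤ 1) {w : ℂ} (hw : ‖w‖ ≤ 1 / 2) :
    |KK p w| ≤ 2 * ‖w‖ ^ (p + 1) := by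
  have hn : 0 ≤ ‖w‖ := norm_nonneg _
  have hlog : Real.log ‖1 - w‖ = (Complex.log (1 + (-w))).re := by
    rw [Complex.log_re, sub_eq_add_neg]
  interval_cases p
  · simp only [KK, Nat.cast_zero, zero_mul, add_zero, zero_add, pow_one]
    rw [hlog]
    calc |(Complex.log (1 + (-w))).re| ≤ ‖Complex.log (1 + (-w))‖ := Complex.abs_re_le_norm _
      _ ≤ 3 / 2 * ‖-w‖ := Complex.norm_log_one_add_half_le_self (by simpa using hw)
      _ ≤ 2 * ‖w‖ := by rw [norm_neg]; nlinarith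
  · simp only [KK, Nat.cast_one, one_mul]
    have h1 : Real.log ‖1 - w‖ + w.re = (Complex.log (1 + (-w)) - (-w)).re := by
      rw [hlog]; simp
    rw [h1]
    calc |(Complex.log (1 + (-w)) - (-w)).re| ≤ ‖Complex.log (1 + (-w)) - (-w)‖ :=
          Complex.abs_re_le_norm _
      _ ≤ ‖-w‖ ^ 2 * (1 - ‖-w‖)⁻¹ / 2 := Complex.norm_log_one_add_sub_self_le (by
          rw [norm_neg]; linarith)
      _ ≤ 2 * ‖w‖ ^ (1 + 1) := by
          rw [norm_neg]
          have : (1 - ‖w‖)⁻¹ ≤ 2 := by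
            rw [inv_le_comm₀ (by linarith) (by norm_num)]; linarith
          have h2 : 0 ≤ ‖w‖ ^ 2 := by positivity
          norm_num
          nlinarith

theorem circleAverage_abs_KK_le {p : ℕ} (hp : p ≤ 1) {δ σ : ℝ} (hδ : δ ∈ Ioo (0 : ℝ) 1)
    (h1 : (p : ℝ) < σ) (h2 : σ < p + 1) : ∃ C : ℝ, 0 < C ∧ ∀ c z : ℂ,
      Real.circleAverage (fun u => |KK p (c * u)|) z (δ * ‖z‖) ≤ C * ‖c * z‖ ^ σ := by
  obtain ⟨hδ0, hδ1⟩ := hδ
  have hp0 : (0 : ℝ) ≤ p := Nat.cast_nonneg _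
  have hσ : 0 < σ := lt_of_le_of_lt hp0 h1
  have hp1 : (p : ℝ) ≤ 1 := by exact_mod_cast hp
  set L : ℝ := Real.log (4 / δ) with hL
  have hL0 : 0 ≤ L := Real.log_nonneg (by rw [le_div_iff₀ hδ0]; linarith)
  refine ⟨8 + (2 * 6 ^ σ / σ + (L + 2) * 4 ^ σ), by positivity, fun c z => ?_⟩
  have hw0 : 0 ≤ ‖c * z‖ := norm_nonneg _
  have hcu : ∀ u ∈ Metric.sphere z |δ * ‖z‖|, ‖c * u‖ ≤ 2 * ‖c * z‖ := by
    intro u hu
    have h3 : ‖u - z‖ = δ * ‖z‖ := by
      rw [mem_sphere_iff_norm] at hu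
      rw [hu, abs_of_nonneg (by positivity)]
    have h4 : ‖u‖ ≤ 2 * ‖z‖ := by
      calc ‖u‖ = ‖(u - z) + z‖ := by ring_nf
        _ ≤ ‖u - z‖ + ‖z‖ := norm_add_le _ _
        _ ≤ 2 * ‖z‖ := by rw [h3]; nlinarith [norm_nonneg z]
    rw [norm_mul, norm_mul]
    nlinarith [norm_nonneg c]
  have hint : CircleIntegrable (fun u => |KK p (c * u)|) z (δ * ‖z‖) :=
    (avgsum_circleIntegrable_KK p c z _).abs
  rcases eq_or_lt_of_le hw0 with hz0 | hpos
  · -- `c * z = 0`
    have h5 : Real.circleAverage (fun u => |KK p (c * u)|) z (δ * ‖z‖) ≤ 0 := by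
      apply Real.circleAverage_mono_on_of_le_circle hint
      intro u hu
      have h6 := hcu u hu
      rw [← hz0, mul_zero] at h6
      have h7 : c * u = 0 := norm_le_zero_iff.1 h6
      simp [h7, KK]
    rw [← hz0, Real.zero_rpow hσ.ne', mul_zero]
    exact h5
  rcases le_total ‖c * z‖ (1 / 4) with hs | hb
  · -- small case
    have h5 : Real.circleAverage (fun u => |KK p (c * u)|) z (δ * ‖z‖) ≤ 8 * ‖c * z‖ ^ σ := by
      apply Real.circleAverage_mono_on_of_le_circle hint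
      intro u hu
      have h6 := hcu u hu
      calc |KK p (c * u)| ≤ 2 * ‖c * u‖ ^ (p + 1) := avgsum_abs_KK_small hp (by linarith)
        _ ≤ 2 * (2 * ‖c * z‖) ^ (p + 1) := by gcongr
        _ ≤ 8 * ‖c * z‖ ^ (p + 1) := by
            rw [mul_pow, ← mul_assoc]
            gcongr
            have : (2 : ℝ) ^ (p + 1) ≤ 2 ^ 2 := pow_le_pow_right₀ (by norm_num) (by omega)
            linarith
        _ ≤ 8 * ‖c * z‖ ^ σ := by
            gcongr 8 * ?_
            rw [← Real.rpow_natCast]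
            apply Real.rpow_le_rpow_of_exponent_ge hpos (by linarith)
            push_cast
            exact h2.le
    refine h5.trans ?_
    gcongr
    have : 0 ≤ 2 * 6 ^ σ / σ + (L + 2) * 4 ^ σ := by positivity
    linarith
  · -- large case
    have hlogint := avgsum_circleIntegrable_log c z (δ * ‖z‖)
    have hpt : ∀ u ∈ Metric.sphere z |δ * ‖z‖|, |KK p (c * u)| + Real.log ‖1 - c * u‖ ≤
        2 * Real.log (1 + 2 * ‖c * z‖) + 2 * (p * ‖c * z‖) := by
      intro u hu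
      have h6 := hcu u hu
      have h7 : |KK p (c * u)| ≤ |Real.log ‖1 - c * u‖| + p * ‖c * u‖ := by
        unfold KK
        refine (abs_add_le _ _).trans ?_
        gcongr
        rw [abs_mul, abs_of_nonneg hp0]
        gcongr
        exact Complex.abs_re_le_norm _
      have h8 : |Real.log ‖1 - c * u‖| + Real.log ‖1 - c * u‖ ≤ 2 * Real.log (1 + 2 * ‖c * z‖) := by
        have h9 : Real.log ‖1 - c * u‖ ≤ Real.log (1 + 2 * ‖c * z‖) := by
          rcases eq_or_lt_of_le (norm_nonneg (1 - c * u)) with h | h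
          · rw [← h, Real.log_zero]; exact Real.log_nonneg (by linarith)
          · apply Real.log_le_log h
            calc ‖1 - c * u‖ ≤ ‖(1 : ℂ)‖ + ‖c * u‖ := norm_sub_le _ _
              _ ≤ 1 + 2 * ‖c * z‖ := by rw [norm_one]; linarith
        have h10 : 0 ≤ Real.log (1 + 2 * ‖c * z‖) := Real.log_nonneg (by linarith)
        rcases le_total 0 (Real.log ‖1 - c * u‖) with h | h
        · rw [abs_of_nonneg h]; linarith
        · rw [abs_of_nonpos h]; linarith
      have h11 : (p : ℝ) * ‖c * u‖ ≤ p * (2 * ‖c * z‖) := by gcongr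
      linarith
    have h12 : Real.circleAverage (fun u => |KK p (c * u)| + Real.log ‖1 - c * u‖) z (δ * ‖z‖) ≤
        2 * Real.log (1 + 2 * ‖c * z‖) + 2 * (p * ‖c * z‖) :=
      Real.circleAverage_mono_on_of_le_circle (hint.add hlogint) hpt
    rw [Real.circleAverage_fun_add hint hlogint, avgsum_circleAverage_log c z hδ0] at h12
    have h13 : -L ≤ Real.log (max ‖1 - c * z‖ (δ * ‖c * z‖)) := by
      have h14 : -L = Real.log (δ / 4) := by
        rw [hL, ← Real.log_inv]; congr 1; rw [inv_div]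
      rw [h14]
      apply Real.log_le_log (by positivity)
      refine le_trans ?_ (le_max_right _ _)
      nlinarith
    have h4t : 1 ≤ 4 * ‖c * z‖ := by linarith
    have h15 : 1 ≤ 4 ^ σ * ‖c * z‖ ^ σ := by
      rw [← Real.mul_rpow (by norm_num) hw0]
      exact Real.one_le_rpow h4t hσ.le
    have h16 : 2 * Real.log (1 + 2 * ‖c * z‖) ≤ 2 * 6 ^ σ / σ * ‖c * z‖ ^ σ := by
      have h17 : Real.log (1 + 2 * ‖c * z‖) ≤ (1 + 2 * ‖c * z‖) ^ σ / σ :=
        Real.log_le_rpow_div (by positivity) hσ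
      have h18 : (1 + 2 * ‖c * z‖) ^ σ ≤ (6 * ‖c * z‖) ^ σ :=
        Real.rpow_le_rpow (by positivity) (by linarith) hσ.le
      rw [Real.mul_rpow (by norm_num) hw0] at h18
      calc 2 * Real.log (1 + 2 * ‖c * z‖) ≤ 2 * ((1 + 2 * ‖c * z‖) ^ σ / σ) := by linarith
        _ ≤ 2 * ((6 ^ σ * ‖c * z‖ ^ σ) / σ) := by gcongr
        _ = _ := by ring
    have h19 : 2 * (p * ‖c * z‖) ≤ 2 * (4 ^ σ * ‖c * z‖ ^ σ) := by
      have h20 : (p : ℝ) * ‖c * z‖ ≤ 4 ^ σ * ‖c * z‖ ^ σ := by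
        rw [← Real.mul_rpow (by norm_num) hw0]
        interval_cases p
        · simp only [Nat.cast_zero, zero_mul]; positivity
        · simp only [Nat.cast_one, one_mul] at h1 ⊢
          calc ‖c * z‖ ≤ 4 * ‖c * z‖ := by linarith
            _ = (4 * ‖c * z‖) ^ (1 : ℝ) := (Real.rpow_one _).symm
            _ ≤ (4 * ‖c * z‖) ^ σ := Real.rpow_le_rpow_of_exponent_le h4t h1.le
      linarith
    have h21 : L ≤ L * (4 ^ σ * ‖c * z‖ ^ σ) := by nlinarith
    have h22 : 0 ≤ 8 * ‖c * z‖ ^ σ := by positivity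
    have h23 : (8 + (2 * 6 ^ σ / σ + (L + 2) * 4 ^ σ)) * ‖c * z‖ ^ σ =
        8 * ‖c * z‖ ^ σ + 2 * 6 ^ σ / σ * ‖c * z‖ ^ σ + L * (4 ^ σ * ‖c * z‖ ^ σ) +
          2 * (4 ^ σ * ‖c * z‖ ^ σ) := by ring
    rw [h23]
    linarith

theorem hasSum_circleAverage {p : ℕ} (hp : p ≤ 1) {ι : Type} [Countable ι] {c : ι → ℂ} {σ : ℝ}
    (h1 : (p : ℝ) < σ) (h2 : σ < p + 1) (hc : Summable fun i => ‖c i‖ ^ σ) {F : ℂ → ℝ}
    (hF : ∀ u : ℂ, u ≠ 0 → (∀ i, c i * u ≠ 1) → HasSum (fun i => KK p (c i * u)) (F u))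
    {δ : ℝ} (hδ : δ ∈ Ioo (0 : ℝ) 1) {z : ℂ} (hz : z ≠ 0) :
    HasSum (fun i => KD p δ (c i * z)) (Real.circleAverage F z (δ * ‖z‖)) := by
  obtain ⟨C, hC, hCb⟩ := circleAverage_abs_KK_le hp hδ h1 h2
  have hzn : 0 < ‖z‖ := norm_pos_iff.2 hz
  have hR : 0 < δ * ‖z‖ := mul_pos hδ.1 hzn
  have h2π : (0 : ℝ) < 2 * π := by positivity
  set G : ι → ℝ → ℝ := fun i θ => KK p (c i * circleMap z (δ * ‖z‖) θ) with hG
  have hint : ∀ i, IntervalIntegrable (G i) volume 0 (2 * π) := fun i =>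
    avgsum_circleIntegrable_KK p (c i) z (δ * ‖z‖)
  have hint' : ∀ i, Integrable (G i) (volume.restrict (Ioc 0 (2 * π))) := fun i =>
    (intervalIntegrable_iff_integrableOn_Ioc_of_le h2π.le).1 (hint i)
  have hnorm : ∀ i, ∫ θ in Ioc 0 (2 * π), ‖G i θ‖ =
      2 * π * Real.circleAverage (fun u => |KK p (c i * u)|) z (δ * ‖z‖) := by
    intro i
    rw [Real.circleAverage_def, smul_eq_mul, ← mul_assoc, mul_inv_cancel₀ h2π.ne', one_mul,
      intervalIntegral.integral_of_le h2π.le]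
    rfl
  have hsum : Summable fun i => ∫ θ in Ioc 0 (2 * π), ‖G i θ‖ := by
    refine Summable.of_nonneg_of_le (fun i => integral_nonneg fun _ => norm_nonneg _)
      (fun i => ?_) ((hc.mul_left (2 * π * C * ‖z‖ ^ σ)))
    rw [hnorm]
    calc 2 * π * Real.circleAverage (fun u => |KK p (c i * u)|) z (δ * ‖z‖)
        ≤ 2 * π * (C * ‖c i * z‖ ^ σ) := by gcongr; exact hCb (c i) z
      _ = 2 * π * C * ‖z‖ ^ σ * ‖c i‖ ^ σ := by
          rw [norm_mul, Real.mul_rpow (norm_nonneg _) (norm_nonneg _)]; ring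
  have hmain := hasSum_integral_of_summable_integral_norm hint' hsum
  -- identify the integral of the sum
  have hae : (fun θ => ∑' i, G i θ) =ᵐ[volume.restrict (Ioc 0 (2 * π))]
      fun θ => F (circleMap z (δ * ‖z‖) θ) := by
    have hbad : ∀ i, ∀ᵐ θ ∂(volume.restrict (Ioc 0 (2 * π))),
        c i * circleMap z (δ * ‖z‖) θ ≠ 1 := by
      intro i
      have hcnt : ((circleMap z (δ * ‖z‖)) ⁻¹' {(c i)⁻¹}).Countable :=
        Countable.preimage_circleMap (countable_singleton _) z hR.ne'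
      have h3 : ∀ᵐ θ ∂(volume : Measure ℝ), θ ∉ (circleMap z (δ * ‖z‖)) ⁻¹' {(c i)⁻¹} :=
        (hcnt.ae_notMem volume)
      refine ae_restrict_of_ae (h3.mono fun θ hθ h4 => hθ ?_)
      simp only [mem_preimage, mem_singleton_iff]
      exact eq_inv_of_mul_eq_one_right h4
    have hall : ∀ᵐ θ ∂(volume.restrict (Ioc 0 (2 * π))), ∀ i,
        c i * circleMap z (δ * ‖z‖) θ ≠ 1 := ae_all_iff.2 hbad
    refine hall.mono fun θ hθ => ?_
    refine (hF _ ?_ hθ).tsum_eq
    intro h0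
    have h5 : circleMap z (δ * ‖z‖) θ ∈ Metric.sphere z (δ * ‖z‖) := circleMap_mem_sphere z hR.le θ
    rw [h0, mem_sphere_iff_norm, zero_sub, norm_neg] at h5
    nlinarith [hδ.2]
  rw [integral_congr_ae hae] at hmain
  have h6 : HasSum (fun i => (2 * π)⁻¹ * ∫ θ in Ioc 0 (2 * π), G i θ)
      ((2 * π)⁻¹ * ∫ θ in Ioc 0 (2 * π), F (circleMap z (δ * ‖z‖) θ)) := hmain.mul_left _
  have h7 : Real.circleAverage F z (δ * ‖z‖) =
      (2 * π)⁻¹ * ∫ θ in Ioc 0 (2 * π), F (circleMap z (δ * ‖z‖) θ) := by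
    rw [Real.circleAverage_def, smul_eq_mul, intervalIntegral.integral_of_le h2π.le]
  have h8 : ∀ i, KD p δ (c i * z) = (2 * π)⁻¹ * ∫ θ in Ioc 0 (2 * π), G i θ := by
    intro i
    rw [← circleAverage_KK p (c i) z hδ, Real.circleAverage_def, smul_eq_mul,
      intervalIntegral.integral_of_le h2π.le]
  rw [h7]
  simp_rw [h8]
  exact h6

end HBInd
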