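import Pool.Agent.HBInd.Defs

/-!
# Elementary facts on indicators
-/

namespace HBInd

open Complex Filter Topology Set Bornology
open scoped Real ComplexConjugate

lemma norm_ray {r : ℝ} (hr : 0 ≤ r) (θ : ℝ) : ‖ray r θ‖ = r := by
  rw [ray, norm_mul, Complex.norm_exp_ofReal_mul_I, mul_one, Complex.norm_real,
    Real.norm_of_nonneg hr]

lemma ray_add_two_pi (r θ : ℝ) : ray r (θ + 2 * π) = ray r θ := by
  rw [ray, ray]
  push_cast
  rw [add_mul, Complex.exp_add, Complex.exp_two_pi_mul_I, mul_one]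

lemma ray_add_int (r θ : ℝ) (n : ℤ) : ray r (θ + n * (2 * π)) = ray r θ := by
  rw [ray, ray]
  push_cast
  rw [add_mul, Complex.exp_add, mul_assoc (n : ℂ), Complex.exp_int_mul_two_pi_mul_I, mul_one]

lemma conj_ray (r θ : ℝ) : conj (ray r θ) = ray r (-θ) := by
  rw [ray, ray, map_mul, Complex.conj_ofReal, ← Complex.exp_conj, map_mul, Complex.conj_ofReal,
    Complex.conj_I]
  push_cast
  rw [mul_neg, neg_mul]

lemma ray_im (r θ : ℝ) : (ray r θ).im = r * Real.sin θ := by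
  rw [ray, Complex.im_ofReal_mul, Complex.exp_ofReal_mul_I_im]

lemma ray_re (r θ : ℝ) : (ray r θ).re = r * Real.cos θ := by
  rw [ray, Complex.re_ofReal_mul, Complex.exp_ofReal_mul_I_re]

lemma enorm_log_eq {w : ℂ} (hw : w ≠ 0) : ENNReal.log ‖w‖ₑ = (Real.log ‖w‖ : ℝ) := by
  rw [← ofReal_norm, ENNReal.log_ofReal_of_pos (norm_pos_iff.2 hw)]

/-- the term of the limsup -/
lemma term_eq {ρ r : ℝ} {w : ℂ} (hw : w ≠ 0) :
    ((r ^ (-ρ) : ℝ) : EReal) * ENNReal.log ‖w‖ₑ = ((r ^ (-ρ) * Real.log ‖w‖ : ℝ) : EReal) := by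
  rw [enorm_log_eq hw, ← EReal.coe_mul]

lemma term_zero {ρ r : ℝ} (hr : 0 < r) :
    ((r ^ (-ρ) : ℝ) : EReal) * ENNReal.log ‖(0 : ℂ)‖ₑ = ⊥ := by
  rw [enorm_zero, ENNReal.log_zero, EReal.coe_mul_bot_of_pos (Real.rpow_pos_of_pos hr _)]

/-- comparison of one term of the limsup with a real number -/
lemma term_lt_iff {ρ a r : ℝ} (hr : 0 < r) (w : ℂ) :
    ((r ^ (-ρ) : ℝ) : EReal) * ENNReal.log ‖w‖ₑ < a ↔ ‖w‖ < Real.exp (a * r ^ ρ) := by
  have hrp : 0 < r ^ ρ := Real.rpow_pos_of_pos hr _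
  rcases eq_or_ne w 0 with rfl | hw
  · rw [term_zero hr, norm_zero]
    exact ⟨fun _ => Real.exp_pos _, fun _ => EReal.bot_lt_coe a⟩
  · rw [term_eq hw, EReal.coe_lt_coe_iff, Real.rpow_neg hr.le, inv_mul_lt_iff₀ hrp, mul_comm,
      Real.log_lt_iff_lt_exp (norm_pos_iff.2 hw)]

lemma lt_term_iff {ρ a r : ℝ} (hr : 0 < r) (w : ℂ) :
    (a : EReal) < ((r ^ (-ρ) : ℝ) : EReal) * ENNReal.log ‖w‖ₑ ↔ Real.exp (a * r ^ ρ) < ‖w‖ := by
  have hrp : 0 < r ^ ρ := Real.rpow_pos_of_pos hr _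
  rcases eq_or_ne w 0 with rfl | hw
  · rw [term_zero hr, norm_zero]
    exact ⟨fun h => absurd h (not_lt_bot), fun h => absurd h (not_lt.2 (Real.exp_pos _).le)⟩
  · rw [term_eq hw, EReal.coe_lt_coe_iff, Real.rpow_neg hr.le, lt_inv_mul_iff₀ hrp, mul_comm,
      Real.lt_log_iff_exp_lt (norm_pos_iff.2 hw)]

/-- upper bound for the indicator -/
lemma eventually_of_ind_lt {ρ a θ : ℝ} {f : ℂ → ℂ} (h : ind ρ f θ < a) :
    ∀ᶠ r : ℝ in atTop, ‖f (ray r θ)‖ < Real.exp (a * r ^ ρ) := by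
  have h1 := eventually_lt_of_limsup_lt h
  filter_upwards [h1, eventually_gt_atTop 0] with r hr hr0
  exact (term_lt_iff hr0 _).1 hr

lemma ind_le_of_eventually {ρ a θ : ℝ} {f : ℂ → ℂ}
    (h : ∀ᶠ r : ℝ in atTop, ‖f (ray r θ)‖ ≤ Real.exp (a * r ^ ρ)) : ind ρ f θ ≤ a := by
  refine limsup_le_of_le (h := ?_)
  filter_upwards [h, eventually_gt_atTop 0] with r hr hr0
  by_contra hcon
  rw [not_le] at hcon
  exact absurd ((lt_term_iff hr0 _).1 hcon) (not_lt.2 hr)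

/-- lower bound for the indicator -/
lemma le_ind_of_frequently {ρ a θ : ℝ} {f : ℂ → ℂ}
    (h : ∃ᶠ r : ℝ in atTop, Real.exp (a * r ^ ρ) ≤ ‖f (ray r θ)‖) : (a : EReal) ≤ ind ρ f θ := by
  refine le_limsup_of_frequently_le' ?_
  refine (h.and_eventually (eventually_gt_atTop 0)).mono ?_
  rintro r ⟨hr, hr0⟩
  by_contra hcon
  rw [not_le] at hcon
  exact absurd ((term_lt_iff hr0 _).1 hcon) (not_lt.2 hr)

lemma frequently_of_lt_ind {ρ a θ : ℝ} {f : ℂ → ℂ} (h : (a : EReal) < ind ρ f θ) :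
    ∃ᶠ r : ℝ in atTop, Real.exp (a * r ^ ρ) < ‖f (ray r θ)‖ := by
  have h1 := frequently_lt_of_lt_limsup (h := h)
  refine (h1.and_eventually (eventually_gt_atTop 0)).mono ?_
  rintro r ⟨hr, hr0⟩
  exact (lt_term_iff hr0 _).1 hr

lemma ind_add_two_pi (ρ : ℝ) (f : ℂ → ℂ) (θ : ℝ) : ind ρ f (θ + 2 * π) = ind ρ f θ := by
  simp only [ind, ray_add_two_pi]

lemma ind_add_int (ρ : ℝ) (f : ℂ → ℂ) (θ : ℝ) (n : ℤ) :
    ind ρ f (θ + n * (2 * π)) = ind ρ f θ := by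
  simp only [ind, ray_add_int]

lemma InClass.ind_le {ρ : ℝ} {f : ℂ → ℂ} (hf : InClass ρ f) {θ : ℝ} (hθ : θ ∈ Ioo 0 π) :
    ind ρ f θ ≤ ind ρ f (-θ) := by
  refine limsup_le_limsup ?_
  filter_upwards [eventually_gt_atTop 0] with r hr
  have h1 : ‖f (ray r θ)‖ ≤ ‖f (ray r (-θ))‖ := by
    rw [← conj_ray]
    refine hf.norm_le _ ?_
    rw [ray_im]
    exact mul_pos hr (Real.sin_pos_of_pos_of_lt_pi hθ.1 hθ.2)
  have h2 : ‖f (ray r θ)‖ₑ ≤ ‖f (ray r (-θ))‖ₑ := enorm_le_iff_norm_le.2 h1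
  exact mul_le_mul_of_nonneg_left (ENNReal.log_le_log h2)
    (EReal.coe_nonneg.2 (Real.rpow_nonneg hr.le _))

/-- the order of a function: an upper bound for all `σ > ρ` -/
lemma HasOrder.eventually {ρ σ : ℝ} {f : ℂ → ℂ} (h : HasOrder ρ f) (hσ : ρ < σ) :
    ∀ᶠ z in cobounded ℂ, ‖f z‖ ≤ Real.exp (‖z‖ ^ σ) := by
  obtain ⟨s, ⟨hs1, hs2⟩, hs3, hs4⟩ := h.exists_between hσ
  filter_upwards [hs2, (tendsto_norm_cobounded_atTop (E := ℂ)).eventually_ge_atTop 1] with z hz hz1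
  exact hz.trans (Real.exp_le_exp.2 (Real.rpow_le_rpow_of_exponent_le hz1 hs4.le))

/-- criterion for the order -/
lemma hasOrder_of {ρ : ℝ} {f : ℂ → ℂ} (hρ : 0 ≤ ρ)
    (h1 : ∀ σ, ρ < σ → ∀ᶠ z in cobounded ℂ, ‖f z‖ ≤ Real.exp (‖z‖ ^ σ))
    (h2 : ∀ σ, 0 ≤ σ → σ < ρ → ∃ᶠ z in cobounded ℂ, Real.exp (‖z‖ ^ σ) < ‖f z‖) :
    HasOrder ρ f := by
  refine ⟨?_, ?_⟩
  · rintro σ ⟨hσ0, hσ⟩
    by_contra hcon
    rw [not_le] at hcon
    exact (h2 σ hσ0 hcon) (hσ.mono fun z hz => not_lt.2 hz)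
  · intro b hb
    by_contra hcon
    rw [not_le] at hcon
    obtain ⟨c, hc1, hc2⟩ := exists_between hcon
    exact absurd (hb ⟨hρ.trans hc1.le, h1 c hc1⟩) (not_le.2 hc2)

/-- the class `E_ρ` without the lower bound for the order -/
structure Pre (ρ : ℝ) (f : ℂ → ℂ) : Prop where
  entire : Differentiable ℂ f
  order : ∀ σ : ℝ, ρ < σ → ∀ᶠ z in cobounded ℂ, ‖f z‖ ≤ Real.exp (‖z‖ ^ σ)
  zero_free : ∀ z : ℂ, z.im < 0 → f z ≠ 0
  norm_le : ∀ z : ℂ, 0 < z.im → ‖f z‖ ≤ ‖f (conj z)‖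

/-- `K r ^ σ' ≤ r ^ σ` for large `r` if `σ' < σ` -/
lemma eventually_mul_rpow_le {σ' σ : ℝ} (h : σ' < σ) (K : ℝ) :
    ∀ᶠ r : ℝ in atTop, K * r ^ σ' ≤ r ^ σ := by
  have h1 : Tendsto (fun r : ℝ => r ^ (σ - σ')) atTop atTop := tendsto_rpow_atTop (by linarith)
  filter_upwards [h1.eventually_ge_atTop K, eventually_gt_atTop 0] with r hr hr0
  calc K * r ^ σ' ≤ r ^ (σ - σ') * r ^ σ' :=
        mul_le_mul_of_nonneg_right hr (Real.rpow_nonneg hr0.le _)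
    _ = r ^ σ := by rw [← Real.rpow_add hr0]; congr 1; ring

lemma Pre.mul {ρ : ℝ} {f g : ℂ → ℂ} (hf : Pre ρ f) (hg : Pre ρ g) :
    Pre ρ (fun z => f z * g z) where
  entire := hf.entire.mul hg.entire
  order := by
    intro σ hσ
    obtain ⟨σ', h1, h2⟩ := exists_between hσ
    filter_upwards [hf.order σ' h1, hg.order σ' h1,
      (tendsto_norm_cobounded_atTop (E := ℂ)).eventually (eventually_mul_rpow_le h2 2)]
      with z hz1 hz2 hz3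
    rw [norm_mul]
    calc ‖f z‖ * ‖g z‖ ≤ Real.exp (‖z‖ ^ σ') * Real.exp (‖z‖ ^ σ') :=
          mul_le_mul hz1 hz2 (norm_nonneg _) (Real.exp_pos _).le
      _ = Real.exp (2 * ‖z‖ ^ σ') := by rw [← Real.exp_add]; ring_nf
      _ ≤ Real.exp (‖z‖ ^ σ) := Real.exp_le_exp.2 hz3
  zero_free := fun z hz => mul_ne_zero (hf.zero_free z hz) (hg.zero_free z hz)
  norm_le := by
    intro z hz
    rw [norm_mul, norm_mul]
    exact mul_le_mul (hf.norm_le z hz) (hg.norm_le z hz) (norm_nonneg _) (norm_nonneg _)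

lemma tendsto_ray (θ : ℝ) : Tendsto (fun r : ℝ => ray r θ) atTop (cobounded ℂ) := by
  rw [← tendsto_norm_atTop_iff_cobounded]
  refine tendsto_id.congr' ?_
  filter_upwards [eventually_ge_atTop 0] with r hr
  rw [norm_ray hr, id]

lemma Pre.inClass_of_frequently {ρ : ℝ} {f : ℂ → ℂ} (hρ : 0 < ρ) (hf : Pre ρ f) {θ : ℝ}
    (h : ∀ σ, 0 ≤ σ → σ < ρ → ∃ᶠ r : ℝ in atTop, Real.exp (r ^ σ) < ‖f (ray r θ)‖) :
    InClass ρ f where
  entire := hf.entire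
  order := by
    refine hasOrder_of hρ.le hf.order fun σ hσ0 hσ => ?_
    refine (tendsto_ray θ).frequently ?_
    refine ((h σ hσ0 hσ).and_eventually (eventually_ge_atTop 0)).mono ?_
    rintro r ⟨hr, hr0⟩
    rwa [norm_ray hr0]
  zero_free := hf.zero_free
  norm_le := hf.norm_le

/-- if the indicator is positive somewhere, the order is exactly `ρ` -/
lemma Pre.inClass {ρ : ℝ} {f : ℂ → ℂ} (hρ : 0 < ρ) (hf : Pre ρ f) {θ : ℝ}
    (h : 0 < ind ρ f θ) : InClass ρ f := by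
  obtain ⟨a, ha0, ha⟩ := EReal.exists_between_coe_real h
  refine hf.inClass_of_frequently hρ (θ := θ) fun σ hσ0 hσ => ?_
  have ha0' : 0 < a := by exact_mod_cast ha0
  have h1 := frequently_of_lt_ind ha
  refine (h1.and_eventually (eventually_mul_rpow_le hσ a⁻¹)).mono ?_
  rintro r ⟨hr, hr1⟩
  refine lt_of_le_of_lt (Real.exp_le_exp.2 ?_) hr
  rwa [inv_mul_le_iff₀ ha0'] at hr1

end HBInd
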