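import Mathlib

/-!
# Discretisation of a density

Paper proof. `A(x) = ∫_{-∞}^x p` is continuous and nondecreasing, `A = 0` for `x ≤ T`, constant
`= A∞` for `x ≥ T'`. `N = ⌊A∞⌋`; for `n = 1, ..., N` choose `τ_n ∈ [T, T']` with `A(τ_n) = n`
(nondecreasing in `n`), `τ_0 = T`. The mass of `(τ_{n-1}, τ_n]` is `1`.
Antitone `φ ≥ 0`: `φ(τ_n) ≤ ∫_{τ_{n-1}}^{τ_n} φ p`.
General `φ`: `|φ(τ_n) - ∫_{τ_{n-1}}^{τ_n} φ p| ≤ ∫_{τ_{n-1}}^{τ_n} |φ'|`, and the remaining piece is
`|∫_{τ_N}^{T'} φ p| ≤ sup_{t ≥ T} |φ(t)| ≤ ∫_T^∞ |φ'|` because its mass is `< 1` and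
`φ(t) = -∫_t^∞ φ'`.
-/

namespace HBInd

open Filter Topology Set MeasureTheory

lemma integral_eq_interval {f p : ℝ → ℝ} {T T' : ℝ} (hT : T ≤ T')
    (hsupp : ∀ t, t ∉ Icc T T' → p t = 0) :
    ∫ t, f t * p t = ∫ t in T..T', f t * p t := by
  rw [intervalIntegral.integral_of_le hT, ← integral_Icc_eq_integral_Ioc,
    setIntegral_eq_integral_of_forall_compl_eq_zero]
  intro t ht
  rw [hsupp t ht, mul_zero]

/-- the error on one interval of mass `1` -/
lemma one_interval {p φ φ' : ℝ → ℝ} (hp : Continuous p) (hp0 : ∀ t, 0 ≤ p t) {a b : ℝ}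
    (hab : a ≤ b) (h1 : ∫ t in a..b, p t = 1) (hφ : ∀ t, HasDerivAt φ (φ' t) t)
    (hφ' : Continuous φ') :
    |φ b - ∫ t in a..b, φ t * p t| ≤ ∫ t in a..b, |φ' t| := by
  have hφc : Continuous φ := continuous_iff_continuousAt.2 fun t => (hφ t).continuousAt
  have hI : ∀ (f : ℝ → ℝ), Continuous f → ∀ x y : ℝ, IntervalIntegrable f volume x y :=
    fun f hf x y => hf.intervalIntegrable x y
  have e1 : φ b - ∫ t in a..b, φ t * p t = ∫ t in a..b, (φ b - φ t) * p t := by
    have e2 : ∫ t in a..b, (φ b - φ t) * p t = ∫ t in a..b, (φ b * p t - φ t * p t) := by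
      congr 1
      funext t
      ring
    rw [e2, intervalIntegral.integral_sub (hI _ (by fun_prop) _ _) (hI _ (by fun_prop) _ _),
      intervalIntegral.integral_const_mul, h1, mul_one]
  rw [e1]
  refine (intervalIntegral.abs_integral_le_integral_abs hab).trans ?_
  have e3 : ∀ t ∈ Icc a b, |(φ b - φ t) * p t| ≤ (∫ s in a..b, |φ' s|) * p t := by
    intro t ht
    rw [abs_mul, abs_of_nonneg (hp0 t)]
    refine mul_le_mul_of_nonneg_right ?_ (hp0 t)
    have e4 : ∫ s in t..b, φ' s = φ b - φ t :=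
      intervalIntegral.integral_eq_sub_of_hasDerivAt (fun s _ => hφ s) (hI _ hφ' _ _)
    rw [← e4]
    refine (intervalIntegral.abs_integral_le_integral_abs ht.2).trans ?_
    exact intervalIntegral.integral_mono_interval ht.1 ht.2 le_rfl
      (Filter.Eventually.of_forall fun s => abs_nonneg _) (hI _ (by fun_prop) _ _)
  refine (intervalIntegral.integral_mono_on hab (hI _ (by fun_prop) _ _)
    (hI _ (by fun_prop) _ _) e3).trans ?_
  rw [intervalIntegral.integral_const_mul, h1, mul_one]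

theorem exists_points {p : ℝ → ℝ} (hp : Continuous p) (hp0 : ∀ t, 0 ≤ p t) {T T' : ℝ} (hT : T ≤ T')
    (hsupp : ∀ t, t ∉ Icc T T' → p t = 0) :
    ∃ (N : ℕ) (τ : Fin N → ℝ), (∀ n, τ n ∈ Icc T T') ∧
      (∀ φ : ℝ → ℝ, Antitone φ → (∀ t, 0 ≤ φ t) → ∑ n, φ (τ n) ≤ ∫ t, φ t * p t) ∧
      (∀ φ φ' : ℝ → ℝ, (∀ t, HasDerivAt φ (φ' t) t) → Continuous φ' → IntegrableOn φ' (Ioi T) →
        Tendsto φ atTop (𝓝 0) →
        |∑ n, φ (τ n) - ∫ t, φ t * p t| ≤ 2 * ∫ t in Ioi T, |φ' t|) := by
  have hI : ∀ (f : ℝ → ℝ), Continuous f → ∀ x y : ℝ, IntervalIntegrable f volume x y :=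
    fun f hf x y => hf.intervalIntegrable x y
  set A : ℝ → ℝ := fun x => ∫ t in T..x, p t with hA
  have hAc : Continuous A := intervalIntegral.continuous_primitive (fun x y => hI p hp x y) T
  have hA0 : A T = 0 := by simp [hA]
  have hsub : ∀ x y, ∫ t in x..y, p t = A y - A x := fun x y =>
    (intervalIntegral.integral_interval_sub_left (hI p hp _ _) (hI p hp _ _)).symm
  have hAm : Monotone A := by
    intro x y hxy
    have h1 := hsub x y
    have h2 : 0 ≤ ∫ t in x..y, p t := intervalIntegral.integral_nonneg hxy fun t _ => hp0 t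
    linarith
  have hA1 : 0 ≤ A T' := hA0 ▸ hAm hT
  set N : ℕ := ⌊A T'⌋₊ with hN
  have hN1 : (N : ℝ) ≤ A T' := Nat.floor_le hA1
  have hN2 : A T' < N + 1 := Nat.lt_floor_add_one _
  have hex : ∀ j : ℕ, ∃ x, j ≤ N → x ∈ Icc T T' ∧ A x = j ∧ (j = 0 → x = T) := by
    intro j
    by_cases hj : j ≤ N
    · rcases Nat.eq_zero_or_pos j with rfl | hj0
      · exact ⟨T, fun _ => ⟨⟨le_rfl, hT⟩, by simpa using hA0, fun _ => rfl⟩⟩
      · have h1 : (j : ℝ) ∈ Icc (A T) (A T') := by
          rw [hA0]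
          refine ⟨Nat.cast_nonneg _, le_trans ?_ hN1⟩
          exact_mod_cast hj
        obtain ⟨x, hx, hxj⟩ := intermediate_value_Icc hT hAc.continuousOn h1
        exact ⟨x, fun _ => ⟨hx, hxj, fun h => absurd h hj0.ne'⟩⟩
    · exact ⟨T, fun h => absurd h hj⟩
  choose s hs using hex
  have hs0 : s 0 = T := (hs 0 (Nat.zero_le _)).2.2 rfl
  have hsmono : ∀ j, j < N → s j ≤ s (j + 1) := by
    intro j hj
    by_contra hcon
    push Not at hcon
    have h1 := hAm hcon.le
    rw [(hs j hj.le).2.1, (hs (j + 1) hj).2.1] at h1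
    push_cast at h1
    linarith
  have hmass : ∀ j, j < N → ∫ t in s j..s (j + 1), p t = 1 := by
    intro j hj
    rw [hsub, (hs j hj.le).2.1, (hs (j + 1) hj).2.1]
    push_cast
    ring
  have hsN : s N ∈ Icc T T' := (hs N le_rfl).1
  have hmassN : ∫ t in s N..T', p t ≤ 1 := by
    rw [hsub, (hs N le_rfl).2.1]
    linarith
  refine ⟨N, fun n => s (n + 1), fun n => (hs (n + 1) n.2).1, ?_, ?_⟩
  · intro φ hφ hφ0
    have hII : ∀ x y : ℝ, IntervalIntegrable (fun t => φ t * p t) volume x y := fun x y =>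
      (hφ.intervalIntegrable (a := x) (b := y)).mul_continuousOn hp.continuousOn
    rw [integral_eq_interval hT hsupp,
      Fin.sum_univ_eq_sum_range (fun n => φ (s (n + 1))) N]
    have h1 : ∀ n ∈ Finset.range N, φ (s (n + 1)) ≤ ∫ t in s n..s (n + 1), φ t * p t := by
      intro n hn
      have hn' := Finset.mem_range.1 hn
      have h2 : φ (s (n + 1)) = ∫ t in s n..s (n + 1), φ (s (n + 1)) * p t := by
        rw [intervalIntegral.integral_const_mul, hmass n hn', mul_one]
      rw [h2]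
      refine intervalIntegral.integral_mono_on (hsmono n hn') (hI _ (by fun_prop) _ _)
        (hII _ _) ?_
      intro t ht
      exact mul_le_mul_of_nonneg_right (hφ ht.2) (hp0 t)
    refine (Finset.sum_le_sum h1).trans ?_
    rw [intervalIntegral.sum_integral_adjacent_intervals (fun k _ => hII _ _), hs0]
    exact intervalIntegral.integral_mono_interval le_rfl hsN.1 hsN.2
      (Filter.Eventually.of_forall fun t => mul_nonneg (hφ0 t) (hp0 t)) (hII _ _)
  · intro φ φ' hφ hφ' hint hlim
    have hφc : Continuous φ := continuous_iff_continuousAt.2 fun t => (hφ t).continuousAt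
    have hII : ∀ x y : ℝ, IntervalIntegrable (fun t => φ t * p t) volume x y := fun x y =>
      hI _ (by fun_prop) _ _
    have hintabs : IntegrableOn (fun t => |φ' t|) (Ioi T) := hint.abs
    set V : ℝ := ∫ t in Ioi T, |φ' t| with hV
    have hV0 : 0 ≤ V := integral_nonneg fun t => abs_nonneg _
    have hsup : ∀ t, T ≤ t → |φ t| ≤ V := by
      intro t ht
      have h1 := integral_Ioi_of_hasDerivAt_of_tendsto (f := φ) (f' := φ') (a := t) (m := 0)
        hφc.continuousWithinAt (fun x _ => hφ x) (hint.mono_set (Ioi_subset_Ioi ht)) hlim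
      rw [zero_sub] at h1
      rw [← abs_neg, ← h1]
      refine (abs_integral_le_integral_abs).trans ?_
      exact setIntegral_mono_set hintabs (Filter.Eventually.of_forall fun t => abs_nonneg _)
        (Filter.Eventually.of_forall (Ioi_subset_Ioi ht))
    have hsumV : ∑ n ∈ Finset.range N, ∫ t in s n..s (n + 1), |φ' t| ≤ V := by
      rw [intervalIntegral.sum_integral_adjacent_intervals
        (fun k _ => hI _ (by fun_prop) _ _), hs0, intervalIntegral.integral_of_le hsN.1, hV]
      exact setIntegral_mono_set hintabs (Filter.Eventually.of_forall fun t => abs_nonneg _)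
        (Filter.Eventually.of_forall Ioc_subset_Ioi_self)
    rw [integral_eq_interval hT hsupp,
      Fin.sum_univ_eq_sum_range (fun n => φ (s (n + 1))) N]
    have hsplit : ∫ t in T..T', φ t * p t =
        (∑ n ∈ Finset.range N, ∫ t in s n..s (n + 1), φ t * p t) +
          ∫ t in s N..T', φ t * p t := by
      rw [intervalIntegral.sum_integral_adjacent_intervals (fun k _ => hII _ _), hs0,
        intervalIntegral.integral_add_adjacent_intervals (hII _ _) (hII _ _)]
    rw [hsplit]
    have h2 : |∑ n ∈ Finset.range N, (φ (s (n + 1)) - ∫ t in s n..s (n + 1), φ t * p t)| ≤ V := by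
      refine (Finset.abs_sum_le_sum_abs _ _).trans (le_trans (Finset.sum_le_sum ?_) hsumV)
      intro n hn
      have hn' := Finset.mem_range.1 hn
      exact one_interval hp hp0 (hsmono n hn') (hmass n hn') hφ hφ'
    have h3 : |∫ t in s N..T', φ t * p t| ≤ V := by
      refine (intervalIntegral.abs_integral_le_integral_abs hsN.2).trans ?_
      have h4 : ∀ t ∈ Icc (s N) T', |φ t * p t| ≤ V * p t := by
        intro t ht
        rw [abs_mul, abs_of_nonneg (hp0 t)]
        exact mul_le_mul_of_nonneg_right (hsup t (hsN.1.trans ht.1)) (hp0 t)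
      refine (intervalIntegral.integral_mono_on hsN.2 (hI _ (by fun_prop) _ _)
        (hI _ (by fun_prop) _ _) h4).trans ?_
      rw [intervalIntegral.integral_const_mul]
      exact mul_le_of_le_one_right hV0 hmassN
    rw [Finset.sum_sub_distrib] at h2
    rw [abs_le] at h2 h3 ⊢
    constructor <;> linarith

end HBInd
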