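import Pool.Agent.HBInd.KernelInt
import Pool.Agent.HBInd.Disc

/-!
# One block of zeros
-/

namespace HBInd

open Complex Filter Topology Set Bornology MeasureTheory
open scoped Real

/-- trapezoids -/
noncomputable def trap (T T' w t : ℝ) : ℝ := max 0 (min 1 (min ((t - T) / w) ((T' - t) / w)))

lemma trap_nonneg (T T' w t : ℝ) : 0 ≤ trap T T' w t := le_max_left _ _

lemma trap_le_one (T T' w t : ℝ) : trap T T' w t ≤ 1 :=
  max_le zero_le_one (min_le_left _ _)

lemma continuous_trap (T T' w : ℝ) : Continuous (trap T T' w) := by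
  unfold trap
  fun_prop

lemma trap_eq_zero {T T' w t : ℝ} (hw : 0 < w) (ht : t ∉ Ioo T T') : trap T T' w t = 0 := by
  refine max_eq_left ?_
  rw [mem_Ioo, not_and_or, not_lt, not_lt] at ht
  rcases ht with ht | ht
  · refine (min_le_right _ _).trans ((min_le_left _ _).trans ?_)
    exact div_nonpos_of_nonpos_of_nonneg (by linarith) hw.le
  · refine (min_le_right _ _).trans ((min_le_right _ _).trans ?_)
    exact div_nonpos_of_nonpos_of_nonneg (by linarith) hw.le

lemma trap_mid {T T' w : ℝ} (hw : 0 < w) (h : T + 2 * w ≤ T') : trap T T' w ((T + T') / 2) = 1 := by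
  have h1 : 1 ≤ ((T + T') / 2 - T) / w := by rw [le_div_iff₀ hw]; linarith
  have h2 : 1 ≤ (T' - (T + T') / 2) / w := by rw [le_div_iff₀ hw]; linarith
  rw [trap, min_eq_left (le_min h1 h2), max_eq_right zero_le_one]

lemma abs_max_sub_max_le' (a b c : ℝ) : |max a b - max a c| ≤ |b - c| := by
  simpa using abs_max_sub_max_le_max a b a c

lemma abs_trap_sub_le {T T' w : ℝ} (hw : 0 < w) (s t : ℝ) :
    |trap T T' w s - trap T T' w t| ≤ |s - t| / w := by
  have hkey : ∀ s t : ℝ, trap T T' w s ≤ trap T T' w t + |s - t| / w := by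
    intro s t
    have h0 : 0 ≤ |s - t| / w := div_nonneg (abs_nonneg _) hw.le
    unfold trap
    refine max_le ?_ ?_
    · exact add_nonneg (le_max_left _ _) h0
    · have h1 : (s - T) / w ≤ (t - T) / w + |s - t| / w := by
        rw [← add_div]
        refine div_le_div_of_nonneg_right ?_ hw.le
        linarith [le_abs_self (s - t)]
      have h2 : (T' - s) / w ≤ (T' - t) / w + |s - t| / w := by
        rw [← add_div]
        refine div_le_div_of_nonneg_right ?_ hw.le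
        linarith [neg_abs_le (s - t)]
      have h3 : min 1 (min ((s - T) / w) ((T' - s) / w)) ≤
          min 1 (min ((t - T) / w) ((T' - t) / w)) + |s - t| / w := by
        rw [← min_add_add_right, ← min_add_add_right]
        refine min_le_min (by linarith) (min_le_min h1 h2)
      exact h3.trans (add_le_add_left (le_max_right _ _) _)
  rw [abs_le]
  have h1 := hkey s t
  have h2 := hkey t s
  rw [abs_sub_comm t s] at h2
  constructor <;> linarith

/-- `∫ (1 + |u|) Phi u e^{-ρu}` -/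
noncomputable def I1 (ρ : ℝ) : ℝ := ∫ u : ℝ, (1 + |u|) * Phi u * Real.exp (-ρ * u)

lemma min_one_exp_le {ρ : ℝ} (hρ : 0 < ρ) (hρ1 : ρ < 1) (x : ℝ) :
    min 1 (Real.exp x) ≤ Real.exp (ρ * x) := by
  rcases le_total 0 x with hx | hx
  · exact (min_le_left _ _).trans (Real.one_le_exp (by positivity))
  · refine (min_le_right _ _).trans (Real.exp_le_exp.2 ?_)
    nlinarith

lemma ae_ne_zero : ∀ᵐ u : ℝ, u ≠ 0 := by
  rw [ae_iff]
  simp

lemma ae_abs_ker_le (ψ : ℝ) : ∀ᵐ u : ℝ, |ker u ψ| ≤ Phi u := by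
  filter_upwards [ae_ne_zero] with u hu
  exact abs_ker_le hu ψ

lemma continuous_ker {ψ : ℝ} (hψ : Real.sin ψ ≠ 0) : Continuous fun u => ker u ψ :=
  continuous_iff_continuousAt.2 fun u => (hasDerivAt_ker hψ u).continuousAt

/-- integrability of `ker` against bounded continuous functions -/
lemma integrable_ker_mul {ρ : ℝ} (hρ : 0 < ρ) (hρ1 : ρ < 1) {ψ : ℝ} (hψ : Real.sin ψ ≠ 0)
    {χ : ℝ → ℝ} (hχ : Continuous χ) {K : ℝ} (hK : ∀ u, |χ u| ≤ K * (1 + |u|)) :
    Integrable fun u : ℝ => ker u ψ * Real.exp (-ρ * u) * χ u := by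
  refine ((integrable_Phi hρ hρ1).const_mul K).mono' ?_ ?_
  · refine Continuous.aestronglyMeasurable ?_
    exact ((continuous_ker hψ).mul (by fun_prop)).mul hχ
  · filter_upwards [ae_abs_ker_le ψ] with u hu
    rw [Real.norm_eq_abs, abs_mul, abs_mul, Real.abs_exp]
    calc |ker u ψ| * Real.exp (-ρ * u) * |χ u| ≤
        Phi u * Real.exp (-ρ * u) * (K * (1 + |u|)) := by
          refine mul_le_mul ?_ (hK u) (abs_nonneg _) ?_
          · exact mul_le_mul_of_nonneg_right hu (Real.exp_pos _).le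
          · exact mul_nonneg (Phi_nonneg u) (Real.exp_pos _).le
      _ = K * ((1 + |u|) * Phi u * Real.exp (-ρ * u)) := by ring

lemma abs_integral_ker_mul_le {ρ : ℝ} (hρ : 0 < ρ) (hρ1 : ρ < 1) {ψ : ℝ} {χ : ℝ → ℝ} {K : ℝ} (hK : ∀ u, |χ u| ≤ K * (1 + |u|)) :
    |∫ u : ℝ, ker u ψ * Real.exp (-ρ * u) * χ u| ≤ K * I1 ρ := by
  rw [I1, ← integral_const_mul, ← Real.norm_eq_abs]
  refine norm_integral_le_of_norm_le ((integrable_Phi hρ hρ1).const_mul K) ?_
  filter_upwards [ae_abs_ker_le ψ] with u hu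
  rw [Real.norm_eq_abs, abs_mul, abs_mul, Real.abs_exp]
  calc |ker u ψ| * Real.exp (-ρ * u) * |χ u| ≤
      Phi u * Real.exp (-ρ * u) * (K * (1 + |u|)) := by
        refine mul_le_mul ?_ (hK u) (abs_nonneg _) ?_
        · exact mul_le_mul_of_nonneg_right hu (Real.exp_pos _).le
        · exact mul_nonneg (Phi_nonneg u) (Real.exp_pos _).le
    _ = K * ((1 + |u|) * Phi u * Real.exp (-ρ * u)) := by ring

lemma integrableOn_dker {ρ : ℝ} (hρ : 0 < ρ) (hρ1 : ρ < 1) {ψ : ℝ} (hψ : Real.sin ψ ≠ 0)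
    (t₀ T : ℝ) : IntegrableOn (fun t => -dker (t₀ - t) ψ) (Ioi T) ∧
      ∫ t in Ioi T, |-dker (t₀ - t) ψ| ≤
        Real.exp (ρ * t₀) / |Real.sin ψ| * (Real.exp (-ρ * T) / ρ) := by
  have hs : 0 < |Real.sin ψ| := abs_pos.2 hψ
  have hb : ∀ t : ℝ, |-dker (t₀ - t) ψ| ≤
      Real.exp (ρ * t₀) / |Real.sin ψ| * Real.exp (-ρ * t) := by
    intro t
    rw [abs_neg]
    refine (abs_dker_le hψ _).trans ?_
    rw [div_mul_eq_mul_div, ← Real.exp_add]
    refine div_le_div_of_nonneg_right ?_ hs.le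
    refine (min_one_exp_le hρ hρ1 _).trans (le_of_eq ?_)
    congr 1
    ring
  have hi : IntegrableOn (fun t => Real.exp (ρ * t₀) / |Real.sin ψ| * Real.exp (-ρ * t))
      (Ioi T) := (integrableOn_exp_mul_Ioi (by linarith : -ρ < 0) T).const_mul _
  constructor
  · refine hi.mono' ?_ ?_
    · refine Continuous.aestronglyMeasurable ?_
      exact ((continuous_dker hψ).comp (by fun_prop)).neg
    · exact Eventually.of_forall fun t => by rw [Real.norm_eq_abs]; exact hb t
  · calc ∫ t in Ioi T, |-dker (t₀ - t) ψ| ≤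
        ∫ t in Ioi T, Real.exp (ρ * t₀) / |Real.sin ψ| * Real.exp (-ρ * t) := by
          refine integral_mono_of_nonneg (Eventually.of_forall fun t => abs_nonneg _) hi
            (Eventually.of_forall hb)
      _ = Real.exp (ρ * t₀) / |Real.sin ψ| * (Real.exp (-ρ * T) / ρ) := by
          rw [integral_const_mul, integral_exp_mul_Ioi (by linarith : -ρ < 0)]
          congr 1
          rw [neg_div_neg_eq]

/-- one block of zeros -/
theorem exists_block {ρ : ℝ} (hρ : 0 < ρ) (hρ1 : ρ < 1) {C : ℝ} (hC : 0 < C)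
    (hker : ∀ ψ : ℝ, Real.sin ψ ≠ 0 → ∫ u : ℝ, ker u ψ * Real.exp (-ρ * u) = C * G ρ ψ)
    {m T T' w : ℝ} (hm : 0 ≤ m) (hT : T ≤ T') (hw : 0 < w) :
    ∃ (N : ℕ) (τ : Fin N → ℝ), (∀ n, τ n ∈ Icc T T') ∧
      (∀ φ : ℝ → ℝ, Antitone φ → (∀ t, 0 ≤ φ t) →
        ∑ n, φ (τ n) ≤ ∫ t, φ t * (m / C * (trap T T' w t * Real.exp (ρ * t)))) ∧
      (∀ ψ : ℝ, Real.sin ψ ≠ 0 → ∀ t₀ : ℝ,
        |∑ n, ker (t₀ - τ n) ψ - m * G ρ ψ * trap T T' w t₀ * Real.exp (ρ * t₀)| ≤
          Real.exp (ρ * t₀) *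
            (2 / ρ * (Real.exp (-ρ * T) / |Real.sin ψ|) + m / C * (1 / w * I1 ρ))) := by
  have hmC : 0 ≤ m / C := div_nonneg hm hC.le
  obtain ⟨N, τ, h1, h2, h3⟩ := exists_points
    (p := fun t => m / C * (trap T T' w t * Real.exp (ρ * t)))
    (continuous_const.mul ((continuous_trap T T' w).mul (by fun_prop)))
    (fun t => mul_nonneg hmC (mul_nonneg (trap_nonneg _ _ _ _) (Real.exp_pos _).le)) hT
    (fun t ht => by
      rw [trap_eq_zero hw (fun h => ht (Ioo_subset_Icc_self h)), zero_mul, mul_zero])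
  refine ⟨N, τ, h1, h2, fun ψ hψ t₀ => ?_⟩
  have hs : 0 < |Real.sin ψ| := abs_pos.2 hψ
  obtain ⟨hi1, hi2⟩ := integrableOn_dker hρ hρ1 hψ t₀ T
  have e1 := h3 (fun t => ker (t₀ - t) ψ) (fun t => -dker (t₀ - t) ψ)
    (fun t => by
      have := (hasDerivAt_ker hψ (t₀ - t)).comp t ((hasDerivAt_id t).const_sub t₀)
      simpa [Function.comp_def] using this)
    (((continuous_dker hψ).comp (by fun_prop)).neg) hi1
    ((tendsto_ker_atBot ψ).comp (tendsto_atBot_mono (fun t => le_refl _)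
      (tendsto_const_nhds.add_atBot tendsto_neg_atTop_atBot)))
  -- the integral
  have e2 : ∫ t, ker (t₀ - t) ψ * (m / C * (trap T T' w t * Real.exp (ρ * t))) =
      m / C * Real.exp (ρ * t₀) *
        ∫ u : ℝ, ker u ψ * Real.exp (-ρ * u) * trap T T' w (t₀ - u) := by
    rw [← integral_sub_left_eq_self (fun u => ker (t₀ - u) ψ *
      (m / C * (trap T T' w u * Real.exp (ρ * u)))) volume t₀, ← integral_const_mul]
    congr 1
    ext u
    have : Real.exp (ρ * (t₀ - u)) = Real.exp (ρ * t₀) * Real.exp (-ρ * u) := by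
      rw [← Real.exp_add]; congr 1; ring
    rw [this, sub_sub_cancel]
    ring
  have hb1 : ∀ u : ℝ, |trap T T' w (t₀ - u)| ≤ 1 * (1 + |u|) := by
    intro u
    rw [abs_of_nonneg (trap_nonneg _ _ _ _), one_mul]
    have := trap_le_one T T' w (t₀ - u)
    have := abs_nonneg u
    linarith
  have hb2 : ∀ u : ℝ, |trap T T' w t₀| ≤ 1 * (1 + |u|) := by
    intro u
    rw [abs_of_nonneg (trap_nonneg _ _ _ _), one_mul]
    have := trap_le_one T T' w t₀
    have := abs_nonneg u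
    linarith
  have hb3 : ∀ u : ℝ, |trap T T' w (t₀ - u) - trap T T' w t₀| ≤ 1 / w * (1 + |u|) := by
    intro u
    refine (abs_trap_sub_le hw _ _).trans ?_
    rw [show t₀ - u - t₀ = -u by ring, abs_neg, div_eq_mul_one_div, mul_comm]
    refine mul_le_mul_of_nonneg_left (by linarith) (by positivity)
  have e3 : (∫ t, ker (t₀ - t) ψ * (m / C * (trap T T' w t * Real.exp (ρ * t)))) -
      m * G ρ ψ * trap T T' w t₀ * Real.exp (ρ * t₀) =
      m / C * Real.exp (ρ * t₀) * ∫ u : ℝ, ker u ψ * Real.exp (-ρ * u) *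
        (trap T T' w (t₀ - u) - trap T T' w t₀) := by
    have h4 : ∫ u : ℝ, ker u ψ * Real.exp (-ρ * u) * trap T T' w t₀ =
        C * G ρ ψ * trap T T' w t₀ := by
      rw [integral_mul_const, hker ψ hψ]
    have h5 : ∫ u : ℝ, ker u ψ * Real.exp (-ρ * u) *
        (trap T T' w (t₀ - u) - trap T T' w t₀) =
        (∫ u : ℝ, ker u ψ * Real.exp (-ρ * u) * trap T T' w (t₀ - u)) -
          ∫ u : ℝ, ker u ψ * Real.exp (-ρ * u) * trap T T' w t₀ := by
      rw [← integral_sub]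
      · congr 1
        ext u
        ring
      · exact integrable_ker_mul hρ hρ1 hψ ((continuous_trap T T' w).comp (by fun_prop)) hb1
      · exact integrable_ker_mul hρ hρ1 hψ continuous_const hb2
    rw [h5, h4, e2]
    field_simp
  have e4 : |(∫ t, ker (t₀ - t) ψ * (m / C * (trap T T' w t * Real.exp (ρ * t)))) -
      m * G ρ ψ * trap T T' w t₀ * Real.exp (ρ * t₀)| ≤
      m / C * Real.exp (ρ * t₀) * (1 / w * I1 ρ) := by
    rw [e3, abs_mul, abs_of_nonneg (mul_nonneg hmC (Real.exp_pos _).le)]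
    exact mul_le_mul_of_nonneg_left (abs_integral_ker_mul_le hρ hρ1 hb3)
      (mul_nonneg hmC (Real.exp_pos _).le)
  calc |∑ n, ker (t₀ - τ n) ψ - m * G ρ ψ * trap T T' w t₀ * Real.exp (ρ * t₀)| ≤
      |∑ n, ker (t₀ - τ n) ψ -
        ∫ t, ker (t₀ - t) ψ * (m / C * (trap T T' w t * Real.exp (ρ * t)))| +
      |(∫ t, ker (t₀ - t) ψ * (m / C * (trap T T' w t * Real.exp (ρ * t)))) -
      m * G ρ ψ * trap T T' w t₀ * Real.exp (ρ * t₀)| := abs_sub_le _ _ _
    _ ≤ 2 * (Real.exp (ρ * t₀) / |Real.sin ψ| * (Real.exp (-ρ * T) / ρ)) +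
        m / C * Real.exp (ρ * t₀) * (1 / w * I1 ρ) := by
        refine add_le_add (e1.trans ?_) e4
        linarith
    _ = _ := by
        field_simp

end HBInd
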