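import Pool.Agent.HBInd.KerP
import Pool.Agent.HBInd.Disc2

/-!
# One ray of zeros with a variable density

As in `Pool.Agent.HBInd.Block` (`exists_block`), from `exists_points_var` with the density
`c t * e^{ρ t}`.

* Rays with `sin ψ ≠ 0`: `φ t = kp p (t₀ - t) ψ`, `v t = |dkp p (t₀ - t) ψ| ≤ e^{ρ (t₀ - t)} / |sin ψ|`
  (`hasDerivAt_kp`, `abs_dkp_le`, `mp_le`), `2 ∫_T^∞ v ≤ (2/ρ) e^{ρ (t₀ - T)} / |sin ψ|`. And
  `∫ kp (t₀ - t) c(t) e^{ρ t} dt = e^{ρ t₀} ∫ kp(u) e^{-ρu} c(t₀ - u) du` (`integral_sub_left_eq_self`).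
* All rays, regularised kernel: `φ t = kq p δ (t₀ - t) ψ` is continuous (`continuous_kq`), tends to `0`
  (`abs_kq_le`), and `|φ t - φ s| ≤ (C'/δ) ∫_s^t e^{ρ (t₀ - x)} dx`: for `t - s ≤ 1` from `kd_lip` in both
  directions and `mp_le` (`C' = C e^ρ`), in general by subdivision. The constant `C'` does not depend on
  anything but `ρ`.
-/

namespace HBInd

open Complex Filter Topology Set MeasureTheory
open scoped Real

/-- subdivision: a local variation estimate gives a global one -/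
lemma var_of_local {φ v : ℝ → ℝ} (hv : Continuous v)
    (hloc : ∀ s t, s ≤ t → t - s ≤ 1 → |φ t - φ s| ≤ ∫ x in s..t, v x) :
    ∀ s t, s ≤ t → |φ t - φ s| ≤ ∫ x in s..t, v x := by
  have hI : ∀ x y : ℝ, IntervalIntegrable v volume x y := fun x y => hv.intervalIntegrable x y
  have key : ∀ (n : ℕ) (s t : ℝ), s ≤ t → t - s ≤ n → |φ t - φ s| ≤ ∫ x in s..t, v x := by
    intro n
    induction n with
    | zero =>
      intro s t hst h
      refine hloc s t hst ?_
      have : ((0 : ℕ) : ℝ) = 0 := Nat.cast_zero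
      linarith
    | succ n ih =>
      intro s t hst h
      rcases le_total (t - s) 1 with h1 | h1
      · exact hloc s t hst h1
      · have e1 := ih s (t - 1) (by linarith) (by push_cast at h; linarith)
        have e2 := hloc (t - 1) t (by linarith) (by linarith)
        rw [← intervalIntegral.integral_add_adjacent_intervals (hI s (t - 1)) (hI (t - 1) t)]
        calc |φ t - φ s| ≤ |φ t - φ (t - 1)| + |φ (t - 1) - φ s| := abs_sub_le _ _ _
          _ ≤ _ := by linarith
  intro s t hst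
  obtain ⟨n, hn⟩ := exists_nat_ge (t - s)
  exact key n s t hst hn

/-- the integral of `exp (ρ (t₀ - x))` over `(T, ∞)` -/
lemma integral_exp_Ioi {ρ : ℝ} (hρ : 0 < ρ) (t₀ T K : ℝ) :
    IntegrableOn (fun t => K * Real.exp (ρ * (t₀ - t))) (Ioi T) ∧
      ∫ t in Ioi T, K * Real.exp (ρ * (t₀ - t)) =
        K * (Real.exp (ρ * t₀) * (Real.exp (-ρ * T) / ρ)) := by
  have e : (fun t => K * Real.exp (ρ * (t₀ - t))) =
      fun t => K * Real.exp (ρ * t₀) * Real.exp (-ρ * t) := by
    funext t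
    rw [mul_assoc, ← Real.exp_add]
    congr 2
    ring
  rw [e]
  constructor
  · exact (integrableOn_exp_mul_Ioi (by linarith : -ρ < 0) T).const_mul _
  · rw [integral_const_mul, integral_exp_mul_Ioi (by linarith : -ρ < 0), neg_div_neg_eq]
    ring

lemma tendsto_const_sub_atTop (t₀ : ℝ) : Tendsto (fun t : ℝ => t₀ - t) atTop atBot := by
  simpa [sub_eq_add_neg] using
    (tendsto_const_nhds (x := t₀)).add_atBot tendsto_neg_atTop_atBot

/-- change of variables -/
lemma integral_change (k c : ℝ → ℝ) (ρ t₀ : ℝ) :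
    ∫ t, k (t₀ - t) * (c t * Real.exp (ρ * t)) =
      Real.exp (ρ * t₀) * ∫ u : ℝ, k u * Real.exp (-ρ * u) * c (t₀ - u) := by
  rw [← integral_sub_left_eq_self (fun u => k (t₀ - u) * (c u * Real.exp (ρ * u))) volume t₀,
    ← integral_const_mul]
  congr 1
  ext u
  have : Real.exp (ρ * (t₀ - u)) = Real.exp (ρ * t₀) * Real.exp (-ρ * u) := by
    rw [← Real.exp_add]; congr 1; ring
  rw [this, sub_sub_cancel]
  ring

theorem exists_block2 {p : ℕ} (hp : p ≤ 1) {ρ : ℝ} (h1 : (p : ℝ) < ρ) (h2 : ρ < p + 1) :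
    ∃ C : ℝ, 0 < C ∧ ∀ (c : ℝ → ℝ) (T T' : ℝ), Continuous c → (∀ t, 0 ≤ c t) → T ≤ T' →
      (∀ t, t ∉ Icc T T' → c t = 0) →
      ∃ (N : ℕ) (τ : Fin N → ℝ), (∀ n, τ n ∈ Icc T T') ∧
        (∀ φ : ℝ → ℝ, Antitone φ → (∀ t, 0 ≤ φ t) →
          ∑ n, φ (τ n) ≤ ∫ t, φ t * (c t * Real.exp (ρ * t))) ∧
        (∀ ψ : ℝ, Real.sin ψ ≠ 0 → ∀ t₀ : ℝ,
          |∑ n, kp p (t₀ - τ n) ψ -
            Real.exp (ρ * t₀) * ∫ u : ℝ, kp p u ψ * Real.exp (-ρ * u) * c (t₀ - u)| ≤
            Real.exp (ρ * t₀) * (C * Real.exp (-ρ * T) / |Real.sin ψ|)) ∧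
        (∀ δ ∈ Ioo (0 : ℝ) 1, ∀ ψ t₀ : ℝ,
          |∑ n, kq p δ (t₀ - τ n) ψ -
            Real.exp (ρ * t₀) * ∫ u : ℝ, kq p δ u ψ * Real.exp (-ρ * u) * c (t₀ - u)| ≤
            Real.exp (ρ * t₀) * (C * Real.exp (-ρ * T) / δ)) := by
  have hρ : 0 < ρ := lt_of_le_of_lt (Nat.cast_nonneg p) h1
  obtain ⟨C₀, hC₀, hlip⟩ := kd_lip
  refine ⟨2 / ρ + 2 * C₀ * Real.exp ρ / ρ, by positivity, ?_⟩
  intro c T T' hc hc0 hT hsupp
  obtain ⟨N, τ, g1, g2, g3⟩ := exists_points_var (p := fun t => c t * Real.exp (ρ * t))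
    (hc.mul (by fun_prop)) (fun t => mul_nonneg (hc0 t) (Real.exp_pos _).le) hT
    (fun t ht => by rw [hsupp t ht, zero_mul])
  refine ⟨N, τ, g1, g2, ?_, ?_⟩
  · intro ψ hψ t₀
    have hs : 0 < |Real.sin ψ| := abs_pos.2 hψ
    have hder : ∀ t, HasDerivAt (fun t => kp p (t₀ - t) ψ) (-dkp p (t₀ - t) ψ) t := by
      intro t
      have := (hasDerivAt_kp p hψ (t₀ - t)).comp t ((hasDerivAt_id t).const_sub t₀)
      simpa [Function.comp_def] using this
    have hcd : Continuous fun t => dkp p (t₀ - t) ψ := (continuous_dkp p hψ).comp (by fun_prop)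
    have hcont : Continuous fun t => kp p (t₀ - t) ψ :=
      continuous_iff_continuousAt.2 fun t => (hder t).continuousAt
    have hb : ∀ t : ℝ, |(-dkp p (t₀ - t) ψ)| ≤ 1 / |Real.sin ψ| * Real.exp (ρ * (t₀ - t)) := by
      intro t
      rw [abs_neg]
      refine (abs_dkp_le hp hψ _).trans ?_
      rw [one_div_mul_eq_div]
      exact div_le_div_of_nonneg_right (mp_le h1.le h2.le _) hs.le
    obtain ⟨i1, i2⟩ := integral_exp_Ioi hρ t₀ T (1 / |Real.sin ψ|)
    have hint : IntegrableOn (fun t => |(-dkp p (t₀ - t) ψ)|) (Ioi T) := by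
      refine i1.mono' (hcd.neg.abs.aestronglyMeasurable) ?_
      exact Eventually.of_forall fun t => by
        rw [Real.norm_eq_abs, abs_abs]
        exact hb t
    have e1 := g3 (fun t => kp p (t₀ - t) ψ) (fun t => |(-dkp p (t₀ - t) ψ)|) hcont
      hcd.neg.abs (fun t => abs_nonneg _) hint
      (fun s t hst => by
        have := intervalIntegral.integral_eq_sub_of_hasDerivAt (fun x _ => hder x)
          (hcd.neg.intervalIntegrable s t)
        rw [← this]
        exact intervalIntegral.abs_integral_le_integral_abs hst)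
      ((tendsto_kp_atBot hp ψ).comp (tendsto_const_sub_atTop t₀))
    rw [integral_change (fun u => kp p u ψ)] at e1
    refine e1.trans ?_
    have e2 : ∫ t in Ioi T, |(-dkp p (t₀ - t) ψ)| ≤
        1 / |Real.sin ψ| * (Real.exp (ρ * t₀) * (Real.exp (-ρ * T) / ρ)) := by
      rw [← i2]
      exact setIntegral_mono hint i1 hb
    calc 2 * ∫ t in Ioi T, |(-dkp p (t₀ - t) ψ)| ≤
        2 * (1 / |Real.sin ψ| * (Real.exp (ρ * t₀) * (Real.exp (-ρ * T) / ρ))) := by linarith
      _ = Real.exp (ρ * t₀) * (2 / ρ * Real.exp (-ρ * T) / |Real.sin ψ|) := by ring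
      _ ≤ _ := by
          refine mul_le_mul_of_nonneg_left (div_le_div_of_nonneg_right
            (mul_le_mul_of_nonneg_right ?_ (Real.exp_pos _).le) hs.le) (Real.exp_pos _).le
          have : 0 ≤ 2 * C₀ * Real.exp ρ / ρ := by positivity
          linarith
  · intro δ hδ ψ t₀
    have hδ0 := hδ.1
    have hcont : Continuous fun t => kq p δ (t₀ - t) ψ :=
      (continuous_kq hδ).comp (f := fun t : ℝ => ((t₀ - t, ψ) : ℝ × ℝ)) (by fun_prop)
    set K : ℝ := C₀ * Real.exp ρ / δ with hK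
    have hK0 : 0 < K := by positivity
    obtain ⟨i1, i2⟩ := integral_exp_Ioi hρ t₀ T K
    have hvc : Continuous fun t => K * Real.exp (ρ * (t₀ - t)) := by fun_prop
    have hloc : ∀ s t, s ≤ t → t - s ≤ 1 → |kq p δ (t₀ - t) ψ - kq p δ (t₀ - s) ψ| ≤
        ∫ x in s..t, K * Real.exp (ρ * (t₀ - x)) := by
      intro s t hst h
      have b1 := hlip p hp δ hδ (t₀ - t) (t₀ - s) ψ ψ (by
        rw [sub_self, abs_zero, add_zero, show t₀ - t - (t₀ - s) = -(t - s) by ring, abs_neg,
          abs_of_nonneg (by linarith)]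
        exact h)
      have b2 := hlip p hp δ hδ (t₀ - s) (t₀ - t) ψ ψ (by
        rw [sub_self, abs_zero, add_zero, show t₀ - s - (t₀ - t) = t - s by ring,
          abs_of_nonneg (by linarith)]
        exact h)
      rw [sub_self, abs_zero, add_zero, show t₀ - t - (t₀ - s) = -(t - s) by ring, abs_neg,
          abs_of_nonneg (by linarith : 0 ≤ t - s)] at b1
      rw [sub_self, abs_zero, add_zero, show t₀ - s - (t₀ - t) = t - s by ring,
          abs_of_nonneg (by linarith : 0 ≤ t - s)] at b2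
      have hlow : K * Real.exp (ρ * (t₀ - t)) * (t - s) ≤
          ∫ x in s..t, K * Real.exp (ρ * (t₀ - x)) := by
        have h3 : ∫ x in s..t, K * Real.exp (ρ * (t₀ - t)) =
            K * Real.exp (ρ * (t₀ - t)) * (t - s) := by
          rw [intervalIntegral.integral_const, smul_eq_mul, mul_comm]
        rw [← h3]
        refine intervalIntegral.integral_mono_on hst (by simp) (hvc.intervalIntegrable _ _) ?_
        intro x hx
        refine mul_le_mul_of_nonneg_left (Real.exp_le_exp.2 ?_) hK0.le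
        exact mul_le_mul_of_nonneg_left (by linarith [hx.2]) hρ.le
      have m1 : C₀ / δ * (t - s) * mp p (t₀ - s) ≤ K * Real.exp (ρ * (t₀ - t)) * (t - s) := by
        have h4 : mp p (t₀ - s) ≤ Real.exp ρ * Real.exp (ρ * (t₀ - t)) := by
          refine (mp_le h1.le h2.le _).trans ?_
          rw [← Real.exp_add]
          refine Real.exp_le_exp.2 ?_
          nlinarith
        calc C₀ / δ * (t - s) * mp p (t₀ - s) ≤
            C₀ / δ * (t - s) * (Real.exp ρ * Real.exp (ρ * (t₀ - t))) := by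
              refine mul_le_mul_of_nonneg_left h4 ?_
              exact mul_nonneg (by positivity) (by linarith)
          _ = K * Real.exp (ρ * (t₀ - t)) * (t - s) := by rw [hK]; ring
      have m2 : C₀ / δ * (t - s) * mp p (t₀ - t) ≤ K * Real.exp (ρ * (t₀ - t)) * (t - s) := by
        have h4 : mp p (t₀ - t) ≤ Real.exp ρ * Real.exp (ρ * (t₀ - t)) := by
          refine (mp_le h1.le h2.le _).trans ?_
          rw [← Real.exp_add]
          refine Real.exp_le_exp.2 ?_
          linarith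
        calc C₀ / δ * (t - s) * mp p (t₀ - t) ≤
            C₀ / δ * (t - s) * (Real.exp ρ * Real.exp (ρ * (t₀ - t))) := by
              refine mul_le_mul_of_nonneg_left h4 ?_
              exact mul_nonneg (by positivity) (by linarith)
          _ = K * Real.exp (ρ * (t₀ - t)) * (t - s) := by rw [hK]; ring
      rw [abs_le]
      constructor <;> linarith
    have hlim : Tendsto (fun t => kq p δ (t₀ - t) ψ) atTop (𝓝 0) := by
      obtain ⟨C₁, hC₁, hb⟩ := abs_kq_le hp hδ h1 h2
      have h5 : Tendsto (fun t => C₁ * Real.exp (ρ * (t₀ - t))) atTop (𝓝 0) := by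
        have : Tendsto (fun t : ℝ => Real.exp (ρ * (t₀ - t))) atTop (𝓝 0) :=
          Real.tendsto_exp_atBot.comp
            ((tendsto_const_sub_atTop t₀).const_mul_atBot hρ)
        simpa using this.const_mul C₁
      exact squeeze_zero_norm (fun t => by rw [Real.norm_eq_abs]; exact hb _ _) h5
    have e1 := g3 (fun t => kq p δ (t₀ - t) ψ) (fun t => K * Real.exp (ρ * (t₀ - t))) hcont
      hvc (fun t => by positivity) i1 (var_of_local hvc hloc) hlim
    rw [integral_change (fun u => kq p δ u ψ), i2] at e1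
    refine e1.trans ?_
    calc 2 * (K * (Real.exp (ρ * t₀) * (Real.exp (-ρ * T) / ρ))) =
        Real.exp (ρ * t₀) * (2 * C₀ * Real.exp ρ / ρ * Real.exp (-ρ * T) / δ) := by
          rw [hK]; ring
      _ ≤ _ := by
          refine mul_le_mul_of_nonneg_left (div_le_div_of_nonneg_right
            (mul_le_mul_of_nonneg_right ?_ (Real.exp_pos _).le) hδ0.le) (Real.exp_pos _).le
          have : 0 ≤ 2 / ρ := by positivity
          linarith

end HBInd
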