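import Pool.Agent.HBInd.AvgSum

/-!
# Cells: zeros smeared out radially by a hat function

Notation: zeros on the ray `α`, around the radius `e^{η a}`, `a ∈ ℤ`, distributed with the density
`hat η` in the logarithmic variable; `cv` is the value at `e^{t + iθ}` of the potential of the cell with
mass `e^{ρ η a}`, divided by `e^{ρ t}`; `cl` is the average of the potential over the circle of centre
`e^{iθ₀}` and radius `δ`.

* `tsum_hat`: `∑_a η hat η (x - η a) = 1` (partition of unity by hat functions).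
* `summable_cv`: `|cv| ≤ ∫ hat η (t - η a - u) e^{-ρ (t - η a)} PhiP p u du` and
  `e^{-ρ (t - η a)} ≤ e^{ρ η} e^{-ρ u}` on the support, so every finite sum over `a` is at most
  `(e^{ρη} / η) ∫ PhiP p u e^{-ρ u} du`.
* `summable_cl`: `|kq p δ u ψ| ≤ C e^{σ u}` for two values `σ₁ < ρ < σ₂` of `σ` in `(p, p + 1)`
  (`abs_kq_le`): geometric series on both sides.
* `tsum_cv`: exchange of `∑_a` and `∫` (`hasSum_integral_of_summable_integral_norm`), substitution
  `s = t - u - η a`.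
* `exists_cl_le`: `kq p δ (x) (ψ) = average over φ of kp p (x + log |1 + δ e^{iφ}|) (ψ + arg (1 + δ e^{iφ}))`
  (`circleAverage_KK` with `z = e^{x + iψ}`, `c = 1`), so `∑ c_i cl_i` is the average over `φ` of
  `|1 + δ e^{iφ}|^ρ ∑ c_i cv_i (log |1 + δ e^{iφ}|) (θ₀ + arg (1 + δ e^{iφ}))` (exchange of sum, `∫ ds` and
  average by absolute convergence, `circleAverage_abs_KK_le`), so it is at most the value of the right side for
  some `φ`.
-/

namespace HBInd

open Complex Filter Topology Set MeasureTheory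
open scoped Real

noncomputable def hat (η s : ℝ) : ℝ := max 0 (1 - |s| / η) / η

noncomputable def cv (p : ℕ) (ρ η α : ℝ) (a : ℤ) (t θ : ℝ) : ℝ :=
  Real.exp (-ρ * t) * (Real.exp (ρ * (η * a)) *
    ∫ s : ℝ, hat η s * kp p (t - η * a - s) (θ - α))

noncomputable def cl (p : ℕ) (ρ δ η α : ℝ) (a : ℤ) (θ₀ : ℝ) : ℝ :=
  Real.exp (ρ * (η * a)) * ∫ s : ℝ, hat η s * kq p δ (-(η * a) - s) (θ₀ - α)

/-- the density on a ray of the zeros with cell masses `c a` -/
noncomputable def dens (ρ η : ℝ) (c : ℤ → ℝ) (τ : ℝ) : ℝ :=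
  ∑' a : ℤ, c a * (hat η (τ - η * a) * Real.exp (ρ * (η * a - τ)))

theorem hat_nonneg {η : ℝ} (hη : 0 < η) (s : ℝ) : 0 ≤ hat η s := by
  unfold hat
  positivity

theorem continuous_hat (η : ℝ) : Continuous (hat η) := by
  unfold hat
  fun_prop

theorem hat_eq_zero {η : ℝ} (hη : 0 < η) {s : ℝ} (hs : η ≤ |s|) : hat η s = 0 := by
  unfold hat
  have : 1 - |s| / η ≤ 0 := by
    rw [sub_nonpos, le_div_iff₀ hη]; linarith
  rw [max_eq_left this, zero_div]

theorem hat_neg (η s : ℝ) : hat η (-s) = hat η s := by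
  unfold hat; rw [abs_neg]

theorem hat_of_abs_le {η : ℝ} (hη : 0 < η) {s : ℝ} (hs : |s| ≤ η) :
    hat η s = (1 - |s| / η) / η := by
  unfold hat
  have : 0 ≤ 1 - |s| / η := by
    rw [sub_nonneg, div_le_one hη]; exact hs
  rw [max_eq_right this]

theorem hasCompactSupport_hat {η : ℝ} (hη : 0 < η) : HasCompactSupport (hat η) := by
  refine HasCompactSupport.intro (isCompact_Icc (a := -η) (b := η)) fun x hx => hat_eq_zero hη ?_
  rw [mem_Icc, ← abs_le] at hx
  exact (not_le.1 hx).le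

theorem integrable_hat {η : ℝ} (hη : 0 < η) : Integrable (hat η) :=
  (continuous_hat η).integrable_of_hasCompactSupport (hasCompactSupport_hat hη)

theorem integral_hat {η : ℝ} (hη : 0 < η) : ∫ s, hat η s = 1 := by
  have h1 : ∫ s, hat η s = 2 * ∫ s in Ioi (0 : ℝ), hat η s := by
    have := integral_comp_abs (f := hat η)
    rw [← this]
    congr 1
    ext s
    unfold hat; rw [abs_abs]
  have h2 : ∫ s in Ioi (0 : ℝ), hat η s = ∫ s in Ioc (0 : ℝ) η, hat η s := by
    have h3 : Ioi (0 : ℝ) = Ioc 0 η ∪ Ioi η := (Ioc_union_Ioi_eq_Ioi hη.le).symm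
    have h4 : ∫ s in Ioi η, hat η s = 0 := by
      rw [setIntegral_congr_fun measurableSet_Ioi (g := fun _ => (0 : ℝ))]
      · simp
      · intro x hx
        exact hat_eq_zero hη (le_trans (le_of_lt hx) (le_abs_self x))
    rw [h3, setIntegral_union (Ioc_disjoint_Ioi le_rfl) measurableSet_Ioi
      (integrable_hat hη).integrableOn (integrable_hat hη).integrableOn, h4, add_zero]
  have h5 : ∫ s in Ioc (0 : ℝ) η, hat η s = ∫ s in (0 : ℝ)..η, (1 - s / η) / η := by
    rw [intervalIntegral.integral_of_le hη.le]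
    refine setIntegral_congr_fun measurableSet_Ioc fun x hx => ?_
    have hx' : |x| = x := abs_of_pos hx.1
    rw [hat_of_abs_le hη (by rw [hx']; exact hx.2), hx']
  have h6 : ∫ s in (0 : ℝ)..η, (1 - s / η) / η = 1 / 2 := by
    rw [intervalIntegral.integral_div, intervalIntegral.integral_sub (by simp) (by
      exact (continuous_id.div_const η).intervalIntegrable _ _), intervalIntegral.integral_div]
    simp only [intervalIntegral.integral_const, integral_id, smul_eq_mul]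
    field_simp
    ring
  rw [h1, h2, h5, h6]
  norm_num

/-- partition of unity -/
theorem hasSum_hat {η : ℝ} (hη : 0 < η) (x : ℝ) :
    HasSum (fun a : ℤ => hat η (x - η * a)) (1 / η) := by
  set b : ℤ := ⌊x / η⌋ with hb
  set r : ℝ := x / η - b with hr
  have hr0 : 0 ≤ r := by rw [hr, sub_nonneg]; exact Int.floor_le _
  have hr1 : r < 1 := by
    have := Int.lt_floor_add_one (x / η)
    rw [hr]; linarith
  have hx : x = η * (b + r) := by rw [hr]; field_simp; ring
  have h1 : hat η (x - η * b) = (1 - r) / η := by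
    have e : x - η * b = η * r := by rw [hx]; ring
    have e2 : |η * r| = η * r := abs_of_nonneg (by positivity)
    rw [e, hat_of_abs_le hη (by rw [e2]; nlinarith), e2]
    field_simp
  have h2 : hat η (x - η * ((b + 1 : ℤ) : ℝ)) = r / η := by
    have e : x - η * ((b + 1 : ℤ) : ℝ) = -(η * (1 - r)) := by rw [hx]; push_cast; ring
    have e2 : |-(η * (1 - r))| = η * (1 - r) := by
      rw [abs_neg]
      exact abs_of_nonneg (mul_nonneg hη.le (by linarith))
    rw [e, hat_of_abs_le hη (by rw [e2]; nlinarith), e2]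
    field_simp
    ring
  have h3 : ∀ a : ℤ, a ∉ ({b, b + 1} : Finset ℤ) → hat η (x - η * a) = 0 := by
    intro a ha
    rw [Finset.mem_insert, Finset.mem_singleton, not_or] at ha
    apply hat_eq_zero hη
    have e : x - η * a = η * ((b - a : ℤ) + r) := by rw [hx]; push_cast; ring
    rw [e, abs_mul, abs_of_pos hη]
    have h4 : 1 ≤ |((b - a : ℤ) : ℝ) + r| := by
      rcases lt_trichotomy a b with h | h | h
      · have : (1 : ℤ) ≤ b - a := by omega
        have h5 : (1 : ℝ) ≤ ((b - a : ℤ) : ℝ) := by exact_mod_cast this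
        rw [le_abs]; left; linarith
      · exact absurd h ha.1
      · have : b - a ≤ (-2 : ℤ) := by
          have := ha.2
          omega
        have h5 : ((b - a : ℤ) : ℝ) ≤ -2 := by exact_mod_cast this
        rw [le_abs]; right; linarith
    nlinarith
  have h4 : HasSum (fun a : ℤ => hat η (x - η * a))
      (∑ a ∈ ({b, b + 1} : Finset ℤ), hat η (x - η * a)) := hasSum_sum_of_ne_finset_zero h3
  rw [Finset.sum_pair (by omega), h1, h2] at h4
  convert h4 using 1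
  ring

theorem hat_le {η : ℝ} (hη : 0 < η) (s : ℝ) : hat η s ≤ 1 / η := by
  unfold hat
  rw [div_le_div_iff_of_pos_right hη]
  refine max_le zero_le_one ?_
  have : 0 ≤ |s| / η := by positivity
  linarith

theorem sum_hat_le {η : ℝ} (hη : 0 < η) (x : ℝ) (S : Finset ℤ) :
    ∑ a ∈ S, hat η (x - η * a) ≤ 1 / η :=
  sum_le_hasSum S (fun _ _ => hat_nonneg hη _) (hasSum_hat hη x)


/-- a series of functions with summable `L¹` norms is integrable -/
theorem cel_integrable_tsum {β : Type*} [MeasurableSpace β] {μ : Measure β} {ι : Type*}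
    [Countable ι] {F : ι → β → ℝ} (hF : ∀ i, Integrable (F i) μ)
    (hs : Summable fun i => ∫ a, ‖F i a‖ ∂μ) : Integrable (fun a => ∑' i, F i a) μ := by
  have h1 : ∀ i, ∫⁻ a, ‖F i a‖ₑ ∂μ = ENNReal.ofReal (∫ a, ‖F i a‖ ∂μ) := fun i =>
    (ofReal_integral_norm_eq_lintegral_enorm (hF i)).symm
  have h2 : ∫⁻ a, ∑' i, ‖F i a‖ₑ ∂μ ≠ ⊤ := by
    rw [lintegral_tsum fun i => (hF i).1.enorm, funext h1]
    exact hs.tsum_ofReal_ne_top
  have h3 : ∀ᵐ a ∂μ, Summable fun i => F i a := by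
    have hm : AEMeasurable (fun a => ∑' i, ‖F i a‖ₑ) μ :=
      AEMeasurable.tsum fun i => (hF i).1.enorm
    filter_upwards [ae_lt_top' hm h2] with a ha
    have h4 : Summable fun i => ‖F i a‖₊ := ENNReal.tsum_coe_ne_top_iff_summable.1 ha.ne
    exact Summable.of_nnnorm h4
  refine ⟨?_, ?_⟩
  · refine aestronglyMeasurable_of_tendsto_ae (u := (atTop : Filter (Finset ι)))
      (f := fun S a => ∑ i ∈ S, F i a) (fun S => ?_) ?_
    · exact Finset.aestronglyMeasurable_fun_sum S fun i _ => (hF i).1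
    · filter_upwards [h3] with a ha
      exact ha.hasSum
  · refine lt_of_le_of_lt (lintegral_mono fun a => ?_) h2.lt_top
    exact enorm_tsum_le_tsum_enorm


theorem cel_measurable_KK (p : ℕ) : Measurable (KK p) := by
  unfold KK
  have h1 : Measurable fun w : ℂ => ‖1 - w‖ := (continuous_const.sub continuous_id).norm.measurable
  exact (Real.measurable_log.comp h1).add (Complex.measurable_re.const_mul _)

theorem cel_measurable_kp (p : ℕ) (ψ : ℝ) : Measurable fun u => kp p u ψ := by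
  unfold kp
  refine (cel_measurable_KK p).comp (Continuous.measurable ?_)
  fun_prop

theorem cel_integrable_Psi {p : ℕ} (hp : p ≤ 1) {ρ : ℝ} (h1 : (p : ℝ) < ρ) (h2 : ρ < p + 1) :
    Integrable fun u : ℝ => PhiP p u * Real.exp (-ρ * u) := by
  have h := integrable_PhiP hp h1 h2
  have h3 : (fun u : ℝ => PhiP p u * Real.exp (-ρ * u)) =
      fun u => (1 + |u|)⁻¹ * ((1 + |u|) * PhiP p u * Real.exp (-ρ * u)) := by
    ext u
    have : (1 + |u|) ≠ 0 := by positivity
    field_simp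
  rw [h3]
  refine h.bdd_mul (c := 1) (Continuous.aestronglyMeasurable ?_) (ae_of_all _ fun u => ?_)
  · refine Continuous.inv₀ (by fun_prop) fun u => ?_
    positivity
  · rw [Real.norm_eq_abs, abs_inv, abs_of_pos (by positivity)]
    exact inv_le_one_of_one_le₀ (by linarith [abs_nonneg u])

theorem hat_mul_exp_le {η : ℝ} (hη : 0 < η) (ρ x : ℝ) :
    hat η x * Real.exp (-ρ * x) ≤ hat η x * Real.exp (|ρ| * η) := by
  by_cases hx : η ≤ |x|
  · rw [hat_eq_zero hη hx]; simp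
  · push Not at hx
    refine mul_le_mul_of_nonneg_left (Real.exp_le_exp.2 ?_) (hat_nonneg hη x)
    calc -ρ * x ≤ |(-ρ) * x| := le_abs_self _
      _ = |ρ| * |x| := by rw [abs_mul, abs_neg]
      _ ≤ |ρ| * η := mul_le_mul_of_nonneg_left hx.le (abs_nonneg _)

/-- the integrand of a cell -/
noncomputable def celKA (p : ℕ) (ρ η ψ t : ℝ) (a : ℤ) (u : ℝ) : ℝ :=
  (hat η (t - u - η * a) * Real.exp (-ρ * (t - u - η * a))) * (kp p u ψ * Real.exp (-ρ * u))

theorem cel_cv_eq (p : ℕ) (ρ η α : ℝ) (a : ℤ) (t θ : ℝ) :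
    cv p ρ η α a t θ = ∫ u, celKA p ρ η (θ - α) t a u := by
  unfold cv celKA
  have h := integral_sub_left_eq_self (fun u => hat η (t - η * a - u) * kp p u (θ - α)) volume
    (t - η * a)
  simp only [sub_sub_cancel] at h
  rw [h, ← integral_const_mul, ← integral_const_mul]
  congr 1
  ext u
  have e1 : Real.exp (-ρ * (t - u - η * a)) * Real.exp (-ρ * u) =
      Real.exp (-ρ * t) * Real.exp (ρ * (η * a)) := by
    rw [← Real.exp_add, ← Real.exp_add]
    congr 1; ring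
  have e2 : t - η * a - u = t - u - η * a := by ring
  rw [e2]
  linear_combination -(hat η (t - u - η * a) * kp p u (θ - α)) * e1

theorem cel_abs_KA_le {p : ℕ} (hp : p ≤ 1) {η : ℝ} (hη : 0 < η) (ρ ψ t : ℝ) (a : ℤ) {u : ℝ}
    (hu : u ≠ 0) : ‖celKA p ρ η ψ t a u‖ ≤
      hat η (t - u - η * a) * (Real.exp (|ρ| * η) * (PhiP p u * Real.exp (-ρ * u))) := by
  unfold celKA
  have h0 := hat_nonneg hη (t - u - η * a)
  rw [norm_mul, norm_mul, norm_mul, Real.norm_of_nonneg h0, Real.norm_of_nonneg (Real.exp_pos _).le,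
    Real.norm_of_nonneg (Real.exp_pos _).le, Real.norm_eq_abs]
  calc hat η (t - u - η * a) * Real.exp (-ρ * (t - u - η * a)) * (|kp p u ψ| * Real.exp (-ρ * u))
      ≤ hat η (t - u - η * a) * Real.exp (|ρ| * η) * (PhiP p u * Real.exp (-ρ * u)) := by
        refine mul_le_mul (hat_mul_exp_le hη _ _) ?_ (by positivity) (by positivity)
        exact mul_le_mul_of_nonneg_right (abs_kp_le_PhiP hp hu ψ) (Real.exp_pos _).le
    _ = _ := by ring

theorem cel_measurable_KA (p : ℕ) (ρ η ψ t : ℝ) (a : ℤ) : Measurable (celKA p ρ η ψ t a) := by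
  unfold celKA
  have h1 : Measurable fun u => hat η (t - u - η * a) :=
    ((continuous_hat η).comp (by fun_prop)).measurable
  have h2 := cel_measurable_kp p ψ
  fun_prop

theorem cel_integrable_KAbd {p : ℕ} (hp : p ≤ 1) {ρ : ℝ} (h1 : (p : ℝ) < ρ) (h2 : ρ < p + 1) {η : ℝ}
    (hη : 0 < η) (t : ℝ) (a : ℤ) : Integrable fun u =>
      hat η (t - u - η * a) * (Real.exp (|ρ| * η) * (PhiP p u * Real.exp (-ρ * u))) := by
  refine ((cel_integrable_Psi hp h1 h2).const_mul _).bdd_mul (c := 1 / η)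
    (Continuous.aestronglyMeasurable ((continuous_hat η).comp (by fun_prop)))
    (ae_of_all _ fun u => ?_)
  rw [Real.norm_of_nonneg (hat_nonneg hη _)]
  exact hat_le hη _

theorem cel_ae_ne_zero : ∀ᵐ u : ℝ, u ≠ 0 := by
  have : ({0} : Set ℝ)ᶜ ∈ ae (volume : Measure ℝ) := by
    rw [mem_ae_iff, compl_compl]; exact Real.volume_singleton
  filter_upwards [this] with u hu using hu

theorem cel_integrable_KA {p : ℕ} (hp : p ≤ 1) {ρ : ℝ} (h1 : (p : ℝ) < ρ) (h2 : ρ < p + 1) {η : ℝ}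
    (hη : 0 < η) (ψ t : ℝ) (a : ℤ) : Integrable (celKA p ρ η ψ t a) := by
  refine (cel_integrable_KAbd hp h1 h2 hη t a).mono' (cel_measurable_KA p ρ η ψ t a).aestronglyMeasurable ?_
  filter_upwards [cel_ae_ne_zero] with u hu
  exact cel_abs_KA_le hp hη ρ ψ t a hu

theorem cel_summable_KA {p : ℕ} (hp : p ≤ 1) {ρ : ℝ} (h1 : (p : ℝ) < ρ) (h2 : ρ < p + 1) {η : ℝ}
    (hη : 0 < η) (ψ t : ℝ) : Summable fun a : ℤ => ∫ u, ‖celKA p ρ η ψ t a u‖ := by
  refine summable_of_sum_le (c := ∫ u, 1 / η * (Real.exp (|ρ| * η) * (PhiP p u * Real.exp (-ρ * u))))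
    (fun a => integral_nonneg fun u => norm_nonneg _) fun S => ?_
  have e1 : ∀ a ∈ S, ∫ u, ‖celKA p ρ η ψ t a u‖ ≤ ∫ u, hat η (t - u - η * a) *
      (Real.exp (|ρ| * η) * (PhiP p u * Real.exp (-ρ * u))) := by
    intro a _
    refine integral_mono_ae (cel_integrable_KA hp h1 h2 hη ψ t a).norm (cel_integrable_KAbd hp h1 h2 hη t a) ?_
    filter_upwards [cel_ae_ne_zero] with u hu
    exact cel_abs_KA_le hp hη ρ ψ t a hu
  refine (Finset.sum_le_sum e1).trans ?_
  rw [← integral_finsetSum S fun a _ => cel_integrable_KAbd hp h1 h2 hη t a]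
  refine integral_mono (integrable_finsetSum S fun a _ => cel_integrable_KAbd hp h1 h2 hη t a)
    (((cel_integrable_Psi hp h1 h2).const_mul _).const_mul _) fun u => ?_
  change ∑ a ∈ S, hat η (t - u - η * a) * (Real.exp (|ρ| * η) * (PhiP p u * Real.exp (-ρ * u))) ≤ _
  rw [← Finset.sum_mul]
  exact mul_le_mul_of_nonneg_right (sum_hat_le hη (t - u) S)
    (mul_nonneg (Real.exp_pos _).le (mul_nonneg (PhiP_nonneg p u) (Real.exp_pos _).le))

theorem summable_cv {p : ℕ} (hp : p ≤ 1) {ρ : ℝ} (h1 : (p : ℝ) < ρ) (h2 : ρ < p + 1) {η : ℝ}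
    (hη : 0 < η) (α t θ : ℝ) : Summable fun a : ℤ => |cv p ρ η α a t θ| := by
  refine Summable.of_nonneg_of_le (fun a => abs_nonneg _) (fun a => ?_)
    (cel_summable_KA hp h1 h2 hη (θ - α) t)
  rw [cel_cv_eq]
  exact abs_integral_le_integral_abs

theorem cel_dens_term_le {ρ η σ : ℝ} (hη : 0 < η) {c : ℤ → ℝ} (hc : ∀ a, 0 ≤ c a ∧ c a ≤ σ) (τ : ℝ)
    (a : ℤ) : c a * (hat η (τ - η * a) * Real.exp (ρ * (η * a - τ))) ≤
      hat η (τ - η * a) * (σ * Real.exp (|ρ| * η)) := by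
  have h1 := hat_mul_exp_le hη ρ (τ - η * a)
  have e : -ρ * (τ - η * a) = ρ * (η * a - τ) := by ring
  rw [e] at h1
  have h0 := hat_nonneg hη (τ - η * a)
  calc c a * (hat η (τ - η * a) * Real.exp (ρ * (η * a - τ)))
      ≤ σ * (hat η (τ - η * a) * Real.exp (|ρ| * η)) :=
        mul_le_mul (hc a).2 h1 (by positivity) ((hc a).1.trans (hc a).2)
    _ = _ := by ring

theorem dens_spec {ρ η σ : ℝ} (hη : 0 < η) {c : ℤ → ℝ} (hc : ∀ a, 0 ≤ c a ∧ c a ≤ σ) :
    Continuous (dens ρ η c) ∧ ∃ D : ℝ, ∀ τ, 0 ≤ dens ρ η c τ ∧ dens ρ η c τ ≤ D := by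
  have hnn : ∀ τ (a : ℤ), 0 ≤ c a * (hat η (τ - η * a) * Real.exp (ρ * (η * a - τ))) := fun τ a =>
    mul_nonneg (hc a).1 (mul_nonneg (hat_nonneg hη _) (Real.exp_pos _).le)
  refine ⟨?_, 1 / η * (σ * Real.exp (|ρ| * η)), fun τ => ⟨tsum_nonneg (hnn τ), ?_⟩⟩
  · have hfin : ∀ (x : ℝ) (R : ℝ), {a : ℤ | |x - η * a| < R}.Finite := by
      intro x R
      refine (Set.finite_Icc (⌊(x - R) / η⌋) (⌈(x + R) / η⌉)).subset fun a ha => ?_
      rw [mem_ofPred_eq, abs_lt] at ha
      constructor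
      · rw [Int.floor_le_iff]
        rw [div_lt_iff₀ hη]
        nlinarith
      · rw [Int.le_ceil_iff]
        rw [lt_div_iff₀ hη]
        nlinarith
    have hlf : LocallyFinite fun a : ℤ => Function.support fun τ =>
        c a * (hat η (τ - η * a) * Real.exp (ρ * (η * a - τ))) := by
      intro x
      refine ⟨Metric.ball x 1, Metric.ball_mem_nhds x one_pos, (hfin x (η + 1)).subset ?_⟩
      rintro a ⟨y, hy, hyx⟩
      rw [Metric.mem_ball, Real.dist_eq] at hyx
      have h3 : |y - η * a| < η := by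
        by_contra h
        push Not at h
        rw [Function.mem_support, hat_eq_zero hη h] at hy
        simp at hy
      rw [mem_ofPred_eq]
      calc |x - η * a| = |-(y - x) + (y - η * a)| := by congr 1; ring
        _ ≤ |-(y - x)| + |y - η * a| := abs_add_le _ _
        _ < η + 1 := by rw [abs_neg]; linarith
    have hcont := continuous_finsum (f := fun (a : ℤ) (τ : ℝ) =>
        c a * (hat η (τ - η * a) * Real.exp (ρ * (η * a - τ)))) (fun a => by
          have := continuous_hat η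
          fun_prop) hlf
    convert hcont using 1
    ext τ
    rw [dens, tsum_eq_finsum]
    refine (hfin τ η).subset fun a ha => ?_
    by_contra h
    rw [mem_ofPred_eq, not_lt] at h
    rw [Function.mem_support, hat_eq_zero hη h] at ha
    simp at ha
  · have hs := (hasSum_hat hη τ).mul_right (σ * Real.exp (|ρ| * η))
    have hs' : Summable fun a : ℤ => c a * (hat η (τ - η * a) * Real.exp (ρ * (η * a - τ))) :=
      Summable.of_nonneg_of_le (hnn τ) (cel_dens_term_le hη hc τ) hs.summable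
    rw [← hs.tsum_eq]
    exact hs'.tsum_le_tsum (cel_dens_term_le hη hc τ) hs.summable

theorem tsum_cv {p : ℕ} (hp : p ≤ 1) {ρ : ℝ} (h1 : (p : ℝ) < ρ) (h2 : ρ < p + 1) {η σ : ℝ}
    (hη : 0 < η) (α : ℝ) {c : ℤ → ℝ} (hc : ∀ a, 0 ≤ c a ∧ c a ≤ σ) (t θ : ℝ) :
    ∑' a : ℤ, c a * cv p ρ η α a t θ =
      ∫ u : ℝ, kp p u (θ - α) * Real.exp (-ρ * u) * dens ρ η c (t - u) := by
  have hF : ∀ a : ℤ, Integrable fun u => c a * celKA p ρ η (θ - α) t a u := fun a =>
    (cel_integrable_KA hp h1 h2 hη (θ - α) t a).const_mul _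
  have hS : Summable fun a : ℤ => ∫ u, ‖c a * celKA p ρ η (θ - α) t a u‖ := by
    refine Summable.of_nonneg_of_le (fun a => integral_nonneg fun u => norm_nonneg _) (fun a => ?_)
      ((cel_summable_KA hp h1 h2 hη (θ - α) t).mul_left σ)
    simp only [norm_mul]
    rw [integral_const_mul]
    refine mul_le_mul_of_nonneg_right ?_ (integral_nonneg fun u => by positivity)
    rw [Real.norm_of_nonneg (hc a).1]
    exact (hc a).2
  have h := hasSum_integral_of_summable_integral_norm hF hS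
  have e1 : ∀ a : ℤ, ∫ u, c a * celKA p ρ η (θ - α) t a u = c a * cv p ρ η α a t θ := by
    intro a
    rw [integral_const_mul, cel_cv_eq]
  simp only [e1] at h
  rw [h.tsum_eq]
  congr 1
  ext u
  rw [dens, ← tsum_mul_left]
  congr 1
  ext a
  unfold celKA
  have e2 : -ρ * (t - u - η * a) = ρ * (η * a - (t - u)) := by ring
  rw [e2]
  ring


/-! ### The circle averages -/

theorem hat_mul_exp_le' {η : ℝ} (hη : 0 < η) (σ s b : ℝ) :
    hat η s * Real.exp (σ * (b - s)) ≤ hat η s * (Real.exp (σ * b) * Real.exp (|σ| * η)) := by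
  have h := mul_le_mul_of_nonneg_right (hat_mul_exp_le hη σ s) (Real.exp_pos (σ * b)).le
  calc hat η s * Real.exp (σ * (b - s)) = hat η s * Real.exp (-σ * s) * Real.exp (σ * b) := by
        rw [mul_assoc, ← Real.exp_add]; congr 2; ring
    _ ≤ hat η s * Real.exp (|σ| * η) * Real.exp (σ * b) := h
    _ = _ := by ring

/-- the geometric majorant -/
noncomputable def celGeo (q₁ q₂ : ℝ) (a : ℤ) : ℝ := q₁ ^ a.natAbs + q₂ ^ a.natAbs

theorem cel_summable_natAbs {q : ℝ} (h0 : 0 ≤ q) (h1 : q < 1) : Summable fun a : ℤ => q ^ a.natAbs := by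
  refine Summable.of_nat_of_neg ?_ ?_
  · simpa using summable_geometric_of_lt_one h0 h1
  · simpa using summable_geometric_of_lt_one h0 h1

theorem cel_summable_geo {q₁ q₂ : ℝ} (h0 : 0 ≤ q₁) (h1 : q₁ < 1) (h2 : 0 ≤ q₂) (h3 : q₂ < 1) :
    Summable (celGeo q₁ q₂) := (cel_summable_natAbs h0 h1).add (cel_summable_natAbs h2 h3)

/-- exponential bounds on both sides give a geometric majorant -/
theorem cel_le_geo {ρ σ₁ σ₂ η : ℝ} (a : ℤ) {x K₁ K₂ : ℝ} (hK₁ : 0 ≤ K₁)
    (hK₂ : 0 ≤ K₂) (h₁ : x ≤ K₁ * (Real.exp (ρ * (η * a)) * Real.exp (σ₁ * -(η * a))))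
    (h₂ : x ≤ K₂ * (Real.exp (ρ * (η * a)) * Real.exp (σ₂ * -(η * a)))) :
    x ≤ (K₁ + K₂) * celGeo (Real.exp (-(ρ - σ₁) * η)) (Real.exp (-(σ₂ - ρ) * η)) a := by
  unfold celGeo
  have p1 : 0 < Real.exp (-(ρ - σ₁) * η) ^ a.natAbs := pow_pos (Real.exp_pos _) _
  have p2 : 0 < Real.exp (-(σ₂ - ρ) * η) ^ a.natAbs := pow_pos (Real.exp_pos _) _
  rcases le_total 0 a with ha | ha
  · have e : Real.exp (ρ * (η * a)) * Real.exp (σ₂ * -(η * a)) =
        Real.exp (-(σ₂ - ρ) * η) ^ a.natAbs := by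
      rw [← Real.exp_add, ← Real.exp_nat_mul]
      congr 1
      have : ((a.natAbs : ℕ) : ℝ) = (a : ℝ) := by
        rw [Nat.cast_natAbs, abs_of_nonneg ha]
      rw [this]; ring
    rw [e] at h₂
    nlinarith [mul_nonneg hK₁ p1.le, mul_nonneg hK₁ p2.le, mul_nonneg hK₂ p1.le]
  · have e : Real.exp (ρ * (η * a)) * Real.exp (σ₁ * -(η * a)) =
        Real.exp (-(ρ - σ₁) * η) ^ a.natAbs := by
      rw [← Real.exp_add, ← Real.exp_nat_mul]
      congr 1
      have : ((a.natAbs : ℕ) : ℝ) = -(a : ℝ) := by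
        rw [Nat.cast_natAbs, abs_of_nonpos ha, Int.cast_neg]
      rw [this]; ring
    rw [e] at h₁
    nlinarith [mul_nonneg hK₂ p1.le, mul_nonneg hK₁ p2.le, mul_nonneg hK₂ p2.le]

theorem summable_cl {p : ℕ} (hp : p ≤ 1) {ρ : ℝ} (h1 : (p : ℝ) < ρ) (h2 : ρ < p + 1)
    {δ η : ℝ} (hδ : δ ∈ Ioo (0 : ℝ) 1) (hη : 0 < η) (α θ₀ : ℝ) :
    Summable fun a : ℤ => |cl p ρ δ η α a θ₀| := by
  obtain ⟨σ₁, hσ₁, hσ₁'⟩ := exists_between h1
  obtain ⟨σ₂, hσ₂, hσ₂'⟩ := exists_between h2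
  have key : ∀ σ : ℝ, (p : ℝ) < σ → σ < p + 1 → ∃ K : ℝ, 0 ≤ K ∧ ∀ a : ℤ,
      |cl p ρ δ η α a θ₀| ≤ K * (Real.exp (ρ * (η * a)) * Real.exp (σ * -(η * a))) := by
    intro σ hs1 hs2
    obtain ⟨C, hC, hCb⟩ := abs_kq_le hp hδ hs1 hs2
    refine ⟨C * Real.exp (|σ| * η), by positivity, fun a => ?_⟩
    unfold cl
    rw [abs_mul, abs_of_pos (Real.exp_pos _)]
    have h3 : |∫ s : ℝ, hat η s * kq p δ (-(η * a) - s) (θ₀ - α)| ≤
        ∫ s : ℝ, hat η s * (C * (Real.exp (σ * -(η * a)) * Real.exp (|σ| * η))) := by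
      rw [← Real.norm_eq_abs]
      refine norm_integral_le_of_norm_le ((integrable_hat hη).mul_const _) (ae_of_all _ fun s => ?_)
      rw [norm_mul, Real.norm_of_nonneg (hat_nonneg hη s), Real.norm_eq_abs]
      calc hat η s * |kq p δ (-(η * a) - s) (θ₀ - α)|
          ≤ hat η s * (C * Real.exp (σ * (-(η * a) - s))) :=
            mul_le_mul_of_nonneg_left (hCb _ _) (hat_nonneg hη s)
        _ = C * (hat η s * Real.exp (σ * (-(η * a) - s))) := by ring
        _ ≤ C * (hat η s * (Real.exp (σ * -(η * a)) * Real.exp (|σ| * η))) :=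
            mul_le_mul_of_nonneg_left (hat_mul_exp_le' hη σ s _) hC.le
        _ = _ := by ring
    rw [integral_mul_const, integral_hat hη, one_mul] at h3
    calc Real.exp (ρ * (η * a)) * |∫ s : ℝ, hat η s * kq p δ (-(η * a) - s) (θ₀ - α)|
        ≤ Real.exp (ρ * (η * a)) * (C * (Real.exp (σ * -(η * a)) * Real.exp (|σ| * η))) :=
          mul_le_mul_of_nonneg_left h3 (Real.exp_pos _).le
      _ = _ := by ring
  obtain ⟨K₁, hK₁, hb₁⟩ := key σ₁ hσ₁ (by linarith)
  obtain ⟨K₂, hK₂, hb₂⟩ := key σ₂ (by linarith) hσ₂'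
  refine Summable.of_nonneg_of_le (fun a => abs_nonneg _)
    (fun a => cel_le_geo a hK₁ hK₂ (hb₁ a) (hb₂ a)) ((cel_summable_geo (Real.exp_pos _).le ?_
      (Real.exp_pos _).le ?_).mul_left _)
  · rw [Real.exp_lt_one_iff]; nlinarith
  · rw [Real.exp_lt_one_iff]; nlinarith

/-- the inverse of the zero -/
noncomputable def celZero (η α : ℝ) (a : ℤ) (s : ℝ) : ℂ :=
  Complex.exp (((-(η * a) - s : ℝ) : ℂ) + ((-α : ℝ) : ℂ) * I)

theorem cel_norm_zero (η α : ℝ) (a : ℤ) (s : ℝ) :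
    ‖celZero η α a s‖ = Real.exp (-(η * a) - s) := norm_expw _ _

theorem cel_continuous_zero (η α : ℝ) (a : ℤ) : Continuous (celZero η α a) := by
  unfold celZero; fun_prop

theorem cel_circleIntegrable_KK (p : ℕ) (c z : ℂ) (R : ℝ) :
    CircleIntegrable (fun u => KK p (c * u)) z R := by
  unfold KK
  have h1 : CircleIntegrable (fun u : ℂ => Real.log ‖1 - c * u‖) z R :=
    MeromorphicOn.circleIntegrable_log_norm (fun w _ => by fun_prop)
  have h2 : CircleIntegrable (fun u : ℂ => (p : ℝ) * (c * u).re) z R := by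
    apply ContinuousOn.circleIntegrable'
    fun_prop
  exact h1.add h2

section circle

variable (p : ℕ) (δ η α θ₀ : ℝ) (a : ℤ)

/-- the point on the circle -/
noncomputable def celU (δ θ₀ φ : ℝ) : ℂ := circleMap (Complex.exp ((θ₀ : ℂ) * I)) δ φ

/-- the integrand -/
noncomputable def celW (s φ : ℝ) : ℝ := hat η s * KK p (celZero η α a s * celU δ θ₀ φ)

noncomputable def celMu : Measure ℝ := volume.restrict (Ioc 0 (2 * π))

instance : IsFiniteMeasure celMu := by unfold celMu; infer_instance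

theorem cel_circleAverage_eq (f : ℂ → ℝ) : Real.circleAverage f (Complex.exp ((θ₀ : ℂ) * I))
    (δ * ‖Complex.exp ((θ₀ : ℂ) * I)‖) = (2 * π)⁻¹ * ∫ φ, f (celU δ θ₀ φ) ∂celMu := by
  rw [Complex.norm_exp_ofReal_mul_I, mul_one, Real.circleAverage_def,
    intervalIntegral.integral_of_le Real.two_pi_pos.le]
  rfl

theorem cel_integrable_mu {f : ℂ → ℝ} (hf : CircleIntegrable f (Complex.exp ((θ₀ : ℂ) * I)) δ) :
    Integrable (fun φ => f (celU δ θ₀ φ)) celMu := by
  unfold CircleIntegrable at hf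
  rw [intervalIntegrable_iff_integrableOn_Ioc_of_le Real.two_pi_pos.le] at hf
  exact hf

theorem cel_continuous_u : Continuous (celU δ θ₀) := by
  unfold celU; fun_prop

theorem cel_measurable_W : Measurable (Function.uncurry (celW p δ η α θ₀ a)) := by
  have h1 : Measurable fun x : ℝ × ℝ => hat η x.1 := ((continuous_hat η).comp continuous_fst).measurable
  have h2 : Measurable fun x : ℝ × ℝ => KK p (celZero η α a x.1 * celU δ θ₀ x.2) :=
    (cel_measurable_KK p).comp (((cel_continuous_zero η α a).comp continuous_fst).mul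
      ((cel_continuous_u δ θ₀).comp continuous_snd)).measurable
  exact h1.mul h2

end circle

theorem cel_W_spec {p : ℕ} (hp : p ≤ 1) {δ : ℝ} (hδ : δ ∈ Ioo (0 : ℝ) 1) {σ : ℝ}
    (h1 : (p : ℝ) < σ) (h2 : σ < p + 1) {η : ℝ} (hη : 0 < η) (θ₀ : ℝ) :
    ∃ K : ℝ, 0 ≤ K ∧ ∀ (α : ℝ) (a : ℤ),
      Integrable (Function.uncurry (celW p δ η α θ₀ a)) (volume.prod celMu) ∧
      ∫ φ, ‖∫ s, celW p δ η α θ₀ a s φ‖ ∂celMu ≤ K * Real.exp (σ * -(η * a)) := by
  obtain ⟨C, hC, hCb⟩ := circleAverage_abs_KK_le hp hδ h1 h2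
  refine ⟨2 * π * C * Real.exp (|σ| * η), by positivity, fun α a => ?_⟩
  set z := Complex.exp ((θ₀ : ℂ) * I) with hz
  have hint : ∀ s, Integrable (fun φ => KK p (celZero η α a s * celU δ θ₀ φ)) celMu := fun s =>
    cel_integrable_mu δ θ₀ (cel_circleIntegrable_KK p _ _ δ)
  have hbd : ∀ s, ∫ φ, ‖KK p (celZero η α a s * celU δ θ₀ φ)‖ ∂celMu ≤
      2 * π * C * Real.exp (σ * (-(η * a) - s)) := by
    intro s
    have h3 := hCb (celZero η α a s) z
    rw [hz, cel_circleAverage_eq, norm_mul, cel_norm_zero, Complex.norm_exp_ofReal_mul_I, mul_one,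
      ← Real.exp_mul] at h3
    have hpi := Real.two_pi_pos
    rw [inv_mul_le_iff₀ hpi] at h3
    calc ∫ φ, ‖KK p (celZero η α a s * celU δ θ₀ φ)‖ ∂celMu
        ≤ 2 * π * (C * Real.exp ((-(η * a) - s) * σ)) := h3
      _ = _ := by rw [mul_comm (-(η * a) - s) σ]; ring
  have hm := cel_measurable_W p δ η α θ₀ a
  have hI : Integrable (Function.uncurry (celW p δ η α θ₀ a)) (volume.prod celMu) := by
    rw [integrable_prod_iff hm.aestronglyMeasurable]
    refine ⟨ae_of_all _ fun s => ?_, ?_⟩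
    · change Integrable (fun φ => hat η s * KK p (celZero η α a s * celU δ θ₀ φ)) celMu
      exact (hint s).const_mul _
    · refine ((integrable_hat hη).mul_const
        (2 * π * C * (Real.exp (σ * -(η * a)) * Real.exp (|σ| * η)))).mono'
        hm.aestronglyMeasurable.norm.integral_prod_right' (ae_of_all _ fun s => ?_)
      rw [Real.norm_of_nonneg (integral_nonneg fun φ => norm_nonneg _)]
      have e : ∫ φ, ‖Function.uncurry (celW p δ η α θ₀ a) (s, φ)‖ ∂celMu =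
          hat η s * ∫ φ, ‖KK p (celZero η α a s * celU δ θ₀ φ)‖ ∂celMu := by
        rw [← integral_const_mul]
        congr 1
        ext φ
        change ‖celW p δ η α θ₀ a s φ‖ = _
        rw [celW, norm_mul, Real.norm_of_nonneg (hat_nonneg hη s)]
      rw [e]
      calc hat η s * ∫ φ, ‖KK p (celZero η α a s * celU δ θ₀ φ)‖ ∂celMu
          ≤ hat η s * (2 * π * C * Real.exp (σ * (-(η * a) - s))) :=
            mul_le_mul_of_nonneg_left (hbd s) (hat_nonneg hη s)
        _ = 2 * π * C * (hat η s * Real.exp (σ * (-(η * a) - s))) := by ring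
        _ ≤ 2 * π * C * (hat η s * (Real.exp (σ * -(η * a)) * Real.exp (|σ| * η))) :=
            mul_le_mul_of_nonneg_left (hat_mul_exp_le' hη σ s _) (by positivity)
        _ = _ := by ring
  refine ⟨hI, ?_⟩
  have e1 : ∫ φ, ‖∫ s, celW p δ η α θ₀ a s φ‖ ∂celMu ≤ ∫ φ, (∫ s, ‖celW p δ η α θ₀ a s φ‖) ∂celMu := by
    exact integral_mono (f := fun φ => ‖∫ s, celW p δ η α θ₀ a s φ‖)
      (g := fun φ => ∫ s, ‖celW p δ η α θ₀ a s φ‖)
      hI.integral_prod_right.norm hI.norm.integral_prod_right fun φ =>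
        norm_integral_le_integral_norm _
  have e2 : ∫ φ, (∫ s, ‖celW p δ η α θ₀ a s φ‖) ∂celMu = ∫ s, ∫ φ, ‖celW p δ η α θ₀ a s φ‖ ∂celMu :=
    (integral_integral_swap (f := fun s φ => ‖celW p δ η α θ₀ a s φ‖) hI.norm).symm
  have e3 : ∫ s, ∫ φ, ‖celW p δ η α θ₀ a s φ‖ ∂celMu ≤
      ∫ s, hat η s * (2 * π * C * (Real.exp (σ * -(η * a)) * Real.exp (|σ| * η))) := by
    refine integral_mono hI.norm.integral_prod_left ((integrable_hat hη).mul_const _) fun s => ?_
    have e : ∫ φ, ‖celW p δ η α θ₀ a s φ‖ ∂celMu =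
        hat η s * ∫ φ, ‖KK p (celZero η α a s * celU δ θ₀ φ)‖ ∂celMu := by
      rw [← integral_const_mul]
      congr 1
      ext φ
      rw [celW, norm_mul, Real.norm_of_nonneg (hat_nonneg hη s)]
    change ∫ φ, ‖celW p δ η α θ₀ a s φ‖ ∂celMu ≤ _
    rw [e]
    calc hat η s * ∫ φ, ‖KK p (celZero η α a s * celU δ θ₀ φ)‖ ∂celMu
        ≤ hat η s * (2 * π * C * Real.exp (σ * (-(η * a) - s))) :=
          mul_le_mul_of_nonneg_left (hbd s) (hat_nonneg hη s)
      _ = 2 * π * C * (hat η s * Real.exp (σ * (-(η * a) - s))) := by ring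
      _ ≤ 2 * π * C * (hat η s * (Real.exp (σ * -(η * a)) * Real.exp (|σ| * η))) :=
          mul_le_mul_of_nonneg_left (hat_mul_exp_le' hη σ s _) (by positivity)
      _ = _ := by ring
  rw [integral_mul_const, integral_hat hη, one_mul] at e3
  calc _ ≤ _ := e1
    _ = _ := e2
    _ ≤ _ := e3
    _ = _ := by ring

/-- the averaged cell is the average of the cells over the circle -/
theorem cel_cl_eq {p : ℕ} {ρ δ : ℝ} (hδ : δ ∈ Ioo (0 : ℝ) 1) {η : ℝ} (α θ₀ : ℝ) (a : ℤ)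
    (hI : Integrable (Function.uncurry (celW p δ η α θ₀ a)) (volume.prod celMu)) :
    cl p ρ δ η α a θ₀ =
      (2 * π)⁻¹ * ∫ φ, (Real.exp (ρ * (η * a)) * ∫ s, celW p δ η α θ₀ a s φ) ∂celMu := by
  unfold cl
  have e1 : ∀ s, hat η s * kq p δ (-(η * a) - s) (θ₀ - α) =
      (2 * π)⁻¹ * ∫ φ, celW p δ η α θ₀ a s φ ∂celMu := by
    intro s
    have h3 := circleAverage_KK p (celZero η α a s) (Complex.exp ((θ₀ : ℂ) * I)) hδ
    rw [cel_circleAverage_eq] at h3
    have h4 : celZero η α a s * Complex.exp ((θ₀ : ℂ) * I) =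
        Complex.exp (((-(η * a) - s : ℝ) : ℂ) + ((θ₀ - α : ℝ) : ℂ) * I) := by
      rw [celZero, ← Complex.exp_add]
      congr 1
      push_cast; ring
    rw [h4] at h3
    unfold kq
    rw [← h3]
    simp only [celW]
    rw [integral_const_mul]
    ring
  simp only [e1]
  rw [integral_const_mul, integral_integral_swap (f := fun s φ => celW p δ η α θ₀ a s φ) hI,
    integral_const_mul]
  ring

theorem cel_W_eq (p : ℕ) (ρ : ℝ) {δ : ℝ} (hδ : δ ∈ Ioo (0 : ℝ) 1) (η α θ₀ : ℝ) (a : ℤ) (φ : ℝ) :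
    Real.exp (ρ * (η * a)) * ∫ s, celW p δ η α θ₀ a s φ =
      ‖1 + (δ : ℂ) * Complex.exp (((φ - θ₀ : ℝ) : ℂ) * I)‖ ^ ρ *
        cv p ρ η α a (Real.log ‖1 + (δ : ℂ) * Complex.exp (((φ - θ₀ : ℝ) : ℂ) * I)‖)
          (θ₀ + Complex.arg (1 + (δ : ℂ) * Complex.exp (((φ - θ₀ : ℝ) : ℂ) * I))) := by
  set E : ℂ := 1 + (δ : ℂ) * Complex.exp (((φ - θ₀ : ℝ) : ℂ) * I) with hE
  have hE0 : E ≠ 0 := by
    intro h
    have h1 : (δ : ℂ) * Complex.exp (((φ - θ₀ : ℝ) : ℂ) * I) = -1 := by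
      rw [hE] at h; linear_combination h
    have h2 := congrArg norm h1
    rw [norm_mul, Complex.norm_exp_ofReal_mul_I, mul_one, norm_neg, norm_one, Complex.norm_real,
      Real.norm_of_nonneg hδ.1.le] at h2
    exact absurd h2 hδ.2.ne
  have hEn : 0 < ‖E‖ := norm_pos_iff.2 hE0
  have hu : celU δ θ₀ φ = Complex.exp ((θ₀ : ℂ) * I) * E := by
    rw [celU, circleMap, hE]
    have : Complex.exp ((φ : ℂ) * I) =
        Complex.exp ((θ₀ : ℂ) * I) * Complex.exp (((φ - θ₀ : ℝ) : ℂ) * I) := by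
      rw [← Complex.exp_add]; congr 1; push_cast; ring
    rw [this]; ring
  have hEe : E = Complex.exp ((Real.log ‖E‖ : ℂ) + (Complex.arg E : ℂ) * I) := by
    rw [Complex.exp_add, ← Complex.ofReal_exp, Real.exp_log hEn]
    exact (Complex.norm_mul_exp_arg_mul_I E).symm
  have hk : ∀ s, KK p (celZero η α a s * celU δ θ₀ φ) =
      kp p (Real.log ‖E‖ - η * a - s) (θ₀ + Complex.arg E - α) := by
    intro s
    unfold kp
    congr 1
    rw [hu]
    conv_lhs => rw [hEe]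
    rw [celZero, ← Complex.exp_add, ← Complex.exp_add]
    congr 1
    push_cast; ring
  unfold cv celW
  simp only [hk]
  have h4 : ‖E‖ ^ ρ * Real.exp (-ρ * Real.log ‖E‖) = 1 := by
    rw [Real.rpow_def_of_pos hEn, ← Real.exp_add, ← Real.exp_zero]
    congr 1; ring
  rw [← mul_assoc (‖E‖ ^ ρ), h4, one_mul]

theorem exists_cl_le {p : ℕ} (hp : p ≤ 1) {ρ : ℝ} (h1 : (p : ℝ) < ρ) (h2 : ρ < p + 1)
    {δ η σ : ℝ} (hδ : δ ∈ Ioo (0 : ℝ) 1) (hη : 0 < η) {n : ℕ} (α : Fin n → ℝ)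
    {c : ℤ × Fin n → ℝ} (hc : ∀ i, 0 ≤ c i ∧ c i ≤ σ) (θ₀ : ℝ) :
    ∃ φ : ℝ, ∑' i : ℤ × Fin n, c i * cl p ρ δ η (α i.2) i.1 θ₀ ≤
      ‖1 + (δ : ℂ) * Complex.exp ((φ : ℂ) * I)‖ ^ ρ *
        ∑' i : ℤ × Fin n, c i * cv p ρ η (α i.2) i.1
          (Real.log ‖1 + (δ : ℂ) * Complex.exp ((φ : ℂ) * I)‖)
          (θ₀ + Complex.arg (1 + (δ : ℂ) * Complex.exp ((φ : ℂ) * I))) := by
  obtain ⟨σ₁, hσ₁, hσ₁'⟩ := exists_between h1
  obtain ⟨σ₂, hσ₂, hσ₂'⟩ := exists_between h2
  obtain ⟨K₁, hK₁, hb₁⟩ := cel_W_spec hp hδ hσ₁ (by linarith) hη θ₀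
  obtain ⟨K₂, hK₂, hb₂⟩ := cel_W_spec hp hδ (by linarith : (p : ℝ) < σ₂) hσ₂' hη θ₀
  set F : ℤ × Fin n → ℝ → ℝ := fun i φ =>
    c i * (Real.exp (ρ * (η * i.1)) * ∫ s, celW p δ η (α i.2) θ₀ i.1 s φ) with hF
  have hWint : ∀ i : ℤ × Fin n, Integrable (fun φ => ∫ s, celW p δ η (α i.2) θ₀ i.1 s φ) celMu :=
    fun i => (hb₁ (α i.2) i.1).1.integral_prod_right
  have hFint : ∀ i, Integrable (F i) celMu := fun i => ((hWint i).const_mul _).const_mul _
  have hn0 : ∀ i : ℤ × Fin n, 0 ≤ σ := fun i => (hc i).1.trans (hc i).2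
  have hFn : ∀ i, ∫ φ, ‖F i φ‖ ∂celMu ≤ σ * ((K₁ + K₂) *
      celGeo (Real.exp (-(ρ - σ₁) * η)) (Real.exp (-(σ₂ - ρ) * η)) i.1) := by
    intro i
    have e1 : ∫ φ, ‖F i φ‖ ∂celMu = c i * (Real.exp (ρ * (η * i.1)) *
        ∫ φ, ‖∫ s, celW p δ η (α i.2) θ₀ i.1 s φ‖ ∂celMu) := by
      rw [← integral_const_mul, ← integral_const_mul]
      congr 1
      ext φ
      rw [hF]
      change ‖c i * (Real.exp (ρ * (η * i.1)) * ∫ s, celW p δ η (α i.2) θ₀ i.1 s φ)‖ = _
      rw [norm_mul, norm_mul, Real.norm_of_nonneg (hc i).1,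
        Real.norm_of_nonneg (Real.exp_pos _).le]
    rw [e1]
    have h3 : Real.exp (ρ * (η * i.1)) * ∫ φ, ‖∫ s, celW p δ η (α i.2) θ₀ i.1 s φ‖ ∂celMu ≤
        (K₁ + K₂) * celGeo (Real.exp (-(ρ - σ₁) * η)) (Real.exp (-(σ₂ - ρ) * η)) i.1 := by
      refine cel_le_geo i.1 hK₁ hK₂ ?_ ?_
      · calc _ ≤ Real.exp (ρ * (η * i.1)) * (K₁ * Real.exp (σ₁ * -(η * i.1))) :=
            mul_le_mul_of_nonneg_left (hb₁ (α i.2) i.1).2 (Real.exp_pos _).le
          _ = _ := by ring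
      · calc _ ≤ Real.exp (ρ * (η * i.1)) * (K₂ * Real.exp (σ₂ * -(η * i.1))) :=
            mul_le_mul_of_nonneg_left (hb₂ (α i.2) i.1).2 (Real.exp_pos _).le
          _ = _ := by ring
    exact mul_le_mul (hc i).2 h3 (mul_nonneg (Real.exp_pos _).le
      (integral_nonneg fun φ => norm_nonneg _)) (hn0 i)
  have hgeo := cel_summable_geo (Real.exp_pos (-(ρ - σ₁) * η)).le
    (Real.exp_lt_one_iff.2 (by nlinarith)) (Real.exp_pos (-(σ₂ - ρ) * η)).le
    (Real.exp_lt_one_iff.2 (by nlinarith))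
  have hgeo2 : Summable fun i : ℤ × Fin n => σ * ((K₁ + K₂) *
      celGeo (Real.exp (-(ρ - σ₁) * η)) (Real.exp (-(σ₂ - ρ) * η)) i.1) := by
    have h3 : Summable fun _ : Fin n => (1 : ℝ) := (hasSum_fintype _).summable
    have h4 := hgeo.mul_of_nonneg h3 (fun a => by unfold celGeo; positivity) (fun _ => zero_le_one)
    simp only [mul_one] at h4
    exact (h4.mul_left _).mul_left _
  have hS : Summable fun i => ∫ φ, ‖F i φ‖ ∂celMu :=
    Summable.of_nonneg_of_le (fun i => integral_nonneg fun φ => norm_nonneg _) hFn hgeo2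
  have hsum := hasSum_integral_of_summable_integral_norm hFint hS
  have hFtot : Integrable (fun φ => ∑' i, F i φ) celMu := cel_integrable_tsum hFint hS
  -- the sum of the averaged cells
  have e2 : ∀ i, ∫ φ, F i φ ∂celMu = 2 * π * (c i * cl p ρ δ η (α i.2) i.1 θ₀) := by
    intro i
    rw [cel_cl_eq hδ (α i.2) θ₀ i.1 (hb₁ (α i.2) i.1).1]
    have : ∫ φ, F i φ ∂celMu = c i * ∫ φ, (Real.exp (ρ * (η * i.1)) *
        ∫ s, celW p δ η (α i.2) θ₀ i.1 s φ) ∂celMu := by
      rw [← integral_const_mul]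
    rw [this]
    have hpi := Real.two_pi_pos.ne'
    field_simp
  simp only [e2] at hsum
  have hmass : celMu.real univ = 2 * π := by
    unfold celMu
    rw [measureReal_restrict_apply_univ, Real.volume_real_Ioc_of_le Real.two_pi_pos.le, sub_zero]
  have hne : celMu ≠ 0 := by
    intro h
    rw [h] at hmass
    simp at hmass
  obtain ⟨φ, hφ⟩ := exists_average_le hne hFtot
  rw [average_eq, hmass, smul_eq_mul, ← hsum.tsum_eq, tsum_mul_left, inv_mul_cancel_left₀
    Real.two_pi_pos.ne'] at hφ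
  refine ⟨φ - θ₀, hφ.trans (le_of_eq ?_)⟩
  rw [← tsum_mul_left]
  congr 1
  ext i
  rw [hF]
  change c i * (Real.exp (ρ * (η * i.1)) * ∫ s, celW p δ η (α i.2) θ₀ i.1 s φ) = _
  rw [cel_W_eq p ρ hδ]
  ring

end HBInd
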