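import Pool.Agent.HBInd.Trig

/-!
# Contact of a non-negative indicator with potentials of at most two rays of zeros

Paper proof of `exists_contact` (`0 < ρ < 1`, `h ≥ 0` periodic, `h(θ) ≤ h(-θ)` for `0 < θ < π`):
`h ≤ M₀` (continuity and periodicity). If `h(θ₀) = 0` take `m = 0`. Otherwise the support sinusoid at `θ₀`
(`exists_support`) is `R cos ρ(θ - φ)` with `R > 0`, `|φ - θ₀| < π / (2 ρ)`. For `|θ - φ| ≤ π` we have
`R cos ρ(θ - φ) ≤ h(θ)`: if `|θ - φ| < π / (2 ρ)` then `|θ - θ₀| < π / ρ`, otherwise the left side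
is `≤ 0 ≤ h(θ)` (for `π / 2 ≤ ρ |θ - φ| ≤ ρ π < π`). So `R cos (ρ dist(θ, φ)) ≤ h(θ)` for all `θ`,
where `dist` is the distance on the circle of length `2 π`; in particular `R ≤ M₀`. Also
`|φ - θ₀| ≤ π`: clear if `ρ ≥ 1/2`; if `ρ < 1/2` and, say, `θ₀ - φ > π`, then the support
inequality at `θ₀ - 2 π` says `R cos ρ(θ₀ - 2 π - φ) ≤ h(θ₀) = R cos ρ(θ₀ - φ)`, but
`|θ₀ - 2 π - φ| < θ₀ - φ < π / (2 ρ)`, contradiction. So `h(θ₀) = R cos (ρ dist(θ₀, φ))`.
Reduce `φ` and `θ₀` mod `2 π` to `[-π, π]`.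
(a) `φ ∈ [-π, 0]`: `α = φ + π ∈ [0, π]`, `R cos (ρ dist(θ, φ)) = R G ρ (θ - α)` (`m = (R, 0)`).
(b) `φ ∈ (0, π)`, `θ₀ ∈ [0, π]`: take `k(θ) = R cos ρ(|θ| - φ)` for `|θ| ≤ π`, which is
    `(R sin ρφ / sin ρπ) G ρ θ + (R sin ρ(π - φ) / sin ρπ) G ρ (θ - π)`. `k ≤ h` on `[0, π]` as
    above, and for `θ ∈ (-π, 0)`: `k(θ) = k(-θ) ≤ h(-θ) ≤ h(θ)`.
(c) `φ ∈ (0, π)`, `θ₀ = -a ∈ (-π, 0)` is impossible: `R cos (ρ dist(a, φ)) ≤ h(a) ≤ h(-a) =
    R cos (ρ dist(-a, φ))` but `dist(a, φ) < dist(-a, φ)`.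
Take `M = M₀ / sin ρπ` (`≥ M₀`).
(Convenient: `G ρ (ψ + π) = cos (ρ dist(ψ, 0))`; `dist` can be avoided by writing `G ρ (θ - φ + π)`.)
-/

namespace HBInd

open Complex Filter Topology Set
open scoped Real

/-- `G ρ (x + π) = cos (ρ x)` for `|x| ≤ π` -/
lemma G_add_pi {ρ x : ℝ} (h : |x| ≤ π) : G ρ (x + π) = Real.cos (ρ * x) := by
  have hpi := Real.pi_pos
  rw [abs_le] at h
  rcases le_or_gt x 0 with h0 | h0
  · rw [G_of_abs_le (by rw [abs_le]; constructor <;> linarith [h.1]),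
      abs_of_nonneg (by linarith [h.1]), ← Real.cos_neg]
    congr 1
    ring
  · have h1 := G_add_int ρ (x - π) 1
    have e1 : x - π + ((1 : ℤ) : ℝ) * (2 * π) = x + π := by
      push_cast
      ring
    rw [e1] at h1
    rw [h1, G_of_abs_le (by rw [abs_le]; constructor <;> linarith [h.2]),
      abs_of_nonpos (by linarith [h.2])]
    congr 1
    ring

/-- `G ρ (x - π) = cos (ρ x)` for `|x| ≤ π` -/
lemma G_sub_pi {ρ x : ℝ} (h : |x| ≤ π) : G ρ (x - π) = Real.cos (ρ * x) := by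
  rw [← G_add_pi h]
  have h1 := G_add_int ρ (x - π) 1
  have e1 : x - π + ((1 : ℤ) : ℝ) * (2 * π) = x + π := by
    push_cast
    ring
  rw [e1] at h1
  exact h1.symm

/-- reduction modulo `2 π` -/
lemma exists_int_Ioc (x : ℝ) : ∃ n : ℤ, -π < x - n * (2 * π) ∧ x - n * (2 * π) ≤ π := by
  have hp : 0 < 2 * π := by positivity
  have h := toIocMod_mem_Ioc hp (-π) x
  refine ⟨toIocDiv hp (-π) x, ?_⟩
  have e : x - (toIocDiv hp (-π) x) * (2 * π) = toIocMod hp (-π) x := by
    rw [toIocMod, zsmul_eq_mul]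
  rw [e]
  exact ⟨h.1, by linarith [h.2]⟩

lemma periodic_int {h : ℝ → ℝ} (hp : ∀ θ, h (θ + 2 * π) = h θ) (n : ℤ) (θ : ℝ) :
    h (θ - n * (2 * π)) = h θ := by
  have h1 : Function.Periodic h (2 * π) := hp
  have := h1.sub_zsmul_eq n (x := θ)
  rwa [zsmul_eq_mul] at this

lemma contact_bound {ρ : ℝ} (hρ : 0 < ρ) {h : ℝ → ℝ} (hc : TrigConvex ρ h)
    (hp : ∀ θ, h (θ + 2 * π) = h θ) : ∃ M₀ : ℝ, 0 ≤ M₀ ∧ ∀ θ, h θ ≤ M₀ := by
  have hcont := continuous_of_trigConvex hρ hc
  obtain ⟨C, hC⟩ := (isCompact_Icc (a := -π) (b := π)).exists_bound_of_continuousOn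
    hcont.continuousOn
  refine ⟨max C 0, le_max_right _ _, fun θ => ?_⟩
  obtain ⟨n, hn1, hn2⟩ := exists_int_Ioc θ
  rw [← periodic_int hp n θ]
  exact ((le_abs_self _).trans (hC _ ⟨hn1.le, hn2⟩)).trans (le_max_left _ _)

/-- the support sinusoid, made periodic -/
lemma exists_support_periodic {ρ : ℝ} (hρ : 0 < ρ) (hρ1 : ρ < 1) {h : ℝ → ℝ}
    (hc : TrigConvex ρ h) (hp : ∀ θ, h (θ + 2 * π) = h θ) (h0 : ∀ θ, 0 ≤ h θ) {θ₀ : ℝ}
    (hθ : 0 < h θ₀) :
    ∃ R φ : ℝ, 0 < R ∧ (∀ θ, R * G ρ (θ - φ + π) ≤ h θ) ∧ R * G ρ (θ₀ - φ + π) = h θ₀ := by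
  have hpi := Real.pi_pos
  obtain ⟨c, hsup⟩ := exists_support hρ hc θ₀
  set z : ℂ := ⟨h θ₀, c⟩ with hz
  set R : ℝ := ‖z‖ with hR
  set ψ : ℝ := Complex.arg z with hψ
  have hz0 : z ≠ 0 := by
    intro hcon
    have := congrArg Complex.re hcon
    simp [hz] at this
    linarith
  have hRpos : 0 < R := norm_pos_iff.2 hz0
  have hcos : R * Real.cos ψ = h θ₀ := by
    rw [hR, hψ, Complex.norm_mul_cos_arg]
  have hsin : R * Real.sin ψ = c := by
    rw [hR, hψ, Complex.norm_mul_sin_arg]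
  have hψ2 : |ψ| < π / 2 := by
    rw [hψ, Complex.abs_arg_lt_pi_div_two_iff]
    left
    exact hθ
  set φ : ℝ := θ₀ + ψ / ρ with hφ
  have hφρ : ρ * (φ - θ₀) = ψ := by
    rw [hφ]
    field_simp
    ring
  -- the support inequality in polar form
  have hsup' : ∀ θ, |θ - θ₀| < π / ρ → R * Real.cos (ρ * (θ - φ)) ≤ h θ := by
    intro θ h1
    have h2 := hsup θ h1
    have e1 : ρ * (θ - φ) = ρ * (θ - θ₀) - ψ := by
      rw [← hφρ]
      ring
    rw [e1, Real.cos_sub]
    rw [← hcos, ← hsin] at h2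
    linarith
  have habs : |θ₀ - φ| < π / (2 * ρ) := by
    have e1 : θ₀ - φ = -(ψ / ρ) := by
      rw [hφ]
      ring
    rw [e1, abs_neg, abs_div, abs_of_pos hρ, div_lt_div_iff₀ hρ (by positivity)]
    nlinarith
  have hloc : ∀ x, |x| ≤ π → R * Real.cos (ρ * x) ≤ h (φ + x) := by
    intro x hx
    rcases lt_or_ge |x| (π / (2 * ρ)) with h1 | h1
    · have h2 := hsup' (φ + x) (by
        have e1 : φ + x - θ₀ = x - (θ₀ - φ) := by ring
        rw [e1]
        refine lt_of_le_of_lt (abs_sub _ _) ?_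
        have e2 : π / ρ = π / (2 * ρ) + π / (2 * ρ) := by
          field_simp
          ring
        rw [e2]
        exact add_lt_add h1 habs)
      have e1 : φ + x - φ = x := by ring
      rwa [e1] at h2
    · have h3 : π / 2 ≤ ρ * |x| := by
        rw [div_le_iff₀ (by positivity)] at h1
        linarith
      have h4 : ρ * |x| ≤ π := by nlinarith [abs_nonneg x]
      have h5 : Real.cos (ρ * x) ≤ 0 := by
        rw [← Real.cos_abs, abs_mul, abs_of_pos hρ]
        exact Real.cos_nonpos_of_pi_div_two_le_of_le h3 (by linarith)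
      exact (mul_nonpos_of_nonneg_of_nonpos hRpos.le h5).trans (h0 _)
  have hall : ∀ θ, R * G ρ (θ - φ + π) ≤ h θ := by
    intro θ
    obtain ⟨n, hn1, hn2⟩ := exists_int_Ioc (θ - φ)
    have h1 : |θ - φ - n * (2 * π)| ≤ π := by
      rw [abs_le]
      exact ⟨hn1.le, hn2⟩
    have h2 := hloc _ h1
    have e1 : φ + (θ - φ - n * (2 * π)) = θ - n * (2 * π) := by ring
    rw [e1, periodic_int hp] at h2
    have e2 : G ρ (θ - φ + π) = G ρ (θ - φ - n * (2 * π) + π) := by
      rw [← G_add_int ρ (θ - φ - n * (2 * π) + π) n]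
      congr 1
      ring
    rw [e2, G_add_pi h1]
    exact h2
  have hle : |θ₀ - φ| ≤ π := by
    by_contra hcon
    push Not at hcon
    have hρ2 : ρ < 1 / 2 := by
      have h1 : π < π / (2 * ρ) := hcon.trans habs
      rw [lt_div_iff₀ (by positivity)] at h1
      by_contra h2
      push Not at h2
      nlinarith
    have h2π : 2 * π < π / ρ := by
      rw [lt_div_iff₀ hρ]
      nlinarith
    have key : ∀ s : ℝ, |s| = 2 * π → h (θ₀ + s) = h θ₀ → |θ₀ + s - φ| < |θ₀ - φ| → False := by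
      intro s hs1 hs2 hs3
      have h1 := hsup' (θ₀ + s) (by rw [add_sub_cancel_left, hs1]; exact h2π)
      have h2 : R * Real.cos (ρ * (θ₀ - φ)) = h θ₀ := by
        have e1 : ρ * (θ₀ - φ) = -ψ := by
          rw [← hφρ]
          ring
        rw [e1, Real.cos_neg, hcos]
      rw [hs2, ← h2] at h1
      have h3 := le_of_mul_le_mul_left h1 hRpos
      have h4 : Real.cos (ρ * (θ₀ - φ)) < Real.cos (ρ * (θ₀ + s - φ)) := by
        rw [← Real.cos_abs (ρ * (θ₀ - φ)), ← Real.cos_abs (ρ * (θ₀ + s - φ)), abs_mul, abs_mul,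
          abs_of_pos hρ]
        refine Real.cos_lt_cos_of_nonneg_of_le_pi (by positivity) ?_
          (mul_lt_mul_of_pos_left hs3 hρ)
        have h5 : ρ * |θ₀ - φ| < ρ * (π / (2 * ρ)) := mul_lt_mul_of_pos_left habs hρ
        have e2 : ρ * (π / (2 * ρ)) = π / 2 := by
          field_simp
        linarith
      linarith
    rcases le_total 0 (θ₀ - φ) with h1 | h1
    · rw [abs_of_nonneg h1] at hcon
      refine key (-(2 * π)) (by rw [abs_neg, abs_of_pos (by positivity)]) ?_ ?_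
      · rw [← hp (θ₀ + -(2 * π))]
        congr 1
        ring
      · rw [abs_of_nonneg h1, abs_lt]
        constructor <;> linarith
    · rw [abs_of_nonpos h1] at hcon
      refine key (2 * π) (abs_of_pos (by positivity)) (hp θ₀) ?_
      rw [abs_of_nonpos h1, abs_lt]
      constructor <;> linarith
  refine ⟨R, φ, hRpos, hall, ?_⟩
  rw [G_add_pi hle]
  have e1 : ρ * (θ₀ - φ) = -ψ := by
    rw [← hφρ]
    ring
  rw [e1, Real.cos_neg, hcos]

/-- contact with at most two rays of zeros in the closed upper half-plane -/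
theorem exists_contact {ρ : ℝ} (hρ : 0 < ρ) (hρ1 : ρ < 1) {h : ℝ → ℝ} (hc : TrigConvex ρ h)
    (hp : ∀ θ, h (θ + 2 * π) = h θ) (h0 : ∀ θ, 0 ≤ h θ)
    (hs : ∀ θ ∈ Ioo 0 π, h θ ≤ h (-θ)) :
    ∃ M : ℝ, 0 ≤ M ∧ ∀ θ₀ : ℝ, ∃ m α : Fin 2 → ℝ, (∀ i, 0 ≤ m i ∧ m i ≤ M) ∧
      (∀ i, α i ∈ Icc 0 π) ∧ (∀ θ, ∑ i, m i * G ρ (θ - α i) ≤ h θ) ∧
      ∑ i, m i * G ρ (θ₀ - α i) = h θ₀ := by
  have hpi := Real.pi_pos
  obtain ⟨M₀, hM0, hM⟩ := contact_bound hρ hc hp
  have hsp : 0 < Real.sin (ρ * π) :=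
    Real.sin_pos_of_pos_of_lt_pi (by positivity) (by nlinarith)
  have hMM : M₀ ≤ M₀ / Real.sin (ρ * π) := by
    rw [le_div_iff₀ hsp]
    nlinarith [Real.sin_le_one (ρ * π)]
  refine ⟨M₀ / Real.sin (ρ * π), by positivity, fun θ₀ => ?_⟩
  rcases eq_or_lt_of_le (h0 θ₀) with hθ | hθ
  · refine ⟨fun _ => 0, fun _ => 0, fun i => ⟨le_rfl, by positivity⟩, fun i => ⟨le_rfl, hpi.le⟩,
      fun θ => ?_, ?_⟩
    · simpa using h0 θ
    · simpa using hθ
  · obtain ⟨R, φ₁, hR, hall, hcon⟩ := exists_support_periodic hρ hρ1 hc hp h0 hθ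
    -- reduce `φ`
    obtain ⟨n, hn1, hn2⟩ : ∃ n : ℤ, -π ≤ φ₁ - n * (2 * π) ∧ φ₁ - n * (2 * π) < π := by
      obtain ⟨n, hn1, hn2⟩ := exists_int_Ioc (-φ₁)
      refine ⟨-n, ?_, ?_⟩ <;> push_cast <;> linarith
    set φ : ℝ := φ₁ - n * (2 * π) with hφ
    have hG : ∀ θ, G ρ (θ - φ₁ + π) = G ρ (θ - φ + π) := by
      intro θ
      rw [← G_add_int ρ (θ - φ₁ + π) n]
      congr 1
      rw [hφ]
      ring
    simp only [hG] at hall hcon
    clear_value φ
    have hRM : R ≤ M₀ := by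
      have h1 := hall φ
      have h2 : G ρ (φ - φ + π) = 1 := by
        rw [sub_self, G_add_pi (by simpa using hpi.le)]
        simp
      rw [h2, mul_one] at h1
      exact h1.trans (hM _)
    rcases le_or_gt φ 0 with hφ0 | hφ0
    · -- case (a)
      have hG2 : ∀ θ, G ρ (θ - (φ + π)) = G ρ (θ - φ + π) := by
        intro θ
        rw [← G_add_int ρ (θ - (φ + π)) 1]
        congr 1
        push_cast
        ring
      refine ⟨![R, 0], ![φ + π, 0], ?_, ?_, ?_, ?_⟩
      · intro i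
        fin_cases i
        · exact ⟨hR.le, hRM.trans hMM⟩
        · exact ⟨le_rfl, by positivity⟩
      · intro i
        fin_cases i
        · exact ⟨by simp; linarith, by simp; linarith⟩
        · exact ⟨le_rfl, hpi.le⟩
      · intro θ
        simpa [Fin.sum_univ_two, hG2] using hall θ
      · simpa [Fin.sum_univ_two, hG2] using hcon
    · -- cases (b) and (c)
      obtain ⟨n', hn1', hn2'⟩ := exists_int_Ioc θ₀
      set θ₁ : ℝ := θ₀ - n' * (2 * π) with hθ₁
      have hh1 : h θ₀ = h θ₁ := by rw [hθ₁, periodic_int hp]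
      have hGper : ∀ x, G ρ (θ₀ + x) = G ρ (θ₁ + x) := by
        intro x
        rw [← G_add_int ρ (θ₁ + x) n']
        congr 1
        rw [hθ₁]
        ring
      have hcon1 : R * G ρ (θ₁ - φ + π) = h θ₁ := by
        rw [← hh1, ← hcon]
        have := hGper (-φ + π)
        rw [show θ₁ - φ + π = θ₁ + (-φ + π) by ring, ← this]
        congr 2
        ring
      clear_value θ₁
      rcases lt_or_ge θ₁ 0 with hneg | hpos
      · -- case (c) is impossible
        exfalso
        have ha : -θ₁ ∈ Ioo 0 π := ⟨by linarith, by linarith⟩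
        have h1 := hs (-θ₁) ha
        rw [neg_neg, ← hcon1] at h1
        have h2 := (hall (-θ₁)).trans h1
        have h3 := le_of_mul_le_mul_left h2 hR
        have h4 : |-θ₁ - φ| ≤ π := by
          rw [abs_le]
          constructor <;> linarith [ha.1, ha.2]
        have h5 : |θ₁ - φ + π| ≤ π := by
          rw [abs_le]
          constructor <;> linarith [ha.1, ha.2]
        rw [G_add_pi h4, G_of_abs_le h5, ← Real.cos_abs (ρ * (-θ₁ - φ)), abs_mul,
          abs_of_pos hρ] at h3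
        have h6 : |-θ₁ - φ| < π - |θ₁ - φ + π| := by
          rcases abs_cases (-θ₁ - φ) with ⟨e1, -⟩ | ⟨e1, -⟩ <;>
          rcases abs_cases (θ₁ - φ + π) with ⟨e2, -⟩ | ⟨e2, -⟩ <;>
          rw [e1, e2] <;> linarith [ha.1, ha.2]
        have h7 : Real.cos (ρ * (π - |θ₁ - φ + π|)) < Real.cos (ρ * |-θ₁ - φ|) := by
          refine Real.cos_lt_cos_of_nonneg_of_le_pi (by positivity) ?_
            (mul_lt_mul_of_pos_left h6 hρ)
          nlinarith [abs_nonneg (θ₁ - φ + π), mul_nonneg hρ.le (abs_nonneg (θ₁ - φ + π))]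
        linarith
      · -- case (b)
        set c₀ : ℝ := R * Real.sin (ρ * φ) / Real.sin (ρ * π) with hc₀
        set c₁ : ℝ := R * Real.sin (ρ * (π - φ)) / Real.sin (ρ * π) with hc₁
        have hs0 : 0 ≤ Real.sin (ρ * φ) :=
          Real.sin_nonneg_of_nonneg_of_le_pi (by positivity) (by nlinarith)
        have hs1 : 0 ≤ Real.sin (ρ * (π - φ)) :=
          Real.sin_nonneg_of_nonneg_of_le_pi (mul_nonneg hρ.le (by linarith)) (by nlinarith)
        have hk : ∀ x, |x| ≤ π → c₀ * G ρ x + c₁ * G ρ (x - π) =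
            R * Real.cos (ρ * (|x| - φ)) := by
          intro x hx
          rw [G_of_abs_le hx, G_sub_pi hx, ← Real.cos_abs (ρ * x), abs_mul, abs_of_pos hρ, hc₀, hc₁]
          have e1 : ρ * (π - φ) = ρ * π - ρ * φ := by ring
          have e2 : ρ * (π - |x|) = ρ * π - ρ * |x| := by ring
          have e3 : ρ * (|x| - φ) = ρ * |x| - ρ * φ := by ring
          rw [e1, e2, e3, Real.sin_sub, Real.cos_sub, Real.cos_sub]
          field_simp
          ring
        have hkpos : ∀ x, 0 ≤ x → x ≤ π → c₀ * G ρ x + c₁ * G ρ (x - π) =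
            R * G ρ (x - φ + π) := by
          intro x hx0 hx1
          rw [hk x (by rw [abs_of_nonneg hx0]; exact hx1), abs_of_nonneg hx0, G_add_pi]
          rw [abs_le]
          constructor <;> linarith
        refine ⟨![c₀, c₁], ![0, π], ?_, ?_, ?_, ?_⟩
        · intro i
          fin_cases i
          · refine ⟨div_nonneg (mul_nonneg hR.le hs0) hsp.le,
              div_le_div_of_nonneg_right ?_ hsp.le⟩
            nlinarith [Real.sin_le_one (ρ * φ)]
          · refine ⟨div_nonneg (mul_nonneg hR.le hs1) hsp.le,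
              div_le_div_of_nonneg_right ?_ hsp.le⟩
            nlinarith [Real.sin_le_one (ρ * (π - φ))]
        · intro i
          fin_cases i
          · exact ⟨le_rfl, hpi.le⟩
          · exact ⟨hpi.le, le_rfl⟩
        · intro θ
          simp only [Fin.sum_univ_two, Matrix.cons_val_zero, Matrix.cons_val_one, sub_zero]
          obtain ⟨k, hk1, hk2⟩ := exists_int_Ioc θ
          have e1 : G ρ θ = G ρ (θ - k * (2 * π)) := by
            rw [← G_add_int ρ (θ - k * (2 * π)) k]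
            congr 1
            ring
          have e2 : G ρ (θ - π) = G ρ (θ - k * (2 * π) - π) := by
            rw [← G_add_int ρ (θ - k * (2 * π) - π) k]
            congr 1
            ring
          rw [e1, e2, ← periodic_int hp k θ]
          generalize θ - k * (2 * π) = x at hk1 hk2
          rcases le_or_gt 0 x with hx | hx
          · rw [hkpos x hx hk2]
            exact hall x
          · rw [hk x (by rw [abs_le]; constructor <;> linarith), abs_of_neg hx]
            have h1 : R * Real.cos (ρ * (-x - φ)) ≤ h (-x) := by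
              have h2 := hall (-x)
              rwa [G_add_pi (by rw [abs_le]; constructor <;> linarith)] at h2
            refine h1.trans ?_
            have h3 := hs (-x) ⟨by linarith, by linarith⟩
            rwa [neg_neg] at h3
        · simp only [Fin.sum_univ_two, Matrix.cons_val_zero, Matrix.cons_val_one, sub_zero]
          have e1 := hGper 0
          rw [add_zero, add_zero] at e1
          have e2 := hGper (-π)
          rw [← sub_eq_add_neg, ← sub_eq_add_neg] at e2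
          rw [e1, e2, hkpos θ₁ hpos hn2', hcon1, hh1]

end HBInd
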