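import Pool.Agent.HBInd.PL

/-!
# Necessary conditions on indicators

Paper proofs.

* `ind_le_sinusoid`: `sector_bound` with `A, B` (any reals above the indicator; `eventually_of_ind_lt`)
  gives `|f (r e^{it})| ≤ C exp (s(t) r^ρ)`, hence `ind ≤ s(t)` (`ind_le_of_eventually` for
  `s(t) + ε`, then `ε → 0`).
* `trigConvex_of_ind`: `ind_le_sinusoid` with `A = g a + ε`, `B = g b + ε`, `ε → 0`
  (`sin (ρ (b - a)) > 0` and `sin (ρ (b - t)), sin (ρ (t - a)) ≥ 0`).
* `ind_ne_bot`: if `ind ρ f θ₀ = ⊥`, then by `ind_le_sinusoid` with `A → -∞` at `θ₀` and a finite `B`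
  at `θ₀ + π / ρ - ε'` (resp. to the left) `ind = ⊥` on `(θ₀ - π / ρ, θ₀ + π / ρ)`, which has length
  `> 2 π` as `ρ < 1`; cover the circle by finitely many sectors of opening `< π / ρ` (three sectors of
  opening `2 π / 3`) and use `sector_bound` with `A = B = -1` at the end points: `f` is bounded and
  tends to `0` along every direction uniformly, so `f = 0` by Liouville, contradicting `zero_free`.
* `ind_dichotomy`: if `ind ρ f θ₀ < ⊤` then `sector_bound` in `[θ₀, θ₀ + 2 π]` (opening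
  `2 π < π / ρ`, and `σ` slightly larger than `ρ`).
* `ind_half`: if two rays which differ mod `2 π` have `ind < ⊤`, both sectors between them have
  opening `< 2 π = π / ρ`. If exactly one ray `α` (mod `2 π`, `α ∈ (-π, π]`) has `ind < ⊤`, then
  `α ∈ [0, π]` because `ind α₁ ≤ ind (-α₁)` for `α₁ = -α ∈ (0, π)`: precisely for `α ∈ (-π, 0)` one has
  `ind (-α) ≤ ind α < ⊤`, so `-α` would be a second ray. If there is none take `α = 0`.
-/

namespace HBInd

open Complex Filter Topology Set Bornology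
open scoped Real ComplexConjugate

/-- a bound with a constant factor suffices for an upper bound of the indicator -/
lemma ind_le_of_bound {ρ s θ C : ℝ} {f : ℂ → ℂ} (hρ : 0 < ρ)
    (h : ∀ᶠ r : ℝ in atTop, ‖f (ray r θ)‖ ≤ C * Real.exp (s * r ^ ρ)) :
    ind ρ f θ ≤ (s : EReal) := by
  refine EReal.le_of_forall_lt_iff_le.1 fun z hz => ?_
  have hz' : s < z := by exact_mod_cast hz
  refine ind_le_of_eventually ?_
  have h1 : Tendsto (fun r : ℝ => (z - s) * r ^ ρ) atTop atTop :=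
    (tendsto_rpow_atTop hρ).const_mul_atTop (sub_pos.2 hz')
  have h2 : Tendsto (fun r : ℝ => Real.exp ((z - s) * r ^ ρ)) atTop atTop :=
    Real.tendsto_exp_atTop.comp h1
  filter_upwards [h, h2.eventually_ge_atTop C] with r hr hr2
  calc ‖f (ray r θ)‖ ≤ C * Real.exp (s * r ^ ρ) := hr
    _ ≤ Real.exp ((z - s) * r ^ ρ) * Real.exp (s * r ^ ρ) :=
        mul_le_mul_of_nonneg_right hr2 (Real.exp_pos _).le
    _ = Real.exp (z * r ^ ρ) := by rw [← Real.exp_add]; ring_nf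

theorem ind_le_sinusoid {ρ : ℝ} {f : ℂ → ℂ} (hf : InClass ρ f) (hρ : 0 < ρ) {a b A B t : ℝ}
    (hab : a < b) (hρl : ρ * (b - a) < π) (ht : t ∈ Icc a b)
    (hA : ind ρ f a < A) (hB : ind ρ f b < B) :
    ind ρ f t ≤ (((A * Real.sin (ρ * (b - t)) + B * Real.sin (ρ * (t - a))) /
        Real.sin (ρ * (b - a)) : ℝ) : EReal) := by
  have hba : 0 < b - a := sub_pos.2 hab
  obtain ⟨σ, h1, h2⟩ := exists_between ((lt_div_iff₀ hba).2 hρl)
  rw [lt_div_iff₀ hba] at h2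
  obtain ⟨C, -, hC⟩ := sector_bound hf.entire hρ (hρ.trans h1) hab hρl h2
    (hf.order.eventually h1) ((eventually_of_ind_lt hA).mono fun _ h => h.le)
    ((eventually_of_ind_lt hB).mono fun _ h => h.le)
  refine ind_le_of_bound hρ (C := C) ?_
  filter_upwards [eventually_gt_atTop 0] with r hr
  exact hC r hr t ht

/-- real valued indicators are trigonometrically convex -/
theorem trigConvex_of_ind {ρ : ℝ} {f : ℂ → ℂ} (hf : InClass ρ f) (hρ : 0 < ρ) {g : ℝ → ℝ}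
    (hg : ∀ θ, ind ρ f θ = g θ) : TrigConvex ρ g := by
  intro a t b hat htb hba
  have hρl : ρ * (b - a) < π := by rwa [lt_div_iff₀ hρ, mul_comm] at hba
  have hab : a < b := hat.trans htb
  have hsin : 0 < Real.sin (ρ * (b - a)) :=
    Real.sin_pos_of_pos_of_lt_pi (mul_pos hρ (sub_pos.2 hab)) hρl
  refine le_of_forall_pos_le_add fun ε hε => ?_
  have h1 := ind_le_sinusoid hf hρ (A := g a + ε / 2) (B := g b + ε / 2) hab hρl
    ⟨hat.le, htb.le⟩ (by rw [hg]; exact_mod_cast (by linarith : g a < g a + ε / 2))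
    (by rw [hg]; exact_mod_cast (by linarith : g b < g b + ε / 2))
  rw [hg] at h1
  have h2 : g t ≤ ((g a + ε / 2) * Real.sin (ρ * (b - t)) +
      (g b + ε / 2) * Real.sin (ρ * (t - a))) / Real.sin (ρ * (b - a)) := by exact_mod_cast h1
  rw [le_div_iff₀ hsin] at h2
  have h3 := Real.sin_le_one (ρ * (b - t))
  have h4 := Real.sin_le_one (ρ * (t - a))
  nlinarith

lemma exists_real_gt {x : EReal} (hx : x ≠ ⊤) : ∃ A : ℝ, x < A := by
  obtain ⟨A, h, -⟩ := EReal.exists_between_coe_real (lt_top_iff_ne_top.2 hx)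
  exact ⟨A, h⟩

lemma ind_ne_top_between {ρ : ℝ} {f : ℂ → ℂ} (hf : InClass ρ f) (hρ : 0 < ρ) {a b t : ℝ}
    (hab : a < b) (hρl : ρ * (b - a) < π) (ha : ind ρ f a ≠ ⊤) (hb : ind ρ f b ≠ ⊤)
    (ht : t ∈ Icc a b) : ind ρ f t ≠ ⊤ := by
  obtain ⟨A, hA⟩ := exists_real_gt ha
  obtain ⟨B, hB⟩ := exists_real_gt hb
  exact ((ind_le_sinusoid hf hρ hab hρl ht hA hB).trans_lt (EReal.coe_lt_top _)).ne

/-- the value `-∞` propagates to the right -/
lemma ind_bot_right {ρ : ℝ} {f : ℂ → ℂ} (hf : InClass ρ f) (hρ : 0 < ρ)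
    (hfin : ∀ θ, ind ρ f θ ≠ ⊤) {a t : ℝ} (ha : ind ρ f a = ⊥) (hat : a ≤ t)
    (ht : ρ * (t - a) < π) : ind ρ f t = ⊥ := by
  rw [mul_comm, ← lt_div_iff₀ hρ] at ht
  obtain ⟨c, h1, h2⟩ := exists_between ht
  set b := a + c with hb
  have hbt : t < b := by rw [hb]; linarith
  have hab : a < b := hat.trans_lt hbt
  have hρl : ρ * (b - a) < π := by
    rw [hb, add_sub_cancel_left, mul_comm]; rwa [lt_div_iff₀ hρ] at h2
  have hsin : 0 < Real.sin (ρ * (b - a)) :=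
    Real.sin_pos_of_pos_of_lt_pi (mul_pos hρ (sub_pos.2 hab)) hρl
  have hsin2 : 0 < Real.sin (ρ * (b - t)) :=
    Real.sin_pos_of_pos_of_lt_pi (mul_pos hρ (sub_pos.2 hbt))
      (lt_of_le_of_lt (mul_le_mul_of_nonneg_left (by linarith) hρ.le) hρl)
  obtain ⟨B, hB⟩ := exists_real_gt (hfin b)
  rw [EReal.eq_bot_iff_forall_lt]
  intro z
  set A : ℝ := ((z - 1) * Real.sin (ρ * (b - a)) - B * Real.sin (ρ * (t - a))) /
    Real.sin (ρ * (b - t)) with hA
  have h3 := ind_le_sinusoid hf hρ hab hρl ⟨hat, hbt.le⟩ (A := A) (B := B)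
    (by rw [ha]; exact EReal.bot_lt_coe _) hB
  have h4 : (A * Real.sin (ρ * (b - t)) + B * Real.sin (ρ * (t - a))) /
      Real.sin (ρ * (b - a)) = z - 1 := by
    rw [hA]
    field_simp
    ring
  rw [h4] at h3
  refine h3.trans_lt ?_
  exact_mod_cast (by linarith : z - 1 < z)

lemma sin_add_le {x y : ℝ} (hx : 0 ≤ x) (hy : 0 ≤ y) (hxy : x + y ≤ π) :
    Real.sin (x + y) ≤ Real.sin x + Real.sin y := by
  rw [Real.sin_add]
  have h1 := Real.sin_nonneg_of_nonneg_of_le_pi hx (by linarith)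
  have h2 := Real.sin_nonneg_of_nonneg_of_le_pi hy (by linarith)
  have h3 := Real.cos_le_one x
  have h4 := Real.cos_le_one y
  nlinarith

lemma exp_bound_of_bot {ρ : ℝ} {f : ℂ → ℂ} (hf : InClass ρ f) (hρ : 0 < ρ) {a b : ℝ}
    (hab : a < b) (hρl : ρ * (b - a) < π) (ha : ind ρ f a = ⊥) (hb : ind ρ f b = ⊥) :
    ∃ C : ℝ, 0 ≤ C ∧ ∀ r : ℝ, 0 < r → ∀ t ∈ Icc a b, ‖f (ray r t)‖ ≤ C * Real.exp (-r ^ ρ) := by
  have hba : 0 < b - a := sub_pos.2 hab
  have hsin : 0 < Real.sin (ρ * (b - a)) :=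
    Real.sin_pos_of_pos_of_lt_pi (mul_pos hρ (sub_pos.2 hab)) hρl
  obtain ⟨σ, h1, h2⟩ := exists_between ((lt_div_iff₀ hba).2 hρl)
  rw [lt_div_iff₀ hba] at h2
  have hA : ind ρ f a < ((-1 : ℝ) : EReal) := by rw [ha]; exact EReal.bot_lt_coe _
  have hB : ind ρ f b < ((-1 : ℝ) : EReal) := by rw [hb]; exact EReal.bot_lt_coe _
  obtain ⟨C, hC0, hC⟩ := sector_bound hf.entire hρ (hρ.trans h1) hab hρl h2
    (hf.order.eventually h1) ((eventually_of_ind_lt hA).mono fun _ h => h.le)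
    ((eventually_of_ind_lt hB).mono fun _ h => h.le)
  refine ⟨C, hC0, fun r hr t ht => (hC r hr t ht).trans ?_⟩
  refine mul_le_mul_of_nonneg_left (Real.exp_le_exp.2 ?_) hC0
  have h3 : Real.sin (ρ * (b - a)) ≤ Real.sin (ρ * (b - t)) + Real.sin (ρ * (t - a)) := by
    have e : ρ * (b - a) = ρ * (b - t) + ρ * (t - a) := by ring
    rw [e]
    refine sin_add_le (mul_nonneg hρ.le (by linarith [ht.2])) (mul_nonneg hρ.le (by linarith [ht.1]))
      ?_
    rw [← e]; exact hρl.le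
  have h4 : (-1 * Real.sin (ρ * (b - t)) + -1 * Real.sin (ρ * (t - a))) /
      Real.sin (ρ * (b - a)) ≤ -1 := by
    rw [div_le_iff₀ hsin]
    linarith
  have h5 : 0 < r ^ ρ := Real.rpow_pos_of_pos hr _
  nlinarith

/-- indicators of functions of finite type are not `-∞` -/
theorem ind_ne_bot {ρ : ℝ} {f : ℂ → ℂ} (hf : InClass ρ f) (hρ : 0 < ρ) (hρ1 : ρ < 1)
    (hfin : ∀ θ, ind ρ f θ ≠ ⊤) (θ : ℝ) : ind ρ f θ ≠ ⊥ := by
  intro h0
  have hpi := Real.pi_pos
  have hstep : ∀ a t : ℝ, ind ρ f a = ⊥ → a ≤ t → t ≤ a + π → ind ρ f t = ⊥ := by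
    intro a t ha h1 h2
    refine ind_bot_right hf hρ hfin ha h1 ?_
    have : ρ * (t - a) ≤ ρ * π := mul_le_mul_of_nonneg_left (by linarith) hρ.le
    nlinarith
  have hall : ∀ t, ind ρ f t = ⊥ := by
    intro t
    obtain ⟨n, hn, -⟩ := existsUnique_add_zsmul_mem_Ico (a := 2 * π) (by positivity) t θ
    rw [zsmul_eq_mul] at hn
    rw [← ind_add_int ρ f t n]
    set t' := t + n * (2 * π)
    rcases le_total t' (θ + π) with h | h
    · exact hstep θ t' h0 hn.1 h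
    · exact hstep (θ + π) t' (hstep θ (θ + π) h0 (by linarith) le_rfl) h (by linarith [hn.2])
  have hl : ∀ x : ℝ, x = 2 * π / 3 → ρ * x < π := by
    rintro x rfl
    nlinarith
  obtain ⟨C1, h10, h1⟩ := exp_bound_of_bot hf hρ (a := -π) (b := -π / 3) (by linarith)
    (hl _ (by ring)) (hall _) (hall _)
  obtain ⟨C2, h20, h2⟩ := exp_bound_of_bot hf hρ (a := -π / 3) (b := π / 3) (by linarith)
    (hl _ (by ring)) (hall _) (hall _)
  obtain ⟨C3, h30, h3⟩ := exp_bound_of_bot hf hρ (a := π / 3) (b := π) (by linarith)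
    (hl _ (by ring)) (hall _) (hall _)
  have hb : ∀ z : ℂ, z ≠ 0 → ‖f z‖ ≤ (C1 + C2 + C3) * Real.exp (-‖z‖ ^ ρ) := by
    intro z hz
    have hz0 : 0 < ‖z‖ := norm_pos_iff.2 hz
    have hzr : ray ‖z‖ z.arg = z := Complex.norm_mul_exp_arg_mul_I z
    have ha1 := Complex.neg_pi_lt_arg z
    have ha2 := Complex.arg_le_pi z
    have he := Real.exp_pos (-‖z‖ ^ ρ)
    rcases le_total z.arg (-π / 3) with h | h
    · have := h1 ‖z‖ hz0 z.arg ⟨ha1.le, h⟩
      rw [hzr] at this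
      exact this.trans (mul_le_mul_of_nonneg_right (by linarith) he.le)
    · rcases le_total z.arg (π / 3) with h' | h'
      · have := h2 ‖z‖ hz0 z.arg ⟨h, h'⟩
        rw [hzr] at this
        exact this.trans (mul_le_mul_of_nonneg_right (by linarith) he.le)
      · have := h3 ‖z‖ hz0 z.arg ⟨h', ha2⟩
        rw [hzr] at this
        exact this.trans (mul_le_mul_of_nonneg_right (by linarith) he.le)
  set C := C1 + C2 + C3 with hC
  have hC0 : 0 ≤ C := by rw [hC]; linarith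
  have hbdd : IsBounded (range f) := by
    rw [isBounded_iff_forall_norm_le]
    refine ⟨max C ‖f 0‖, ?_⟩
    rintro _ ⟨z, rfl⟩
    rcases eq_or_ne z 0 with rfl | hz
    · exact le_max_right _ _
    · refine ((hb z hz).trans ?_).trans (le_max_left _ _)
      refine mul_le_of_le_one_right hC0 (Real.exp_le_one_iff.2 ?_)
      exact neg_nonpos.2 (Real.rpow_nonneg (norm_nonneg _) _)
  have hconst : ∀ z : ℂ, f z = f (-I) := fun z => hf.entire.apply_eq_apply_of_bounded hbdd z (-I)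
  have hne : f (-I) ≠ 0 := hf.zero_free (-I) (by simp)
  have hlim : Tendsto (fun r : ℝ => C * Real.exp (-r ^ ρ)) atTop (𝓝 0) := by
    have h := (Real.tendsto_exp_atBot.comp (tendsto_neg_atTop_atBot.comp
      (tendsto_rpow_atTop hρ))).const_mul C
    rw [mul_zero] at h
    exact h
  have hle : ‖f (-I)‖ ≤ 0 := by
    refine ge_of_tendsto hlim ?_
    filter_upwards [eventually_gt_atTop 0] with r hr
    have h := hb (r : ℂ) (by exact_mod_cast hr.ne')
    rwa [hconst, Complex.norm_real, Real.norm_of_nonneg hr.le] at h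
  exact hne (norm_le_zero_iff.1 hle)

theorem ind_dichotomy {ρ : ℝ} {f : ℂ → ℂ} (hf : InClass ρ f) (hρ : 0 < ρ) (hρ2 : ρ < 1 / 2) :
    (∀ θ, ind ρ f θ = ⊤) ∨ ∀ θ, ind ρ f θ ≠ ⊤ := by
  have hpi := Real.pi_pos
  by_cases h : ∀ θ, ind ρ f θ = ⊤
  · exact Or.inl h
  · push Not at h
    obtain ⟨θ₀, h0⟩ := h
    refine Or.inr fun t => ?_
    obtain ⟨n, hn, -⟩ := existsUnique_add_zsmul_mem_Ico (a := 2 * π) (by positivity) t θ₀
    rw [zsmul_eq_mul] at hn
    rw [← ind_add_int ρ f t n]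
    refine ind_ne_top_between hf hρ (a := θ₀) (b := θ₀ + 2 * π) (by linarith) ?_ h0 ?_
      ⟨hn.1, hn.2.le⟩
    · rw [add_sub_cancel_left]
      nlinarith
    · rwa [ind_add_two_pi]

theorem ind_half {f : ℂ → ℂ} (hf : InClass (1 / 2) f) :
    (∀ θ, ind (1 / 2) f θ ≠ ⊤) ∨
      ∃ α ∈ Icc 0 π, ∀ θ, (∀ n : ℤ, θ ≠ α + n * (2 * π)) → ind (1 / 2) f θ = ⊤ := by
  have hpi := Real.pi_pos
  have hρ : (0 : ℝ) < 1 / 2 := by norm_num
  -- two different finite directions give finiteness everywhere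
  have key : ∀ θ₁ θ₂ : ℝ, ind (1 / 2) f θ₁ ≠ ⊤ → ind (1 / 2) f θ₂ ≠ ⊤ → θ₁ < θ₂ →
      θ₂ < θ₁ + 2 * π → ∀ t, ind (1 / 2) f t ≠ ⊤ := by
    intro θ₁ θ₂ h1 h2 h12 h21 t
    obtain ⟨n, hn, -⟩ := existsUnique_add_zsmul_mem_Ico (a := 2 * π) (by positivity) t θ₁
    rw [zsmul_eq_mul] at hn
    rw [← ind_add_int (1 / 2) f t n]
    rcases le_total (t + n * (2 * π)) θ₂ with h | h
    · exact ind_ne_top_between hf hρ h12 (by linarith) h1 h2 ⟨hn.1, h⟩
    · exact ind_ne_top_between hf hρ (a := θ₂) (b := θ₁ + 2 * π) h21 (by linarith) h2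
        (by rwa [ind_add_two_pi]) ⟨h, hn.2.le⟩
  by_cases hall : ∀ θ, ind (1 / 2) f θ ≠ ⊤
  · exact Or.inl hall
  refine Or.inr ?_
  by_cases hex : ∃ β, ind (1 / 2) f β ≠ ⊤
  · obtain ⟨β, hβ⟩ := hex
    obtain ⟨n, hn, -⟩ := existsUnique_add_zsmul_mem_Ioc (a := 2 * π) (by positivity) β (-π)
    rw [zsmul_eq_mul] at hn
    rw [← ind_add_int (1 / 2) f β n] at hβ
    set α := β + n * (2 * π) with hα
    have hα0 : 0 ≤ α := by
      by_contra hneg
      rw [not_le] at hneg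
      refine hall (key α (-α) hβ ?_ (by linarith) (by linarith [hn.1]))
      have h1 := hf.ind_le (θ := -α) ⟨by linarith, by linarith [hn.1]⟩
      rw [neg_neg] at h1
      exact (h1.trans_lt (lt_top_iff_ne_top.2 hβ)).ne
    refine ⟨α, ⟨hα0, by linarith [hn.2]⟩, fun θ hθ => ?_⟩
    by_contra hcon
    apply hall
    obtain ⟨m, hm, -⟩ := existsUnique_add_zsmul_mem_Ico (a := 2 * π) (by positivity) θ α
    rw [zsmul_eq_mul] at hm
    have hcon' : ind (1 / 2) f (θ + m * (2 * π)) ≠ ⊤ := by rwa [ind_add_int]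
    refine key α (θ + m * (2 * π)) hβ hcon' (lt_of_le_of_ne hm.1 ?_) hm.2
    intro he
    refine hθ (-m) ?_
    push_cast
    linarith
  · push Not at hex
    exact ⟨0, ⟨le_rfl, hpi.le⟩, fun θ _ => hex θ⟩

end HBInd
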