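import Pool.Agent.HBInd.Basic

/-!
# Canonical products of genus zero with zeros in the closed upper half-plane

`f z = ∏ (1 - c_i z)` with `∑ |c_i| < ∞`, `Im c_i ≤ 0` (so the zeros `1 / c_i` are in the closed upper
half-plane). Mathlib: `multipliable_one_add_of_summable`, `Complex.multipliableLocallyUniformlyOn_...`,
`tprod_one_add_ne_zero_of_summable`, `Complex.differentiableOn` of locally uniform limits.
`|1 - c z| ≤ |1 - c conj z|` for `Im z > 0`, `Im c ≤ 0`.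

`exists_pre`: if `∑ |c_i|^σ < ∞` for all `σ > ρ`, the order is `≤ ρ`: for `ρ < σ' < σ`, `σ' ≤ 1`, one has
`log (1 + x) ≤ x ^ σ' / σ'` for `x ≥ 0` (`Real.add_one_le_exp`, `1 + x ≤ (1 + x ^ σ') ^ (1 / σ')`), so
`log |f z| ≤ K |z| ^ σ'` with `K = ∑ |c_i| ^ σ' / σ'`, then `eventually_mul_rpow_le`.
-/

namespace HBInd

open Complex Filter Topology Set Bornology
open scoped Real ComplexConjugate

/-- the factor `1 - c z` with `Im c ≤ 0` does not vanish for `Im z < 0` -/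
private lemma one_sub_ne_zero {c z : ℂ} (hc : c.im ≤ 0) (hz : z.im < 0) : c * z ≠ 1 := by
  intro h
  have hz0 : z ≠ 0 := by
    rintro rfl
    simp at hz
  have h1 : c = z⁻¹ := eq_inv_of_mul_eq_one_left h
  rw [h1, Complex.inv_im] at hc
  have h2 : 0 < Complex.normSq z := Complex.normSq_pos.2 hz0
  have h3 : 0 < -z.im / Complex.normSq z := div_pos (by linarith) h2
  linarith

/-- `|1 - c z| ≤ |1 - c conj z|` for `Im c ≤ 0`, `Im z > 0` -/
private lemma norm_factor_le {c z : ℂ} (hc : c.im ≤ 0) (hz : 0 < z.im) :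
    ‖1 - c * z‖ ≤ ‖1 - c * conj z‖ := by
  have h : ‖1 - c * z‖ ^ 2 ≤ ‖1 - c * conj z‖ ^ 2 := by
    rw [← Complex.normSq_eq_norm_sq, ← Complex.normSq_eq_norm_sq, Complex.normSq_apply,
      Complex.normSq_apply]
    simp only [Complex.sub_re, Complex.one_re, Complex.mul_re, Complex.sub_im, Complex.one_im,
      Complex.mul_im, Complex.conj_re, Complex.conj_im]
    nlinarith [mul_nonneg (neg_nonneg.2 hc) hz.le]
  exact le_of_sq_le_sq h (norm_nonneg _)

private lemma summable_mul {ι : Type} {c : ι → ℂ} (hc : Summable fun i => ‖c i‖) (z : ℂ) :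
    Summable fun i => ‖-(c i * z)‖ := by
  refine (hc.mul_right ‖z‖).congr fun i => ?_
  rw [norm_neg, norm_mul]

private lemma hasProd_factor {ι : Type} {c : ι → ℂ} (hc : Summable fun i => ‖c i‖) (z : ℂ) :
    HasProd (fun i => 1 + -(c i * z)) (∏' i, (1 + -(c i * z))) :=
  (multipliable_one_add_of_summable (summable_mul hc z)).hasProd

private lemma differentiable_prod {ι : Type} {c : ι → ℂ} (hc : Summable fun i => ‖c i‖) :
    Differentiable ℂ fun z => ∏' i, (1 + -(c i * z)) := by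
  intro z
  have hU : IsOpen (Metric.ball (0 : ℂ) (‖z‖ + 1)) := Metric.isOpen_ball
  have h1 : HasProdLocallyUniformlyOn (fun i z => 1 + -(c i * z))
      (fun z => ∏' i, (1 + -(c i * z))) (Metric.ball (0 : ℂ) (‖z‖ + 1)) := by
    refine Summable.hasProdLocallyUniformlyOn_one_add hU (hc.mul_right (‖z‖ + 1)) ?_ ?_
    · refine Eventually.of_forall fun i w hw => ?_
      rw [norm_neg, norm_mul]
      refine mul_le_mul_of_nonneg_left ?_ (norm_nonneg _)
      rw [mem_ball_zero_iff] at hw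
      exact hw.le
    · intro i
      fun_prop
  have h2 : DifferentiableOn ℂ (fun z => ∏' i, (1 + -(c i * z)))
      (Metric.ball (0 : ℂ) (‖z‖ + 1)) := by
    refine TendstoLocallyUniformlyOn.differentiableOn (φ := atTop)
      (F := fun (s : Finset ι) z => ∏ i ∈ s, (1 + -(c i * z))) h1 ?_ hU
    refine Eventually.of_forall fun s => ?_
    exact (Differentiable.fun_finsetProd fun i _ => by fun_prop).differentiableOn
  refine h2.differentiableAt (hU.mem_nhds ?_)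
  rw [mem_ball_zero_iff]
  linarith

theorem exists_entire {ι : Type} [Countable ι] {c : ι → ℂ} (hc : Summable fun i => ‖c i‖)
    (him : ∀ i, (c i).im ≤ 0) :
    ∃ f : ℂ → ℂ, Differentiable ℂ f ∧ (∀ z : ℂ, z.im < 0 → f z ≠ 0) ∧
      (∀ z : ℂ, 0 < z.im → ‖f z‖ ≤ ‖f (conj z)‖) ∧
      (∀ z : ℂ, (∀ i, c i * z ≠ 1) →
        f z ≠ 0 ∧ HasSum (fun i => Real.log ‖1 - c i * z‖) (Real.log ‖f z‖)) ∧
      (∀ z : ℂ, Summable (fun i => Real.log (1 + ‖c i‖ * ‖z‖)) ∧
        ‖f z‖ ≤ Real.exp (∑' i, Real.log (1 + ‖c i‖ * ‖z‖))) := by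
  have hne : ∀ z : ℂ, (∀ i, c i * z ≠ 1) → ∏' i, (1 + -(c i * z)) ≠ 0 := by
    intro z hz
    refine tprod_one_add_ne_zero_of_summable (fun i h => hz i ?_) (summable_mul hc z)
    linear_combination -h
  refine ⟨fun z => ∏' i, (1 + -(c i * z)), differentiable_prod hc, ?_, ?_, ?_, ?_⟩
  · intro z hz
    exact hne z fun i => one_sub_ne_zero (him i) hz
  · intro z hz
    have h1 := (hasProd_factor hc z).norm
    have h2 := (hasProd_factor hc (conj z)).norm
    refine le_of_tendsto_of_tendsto' h1 h2 fun s => ?_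
    refine Finset.prod_le_prod (fun i _ => norm_nonneg _) fun i _ => ?_
    rw [← sub_eq_add_neg, ← sub_eq_add_neg]
    exact norm_factor_le (him i) hz
  · intro z hz
    refine ⟨hne z hz, ?_⟩
    have h1 : ∀ i, 0 < ‖1 + -(c i * z)‖ := by
      intro i
      rw [norm_pos_iff]
      intro h
      refine hz i ?_
      linear_combination -h
    have h2 : Summable fun i => Real.log ‖1 + -(c i * z)‖ :=
      (summable_mul hc z).summable_log_norm_one_add
    have h3 := Real.rexp_tsum_eq_tprod h1 h2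
    have h4 : ‖∏' i, (1 + -(c i * z))‖ = ∏' i, ‖1 + -(c i * z)‖ :=
      (multipliable_one_add_of_summable (summable_mul hc z)).norm_tprod
    have h5 : Real.log ‖∏' i, (1 + -(c i * z))‖ = ∑' i, Real.log ‖1 + -(c i * z)‖ := by
      rw [h4, ← h3, Real.log_exp]
    simp only [sub_eq_add_neg]
    rw [h5]
    exact h2.hasSum
  · intro z
    have h0 : Summable fun i => ‖c i‖ * ‖z‖ := hc.mul_right ‖z‖
    have h1 : Summable fun i => Real.log (1 + ‖c i‖ * ‖z‖) :=
      Real.summable_log_one_add_of_summable h0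
    refine ⟨h1, ?_⟩
    have h2 : ∀ i, 0 < 1 + ‖c i‖ * ‖z‖ := fun i => by positivity
    have h3 : HasProd (fun i => 1 + ‖c i‖ * ‖z‖)
        (Real.exp (∑' i, Real.log (1 + ‖c i‖ * ‖z‖))) :=
      Real.hasProd_of_hasSum_log h2 h1.hasSum
    refine le_of_tendsto_of_tendsto' (hasProd_factor hc z).norm h3 fun s => ?_
    refine Finset.prod_le_prod (fun i _ => norm_nonneg _) fun i _ => ?_
    calc ‖1 + -(c i * z)‖ ≤ ‖(1 : ℂ)‖ + ‖-(c i * z)‖ := norm_add_le _ _
      _ = 1 + ‖c i‖ * ‖z‖ := by rw [norm_one, norm_neg, norm_mul]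

/-- `log (1 + x) ≤ x ^ s / s` -/
theorem log_one_add_le {s x : ℝ} (hs : 0 < s) (hs1 : s ≤ 1) (hx : 0 ≤ x) :
    Real.log (1 + x) ≤ x ^ s / s := by
  have h1 : (1 + x) ^ s ≤ 1 + x ^ s := by
    have h := Real.rpow_add_le_add_rpow zero_le_one hx hs.le hs1
    rwa [Real.one_rpow] at h
  have hx1 : (0 : ℝ) < 1 + x := by linarith
  have hxs : 0 ≤ x ^ s := Real.rpow_nonneg hx s
  have h2 : s * Real.log (1 + x) ≤ x ^ s := by
    calc s * Real.log (1 + x) = Real.log ((1 + x) ^ s) := (Real.log_rpow hx1 s).symm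
      _ ≤ Real.log (1 + x ^ s) := Real.log_le_log (Real.rpow_pos_of_pos hx1 s) h1
      _ ≤ (1 + x ^ s) - 1 := Real.log_le_sub_one_of_pos (by linarith)
      _ = x ^ s := by ring
  rw [le_div_iff₀ hs]
  linarith

theorem exists_pre {ρ : ℝ} (hρ : 0 < ρ) (hρ1 : ρ < 1) {ι : Type} [Countable ι] {c : ι → ℂ}
    (hc : ∀ σ, ρ < σ → Summable fun i => ‖c i‖ ^ σ) (him : ∀ i, (c i).im ≤ 0) :
    ∃ f : ℂ → ℂ, Pre ρ f ∧
      (∀ z : ℂ, (∀ i, c i * z ≠ 1) →
        f z ≠ 0 ∧ HasSum (fun i => Real.log ‖1 - c i * z‖) (Real.log ‖f z‖)) ∧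
      (∀ z : ℂ, Summable (fun i => Real.log (1 + ‖c i‖ * ‖z‖)) ∧
        ‖f z‖ ≤ Real.exp (∑' i, Real.log (1 + ‖c i‖ * ‖z‖))) := by
  have hc1 : Summable fun i => ‖c i‖ := by
    have h := hc 1 hρ1
    simpa only [Real.rpow_one] using h
  obtain ⟨f, hf1, hf2, hf3, hf4, hf5⟩ := exists_entire hc1 him
  refine ⟨f, ⟨hf1, ?_, hf2, hf3⟩, hf4, hf5⟩
  intro σ hσ
  obtain ⟨s, hs1, hs2⟩ := exists_between (lt_min hσ hρ1)
  have hs0 : 0 < s := hρ.trans hs1
  have hsσ : s < σ := hs2.trans_le (min_le_left _ _)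
  have hs1' : s ≤ 1 := (hs2.trans_le (min_le_right _ _)).le
  have hsum : Summable fun i => ‖c i‖ ^ s := hc s hs1
  filter_upwards [(tendsto_norm_cobounded_atTop (E := ℂ)).eventually
    (eventually_mul_rpow_le hsσ ((∑' i, ‖c i‖ ^ s) / s))] with z hz
  obtain ⟨h1, h2⟩ := hf5 z
  refine h2.trans (Real.exp_le_exp.2 (le_trans ?_ hz))
  have h3 : ∀ i, Real.log (1 + ‖c i‖ * ‖z‖) ≤ ‖c i‖ ^ s * (‖z‖ ^ s / s) := by
    intro i
    refine (log_one_add_le hs0 hs1' (by positivity)).trans_eq ?_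
    rw [Real.mul_rpow (norm_nonneg _) (norm_nonneg _), mul_div_assoc]
  calc ∑' i, Real.log (1 + ‖c i‖ * ‖z‖) ≤ ∑' i, ‖c i‖ ^ s * (‖z‖ ^ s / s) :=
        h1.tsum_le_tsum h3 (hsum.mul_right _)
    _ = (∑' i, ‖c i‖ ^ s) * (‖z‖ ^ s / s) := tsum_mul_right
    _ = (∑' i, ‖c i‖ ^ s) / s * ‖z‖ ^ s := by ring

end HBInd
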