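import Pool.Agent.HBInd.Block
import Pool.Agent.HBInd.Contact
import Pool.Agent.HBInd.Prod
import Pool.Agent.HBInd.Nec

/-!
# Construction of functions with given non-negative indicator
-/

namespace HBInd

open Complex Filter Topology Set Bornology MeasureTheory
open scoped Real ComplexConjugate

lemma summable_sigma_of_le {X : Type} {N : X → ℕ} {g : (Σ x : X, Fin (N x)) → ℝ}
    (hg : ∀ i, 0 ≤ g i) {K : ℝ} (h : ∀ F : Finset X, ∑ x ∈ F, ∑ n, g ⟨x, n⟩ ≤ K) :
    Summable g ∧ ∑' i, g i ≤ K := by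
  classical
  have h1 : ∀ s : Finset (Σ x : X, Fin (N x)), ∑ i ∈ s, g i ≤ K := by
    intro s
    refine le_trans ?_ (h (s.image Sigma.fst))
    rw [← Finset.sum_sigma (s.image Sigma.fst) (fun x => Finset.univ) g]
    refine Finset.sum_le_sum_of_subset_of_nonneg ?_ (fun i _ _ => hg i)
    intro i hi
    rw [Finset.mem_sigma]
    exact ⟨Finset.mem_image_of_mem _ hi, Finset.mem_univ _⟩
  exact ⟨summable_of_sum_le hg h1, Real.tsum_le_of_sum_le hg h1⟩

/-- `ker` grows slowly -/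
lemma abs_ker_le_of_one_le {u : ℝ} (hu : 1 ≤ u) (ψ : ℝ) : |ker u ψ| ≤ u + 1 := by
  have he : 2 ≤ Real.exp u := by
    have := Real.add_one_le_exp u
    linarith
  have hn : ‖Complex.exp ((u : ℂ) + (ψ : ℂ) * I)‖ = Real.exp u := by
    rw [Complex.norm_exp]
    simp
  have h1 : 1 ≤ ‖1 - Complex.exp ((u : ℂ) + (ψ : ℂ) * I)‖ := by
    have := norm_sub_norm_le (Complex.exp ((u : ℂ) + (ψ : ℂ) * I)) 1
    rw [hn, norm_one, norm_sub_rev] at this
    linarith
  have h2 : ‖1 - Complex.exp ((u : ℂ) + (ψ : ℂ) * I)‖ ≤ Real.exp (u + 1) := by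
    have := norm_sub_le (1 : ℂ) (Complex.exp ((u : ℂ) + (ψ : ℂ) * I))
    rw [hn, norm_one] at this
    refine this.trans ?_
    rw [Real.exp_add]
    have := Real.add_one_le_exp (1 : ℝ)
    nlinarith
  have h3 : 0 ≤ ker u ψ := Real.log_nonneg h1
  rw [abs_of_nonneg h3, ker, Real.log_le_iff_le_exp (by linarith)]
  exact h2

lemma tendsto_exp_mul_ker {ρ : ℝ} (hρ : 0 < ρ) (ψ τ : ℝ) :
    Tendsto (fun t : ℝ => Real.exp (-ρ * t) * ker (t - τ) ψ) atTop (𝓝 0) := by
  have h1 : Tendsto (fun t : ℝ => (|τ| + 1 + t) * Real.exp (-ρ * t)) atTop (𝓝 0) := by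
    have h2 : Tendsto (fun t : ℝ => t ^ 1 * Real.exp (-ρ * t)) atTop (𝓝 0) := by
      have := (Real.tendsto_pow_mul_exp_neg_atTop_nhds_zero 1).comp
        (tendsto_id.const_mul_atTop hρ)
      have h3 := this.const_mul (1 / ρ)
      rw [mul_zero] at h3
      refine h3.congr fun t => ?_
      simp only [Function.comp_apply, id, pow_one]
      rw [neg_mul]
      field_simp
    have h3 : Tendsto (fun t : ℝ => Real.exp (-ρ * t)) atTop (𝓝 0) := by
      refine Real.tendsto_exp_atBot.comp ?_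
      exact tendsto_id.const_mul_atTop_of_neg (by linarith)
    have h4 := (h3.const_mul (|τ| + 1)).add h2
    rw [mul_zero, zero_add] at h4
    refine h4.congr fun t => ?_
    ring
  refine squeeze_zero_norm' ?_ h1
  filter_upwards [eventually_ge_atTop (1 + τ)] with t ht
  rw [norm_mul, Real.norm_eq_abs, Real.abs_exp, Real.norm_eq_abs, mul_comm]
  refine mul_le_mul_of_nonneg_right ?_ (Real.exp_pos _).le
  refine (abs_ker_le_of_one_le (by linarith) _).trans ?_
  have := neg_abs_le τ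
  linarith

/-- the window functions -/
noncomputable def chi (T : ℕ → ℝ) (j : ℕ) (t : ℝ) : ℝ := trap (T j) (T (j + 1)) (2 ^ j) t

lemma chi_nonneg (T : ℕ → ℝ) (j : ℕ) (t : ℝ) : 0 ≤ chi T j t := trap_nonneg _ _ _ _

lemma chi_le_one (T : ℕ → ℝ) (j : ℕ) (t : ℝ) : chi T j t ≤ 1 := trap_le_one _ _ _ _

lemma chi_eq_zero {T : ℕ → ℝ} {j : ℕ} {t : ℝ} (ht : t ∉ Ioo (T j) (T (j + 1))) :
    chi T j t = 0 := trap_eq_zero (by positivity) ht

lemma mono_of_step {T : ℕ → ℝ} (hT : ∀ j, T j + 2 * 2 ^ j ≤ T (j + 1)) : Monotone T :=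
  monotone_nat_of_le_succ fun j => by
    have := hT j
    have h2 : (0 : ℝ) < 2 ^ j := by positivity
    linarith

lemma le_of_step {T : ℕ → ℝ} (hT : ∀ j, T j + 2 * 2 ^ j ≤ T (j + 1)) (hT0 : 0 ≤ T 0) (j : ℕ) :
    (j : ℝ) ≤ T j := by
  induction j with
  | zero => simpa using hT0
  | succ j ih =>
    have := hT j
    have h2 : (1 : ℝ) ≤ 2 ^ j := one_le_pow₀ (by norm_num)
    push_cast
    linarith

lemma chi_unique {T : ℕ → ℝ} (hT : ∀ j, T j + 2 * 2 ^ j ≤ T (j + 1)) (t : ℝ) :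
    ∃ j₀, ∀ j, j ≠ j₀ → chi T j t = 0 := by
  by_cases h : ∃ j₀, t ∈ Ioo (T j₀) (T (j₀ + 1))
  · obtain ⟨j₀, hj₀⟩ := h
    refine ⟨j₀, fun j hj => chi_eq_zero fun hcon => ?_⟩
    rcases lt_or_gt_of_ne hj with hj | hj
    · have := mono_of_step hT (Nat.succ_le_of_lt hj)
      simp only [Nat.succ_eq_add_one] at this
      linarith [hcon.2, hj₀.1]
    · have := mono_of_step hT (Nat.succ_le_of_lt hj)
      simp only [Nat.succ_eq_add_one] at this
      linarith [hcon.1, hj₀.2]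
  · push Not at h
    exact ⟨0, fun j _ => chi_eq_zero (h j)⟩

lemma chi_mid {T : ℕ → ℝ} (hT : ∀ j, T j + 2 * 2 ^ j ≤ T (j + 1)) (j : ℕ) :
    chi T j ((T j + T (j + 1)) / 2) = 1 := trap_mid (by positivity) (hT j)

lemma sum_chi_le {T : ℕ → ℝ} (hT : ∀ j, T j + 2 * 2 ^ j ≤ T (j + 1)) (t : ℝ) {M : ℝ}
    {m : ℕ → Fin 2 → ℝ} (hm : ∀ j i, 0 ≤ m j i ∧ m j i ≤ M) (F : Finset (ℕ × Fin 2)) :
    ∑ x ∈ F, m x.1 x.2 * chi T x.1 t ≤ 2 * M := by
  classical
  obtain ⟨j₀, hj₀⟩ := chi_unique hT t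
  have hM : 0 ≤ M := (hm 0 0).1.trans (hm 0 0).2
  calc ∑ x ∈ F, m x.1 x.2 * chi T x.1 t ≤
      ∑ x ∈ F ∪ ({j₀} ×ˢ Finset.univ), m x.1 x.2 * chi T x.1 t :=
        Finset.sum_le_sum_of_subset_of_nonneg Finset.subset_union_left
          fun x _ _ => mul_nonneg (hm _ _).1 (chi_nonneg _ _ _)
    _ = ∑ x ∈ ({j₀} ×ˢ Finset.univ : Finset (ℕ × Fin 2)), m x.1 x.2 * chi T x.1 t := by
        symm
        refine Finset.sum_subset Finset.subset_union_right fun x _ hx => ?_
        have : x.1 ≠ j₀ := by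
          intro h
          exact hx (Finset.mem_product.2 ⟨Finset.mem_singleton.2 h, Finset.mem_univ _⟩)
        rw [hj₀ _ this, mul_zero]
    _ = ∑ i : Fin 2, m j₀ i * chi T j₀ t := by
        rw [Finset.sum_product, Finset.sum_singleton]
    _ ≤ ∑ i : Fin 2, M * 1 := by
        refine Finset.sum_le_sum fun i _ => ?_
        exact mul_le_mul (hm _ _).2 (chi_le_one _ _ _) (chi_nonneg _ _ _) hM
    _ = 2 * M := by
        simp

/-- `∫ log (1 + e^u) e^{-ρu}` -/
noncomputable def K0 (ρ : ℝ) : ℝ := ∫ u : ℝ, Real.log (1 + Real.exp u) * Real.exp (-ρ * u)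

lemma log_one_add_exp_nonneg (u : ℝ) : 0 ≤ Real.log (1 + Real.exp u) :=
  Real.log_nonneg (by linarith [Real.exp_pos u])

lemma integrable_log_one_add {ρ : ℝ} (hρ : 0 < ρ) (hρ1 : ρ < 1) :
    Integrable fun u : ℝ => Real.log (1 + Real.exp u) * Real.exp (-ρ * u) := by
  refine (integrable_Phi hρ hρ1).mono' ?_ ?_
  · refine Continuous.aestronglyMeasurable ?_
    refine Continuous.mul ?_ (by fun_prop)
    refine Continuous.log (by fun_prop) fun u => ?_
    linarith [Real.exp_pos u]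
  · refine Eventually.of_forall fun u => ?_
    rw [norm_mul, Real.norm_of_nonneg (log_one_add_exp_nonneg u),
      Real.norm_of_nonneg (Real.exp_pos _).le]
    refine mul_le_mul_of_nonneg_right ?_ (Real.exp_pos _).le
    have h1 : Real.log (1 + Real.exp u) ≤ Phi u := by
      rw [Phi]
      linarith [abs_nonneg (Real.log (1 - Real.exp u))]
    have h2 : 0 ≤ |u| * Phi u := mul_nonneg (abs_nonneg _) (Phi_nonneg u)
    linarith

/-- the global bound for the logarithmic sums -/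
lemma sum_log_bound {ρ : ℝ} (hρ : 0 < ρ) (hρ1 : ρ < 1) {C : ℝ} (hC : 0 < C) {M : ℝ}
    {m : ℕ → Fin 2 → ℝ} (hm : ∀ j i, 0 ≤ m j i ∧ m j i ≤ M)
    {T : ℕ → ℝ} (hT : ∀ j, T j + 2 * 2 ^ j ≤ T (j + 1))
    {N : ℕ × Fin 2 → ℕ} {τ : (x : ℕ × Fin 2) → Fin (N x) → ℝ}
    (h2 : ∀ (x : ℕ × Fin 2) (φ : ℝ → ℝ), Antitone φ → (∀ t, 0 ≤ φ t) →
        ∑ n, φ (τ x n) ≤ ∫ t, φ t * (m x.1 x.2 / C * (chi T x.1 t * Real.exp (ρ * t)))) (t₀ : ℝ) :
    Summable (fun i : (Σ x : ℕ × Fin 2, Fin (N x)) =>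
        Real.log (1 + Real.exp (t₀ - τ i.1 i.2))) ∧
      ∑' i : (Σ x : ℕ × Fin 2, Fin (N x)), Real.log (1 + Real.exp (t₀ - τ i.1 i.2)) ≤
        2 * M / C * K0 ρ * Real.exp (ρ * t₀) := by
  have hM : 0 ≤ M := (hm 0 0).1.trans (hm 0 0).2
  have hlogc : Continuous fun t : ℝ => Real.log (1 + Real.exp (t₀ - t)) := by
    refine Continuous.log (by fun_prop) fun u => ?_
    linarith [Real.exp_pos (t₀ - u)]
  -- integrability on the line and its value
  have hI : Integrable fun t : ℝ => Real.log (1 + Real.exp (t₀ - t)) * Real.exp (ρ * t) := by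
    have h3 := ((integrable_log_one_add hρ hρ1).comp_sub_left t₀).const_mul (Real.exp (ρ * t₀))
    refine h3.congr (Eventually.of_forall fun t => ?_)
    have : Real.exp (ρ * t) = Real.exp (ρ * t₀) * Real.exp (-ρ * (t₀ - t)) := by
      rw [← Real.exp_add]; congr 1; ring
    simp only
    rw [this]
    ring
  have hV : ∫ t : ℝ, Real.log (1 + Real.exp (t₀ - t)) * Real.exp (ρ * t) =
      Real.exp (ρ * t₀) * K0 ρ := by
    rw [K0, ← integral_sub_left_eq_self (fun u : ℝ => Real.log (1 + Real.exp u) *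
      Real.exp (-ρ * u)) volume t₀, ← integral_const_mul]
    congr 1
    ext t
    have : Real.exp (ρ * t) = Real.exp (ρ * t₀) * Real.exp (-ρ * (t₀ - t)) := by
      rw [← Real.exp_add]; congr 1; ring
    rw [this]
    ring
  have hIx : ∀ x : ℕ × Fin 2, Integrable fun t : ℝ =>
      Real.log (1 + Real.exp (t₀ - t)) * (m x.1 x.2 / C * (chi T x.1 t * Real.exp (ρ * t))) := by
    intro x
    refine (hI.const_mul (M / C)).mono' ?_ ?_
    · refine Continuous.aestronglyMeasurable ?_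
      have : Continuous (chi T x.1) := continuous_trap _ _ _
      fun_prop
    · refine Eventually.of_forall fun t => ?_
      have h1 := log_one_add_exp_nonneg (t₀ - t)
      have h4 := chi_nonneg T x.1 t
      have h5 := chi_le_one T x.1 t
      have h6 := (Real.exp_pos (ρ * t)).le
      have h7 : 0 ≤ m x.1 x.2 / C := div_nonneg (hm _ _).1 hC.le
      have h8 : m x.1 x.2 / C ≤ M / C := div_le_div_of_nonneg_right (hm _ _).2 hC.le
      rw [Real.norm_of_nonneg (mul_nonneg h1 (mul_nonneg h7 (mul_nonneg h4 h6)))]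
      calc Real.log (1 + Real.exp (t₀ - t)) *
            (m x.1 x.2 / C * (chi T x.1 t * Real.exp (ρ * t))) ≤
          Real.log (1 + Real.exp (t₀ - t)) * (M / C * (1 * Real.exp (ρ * t))) := by
            refine mul_le_mul_of_nonneg_left ?_ h1
            refine mul_le_mul h8 (mul_le_mul_of_nonneg_right h5 h6) (mul_nonneg h4 h6)
              (h7.trans h8)
        _ = M / C * (Real.log (1 + Real.exp (t₀ - t)) * Real.exp (ρ * t)) := by ring
  refine summable_sigma_of_le (fun i => log_one_add_exp_nonneg _) fun F => ?_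
  have hanti : Antitone fun t : ℝ => Real.log (1 + Real.exp (t₀ - t)) := by
    intro a b hab
    refine Real.log_le_log (by linarith [Real.exp_pos (t₀ - b)]) ?_
    have := Real.exp_le_exp.2 (by linarith : t₀ - b ≤ t₀ - a)
    linarith
  calc ∑ x ∈ F, ∑ n, Real.log (1 + Real.exp (t₀ - τ x n)) ≤
      ∑ x ∈ F, ∫ t, Real.log (1 + Real.exp (t₀ - t)) *
        (m x.1 x.2 / C * (chi T x.1 t * Real.exp (ρ * t))) :=
        Finset.sum_le_sum fun x _ => h2 x _ hanti fun t => log_one_add_exp_nonneg _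
    _ = ∫ t, ∑ x ∈ F, Real.log (1 + Real.exp (t₀ - t)) *
        (m x.1 x.2 / C * (chi T x.1 t * Real.exp (ρ * t))) :=
        (integral_finsetSum _ fun x _ => hIx x).symm
    _ ≤ ∫ t, 2 * M / C * (Real.log (1 + Real.exp (t₀ - t)) * Real.exp (ρ * t)) := by
        refine integral_mono (integrable_finsetSum _ fun x _ => hIx x) (hI.const_mul _)
          fun t => ?_
        have e : ∑ x ∈ F, Real.log (1 + Real.exp (t₀ - t)) *
            (m x.1 x.2 / C * (chi T x.1 t * Real.exp (ρ * t))) =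
            (∑ x ∈ F, m x.1 x.2 * chi T x.1 t) *
              (Real.log (1 + Real.exp (t₀ - t)) * Real.exp (ρ * t) / C) := by
          rw [Finset.sum_mul]
          refine Finset.sum_congr rfl fun x _ => ?_
          ring
        simp only
        rw [e]
        calc (∑ x ∈ F, m x.1 x.2 * chi T x.1 t) *
              (Real.log (1 + Real.exp (t₀ - t)) * Real.exp (ρ * t) / C) ≤
            2 * M * (Real.log (1 + Real.exp (t₀ - t)) * Real.exp (ρ * t) / C) := by
              refine mul_le_mul_of_nonneg_right (sum_chi_le hT t hm F) ?_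
              exact div_nonneg (mul_nonneg (log_one_add_exp_nonneg _) (Real.exp_pos _).le) hC.le
          _ = _ := by ring
    _ = 2 * M / C * K0 ρ * Real.exp (ρ * t₀) := by
        rw [integral_const_mul, hV]
        ring

lemma sum_univ_prod (g : ℕ × Fin 2 → ℝ) (j₀ : ℕ) :
    ∑ x ∈ ({j₀} ×ˢ Finset.univ : Finset (ℕ × Fin 2)), g x = ∑ i : Fin 2, g (j₀, i) := by
  rw [Finset.sum_product, Finset.sum_singleton]

/-- the estimate along good rays, in terms of sums over the blocks -/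
lemma tendsto_blocks {ρ : ℝ} (hρ : 0 < ρ) {C : ℝ} (hC : 0 < C) {M : ℝ}
    {m α : ℕ → Fin 2 → ℝ} (hm : ∀ j i, 0 ≤ m j i ∧ m j i ≤ M) {T : ℕ → ℝ}
    {N : ℕ × Fin 2 → ℕ} {τ : (x : ℕ × Fin 2) → Fin (N x) → ℝ} {q : ℝ}
    (h3 : ∀ (x : ℕ × Fin 2) (t₀ : ℝ),
        |∑ n, ker (t₀ - τ x n) (q - α x.1 x.2) -
          m x.1 x.2 * G ρ (q - α x.1 x.2) * chi T x.1 t₀ * Real.exp (ρ * t₀)| ≤
          Real.exp (ρ * t₀) * (2 / ρ * (Real.exp (-ρ * T x.1) / |Real.sin (q - α x.1 x.2)|) +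
            m x.1 x.2 / C * (1 / 2 ^ x.1 * I1 ρ)))
    (hsum : Summable fun x : ℕ × Fin 2 => Real.exp (-ρ * T x.1) / |Real.sin (q - α x.1 x.2)|)
    {L : ℝ → ℝ} (hL : ∀ t, HasSum (fun x : ℕ × Fin 2 =>
      ∑ n, ker (t - τ x n) (q - α x.1 x.2)) (L t)) {ε : ℝ} (hε : 0 < ε) :
    ∀ᶠ t in atTop, ∀ j₀, (∀ j, j ≠ j₀ → chi T j t = 0) →
      |Real.exp (-ρ * t) * L t - (∑ i, m j₀ i * G ρ (q - α j₀ i)) * chi T j₀ t| < ε := by
  classical
  set E : ℝ → ℕ × Fin 2 → ℝ := fun t x => Real.exp (-ρ * t) *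
    (∑ n, ker (t - τ x n) (q - α x.1 x.2)) - m x.1 x.2 * G ρ (q - α x.1 x.2) * chi T x.1 t
    with hE
  set b : ℕ × Fin 2 → ℝ := fun x =>
    2 / ρ * (Real.exp (-ρ * T x.1) / |Real.sin (q - α x.1 x.2)|) +
      M / C * I1 ρ * (((1 : ℝ) / 2) ^ x.1 * 1) with hb
  have hI1 : 0 ≤ I1 ρ := integral_nonneg fun u =>
    mul_nonneg (mul_nonneg (by positivity) (Phi_nonneg u)) (Real.exp_pos _).le
  have hbs : Summable b := by
    refine (hsum.mul_left _).add (Summable.mul_left _ ?_)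
    exact Summable.mul_of_nonneg (f := fun j : ℕ => ((1 : ℝ) / 2) ^ j) (g := fun _ : Fin 2 => (1 : ℝ))
      summable_geometric_two (Summable.of_finite) (fun j => by positivity) (fun _ => by simp)
  have hEb : ∀ t x, ‖E t x‖ ≤ b x := by
    intro t x
    have e1 : E t x = Real.exp (-ρ * t) * (∑ n, ker (t - τ x n) (q - α x.1 x.2) -
        m x.1 x.2 * G ρ (q - α x.1 x.2) * chi T x.1 t * Real.exp (ρ * t)) := by
      have : Real.exp (-ρ * t) * Real.exp (ρ * t) = 1 := by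
        rw [← Real.exp_add, ← Real.exp_zero]; congr 1; ring
      rw [hE]
      simp only
      rw [mul_sub]
      linear_combination (m x.1 x.2 * G ρ (q - α x.1 x.2) * chi T x.1 t) * this
    rw [e1, norm_mul, Real.norm_eq_abs, Real.abs_exp, Real.norm_eq_abs]
    calc Real.exp (-ρ * t) * |∑ n, ker (t - τ x n) (q - α x.1 x.2) -
        m x.1 x.2 * G ρ (q - α x.1 x.2) * chi T x.1 t * Real.exp (ρ * t)| ≤
        Real.exp (-ρ * t) * (Real.exp (ρ * t) *
          (2 / ρ * (Real.exp (-ρ * T x.1) / |Real.sin (q - α x.1 x.2)|) +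
            m x.1 x.2 / C * (1 / 2 ^ x.1 * I1 ρ))) :=
          mul_le_mul_of_nonneg_left (h3 x t) (Real.exp_pos _).le
      _ = 2 / ρ * (Real.exp (-ρ * T x.1) / |Real.sin (q - α x.1 x.2)|) +
            m x.1 x.2 / C * (1 / 2 ^ x.1 * I1 ρ) := by
          rw [← mul_assoc, ← Real.exp_add]
          have : -ρ * t + ρ * t = 0 := by ring
          rw [this, Real.exp_zero, one_mul]
      _ ≤ b x := by
          rw [hb]
          refine add_le_add le_rfl ?_
          have h8 : m x.1 x.2 / C ≤ M / C := div_le_div_of_nonneg_right (hm _ _).2 hC.le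
          calc m x.1 x.2 / C * (1 / 2 ^ x.1 * I1 ρ) ≤ M / C * (1 / 2 ^ x.1 * I1 ρ) :=
                mul_le_mul_of_nonneg_right h8 (by positivity)
            _ = _ := by
                rw [one_div_pow]
                ring
  have hE0 : ∀ x, Tendsto (fun t => E t x) atTop (𝓝 0) := by
    intro x
    have h4 : Tendsto (fun t => Real.exp (-ρ * t) *
        (∑ n, ker (t - τ x n) (q - α x.1 x.2))) atTop (𝓝 0) := by
      have := tendsto_finsetSum Finset.univ fun n (_ : n ∈ Finset.univ) =>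
        tendsto_exp_mul_ker hρ (q - α x.1 x.2) (τ x n)
      simp only [Finset.sum_const_zero] at this
      refine this.congr fun t => ?_
      rw [Finset.mul_sum]
    refine h4.congr' ?_
    filter_upwards [eventually_ge_atTop (T (x.1 + 1))] with t ht
    rw [hE]
    simp only
    rw [chi_eq_zero (T := T) (j := x.1) (t := t) (fun h => absurd h.2 (not_lt.2 ht)), mul_zero,
      sub_zero]
  have hlim : Tendsto (fun t => ∑' x, E t x) atTop (𝓝 0) := by
    have := tendsto_tsum_of_dominated_convergence (f := E) (g := fun _ => (0 : ℝ)) hbs hE0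
      (Eventually.of_forall fun t x => hEb t x)
    simpa using this
  have h5 := (Metric.tendsto_nhds.1 hlim) ε hε
  filter_upwards [h5] with t ht j₀ hj₀
  have e2 : HasSum (fun x : ℕ × Fin 2 => m x.1 x.2 * G ρ (q - α x.1 x.2) * chi T x.1 t)
      ((∑ i, m j₀ i * G ρ (q - α j₀ i)) * chi T j₀ t) := by
    have h6 := hasSum_sum_of_ne_finset_zero (L := SummationFilter.unconditional _)
      (f := fun x : ℕ × Fin 2 => m x.1 x.2 * G ρ (q - α x.1 x.2) * chi T x.1 t)
      (s := ({j₀} ×ˢ Finset.univ : Finset (ℕ × Fin 2))) (fun x hx => by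
        have : x.1 ≠ j₀ := by
          intro h
          exact hx (Finset.mem_product.2 ⟨Finset.mem_singleton.2 h, Finset.mem_univ _⟩)
        rw [hj₀ _ this, mul_zero])
    rw [sum_univ_prod] at h6
    rwa [Finset.sum_mul]
  have e3 : HasSum (E t) (Real.exp (-ρ * t) * L t -
      (∑ i, m j₀ i * G ρ (q - α j₀ i)) * chi T j₀ t) := ((hL t).mul_left _).sub e2
  rw [e3.tsum_eq, dist_zero_right, Real.norm_eq_abs] at ht
  exact ht

theorem exists_f {ρ : ℝ} (hρ : 0 < ρ) (hρ1 : ρ < 1) {M : ℝ}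
    {m α : ℕ → Fin 2 → ℝ} (hm : ∀ j i, 0 ≤ m j i ∧ m j i ≤ M) (hα : ∀ j i, α j i ∈ Icc 0 π)
    {T : ℕ → ℝ} (hT : ∀ j, T j + 2 * 2 ^ j ≤ T (j + 1)) (hT0 : 0 ≤ T 0) :
    ∃ f : ℂ → ℂ, Pre ρ f ∧ (∃ K : ℝ, 0 ≤ K ∧ ∀ z : ℂ, z ≠ 0 → ‖f z‖ ≤ Real.exp (K * ‖z‖ ^ ρ)) ∧
      ∀ q : ℝ, (∀ j i, Real.sin (q - α j i) ≠ 0) →
        (Summable fun x : ℕ × Fin 2 => Real.exp (-ρ * T x.1) / |Real.sin (q - α x.1 x.2)|) →
        (∀ t : ℝ, f (ray (Real.exp t) q) ≠ 0) ∧ ∀ ε : ℝ, 0 < ε →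
          ∀ᶠ t in atTop, ∀ j₀, (∀ j, j ≠ j₀ → chi T j t = 0) →
            |Real.exp (-ρ * t) * Real.log ‖f (ray (Real.exp t) q)‖ -
              (∑ i, m j₀ i * G ρ (q - α j₀ i)) * chi T j₀ t| < ε := by
  obtain ⟨C, hC, hker⟩ := integral_ker hρ hρ1
  have hM : 0 ≤ M := (hm 0 0).1.trans (hm 0 0).2
  have hTm := mono_of_step hT
  have hTn := le_of_step hT hT0
  choose N τ h1 h2 h3 using fun x : ℕ × Fin 2 => exists_block hρ hρ1 hC hker
    (m := m x.1 x.2) (T := T x.1) (T' := T (x.1 + 1)) (w := 2 ^ x.1) (hm _ _).1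
    (hTm (Nat.le_succ _)) (by positivity)
  have hlog := sum_log_bound hρ hρ1 hC hm hT (N := N) (τ := τ) h2
  set c : (Σ x : ℕ × Fin 2, Fin (N x)) → ℂ := fun i =>
    Complex.exp (((-τ i.1 i.2 : ℝ) : ℂ) + ((-α i.1.1 i.1.2 : ℝ) : ℂ) * I) with hc
  have hcn : ∀ i, ‖c i‖ = Real.exp (-τ i.1 i.2) := by
    intro i
    rw [hc, Complex.norm_exp]
    simp
  have hτ0 : ∀ i : (Σ x : ℕ × Fin 2, Fin (N x)), 0 ≤ τ i.1 i.2 := fun i =>
    (Nat.cast_nonneg _).trans ((hTn i.1.1).trans (h1 i.1 i.2).1)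
  have hcs : Summable fun i => ‖c i‖ := by
    refine Summable.of_nonneg_of_le (fun i => norm_nonneg _) (fun i => ?_)
      ((hlog 0).1.mul_left 2)
    rw [hcn, zero_sub]
    have hx0 := Real.exp_pos (-τ i.1 i.2)
    have hx1 : Real.exp (-τ i.1 i.2) ≤ 1 := Real.exp_le_one_iff.2 (by linarith [hτ0 i])
    have := Real.one_sub_inv_le_log_of_pos (by linarith : 0 < 1 + Real.exp (-τ i.1 i.2))
    refine le_trans ?_ (mul_le_mul_of_nonneg_left this (by norm_num))
    rw [← sub_nonneg]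
    have e : 2 * (1 - (1 + Real.exp (-τ i.1 i.2))⁻¹) - Real.exp (-τ i.1 i.2) =
        Real.exp (-τ i.1 i.2) * (1 - Real.exp (-τ i.1 i.2)) / (1 + Real.exp (-τ i.1 i.2)) := by
      field_simp
      ring
    rw [e]
    exact div_nonneg (mul_nonneg hx0.le (by linarith)) (by linarith)
  have hci : ∀ i, (c i).im ≤ 0 := by
    intro i
    rw [hc, Complex.exp_im]
    simp only [add_im, ofReal_im, mul_im, ofReal_re, I_im, mul_one, I_re, mul_zero, add_zero,
      zero_add]
    rw [Real.sin_neg]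
    have : 0 ≤ Real.sin (α i.1.1 i.1.2) := Real.sin_nonneg_of_mem_Icc (hα _ _)
    nlinarith [Real.exp_pos ((((-τ i.1 i.2 : ℝ) : ℂ) + ((-α i.1.1 i.1.2 : ℝ) : ℂ) * I)).re]
  obtain ⟨f, f1, f2, f3, f4, f5⟩ := exists_entire hcs hci
  have hbound : ∀ z : ℂ, z ≠ 0 → ‖f z‖ ≤ Real.exp (2 * M / C * K0 ρ * ‖z‖ ^ ρ) := by
    intro z hz
    have hz' : 0 < ‖z‖ := norm_pos_iff.2 hz
    refine (f5 z).2.trans (Real.exp_le_exp.2 ?_)
    have h5 := (hlog (Real.log ‖z‖)).2
    rw [mul_comm ρ, ← Real.rpow_def_of_pos hz'] at h5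
    refine le_trans (le_of_eq ?_) h5
    congr 1
    ext i
    rw [hcn, Real.exp_sub, Real.exp_log hz', Real.exp_neg]
    congr 2
    rw [div_eq_inv_mul]
  have hK0 : 0 ≤ K0 ρ := integral_nonneg fun u =>
    mul_nonneg (log_one_add_exp_nonneg u) (Real.exp_pos _).le
  have hK : 0 ≤ 2 * M / C * K0 ρ := by positivity
  refine ⟨f, ⟨f1, ?_, f2, f3⟩, ⟨2 * M / C * K0 ρ, hK, hbound⟩, ?_⟩
  · intro σ hσ
    filter_upwards [(tendsto_norm_cobounded_atTop (E := ℂ)).eventually
      (eventually_mul_rpow_le hσ (2 * M / C * K0 ρ)),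
      (tendsto_norm_cobounded_atTop (E := ℂ)).eventually_ge_atTop 1] with z hz hz1
    have hz0 : z ≠ 0 := by
      rintro rfl
      rw [norm_zero] at hz1
      linarith
    exact (hbound z hz0).trans (Real.exp_le_exp.2 hz)
  · intro q hq hsum
    have hcz : ∀ (t : ℝ) (i : Σ x : ℕ × Fin 2, Fin (N x)), c i * ray (Real.exp t) q =
        Complex.exp (((t - τ i.1 i.2 : ℝ) : ℂ) + ((q - α i.1.1 i.1.2 : ℝ) : ℂ) * I) := by
      intro t i
      rw [hc, ray, Complex.ofReal_exp, ← Complex.exp_add, ← Complex.exp_add]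
      congr 1
      push_cast
      ring
    have hne : ∀ (t : ℝ) (i : Σ x : ℕ × Fin 2, Fin (N x)), c i * ray (Real.exp t) q ≠ 1 := by
      intro t i h
      rw [hcz] at h
      have h6 := congrArg Complex.im h
      rw [Complex.exp_im] at h6
      simp only [add_im, ofReal_im, mul_im, ofReal_re, I_im, mul_one, I_re, mul_zero, add_zero,
        zero_add, one_im] at h6
      exact (mul_ne_zero (Real.exp_pos _).ne' (hq i.1.1 i.1.2)) h6
    refine ⟨fun t => (f4 _ (hne t)).1, ?_⟩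
    have hL : ∀ t, HasSum (fun x : ℕ × Fin 2 => ∑ n, ker (t - τ x n) (q - α x.1 x.2))
        (Real.log ‖f (ray (Real.exp t) q)‖) := by
      intro t
      have h6 := (f4 _ (hne t)).2
      have h7 : HasSum (fun i : (Σ x : ℕ × Fin 2, Fin (N x)) =>
          ker (t - τ i.1 i.2) (q - α i.1.1 i.1.2)) (Real.log ‖f (ray (Real.exp t) q)‖) := by
        convert h6 using 2 with i
        rw [hcz, ker]
      exact h7.sigma fun x => hasSum_fintype _
    intro ε hε
    exact tendsto_blocks hρ hC hm (fun x t₀ => h3 x _ (hq x.1 x.2) t₀) hsum hL hε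

/-- a countable dense set of directions avoiding the zeros -/
lemma exists_directions (α : ℕ → Fin 2 → ℝ) : ∃ q : ℕ → ℝ, DenseRange q ∧
    ∀ l j i, Real.sin (q l - α j i) ≠ 0 := by
  have h1 : ({x : ℝ | ∃ j i, Real.sin (x - α j i) = 0}).Countable := by
    have : {x : ℝ | ∃ j i, Real.sin (x - α j i) = 0} ⊆
        ⋃ j : ℕ, ⋃ i : Fin 2, range fun n : ℤ => (n : ℝ) * π + α j i := by
      rintro x ⟨j, i, hx⟩
      obtain ⟨n, hn⟩ := Real.sin_eq_zero_iff.1 hx
      exact mem_iUnion.2 ⟨j, mem_iUnion.2 ⟨i, n, by simp only; linarith⟩⟩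
    exact (countable_iUnion fun j => countable_iUnion fun i => countable_range _).mono this
  have h2 : Dense ({x : ℝ | ∃ j i, Real.sin (x - α j i) = 0})ᶜ := h1.dense_compl ℝ
  obtain ⟨t, ht1, ht2, ht3⟩ := h2.exists_countable_dense_subset
  obtain ⟨q, rfl⟩ := ht2.exists_eq_range ht3.nonempty
  refine ⟨q, ht3, fun l j i h => ?_⟩
  exact ht1 (mem_range_self l) ⟨j, i, h⟩

/-- choice of the windows -/
lemma exists_windows {ρ : ℝ} (hρ : 0 < ρ) {α : ℕ → Fin 2 → ℝ} {q : ℕ → ℝ}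
    (hq : ∀ l j i, Real.sin (q l - α j i) ≠ 0) :
    ∃ T : ℕ → ℝ, (∀ j, T j + 2 * 2 ^ j ≤ T (j + 1)) ∧ 0 ≤ T 0 ∧
      ∀ l, Summable fun x : ℕ × Fin 2 =>
        Real.exp (-ρ * T x.1) / |Real.sin (q l - α x.1 x.2)| := by
  have h1 : ∀ j : ℕ, ∃ B : ℝ, 0 ≤ B ∧ ∀ l ∈ Finset.range (j + 1), ∀ i : Fin 2,
      Real.exp (-ρ * B) ≤ (1 / 2) ^ j * |Real.sin (q l - α j i)| := by
    intro j
    have h3 : Tendsto (fun t : ℝ => Real.exp (-ρ * t)) atTop (𝓝 0) := by
      refine Real.tendsto_exp_atBot.comp ?_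
      exact tendsto_id.const_mul_atTop_of_neg (by linarith)
    have h4 : ∀ᶠ B : ℝ in atTop, ∀ l ∈ Finset.range (j + 1), ∀ i : Fin 2,
        Real.exp (-ρ * B) ≤ (1 / 2) ^ j * |Real.sin (q l - α j i)| := by
      rw [Filter.eventually_all_finset]
      intro l _
      rw [Filter.eventually_all]
      intro i
      have hpos : 0 < (1 / 2 : ℝ) ^ j * |Real.sin (q l - α j i)| :=
        mul_pos (by positivity) (abs_pos.2 (hq l j i))
      exact (h3.eventually_lt_const hpos).mono fun B hB => hB.le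
    obtain ⟨B, hB1, hB2⟩ := (h4.and (eventually_ge_atTop 0)).exists
    exact ⟨B, hB2, hB1⟩
  choose B hB0 hB using h1
  set T : ℕ → ℝ := fun j => ∑ k ∈ Finset.range (j + 1), (B k + 2 * 2 ^ k) with hTdef
  have hTB : ∀ j, B j ≤ T j := by
    intro j
    rw [hTdef]
    simp only
    rw [Finset.sum_range_succ]
    have h5 : 0 ≤ ∑ k ∈ Finset.range j, (B k + 2 * 2 ^ k) :=
      Finset.sum_nonneg fun k _ => add_nonneg (hB0 k) (by positivity)
    have h6 : (0 : ℝ) < 2 ^ j := by positivity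
    linarith
  refine ⟨T, ?_, ?_, ?_⟩
  · intro j
    rw [hTdef]
    simp only
    rw [Finset.sum_range_succ _ (j + 1), pow_succ]
    have h6 : (0 : ℝ) < 2 ^ j := by positivity
    have := hB0 (j + 1)
    linarith
  · exact (hB0 0).trans (hTB 0)
  · intro l
    have hg : Summable fun x : ℕ × Fin 2 => ((1 : ℝ) / 2) ^ x.1 * 1 :=
      Summable.mul_of_nonneg (f := fun j : ℕ => ((1 : ℝ) / 2) ^ j)
        (g := fun _ : Fin 2 => (1 : ℝ))
        summable_geometric_two (Summable.of_finite) (fun j => by positivity) (fun _ => by simp)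
    refine Summable.of_norm_bounded_eventually hg ?_
    have hfin : {x : ℕ × Fin 2 | x.1 < l}.Finite := by
      refine ((Finset.range l ×ˢ Finset.univ : Finset (ℕ × Fin 2)).finite_toSet).subset ?_
      intro x hx
      simp only [Finset.coe_product, Finset.coe_range, Finset.coe_univ, mem_prod, mem_Iio,
        mem_univ, and_true]
      exact hx
    filter_upwards [hfin.compl_mem_cofinite] with x hx
    have hx' : l ≤ x.1 := not_lt.1 hx
    have hs : 0 < |Real.sin (q l - α x.1 x.2)| := abs_pos.2 (hq l x.1 x.2)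
    rw [Real.norm_of_nonneg (div_nonneg (Real.exp_pos _).le hs.le), div_le_iff₀ hs, mul_one]
    refine le_trans (Real.exp_le_exp.2 ?_)
      (hB x.1 l (Finset.mem_range.2 (Nat.lt_succ_of_le hx')) x.2)
    have := hTB x.1
    nlinarith

lemma rpow_exp_mul {ρ r : ℝ} (hr : 0 < r) : Real.exp (-ρ * Real.log r) * r ^ ρ = 1 := by
  rw [Real.rpow_def_of_pos hr, ← Real.exp_add, ← Real.exp_zero]
  congr 1
  ring

theorem exists_of_nonneg {ρ : ℝ} (hρ : 0 < ρ) (hρ1 : ρ < 1) {h : ℝ → ℝ} (hc : TrigConvex ρ h)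
    (hp : ∀ θ, h (θ + 2 * π) = h θ) (h0 : ∀ θ, 0 ≤ h θ) (hs : ∀ θ ∈ Ioo 0 π, h θ ≤ h (-θ))
    (hne : ∃ θ, h θ ≠ 0) : ∃ f : ℂ → ℂ, InClass ρ f ∧ ∀ θ, ind ρ f θ = h θ := by
  have hcont : Continuous h := continuous_of_trigConvex hρ hc
  obtain ⟨M, hM, hcon⟩ := exists_contact hρ hρ1 hc hp h0 hs
  choose mm αα c1 c2 c3 c4 using hcon
  set ϑ : ℕ → ℝ := fun j => TopologicalSpace.denseSeq ℝ (Nat.unpair j).1 with hϑ
  obtain ⟨q, hqd, hq⟩ := exists_directions (fun j => αα (ϑ j))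
  obtain ⟨T, hT, hT0, hTs⟩ := exists_windows hρ hq
  obtain ⟨f, hf, ⟨K, hK0, hK⟩, hmain⟩ := exists_f hρ hρ1 (m := fun j => mm (ϑ j))
    (α := fun j => αα (ϑ j)) (fun j i => c1 (ϑ j) i) (fun j i => c2 (ϑ j) i) hT hT0
  -- upper bound on the good directions
  have hup : ∀ l, ∀ a : ℝ, h (q l) < a → ind ρ f (q l) ≤ a := by
    intro l a ha
    obtain ⟨hne0, hm⟩ := hmain (q l) (hq l) (hTs l)
    have hev := hm (a - h (q l)) (by linarith)
    refine ind_le_of_eventually ?_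
    filter_upwards [Real.tendsto_log_atTop.eventually hev, eventually_gt_atTop 0] with r hr hr0
    obtain ⟨j₀, hj₀⟩ := chi_unique hT (Real.log r)
    have h5 := hr j₀ hj₀
    rw [Real.exp_log hr0] at h5
    have h6 := hne0 (Real.log r)
    rw [Real.exp_log hr0] at h6
    have h7 : (∑ i, mm (ϑ j₀) i * G ρ (q l - αα (ϑ j₀) i)) * chi T j₀ (Real.log r) ≤
        h (q l) := by
      have h8 := c3 (ϑ j₀) (q l)
      have h9 := chi_nonneg T j₀ (Real.log r)
      have h10 := chi_le_one T j₀ (Real.log r)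
      have h11 := h0 (q l)
      calc _ ≤ h (q l) * chi T j₀ (Real.log r) := mul_le_mul_of_nonneg_right h8 h9
        _ ≤ h (q l) * 1 := mul_le_mul_of_nonneg_left h10 h11
        _ = h (q l) := mul_one _
    have h8 : Real.exp (-ρ * Real.log r) * Real.log ‖f (ray r (q l))‖ ≤ a := by
      have := (abs_lt.1 h5).2
      linarith
    have h9 : Real.log ‖f (ray r (q l))‖ ≤ a * r ^ ρ := by
      have hrp : 0 < r ^ ρ := Real.rpow_pos_of_pos hr0 _
      calc Real.log ‖f (ray r (q l))‖ =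
          (Real.exp (-ρ * Real.log r) * r ^ ρ) * Real.log ‖f (ray r (q l))‖ := by
            rw [rpow_exp_mul hr0, one_mul]
        _ = (Real.exp (-ρ * Real.log r) * Real.log ‖f (ray r (q l))‖) * r ^ ρ := by ring
        _ ≤ a * r ^ ρ := mul_le_mul_of_nonneg_right h8 hrp.le
    exact (Real.log_le_iff_le_exp (norm_pos_iff.2 h6)).1 h9
  -- lower bound on the good directions
  have hlow : ∀ l, ∀ a : ℝ, a < h (q l) → (a : EReal) ≤ ind ρ f (q l) := by
    intro l a ha
    obtain ⟨hne0, hm⟩ := hmain (q l) (hq l) (hTs l)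
    set ε : ℝ := (h (q l) - a) / 3 with hε
    have hε0 : 0 < ε := by rw [hε]; linarith
    have hev := hm ε hε0
    obtain ⟨t₁, ht₁⟩ := eventually_atTop.1 hev
    -- a contact point close to `q l`
    obtain ⟨δ, hδ0, hδ⟩ := Metric.continuous_iff.1 hcont (q l) ε hε0
    set η : ℝ := min δ (ε / (2 * M * ρ + 1)) with hη
    have hη0 : 0 < η := lt_min hδ0 (div_pos hε0 (by positivity))
    obtain ⟨n, hn⟩ := (TopologicalSpace.denseRange_denseSeq ℝ).exists_dist_lt (q l) hη0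
    refine le_ind_of_frequently (frequently_atTop.2 fun X => ?_)
    -- the window
    set k : ℕ := ⌈max t₁ X⌉₊ with hk
    set j : ℕ := Nat.pair n k with hj
    have hϑj : ϑ j = TopologicalSpace.denseSeq ℝ n := by
      rw [hϑ, hj]
      simp [Nat.unpair_pair]
    set t : ℝ := (T j + T (j + 1)) / 2 with ht
    have htk : (k : ℝ) ≤ t := by
      have e1 : (k : ℝ) ≤ j := by exact_mod_cast Nat.right_le_pair n k
      have e2 := le_of_step hT hT0 j
      have e3 := mono_of_step hT (Nat.le_succ j)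
      rw [Nat.succ_eq_add_one] at e3
      rw [ht]
      linarith
    have htX : max t₁ X ≤ t := (Nat.le_ceil _).trans htk
    have hchi : chi T j t = 1 := chi_mid hT j
    have hj₀ : ∀ j', j' ≠ j → chi T j' t = 0 := by
      obtain ⟨j₀, h1⟩ := chi_unique hT t
      have : j = j₀ := by
        by_contra hcon
        rw [h1 j hcon] at hchi
        exact zero_ne_one hchi
      rwa [this]
    have h5 := ht₁ t ((le_max_left _ _).trans htX) j hj₀
    rw [hchi, mul_one] at h5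
    have h6 : h (q l) - 2 * ε ≤ ∑ i, mm (ϑ j) i * G ρ (q l - αα (ϑ j) i) := by
      have e1 : ∑ i, mm (ϑ j) i * G ρ (ϑ j - αα (ϑ j) i) -
          ∑ i, mm (ϑ j) i * G ρ (q l - αα (ϑ j) i) ≤ ∑ i : Fin 2, M * (ρ * η) := by
        rw [← Finset.sum_sub_distrib]
        refine Finset.sum_le_sum fun i _ => ?_
        rw [← mul_sub]
        have e2 := abs_G_sub_le hρ.le (ϑ j - αα (ϑ j) i) (q l - αα (ϑ j) i)
        have e3 : |ϑ j - αα (ϑ j) i - (q l - αα (ϑ j) i)| ≤ η := by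
          rw [show ϑ j - αα (ϑ j) i - (q l - αα (ϑ j) i) = -(q l - ϑ j) by ring, abs_neg, hϑj,
            ← Real.dist_eq]
          exact hn.le
        have e4 : G ρ (ϑ j - αα (ϑ j) i) - G ρ (q l - αα (ϑ j) i) ≤ ρ * η :=
          (le_abs_self _).trans (e2.trans (mul_le_mul_of_nonneg_left e3 hρ.le))
        calc mm (ϑ j) i * (G ρ (ϑ j - αα (ϑ j) i) - G ρ (q l - αα (ϑ j) i)) ≤
            mm (ϑ j) i * (ρ * η) := mul_le_mul_of_nonneg_left e4 (c1 _ _).1
          _ ≤ M * (ρ * η) := mul_le_mul_of_nonneg_right (c1 _ _).2 (by positivity)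
      rw [c4 (ϑ j)] at e1
      have e5 : |h (ϑ j) - h (q l)| < ε := by
        rw [← Real.dist_eq]
        refine hδ _ ?_
        rw [hϑj, dist_comm]
        exact hn.trans_le (min_le_left _ _)
      have e6 : ∑ _i : Fin 2, M * (ρ * η) ≤ ε := by
        have e7 : η ≤ ε / (2 * M * ρ + 1) := min_le_right _ _
        rw [le_div_iff₀ (by positivity)] at e7
        have e8 : ∑ _i : Fin 2, M * (ρ * η) = 2 * (M * (ρ * η)) := by simp
        rw [e8]
        nlinarith
      have := (abs_lt.1 e5).1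
      linarith
    have h7 : a ≤ Real.exp (-ρ * t) * Real.log ‖f (ray (Real.exp t) (q l))‖ := by
      have := (abs_lt.1 h5).1
      have e : a = h (q l) - 3 * ε := by rw [hε]; ring
      linarith
    refine ⟨Real.exp t, ?_, ?_⟩
    · exact ((le_max_right _ _).trans htX).trans
        ((by linarith : t ≤ t + 1).trans (Real.add_one_le_exp t))
    · have hpos : 0 < ‖f (ray (Real.exp t) (q l))‖ := norm_pos_iff.2 (hne0 t)
      rw [← Real.le_log_iff_exp_le hpos]
      have e1 := rpow_exp_mul (ρ := ρ) (Real.exp_pos t)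
      rw [Real.log_exp] at e1
      have hrp : 0 < Real.exp t ^ ρ := Real.rpow_pos_of_pos (Real.exp_pos t) _
      calc a * Real.exp t ^ ρ ≤
          (Real.exp (-ρ * t) * Real.log ‖f (ray (Real.exp t) (q l))‖) * Real.exp t ^ ρ :=
            mul_le_mul_of_nonneg_right h7 hrp.le
        _ = (Real.exp (-ρ * t) * Real.exp t ^ ρ) * Real.log ‖f (ray (Real.exp t) (q l))‖ := by
            ring
        _ = _ := by rw [e1, one_mul]
  have heq : ∀ l, ind ρ f (q l) = h (q l) := by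
    intro l
    refine le_antisymm ?_ ?_
    · exact EReal.le_of_forall_lt_iff_le.1 fun a ha => hup l a (by exact_mod_cast ha)
    · exact EReal.ge_of_forall_gt_iff_ge.1 fun a ha => hlow l a (by exact_mod_cast ha)
  -- the order
  have hpos : ∃ l, 0 < h (q l) := by
    obtain ⟨θ, hθ⟩ := hne
    have hθ' : 0 < h θ := lt_of_le_of_ne (h0 θ) (Ne.symm hθ)
    obtain ⟨l, hl⟩ := hqd.exists_mem_open (isOpen_lt continuous_const hcont) ⟨θ, hθ'⟩
    exact ⟨l, hl⟩
  obtain ⟨l₀, hl₀⟩ := hpos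
  have hcl : InClass ρ f := hf.inClass hρ (θ := q l₀) (by rw [heq]; exact_mod_cast hl₀)
  refine ⟨f, hcl, ?_⟩
  have htop : ∀ θ, ind ρ f θ ≠ ⊤ := by
    intro θ hcon
    have : ind ρ f θ ≤ (K : ℝ) := by
      refine ind_le_of_eventually ?_
      filter_upwards [eventually_gt_atTop 0] with r hr
      have hz : ray r θ ≠ 0 := by
        rw [← norm_pos_iff, norm_ray hr.le]
        exact hr
      have := hK _ hz
      rwa [norm_ray hr.le] at this
    rw [hcon] at this
    exact absurd this (not_le.2 (EReal.coe_lt_top K))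
  have hbot := ind_ne_bot hcl hρ hρ1 htop
  have hg : ∀ θ, ind ρ f θ = ((ind ρ f θ).toReal : ℝ) := fun θ =>
    (EReal.coe_toReal (htop θ) (hbot θ)).symm
  have hgc : Continuous fun θ => (ind ρ f θ).toReal :=
    continuous_of_trigConvex hρ (trigConvex_of_ind hcl hρ hg)
  have hgh : (fun θ => (ind ρ f θ).toReal) = h := by
    refine Continuous.ext_on hqd hgc hcont ?_
    rintro _ ⟨l, rfl⟩
    simp only
    rw [heq, EReal.toReal_coe]
  intro θ
  rw [hg θ]
  exact congrArg _ (congrFun hgh θ)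

end HBInd
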