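import Pool.Agent.HBInd.Trig

/-!
# Even trigonometrically convex functions of order one

`exists_contact_one`: WLOG `θ₀ ∈ [0, π]` (both sides are even and `2π`-periodic in `θ` and in `θ₀`).
`exists_support` with `ρ = 1` and continuity: `s(θ) = h(θ₀) cos (θ - θ₀) + c sin (θ - θ₀) ≤ h(θ)` for
`|θ - θ₀| ≤ π`, hence for all `θ` (both sides are `2π`-periodic). Write `s = b cos θ + a sin θ`.
If `θ₀ ∈ (0, π)`: `s(-θ₀) ≤ h(-θ₀) = h(θ₀) = s(θ₀)` gives `a ≥ 0`, and
`b cos θ + a |sin θ| = s(|θ|) ≤ h(|θ|) = h(θ)` for `|θ| ≤ π`. If `θ₀ ∈ {0, π}` average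
`s(θ) ≤ h(θ)` and `s(-θ) ≤ h(θ)`: take `a = 0`, `b = h(0)`, resp. `b = -h(π)`.
-/

namespace HBInd

open Complex Filter Topology Set
open scoped Real

theorem exists_contact_one {h : ℝ → ℝ} (hc : TrigConvex 1 h) (hp : ∀ θ, h (θ + 2 * π) = h θ)
    (hs : ∀ θ, h (-θ) = h θ) (θ₀ : ℝ) :
    ∃ a b : ℝ, 0 ≤ a ∧ (∀ θ, b * Real.cos θ + a * |Real.sin θ| ≤ h θ) ∧
      b * Real.cos θ₀ + a * |Real.sin θ₀| = h θ₀ := by
  have hpi := Real.pi_pos
  obtain ⟨c, hsup⟩ := exists_support one_pos hc θ₀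
  have hcont := continuous_of_trigConvex one_pos hc
  set b : ℝ := h θ₀ * Real.cos θ₀ - c * Real.sin θ₀ with hb
  set a : ℝ := h θ₀ * Real.sin θ₀ + c * Real.cos θ₀ with ha
  have e1 : ∀ θ, h θ₀ * Real.cos (1 * (θ - θ₀)) + c * Real.sin (1 * (θ - θ₀)) =
      b * Real.cos θ + a * Real.sin θ := by
    intro θ
    rw [one_mul, Real.cos_sub, Real.sin_sub, hb, ha]
    ring
  have e0 : b * Real.cos θ₀ + a * Real.sin θ₀ = h θ₀ := by
    rw [← e1, sub_self, mul_zero, Real.cos_zero, Real.sin_zero]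
    ring
  have hclosed : IsClosed {θ | b * Real.cos θ + a * Real.sin θ ≤ h θ} :=
    isClosed_le (by fun_prop) hcont
  have hball : Metric.ball θ₀ π ⊆ {θ | b * Real.cos θ + a * Real.sin θ ≤ h θ} := by
    intro θ hθ
    rw [Metric.mem_ball, Real.dist_eq] at hθ
    have h1 := hsup θ (by rwa [div_one])
    rwa [e1] at h1
  have hcb : Metric.closedBall θ₀ π ⊆ {θ | b * Real.cos θ + a * Real.sin θ ≤ h θ} := by
    rw [← closure_ball θ₀ hpi.ne']
    exact closure_minimal hball hclosed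
  have hper : Function.Periodic h (2 * π) := hp
  have hall : ∀ θ, b * Real.cos θ + a * Real.sin θ ≤ h θ := by
    intro θ
    set n : ℤ := round ((θ - θ₀) / (2 * π)) with hn
    have hle : |(θ - n * (2 * π)) - θ₀| ≤ π := by
      have h1 := abs_sub_round ((θ - θ₀) / (2 * π))
      have h2 : (θ - n * (2 * π)) - θ₀ = 2 * π * ((θ - θ₀) / (2 * π) - n) := by
        field_simp
        ring
      rw [h2, abs_mul, abs_of_pos (by positivity : (0 : ℝ) < 2 * π)]
      nlinarith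
    have h3 : θ - n * (2 * π) ∈ Metric.closedBall θ₀ π := by
      rw [Metric.mem_closedBall, Real.dist_eq]
      exact hle
    have h4 := hcb h3
    simp only [mem_setOf_eq] at h4
    rw [Real.cos_sub_int_mul_two_pi, Real.sin_sub_int_mul_two_pi, hper.sub_int_mul_eq] at h4
    exact h4
  have hall' : ∀ θ, b * Real.cos θ + |a * Real.sin θ| ≤ h θ := by
    intro θ
    have h1 := hall θ
    have h2 := hall (-θ)
    rw [Real.cos_neg, Real.sin_neg, hs] at h2
    rcases abs_cases (a * Real.sin θ) with ⟨h3, -⟩ | ⟨h3, -⟩ <;> rw [h3] <;> linarith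
  refine ⟨|a|, b, abs_nonneg a, fun θ => ?_, ?_⟩
  · rw [← abs_mul]
    exact hall' θ
  · rw [← abs_mul]
    have h1 := hall' θ₀
    have h2 := le_abs_self (a * Real.sin θ₀)
    linarith

/-- `G (1/2) (2θ) = |sin θ|` -/
theorem G_half (θ : ℝ) : G (1 / 2) (2 * θ) = |Real.sin θ| := by
  have hpi := Real.pi_pos
  obtain ⟨d, hd0, hd1, hd2, hd3⟩ := exists_reduce (1 / 2) (2 * θ)
  obtain ⟨-, n, hn⟩ := hd3 0
  have e1 : 1 / 2 * (π - d) = π / 2 - d / 2 := by ring
  rw [hd2, e1, Real.cos_pi_div_two_sub]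
  have h1 : 0 ≤ Real.sin (d / 2) :=
    Real.sin_nonneg_of_nonneg_of_le_pi (by linarith) (by linarith)
  rw [← abs_of_nonneg h1]
  have h2 : d / 2 = |θ - n * π| := by
    rw [hn]
    have e2 : 2 * θ - n * (2 * π) = 2 * (θ - n * π) := by ring
    rw [e2, abs_mul, abs_of_pos (two_pos : (0 : ℝ) < 2)]
    ring
  rw [h2]
  have h3 : ∀ x : ℝ, abs (Real.sin (abs x)) = abs (Real.sin x) := by
    intro x
    rcases abs_choice x with h4 | h4
    · rw [h4]
    · rw [h4, Real.sin_neg, abs_neg]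
  rw [h3, Real.sin_sub_int_mul_pi, abs_mul, abs_neg_one_zpow, one_mul]

end HBInd
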