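import Pool.Agent.HBInd.Construct
import Pool.Agent.HBInd.ContactOne

/-!
# Even functions of order one with real zeros
-/

namespace HBInd

open Complex Filter Topology Set Bornology MeasureTheory
open scoped Real ComplexConjugate

/-- the construction of `exists_f` for positive zeros, with the symmetry of the modulus -/
theorem exists_f_pos {ρ : ℝ} (hρ : 0 < ρ) (hρ1 : ρ < 1) {M : ℝ}
    {m : ℕ → Fin 2 → ℝ} (hm : ∀ j i, 0 ≤ m j i ∧ m j i ≤ M)
    {T : ℕ → ℝ} (hT : ∀ j, T j + 2 * 2 ^ j ≤ T (j + 1)) (hT0 : 0 ≤ T 0) :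
    ∃ f : ℂ → ℂ, Differentiable ℂ f ∧ (∀ z : ℂ, (z.im ≠ 0 ∨ z.re < 0) → f z ≠ 0) ∧
      (∀ z : ℂ, ‖f (conj z)‖ = ‖f z‖) ∧
      (∃ K : ℝ, 0 ≤ K ∧ ∀ z : ℂ, z ≠ 0 → ‖f z‖ ≤ Real.exp (K * ‖z‖ ^ ρ)) ∧
      ∀ q : ℝ, Real.sin q ≠ 0 →
        (∀ t : ℝ, f (ray (Real.exp t) q) ≠ 0) ∧ ∀ ε : ℝ, 0 < ε →
          ∀ᶠ t in atTop, ∀ j₀, (∀ j, j ≠ j₀ → chi T j t = 0) →
            |Real.exp (-ρ * t) * Real.log ‖f (ray (Real.exp t) q)‖ -
              (∑ i, m j₀ i * G ρ q) * chi T j₀ t| < ε := by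
  obtain ⟨C, hC, hker⟩ := integral_ker hρ hρ1
  have hM : 0 ≤ M := (hm 0 0).1.trans (hm 0 0).2
  have hTm := mono_of_step hT
  have hTn := le_of_step hT hT0
  choose N τ h1 h2 h3 using fun x : ℕ × Fin 2 => exists_block hρ hρ1 hC hker
    (m := m x.1 x.2) (T := T x.1) (T' := T (x.1 + 1)) (w := 2 ^ x.1) (hm _ _).1
    (hTm (Nat.le_succ _)) (by positivity)
  have hlog := sum_log_bound hρ hρ1 hC hm hT (N := N) (τ := τ) h2
  set c : (Σ x : ℕ × Fin 2, Fin (N x)) → ℂ := fun i => ((Real.exp (-τ i.1 i.2) : ℝ) : ℂ) with hc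
  have hcn : ∀ i, ‖c i‖ = Real.exp (-τ i.1 i.2) := by
    intro i
    rw [hc, Complex.norm_real, Real.norm_of_nonneg (Real.exp_pos _).le]
  have hτ0 : ∀ i : (Σ x : ℕ × Fin 2, Fin (N x)), 0 ≤ τ i.1 i.2 := fun i =>
    (Nat.cast_nonneg _).trans ((hTn i.1.1).trans (h1 i.1 i.2).1)
  have hcs : Summable fun i => ‖c i‖ := by
    refine Summable.of_nonneg_of_le (fun i => norm_nonneg _) (fun i => ?_)
      ((hlog 0).1.mul_left 2)
    rw [hcn, zero_sub]
    have hx0 := Real.exp_pos (-τ i.1 i.2)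
    have hx1 : Real.exp (-τ i.1 i.2) ≤ 1 := Real.exp_le_one_iff.2 (by linarith [hτ0 i])
    have := Real.one_sub_inv_le_log_of_pos (by linarith : 0 < 1 + Real.exp (-τ i.1 i.2))
    refine le_trans ?_ (mul_le_mul_of_nonneg_left this (by norm_num))
    rw [← sub_nonneg]
    have e : 2 * (1 - (1 + Real.exp (-τ i.1 i.2))⁻¹) - Real.exp (-τ i.1 i.2) =
        Real.exp (-τ i.1 i.2) * (1 - Real.exp (-τ i.1 i.2)) / (1 + Real.exp (-τ i.1 i.2)) := by
      field_simp
      ring
    rw [e]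
    exact div_nonneg (mul_nonneg hx0.le (by linarith)) (by linarith)
  have hci : ∀ i, (c i).im ≤ 0 := by
    intro i
    exact (Complex.ofReal_im _).le
  obtain ⟨f, f1, -, -, f4, f5⟩ := exists_entire hcs hci
  have hbound : ∀ z : ℂ, z ≠ 0 → ‖f z‖ ≤ Real.exp (2 * M / C * K0 ρ * ‖z‖ ^ ρ) := by
    intro z hz
    have hz' : 0 < ‖z‖ := norm_pos_iff.2 hz
    refine (f5 z).2.trans (Real.exp_le_exp.2 ?_)
    have h5 := (hlog (Real.log ‖z‖)).2
    rw [mul_comm ρ, ← Real.rpow_def_of_pos hz'] at h5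
    refine le_trans (le_of_eq ?_) h5
    congr 1
    ext i
    rw [hcn, Real.exp_sub, Real.exp_log hz', Real.exp_neg]
    congr 2
    rw [div_eq_inv_mul]
  have hK0 : 0 ≤ K0 ρ := integral_nonneg fun u =>
    mul_nonneg (log_one_add_exp_nonneg u) (Real.exp_pos _).le
  have hK : 0 ≤ 2 * M / C * K0 ρ := by positivity
  have hcim : ∀ (z : ℂ) i, z.im ≠ 0 → c i * z ≠ 1 := by
    intro z i hz h
    have h6 := congrArg Complex.im h
    rw [hc, Complex.im_ofReal_mul, Complex.one_im] at h6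
    exact (mul_ne_zero (Real.exp_pos _).ne' hz) h6
  have hcre : ∀ (z : ℂ) i, z.re < 0 → c i * z ≠ 1 := by
    intro z i hz h
    have h6 := congrArg Complex.re h
    rw [hc, Complex.re_ofReal_mul, Complex.one_re] at h6
    have := Real.exp_pos (-τ i.1 i.2)
    nlinarith
  refine ⟨f, f1, fun z hz => (f4 z fun i => hz.elim (hcim z i) (hcre z i)).1, ?_,
    ⟨2 * M / C * K0 ρ, hK, hbound⟩, ?_⟩
  · intro z
    by_cases hz : z.im = 0
    · rw [Complex.conj_eq_iff_im.2 hz]
    · have hz' : (conj z).im ≠ 0 := by simpa using hz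
      obtain ⟨a1, a2⟩ := f4 z fun i => hcim z i hz
      obtain ⟨b1, b2⟩ := f4 (conj z) fun i => hcim _ i hz'
      have e : (fun i => Real.log ‖1 - c i * conj z‖) = fun i => Real.log ‖1 - c i * z‖ := by
        ext i
        have e1 : 1 - c i * conj z = conj (1 - c i * z) := by
          have e2 : conj (c i) = c i := Complex.conj_ofReal _
          rw [map_sub, map_one, map_mul, e2]
        rw [e1, Complex.norm_conj]
      rw [e] at b2
      have h6 := b2.unique a2
      exact Real.log_injOn_pos (norm_pos_iff.2 b1) (norm_pos_iff.2 a1) h6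
  · intro q hq
    have hsum : Summable fun x : ℕ × Fin 2 => Real.exp (-ρ * T x.1) / |Real.sin (q - 0)| := by
      have hr : Summable fun j : ℕ => Real.exp (-ρ * T j) := by
        have h6 : Summable fun j : ℕ => Real.exp (-ρ) ^ j :=
          summable_geometric_of_lt_one (Real.exp_pos _).le
            (by rw [Real.exp_lt_one_iff]; linarith)
        refine h6.of_nonneg_of_le (fun j => (Real.exp_pos _).le) fun j => ?_
        rw [← Real.exp_nat_mul]
        refine Real.exp_le_exp.2 ?_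
        have := hTn j
        nlinarith
      have h7 : Summable fun x : ℕ × Fin 2 => Real.exp (-ρ * T x.1) * 1 :=
        Summable.mul_of_nonneg (f := fun j : ℕ => Real.exp (-ρ * T j))
          (g := fun _ : Fin 2 => (1 : ℝ)) hr (Summable.of_finite)
          (fun j => (Real.exp_pos _).le) (fun _ => by simp)
      simpa [div_eq_mul_inv] using h7.mul_right (|Real.sin (q - 0)|)⁻¹
    have hcz : ∀ (t : ℝ) (i : Σ x : ℕ × Fin 2, Fin (N x)), c i * ray (Real.exp t) q =
        Complex.exp (((t - τ i.1 i.2 : ℝ) : ℂ) + ((q - 0 : ℝ) : ℂ) * I) := by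
      intro t i
      have e0 : c i = Complex.exp ((-τ i.1 i.2 : ℝ) : ℂ) := Complex.ofReal_exp _
      rw [e0, ray, Complex.ofReal_exp, ← Complex.exp_add, ← Complex.exp_add]
      congr 1
      push_cast
      ring
    have hne : ∀ (t : ℝ) (i : Σ x : ℕ × Fin 2, Fin (N x)), c i * ray (Real.exp t) q ≠ 1 := by
      intro t i
      refine hcim _ i ?_
      rw [ray_im]
      exact mul_ne_zero (Real.exp_pos _).ne' hq
    refine ⟨fun t => (f4 _ (hne t)).1, ?_⟩
    have hL : ∀ t, HasSum (fun x : ℕ × Fin 2 => ∑ n, ker (t - τ x n) (q - 0))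
        (Real.log ‖f (ray (Real.exp t) q)‖) := by
      intro t
      have h6 := (f4 _ (hne t)).2
      have h7 : HasSum (fun i : (Σ x : ℕ × Fin 2, Fin (N x)) =>
          ker (t - τ i.1 i.2) (q - 0)) (Real.log ‖f (ray (Real.exp t) q)‖) := by
        convert h6 using 2 with i
        rw [hcz, ker]
      exact h7.sigma fun x => hasSum_fintype _
    intro ε hε
    have h8 := tendsto_blocks hρ hC (α := fun _ _ => 0) hm
      (fun x t₀ => h3 x _ (by rw [sub_zero]; exact hq) t₀) hsum hL hε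
    simpa only [sub_zero] using h8

end HBInd
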