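import Mathlib

/-!
# Indicators of entire functions of Hermite-Biehler type: definitions
-/

namespace HBInd

open Complex Filter Topology Set Bornology
open scoped Real ComplexConjugate

/-- `f` has order exactly `ρ`: `ρ` is the infimum of the `σ ≥ 0` such that
`|f z| ≤ exp (|z| ^ σ)` for all sufficiently large `|z|`. -/
def HasOrder (ρ : ℝ) (f : ℂ → ℂ) : Prop :=
  IsGLB {σ : ℝ | 0 ≤ σ ∧ ∀ᶠ z in cobounded ℂ, ‖f z‖ ≤ Real.exp (‖z‖ ^ σ)} ρ

/-- the class `E_ρ`: entire functions of order exactly `ρ` without zeros in the open lower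
half-plane and with `|f z| ≤ |f (conj z)|` for `Im z > 0` -/
structure InClass (ρ : ℝ) (f : ℂ → ℂ) : Prop where
  entire : Differentiable ℂ f
  order : HasOrder ρ f
  zero_free : ∀ z : ℂ, z.im < 0 → f z ≠ 0
  norm_le : ∀ z : ℂ, 0 < z.im → ‖f z‖ ≤ ‖f (conj z)‖

/-- the point `r e^{iθ}` -/
noncomputable def ray (r θ : ℝ) : ℂ := (r : ℂ) * Complex.exp ((θ : ℂ) * I)

/-- the indicator of `f` with respect to the order `ρ`, with values in `[-∞, ∞]`:
`h(θ) = limsup_{r → ∞} r ^ (-ρ) log |f (r e^{iθ})|`, where `log 0 = -∞` -/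
noncomputable def ind (ρ : ℝ) (f : ℂ → ℂ) (θ : ℝ) : EReal :=
  limsup (fun r : ℝ => ((r ^ (-ρ) : ℝ) : EReal) * ENNReal.log ‖f (ray r θ)‖ₑ) atTop

/-- `ρ`-trigonometrically convex functions -/
def TrigConvex (ρ : ℝ) (h : ℝ → ℝ) : Prop :=
  ∀ a t b : ℝ, a < t → t < b → b - a < π / ρ →
    h t * Real.sin (ρ * (b - a)) ≤ h a * Real.sin (ρ * (b - t)) + h b * Real.sin (ρ * (t - a))

end HBInd
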