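import Pool.Agent.HBInd.RelTools
import Pool.Agent.HBInd.Cells

/-!
# The dual inequality from relative subharmonicity

Paper proof of `domination`. Let `M = sup |h| + 1` and `Cρ` the constant of `tsum_mp`. Choose, in this
order, `δ < δ₁` with the error `ε / 2` in `avg_HH_le`; `σ ≥ M e^{3ρ}`; `η ≤ δ / 10` with
`M e^{3ρ} (K η / δ) Cρ ≤ ε / 2`, where `K` is an absolute constant (see below); an `η`-net `α` of `[0, π]`
(`p = 0`), resp. `α = (0, π)` (`p = 1`).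

By continuity of both sides in `w₀` (the right side is Lipschitz: `|max 0 x - max 0 y| ≤ |x - y|`, `summable_cl`)
we may assume `w₀ > 0`. Put `z₀ = e^{iθ₀}`, `z_j = e^{t_j + iθ_j}`, `w'_j = w_j e^{-ρ t_j}` for `j = (t_j, θ_j) ∈ s`,
and for a cell `i = (a, b)`, `X_i = w₀ ∫ hat(s) kq(-η a - s, θ₀ - α_b) - ∑_j w'_j ∫ hat(s) kp(t_j - η a - s, θ_j - α_b)`,
so that the sum on the right of the claim is `P₀ = ∑_i e^{ρηa} max 0 X_i`.

(A) Let `ζ = e^{τ + iβ} ∈ XX p` (`β ∈ [0, π]`, `β ∈ {0, π}` if `p = 1`), `|τ - η a| ≤ η`, `|β - α_b| ≤ η`. For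
`|s| ≤ η`: `|η a + s - τ| + |α_b - β| ≤ 3 η ≤ 1`, so by `kd_lip` and `kp ≤ kq` (for `ζ ≠ z₀`, and a.e. `s`)
`w₀ KK p (z₀/ζ) - ∑_j w'_j KD p δ (z_j/ζ) ≤ X_i + (3 C η / δ) (w₀ mp(-η a - s..) + ∑_j w'_j mp(t_j - τ))`, and
`mp p (x + y) ≤ e^{2|y|} mp p x`; altogether the error is `≤ (K η / δ) (w₀ mp p (-m) + ∑_j w'_j mp p (t_j - m))`
with `m = ⌊η a⌋`.

(B) Extra points: `P_m = -i e^{m+3}`, `m ∈ ℤ` (`extra_point`): `KD p δ (P_m / ζ) ≥ 0` for all `ζ ∈ XX p`, and `≥ 1`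
if `τ ≤ m + 2`. Take the weights `y_m = ∑_{a : ⌊η a⌋ = m} ∑_b max 0 X_{(a,b)} + (K η / δ) (w₀ mp p (-m) +
∑_j w'_j mp p (t_j - m))`. By (A), for all `ζ ∈ XX p`, `ζ ≠ z₀`:
`w₀ KK p (z₀/ζ) ≤ ∑_j w'_j KD p δ (z_j/ζ) + ∑_m y_m KD p δ (P_m/ζ)`.
`∑_m y_m e^{ρ m} ≤ P₀ + (K η / δ) Cρ (w₀ + ∑_j w_j) < ∞` (`tsum_mp`; `e^{ρ m} ≤ e^{ρ η a}`).

(C) `RelSub.countable` with the index set `s ⊕ ℤ` (after division by `w₀`), and `avg_HH_le`:
`w₀ h(θ₀) ≤ ∑_j w_j (h(θ_j) + ε/2) + M e^{3ρ} ∑_m y_m e^{ρ m}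
  ≤ ∑_j w_j (h(θ_j) + ε) + w₀ ε / 2 + σ P₀`. This is the claim.
-/

namespace HBInd

open Complex Filter Topology Set MeasureTheory
open scoped Real

theorem extra_point {p : ℕ} (hp : p ≤ 1) {δ : ℝ} (hδ : δ ∈ Ioo (0 : ℝ) 1) {ζ : ℂ}
    (hζ : ζ ∈ XX p) (m : ℤ) :
    0 ≤ KD p δ (-(I * (Real.exp ((m : ℝ) + 3) : ℂ)) / ζ) ∧
      (‖ζ‖ ≤ Real.exp ((m : ℝ) + 2) → 1 ≤ KD p δ (-(I * (Real.exp ((m : ℝ) + 3) : ℂ)) / ζ)) := by
  obtain ⟨h0, h1, h2⟩ := hζ
  have hE : 0 < Real.exp ((m : ℝ) + 3) := Real.exp_pos _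
  set E : ℝ := Real.exp ((m : ℝ) + 3) with hEdef
  set w : ℂ := -(I * (E : ℂ)) / ζ with hw
  have hζn : 0 < ‖ζ‖ := norm_pos_iff.2 h0
  have hns : 0 < normSq ζ := normSq_pos.2 h0
  have hre : w.re = -(E * ζ.im / normSq ζ) := by
    rw [hw, Complex.div_re]; simp; ring
  have hre0 : w.re ≤ 0 := by
    rw [hre]
    have : 0 ≤ E * ζ.im / normSq ζ := by positivity
    linarith
  have hpre : (p : ℝ) * w.re = 0 := by
    rcases Nat.le_one_iff_eq_zero_or_eq_one.1 hp with rfl | rfl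
    · simp
    · rw [hre, h2 rfl]; simp
  have hn1 : 1 ≤ ‖1 - w‖ := by
    have h3 := Complex.abs_re_le_norm (1 - w)
    rw [Complex.sub_re, Complex.one_re] at h3
    have h4 := le_abs_self (1 - w.re)
    linarith
  have hn2 : ‖w‖ ≤ ‖1 - w‖ := by
    refine abs_le_of_sq_le_sq' ?_ (norm_nonneg _) |>.2
    rw [← Complex.normSq_eq_norm_sq, ← Complex.normSq_eq_norm_sq, Complex.normSq_apply,
      Complex.normSq_apply, Complex.sub_re, Complex.sub_im, Complex.one_re, Complex.one_im]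
    nlinarith
  have hKD : KD p δ w = Real.log (max ‖1 - w‖ (δ * ‖w‖)) := by
    rw [KD, hpre, add_zero]
  constructor
  · rw [hKD]; exact Real.log_nonneg (le_max_of_le_left hn1)
  · intro hz
    rw [hKD]
    have hwn : ‖w‖ = E / ‖ζ‖ := by
      rw [hw, norm_div, norm_neg, norm_mul, Complex.norm_I, one_mul, Complex.norm_real,
        Real.norm_of_nonneg hE.le]
    have h3 : Real.exp 1 ≤ ‖w‖ := by
      rw [hwn, le_div_iff₀ hζn]
      calc Real.exp 1 * ‖ζ‖ ≤ Real.exp 1 * Real.exp ((m : ℝ) + 2) := by gcongr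
        _ = E := by rw [← Real.exp_add, hEdef]; congr 1; ring
    have h4 : Real.exp 1 ≤ max ‖1 - w‖ (δ * ‖w‖) := le_max_of_le_left (h3.trans hn2)
    have := Real.log_le_log (Real.exp_pos 1) h4
    rwa [Real.log_exp] at this

theorem exp_neg_mul_mp_le {p : ℕ} {ρ : ℝ} (v : ℝ) :
    Real.exp (-ρ * v) * mp p v ≤ Real.exp (-(min (ρ - p) (p + 1 - ρ)) * |v|) := by
  set c := min (ρ - p) ((p : ℝ) + 1 - ρ) with hc
  have hc1 : c ≤ ρ - p := min_le_left _ _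
  have hc2 : c ≤ p + 1 - ρ := min_le_right _ _
  rcases le_total 0 v with hv | hv
  · rw [abs_of_nonneg hv]
    calc Real.exp (-ρ * v) * mp p v ≤ Real.exp (-ρ * v) * Real.exp (p * v) := by
          gcongr; exact min_le_left _ _
      _ = Real.exp (-ρ * v + p * v) := by rw [Real.exp_add]
      _ ≤ _ := Real.exp_le_exp.2 (by nlinarith)
  · rw [abs_of_nonpos hv]
    calc Real.exp (-ρ * v) * mp p v ≤ Real.exp (-ρ * v) * Real.exp ((p + 1) * v) := by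
          gcongr; exact min_le_right _ _
      _ = Real.exp (-ρ * v + (p + 1) * v) := by rw [Real.exp_add]
      _ ≤ _ := Real.exp_le_exp.2 (by nlinarith)

theorem mp_nonneg (p : ℕ) (v : ℝ) : 0 ≤ mp p v :=
  le_min (Real.exp_pos _).le (Real.exp_pos _).le

theorem summable_exp_abs {c : ℝ} (hc : 0 < c) : Summable fun m : ℤ => Real.exp (-c * |(m : ℝ)|) := by
  have h1 : Summable fun n : ℕ => (Real.exp (-c)) ^ n :=
    summable_geometric_of_lt_one (Real.exp_pos _).le (by rw [← Real.exp_zero]; exact Real.exp_lt_exp.2 (by linarith))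
  have h2 : ∀ n : ℕ, Real.exp (-c) ^ n = Real.exp (-c * |((n : ℤ) : ℝ)|) := by
    intro n
    rw [← Real.exp_nat_mul]
    congr 1
    simp
    ring
  refine Summable.of_nat_of_neg (h1.congr h2) (h1.congr fun n => ?_)
  rw [h2 n]
  congr 2
  simp

theorem tsum_mp {p : ℕ} {ρ : ℝ} (h1 : (p : ℝ) < ρ) (h2 : ρ < p + 1) :
    ∃ C : ℝ, 0 < C ∧ ∀ x : ℝ, (Summable fun m : ℤ => Real.exp (ρ * m) * mp p (x - m)) ∧
      ∑' m : ℤ, Real.exp (ρ * m) * mp p (x - m) ≤ C * Real.exp (ρ * x) := by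
  set c := min (ρ - p) ((p : ℝ) + 1 - ρ) with hcdef
  have hc : 0 < c := lt_min (by linarith) (by linarith)
  have hs := summable_exp_abs hc
  set B : ℝ := ∑' m : ℤ, Real.exp (-c * |(m : ℝ)|) with hB
  have hB0 : 0 ≤ B := tsum_nonneg fun m => (Real.exp_pos _).le
  refine ⟨Real.exp c * B + 1, by positivity, fun x => ?_⟩
  have hb : ∀ m : ℤ, Real.exp (ρ * m) * mp p (x - m) ≤
      Real.exp (ρ * x) * Real.exp c * Real.exp (-c * |((Equiv.subLeft ⌊x⌋ m : ℤ) : ℝ)|) := by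
    intro m
    have e1 := exp_neg_mul_mp_le (p := p) (ρ := ρ) (x - m)
    rw [← hcdef] at e1
    have e2 : Real.exp (ρ * m) * mp p (x - m) =
        Real.exp (ρ * x) * (Real.exp (-ρ * (x - m)) * mp p (x - m)) := by
      rw [← mul_assoc, ← Real.exp_add]
      congr 2
      ring
    rw [e2, mul_assoc]
    refine mul_le_mul_of_nonneg_left (e1.trans ?_) (Real.exp_pos _).le
    rw [← Real.exp_add]
    refine Real.exp_le_exp.2 ?_
    have e3 : (Equiv.subLeft ⌊x⌋ m : ℤ) = ⌊x⌋ - m := rfl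
    rw [e3]
    push_cast
    have e4 : |((⌊x⌋ : ℤ) : ℝ) - m| ≤ |x - m| + 1 := by
      have e5 : ((⌊x⌋ : ℤ) : ℝ) - m = (x - m) - (x - ⌊x⌋) := by ring
      rw [e5]
      refine (abs_sub _ _).trans ?_
      have e6 : |x - ⌊x⌋| ≤ 1 := by
        rw [abs_of_nonneg (by linarith [Int.floor_le x])]
        linarith [Int.lt_floor_add_one x]
      linarith
    nlinarith
  have hs' : Summable fun m : ℤ =>
      Real.exp (ρ * x) * Real.exp c * Real.exp (-c * |((Equiv.subLeft ⌊x⌋ m : ℤ) : ℝ)|) :=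
    ((Equiv.subLeft ⌊x⌋).summable_iff.2 hs).mul_left _
  have hnn : ∀ m : ℤ, 0 ≤ Real.exp (ρ * m) * mp p (x - m) := fun m =>
    mul_nonneg (Real.exp_pos _).le (mp_nonneg _ _)
  have hsum := Summable.of_nonneg_of_le hnn hb hs'
  refine ⟨hsum, ?_⟩
  calc ∑' m : ℤ, Real.exp (ρ * m) * mp p (x - m)
      ≤ ∑' m : ℤ, Real.exp (ρ * x) * Real.exp c *
          Real.exp (-c * |((Equiv.subLeft ⌊x⌋ m : ℤ) : ℝ)|) := hsum.tsum_le_tsum hb hs'
    _ = Real.exp (ρ * x) * Real.exp c * B := by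
        rw [tsum_mul_left, hB]
        congr 1
        exact (Equiv.subLeft ⌊x⌋).tsum_eq (fun m : ℤ => Real.exp (-c * |(m : ℝ)|))
    _ ≤ (Real.exp c * B + 1) * Real.exp (ρ * x) := by
        have := Real.exp_pos (ρ * x)
        nlinarith

theorem mp_add_le {p : ℕ} (hp : p ≤ 1) {x y B : ℝ} (hB : |x - y| ≤ B) :
    mp p x ≤ Real.exp (2 * B) * mp p y := by
  have hp' : (p : ℝ) ≤ 1 := by exact_mod_cast hp
  have hp0 : (0 : ℝ) ≤ p := Nat.cast_nonneg p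
  obtain ⟨h1, h2⟩ := abs_le.1 hB
  have hB0 : 0 ≤ B := (abs_nonneg _).trans hB
  rw [mp, mp, mul_min_of_nonneg _ _ (Real.exp_pos _).le, ← Real.exp_add, ← Real.exp_add]
  refine min_le_min (Real.exp_le_exp.2 ?_) (Real.exp_le_exp.2 ?_)
  · nlinarith
  · nlinarith

theorem exists_net {p : ℕ} (hp : p ≤ 1) {η : ℝ} (hη : 0 < η) :
    ∃ (n : ℕ) (α : Fin n → ℝ), (∀ b, α b ∈ Icc 0 π ∧ (p = 1 → α b = 0 ∨ α b = π)) ∧
      ∀ β ∈ Icc (0 : ℝ) π, (p = 1 → β = 0 ∨ β = π) → ∃ b, |β - α b| ≤ η := by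
  rcases Nat.le_one_iff_eq_zero_or_eq_one.1 hp with rfl | rfl
  · refine ⟨⌊π / η⌋₊ + 1, fun b => (b : ℕ) * η, fun b => ⟨⟨by positivity, ?_⟩, by simp⟩, ?_⟩
    · have h1 : ((b : ℕ) : ℝ) ≤ ⌊π / η⌋₊ := by exact_mod_cast Nat.lt_succ_iff.1 b.2
      have h2 := Nat.floor_le (a := π / η) (by positivity)
      have h3 : ((b : ℕ) : ℝ) ≤ π / η := h1.trans h2
      rwa [le_div_iff₀ hη] at h3
    · intro β hβ _
      have hle : β / η ≤ π / η := by gcongr; exact hβ.2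
      refine ⟨⟨⌊β / η⌋₊, Nat.lt_succ_iff.2 (Nat.floor_mono hle)⟩, ?_⟩
      have h1 := Nat.floor_le (a := β / η) (div_nonneg hβ.1 hη.le)
      have h2 := Nat.lt_floor_add_one (β / η)
      rw [le_div_iff₀ hη] at h1
      rw [div_lt_iff₀ hη] at h2
      simp only
      rw [abs_of_nonneg (by linarith)]
      nlinarith
  · refine ⟨2, ![0, π], ?_, ?_⟩
    · intro b
      fin_cases b
      · simp [Real.pi_pos.le]
      · simp [Real.pi_pos.le]
    · intro β _ h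
      rcases h rfl with rfl | rfl
      · exact ⟨0, by simp [hη.le]⟩
      · exact ⟨1, by simp [hη.le]⟩

theorem integrable_hat_mul {η : ℝ} (hη : 0 < η) {f : ℝ → ℝ} (hf : Continuous f) :
    Integrable fun s => hat η s * f s := by
  refine ((continuous_hat η).mul hf).integrable_of_hasCompactSupport ?_
  refine HasCompactSupport.intro (isCompact_Icc (a := -η) (b := η)) fun x hx => ?_
  change hat η x * f x = 0
  rw [hat_eq_zero hη, zero_mul]
  by_contra h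
  push Not at h
  exact hx ⟨(abs_lt.1 h).1.le, (abs_lt.1 h).2.le⟩

theorem dom_measurable_kp (p : ℕ) (ψ : ℝ) : Measurable fun u => kp p u ψ := by
  unfold kp KK
  fun_prop

theorem integrable_hat_kp {p : ℕ} (hp : p ≤ 1) {η : ℝ} (hη : 0 < η) (x ψ : ℝ) :
    Integrable fun s => hat η s * kp p (x - s) ψ := by
  have hg := integrable_PhiP (p := p) hp (ρ := p + 1 / 2) (by linarith) (by linarith)
  set ρ : ℝ := p + 1 / 2 with hρ
  have hρ0 : 0 < ρ := by positivity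
  have hg' := (hg.comp_sub_left x).const_mul (1 / η * Real.exp (ρ * (|x| + η)))
  refine hg'.mono' ?_ ?_
  · have := dom_measurable_kp p ψ
    have h2 := (continuous_hat η).measurable
    exact (h2.mul (this.comp (measurable_const.sub measurable_id))).aestronglyMeasurable
  · have hne : ∀ᵐ s : ℝ, s ≠ x := by
      have := (measure_singleton (μ := (volume : Measure ℝ)) x)
      exact compl_mem_ae_iff.2 this
    filter_upwards [hne] with s hs
    have hP := PhiP_nonneg p (x - s)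
    rcases le_or_gt η |s| with h | h
    · rw [hat_eq_zero hη h, zero_mul, norm_zero]
      positivity
    · rw [norm_mul, Real.norm_of_nonneg (hat_nonneg hη s), Real.norm_eq_abs]
      have h3 := abs_kp_le_PhiP hp (sub_ne_zero.2 (Ne.symm hs)) ψ
      have h4 : 1 ≤ Real.exp (ρ * (|x| + η)) * Real.exp (-ρ * (x - s)) := by
        rw [← Real.exp_add]
        refine Real.one_le_exp ?_
        have h5 : x - s ≤ |x| + η := by
          have := le_abs_self x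
          have := neg_abs_le s
          linarith
        nlinarith
      have h6 := hat_le hη s
      calc hat η s * |kp p (x - s) ψ| ≤ 1 / η * PhiP p (x - s) := by
            gcongr
        _ = 1 / η * PhiP p (x - s) * 1 * 1 := by ring
        _ ≤ 1 / η * PhiP p (x - s) * (1 + |x - s|) *
            (Real.exp (ρ * (|x| + η)) * Real.exp (-ρ * (x - s))) := by
            have : 0 ≤ |x - s| := abs_nonneg _
            gcongr
            linarith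
        _ = _ := by ring

/-- comparison of the cell with the point `e^{τ + iβ}`: lower kernel -/
theorem cell_kp {p : ℕ} (hp : p ≤ 1) {C₁ : ℝ} (hC₁ : 0 < C₁)
    (hlip : ∀ δ ∈ Ioo (0 : ℝ) 1, ∀ u u' ψ ψ' : ℝ,
      |u - u'| + |ψ - ψ'| ≤ 1 →
        kq p δ u ψ ≤ kq p δ u' ψ' + C₁ / δ * (|u - u'| + |ψ - ψ'|) * mp p u')
    {δ η : ℝ} (hδ : δ ∈ Ioo (0 : ℝ) 1) (hη : 0 < η) (hη1 : η ≤ 1 / 3)
    {A τ α β m : ℝ} (hA : |τ - A| ≤ η) (hα : |β - α| ≤ η) (hm : |A - m| ≤ 1) (t θ : ℝ) :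
    ∫ s : ℝ, hat η s * kp p (t - A - s) (θ - α) ≤
      kq p δ (t - τ) (θ - β) + 3 * C₁ * Real.exp 4 * η / δ * mp p (t - m) := by
  set B : ℝ := kq p δ (t - τ) (θ - β) + 3 * C₁ * Real.exp 4 * η / δ * mp p (t - m) with hB
  have h1 : ∫ s : ℝ, hat η s * kp p (t - A - s) (θ - α) ≤ ∫ s : ℝ, hat η s * B := by
    refine integral_mono_ae (integrable_hat_kp hp hη _ _) ((integrable_hat hη).mul_const B) ?_
    have hne : ∀ᵐ s : ℝ, s ≠ t - A := by
      have := (measure_singleton (μ := (volume : Measure ℝ)) (t - A))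
      exact compl_mem_ae_iff.2 this
    filter_upwards [hne] with s hs
    rcases le_or_gt η |s| with h | h
    · simp only [hat_eq_zero hη h, zero_mul, le_refl]
    · refine mul_le_mul_of_nonneg_left ?_ (hat_nonneg hη s)
      have h2 : kp p (t - A - s) (θ - α) ≤ kq p δ (t - A - s) (θ - α) :=
        kp_le_kq (sub_ne_zero.2 (Ne.symm hs)) _
      have h3 : |(t - A - s) - (t - τ)| + |(θ - α) - (θ - β)| ≤ 3 * η := by
        have e1 : (t - A - s) - (t - τ) = (τ - A) - s := by ring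
        have e2 : (θ - α) - (θ - β) = β - α := by ring
        rw [e1, e2]
        have := abs_sub (τ - A) s
        linarith
      have h4 := hlip δ hδ (t - A - s) (t - τ) (θ - α) (θ - β) (by linarith)
      have h5 : mp p (t - τ) ≤ Real.exp 4 * mp p (t - m) := by
        have : |(t - τ) - (t - m)| ≤ 2 := by
          have e1 : (t - τ) - (t - m) = -(τ - A) - (A - m) := by ring
          rw [e1]
          have := abs_sub (-(τ - A)) (A - m)
          rw [abs_neg] at this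
          linarith
        have := mp_add_le hp this
        norm_num at this
        exact this
      have h6 : C₁ / δ * (|(t - A - s) - (t - τ)| + |(θ - α) - (θ - β)|) * mp p (t - τ) ≤
          3 * C₁ * Real.exp 4 * η / δ * mp p (t - m) := by
        have hδ0 := hδ.1
        have hq := mp_nonneg p (t - τ)
        calc C₁ / δ * (|(t - A - s) - (t - τ)| + |(θ - α) - (θ - β)|) * mp p (t - τ)
            ≤ C₁ / δ * (3 * η) * (Real.exp 4 * mp p (t - m)) := by gcongr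
          _ = _ := by ring
      rw [hB]
      linarith
  rw [integral_mul_const, integral_hat hη, one_mul] at h1
  exact h1

/-- comparison of the cell with the point `e^{τ + iβ}`: regularised kernel -/
theorem cell_kq {p : ℕ} (hp : p ≤ 1) {C₁ : ℝ} (hC₁ : 0 < C₁)
    (hlip : ∀ δ ∈ Ioo (0 : ℝ) 1, ∀ u u' ψ ψ' : ℝ,
      |u - u'| + |ψ - ψ'| ≤ 1 →
        kq p δ u ψ ≤ kq p δ u' ψ' + C₁ / δ * (|u - u'| + |ψ - ψ'|) * mp p u')
    {δ η : ℝ} (hδ : δ ∈ Ioo (0 : ℝ) 1) (hη : 0 < η) (hη1 : η ≤ 1 / 3)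
    {A τ α β m : ℝ} (hA : |τ - A| ≤ η) (hα : |β - α| ≤ η) (hm : |A - m| ≤ 1) (θ : ℝ) :
    kq p δ (-τ) (θ - β) ≤ (∫ s : ℝ, hat η s * kq p δ (-A - s) (θ - α)) +
      3 * C₁ * Real.exp 4 * η / δ * mp p (-m) := by
  set B : ℝ := kq p δ (-τ) (θ - β) - 3 * C₁ * Real.exp 4 * η / δ * mp p (-m) with hB
  have h1 : ∫ s : ℝ, hat η s * B ≤ ∫ s : ℝ, hat η s * kq p δ (-A - s) (θ - α) := by
    refine integral_mono ((integrable_hat hη).mul_const B) (integrable_hat_mul hη ?_) ?_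
    · exact (continuous_kq hδ).comp (f := fun s : ℝ => ((-A - s, θ - α) : ℝ × ℝ)) (by fun_prop)
    intro s
    rcases le_or_gt η |s| with h | h
    · simp only [hat_eq_zero hη h, zero_mul, le_refl]
    · refine mul_le_mul_of_nonneg_left ?_ (hat_nonneg hη s)
      have h3 : |(-τ) - (-A - s)| + |(θ - β) - (θ - α)| ≤ 3 * η := by
        have e1 : (-τ) - (-A - s) = -(τ - A) + s := by ring
        have e2 : (θ - β) - (θ - α) = -(β - α) := by ring
        rw [e1, e2, abs_neg]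
        have := abs_add_le (-(τ - A)) s
        rw [abs_neg] at this
        linarith
      have h4 := hlip δ hδ (-τ) (-A - s) (θ - β) (θ - α) (by linarith)
      have h5 : mp p (-A - s) ≤ Real.exp 4 * mp p (-m) := by
        have : |(-A - s) - (-m)| ≤ 2 := by
          have e1 : (-A - s) - (-m) = -(A - m) - s := by ring
          rw [e1]
          have := abs_sub (-(A - m)) s
          rw [abs_neg] at this
          linarith
        have := mp_add_le hp this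
        norm_num at this
        exact this
      have h6 : C₁ / δ * (|(-τ) - (-A - s)| + |(θ - β) - (θ - α)|) * mp p (-A - s) ≤
          3 * C₁ * Real.exp 4 * η / δ * mp p (-m) := by
        have hδ0 := hδ.1
        have hq := mp_nonneg p (-A - s)
        calc C₁ / δ * (|(-τ) - (-A - s)| + |(θ - β) - (θ - α)|) * mp p (-A - s)
            ≤ C₁ / δ * (3 * η) * (Real.exp 4 * mp p (-m)) := by gcongr
          _ = _ := by ring
      rw [hB]
      linarith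
  rw [integral_mul_const, integral_hat hη, one_mul] at h1
  linarith

theorem dom_exists_bound {h : ℝ → ℝ} (hper : ∀ θ, h (θ + 2 * π) = h θ) (hc : Continuous h) :
    ∃ M : ℝ, 0 < M ∧ ∀ θ, |h θ| ≤ M := by
  obtain ⟨M, hM⟩ := (isCompact_Icc (a := (0 : ℝ)) (b := 2 * π)).exists_bound_of_continuousOn
    hc.continuousOn
  refine ⟨|M| + 1, by positivity, fun θ => ?_⟩
  have hp : Function.Periodic h (2 * π) := hper
  obtain ⟨y, hy, hxy⟩ := hp.exists_mem_Ico₀ Real.two_pi_pos θ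
  rw [hxy]
  have h1 := hM y ⟨hy.1, hy.2.le⟩
  rw [Real.norm_eq_abs] at h1
  linarith [le_abs_self M]

/-- a point of `XX p` in logarithmic coordinates -/
theorem exists_polar {p : ℕ} {ζ : ℂ} (hζ : ζ ∈ XX p) : ∃ τ β : ℝ, β ∈ Icc (0 : ℝ) π ∧
    (p = 1 → β = 0 ∨ β = π) ∧ ζ = Complex.exp ((τ : ℂ) + (β : ℂ) * I) := by
  obtain ⟨h0, h1, h2⟩ := hζ
  refine ⟨Real.log ‖ζ‖, arg ζ, ⟨Complex.arg_nonneg_iff.2 h1, Complex.arg_le_pi ζ⟩, ?_, ?_⟩
  · intro h
    have h3 := h2 h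
    rcases lt_trichotomy ζ.re 0 with h4 | h4 | h4
    · exact Or.inr (Complex.arg_eq_pi_iff.2 ⟨h4, h3⟩)
    · exact absurd (Complex.ext h4 h3) h0
    · exact Or.inl (Complex.arg_eq_zero_iff.2 ⟨h4.le, h3⟩)
  · exact (Complex.exp_log h0).symm

theorem dom_ray_eq_exp (t θ : ℝ) :
    ray (Real.exp t) θ = Complex.exp ((t : ℂ) + (θ : ℂ) * I) := by
  rw [ray, Complex.exp_add, Complex.ofReal_exp]

theorem ray_div (t θ τ β : ℝ) : ray (Real.exp t) θ / Complex.exp ((τ : ℂ) + (β : ℂ) * I) =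
    Complex.exp (((t - τ : ℝ) : ℂ) + ((θ - β : ℝ) : ℂ) * I) := by
  rw [dom_ray_eq_exp, ← Complex.exp_sub]
  congr 1
  push_cast
  ring

theorem KD_ray {p : ℕ} {δ : ℝ} (t θ τ β : ℝ) :
    KD p δ (ray (Real.exp t) θ / Complex.exp ((τ : ℂ) + (β : ℂ) * I)) =
      kq p δ (t - τ) (θ - β) := by
  rw [ray_div, kq]

theorem extra_eq (m : ℤ) : -(I * (Real.exp ((m : ℝ) + 3) : ℂ)) =
    ray (Real.exp ((m : ℝ) + 3)) (-(π / 2)) := by
  rw [ray]
  have : Complex.exp (((-(π / 2) : ℝ) : ℂ) * I) = -I := by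
    rw [Complex.exp_mul_I, ← Complex.ofReal_cos, ← Complex.ofReal_sin, Real.cos_neg,
      Real.sin_neg, Real.cos_pi_div_two, Real.sin_pi_div_two]
    simp
  rw [this]
  ring

/-- the data of a system of cells: the numbers `X` -/
noncomputable def XC (p : ℕ) (δ η : ℝ) {n : ℕ} (α : Fin n → ℝ) (s : Finset (ℝ × ℝ))
    (w' : ℝ × ℝ → ℝ) (w₀ θ₀ : ℝ) (i : ℤ × Fin n) : ℝ :=
  w₀ * (∫ s : ℝ, hat η s * kq p δ (-(η * i.1) - s) (θ₀ - α i.2)) -
    ∑ j ∈ s, w' j * ∫ s : ℝ, hat η s * kp p (j.1 - η * i.1 - s) (j.2 - α i.2)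

theorem XC_eq {p : ℕ} {ρ δ η : ℝ} {n : ℕ} (α : Fin n → ℝ) (s : Finset (ℝ × ℝ))
    (w : ℝ × ℝ → ℝ) (w₀ θ₀ : ℝ) (i : ℤ × Fin n) :
    w₀ * cl p ρ δ η (α i.2) i.1 θ₀ - ∑ j ∈ s, w j * cv p ρ η (α i.2) i.1 j.1 j.2 =
      Real.exp (ρ * (η * i.1)) *
        XC p δ η α s (fun j => w j * Real.exp (-ρ * j.1)) w₀ θ₀ i := by
  rw [XC, mul_sub, Finset.mul_sum, cl]
  congr 1
  · ring
  · refine Finset.sum_congr rfl fun j _ => ?_
    rw [cv]; ring

/-- the error at the integer radius `m` -/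
noncomputable def EC (p : ℕ) (κ : ℝ) (s : Finset (ℝ × ℝ)) (w' : ℝ × ℝ → ℝ) (w₀ : ℝ) (m : ℤ) : ℝ :=
  κ * (w₀ * mp p (-(m : ℝ)) + ∑ j ∈ s, w' j * mp p (j.1 - m))

theorem summable_X {p : ℕ} (hp : p ≤ 1) {ρ : ℝ} (h1 : (p : ℝ) < ρ) (h2 : ρ < p + 1)
    {δ η : ℝ} (hδ : δ ∈ Ioo (0 : ℝ) 1) (hη : 0 < η) {n : ℕ} (α : Fin n → ℝ)
    (s : Finset (ℝ × ℝ)) (w : ℝ × ℝ → ℝ) (w₀ θ₀ : ℝ) :
    Summable fun i : ℤ × Fin n => |w₀ * cl p ρ δ η (α i.2) i.1 θ₀ -
            ∑ j ∈ s, w j * cv p ρ η (α i.2) i.1 j.1 j.2| := by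
  have key : ∀ f : ℤ → Fin n → ℝ, (∀ b, Summable fun a => |f a b|) →
      Summable fun i : ℤ × Fin n => |f i.1 i.2| := by
    intro f hf
    refine (summable_prod_of_nonneg (fun i => abs_nonneg _)).2 ⟨fun a => ?_, ?_⟩
    · exact (hasSum_fintype _).summable
    · simp only [tsum_fintype]
      exact summable_sum fun b _ => hf b
  have s1 := key (fun a b => cl p ρ δ η (α b) a θ₀) (fun b => summable_cl hp h1 h2 hδ hη _ _)
  have s2 : ∀ j : ℝ × ℝ, Summable fun i : ℤ × Fin n => |cv p ρ η (α i.2) i.1 j.1 j.2| :=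
    fun j => key (fun a b => cv p ρ η (α b) a j.1 j.2) (fun b => summable_cv hp h1 h2 hη _ _ _)
  have s3 : Summable fun i : ℤ × Fin n => |w₀| * |cl p ρ δ η (α i.2) i.1 θ₀| +
      ∑ j ∈ s, |w j| * |cv p ρ η (α i.2) i.1 j.1 j.2| :=
    (s1.mul_left _).add (summable_sum fun j _ => (s2 j).mul_left _)
  refine Summable.of_nonneg_of_le (fun i => abs_nonneg _) (fun i => ?_) s3
  refine (abs_sub _ _).trans ?_
  rw [abs_mul]
  refine add_le_add le_rfl ((Finset.abs_sum_le_sum_abs _ _).trans (le_of_eq ?_))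
  exact Finset.sum_congr rfl fun j _ => abs_mul _ _

theorem tsum_elim3 {A B C : Type} {f : A → ℝ} {g : B → ℝ} {k : C → ℝ} (hf : Summable f)
    (hg : Summable g) (hk : Summable k) :
    Summable (Sum.elim f (Sum.elim g k)) ∧
      ∑' x, Sum.elim f (Sum.elim g k) x = ∑' a, f a + (∑' b, g b + ∑' c, k c) := by
  have h1 : HasSum (Sum.elim g k) (∑' b, g b + ∑' c, k c) :=
    HasSum.sum (f := Sum.elim g k) hg.hasSum hk.hasSum
  have h2 : HasSum (Sum.elim f (Sum.elim g k)) (∑' a, f a + (∑' b, g b + ∑' c, k c)) :=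
    HasSum.sum (f := Sum.elim f (Sum.elim g k)) hf.hasSum h1
  exact ⟨h2.summable, h2.tsum_eq⟩

theorem domination_pos {p : ℕ} (hp : p ≤ 1) {ρ : ℝ} (h1 : (p : ℝ) < ρ) (h2 : ρ < p + 1)
    {h : ℝ → ℝ} (hper : ∀ θ, h (θ + 2 * π) = h θ) (hrel : RelSub p ρ h)
    (θ₀ : ℝ) {ε : ℝ} (hε : 0 < ε) {M : ℝ} (hM : 0 < M) (hhM : ∀ θ, |h θ| ≤ M)
    {δ : ℝ} (hδ : δ ∈ Ioo (0 : ℝ) 1)
    (havg : ∀ r : ℝ, 0 < r → ∀ θ : ℝ,
        |Real.circleAverage (HH ρ h) (ray r θ) (δ * r) - r ^ ρ * h θ| ≤ r ^ ρ * (ε / 2))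
    {C₁ : ℝ} (hC₁ : 0 < C₁)
    (hlip : ∀ δ ∈ Ioo (0 : ℝ) 1, ∀ u u' ψ ψ' : ℝ,
      |u - u'| + |ψ - ψ'| ≤ 1 →
        kq p δ u ψ ≤ kq p δ u' ψ' + C₁ / δ * (|u - u'| + |ψ - ψ'|) * mp p u')
    {Cρ : ℝ} (hCρ : 0 < Cρ)
    (htm : ∀ x : ℝ, (Summable fun m : ℤ => Real.exp (ρ * m) * mp p (x - m)) ∧
      ∑' m : ℤ, Real.exp (ρ * m) * mp p (x - m) ≤ Cρ * Real.exp (ρ * x))
    {η : ℝ} (hη : 0 < η) (hη1 : η ≤ 1 / 3)
    (hη2 : (M + ε) * Real.exp (3 * ρ) * (3 * C₁ * Real.exp 4 * η / δ) * Cρ ≤ ε / 2)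
    {n : ℕ} {α : Fin n → ℝ}
    (hnet : ∀ β ∈ Icc (0 : ℝ) π, (p = 1 → β = 0 ∨ β = π) → ∃ b, |β - α b| ≤ η)
    (s : Finset (ℝ × ℝ)) {w : ℝ × ℝ → ℝ} {w₀ : ℝ} (hw : ∀ j, 0 ≤ w j) (hw₀ : 0 < w₀) :
    w₀ * (h θ₀ - ε) - ∑ j ∈ s, w j * (h j.2 + ε) ≤
          ((M + ε) * Real.exp (3 * ρ)) * ∑' i : ℤ × Fin n, max 0 (w₀ * cl p ρ δ η (α i.2) i.1 θ₀ -
            ∑ j ∈ s, w j * cv p ρ η (α i.2) i.1 j.1 j.2) := by
  classical
  have hρ0 : 0 < ρ := lt_of_le_of_lt (Nat.cast_nonneg p) h1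
  set κ : ℝ := 3 * C₁ * Real.exp 4 * η / δ with hκ
  have hδ0 := hδ.1
  have hκ0 : 0 < κ := by positivity
  set w' : ℝ × ℝ → ℝ := fun j => w j * Real.exp (-ρ * j.1) with hw'def
  have hw' : ∀ j, 0 ≤ w' j := fun j => mul_nonneg (hw j) (Real.exp_pos _).le
  set X : ℤ × Fin n → ℝ := XC p δ η α s w' w₀ θ₀ with hX
  set E : ℤ → ℝ := EC p κ s w' w₀ with hE
  have hE0 : ∀ m, 0 ≤ E m := by
    intro m
    rw [hE, EC]
    have h3 := mp_nonneg p (-(m : ℝ))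
    have h4 : 0 ≤ ∑ j ∈ s, w' j * mp p (j.1 - m) :=
      Finset.sum_nonneg fun j _ => mul_nonneg (hw' j) (mp_nonneg _ _)
    positivity
  set P : ℤ → ℂ := fun m => -(I * (Real.exp ((m : ℝ) + 3) : ℂ)) with hP
  have hPn : ∀ m, ‖P m‖ = Real.exp ((m : ℝ) + 3) := by
    intro m
    rw [hP]
    simp only
    rw [extra_eq, norm_ray (Real.exp_pos _).le]
  have hP0 : ∀ m, P m ≠ 0 := by
    intro m h0
    have := hPn m
    rw [h0, norm_zero] at this
    exact (Real.exp_pos _).ne this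
  -- the sum `P₀`
  have hXeq : ∀ i : ℤ × Fin n, w₀ * cl p ρ δ η (α i.2) i.1 θ₀ -
      ∑ j ∈ s, w j * cv p ρ η (α i.2) i.1 j.1 j.2 = Real.exp (ρ * (η * i.1)) * X i :=
    fun i => XC_eq α s w w₀ θ₀ i
  have hsumX := summable_X hp h1 h2 hδ hη α s w w₀ θ₀
  have hmax : ∀ i : ℤ × Fin n, max 0 (Real.exp (ρ * (η * i.1)) * X i) =
      Real.exp (ρ * (η * i.1)) * max 0 (X i) := by
    intro i
    rw [mul_max_of_nonneg _ _ (Real.exp_pos _).le, mul_zero]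
  have hsumX' : Summable fun i : ℤ × Fin n => Real.exp (ρ * (η * i.1)) * max 0 (X i) := by
    refine Summable.of_nonneg_of_le (fun i => ?_) (fun i => ?_) hsumX
    · exact mul_nonneg (Real.exp_pos _).le (le_max_left _ _)
    · rw [← hmax, hXeq]
      exact max_le (abs_nonneg _) (le_abs_self _)
  have hfl : ∀ i : ℤ × Fin n, Real.exp (ρ * (⌊η * i.1⌋ : ℝ)) ≤ Real.exp (ρ * (η * i.1)) := by
    intro i
    refine Real.exp_le_exp.2 (mul_le_mul_of_nonneg_left (Int.floor_le _) hρ0.le)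
  have hsumXf : Summable fun i : ℤ × Fin n => Real.exp (ρ * (⌊η * i.1⌋ : ℝ)) * max 0 (X i) := by
    refine Summable.of_nonneg_of_le (fun i => ?_) (fun i => ?_) hsumX'
    · exact mul_nonneg (Real.exp_pos _).le (le_max_left _ _)
    · exact mul_le_mul_of_nonneg_right (hfl i) (le_max_left _ _)
  -- the sum of the errors
  have hEs : (Summable fun m : ℤ => Real.exp (ρ * m) * E m) ∧
      ∑' m : ℤ, Real.exp (ρ * m) * E m ≤ κ * Cρ * (w₀ + ∑ j ∈ s, w j) := by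
    obtain ⟨t1, t2⟩ := htm 0
    simp only [zero_sub, mul_zero, Real.exp_zero, mul_one] at t1 t2
    have t3 : ∀ j : ℝ × ℝ, Summable fun m : ℤ => w' j * (Real.exp (ρ * m) * mp p (j.1 - m)) :=
      fun j => (htm j.1).1.mul_left _
    have t4 : ∀ j : ℝ × ℝ, ∑' m : ℤ, w' j * (Real.exp (ρ * m) * mp p (j.1 - m)) ≤ Cρ * w j := by
      intro j
      rw [tsum_mul_left]
      calc w' j * ∑' m : ℤ, Real.exp (ρ * m) * mp p (j.1 - m)
          ≤ w' j * (Cρ * Real.exp (ρ * j.1)) :=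
            mul_le_mul_of_nonneg_left (htm j.1).2 (hw' j)
        _ = Cρ * w j * (Real.exp (-ρ * j.1) * Real.exp (ρ * j.1)) := by
            rw [hw'def]; ring
        _ = Cρ * w j := by
            rw [← Real.exp_add]
            have : -ρ * j.1 + ρ * j.1 = 0 := by ring
            rw [this, Real.exp_zero, mul_one]
    have t5 : Summable fun m : ℤ => ∑ j ∈ s, w' j * (Real.exp (ρ * m) * mp p (j.1 - m)) :=
      summable_sum fun j _ => t3 j
    have t6 : ∀ m : ℤ, Real.exp (ρ * m) * E m = κ * (w₀ * (Real.exp (ρ * m) * mp p (-(m : ℝ))) +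
        ∑ j ∈ s, w' j * (Real.exp (ρ * m) * mp p (j.1 - m))) := by
      intro m
      rw [hE, EC, mul_left_comm, mul_add (Real.exp _), Finset.mul_sum, mul_left_comm]
      congr 2
      exact Finset.sum_congr rfl fun j _ => by ring
    have t7 := (t1.mul_left w₀).add t5
    constructor
    · exact (t7.mul_left κ).congr fun m => (t6 m).symm
    · rw [tsum_congr t6, tsum_mul_left, (t1.mul_left w₀).tsum_add t5, tsum_mul_left,
        Summable.tsum_finsetSum fun j _ => t3 j, mul_assoc]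
      refine mul_le_mul_of_nonneg_left ?_ hκ0.le
      rw [mul_add]
      refine add_le_add ?_ ?_
      · calc w₀ * _ ≤ w₀ * Cρ := mul_le_mul_of_nonneg_left t2 hw₀.le
          _ = Cρ * w₀ := mul_comm _ _
      · rw [Finset.mul_sum]
        exact Finset.sum_le_sum fun j _ => t4 j
  -- the system
  let ι : Type := s ⊕ ((ℤ × Fin n) ⊕ ℤ)
  let W : ι → ℝ := Sum.elim (fun j : s => w' j) (Sum.elim (fun i => max 0 (X i)) E)
  let Z : ι → ℂ := Sum.elim (fun j : s => ray (Real.exp (j : ℝ × ℝ).1) (j : ℝ × ℝ).2)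
    (Sum.elim (fun i => P ⌊η * i.1⌋) P)
  have hW : ∀ k, 0 ≤ W k := by
    rintro (j | i | m)
    · exact hw' j
    · exact le_max_left _ _
    · exact hE0 m
  have hZ : ∀ k, Z k ≠ 0 := by
    rintro (j | i | m)
    · change ray (Real.exp (j : ℝ × ℝ).1) (j : ℝ × ℝ).2 ≠ 0
      intro h0
      have := norm_ray (Real.exp_pos (j : ℝ × ℝ).1).le (j : ℝ × ℝ).2
      rw [h0, norm_zero] at this
      exact (Real.exp_pos _).ne this
    · exact hP0 _
    · exact hP0 _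
  -- comparison of sums over `ι`
  have hcomp : ∀ (f : ι → ℝ), Summable (fun i : ℤ × Fin n => f (Sum.inr (Sum.inl i))) →
      Summable (fun m : ℤ => f (Sum.inr (Sum.inr m))) → Summable f ∧
      ∑' k, f k = ∑ j : s, f (Sum.inl j) + (∑' i : ℤ × Fin n, f (Sum.inr (Sum.inl i)) +
        ∑' m : ℤ, f (Sum.inr (Sum.inr m))) := by
    intro f hf1 hf2
    have e1 : f = Sum.elim (fun j : s => f (Sum.inl j)) (Sum.elim
        (fun i => f (Sum.inr (Sum.inl i))) (fun m => f (Sum.inr (Sum.inr m)))) := by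
      funext k
      rcases k with j | i | m <;> rfl
    have e2 := tsum_elim3 (f := fun j : s => f (Sum.inl j)) (hasSum_fintype _).summable hf1 hf2
    have e3 : ∑' j : s, f (Sum.inl j) = ∑ j : s, f (Sum.inl j) := tsum_fintype _
    rw [← e1, e3] at e2
    exact e2
  have hPpow : ∀ m : ℤ, ‖P m‖ ^ ρ = Real.exp (3 * ρ) * Real.exp (ρ * m) := by
    intro m
    rw [hPn, ← Real.exp_mul, ← Real.exp_add]
    congr 1
    ring
  have hsumW : Summable fun k => W k * ‖Z k‖ ^ ρ := by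
    refine (hcomp (fun k => W k * ‖Z k‖ ^ ρ) ?_ ?_).1
    · refine (hsumXf.mul_left (Real.exp (3 * ρ))).congr fun i => ?_
      change _ = max 0 (X i) * ‖P ⌊η * i.1⌋‖ ^ ρ
      rw [hPpow]; ring
    · refine (hEs.1.mul_left (Real.exp (3 * ρ))).congr fun m => ?_
      change _ = E m * ‖P m‖ ^ ρ
      rw [hPpow]; ring
  -- the averages
  have hHH0 : HH ρ h (ray 1 θ₀) = h θ₀ := by
    rw [HH_ray hper one_pos, Real.one_rpow, one_mul]
  have havgP : ∀ m : ℤ, |Real.circleAverage (HH ρ h) (P m) (δ * ‖P m‖)| ≤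
      (M + ε) * Real.exp (3 * ρ) * Real.exp (ρ * m) := by
    intro m
    have h3 := havg (Real.exp ((m : ℝ) + 3)) (Real.exp_pos _) (-(π / 2))
    have e1 : P m = ray (Real.exp ((m : ℝ) + 3)) (-(π / 2)) := extra_eq m
    have e2 : Real.exp ((m : ℝ) + 3) ^ ρ = Real.exp (3 * ρ) * Real.exp (ρ * m) := by
      rw [← hPpow, hPn]
    rw [← e1, e2, ← hPn m] at h3
    have h4 := hhM (-(π / 2))
    have h5 : 0 < Real.exp (3 * ρ) * Real.exp (ρ * m) := by positivity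
    have h6 : |Real.exp (3 * ρ) * Real.exp (ρ * m) * h (-(π / 2))| ≤
        Real.exp (3 * ρ) * Real.exp (ρ * m) * M := by
      rw [abs_mul, abs_of_pos h5]
      exact mul_le_mul_of_nonneg_left h4 h5.le
    have h7 := abs_sub_abs_le_abs_sub (Real.circleAverage (HH ρ h) (P m) (δ * ‖P m‖))
      (Real.exp (3 * ρ) * Real.exp (ρ * m) * h (-(π / 2)))
    nlinarith
  -- the inequality from relative subharmonicity
  have hmain : HH ρ h (ray 1 θ₀) ≤
      ∑' k, W k / w₀ * Real.circleAverage (HH ρ h) (Z k) (δ * ‖Z k‖) := by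
    refine hrel.countable hδ ?_ (fun k => W k / w₀) Z (fun k => div_nonneg (hW k) hw₀.le) hZ ?_ ?_
    · intro h0
      have := norm_ray (zero_le_one (α := ℝ)) θ₀
      rw [h0, norm_zero] at this
      exact zero_ne_one this
    · refine (hsumW.mul_left (1 / w₀)).congr fun k => ?_
      ring
    intro ζ hζ hζ0
    obtain ⟨τ, β, hβ, hβ1, rfl⟩ := exists_polar hζ
    have hnorm : ‖Complex.exp ((τ : ℂ) + (β : ℂ) * I)‖ = Real.exp τ := norm_expw τ β
    obtain ⟨b, hb⟩ := hnet β hβ hβ1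
    set a : ℤ := ⌊τ / η⌋ with ha
    set m : ℤ := ⌊η * (a : ℝ)⌋ with hm
    have ha1 : |τ - η * a| ≤ η := by
      have e1 := Int.floor_le (τ / η)
      have e2 := Int.lt_floor_add_one (τ / η)
      rw [← ha] at e1 e2
      rw [le_div_iff₀ hη] at e1
      rw [div_lt_iff₀ hη] at e2
      rw [abs_of_nonneg (by linarith)]
      nlinarith
    have hm1 : |η * (a : ℝ) - m| ≤ 1 := by
      have e1 := Int.floor_le (η * (a : ℝ))
      have e2 := Int.lt_floor_add_one (η * (a : ℝ))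
      rw [← hm] at e1 e2
      rw [abs_of_nonneg (by linarith)]
      linarith
    have hτm : τ ≤ m + 2 := by
      have e1 := (abs_le.1 ha1).2
      have e2 := (abs_le.1 hm1).2
      linarith
    -- the left side
    have hL : KK p (ray 1 θ₀ / Complex.exp ((τ : ℂ) + (β : ℂ) * I)) ≤ kq p δ (-τ) (θ₀ - β) := by
      have e1 : ray 1 θ₀ / Complex.exp ((τ : ℂ) + (β : ℂ) * I) =
          Complex.exp (((0 - τ : ℝ) : ℂ) + ((θ₀ - β : ℝ) : ℂ) * I) := by
        rw [← ray_div, Real.exp_zero]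
      have e2 : ray 1 θ₀ / Complex.exp ((τ : ℂ) + (β : ℂ) * I) ≠ 1 := by
        intro h0
        rw [div_eq_one_iff_eq (Complex.exp_ne_zero _)] at h0
        exact hζ0 h0.symm
      refine (KK_le_KD (δ := δ) e2).trans (le_of_eq ?_)
      rw [e1, kq, zero_sub]
    have hcell0 := cell_kq hp hC₁ hlip hδ hη hη1 ha1 hb hm1 θ₀
    have hcell : ∀ j : ℝ × ℝ, _ := fun j =>
      cell_kp hp hC₁ hlip hδ hη hη1 ha1 hb hm1 j.1 j.2
    rw [← hκ] at hcell0
    simp only [← hκ] at hcell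
    -- (A)
    have hA : w₀ * kq p δ (-τ) (θ₀ - β) ≤
        ∑ j ∈ s, w' j * kq p δ (j.1 - τ) (j.2 - β) + (max 0 (X (a, b)) + E m) := by
      have e1 : w₀ * kq p δ (-τ) (θ₀ - β) ≤ w₀ * ((∫ s : ℝ, hat η s *
          kq p δ (-(η * (a : ℝ)) - s) (θ₀ - α b)) + κ * mp p (-(m : ℝ))) :=
        mul_le_mul_of_nonneg_left hcell0 hw₀.le
      have e2 : ∑ j ∈ s, w' j * ∫ s : ℝ, hat η s * kp p (j.1 - η * (a : ℝ) - s) (j.2 - α b) ≤
          ∑ j ∈ s, w' j * (kq p δ (j.1 - τ) (j.2 - β) + κ * mp p (j.1 - m)) :=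
        Finset.sum_le_sum fun j _ => mul_le_mul_of_nonneg_left (hcell j) (hw' j)
      have e3 : ∑ j ∈ s, w' j * (kq p δ (j.1 - τ) (j.2 - β) + κ * mp p (j.1 - m)) =
          ∑ j ∈ s, w' j * kq p δ (j.1 - τ) (j.2 - β) + κ * ∑ j ∈ s, w' j * mp p (j.1 - m) := by
        rw [Finset.mul_sum, ← Finset.sum_add_distrib]
        exact Finset.sum_congr rfl fun j _ => by ring
      have e4 : X (a, b) = w₀ * (∫ s : ℝ, hat η s * kq p δ (-(η * (a : ℝ)) - s) (θ₀ - α b)) -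
          ∑ j ∈ s, w' j * ∫ s : ℝ, hat η s * kp p (j.1 - η * (a : ℝ) - s) (j.2 - α b) := rfl
      have e5 : E m = κ * (w₀ * mp p (-(m : ℝ)) + ∑ j ∈ s, w' j * mp p (j.1 - m)) := rfl
      have e6 := le_max_right 0 (X (a, b))
      rw [e3] at e2
      rw [e5]
      rw [e4] at e6
      rw [e4]
      linarith
    -- the right side
    have hKDP : ∀ m' : ℤ, 0 ≤ KD p δ (P m' / Complex.exp ((τ : ℂ) + (β : ℂ) * I)) :=
      fun m' => (extra_point hp hδ hζ m').1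
    have hKDP1 : 1 ≤ KD p δ (P m / Complex.exp ((τ : ℂ) + (β : ℂ) * I)) :=
      (extra_point hp hδ hζ m).2 (by rw [hnorm]; exact Real.exp_le_exp.2 hτm)
    obtain ⟨C₂, hC₂, hbd⟩ := abs_kq_le hp hδ h1 h2
    have hKDle : ∀ m' : ℤ, KD p δ (P m' / Complex.exp ((τ : ℂ) + (β : ℂ) * I)) ≤
        C₂ * Real.exp (ρ * (3 - τ)) * Real.exp (ρ * m') := by
      intro m'
      have e1 : P m' = ray (Real.exp ((m' : ℝ) + 3)) (-(π / 2)) := extra_eq m'
      rw [e1, KD_ray]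
      refine (le_abs_self _).trans ((hbd _ _).trans (le_of_eq ?_))
      rw [mul_assoc, ← Real.exp_add]
      congr 2
      ring
    have hs1 : Summable fun i : ℤ × Fin n => max 0 (X i) / w₀ *
        KD p δ (P ⌊η * i.1⌋ / Complex.exp ((τ : ℂ) + (β : ℂ) * I)) := by
      refine Summable.of_nonneg_of_le (fun i => ?_) (fun i => ?_)
        (hsumXf.mul_left (C₂ * Real.exp (ρ * (3 - τ)) / w₀))
      · exact mul_nonneg (div_nonneg (le_max_left _ _) hw₀.le) (hKDP _)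
      · calc max 0 (X i) / w₀ * KD p δ (P ⌊η * i.1⌋ / Complex.exp ((τ : ℂ) + (β : ℂ) * I))
            ≤ max 0 (X i) / w₀ * (C₂ * Real.exp (ρ * (3 - τ)) * Real.exp (ρ * ⌊η * i.1⌋)) :=
              mul_le_mul_of_nonneg_left (hKDle _) (div_nonneg (le_max_left _ _) hw₀.le)
          _ = _ := by ring
    have hs2 : Summable fun m' : ℤ => E m' / w₀ *
        KD p δ (P m' / Complex.exp ((τ : ℂ) + (β : ℂ) * I)) := by
      refine Summable.of_nonneg_of_le (fun i => ?_) (fun i => ?_)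
        (hEs.1.mul_left (C₂ * Real.exp (ρ * (3 - τ)) / w₀))
      · exact mul_nonneg (div_nonneg (hE0 _) hw₀.le) (hKDP _)
      · calc E i / w₀ * KD p δ (P i / Complex.exp ((τ : ℂ) + (β : ℂ) * I))
            ≤ E i / w₀ * (C₂ * Real.exp (ρ * (3 - τ)) * Real.exp (ρ * i)) :=
              mul_le_mul_of_nonneg_left (hKDle _) (div_nonneg (hE0 _) hw₀.le)
          _ = _ := by ring
    have hs3 := hcomp (fun k => W k / w₀ * KD p δ (Z k / Complex.exp ((τ : ℂ) + (β : ℂ) * I)))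
      hs1 hs2
    rw [hs3.2]
    have hs4 : max 0 (X (a, b)) / w₀ ≤ ∑' i : ℤ × Fin n, max 0 (X i) / w₀ *
        KD p δ (P ⌊η * i.1⌋ / Complex.exp ((τ : ℂ) + (β : ℂ) * I)) := by
      refine le_trans ?_ (hs1.le_tsum (a, b) fun i _ =>
        mul_nonneg (div_nonneg (le_max_left _ _) hw₀.le) (hKDP _))
      exact le_mul_of_one_le_right (div_nonneg (le_max_left _ _) hw₀.le) hKDP1
    have hs5 : E m / w₀ ≤ ∑' m' : ℤ, E m' / w₀ *
        KD p δ (P m' / Complex.exp ((τ : ℂ) + (β : ℂ) * I)) := by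
      refine le_trans ?_ (hs2.le_tsum m fun i _ =>
        mul_nonneg (div_nonneg (hE0 _) hw₀.le) (hKDP _))
      exact le_mul_of_one_le_right (div_nonneg (hE0 _) hw₀.le) hKDP1
    have hs6 : ∑ j : s, W (Sum.inl j) / w₀ *
        KD p δ (Z (Sum.inl j) / Complex.exp ((τ : ℂ) + (β : ℂ) * I)) =
        (∑ j ∈ s, w' j * kq p δ (j.1 - τ) (j.2 - β)) / w₀ := by
      rw [Finset.sum_div, ← Finset.sum_coe_sort s]
      refine Finset.sum_congr rfl fun j _ => ?_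
      change w' j / w₀ * KD p δ (ray (Real.exp (j : ℝ × ℝ).1) (j : ℝ × ℝ).2 /
        Complex.exp ((τ : ℂ) + (β : ℂ) * I)) = _
      rw [KD_ray]; ring
    rw [hs6]
    have hA' : kq p δ (-τ) (θ₀ - β) ≤ (∑ j ∈ s, w' j * kq p δ (j.1 - τ) (j.2 - β)) / w₀ +
        (max 0 (X (a, b)) / w₀ + E m / w₀) := by
      rw [← add_div, ← add_div, le_div_iff₀ hw₀]
      linarith
    refine hL.trans (hA'.trans ?_)
    exact add_le_add le_rfl (add_le_add hs4 hs5)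
  -- conclusion
  rw [hHH0] at hmain
  have hu1 : Summable fun i : ℤ × Fin n => max 0 (X i) *
      Real.circleAverage (HH ρ h) (P ⌊η * i.1⌋) (δ * ‖P ⌊η * i.1⌋‖) := by
    refine Summable.of_norm_bounded (hsumXf.mul_left ((M + ε) * Real.exp (3 * ρ))) fun i => ?_
    rw [norm_mul, Real.norm_of_nonneg (le_max_left _ _), Real.norm_eq_abs]
    calc _ ≤ max 0 (X i) * ((M + ε) * Real.exp (3 * ρ) * Real.exp (ρ * (⌊η * i.1⌋ : ℤ))) :=
          mul_le_mul_of_nonneg_left (havgP _) (le_max_left _ _)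
      _ = _ := by ring
  have hu2 : Summable fun m : ℤ => E m *
      Real.circleAverage (HH ρ h) (P m) (δ * ‖P m‖) := by
    refine Summable.of_norm_bounded (hEs.1.mul_left ((M + ε) * Real.exp (3 * ρ))) fun i => ?_
    rw [norm_mul, Real.norm_of_nonneg (hE0 i), Real.norm_eq_abs]
    calc _ ≤ E i * ((M + ε) * Real.exp (3 * ρ) * Real.exp (ρ * i)) :=
          mul_le_mul_of_nonneg_left (havgP _) (hE0 i)
      _ = _ := by ring
  have hu3 := hcomp (fun k => W k * Real.circleAverage (HH ρ h) (Z k) (δ * ‖Z k‖)) hu1 hu2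
  have hmain2 : w₀ * h θ₀ ≤ ∑' k, W k * Real.circleAverage (HH ρ h) (Z k) (δ * ‖Z k‖) := by
    have e1 : ∀ k, W k / w₀ * Real.circleAverage (HH ρ h) (Z k) (δ * ‖Z k‖) =
        1 / w₀ * (W k * Real.circleAverage (HH ρ h) (Z k) (δ * ‖Z k‖)) := fun k => by ring
    rw [tsum_congr e1, tsum_mul_left, one_div, inv_mul_eq_div, le_div_iff₀ hw₀] at hmain
    linarith
  rw [hu3.2] at hmain2
  -- the three parts
  have v1 : ∑ j : s, W (Sum.inl j) * Real.circleAverage (HH ρ h) (Z (Sum.inl j))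
      (δ * ‖Z (Sum.inl j)‖) ≤ ∑ j ∈ s, w j * (h j.2 + ε / 2) := by
    rw [← Finset.sum_coe_sort s]
    refine Finset.sum_le_sum fun j _ => ?_
    change w' j * Real.circleAverage (HH ρ h) (ray (Real.exp (j : ℝ × ℝ).1) (j : ℝ × ℝ).2)
      (δ * ‖ray (Real.exp (j : ℝ × ℝ).1) (j : ℝ × ℝ).2‖) ≤ _
    rw [norm_ray (Real.exp_pos _).le]
    have h3 := (abs_le.1 (havg (Real.exp (j : ℝ × ℝ).1) (Real.exp_pos _) (j : ℝ × ℝ).2)).2
    have h4 : Real.exp (j : ℝ × ℝ).1 ^ ρ = Real.exp (ρ * (j : ℝ × ℝ).1) := by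
      rw [← Real.exp_mul, mul_comm]
    rw [h4] at h3
    have h5 : Real.exp (-ρ * (j : ℝ × ℝ).1) * Real.exp (ρ * (j : ℝ × ℝ).1) = 1 := by
      rw [← Real.exp_add]
      have : -ρ * (j : ℝ × ℝ).1 + ρ * (j : ℝ × ℝ).1 = 0 := by ring
      rw [this, Real.exp_zero]
    calc w' j * Real.circleAverage (HH ρ h) (ray (Real.exp (j : ℝ × ℝ).1) (j : ℝ × ℝ).2)
          (δ * Real.exp (j : ℝ × ℝ).1)
        ≤ w' j * (Real.exp (ρ * (j : ℝ × ℝ).1) * h (j : ℝ × ℝ).2 +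
          Real.exp (ρ * (j : ℝ × ℝ).1) * (ε / 2)) :=
          mul_le_mul_of_nonneg_left (by linarith) (hw' j)
      _ = w j * (h (j : ℝ × ℝ).2 + ε / 2) *
          (Real.exp (-ρ * (j : ℝ × ℝ).1) * Real.exp (ρ * (j : ℝ × ℝ).1)) := by
          rw [hw'def]; ring
      _ = _ := by rw [h5, mul_one]
  have v2 : ∑' i : ℤ × Fin n, max 0 (X i) *
      Real.circleAverage (HH ρ h) (P ⌊η * i.1⌋) (δ * ‖P ⌊η * i.1⌋‖) ≤
      ((M + ε) * Real.exp (3 * ρ)) * ∑' i : ℤ × Fin n, max 0 (w₀ * cl p ρ δ η (α i.2) i.1 θ₀ -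
            ∑ j ∈ s, w j * cv p ρ η (α i.2) i.1 j.1 j.2) := by
    rw [← tsum_mul_left]
    have hs7 : Summable fun i : ℤ × Fin n => ((M + ε) * Real.exp (3 * ρ)) *
        max 0 (w₀ * cl p ρ δ η (α i.2) i.1 θ₀ -
            ∑ j ∈ s, w j * cv p ρ η (α i.2) i.1 j.1 j.2) := by
      refine (hsumX'.mul_left ((M + ε) * Real.exp (3 * ρ))).congr fun i => ?_
      rw [hXeq, hmax]
    refine hu1.tsum_le_tsum (fun i => ?_) hs7
    rw [hXeq, hmax]
    have h3 := (le_abs_self _).trans (havgP ⌊η * i.1⌋)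
    calc max 0 (X i) * Real.circleAverage (HH ρ h) (P ⌊η * i.1⌋) (δ * ‖P ⌊η * i.1⌋‖)
        ≤ max 0 (X i) * ((M + ε) * Real.exp (3 * ρ) * Real.exp (ρ * (⌊η * i.1⌋ : ℤ))) :=
          mul_le_mul_of_nonneg_left h3 (le_max_left _ _)
      _ ≤ max 0 (X i) * ((M + ε) * Real.exp (3 * ρ) * Real.exp (ρ * (η * i.1))) := by
          have := hfl i
          have h5 : 0 ≤ max 0 (X i) := le_max_left _ _
          gcongr
      _ = _ := by ring
  have v3 : ∑' m : ℤ, E m * Real.circleAverage (HH ρ h) (P m) (δ * ‖P m‖) ≤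
      ε / 2 * (w₀ + ∑ j ∈ s, w j) := by
    have hs8 := hEs.1.mul_left ((M + ε) * Real.exp (3 * ρ))
    have hle : ∀ m : ℤ, E m * Real.circleAverage (HH ρ h) (P m) (δ * ‖P m‖) ≤
        (M + ε) * Real.exp (3 * ρ) * (Real.exp (ρ * m) * E m) := by
      intro m
      have h3 := (le_abs_self _).trans (havgP m)
      calc E m * Real.circleAverage (HH ρ h) (P m) (δ * ‖P m‖)
          ≤ E m * ((M + ε) * Real.exp (3 * ρ) * Real.exp (ρ * m)) :=
            mul_le_mul_of_nonneg_left h3 (hE0 m)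
        _ = _ := by ring
    refine (hu2.tsum_le_tsum hle hs8).trans ?_
    rw [tsum_mul_left]
    have hwn : 0 ≤ w₀ + ∑ j ∈ s, w j := add_nonneg hw₀.le (Finset.sum_nonneg fun j _ => hw j)
    calc (M + ε) * Real.exp (3 * ρ) * ∑' m : ℤ, Real.exp (ρ * m) * E m
        ≤ (M + ε) * Real.exp (3 * ρ) * (κ * Cρ * (w₀ + ∑ j ∈ s, w j)) := by
          gcongr
          exact hEs.2
      _ = (M + ε) * Real.exp (3 * ρ) * κ * Cρ * (w₀ + ∑ j ∈ s, w j) := by ring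
      _ ≤ _ := mul_le_mul_of_nonneg_right hη2 hwn
  have v4 : ∑ j ∈ s, w j * (h j.2 + ε) = ∑ j ∈ s, w j * (h j.2 + ε / 2) +
      ε / 2 * ∑ j ∈ s, w j := by
    rw [Finset.mul_sum, ← Finset.sum_add_distrib]
    exact Finset.sum_congr rfl fun j _ => by ring
  rw [v4]
  have v5 : 0 < w₀ * ε := by positivity
  have v6 : ∑ j : s, W (Sum.inl j) * Real.circleAverage (HH ρ h) (Z (Sum.inl j))
      (δ * ‖Z (Sum.inl j)‖) + (∑' i : ℤ × Fin n, max 0 (X i) *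
      Real.circleAverage (HH ρ h) (P ⌊η * i.1⌋) (δ * ‖P ⌊η * i.1⌋‖) +
      ∑' m : ℤ, E m * Real.circleAverage (HH ρ h) (P m) (δ * ‖P m‖)) ≥ w₀ * h θ₀ := hmain2
  nlinarith

theorem domination {p : ℕ} (hp : p ≤ 1) {ρ : ℝ} (h1 : (p : ℝ) < ρ) (h2 : ρ < p + 1)
    {h : ℝ → ℝ} (hper : ∀ θ, h (θ + 2 * π) = h θ) (hc : Continuous h) (hrel : RelSub p ρ h)
    (θ₀ : ℝ) {ε δ₁ : ℝ} (hε : 0 < ε) (hδ₁ : 0 < δ₁) :
    ∃ (δ η σ : ℝ) (n : ℕ) (α : Fin n → ℝ), 0 < δ ∧ δ < δ₁ ∧ δ < 1 ∧ 0 < η ∧ 0 < σ ∧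
      (∀ b, α b ∈ Icc 0 π ∧ (p = 1 → α b = 0 ∨ α b = π)) ∧
      ∀ (s : Finset (ℝ × ℝ)) (w : ℝ × ℝ → ℝ) (w₀ : ℝ), (∀ j, 0 ≤ w j) → 0 ≤ w₀ →
        w₀ * (h θ₀ - ε) - ∑ j ∈ s, w j * (h j.2 + ε) ≤
          σ * ∑' i : ℤ × Fin n, max 0 (w₀ * cl p ρ δ η (α i.2) i.1 θ₀ -
            ∑ j ∈ s, w j * cv p ρ η (α i.2) i.1 j.1 j.2) := by
  obtain ⟨M, hM, hhM⟩ := dom_exists_bound hper hc
  obtain ⟨δ₀, hδ₀, hδ₀1, havg⟩ := avg_HH_le (ρ := ρ) hper hc (half_pos hε)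
  obtain ⟨C₁, hC₁, hlip⟩ := kd_lip
  obtain ⟨Cρ, hCρ, htm⟩ := tsum_mp h1 h2
  set δ : ℝ := min δ₀ δ₁ / 2 with hδdef
  have hmin : 0 < min δ₀ δ₁ := lt_min hδ₀ hδ₁
  have hδ0 : 0 < δ := by positivity
  have hδδ₀ : δ < δ₀ := by linarith [min_le_left δ₀ δ₁]
  have hδδ₁ : δ < δ₁ := by linarith [min_le_right δ₀ δ₁]
  have hδ : δ ∈ Ioo (0 : ℝ) 1 := ⟨hδ0, hδδ₀.trans hδ₀1⟩
  set D : ℝ := (M + ε) * Real.exp (3 * ρ) * (3 * C₁ * Real.exp 4 / δ) * Cρ with hD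
  have hD0 : 0 < D := by positivity
  set η : ℝ := min (1 / 3) (ε / 2 / D) with hηdef
  have hη : 0 < η := lt_min (by norm_num) (by positivity)
  have hη1 : η ≤ 1 / 3 := min_le_left _ _
  have hη2 : (M + ε) * Real.exp (3 * ρ) * (3 * C₁ * Real.exp 4 * η / δ) * Cρ ≤ ε / 2 := by
    have e1 : η ≤ ε / 2 / D := min_le_right _ _
    rw [le_div_iff₀ hD0] at e1
    calc _ = η * D := by rw [hD]; ring
      _ ≤ _ := e1
  obtain ⟨n, α, hα, hnet⟩ := exists_net hp hη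
  have hpos := fun s w w₀ hw hw₀ => domination_pos (s := s) (w := w) (w₀ := w₀) hp h1 h2 hper hrel θ₀
    hε hM hhM hδ (havg δ hδ0 hδδ₀) hC₁ (hlip p hp) hCρ htm hη hη1 hη2 hnet hw hw₀
  set σ : ℝ := (M + ε) * Real.exp (3 * ρ) with hσ
  have hσ0 : 0 < σ := by positivity
  refine ⟨δ, η, σ, n, α, hδ0, hδδ₁, hδ.2, hη, hσ0, hα, fun s w w₀ hw hw₀ => ?_⟩
  rcases hw₀.lt_or_eq with hw₀ | rfl
  · exact hpos s w w₀ hw hw₀
  -- the limit `w₀ → 0`
  have hsl := summable_X hp h1 h2 hδ hη α ∅ (fun _ => 0) 1 θ₀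
  simp only [one_mul, Finset.sum_empty, sub_zero] at hsl
  set B : ℝ := ∑' i : ℤ × Fin n, |cl p ρ δ η (α i.2) i.1 θ₀| with hB
  have hB0 : 0 ≤ B := tsum_nonneg fun i => abs_nonneg _
  set R : ℝ → ℝ := fun v => ∑' i : ℤ × Fin n, max 0 (v * cl p ρ δ η (α i.2) i.1 θ₀ -
            ∑ j ∈ s, w j * cv p ρ η (α i.2) i.1 j.1 j.2) with hR
  have hsR : ∀ v : ℝ, Summable fun i : ℤ × Fin n => max 0 (v * cl p ρ δ η (α i.2) i.1 θ₀ -
            ∑ j ∈ s, w j * cv p ρ η (α i.2) i.1 j.1 j.2) := by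
    intro v
    refine Summable.of_nonneg_of_le (fun i => le_max_left _ _) (fun i => ?_)
      (summable_X hp h1 h2 hδ hη α s w v θ₀)
    exact max_le (abs_nonneg _) (le_abs_self _)
  have hRv : ∀ v : ℝ, 0 < v → R v ≤ R 0 + v * B := by
    intro v hv
    have e1 : Summable fun i : ℤ × Fin n => max 0 (0 * cl p ρ δ η (α i.2) i.1 θ₀ -
            ∑ j ∈ s, w j * cv p ρ η (α i.2) i.1 j.1 j.2) + v * |cl p ρ δ η (α i.2) i.1 θ₀| :=
      (hsR 0).add (hsl.mul_left v)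
    have e2 : R 0 + v * B = ∑' i : ℤ × Fin n, (max 0 (0 * cl p ρ δ η (α i.2) i.1 θ₀ -
            ∑ j ∈ s, w j * cv p ρ η (α i.2) i.1 j.1 j.2) + v * |cl p ρ δ η (α i.2) i.1 θ₀|) := by
      rw [(hsR 0).tsum_add (hsl.mul_left v), tsum_mul_left]
    rw [e2]
    refine (hsR v).tsum_le_tsum (fun i => ?_) e1
    have e3 := le_abs_self (cl p ρ δ η (α i.2) i.1 θ₀)
    have e4 := abs_nonneg (cl p ρ δ η (α i.2) i.1 θ₀)
    refine max_le ?_ ?_
    · have := le_max_left 0 (0 * cl p ρ δ η (α i.2) i.1 θ₀ -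
            ∑ j ∈ s, w j * cv p ρ η (α i.2) i.1 j.1 j.2)
      positivity
    · have e5 := le_max_right 0 (0 * cl p ρ δ η (α i.2) i.1 θ₀ -
            ∑ j ∈ s, w j * cv p ρ η (α i.2) i.1 j.1 j.2)
      nlinarith
  rw [zero_mul, zero_sub]
  refine le_of_forall_pos_le_add fun ε' hε' => ?_
  set G : ℝ := |h θ₀ - ε| + σ * B + 1 with hG
  have hG0 : 0 < G := by positivity
  set v : ℝ := ε' / G with hv
  have hv0 : 0 < v := by positivity
  have e1 := hpos s w v hw hv0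
  have e2 := hRv v hv0
  have e3 : v * (h θ₀ - ε) ≥ -(v * |h θ₀ - ε|) := by
    have := neg_abs_le (h θ₀ - ε)
    nlinarith
  have e4 : v * G = ε' := by rw [hv]; field_simp
  have e5 : σ * R v ≤ σ * R 0 + σ * (v * B) := by nlinarith
  have e6 : v * G = v * |h θ₀ - ε| + σ * (v * B) + v := by rw [hG]; ring
  change -∑ j ∈ s, w j * (h j.2 + ε) ≤ σ * R 0 + ε'
  change v * (h θ₀ - ε) - ∑ j ∈ s, w j * (h j.2 + ε) ≤ σ * R v at e1
  linarith

end HBInd
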