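import Pool.Agent.HBInd.GenusOne

/-!
# Entire functions of order one with real zeros and prescribed slowly varying drift

* `exists_drift`: `x n = k_n e^{-n}` with integers `k_n`, `x n → 0`. Apply `exists_genus_one` to the index set
  `Σ n : ℕ, Fin |k_n|` and `c = sgn (k_n) e^{-n}` (zeros `± e^n` with multiplicity `|k_n|`):
  `∑ c² = ∑ |x_n| e^{-n}`, `∑ |c|^σ = ∑ |x_n| e^{-(σ-1) n} < ∞` for `σ > 1`. For `z = e^{t + iθ}`, `sin θ ≠ 0`,
  `w_n = sgn (k_n) e^{t - n + iθ}`:
  `e^{-t} log |D z| = ∑_n |x_n| e^{n - t} (log |1 - w_n| + Re w_n)`.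
  For `n ≤ t` the part `|x_n| e^{n - t} Re w_n = x_n cos θ` gives the main term, and
  `|x_n| e^{n-t} |log |1 - w_n|| ≤ |x_n| (t - n + 1 + C_θ) e^{-(t - n)}` (`|sin θ| ≤ |1 - w| ≤ 1 + |w|`);
  for `n > t` (`|w_n| < 1`) `|log |1 - w_n| + Re w_n| ≤ C_θ |w_n|²`, so the term is
  `≤ C_θ |x_n| e^{-(n - t)}`. As `x_n → 0` and `∑_n (1 + |t - n|) e^{-|t - n|}` is bounded in `t`, the
  error tends to `0`.
* `exists_track`: `x n = ± ⌊min (β n) |tgt n - b n| e^n⌋ e^{-n}` with the sign of `tgt n - b n`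
  (recursion on `b`).
* `track_close`: `d n = |b n - tgt|` satisfies `d (n+1) ≤ max (d n - β) 0 + e^{-n}` on the block; after
  `L` steps with `L β ≥ d N + ∑ e^{-n}` it is `≤ ∑_{n ≥ N} e^{-n} ≤ 2 e^{-N}`.
-/

namespace HBInd

open Complex Filter Topology Set Bornology
open scoped Real ComplexConjugate

/-- two-sided kernel -/
lemma drift_summable_kernel : Summable (fun j : ℤ => Real.exp (-|(j : ℝ)| / 2)) := by
  have h1 : Summable (fun n : ℕ => Real.exp ((n : ℝ) * (-1 / 2))) :=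
    Real.summable_exp_nat_mul_iff.mpr (by norm_num)
  apply Summable.of_nat_of_neg
  · refine h1.congr fun n => ?_
    congr 1
    push_cast
    rw [abs_of_nonneg (Nat.cast_nonneg n)]; ring
  · refine h1.congr fun n => ?_
    congr 1
    push_cast
    rw [abs_neg, abs_of_nonneg (Nat.cast_nonneg n)]; ring

/-- the smoothing sum -/
noncomputable def drift_smooth (x : ℕ → ℝ) (m : ℕ) : ℝ :=
  ∑' n : ℕ, |x n| * Real.exp (-|(m : ℝ) - n| / 2)

noncomputable def drift_smoothZ (x : ℕ → ℝ) (m : ℕ) (j : ℤ) : ℝ :=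
  if 0 ≤ (m : ℤ) + j then |x ((m : ℤ) + j).toNat| * Real.exp (-|(j : ℝ)| / 2) else 0

lemma drift_smoothZ_comp (x : ℕ → ℝ) (m n : ℕ) :
    drift_smoothZ x m ((n : ℤ) - m) = |x n| * Real.exp (-|(m : ℝ) - n| / 2) := by
  unfold drift_smoothZ
  rw [if_pos (by omega), show ((m : ℤ) + ((n : ℤ) - m)).toNat = n by omega]
  push_cast
  rw [abs_sub_comm]

lemma drift_smooth_hasSum {x : ℕ → ℝ} {X : ℝ} (hX : ∀ n, |x n| ≤ X) (m : ℕ) :
    HasSum (fun n : ℕ => |x n| * Real.exp (-|(m : ℝ) - n| / 2)) (drift_smooth x m) ∧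
      drift_smooth x m = ∑' j : ℤ, drift_smoothZ x m j := by
  have hinj : Function.Injective (fun n : ℕ => (n : ℤ) - m) := by
    intro a b h
    simp only at h
    omega
  have hX0 : 0 ≤ X := (abs_nonneg _).trans (hX 0)
  have hs : Summable (fun j : ℤ => drift_smoothZ x m j) := by
    refine Summable.of_nonneg_of_le (fun j => ?_) (fun j => ?_) (drift_summable_kernel.mul_left X)
    · unfold drift_smoothZ; split_ifs
      · positivity
      · exact le_refl _
    · unfold drift_smoothZ; split_ifs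
      · exact mul_le_mul_of_nonneg_right (hX _) (Real.exp_pos _).le
      · positivity
  have hsupp : Function.support (fun j : ℤ => drift_smoothZ x m j) ⊆ Set.range (fun n : ℕ => (n : ℤ) - m) := by
    intro j hj
    have h1 : 0 ≤ (m : ℤ) + j := by
      by_contra hcon
      apply hj
      simp only [drift_smoothZ, if_neg hcon]
    exact ⟨((m : ℤ) + j).toNat, by simp only; omega⟩
  have h2 : Summable (fun n : ℕ => |x n| * Real.exp (-|(m : ℝ) - n| / 2)) := by
    have := hs.comp_injective hinj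
    refine this.congr fun n => ?_
    simp only [Function.comp_apply]
    exact drift_smoothZ_comp x m n
  refine ⟨h2.hasSum, ?_⟩
  unfold drift_smooth
  rw [← hinj.tsum_eq hsupp]
  exact tsum_congr fun n => (drift_smoothZ_comp x m n).symm

lemma drift_exists_bound {x : ℕ → ℝ} (hx : Tendsto x atTop (𝓝 0)) : ∃ X, ∀ n, |x n| ≤ X := by
  obtain ⟨X, hX⟩ := hx.abs.bddAbove_range
  exact ⟨X, fun n => hX ⟨n, rfl⟩⟩

lemma drift_smooth_tendsto {x : ℕ → ℝ} (hx : Tendsto x atTop (𝓝 0)) :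
    Tendsto (drift_smooth x) atTop (𝓝 0) := by
  obtain ⟨X, hX⟩ := drift_exists_bound hx
  have hX0 : 0 ≤ X := (abs_nonneg _).trans (hX 0)
  have h := tendsto_tsum_of_dominated_convergence (𝓕 := atTop) (f := fun (m : ℕ) (j : ℤ) => drift_smoothZ x m j)
    (g := fun _ => (0 : ℝ)) (bound := fun j : ℤ => X * Real.exp (-|(j : ℝ)| / 2))
    (drift_summable_kernel.mul_left X) (fun j => ?_) (Eventually.of_forall fun m j => ?_)
  · rw [tsum_zero] at h
    refine h.congr fun m => ?_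
    exact (drift_smooth_hasSum hX m).2.symm
  · have h1 : Tendsto (fun m : ℕ => ((m : ℤ) + j).toNat) atTop atTop := by
      rw [tendsto_atTop]
      intro b
      filter_upwards [eventually_ge_atTop (b + j.natAbs)] with m hm
      omega
    have h2 : Tendsto (fun m : ℕ => |x ((m : ℤ) + j).toNat| * Real.exp (-|(j : ℝ)| / 2)) atTop
        (𝓝 (|(0 : ℝ)| * Real.exp (-|(j : ℝ)| / 2))) :=
      ((hx.comp h1).abs).mul_const _
    rw [abs_zero, zero_mul] at h2
    refine h2.congr' ?_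
    filter_upwards [eventually_ge_atTop j.natAbs] with m hm
    unfold drift_smoothZ
    rw [if_pos (by omega)]
  · unfold drift_smoothZ
    split_ifs
    · rw [Real.norm_of_nonneg (by positivity)]
      exact mul_le_mul_of_nonneg_right (hX _) (Real.exp_pos _).le
    · rw [norm_zero]; positivity

/-- `‖1 - a e^{iθ}‖` -/
lemma drift_norm_one_sub (a θ : ℝ) :
    ‖1 - (a : ℂ) * Complex.exp ((θ : ℂ) * I)‖ ^ 2 = 1 - 2 * a * Real.cos θ + a ^ 2 := by
  rw [← Complex.normSq_eq_norm_sq, Complex.normSq_apply]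
  simp only [Complex.sub_re, Complex.one_re, Complex.sub_im, Complex.one_im,
    Complex.re_ofReal_mul, Complex.im_ofReal_mul, Complex.exp_ofReal_mul_I_re,
    Complex.exp_ofReal_mul_I_im]
  have := Real.sin_sq_add_cos_sq θ
  nlinarith

lemma drift_sin_le_norm (a θ : ℝ) : |Real.sin θ| ≤ ‖1 - (a : ℂ) * Complex.exp ((θ : ℂ) * I)‖ := by
  refine abs_le_of_sq_le_sq ?_ (norm_nonneg _)
  rw [drift_norm_one_sub]
  have := Real.sin_sq_add_cos_sq θ
  nlinarith [sq_nonneg (a - Real.cos θ)]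

lemma drift_norm_le_add (a θ : ℝ) : ‖1 - (a : ℂ) * Complex.exp ((θ : ℂ) * I)‖ ≤ 1 + |a| := by
  calc ‖1 - (a : ℂ) * Complex.exp ((θ : ℂ) * I)‖ ≤ ‖(1 : ℂ)‖ + ‖(a : ℂ) * Complex.exp ((θ : ℂ) * I)‖ :=
        norm_sub_le _ _
    _ = 1 + |a| := by
        rw [norm_one, norm_mul, Complex.norm_exp_ofReal_mul_I, mul_one, Complex.norm_real,
          Real.norm_eq_abs]


/-- crude bound for the logarithm -/
lemma drift_abs_log_le (a : ℝ) {θ : ℝ} (hθ : Real.sin θ ≠ 0) :
    |Real.log ‖1 - (a : ℂ) * Complex.exp ((θ : ℂ) * I)‖| ≤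
      Real.log (1 + |a|) + |Real.log (|Real.sin θ|)| := by
  have h0 : 0 < |Real.sin θ| := abs_pos.mpr hθ
  have h1 := drift_sin_le_norm a θ
  have h2 := drift_norm_le_add a θ
  have h3 : Real.log (|Real.sin θ|) ≤ Real.log ‖1 - (a : ℂ) * Complex.exp ((θ : ℂ) * I)‖ :=
    Real.log_le_log h0 h1
  have h4 : Real.log ‖1 - (a : ℂ) * Complex.exp ((θ : ℂ) * I)‖ ≤ Real.log (1 + |a|) :=
    Real.log_le_log (h0.trans_le h1) h2
  have h5 : 0 ≤ Real.log (1 + |a|) := Real.log_nonneg (by linarith [abs_nonneg a])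
  have h6 := abs_le.mp (le_refl |Real.log (|Real.sin θ|)|)
  rw [abs_le]
  constructor <;> linarith [h6.1, h6.2]

/-- second order bound for the logarithm -/
lemma drift_abs_log_add_le {a : ℝ} (ha : |a| ≤ 1) {θ : ℝ} (hθ : Real.sin θ ≠ 0) :
    |Real.log ‖1 - (a : ℂ) * Complex.exp ((θ : ℂ) * I)‖ + a * Real.cos θ| ≤
      4 * (2 + |Real.log (|Real.sin θ|)|) * a ^ 2 := by
  have hL : 0 ≤ |Real.log (|Real.sin θ|)| := abs_nonneg _
  have hre : ((a : ℂ) * Complex.exp ((θ : ℂ) * I)).re = a * Real.cos θ := by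
    rw [Complex.re_ofReal_mul, Complex.exp_ofReal_mul_I_re]
  have hnorm : ‖(a : ℂ) * Complex.exp ((θ : ℂ) * I)‖ = |a| := by
    rw [norm_mul, Complex.norm_exp_ofReal_mul_I, mul_one, Complex.norm_real, Real.norm_eq_abs]
  rcases le_or_gt |a| (1 / 2) with h | h
  · have h1 : ‖-((a : ℂ) * Complex.exp ((θ : ℂ) * I))‖ < 1 := by
      rw [norm_neg, hnorm]; linarith
    have h2 := Complex.norm_log_one_add_sub_self_le h1
    rw [norm_neg, hnorm] at h2
    have h3 : |a| ^ 2 * (1 - |a|)⁻¹ / 2 ≤ a ^ 2 := by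
      have : (1 - |a|)⁻¹ ≤ 2 := by
        rw [inv_le_comm₀ (by linarith) (by norm_num)]; linarith
      rw [sq_abs]
      nlinarith [sq_nonneg a]
    have h4 := Complex.abs_re_le_norm (Complex.log (1 + -((a : ℂ) * Complex.exp ((θ : ℂ) * I))) -
      -((a : ℂ) * Complex.exp ((θ : ℂ) * I)))
    rw [Complex.sub_re, Complex.log_re, Complex.neg_re, hre, ← sub_eq_add_neg, sub_neg_eq_add] at h4
    calc _ ≤ _ := h4
      _ ≤ a ^ 2 := by
        rw [← sub_eq_add_neg] at h2
        exact h2.trans h3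
      _ ≤ 4 * (2 + |Real.log (|Real.sin θ|)|) * a ^ 2 := by
        nlinarith [sq_nonneg a, mul_nonneg hL (sq_nonneg a)]
  · have h1 := drift_abs_log_le a hθ
    have h2 : Real.log (1 + |a|) ≤ 1 := by
      have := Real.log_le_sub_one_of_pos (show 0 < 1 + |a| by linarith)
      linarith
    have h3 : |a * Real.cos θ| ≤ 1 := by
      rw [abs_mul]
      have := Real.abs_cos_le_one θ
      nlinarith [abs_nonneg a, abs_nonneg (Real.cos θ)]
    have h4 : 1 / 4 ≤ a ^ 2 := by
      rw [← sq_abs]; nlinarith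
    calc _ ≤ |Real.log ‖1 - (a : ℂ) * Complex.exp ((θ : ℂ) * I)‖| + |a * Real.cos θ| := abs_add_le _ _
      _ ≤ 2 + |Real.log (|Real.sin θ|)| := by linarith
      _ ≤ 4 * (2 + |Real.log (|Real.sin θ|)|) * a ^ 2 := by nlinarith


lemma drift_exp_kernel_le {t : ℝ} (ht : 0 ≤ t) (n : ℕ) :
    Real.exp (-|t - n| / 2) ≤ Real.exp (1 / 2) * Real.exp (-|(⌊t⌋₊ : ℝ) - n| / 2) := by
  rw [← Real.exp_add]
  apply Real.exp_le_exp.mpr
  have h1 := Nat.floor_le ht
  have h2 := Nat.lt_floor_add_one t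
  have h3 : |(⌊t⌋₊ : ℝ) - n| ≤ |t - n| + 1 := by
    have : (⌊t⌋₊ : ℝ) - n = (t - n) + ((⌊t⌋₊ : ℝ) - t) := by ring
    rw [this]
    refine (abs_add_le _ _).trans ?_
    have : |(⌊t⌋₊ : ℝ) - t| ≤ 1 := by rw [abs_le]; constructor <;> linarith
    linarith
  linarith

/-- bound of one term -/
lemma drift_term_bound {y s θ t : ℝ} {n : ℕ} (ht : 0 ≤ t) (hs : |s| = 1) (hys : |y| * s = y)
    (hθ : Real.sin θ ≠ 0) :
    |(|y| * Real.exp ((n : ℝ) - t) *
        (Real.log ‖1 - ((s * Real.exp (t - n) : ℝ) : ℂ) * Complex.exp ((θ : ℂ) * I)‖ +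
          s * Real.exp (t - n) * Real.cos θ) -
        (if n ∈ Finset.range (⌊t⌋₊ + 1) then y * Real.cos θ else 0))| ≤
      Real.exp (1 / 2) * (4 * (2 + |Real.log (|Real.sin θ|)|)) *
        (|y| * Real.exp (-|(⌊t⌋₊ : ℝ) - n| / 2)) := by
  set L := |Real.log (|Real.sin θ|)| with hL
  have hL0 : 0 ≤ L := abs_nonneg _
  have hab : |s * Real.exp (t - n)| = Real.exp (t - n) := by
    rw [abs_mul, hs, one_mul, abs_of_pos (Real.exp_pos _)]
  have hkey : ∀ A : ℝ, A ≤ 4 * (2 + L) * (|y| * Real.exp (-|t - n| / 2)) →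
      A ≤ Real.exp (1 / 2) * (4 * (2 + L)) * (|y| * Real.exp (-|(⌊t⌋₊ : ℝ) - n| / 2)) := by
    intro A hA
    refine hA.trans ?_
    have h1 := mul_le_mul_of_nonneg_left (drift_exp_kernel_le ht n)
      (show 0 ≤ 4 * (2 + L) * |y| by positivity)
    calc 4 * (2 + L) * (|y| * Real.exp (-|t - n| / 2)) = 4 * (2 + L) * |y| * Real.exp (-|t - n| / 2) := by
          ring
      _ ≤ _ := h1
      _ = _ := by ring
  apply hkey
  by_cases hn : n ∈ Finset.range (⌊t⌋₊ + 1)
  · rw [if_pos hn]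
    rw [Finset.mem_range] at hn
    have hnt : (n : ℝ) ≤ t := by
      have h1 := Nat.floor_le ht
      have h2 : (n : ℝ) ≤ ⌊t⌋₊ := by exact_mod_cast Nat.lt_succ_iff.mp hn
      linarith
    have hu : 0 ≤ t - n := by linarith
    have hexp : Real.exp ((n : ℝ) - t) * Real.exp (t - n) = 1 := by
      rw [← Real.exp_add]; simp
    have e1 : |y| * Real.exp ((n : ℝ) - t) *
        (Real.log ‖1 - ((s * Real.exp (t - n) : ℝ) : ℂ) * Complex.exp ((θ : ℂ) * I)‖ +
          s * Real.exp (t - n) * Real.cos θ) - y * Real.cos θ =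
        |y| * Real.exp ((n : ℝ) - t) *
          Real.log ‖1 - ((s * Real.exp (t - n) : ℝ) : ℂ) * Complex.exp ((θ : ℂ) * I)‖ := by
      have : |y| * Real.exp ((n : ℝ) - t) * (s * Real.exp (t - n) * Real.cos θ) = y * Real.cos θ := by
        calc |y| * Real.exp ((n : ℝ) - t) * (s * Real.exp (t - n) * Real.cos θ) =
            (|y| * s) * (Real.exp ((n : ℝ) - t) * Real.exp (t - n)) * Real.cos θ := by ring
          _ = y * Real.cos θ := by rw [hexp, hys, mul_one]
      rw [mul_add, this]; ring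
    rw [e1, abs_mul, abs_mul, abs_abs, abs_of_pos (Real.exp_pos _)]
    have h1 := drift_abs_log_le (s * Real.exp (t - n)) hθ
    rw [hab, ← hL] at h1
    have h2 : Real.log (1 + Real.exp (t - n)) ≤ 1 + (t - n) := by
      have : 1 + Real.exp (t - n) ≤ Real.exp (1 + (t - n)) := by
        rw [Real.exp_add]
        have h3 := Real.add_one_le_exp (1 : ℝ)
        have h4 := Real.one_le_exp hu
        nlinarith
      calc Real.log (1 + Real.exp (t - n)) ≤ Real.log (Real.exp (1 + (t - n))) :=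
            Real.log_le_log (by positivity) this
        _ = _ := Real.log_exp _
    have h3 : Real.exp ((n : ℝ) - t) = Real.exp (-|t - n| / 2) * Real.exp (-|t - n| / 2) := by
      rw [← Real.exp_add, abs_of_nonneg hu]; congr 1; ring
    have h4 : Real.exp (-|t - n| / 2) * (1 + (t - n) + L) ≤ 4 * (2 + L) := by
      have h5 : Real.exp (-|t - n| / 2) ≤ 1 := by
        rw [Real.exp_le_one_iff]; have := abs_nonneg (t - n); linarith
      have h6 : Real.exp (-|t - n| / 2) * (1 + (t - n) / 2) ≤ 1 := by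
        have h7 := Real.add_one_le_exp ((t - n) / 2)
        have h8 : Real.exp (-|t - n| / 2) * Real.exp ((t - n) / 2) = 1 := by
          rw [← Real.exp_add, abs_of_nonneg hu]; simp; ring
        calc _ ≤ Real.exp (-|t - n| / 2) * Real.exp ((t - n) / 2) :=
              mul_le_mul_of_nonneg_left (by linarith) (Real.exp_pos _).le
          _ = 1 := h8
      have h9 := Real.exp_pos (-|t - n| / 2)
      nlinarith
    have h5 : |Real.log ‖1 - ((s * Real.exp (t - n) : ℝ) : ℂ) * Complex.exp ((θ : ℂ) * I)‖| ≤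
        1 + (t - n) + L := by linarith
    calc |y| * Real.exp ((n : ℝ) - t) *
          |Real.log ‖1 - ((s * Real.exp (t - n) : ℝ) : ℂ) * Complex.exp ((θ : ℂ) * I)‖|
        ≤ |y| * Real.exp ((n : ℝ) - t) * (1 + (t - n) + L) :=
          mul_le_mul_of_nonneg_left h5 (by positivity)
      _ = |y| * Real.exp (-|t - n| / 2) * (Real.exp (-|t - n| / 2) * (1 + (t - n) + L)) := by
          rw [h3]; ring
      _ ≤ |y| * Real.exp (-|t - n| / 2) * (4 * (2 + L)) :=
          mul_le_mul_of_nonneg_left h4 (by positivity)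
      _ = _ := by ring
  · rw [if_neg hn, sub_zero]
    rw [Finset.mem_range, not_lt] at hn
    have hnt : t < (n : ℝ) := by
      have h2 := Nat.lt_floor_add_one t
      have h3 : ((⌊t⌋₊ + 1 : ℕ) : ℝ) ≤ n := by exact_mod_cast hn
      push_cast at h3
      linarith
    have h1 : |s * Real.exp (t - n)| ≤ 1 := by
      rw [hab, Real.exp_le_one_iff]; linarith
    have h2 := drift_abs_log_add_le h1 hθ
    rw [← hL] at h2
    have h3 : (s * Real.exp (t - n)) ^ 2 = Real.exp (t - n) * Real.exp (t - n) := by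
      rw [← sq_abs, hab, sq]
    have h4 : Real.exp ((n : ℝ) - t) * Real.exp (t - n) = 1 := by
      rw [← Real.exp_add]; simp
    have h5 : Real.exp (t - n) ≤ Real.exp (-|t - n| / 2) := by
      apply Real.exp_le_exp.mpr
      rw [abs_of_neg (by linarith)]; linarith
    rw [abs_mul, abs_mul, abs_abs, abs_of_pos (Real.exp_pos _)]
    calc _ ≤ |y| * Real.exp ((n : ℝ) - t) * (4 * (2 + L) * (s * Real.exp (t - n)) ^ 2) :=
          mul_le_mul_of_nonneg_left h2 (by positivity)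
      _ = 4 * (2 + L) * (|y| * (Real.exp ((n : ℝ) - t) * Real.exp (t - n) * Real.exp (t - n))) := by
          rw [h3]; ring
      _ = 4 * (2 + L) * (|y| * Real.exp (t - n)) := by rw [h4, one_mul]
      _ ≤ 4 * (2 + L) * (|y| * Real.exp (-|t - n| / 2)) := by gcongr


lemma drift_summable_sig {m : ℕ → ℕ} {g : ℕ → ℝ} (hg : ∀ n, 0 ≤ g n)
    (h : Summable fun n => (m n : ℝ) * g n) :
    Summable (fun i : (Σ n : ℕ, Fin (m n)) => g i.1) := by
  rw [summable_sigma_of_nonneg (fun i => hg _)]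
  refine ⟨fun n => Summable.of_finite, ?_⟩
  refine h.congr fun n => ?_
  rw [tsum_fintype]
  change (m n : ℝ) * g n = ∑ _b : Fin (m n), g n
  rw [Finset.sum_const, Finset.card_univ, Fintype.card_fin, nsmul_eq_mul]

theorem exists_drift {x : ℕ → ℝ} (hx : Tendsto x atTop (𝓝 0))
    (hint : ∀ n : ℕ, ∃ k : ℤ, x n = k * Real.exp (-(n : ℝ))) :
    ∃ D : ℂ → ℂ, Differentiable ℂ D ∧ (∀ z : ℂ, z.im ≠ 0 → D z ≠ 0) ∧
      (∀ z : ℂ, D (conj z) = conj (D z)) ∧
      (∀ σ : ℝ, 1 < σ → ∀ᶠ z in cobounded ℂ, ‖D z‖ ≤ Real.exp (‖z‖ ^ σ)) ∧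
      ∀ θ : ℝ, Real.sin θ ≠ 0 →
        Tendsto (fun t : ℝ => Real.exp (-t) * Real.log ‖D (ray (Real.exp t) θ)‖ -
          (∑ n ∈ Finset.range (⌊t⌋₊ + 1), x n) * Real.cos θ) atTop (𝓝 0) := by
  choose k hk using hint
  obtain ⟨X, hX⟩ := drift_exists_bound hx
  have hX0 : 0 ≤ X := (abs_nonneg _).trans (hX 0)
  obtain ⟨s, hs1, hsx⟩ : ∃ s : ℕ → ℝ, (∀ n, |s n| = 1) ∧ ∀ n, |x n| * s n = x n := by
    refine ⟨fun n => if 0 ≤ x n then 1 else -1, fun n => ?_, fun n => ?_⟩
    · dsimp only; split_ifs <;> simp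
    · dsimp only
      split_ifs with h
      · rw [abs_of_nonneg h, mul_one]
      · rw [abs_of_neg (not_le.mp h)]; ring
  have hkx : ∀ n : ℕ, ((k n).natAbs : ℝ) = |x n| * Real.exp (n : ℝ) := by
    intro n
    rw [hk n, abs_mul, abs_of_pos (Real.exp_pos _), mul_assoc, ← Real.exp_add, neg_add_cancel,
      Real.exp_zero, mul_one, Nat.cast_natAbs, Int.cast_abs]
  have hsumg : ∀ σ : ℝ, 1 < σ → Summable
      (fun i : (Σ n : ℕ, Fin (k n).natAbs) => Real.exp (-(σ * (i.1 : ℝ)))) := by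
    intro σ hσ
    refine drift_summable_sig (g := fun n : ℕ => Real.exp (-(σ * (n : ℝ)))) (fun n => (Real.exp_pos _).le) ?_
    have h1 : Summable (fun n : ℕ => Real.exp ((n : ℝ) * (1 - σ))) :=
      Real.summable_exp_nat_mul_iff.mpr (by linarith)
    refine Summable.of_nonneg_of_le (fun n => by positivity) (fun n => ?_) (h1.mul_left X)
    rw [hkx n, mul_assoc, ← Real.exp_add, show (n : ℝ) + -(σ * (n : ℝ)) = (n : ℝ) * (1 - σ) by ring]
    exact mul_le_mul_of_nonneg_right (hX n) (Real.exp_pos _).le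
  have habs : ∀ n : ℕ, |s n * Real.exp (-(n : ℝ))| = Real.exp (-(n : ℝ)) := by
    intro n
    rw [abs_mul, hs1, one_mul, abs_of_pos (Real.exp_pos _)]
  have hpow : ∀ (σ : ℝ) (n : ℕ), |s n * Real.exp (-(n : ℝ))| ^ σ = Real.exp (-(σ * (n : ℝ))) := by
    intro σ n
    rw [habs, ← Real.exp_mul]; congr 1; ring
  have hc : Summable (fun i : (Σ n : ℕ, Fin (k n).natAbs) =>
      (s i.1 * Real.exp (-(i.1 : ℝ))) ^ 2) := by
    refine (hsumg 2 (by norm_num)).congr fun i => ?_
    rw [← hpow 2 i.1, Real.rpow_two, sq_abs]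
  obtain ⟨D, hD1, hD2, hD3, hD4, hD5⟩ := exists_genus_one hc
  refine ⟨D, hD1, hD2, hD3, ?_, ?_⟩
  · intro σ hσ
    obtain ⟨σ', h1, h2, h3⟩ : ∃ σ' : ℝ, 1 < σ' ∧ σ' < σ ∧ σ' ≤ 2 := by
      refine ⟨min 2 ((1 + σ) / 2), lt_min (by norm_num) (by linarith), ?_, min_le_left _ _⟩
      exact (min_le_right _ _).trans_lt (by linarith)
    have h4 := hD5 σ' h1.le h3 ((hsumg σ' h1).congr fun i => (hpow σ' i.1).symm)
    have h5 := (tendsto_norm_cobounded_atTop (E := ℂ)).eventually (eventually_mul_rpow_le h2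
      (2 * ∑' i : (Σ n : ℕ, Fin (k n).natAbs), |s i.1 * Real.exp (-(i.1 : ℝ))| ^ σ'))
    filter_upwards [h5] with z hz
    exact (h4 z).trans (Real.exp_le_exp.mpr hz)
  · intro θ hθ
    set C : ℝ := Real.exp (1 / 2) * (4 * (2 + |Real.log (|Real.sin θ|)|)) with hC
    have hmain : ∀ t : ℝ, 0 ≤ t → |Real.exp (-t) * Real.log ‖D (ray (Real.exp t) θ)‖ -
          (∑ n ∈ Finset.range (⌊t⌋₊ + 1), x n) * Real.cos θ| ≤ C * drift_smooth x ⌊t⌋₊ := by
      intro t ht
      have him : (ray (Real.exp t) θ).im ≠ 0 := by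
        rw [ray_im]
        exact mul_ne_zero (Real.exp_pos _).ne' hθ
      have hne : ∀ i : (Σ n : ℕ, Fin (k n).natAbs),
          ((s i.1 * Real.exp (-(i.1 : ℝ)) : ℝ) : ℂ) * ray (Real.exp t) θ ≠ 1 := by
        intro i hi
        have h1 := congrArg Complex.im hi
        rw [Complex.im_ofReal_mul, Complex.one_im] at h1
        rcases mul_eq_zero.mp h1 with h2 | h2
        · rw [h2] at hi
          simp at hi
        · exact him h2
      have h1 := (hD4 _ hne).2
      have h2 : HasSum (fun n : ℕ => ((k n).natAbs : ℝ) *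
          (Real.log ‖1 - ((s n * Real.exp (-(n : ℝ)) : ℝ) : ℂ) * ray (Real.exp t) θ‖ +
            s n * Real.exp (-(n : ℝ)) * (ray (Real.exp t) θ).re))
          (Real.log ‖D (ray (Real.exp t) θ)‖) := by
        refine h1.sigma fun n => ?_
        have := hasSum_fintype (fun _ : Fin (k n).natAbs =>
          Real.log ‖1 - ((s n * Real.exp (-(n : ℝ)) : ℝ) : ℂ) * ray (Real.exp t) θ‖ +
            s n * Real.exp (-(n : ℝ)) * (ray (Real.exp t) θ).re)
        rwa [Finset.sum_const, Finset.card_univ, Fintype.card_fin, nsmul_eq_mul] at this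
      have h3 := h2.mul_left (Real.exp (-t))
      have h4 : HasSum (fun n : ℕ => if n ∈ Finset.range (⌊t⌋₊ + 1) then x n * Real.cos θ else 0)
          ((∑ n ∈ Finset.range (⌊t⌋₊ + 1), x n) * Real.cos θ) := by
        rw [Finset.sum_mul]
        have := hasSum_sum_of_ne_finset_zero (L := SummationFilter.unconditional ℕ)
          (f := fun n : ℕ => if n ∈ Finset.range (⌊t⌋₊ + 1) then x n * Real.cos θ else 0)
          (s := Finset.range (⌊t⌋₊ + 1)) (fun n hn => if_neg hn)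
        rwa [Finset.sum_congr rfl (fun n hn => if_pos hn)] at this
      have h5 := h3.sub h4
      have h6 := ((drift_smooth_hasSum hX ⌊t⌋₊).1).mul_left C
      refine h5.norm_le_of_bounded h6 fun n => ?_
      rw [Real.norm_eq_abs]
      have h7 := drift_term_bound (y := x n) (s := s n) (θ := θ) (t := t) (n := n) ht (hs1 n) (hsx n) hθ
      have h8 : Real.exp (-t) * (((k n).natAbs : ℝ) *
          (Real.log ‖1 - ((s n * Real.exp (-(n : ℝ)) : ℝ) : ℂ) * ray (Real.exp t) θ‖ +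
            s n * Real.exp (-(n : ℝ)) * (ray (Real.exp t) θ).re)) =
          |x n| * Real.exp ((n : ℝ) - t) *
        (Real.log ‖1 - ((s n * Real.exp (t - n) : ℝ) : ℂ) * Complex.exp ((θ : ℂ) * I)‖ +
          s n * Real.exp (t - n) * Real.cos θ) := by
        have e1 : ((s n * Real.exp (-(n : ℝ)) : ℝ) : ℂ) * ray (Real.exp t) θ =
            ((s n * Real.exp (t - n) : ℝ) : ℂ) * Complex.exp ((θ : ℂ) * I) := by
          unfold ray
          rw [← mul_assoc]
          congr 1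
          rw [← Complex.ofReal_mul, mul_assoc, ← Real.exp_add]
          congr 3; ring
        have e2 : s n * Real.exp (-(n : ℝ)) * (ray (Real.exp t) θ).re =
            s n * Real.exp (t - n) * Real.cos θ := by
          rw [ray_re, sub_eq_add_neg, Real.exp_add]; ring
        rw [e1, e2, hkx n, sub_eq_add_neg (n : ℝ) t, Real.exp_add]
        ring
      rw [h8]
      exact h7
    have hlim : Tendsto (fun t : ℝ => C * drift_smooth x ⌊t⌋₊) atTop (𝓝 0) := by
      have := ((drift_smooth_tendsto hx).comp (tendsto_nat_floor_atTop (α := ℝ))).const_mul C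
      rwa [mul_zero] at this
    refine squeeze_zero_norm' ?_ hlim
    filter_upwards [eventually_ge_atTop 0] with t ht
    rw [Real.norm_eq_abs]
    exact hmain t ht


lemma drift_track_step (b tgt β : ℝ) (hβ : 0 ≤ β) (n : ℕ) :
    ∃ k : ℤ, |(k : ℝ) * Real.exp (-(n : ℝ))| ≤ β ∧ b + k * Real.exp (-(n : ℝ)) ∈ uIcc b tgt ∧
      |b + k * Real.exp (-(n : ℝ)) - tgt| ≤ max (|b - tgt| - β) 0 + Real.exp (-(n : ℝ)) := by
  set E := Real.exp (-(n : ℝ)) with hE
  have hE0 : 0 < E := Real.exp_pos _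
  -- a nonnegative version
  have key : ∀ y : ℝ, 0 ≤ y → ∃ k : ℤ, 0 ≤ (k : ℝ) * E ∧ (k : ℝ) * E ≤ β ∧ (k : ℝ) * E ≤ y ∧
      y - k * E ≤ max (y - β) 0 + E := by
    intro y hy
    set m := min β y with hm
    have hm0 : 0 ≤ m := le_min hβ hy
    refine ⟨⌊m / E⌋, ?_, ?_, ?_, ?_⟩
    · have : (0 : ℝ) ≤ ⌊m / E⌋ := by
        exact_mod_cast Int.floor_nonneg.mpr (div_nonneg hm0 hE0.le)
      exact mul_nonneg this hE0.le
    · have h1 := Int.floor_le (m / E)
      rw [le_div_iff₀ hE0] at h1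
      exact h1.trans (min_le_left _ _)
    · have h1 := Int.floor_le (m / E)
      rw [le_div_iff₀ hE0] at h1
      exact h1.trans (min_le_right _ _)
    · have h1 := Int.lt_floor_add_one (m / E)
      rw [div_lt_iff₀ hE0, add_mul, one_mul] at h1
      have h2 : y - m ≤ max (y - β) 0 := by
        rcases le_total β y with h | h
        · rw [hm, min_eq_left h]; exact le_max_left _ _
        · rw [hm, min_eq_right h, sub_self]; exact le_max_right _ _
      linarith
  rcases le_total b tgt with h | h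
  · obtain ⟨k, h1, h2, h3, h4⟩ := key (tgt - b) (by linarith)
    refine ⟨k, by rw [abs_of_nonneg h1]; exact h2, ?_, ?_⟩
    · rw [uIcc_of_le h]; constructor <;> linarith
    · rw [abs_of_nonpos (by linarith), abs_of_nonpos (by linarith)]
      have e1 : -(b + k * E - tgt) = tgt - b - k * E := by ring
      have e2 : -(b - tgt) - β = tgt - b - β := by ring
      rw [e1, e2]; exact h4
  · obtain ⟨k, h1, h2, h3, h4⟩ := key (b - tgt) (by linarith)
    refine ⟨-k, ?_, ?_, ?_⟩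
    · push_cast; rw [neg_mul, abs_neg, abs_of_nonneg h1]; exact h2
    · push_cast; rw [uIcc_of_ge h, neg_mul]; constructor <;> linarith
    · push_cast
      rw [neg_mul, abs_of_nonneg (by linarith), abs_of_nonneg (by linarith)]
      have e1 : b + -(k * E) - tgt = b - tgt - k * E := by ring
      rw [e1]; exact h4

/-- a sequence `b` which follows the targets `tgt` with speed at most `β` -/
theorem exists_track (tgt β : ℕ → ℝ) (hβ : ∀ n, 0 ≤ β n) (b₀ : ℝ) :
    ∃ x : ℕ → ℝ, (∀ n : ℕ, ∃ k : ℤ, x n = k * Real.exp (-(n : ℝ))) ∧ (∀ n, |x n| ≤ β n) ∧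
      ∀ n, (b₀ + ∑ i ∈ Finset.range (n + 1), x i) ∈
          uIcc (b₀ + ∑ i ∈ Finset.range n, x i) (tgt n) ∧
        |b₀ + ∑ i ∈ Finset.range (n + 1), x i - tgt n| ≤
          max (|b₀ + ∑ i ∈ Finset.range n, x i - tgt n| - β n) 0 + Real.exp (-(n : ℝ)) := by
  choose k hk1 hk2 hk3 using fun (n : ℕ) (b : ℝ) => drift_track_step b (tgt n) (β n) (hβ n) n
  let b : ℕ → ℝ := fun n => Nat.rec b₀ (fun n b => b + k n b * Real.exp (-(n : ℝ))) n
  have hb0 : b 0 = b₀ := rfl
  have hbs : ∀ n, b (n + 1) = b n + k n (b n) * Real.exp (-(n : ℝ)) := fun n => rfl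
  have hsum : ∀ n, b₀ + ∑ i ∈ Finset.range n, (k i (b i) : ℝ) * Real.exp (-(i : ℝ)) = b n := by
    intro n
    induction n with
    | zero => simp [hb0]
    | succ n ih => rw [Finset.sum_range_succ, ← add_assoc, ih, hbs]
  refine ⟨fun n => k n (b n) * Real.exp (-(n : ℝ)), fun n => ⟨k n (b n), rfl⟩,
    fun n => hk1 n (b n), fun n => ?_⟩
  have h1 := hsum (n + 1)
  have h2 := hsum n
  have e1 : b₀ + ∑ i ∈ Finset.range (n + 1), (k i (b i) : ℝ) * Real.exp (-(i : ℝ)) - tgt n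
      = b n + k n (b n) * Real.exp (-(n : ℝ)) - tgt n := by rw [h1, hbs]
  have e2 : b₀ + ∑ i ∈ Finset.range n, (k i (b i) : ℝ) * Real.exp (-(i : ℝ)) - tgt n
      = b n - tgt n := by rw [h2]
  refine ⟨?_, ?_⟩
  · change b₀ + ∑ i ∈ Finset.range (n + 1), (k i (b i) : ℝ) * Real.exp (-(i : ℝ)) ∈
      uIcc (b₀ + ∑ i ∈ Finset.range n, (k i (b i) : ℝ) * Real.exp (-(i : ℝ))) (tgt n)
    rw [h1, h2, hbs]
    exact hk2 n (b n)
  · change |b₀ + ∑ i ∈ Finset.range (n + 1), (k i (b i) : ℝ) * Real.exp (-(i : ℝ)) - tgt n| ≤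
      max (|b₀ + ∑ i ∈ Finset.range n, (k i (b i) : ℝ) * Real.exp (-(i : ℝ)) - tgt n| - β n) 0 +
        Real.exp (-(n : ℝ))
    rw [e1, e2]
    exact hk3 n (b n)

theorem track_close {b : ℕ → ℝ} {N N' : ℕ} {β τ d : ℝ} (hβ : 0 ≤ β)
    (hstep : ∀ n, N ≤ n → n < N' →
      |b (n + 1) - τ| ≤ max (|b n - τ| - β) 0 + Real.exp (-(n : ℝ)))
    (hd : |b N - τ| ≤ d) (hL : d + 2 * Real.exp (-(N : ℝ)) ≤ β * (N' - N)) (hNN : N ≤ N') :
    |b N' - τ| ≤ 2 * Real.exp (-(N : ℝ)) := by
  have hd0 : 0 ≤ d := (abs_nonneg _).trans hd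
  have key : ∀ n, N ≤ n → n ≤ N' → |b n - τ| ≤ max (d - β * ((n : ℝ) - N)) 0 +
      (2 * Real.exp (-(N : ℝ)) - 2 * Real.exp (-(n : ℝ))) := by
    intro n hn
    induction n, hn using Nat.le_induction with
    | base =>
      intro _
      simp only [sub_self, mul_zero, sub_zero, add_zero]
      exact hd.trans (le_max_left _ _)
    | succ n hn ih =>
      intro hn'
      have ih := ih (by omega)
      have h1 := hstep n hn (by omega)
      have hS : 0 ≤ 2 * Real.exp (-(N : ℝ)) - 2 * Real.exp (-(n : ℝ)) := by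
        have : Real.exp (-(n : ℝ)) ≤ Real.exp (-(N : ℝ)) := by
          apply Real.exp_le_exp.mpr
          have : (N : ℝ) ≤ n := by exact_mod_cast hn
          linarith
        linarith
      have h2 : max (|b n - τ| - β) 0 ≤ max (d - β * (((n + 1 : ℕ) : ℝ) - N)) 0 +
          (2 * Real.exp (-(N : ℝ)) - 2 * Real.exp (-(n : ℝ))) := by
        apply max_le
        · have h3 : max (d - β * ((n : ℝ) - N)) 0 - β ≤ max (d - β * (((n + 1 : ℕ) : ℝ) - N)) 0 := by
            rw [sub_le_iff_le_add]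
            apply max_le
            · have h4 := le_max_left (d - β * (((n + 1 : ℕ) : ℝ) - N)) 0
              push_cast at h4 ⊢
              linarith
            · have h4 := le_max_right (d - β * (((n + 1 : ℕ) : ℝ) - N)) 0
              linarith
          linarith
        · have h4 := le_max_right (d - β * (((n + 1 : ℕ) : ℝ) - N)) 0
          linarith
      have h5 : Real.exp (-(n : ℝ)) ≤ 2 * Real.exp (-(n : ℝ)) - 2 * Real.exp (-((n + 1 : ℕ) : ℝ)) := by
        have h6 : Real.exp (-((n + 1 : ℕ) : ℝ)) = Real.exp (-(n : ℝ)) * Real.exp (-1) := by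
          rw [← Real.exp_add]; push_cast; congr 1; ring
        have h7 : Real.exp (-1) ≤ 1 / 2 := by
          rw [Real.exp_neg, inv_eq_one_div]
          apply one_div_le_one_div_of_le (by norm_num)
          have := Real.add_one_le_exp (1 : ℝ); linarith
        rw [h6]
        have h8 := Real.exp_pos (-(n : ℝ))
        nlinarith
      linarith
  have h1 := key N' hNN (le_refl _)
  have h2 : max (d - β * ((N' : ℝ) - N)) 0 = 0 := by
    apply max_eq_right
    have := Real.exp_pos (-(N : ℝ))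
    linarith
  rw [h2] at h1
  have := Real.exp_pos (-(N' : ℝ))
  linarith

end HBInd
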