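import Pool.Agent.HBInd.ConstructB
import Pool.Agent.HBInd.Drift

/-!
# Even functions of order one with given even indicator
-/

namespace HBInd

open Complex Filter Topology Set Bornology
open scoped Real ComplexConjugate

/-- the index of the window of `n` -/
def kk (L n : ℕ) : ℕ := Nat.log 2 (n / L) - 1

lemma kk_eq {L : ℕ} (hL : 0 < L) {k n : ℕ} (h1 : L * 2 ^ (k + 1) ≤ n) (h2 : n < L * 2 ^ (k + 2)) :
    kk L n = k := by
  have h3 : 2 ^ (k + 1) ≤ n / L := (Nat.le_div_iff_mul_le hL).2 (by rwa [mul_comm])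
  have h4 : n / L < 2 ^ (k + 1 + 1) := (Nat.div_lt_iff_lt_mul hL).2 (by rwa [mul_comm])
  have h5 : Nat.log 2 (n / L) = k + 1 := Nat.log_eq_of_pow_le_of_lt_pow h3 h4
  rw [kk, h5, Nat.add_sub_cancel]

lemma kk_ge {L : ℕ} (hL : 0 < L) {k n : ℕ} (h1 : L * 2 ^ (k + 1) ≤ n) : k ≤ kk L n := by
  have h3 : 2 ^ (k + 1) ≤ n / L := (Nat.le_div_iff_mul_le hL).2 (by rwa [mul_comm])
  have h4 : k + 1 ≤ Nat.log 2 (n / L) := by
    have := Nat.log_mono_right (b := 2) h3
    rwa [Nat.log_pow (by norm_num)] at this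
  rw [kk]
  omega

lemma tendsto_kk {L : ℕ} (hL : 0 < L) : Tendsto (kk L) atTop atTop :=
  tendsto_atTop.2 fun k => (eventually_ge_atTop (L * 2 ^ (k + 1))).mono fun _ hn => kk_ge hL hn

/-- the moving parameter -/
lemma exists_param {b : ℕ → ℝ} {lo hi : ℝ} (hb : ∀ j, lo ≤ b j ∧ b j ≤ hi) {L : ℕ}
    (hL : hi - lo + 2 ≤ L) :
    ∃ x : ℕ → ℝ, Tendsto x atTop (𝓝 0) ∧ (∀ n : ℕ, ∃ k : ℤ, x n = k * Real.exp (-(n : ℝ))) ∧
      (∀ n, lo ≤ b 0 + ∑ i ∈ Finset.range n, x i ∧ b 0 + ∑ i ∈ Finset.range n, x i ≤ hi) ∧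
      ∀ j n : ℕ, 1 ≤ j → L * 2 ^ (2 * j + 1) ≤ n → n ≤ L * 2 ^ (2 * j + 2) →
        |b 0 + ∑ i ∈ Finset.range n, x i - b j| ≤ 2 * Real.exp (-(n / 4 : ℝ)) := by
  have hlohi : 0 ≤ hi - lo := by linarith [(hb 0).1, (hb 0).2]
  have hL0' : (0 : ℝ) < L := by linarith
  have hL0 : 0 < L := by exact_mod_cast hL0'
  obtain ⟨x, hx1, hx2, hx3⟩ := exists_track (fun n => b ((kk L n + 1) / 2))
    (fun n => 1 / ((kk L n : ℝ) + 1)) (fun n => by positivity) (b 0)
  have hI : ∀ n, lo ≤ b 0 + ∑ i ∈ Finset.range n, x i ∧ b 0 + ∑ i ∈ Finset.range n, x i ≤ hi := by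
    intro n
    induction n with
    | zero => simpa using hb 0
    | succ n ih =>
      have h1 := (hx3 n).1
      have h2 := hb ((kk L n + 1) / 2)
      rw [mem_uIcc] at h1
      rcases h1 with h1 | h1
      · exact ⟨ih.1.trans h1.1, h1.2.trans h2.2⟩
      · exact ⟨h2.1.trans h1.1, h1.2.trans ih.2⟩
  refine ⟨x, ?_, hx1, hI, ?_⟩
  · have h1 : Tendsto (fun n => 1 / ((kk L n : ℝ) + 1)) atTop (𝓝 0) :=
      tendsto_one_div_add_atTop_nhds_zero_nat.comp (tendsto_kk hL0)
    exact squeeze_zero_norm (fun n => by rw [Real.norm_eq_abs]; exact hx2 n) h1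
  · intro j n hj hn1 hn2
    obtain ⟨i, rfl⟩ : ∃ i, j = i + 1 := ⟨j - 1, by omega⟩
    set N := L * 2 ^ (2 * i + 2) with hN
    set N' := L * 2 ^ (2 * i + 3) with hN'
    have hNN : N' = N + N := by rw [hN, hN', pow_succ]; ring
    have e1 : 2 * (i + 1) + 1 = 2 * i + 3 := by ring
    have e2 : 2 * (i + 1) + 2 = 2 * i + 3 + 1 := by ring
    rw [e1] at hn1
    rw [e2] at hn2
    have hn2' : n ≤ 4 * N := by
      have : L * 2 ^ (2 * i + 3 + 1) = 4 * N := by rw [hN, pow_succ, pow_succ]; ring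
      omega
    -- on the odd window
    have h5 : |b 0 + ∑ i ∈ Finset.range N', x i - b (i + 1)| ≤ 2 * Real.exp (-(N : ℝ)) := by
      refine track_close (b := fun n => b 0 + ∑ i ∈ Finset.range n, x i)
        (β := 1 / ((2 * i + 1 : ℕ) + 1 : ℝ)) (d := hi - lo) (by positivity) ?_ ?_ ?_ (by omega)
      · intro m hm1 hm2
        have h6 : kk L m = 2 * i + 1 := kk_eq hL0 hm1 hm2
        have h7 := (hx3 m).2
        simp only [h6] at h7
        have h8 : (2 * i + 1 + 1) / 2 = i + 1 := by omega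
        rw [h8] at h7
        exact h7
      · have h6 := hI N
        have h7 := hb (i + 1)
        rw [abs_le]
        constructor <;> linarith [h6.1, h6.2, h7.1, h7.2]
      · have h6 : ((N' : ℝ) - N) = L * 2 ^ (2 * i + 2) := by
          rw [hNN, hN]; push_cast; ring
        have h7 : (2 * i + 1 : ℕ) + 1 ≤ 2 ^ (2 * i + 2) := by
          have := Nat.lt_two_pow_self (n := 2 * i + 2)
          omega
        have h7' : ((2 * i + 1 : ℕ) : ℝ) + 1 ≤ 2 ^ (2 * i + 2) := by exact_mod_cast h7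
        have h8 : Real.exp (-(N : ℝ)) ≤ 1 := Real.exp_le_one_iff.2 (by simp)
        rw [h6]
        calc hi - lo + 2 * Real.exp (-(N : ℝ)) ≤ L := by linarith
          _ ≤ 1 / (((2 * i + 1 : ℕ) : ℝ) + 1) * (L * 2 ^ (2 * i + 2)) := by
              rw [one_div, le_inv_mul_iff₀ (by positivity)]
              rw [mul_comm]
              exact mul_le_mul_of_nonneg_left h7' hL0'.le
    -- on the even window
    have h6 : ∀ m, N' ≤ m → m ≤ L * 2 ^ (2 * i + 3 + 1) →
        |b 0 + ∑ i ∈ Finset.range m, x i - b (i + 1)| ≤ 2 * Real.exp (-(N : ℝ)) := by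
      intro m hm
      induction m, hm using Nat.le_induction with
      | base => exact fun _ => h5
      | succ m hm ih =>
        intro hm2
        have h7 := ih (by omega)
        have h8 : kk L m = 2 * i + 2 := kk_eq hL0 hm (by
          have : 2 * i + 2 + 2 = 2 * i + 3 + 1 := by ring
          rw [this]
          omega)
        have h9 := (hx3 m).1
        simp only [h8] at h9
        have h10 : (2 * i + 2 + 1) / 2 = i + 1 := by omega
        rw [h10] at h9
        refine le_trans ?_ h7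
        rw [mem_uIcc] at h9
        rcases h9 with h9 | h9
        · rw [abs_of_nonpos (by linarith [h9.2]), abs_of_nonpos (by linarith [h9.1, h9.2])]
          linarith [h9.1]
        · rw [abs_of_nonneg (by linarith [h9.1]), abs_of_nonneg (by linarith [h9.1, h9.2])]
          linarith [h9.2]
    refine (h6 n hn1 hn2).trans ?_
    have h7 : (n : ℝ) / 4 ≤ N := by
      have : (n : ℝ) ≤ 4 * N := by exact_mod_cast hn2'
      linarith
    exact mul_le_mul_of_nonneg_left (Real.exp_le_exp.2 (by linarith)) (by norm_num)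

lemma ray_sq (t θ : ℝ) : (ray (Real.exp t) θ) ^ 2 = ray (Real.exp (2 * t)) (2 * θ) := by
  have e1 : Complex.exp ((θ : ℂ) * I) ^ 2 = Complex.exp (((2 * θ : ℝ) : ℂ) * I) := by
    rw [← Complex.exp_nat_mul]
    congr 1
    push_cast
    ring
  have e2 : ((Real.exp t : ℝ) : ℂ) ^ 2 = ((Real.exp (2 * t) : ℝ) : ℂ) := by
    rw [← Complex.ofReal_pow, ← Real.exp_nat_mul]
    norm_num
  rw [ray, ray, mul_pow, e1, e2]

theorem exists_even_one {g : ℝ → ℝ} (hc : TrigConvex 1 g) (hp : ∀ θ, g (θ + 2 * π) = g θ)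
    (hs : ∀ θ, g (-θ) = g θ) :
    ∃ F : ℂ → ℂ, Differentiable ℂ F ∧ (∀ z : ℂ, z.im ≠ 0 → F z ≠ 0) ∧
      (∀ z : ℂ, ‖F (conj z)‖ = ‖F z‖) ∧
      (∀ σ : ℝ, 1 < σ → ∀ᶠ z in cobounded ℂ, ‖F z‖ ≤ Real.exp (‖z‖ ^ σ)) ∧
      ∀ θ : ℝ, Real.sin (2 * θ) ≠ 0 → ∀ ε : ℝ, 0 < ε →
        (∀ᶠ t in atTop, Real.exp (-t) * Real.log ‖F (ray (Real.exp t) θ)‖ ≤ g θ + ε) ∧
        ∃ᶠ t in atTop, g θ - ε ≤ Real.exp (-t) * Real.log ‖F (ray (Real.exp t) θ)‖ := by
  have hcont : Continuous g := continuous_of_trigConvex one_pos hc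
  choose a b ha hle heq using exists_contact_one hc hp hs
  have haA : ∀ θ, a θ ≤ g (π / 2) := fun θ => by
    have := hle θ (π / 2)
    simpa using this
  have hb1 : ∀ θ, b θ ≤ g 0 := fun θ => by
    have := hle θ 0
    simpa using this
  have hb2 : ∀ θ, -g π ≤ b θ := fun θ => by
    have := hle θ π
    simp at this
    linarith
  have hgc : ∀ y θ : ℝ, -g π ≤ y → y ≤ g 0 → y * Real.cos θ ≤ g θ := by
    intro y θ h1 h2
    have h3 := hle 0 θ
    have h4 := hle π θ
    have h5 := heq 0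
    have h6 := heq π
    simp at h5 h6
    have h7 : 0 ≤ a 0 * |Real.sin θ| := mul_nonneg (ha _) (abs_nonneg _)
    have h8 : 0 ≤ a π * |Real.sin θ| := mul_nonneg (ha _) (abs_nonneg _)
    rw [h5] at h3
    have h9 : b π = -g π := by linarith
    rw [h9] at h4
    rcases le_total 0 (Real.cos θ) with h | h
    · exact (mul_le_mul_of_nonneg_right h2 h).trans (by linarith)
    · exact (mul_le_mul_of_nonpos_right h1 h).trans (by linarith)
  set ϑ : ℕ → ℝ := fun j => TopologicalSpace.denseSeq ℝ (Nat.unpair j).1 with hϑ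
  obtain ⟨L, hL⟩ := exists_nat_ge (g 0 - -g π + 2)
  obtain ⟨x, hx0, hxi, hxI, hxc⟩ := exists_param (b := fun j => b (ϑ j))
    (fun j => ⟨hb2 _, hb1 _⟩) hL
  have hR : 0 ≤ g 0 - -g π := by linarith [hb1 0, hb2 0]
  have hL1 : (1 : ℝ) ≤ L := by linarith
  have hL0 : 0 < L := by exact_mod_cast (by linarith : (0 : ℝ) < L)
  obtain ⟨Dr, hD1, hD2, hD3, hD4, hD5⟩ := exists_drift hx0 hxi
  set T : ℕ → ℝ := fun k => 2 * ((L * 2 ^ (k + 1) : ℕ) : ℝ) with hTdef
  have hT : ∀ j, T j + 2 * 2 ^ j ≤ T (j + 1) := by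
    intro j
    rw [hTdef]
    push_cast
    have h3 : (1 : ℝ) * 2 ^ j ≤ L * 2 ^ j := mul_le_mul_of_nonneg_right hL1 (by positivity)
    have h4 : (L : ℝ) * 2 ^ (j + 1) = 2 * (L * 2 ^ j) := by ring
    have h5 : (L : ℝ) * 2 ^ (j + 1 + 1) = 4 * (L * 2 ^ j) := by ring
    rw [h4, h5]
    have h6 : (0 : ℝ) < 2 ^ j := by positivity
    linarith
  have hT0 : 0 ≤ T 0 := by rw [hTdef]; positivity
  have hA : 0 ≤ g (π / 2) := (ha 0).trans (haA 0)
  obtain ⟨S, hS1, hS2, hS3, ⟨K, hK0, hK⟩, hS5⟩ := exists_f_pos (ρ := 1 / 2) (by norm_num)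
    (by norm_num) (M := g (π / 2))
    (m := fun k i => if i = 0 ∧ k % 2 = 0 then a (ϑ (k / 2)) else 0)
    (fun k i => by
      split_ifs
      · exact ⟨ha _, haA _⟩
      · exact ⟨le_rfl, hA⟩) hT hT0
  -- the asymptotics
  have hF : ∀ θ : ℝ, Real.sin (2 * θ) ≠ 0 → ∀ t : ℝ,
      S ((ray (Real.exp t) θ) ^ 2) ≠ 0 ∧ Dr (ray (Real.exp t) θ) ≠ 0 := by
    intro θ hθ t
    refine ⟨?_, hD2 _ ?_⟩
    · rw [ray_sq]
      exact (hS5 (2 * θ) hθ).1 _
    · rw [ray_im]
      refine mul_ne_zero (Real.exp_pos _).ne' fun h => hθ ?_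
      rw [Real.sin_two_mul, h]
      ring
  have hlog : ∀ θ : ℝ, Real.sin (2 * θ) ≠ 0 → ∀ t : ℝ,
      Real.exp (-t) * Real.log ‖S ((ray (Real.exp t) θ) ^ 2) * Dr (ray (Real.exp t) θ) *
        Complex.exp ((b (ϑ 0) : ℂ) * ray (Real.exp t) θ)‖ =
      Real.exp (-(1 / 2) * (2 * t)) * Real.log ‖S (ray (Real.exp (2 * t)) (2 * θ))‖ +
        Real.exp (-t) * Real.log ‖Dr (ray (Real.exp t) θ)‖ + b (ϑ 0) * Real.cos θ := by
    intro θ hθ t
    obtain ⟨h1, h2⟩ := hF θ hθ t
    rw [norm_mul, norm_mul, Real.log_mul (mul_ne_zero (norm_ne_zero_iff.2 h1)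
      (norm_ne_zero_iff.2 h2)) (norm_ne_zero_iff.2 (Complex.exp_ne_zero _)),
      Real.log_mul (norm_ne_zero_iff.2 h1) (norm_ne_zero_iff.2 h2), Complex.norm_exp,
      Real.log_exp, Complex.re_ofReal_mul, ray_re, ray_sq]
    have e1 : Real.exp (-t) * Real.exp t = 1 := by
      rw [← Real.exp_add, neg_add_cancel, Real.exp_zero]
    have e2 : -(1 / 2) * (2 * t) = -t := by ring
    rw [e2]
    linear_combination (b (ϑ 0) * Real.cos θ) * e1
  have hasym : ∀ θ : ℝ, Real.sin (2 * θ) ≠ 0 → ∀ ε : ℝ, 0 < ε → ∀ᶠ t in atTop,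
      ∀ j₀, (∀ j, j ≠ j₀ → chi T j (2 * t) = 0) →
      |Real.exp (-t) * Real.log ‖S ((ray (Real.exp t) θ) ^ 2) * Dr (ray (Real.exp t) θ) *
        Complex.exp ((b (ϑ 0) : ℂ) * ray (Real.exp t) θ)‖ -
        ((if j₀ % 2 = 0 then a (ϑ (j₀ / 2)) else 0) * |Real.sin θ| * chi T j₀ (2 * t) +
          (b (ϑ 0) + ∑ i ∈ Finset.range (⌊t⌋₊ + 1), x i) * Real.cos θ)| < ε := by
    intro θ hθ ε hε
    have h1 := (tendsto_id.const_mul_atTop (by norm_num : (0 : ℝ) < 2)).eventually
      ((hS5 (2 * θ) hθ).2 (ε / 2) (by linarith))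
    have hsin : Real.sin θ ≠ 0 := fun h => hθ (by rw [Real.sin_two_mul, h]; ring)
    have h2 := (Metric.tendsto_nhds.1 (hD5 θ hsin)) (ε / 2) (by linarith)
    filter_upwards [h1, h2] with t ht1 ht2 j₀ hj₀
    simp only [id] at ht1
    have h3 := ht1 j₀ hj₀
    rw [dist_zero_right, Real.norm_eq_abs] at ht2
    have e1 : ∑ i : Fin 2, (if i = 0 ∧ j₀ % 2 = 0 then a (ϑ (j₀ / 2)) else 0) *
        G (1 / 2) (2 * θ) = (if j₀ % 2 = 0 then a (ϑ (j₀ / 2)) else 0) * |Real.sin θ| := by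
      rw [Fin.sum_univ_two, G_half]
      simp
    rw [e1] at h3
    rw [hlog θ hθ]
    have h4 := (abs_add_le _ _).trans_lt (add_lt_add h3 ht2)
    rw [add_halves] at h4
    refine lt_of_le_of_lt (le_of_eq ?_) h4
    congr 1
    ring
  -- positions
  have hpos : ∀ (j : ℕ) (t : ℝ), 1 ≤ j → 2 * t ∈ Icc (T (2 * j)) (T (2 * j + 1)) → 0 ≤ t →
      2 * t < T (2 * j + 1) →
      |b (ϑ 0) + ∑ i ∈ Finset.range (⌊t⌋₊ + 1), x i - b (ϑ j)| ≤ 2 * Real.exp (-(t / 4)) := by
    intro j t hj ht ht0 ht2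
    have h1 : (L * 2 ^ (2 * j + 1) : ℕ) ≤ ⌊t⌋₊ := by
      refine Nat.le_floor ?_
      have := ht.1
      rw [hTdef] at this
      simp only at this
      linarith
    have h2 : ⌊t⌋₊ < (L * 2 ^ (2 * j + 2) : ℕ) := by
      rw [Nat.floor_lt ht0]
      rw [hTdef] at ht2
      simp only at ht2
      have e : 2 * j + 1 + 1 = 2 * j + 2 := by ring
      rw [e] at ht2
      linarith
    refine (hxc j (⌊t⌋₊ + 1) hj (by omega) (by omega)).trans ?_
    refine mul_le_mul_of_nonneg_left (Real.exp_le_exp.2 ?_) (by norm_num)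
    have := (Nat.lt_floor_add_one t).le
    push_cast
    linarith
  refine ⟨fun z => S (z ^ 2) * Dr z * Complex.exp ((b (ϑ 0) : ℂ) * z), ?_, ?_, ?_, ?_, ?_⟩
  · exact ((hS1.comp (differentiable_id.pow 2)).mul hD1).mul
      (Complex.differentiable_exp.comp (differentiable_id.const_mul _))
  · intro z hz
    refine mul_ne_zero (mul_ne_zero ?_ (hD2 z hz)) (Complex.exp_ne_zero _)
    intro h0
    by_cases h1 : (z ^ 2).im = 0
    · -- `z` is purely imaginary, `z ^ 2 < 0`
      have hre : z.re = 0 := by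
        have e : (z ^ 2).im = 2 * z.re * z.im := by
          rw [pow_two, Complex.mul_im]
          ring
        rw [e] at h1
        rcases mul_eq_zero.1 h1 with h | h
        · linarith
        · exact absurd h hz
      refine hS2 _ (Or.inr ?_) h0
      rw [pow_two, Complex.mul_re, hre]
      have := mul_self_pos.2 hz
      linarith
    · exact hS2 _ (Or.inl h1) h0
  · intro z
    rw [norm_mul, norm_mul, norm_mul, norm_mul, ← map_pow, hS3, hD3, Complex.norm_conj,
      Complex.norm_exp, Complex.norm_exp, Complex.re_ofReal_mul, Complex.re_ofReal_mul,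
      Complex.conj_re]
  · intro σ hσ
    obtain ⟨σ', h1, h2⟩ := exists_between hσ
    filter_upwards [hD4 σ' h1, (tendsto_norm_cobounded_atTop (E := ℂ)).eventually
      (eventually_mul_rpow_le h2 (1 + K + |b (ϑ 0)|)),
      (tendsto_norm_cobounded_atTop (E := ℂ)).eventually_ge_atTop 1] with z hz1 hz2 hz3
    have hz0 : z ≠ 0 := by
      rintro rfl
      rw [norm_zero] at hz3
      linarith
    have h3 := hK (z ^ 2) (pow_ne_zero 2 hz0)
    have h4 : ‖z ^ 2‖ ^ (1 / 2 : ℝ) = ‖z‖ := by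
      rw [norm_pow, ← Real.sqrt_eq_rpow, Real.sqrt_sq (norm_nonneg _)]
    rw [h4] at h3
    have h5 : ‖z‖ ≤ ‖z‖ ^ σ' := by
      nth_rewrite 1 [← Real.rpow_one ‖z‖]
      exact Real.rpow_le_rpow_of_exponent_le hz3 h1.le
    have h6 : ‖Complex.exp ((b (ϑ 0) : ℂ) * z)‖ ≤ Real.exp (|b (ϑ 0)| * ‖z‖ ^ σ') := by
      rw [Complex.norm_exp, Complex.re_ofReal_mul]
      refine Real.exp_le_exp.2 ?_
      calc b (ϑ 0) * z.re ≤ |b (ϑ 0) * z.re| := le_abs_self _
        _ = |b (ϑ 0)| * |z.re| := abs_mul _ _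
        _ ≤ |b (ϑ 0)| * ‖z‖ ^ σ' :=
            mul_le_mul_of_nonneg_left ((Complex.abs_re_le_norm z).trans h5) (abs_nonneg _)
    rw [norm_mul, norm_mul]
    calc ‖S (z ^ 2)‖ * ‖Dr z‖ * ‖Complex.exp ((b (ϑ 0) : ℂ) * z)‖ ≤
        Real.exp (K * ‖z‖ ^ σ') * Real.exp (‖z‖ ^ σ') * Real.exp (|b (ϑ 0)| * ‖z‖ ^ σ') := by
          refine mul_le_mul (mul_le_mul ?_ hz1 (norm_nonneg _) (Real.exp_pos _).le) h6
            (norm_nonneg _) (by positivity)
          exact h3.trans (Real.exp_le_exp.2 (mul_le_mul_of_nonneg_left h5 hK0))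
      _ = Real.exp ((1 + K + |b (ϑ 0)|) * ‖z‖ ^ σ') := by
          rw [← Real.exp_add, ← Real.exp_add]
          ring_nf
      _ ≤ _ := Real.exp_le_exp.2 hz2
  · intro θ hθ ε hε
    have hcos : |Real.cos θ| ≤ 1 := Real.abs_cos_le_one θ
    have hsin1 : |Real.sin θ| ≤ 1 := Real.abs_sin_le_one θ
    have hexp : ∀ᶠ t : ℝ in atTop, 2 * Real.exp (-(t / 4)) ≤ ε / 4 := by
      have h1 : Tendsto (fun t : ℝ => 2 * Real.exp (-(t / 4))) atTop (𝓝 (2 * 0)) := by
        refine (Real.tendsto_exp_atBot.comp ?_).const_mul 2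
        exact tendsto_neg_atTop_atBot.comp (tendsto_id.atTop_div_const (by norm_num))
      rw [mul_zero] at h1
      exact h1.eventually_le_const (by linarith)
    constructor
    · filter_upwards [hasym θ hθ (ε / 2) (by linarith), hexp, eventually_gt_atTop 0,
        eventually_ge_atTop (T 2)] with t ht1 ht2 ht0 htT
      obtain ⟨j₀, hj₀⟩ := chi_unique hT (2 * t)
      have h1 := (abs_lt.1 (ht1 j₀ hj₀)).2
      set B := b (ϑ 0) + ∑ i ∈ Finset.range (⌊t⌋₊ + 1), x i with hB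
      have hBc : B * Real.cos θ ≤ g θ := hgc B θ (hxI _).1 (hxI _).2
      have hχ0 := chi_nonneg T j₀ (2 * t)
      have hχ1 := chi_le_one T j₀ (2 * t)
      have key : (if j₀ % 2 = 0 then a (ϑ (j₀ / 2)) else 0) * |Real.sin θ| * chi T j₀ (2 * t) +
          B * Real.cos θ ≤ g θ + ε / 4 := by
        by_cases hz : chi T j₀ (2 * t) = 0
        · rw [hz, mul_zero, zero_add]
          linarith
        by_cases hpar : j₀ % 2 = 0
        · rw [if_pos hpar]
          obtain ⟨j, rfl⟩ : ∃ j, j₀ = 2 * j := ⟨j₀ / 2, by omega⟩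
          have e1 : 2 * j / 2 = j := by omega
          rw [e1]
          have hmem : 2 * t ∈ Ioo (T (2 * j)) (T (2 * j + 1)) := by
            by_contra hcon
            exact hz (chi_eq_zero hcon)
          have hj : 1 ≤ j := by
            by_contra hcon
            have h0 : j = 0 := by omega
            rw [h0] at hmem
            have h3 := mono_of_step hT (show 1 ≤ 2 by norm_num)
            have h4 := hmem.2
            simp only [mul_zero, zero_add] at h4
            linarith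
          have h3 := hpos j t hj ⟨hmem.1.le, hmem.2.le⟩ ht0.le hmem.2
          rw [← hB] at h3
          have h4 : (B - b (ϑ j)) * Real.cos θ ≤ ε / 4 := by
            calc (B - b (ϑ j)) * Real.cos θ ≤ |(B - b (ϑ j)) * Real.cos θ| := le_abs_self _
              _ = |B - b (ϑ j)| * |Real.cos θ| := abs_mul _ _
              _ ≤ |B - b (ϑ j)| * 1 := mul_le_mul_of_nonneg_left hcos (abs_nonneg _)
              _ ≤ ε / 4 := by linarith
          have h5 := hle (ϑ j) θ
          have h6 := hgc (b (ϑ j)) θ (hb2 _) (hb1 _)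
          nlinarith
        · rw [if_neg hpar, zero_mul, zero_mul, zero_add]
          linarith
      linarith
    · -- lower bound
      set M := g (π / 2) + (|g 0| + |g π|) + 1 with hM
      have hM0 : 0 < M := by
        rw [hM]
        have := abs_nonneg (g 0)
        have := abs_nonneg (g π)
        linarith
      obtain ⟨δ, hδ0, hδ⟩ := Metric.continuous_iff.1 hcont θ (ε / 8) (by linarith)
      obtain ⟨l, hl⟩ := (TopologicalSpace.denseRange_denseSeq ℝ).exists_dist_lt θ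
        (lt_min hδ0 (by positivity : 0 < ε / (8 * M)))
      have hl1 : |θ - TopologicalSpace.denseSeq ℝ l| ≤ ε / (8 * M) := by
        rw [← Real.dist_eq]
        exact hl.le.trans (min_le_right _ _)
      have hl2 : |g (TopologicalSpace.denseSeq ℝ l) - g θ| < ε / 8 := by
        rw [← Real.dist_eq]
        refine hδ _ ?_
        rw [dist_comm]
        exact hl.trans_le (min_le_left _ _)
      obtain ⟨t₁, ht₁⟩ := eventually_atTop.1 ((hasym θ hθ (ε / 4) (by linarith)).and hexp)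
      refine frequently_atTop.2 fun X => ?_
      set k : ℕ := ⌈max (max t₁ X) 1⌉₊ with hk
      set j : ℕ := Nat.pair l k with hj
      have hk1 : 1 ≤ k := by
        have h3 : (1 : ℝ) ≤ k := (le_max_right _ _).trans (Nat.le_ceil _)
        exact_mod_cast h3
      have hjk : k ≤ j := Nat.right_le_pair l k
      have hϑj : ϑ j = TopologicalSpace.denseSeq ℝ l := by
        rw [hϑ, hj]
        simp
      set t : ℝ := (T (2 * j) + T (2 * j + 1)) / 4 with ht
      have h2t : 2 * t = (T (2 * j) + T (2 * j + 1)) / 2 := by rw [ht]; ring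
      have hTstep := hT (2 * j)
      have hp2 : (0 : ℝ) < 2 ^ (2 * j) := by positivity
      have hmem : 2 * t ∈ Icc (T (2 * j)) (T (2 * j + 1)) := by
        rw [h2t]
        constructor <;> linarith
      have hlt : 2 * t < T (2 * j + 1) := by rw [h2t]; linarith
      have hTj : ((2 * j : ℕ) : ℝ) ≤ T (2 * j) := le_of_step hT hT0 _
      have htj : (j : ℝ) ≤ t := by
        push_cast at hTj
        rw [ht]
        linarith
      have htk : (k : ℝ) ≤ t := le_trans (by exact_mod_cast hjk) htj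
      have htX : max (max t₁ X) 1 ≤ t := (Nat.le_ceil _).trans htk
      have ht0 : 0 ≤ t := zero_le_one.trans ((le_max_right _ _).trans htX)
      have hchi : chi T (2 * j) (2 * t) = 1 := by rw [h2t]; exact chi_mid hT (2 * j)
      have hj₀ : ∀ j', j' ≠ 2 * j → chi T j' (2 * t) = 0 := by
        obtain ⟨j₀, h1⟩ := chi_unique hT (2 * t)
        have : 2 * j = j₀ := by
          by_contra hcon
          rw [h1 _ hcon] at hchi
          exact zero_ne_one hchi
        rwa [this]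
      obtain ⟨h5, h6⟩ := ht₁ t (((le_max_left _ _).trans (le_max_left _ _)).trans htX)
      have h7 := (abs_lt.1 (h5 (2 * j) hj₀)).1
      have e1 : 2 * j % 2 = 0 := by omega
      have e2 : 2 * j / 2 = j := by omega
      rw [hchi, mul_one, if_pos e1, e2] at h7
      set B := b (ϑ 0) + ∑ i ∈ Finset.range (⌊t⌋₊ + 1), x i with hB
      have h8 := hpos j t (hk1.trans hjk) hmem ht0 hlt
      rw [← hB] at h8
      have h9 : -(ε / 4) ≤ (B - b (ϑ j)) * Real.cos θ := by
        have : |(B - b (ϑ j)) * Real.cos θ| ≤ ε / 4 := by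
          calc |(B - b (ϑ j)) * Real.cos θ| = |B - b (ϑ j)| * |Real.cos θ| := abs_mul _ _
            _ ≤ |B - b (ϑ j)| * 1 := mul_le_mul_of_nonneg_left hcos (abs_nonneg _)
            _ ≤ ε / 4 := by linarith
        exact (abs_le.1 this).1
      have h10 : g (ϑ j) - ε / 4 ≤ b (ϑ j) * Real.cos θ + a (ϑ j) * |Real.sin θ| := by
        have e3 := heq (ϑ j)
        have e4 : |θ - ϑ j| ≤ ε / (8 * M) := by rw [hϑj]; exact hl1
        have e5 : |Real.cos (ϑ j) - Real.cos θ| ≤ |θ - ϑ j| := by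
          rw [abs_sub_comm θ]
          exact Real.abs_cos_sub_cos_le _ _
        have e6 : |(|Real.sin (ϑ j)| - |Real.sin θ|)| ≤ |θ - ϑ j| := by
          rw [abs_sub_comm θ]
          exact (abs_abs_sub_abs_le_abs_sub _ _).trans (Real.abs_sin_sub_sin_le _ _)
        have e7 : |b (ϑ j)| ≤ |g 0| + |g π| := by
          rw [abs_le]
          constructor
          · linarith [hb2 (ϑ j), le_abs_self (g π), abs_nonneg (g 0)]
          · linarith [hb1 (ϑ j), le_abs_self (g 0), abs_nonneg (g π)]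
        have e8 : b (ϑ j) * (Real.cos (ϑ j) - Real.cos θ) ≤ (|g 0| + |g π|) * |θ - ϑ j| := by
          calc b (ϑ j) * (Real.cos (ϑ j) - Real.cos θ) ≤
              |b (ϑ j) * (Real.cos (ϑ j) - Real.cos θ)| := le_abs_self _
            _ = |b (ϑ j)| * |Real.cos (ϑ j) - Real.cos θ| := abs_mul _ _
            _ ≤ _ := mul_le_mul e7 e5 (abs_nonneg _) (by positivity)
        have e9 : a (ϑ j) * (|Real.sin (ϑ j)| - |Real.sin θ|) ≤ g (π / 2) * |θ - ϑ j| := by
          calc a (ϑ j) * (|Real.sin (ϑ j)| - |Real.sin θ|) ≤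
              |a (ϑ j) * (|Real.sin (ϑ j)| - |Real.sin θ|)| := le_abs_self _
            _ = |a (ϑ j)| * |(|Real.sin (ϑ j)| - |Real.sin θ|)| := abs_mul _ _
            _ ≤ _ := mul_le_mul (by rw [abs_of_nonneg (ha _)]; exact haA _) e6 (abs_nonneg _) hA
        have e10 : (|g 0| + |g π|) * |θ - ϑ j| + g (π / 2) * |θ - ϑ j| ≤ ε / 8 := by
          have e11 : ((|g 0| + |g π|) + g (π / 2)) * |θ - ϑ j| ≤ M * (ε / (8 * M)) :=
            mul_le_mul (by rw [hM]; linarith) e4 (abs_nonneg _) hM0.le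
          have e12 : M * (ε / (8 * M)) = ε / 8 := by field_simp
          linarith
        linarith
      have h11 : g θ - ε / 8 ≤ g (ϑ j) := by
        rw [hϑj]
        linarith [(abs_lt.1 hl2).1]
      refine ⟨t, ((le_max_right _ _).trans (le_max_left _ _)).trans htX, ?_⟩
      linarith

end HBInd
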