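import Pool.Agent.HBInd.Defs

/-!
# Trigonometrically convex functions

Paper proofs. Let `h` be `ρ`-trigonometrically convex and `θ₀` real.

* `exists_support`: `q(θ) = (h(θ) - h(θ₀) cos ρ(θ - θ₀)) / sin ρ(θ - θ₀)`, `0 < |θ - θ₀| < π / ρ`, is
  increasing on the right of `θ₀` (convexity at `θ₀ < θ < θ'`), and `q(θ₋) ≤ q(θ₊)` if
  `θ₋ < θ₀ < θ₊ < θ₋ + π / ρ`; also increasing on the left. Take `c = inf` of `q` on the right.
* `continuous_of_trigConvex`: below from the support sinusoid, above from convexity.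
* `nonneg_of_trigConvex` (`ρ ≤ 1/2`, `h` periodic): for `ρ < 1/2` use the support sinusoid at
  `θ₀ ± 2 π` (note `2 π < π / ρ`) and add: `2 h(θ₀) ≥ 2 h(θ₀) cos 2 π ρ`. For `ρ = 1/2` use
  `θ₀ ± (2 π - ε)` and continuity (or: at `θ₀ + 2 π - ε` the support sinusoid is
  `-h(θ₀) cos (ε/2) + c sin (ε/2) ≤ h(θ₀ - ε)`, let `ε → 0`).
-/

namespace HBInd

open Complex Filter Topology Set
open scoped Real

/-- `G ρ ψ = cos (ρ (π - |ψ|))` for `|ψ| ≤ π`, and `2 π`-periodic: the (normalised) indicator of a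
function with zeros on the positive ray -/
noncomputable def G (ρ ψ : ℝ) : ℝ := Real.cos (ρ * Complex.arg (-Complex.exp ((ψ : ℂ) * I)))

theorem G_of_abs_le {ρ ψ : ℝ} (h : |ψ| ≤ π) : G ρ ψ = Real.cos (ρ * (π - |ψ|)) := by
  have hpi := Real.pi_pos
  rw [abs_le] at h
  rw [G]
  rcases lt_or_ge 0 ψ with h0 | h0
  · have e : -Complex.exp ((ψ : ℂ) * I) = Complex.exp (((ψ - π : ℝ) : ℂ) * I) := by
      push_cast
      rw [sub_mul, Complex.exp_sub, Complex.exp_pi_mul_I, div_neg, div_one]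
    have h2 : Complex.arg (Complex.exp (((ψ - π : ℝ) : ℂ) * I)) = ψ - π := by
      rw [Complex.arg_exp_mul_I, toIocMod_eq_self]
      constructor <;> linarith [h.2]
    rw [e, h2, abs_of_pos h0, ← Real.cos_neg]
    congr 1
    ring
  · have e : -Complex.exp ((ψ : ℂ) * I) = Complex.exp (((ψ + π : ℝ) : ℂ) * I) := by
      push_cast
      rw [add_mul, Complex.exp_add, Complex.exp_pi_mul_I, mul_neg, mul_one]
    have h2 : Complex.arg (Complex.exp (((ψ + π : ℝ) : ℂ) * I)) = ψ + π := by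
      rw [Complex.arg_exp_mul_I, toIocMod_eq_self]
      constructor <;> linarith [h.1]
    rw [e, h2, abs_of_nonpos h0]
    congr 1
    ring

theorem G_add_int (ρ ψ : ℝ) (n : ℤ) : G ρ (ψ + n * (2 * π)) = G ρ ψ := by
  have e : ((ψ + n * (2 * π) : ℝ) : ℂ) * I = (ψ : ℂ) * I + n * (2 * π * I) := by
    push_cast
    ring
  rw [G, G, e, Complex.exp_add, Complex.exp_int_mul_two_pi_mul_I, mul_one]

theorem abs_G_le (ρ ψ : ℝ) : |G ρ ψ| ≤ 1 := Real.abs_cos_le_one _

/-- reduction to the interval `[-π, π]` -/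
theorem exists_reduce (ρ x : ℝ) : ∃ d : ℝ, 0 ≤ d ∧ d ≤ π ∧ G ρ x = Real.cos (ρ * (π - d)) ∧
    ∀ m : ℤ, d ≤ |x - m * (2 * π)| ∧ (∃ n : ℤ, d = |x - n * (2 * π)|) := by
  have hpi := Real.pi_pos
  have hp2 : 0 < 2 * π := by positivity
  set n : ℤ := round (x / (2 * π)) with hn
  have key : ∀ m : ℤ, |x - m * (2 * π)| = 2 * π * |x / (2 * π) - m| := by
    intro m
    have h1 : x - m * (2 * π) = 2 * π * (x / (2 * π) - m) := by
      field_simp
    rw [h1, abs_mul, abs_of_pos hp2]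
  have hle : |x - n * (2 * π)| ≤ π := by
    rw [key]
    have := abs_sub_round (x / (2 * π))
    nlinarith
  refine ⟨|x - n * (2 * π)|, abs_nonneg _, hle, ?_, ?_⟩
  · rw [← G_of_abs_le hle]
    have h1 := G_add_int ρ (x - n * (2 * π)) n
    rw [sub_add_cancel] at h1
    exact h1
  · intro m
    refine ⟨?_, n, rfl⟩
    rw [key, key]
    exact mul_le_mul_of_nonneg_left (round_le _ _) hp2.le

theorem abs_G_sub_le {ρ : ℝ} (hρ : 0 ≤ ρ) (x y : ℝ) : |G ρ x - G ρ y| ≤ ρ * |x - y| := by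
  obtain ⟨d, hd0, hd1, hd2, hd3⟩ := exists_reduce ρ x
  obtain ⟨e, he0, he1, he2, he3⟩ := exists_reduce ρ y
  have h1 : d ≤ |x - y| + e := by
    obtain ⟨-, n, hn⟩ := he3 0
    have h2 := (hd3 n).1
    have h3 : |x - n * (2 * π)| ≤ |x - y| + |y - n * (2 * π)| := abs_sub_le x y _
    rw [hn]
    linarith
  have h2 : e ≤ |x - y| + d := by
    obtain ⟨-, n, hn⟩ := hd3 0
    have h2 := (he3 n).1
    have h3 : |y - n * (2 * π)| ≤ |y - x| + |x - n * (2 * π)| := abs_sub_le y x _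
    rw [abs_sub_comm y x] at h3
    rw [hn]
    linarith
  rw [hd2, he2]
  refine (Real.abs_cos_sub_cos_le _ _).trans ?_
  rw [← mul_sub, abs_mul, abs_of_nonneg hρ]
  refine mul_le_mul_of_nonneg_left ?_ hρ
  rw [abs_le]
  constructor <;> linarith

theorem exists_support {ρ : ℝ} (hρ : 0 < ρ) {h : ℝ → ℝ} (hc : TrigConvex ρ h) (θ₀ : ℝ) :
    ∃ c : ℝ, ∀ θ, |θ - θ₀| < π / ρ →
      h θ₀ * Real.cos (ρ * (θ - θ₀)) + c * Real.sin (ρ * (θ - θ₀)) ≤ h θ := by
  have hP : 0 < π / ρ := div_pos Real.pi_pos hρ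
  have hρP : ρ * (π / ρ) = π := by field_simp
  have hlt : ∀ x : ℝ, x < π / ρ → ρ * x < π := fun x hx => by
    have := mul_lt_mul_of_pos_left hx hρ
    rwa [hρP] at this
  have hsin : ∀ x : ℝ, 0 < x → x < π / ρ → 0 < Real.sin (ρ * x) := fun x h0 h1 =>
    Real.sin_pos_of_pos_of_lt_pi (mul_pos hρ h0) (hlt x h1)
  set q : ℝ → ℝ := fun θ => (h θ - h θ₀ * Real.cos (ρ * (θ - θ₀))) / Real.sin (ρ * (θ - θ₀)) with hq
  have hmono : ∀ θ θ', θ₀ < θ → θ < θ' → θ' - θ₀ < π / ρ → q θ ≤ q θ' := by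
    intro θ θ' h1 h2 h3
    have h4 := hc θ₀ θ θ' h1 h2 h3
    have e1 : Real.sin (ρ * (θ' - θ)) = Real.sin (ρ * (θ' - θ₀)) * Real.cos (ρ * (θ - θ₀)) -
        Real.cos (ρ * (θ' - θ₀)) * Real.sin (ρ * (θ - θ₀)) := by
      rw [← Real.sin_sub]
      congr 1
      ring
    rw [e1] at h4
    have hs1 : 0 < Real.sin (ρ * (θ - θ₀)) := hsin _ (by linarith) (by linarith)
    have hs2 : 0 < Real.sin (ρ * (θ' - θ₀)) := hsin _ (by linarith) h3
    simp only [hq]
    rw [div_le_div_iff₀ hs1 hs2]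
    nlinarith
  have hcross : ∀ a b, a < θ₀ → θ₀ < b → b - a < π / ρ → q a ≤ q b := by
    intro a b h1 h2 h3
    have h4 := hc a θ₀ b h1 h2 h3
    have e1 : Real.sin (ρ * (b - a)) = Real.sin (ρ * (b - θ₀)) * Real.cos (ρ * (θ₀ - a)) +
        Real.cos (ρ * (b - θ₀)) * Real.sin (ρ * (θ₀ - a)) := by
      rw [← Real.sin_add]
      congr 1
      ring
    rw [e1] at h4
    have hs1 : 0 < Real.sin (ρ * (b - θ₀)) := hsin _ (by linarith) (by linarith)
    have hs2 : 0 < Real.sin (ρ * (θ₀ - a)) := hsin _ (by linarith) (by linarith)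
    have e2 : q a = -(h a - h θ₀ * Real.cos (ρ * (θ₀ - a))) / Real.sin (ρ * (θ₀ - a)) := by
      simp only [hq]
      have e3 : ρ * (a - θ₀) = -(ρ * (θ₀ - a)) := by ring
      rw [e3, Real.cos_neg, Real.sin_neg, div_neg, neg_div]
    rw [e2]
    simp only [hq]
    rw [div_le_div_iff₀ hs2 hs1]
    nlinarith
  have hsep : ∀ a b, a < θ₀ → θ₀ - a < π / ρ → θ₀ < b → b - θ₀ < π / ρ → q a ≤ q b := by
    intro a b h1 h2 h3 h4
    have h5 : θ₀ < min b (a + π / ρ) := lt_min h3 (by linarith)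
    obtain ⟨t, ht1, ht2⟩ := exists_between h5
    have h6 : q a ≤ q t := hcross a t h1 ht1 (by linarith [min_le_right b (a + π / ρ)])
    exact h6.trans (hmono t b ht1 (lt_of_lt_of_le ht2 (min_le_left _ _)) h4)
  set A : Set ℝ := q '' {a | a < θ₀ ∧ θ₀ - a < π / ρ} with hA
  have hAne : A.Nonempty := ⟨_, θ₀ - π / ρ / 2, ⟨by linarith, by linarith⟩, rfl⟩
  have hAb : ∀ b, θ₀ < b → b - θ₀ < π / ρ → q b ∈ upperBounds A := by
    rintro b h1 h2 _ ⟨a, ⟨h3, h4⟩, rfl⟩
    exact hsep a b h3 h4 h1 h2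
  have hAbd : BddAbove A := ⟨_, hAb (θ₀ + π / ρ / 2) (by linarith) (by linarith)⟩
  refine ⟨sSup A, fun θ hθ => ?_⟩
  rw [abs_lt] at hθ
  rcases lt_trichotomy θ θ₀ with h1 | h1 | h1
  · have h2 : q θ ≤ sSup A := le_csSup hAbd ⟨θ, ⟨h1, by linarith⟩, rfl⟩
    have hs : Real.sin (ρ * (θ - θ₀)) < 0 := by
      have := hsin (θ₀ - θ) (by linarith) (by linarith)
      have e3 : ρ * (θ - θ₀) = -(ρ * (θ₀ - θ)) := by ring
      rw [e3, Real.sin_neg]
      linarith
    simp only [hq] at h2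
    rw [div_le_iff_of_neg hs] at h2
    linarith
  · subst h1
    simp
  · have h2 : sSup A ≤ q θ := csSup_le hAne (hAb θ h1 (by linarith))
    have hs : 0 < Real.sin (ρ * (θ - θ₀)) := hsin _ (by linarith) (by linarith)
    simp only [hq] at h2
    rw [le_div_iff₀ hs] at h2
    linarith

theorem continuous_of_trigConvex {ρ : ℝ} (hρ : 0 < ρ) {h : ℝ → ℝ} (hc : TrigConvex ρ h) :
    Continuous h := by
  rw [continuous_iff_continuousAt]
  intro θ₀
  have hP : 0 < π / ρ := div_pos Real.pi_pos hρ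
  have hρP : ρ * (π / ρ) = π := by field_simp
  obtain ⟨c, hsup⟩ := exists_support hρ hc θ₀
  set C : ℝ := max |h (θ₀ + π / ρ / 2)| |h (θ₀ - π / ρ / 2)| with hC
  have hup : ∀ θ, |θ - θ₀| < π / ρ / 2 →
      h θ ≤ h θ₀ * Real.cos (ρ * (θ - θ₀)) + C * |Real.sin (ρ * (θ - θ₀))| := by
    intro θ hθ
    rw [abs_lt] at hθ
    rcases lt_trichotomy θ θ₀ with h1 | h1 | h1
    · have h2 := hc (θ₀ - π / ρ / 2) θ θ₀ (by linarith) h1 (by linarith)
      have e1 : ρ * (θ₀ - (θ₀ - π / ρ / 2)) = π / 2 := by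
        field_simp
        ring
      have e2 : ρ * (θ - (θ₀ - π / ρ / 2)) = ρ * (θ - θ₀) + π / 2 := by
        field_simp
        ring
      have e3 : ρ * (θ₀ - θ) = -(ρ * (θ - θ₀)) := by ring
      rw [e1, e2, e3, Real.sin_pi_div_two, Real.sin_add_pi_div_two, Real.sin_neg, mul_one] at h2
      have h3 : h (θ₀ - π / ρ / 2) * -Real.sin (ρ * (θ - θ₀)) ≤
          C * |Real.sin (ρ * (θ - θ₀))| := by
        refine (le_abs_self _).trans ?_
        rw [abs_mul, abs_neg]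
        exact mul_le_mul_of_nonneg_right (le_max_right _ _) (abs_nonneg _)
      linarith
    · subst h1
      simp
    · have h2 := hc θ₀ θ (θ₀ + π / ρ / 2) h1 (by linarith) (by linarith)
      have e1 : ρ * (θ₀ + π / ρ / 2 - θ₀) = π / 2 := by
        field_simp
        ring
      have e2 : ρ * (θ₀ + π / ρ / 2 - θ) = π / 2 - ρ * (θ - θ₀) := by
        field_simp
        ring
      rw [e1, e2, Real.sin_pi_div_two, Real.sin_pi_div_two_sub, mul_one] at h2
      have h3 : h (θ₀ + π / ρ / 2) * Real.sin (ρ * (θ - θ₀)) ≤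
          C * |Real.sin (ρ * (θ - θ₀))| := by
        refine (le_abs_self _).trans ?_
        rw [abs_mul]
        exact mul_le_mul_of_nonneg_right (le_max_left _ _) (abs_nonneg _)
      linarith
  have hlow : Tendsto (fun θ => h θ₀ * Real.cos (ρ * (θ - θ₀)) + c * Real.sin (ρ * (θ - θ₀)))
      (𝓝 θ₀) (𝓝 (h θ₀)) := by
    have h1 : Continuous
        (fun θ => h θ₀ * Real.cos (ρ * (θ - θ₀)) + c * Real.sin (ρ * (θ - θ₀))) := by
      fun_prop
    have h2 := h1.tendsto θ₀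
    simpa using h2
  have hhigh : Tendsto (fun θ => h θ₀ * Real.cos (ρ * (θ - θ₀)) + C * |Real.sin (ρ * (θ - θ₀))|)
      (𝓝 θ₀) (𝓝 (h θ₀)) := by
    have h1 : Continuous
        (fun θ => h θ₀ * Real.cos (ρ * (θ - θ₀)) + C * |Real.sin (ρ * (θ - θ₀))|) := by
      fun_prop
    have h2 := h1.tendsto θ₀
    simpa using h2
  have hev : ∀ r : ℝ, 0 < r → ∀ᶠ θ in 𝓝 θ₀, |θ - θ₀| < r := fun r hr => by
    have := Metric.ball_mem_nhds θ₀ hr
    filter_upwards [this] with θ hθ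
    rwa [Metric.mem_ball, Real.dist_eq] at hθ
  refine tendsto_of_tendsto_of_tendsto_of_le_of_le' hlow hhigh ?_ ?_
  · filter_upwards [hev _ hP] with θ hθ using hsup θ hθ
  · filter_upwards [hev (π / ρ / 2) (by positivity)] with θ hθ using hup θ hθ

theorem nonneg_of_trigConvex {ρ : ℝ} (hρ : 0 < ρ) (hρ2 : ρ ≤ 1 / 2) {h : ℝ → ℝ}
    (hc : TrigConvex ρ h) (hp : ∀ θ, h (θ + 2 * π) = h θ) (θ : ℝ) : 0 ≤ h θ := by
  have hpi := Real.pi_pos
  obtain ⟨c, hsup⟩ := exists_support hρ hc θ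
  rcases lt_or_eq_of_le hρ2 with h1 | h1
  · have h2 : 2 * π < π / ρ := by
      rw [lt_div_iff₀ hρ]
      nlinarith
    have h3 := hsup (θ + 2 * π) (by rw [add_sub_cancel_left, abs_of_pos (by positivity)]; exact h2)
    have h4 := hsup (θ - 2 * π) (by
      rw [sub_sub_cancel_left, abs_neg, abs_of_pos (by positivity)]; exact h2)
    have h5 : h (θ - 2 * π) = h θ := by
      rw [← hp (θ - 2 * π), sub_add_cancel]
    have e1 : ρ * (θ + 2 * π - θ) = ρ * (2 * π) := by ring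
    have e2 : ρ * (θ - 2 * π - θ) = -(ρ * (2 * π)) := by ring
    rw [hp, e1] at h3
    rw [h5, e2, Real.cos_neg, Real.sin_neg] at h4
    have h6 : Real.cos (ρ * (2 * π)) < 1 := by
      have h7 : 0 < ρ * (2 * π) := by positivity
      have h8 : ρ * (2 * π) < π := by nlinarith
      have := Real.cos_lt_cos_of_nonneg_of_le_pi le_rfl h8.le h7
      rwa [Real.cos_zero] at this
    nlinarith
  · subst h1
    have hcont := continuous_of_trigConvex hρ hc
    have hl : Tendsto (fun ε : ℝ => -(h θ * Real.cos (ε / 2)) + c * Real.sin (ε / 2)) (𝓝[>] 0)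
        (𝓝 (-h θ)) := by
      have h1 : Continuous (fun ε : ℝ => -(h θ * Real.cos (ε / 2)) + c * Real.sin (ε / 2)) := by
        fun_prop
      have h2 := h1.tendsto 0
      refine Tendsto.mono_left ?_ nhdsWithin_le_nhds
      simpa using h2
    have hr : Tendsto (fun ε : ℝ => h (θ - ε)) (𝓝[>] 0) (𝓝 (h θ)) := by
      have h1 : Continuous (fun ε : ℝ => h (θ - ε)) := by fun_prop
      have h2 := h1.tendsto 0
      refine Tendsto.mono_left ?_ nhdsWithin_le_nhds
      simpa using h2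
    have hle : -h θ ≤ h θ := by
      refine le_of_tendsto_of_tendsto hl hr ?_
      have hev : ∀ᶠ ε : ℝ in 𝓝[>] 0, ε < 2 * π :=
        nhdsWithin_le_nhds (Iio_mem_nhds (by positivity))
      filter_upwards [self_mem_nhdsWithin, hev] with ε hε0 hε1
      have hε0' : 0 < ε := hε0
      have e0 : π / (1 / 2 : ℝ) = 2 * π := by ring
      have h3 := hsup (θ - ε + 2 * π) (by
        rw [e0, abs_lt]
        constructor <;> linarith)
      rw [hp] at h3
      have e1 : 1 / 2 * (θ - ε + 2 * π - θ) = π - ε / 2 := by ring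
      rw [e1, Real.cos_pi_sub, Real.sin_pi_sub] at h3
      linarith
    linarith

end HBInd
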