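import Pool.Agent.HBInd.Prod
import Pool.Agent.HBInd.Nec
import Pool.Agent.HBInd.Trig

/-!
# Functions of minimal and of infinite type

Paper proofs.

* `eq_zero_of_nonpos`: if `h ≤ 0` is `ρ`-trigonometrically convex then `h = 0`: the support sinusoid
  (`exists_support`) at a point with `h(θ₀) < 0` tends to `-h(θ₀) > 0` as `θ → θ₀ + π / ρ`.
* `exists_minimal`: index set `Σ j : ℕ, Fin (m j)`, `c = -1 / 2 ^ j`, `m j = ⌊2 ^ (ρ j) / (j + 1) ^ 2⌋₊`
  (zeros `-2 ^ j` with multiplicity `m j`). `∑ m_j 2^{-σ j} < ∞` for `σ ≥ ρ`, so `exists_pre` applies.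
  `log |f z| ≤ ∑_j m_j log (1 + |z| / 2^j)`; divided by `|z| ^ ρ` this tends to `0` by
  `tendsto_tsum_of_dominated_convergence` (`log (1 + x) ≤ x ^ ρ / ρ` gives the summable majorant
  `1 / (ρ (j + 1)^2)`, and each term tends to `0`). So all `ind ≤ 0`.
  For `r = 2 ^ j`: `|f r| ≥ (1 + r / 2^j)^{m_j} = 2 ^ {m_j}` (all factors are `≥ 1`), and
  `m_j log 2 > 2 ^ (σ j)` for `σ < ρ` and large `j`: `Pre.inClass_of_frequently`. Now `ind` is finite
  everywhere (`≤ 0`, `≠ ⊥` by `ind_ne_bot`), so real valued, `trigConvex_of_ind`, `eq_zero_of_nonpos`.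
* `exists_maximal`: the same with `m j = ⌊(j + 1) 2 ^ (ρ j)⌋₊`; `r = 2 ^ j` gives
  `log |f r| ≥ m_j log 2 ≥ K r ^ ρ` for large `j` and any `K`: `le_ind_of_frequently`, `Pre.inClass`.
* `exists_maximal_even` (used for the order `1/2`): zeros `± 2 ^ j` with multiplicity
  `m j = ⌊(j + 1) 2 ^ (ρ j)⌋₊` (index `Σ j : ℕ, Fin (m j) × Bool`); `f` is even because
  `log |f z| = log |f (-z)|` off the real axis and by continuity (only `ind` is needed:
  `ind ρ f (θ + π) = ind ρ f θ`; it is simplest to show `‖f (-z)‖ = ‖f z‖` for `z` not a zero by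
  reindexing the `HasSum`, and for zeros because the zero set is symmetric, or by continuity).
  `|f (i 2^j)| ≥ 2 ^ {m_j}`.
-/

namespace HBInd

open Complex Filter Topology Set Bornology
open scoped Real ComplexConjugate

theorem eq_zero_of_nonpos {ρ : ℝ} (hρ : 0 < ρ) {h : ℝ → ℝ} (hc : TrigConvex ρ h)
    (h0 : ∀ θ, h θ ≤ 0) (θ : ℝ) : h θ = 0 := by
  refine le_antisymm (h0 θ) ?_
  obtain ⟨c, hc⟩ := exists_support hρ hc θ
  have hcont : Continuous fun x : ℝ => h θ * Real.cos x + c * Real.sin x := by fun_prop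
  have hlim : Tendsto (fun x : ℝ => h θ * Real.cos x + c * Real.sin x) (𝓝[<] π)
      (𝓝 (h θ * Real.cos π + c * Real.sin π)) :=
    (hcont.tendsto π).mono_left nhdsWithin_le_nhds
  have hle : h θ * Real.cos π + c * Real.sin π ≤ 0 := by
    refine le_of_tendsto hlim ?_
    have h1 : ∀ᶠ x : ℝ in 𝓝[<] π, x ∈ Ioo 0 π := Ioo_mem_nhdsLT Real.pi_pos
    filter_upwards [h1] with x hx
    have h2 := hc (θ + x / ρ) (by
      rw [add_sub_cancel_left, abs_of_pos (div_pos hx.1 hρ)]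
      exact (div_lt_div_iff_of_pos_right hρ).2 hx.2)
    rw [add_sub_cancel_left, mul_div_cancel₀ _ hρ.ne'] at h2
    exact h2.trans (h0 _)
  rw [Real.cos_pi, Real.sin_pi] at hle
  linarith

section base

variable {m : ℕ → ℕ} {κ : Type}

/-- index type: `m j` copies of `κ` for each `j` -/
abbrev Idx (m : ℕ → ℕ) (κ : Type) : Type := Σ j : ℕ, Fin (m j) × κ

/-- the coefficients `e s / 2 ^ j` -/
noncomputable def cf (e : κ → ℝ) (i : Idx m κ) : ℂ := ((e i.2.2 / 2 ^ i.1 : ℝ) : ℂ)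

lemma norm_cf {e : κ → ℝ} (he : ∀ s, |e s| = 1) (i : Idx m κ) : ‖cf e i‖ = ((2 : ℝ) ^ i.1)⁻¹ := by
  rw [cf, Complex.norm_real, Real.norm_eq_abs, abs_div, he, abs_of_pos (by positivity), one_div]

lemma two_pow_rpow (j : ℕ) (x : ℝ) : ((2 : ℝ) ^ j) ^ x = ((2 : ℝ) ^ x) ^ j := by
  rw [← Real.rpow_natCast, ← Real.rpow_mul (by norm_num), mul_comm, Real.rpow_mul (by norm_num),
    Real.rpow_natCast]

lemma tendsto_sq_mul {r : ℝ} (h0 : 0 < r) (h1 : r < 1) :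
    Tendsto (fun j : ℕ => ((j : ℝ) + 1) ^ 2 * r ^ j) atTop (𝓝 0) := by
  have h2 := (tendsto_pow_const_mul_const_pow_of_abs_lt_one 2 (r := r)
    (by rw [abs_of_pos h0]; exact h1)).comp (tendsto_add_atTop_nat 1)
  have h3 := h2.const_mul r⁻¹
  rw [mul_zero] at h3
  refine h3.congr fun j => ?_
  simp only [Function.comp_apply, pow_succ, Nat.cast_add, Nat.cast_one]
  field_simp

variable [Fintype κ]

lemma summable_cf {ρ σ : ℝ} (hm : ∀ j, (m j : ℝ) ≤ (j + 1) * ((2 : ℝ) ^ j) ^ ρ) {e : κ → ℝ}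
    (he : ∀ s, |e s| = 1) (hσ : ρ < σ) : Summable fun i : Idx m κ => ‖cf e i‖ ^ σ := by
  rw [summable_sigma_of_nonneg (fun i => Real.rpow_nonneg (norm_nonneg _) _)]
  refine ⟨fun j => (hasSum_fintype _).summable, ?_⟩
  set b : ℝ := (2 : ℝ) ^ (ρ - σ) with hb
  have hb0 : 0 < b := Real.rpow_pos_of_pos (by norm_num) _
  have hb1 : b < 1 := Real.rpow_lt_one_of_one_lt_of_neg (by norm_num) (by linarith)
  have hsum : Summable fun j : ℕ => (Fintype.card κ : ℝ) * (((j : ℝ) ^ 1 * b ^ j) + b ^ j) := by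
    refine Summable.mul_left _ (Summable.add ?_ ?_)
    · exact summable_pow_mul_geometric_of_norm_lt_one 1 (by
        rw [Real.norm_of_nonneg hb0.le]; exact hb1)
    · exact summable_geometric_of_lt_one hb0.le hb1
  refine Summable.of_nonneg_of_le (fun j => tsum_nonneg fun _ =>
    Real.rpow_nonneg (norm_nonneg _) _) (fun j => ?_) hsum
  have h1 : ∀ y : Fin (m j) × κ, ‖cf e (⟨j, y⟩ : Idx m κ)‖ ^ σ = ((2 : ℝ) ^ j) ^ (-σ) := by
    intro y
    rw [norm_cf he, Real.inv_rpow (by positivity), Real.rpow_neg (by positivity)]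
  simp only [h1, tsum_fintype, Finset.sum_const, Finset.card_univ, Fintype.card_prod,
    Fintype.card_fin, nsmul_eq_mul, Nat.cast_mul]
  have h2 : ((2 : ℝ) ^ j) ^ ρ * ((2 : ℝ) ^ j) ^ (-σ) = b ^ j := by
    rw [← Real.rpow_add (by positivity), two_pow_rpow, hb]
    rfl
  have h3 : (m j : ℝ) * ((2 : ℝ) ^ j) ^ (-σ) ≤ (j + 1) * b ^ j := by
    rw [← h2, ← mul_assoc]
    exact mul_le_mul_of_nonneg_right (hm j) (Real.rpow_nonneg (by positivity) _)
  calc (m j : ℝ) * (Fintype.card κ : ℝ) * ((2 : ℝ) ^ j) ^ (-σ)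
      = (Fintype.card κ : ℝ) * ((m j : ℝ) * ((2 : ℝ) ^ j) ^ (-σ)) := by ring
    _ ≤ (Fintype.card κ : ℝ) * ((j + 1) * b ^ j) :=
        mul_le_mul_of_nonneg_left h3 (Nat.cast_nonneg _)
    _ = (Fintype.card κ : ℝ) * (((j : ℝ) ^ 1 * b ^ j) + b ^ j) := by ring

/-- the basic functions -/
lemma exists_base {ρ : ℝ} (hρ : 0 < ρ) (hρ1 : ρ < 1)
    (hm : ∀ j, (m j : ℝ) ≤ (j + 1) * ((2 : ℝ) ^ j) ^ ρ) {e : κ → ℝ} (he : ∀ s, |e s| = 1) :
    ∃ f : ℂ → ℂ, Pre ρ f ∧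
      (∀ z : ℂ, (∀ i : Idx m κ, cf e i * z ≠ 1) →
        f z ≠ 0 ∧ HasSum (fun i : Idx m κ => Real.log ‖1 - cf e i * z‖) (Real.log ‖f z‖)) ∧
      (∀ z : ℂ, ‖f z‖ ≤ Real.exp (∑' j : ℕ,
        (m j * Fintype.card κ : ℝ) * Real.log (1 + ((2 : ℝ) ^ j)⁻¹ * ‖z‖))) := by
  obtain ⟨f, h1, h2, h3⟩ := exists_pre hρ hρ1 (c := fun i : Idx m κ => cf e i)
    (fun σ hσ => summable_cf hm he hσ) (fun i => by rw [cf, Complex.ofReal_im])
  refine ⟨f, h1, h2, fun z => ?_⟩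
  obtain ⟨h4, h5⟩ := h3 z
  refine h5.trans_eq ?_
  congr 1
  rw [h4.tsum_sigma' (fun j => (hasSum_fintype _).summable)]
  refine tsum_congr fun j => ?_
  simp only [norm_cf he, tsum_fintype, Finset.sum_const, Finset.card_univ, Fintype.card_prod,
    Fintype.card_fin, nsmul_eq_mul, Nat.cast_mul]

/-- the basic lower bound -/
lemma lower_base {e : κ → ℝ} {f : ℂ → ℂ} {z : ℂ} {j : ℕ} {B : ℝ}
    (hf : HasSum (fun i : Idx m κ => Real.log ‖1 - cf e i * z‖) (Real.log ‖f z‖))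
    (h1 : ∀ i : Idx m κ, 1 ≤ ‖1 - cf e i * z‖)
    (hB : ∀ y : Fin (m j) × κ, B ≤ Real.log ‖1 - cf e (⟨j, y⟩ : Idx m κ) * z‖) :
    (m j * Fintype.card κ : ℝ) * B ≤ Real.log ‖f z‖ := by
  classical
  have h2 := sum_le_hasSum ((Finset.univ : Finset (Fin (m j) × κ)).map
    ⟨fun y => (⟨j, y⟩ : Idx m κ), fun y y' h => by simpa using h⟩)
    (fun i _ => Real.log_nonneg (h1 i)) hf
  rw [Finset.sum_map] at h2
  refine le_trans ?_ h2
  have h3 := Finset.card_nsmul_le_sum (Finset.univ : Finset (Fin (m j) × κ))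
    (fun y => Real.log ‖1 - cf e (⟨j, y⟩ : Idx m κ) * z‖) B (fun y _ => hB y)
  rw [nsmul_eq_mul, Finset.card_univ, Fintype.card_prod, Fintype.card_fin] at h3
  push_cast at h3
  exact h3

end base

/-- multiplicities for the function of minimal type -/
noncomputable def mMin (ρ : ℝ) (j : ℕ) : ℕ := ⌊((2 : ℝ) ^ j) ^ ρ / ((j : ℝ) + 1) ^ 2⌋₊

/-- multiplicities for the function of maximal type -/
noncomputable def mMax (ρ : ℝ) (j : ℕ) : ℕ := ⌊((j : ℝ) + 1) * ((2 : ℝ) ^ j) ^ ρ⌋₊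

lemma mMin_le' (ρ : ℝ) (j : ℕ) : (mMin ρ j : ℝ) ≤ ((2 : ℝ) ^ j) ^ ρ / ((j : ℝ) + 1) ^ 2 :=
  Nat.floor_le (div_nonneg (Real.rpow_nonneg (by positivity) _) (by positivity))

lemma mMin_le (ρ : ℝ) (j : ℕ) : (mMin ρ j : ℝ) ≤ (j + 1) * ((2 : ℝ) ^ j) ^ ρ := by
  refine (mMin_le' ρ j).trans ?_
  have h1 : 0 ≤ ((2 : ℝ) ^ j) ^ ρ := Real.rpow_nonneg (by positivity) _
  have h2 : (1 : ℝ) ≤ (j : ℝ) + 1 := by
    have : (0 : ℝ) ≤ j := Nat.cast_nonneg j
    linarith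
  rw [div_le_iff₀ (by positivity)]
  calc ((2 : ℝ) ^ j) ^ ρ = 1 * ((2 : ℝ) ^ j) ^ ρ * 1 := by ring
    _ ≤ (j + 1) * ((2 : ℝ) ^ j) ^ ρ * ((j : ℝ) + 1) ^ 2 := by
        refine mul_le_mul (mul_le_mul_of_nonneg_right h2 h1) ?_ zero_le_one (by positivity)
        exact one_le_pow₀ h2

lemma mMax_le (ρ : ℝ) (j : ℕ) : (mMax ρ j : ℝ) ≤ (j + 1) * ((2 : ℝ) ^ j) ^ ρ :=
  Nat.floor_le (mul_nonneg (by positivity) (Real.rpow_nonneg (by positivity) _))

lemma one_le_two_pow_rpow {σ : ℝ} (hσ : 0 ≤ σ) (j : ℕ) : 1 ≤ ((2 : ℝ) ^ j) ^ σ :=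
  Real.one_le_rpow (one_le_pow₀ (by norm_num)) hσ

lemma mMin_large {ρ σ : ℝ} (hσ0 : 0 ≤ σ) (hσ : σ < ρ) :
    ∀ᶠ j : ℕ in atTop, ((2 : ℝ) ^ j) ^ σ < mMin ρ j * Real.log 2 := by
  set r : ℝ := (2 : ℝ) ^ (σ - ρ) with hr
  have hr0 : 0 < r := Real.rpow_pos_of_pos (by norm_num) _
  have hr1 : r < 1 := Real.rpow_lt_one_of_one_lt_of_neg (by norm_num) (by linarith)
  filter_upwards [(tendsto_sq_mul hr0 hr1).eventually_le_const (by norm_num : (0 : ℝ) < 1 / 3)]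
    with j hj
  have h1 : ((2 : ℝ) ^ j) ^ ρ * r ^ j = ((2 : ℝ) ^ j) ^ σ := by
    rw [two_pow_rpow, two_pow_rpow, ← mul_pow, hr, ← Real.rpow_add (by norm_num)]
    congr 2; ring
  have h2 : 3 * ((2 : ℝ) ^ j) ^ σ ≤ ((2 : ℝ) ^ j) ^ ρ / ((j : ℝ) + 1) ^ 2 := by
    rw [le_div_iff₀ (by positivity), ← h1]
    have h3 : 0 ≤ ((2 : ℝ) ^ j) ^ ρ := Real.rpow_nonneg (by positivity) _
    nlinarith
  have h4 : ((2 : ℝ) ^ j) ^ ρ / ((j : ℝ) + 1) ^ 2 - 1 < mMin ρ j := Nat.sub_one_lt_floor _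
  have h5 := one_le_two_pow_rpow hσ0 j
  have h6 := Real.log_two_gt_d9
  nlinarith

lemma mMax_large {ρ : ℝ} (hρ : 0 < ρ) (K : ℝ) :
    ∀ᶠ j : ℕ in atTop, K * ((2 : ℝ) ^ j) ^ ρ ≤ mMax ρ j * Real.log 2 := by
  obtain ⟨N, hN⟩ := exists_nat_ge (2 * K)
  filter_upwards [eventually_ge_atTop N] with j hj
  have h1 : ((j : ℝ) + 1) * ((2 : ℝ) ^ j) ^ ρ - 1 < mMax ρ j := Nat.sub_one_lt_floor _
  have h5 := one_le_two_pow_rpow hρ.le j
  have h6 := Real.log_two_gt_d9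
  have h7 : (N : ℝ) ≤ j := by exact_mod_cast hj
  have h8 : 2 * K * ((2 : ℝ) ^ j) ^ ρ ≤ mMax ρ j := by nlinarith
  have h9 : (0 : ℝ) ≤ mMax ρ j := Nat.cast_nonneg _
  nlinarith

lemma tendsto_two_pow : Tendsto (fun j : ℕ => (2 : ℝ) ^ j) atTop atTop :=
  tendsto_pow_atTop_atTop_of_one_lt (by norm_num)

lemma ray_zero (r : ℝ) : ray r 0 = r := by
  rw [ray]; simp

/-- lower bound on the positive ray for negative zeros -/
lemma lower_neg {m : ℕ → ℕ} {f : ℂ → ℂ}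
    (hf : ∀ z : ℂ, (∀ i : Idx m Unit, cf (fun _ => -1) i * z ≠ 1) →
        f z ≠ 0 ∧ HasSum (fun i : Idx m Unit => Real.log ‖1 - cf (fun _ => -1) i * z‖)
          (Real.log ‖f z‖)) (j : ℕ) :
    Real.exp (m j * Real.log 2) ≤ ‖f (ray ((2 : ℝ) ^ j) 0)‖ := by
  have h1 : ∀ i : Idx m Unit, 1 - cf (fun _ => -1) i * ray ((2 : ℝ) ^ j) 0
      = ((1 + 2 ^ j / 2 ^ i.1 : ℝ) : ℂ) := by
    intro i
    rw [ray_zero, cf]
    push_cast
    ring
  have h2 : ∀ i : Idx m Unit, ‖1 - cf (fun _ => -1) i * ray ((2 : ℝ) ^ j) 0‖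
      = 1 + 2 ^ j / 2 ^ i.1 := by
    intro i
    rw [h1, Complex.norm_real, Real.norm_of_nonneg (by positivity)]
  obtain ⟨h3, h4⟩ := hf (ray ((2 : ℝ) ^ j) 0) (by
    intro i hi
    have := h2 i
    rw [hi, sub_self, norm_zero] at this
    have h5 : (0 : ℝ) < 1 + 2 ^ j / 2 ^ i.1 := by positivity
    linarith)
  have h5 := lower_base (j := j) (B := Real.log 2) h4 (fun i => by
    rw [h2]
    have : (0 : ℝ) ≤ 2 ^ j / 2 ^ i.1 := by positivity
    linarith) (fun y => by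
      rw [h2]
      simp only
      rw [div_self (by positivity)]
      norm_num)
  rw [Fintype.card_unit, Nat.cast_one, mul_one] at h5
  rw [← Real.log_le_log_iff (Real.exp_pos _) (norm_pos_iff.2 h3), Real.log_exp]
  exact h5

theorem exists_minimal {ρ : ℝ} (hρ : 0 < ρ) (hρ1 : ρ < 1) :
    ∃ f : ℂ → ℂ, InClass ρ f ∧ ∀ θ, ind ρ f θ = 0 := by
  obtain ⟨f, hpre, hlow, hup⟩ := exists_base (κ := Unit) hρ hρ1 (mMin_le ρ) (e := fun _ => -1)
    (fun _ => by simp)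
  have hin : InClass ρ f := by
    refine hpre.inClass_of_frequently hρ (θ := 0) fun σ hσ0 hσ => ?_
    refine tendsto_two_pow.frequently (Eventually.frequently ?_)
    filter_upwards [mMin_large hσ0 hσ] with j hj
    exact (Real.exp_lt_exp.2 hj).trans_le (lower_neg hlow j)
  -- the sum is `o(r ^ ρ)`
  have hlim : Tendsto (fun r : ℝ => ∑' j : ℕ, r ^ (-ρ) *
      ((mMin ρ j : ℝ) * Real.log (1 + ((2 : ℝ) ^ j)⁻¹ * r))) atTop (𝓝 (∑' _ : ℕ, (0 : ℝ))) := by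
    have hbs : Summable fun j : ℕ => 1 / ρ * (1 / ((j : ℝ) + 1) ^ 2) := by
      refine Summable.mul_left _ ?_
      have := (summable_nat_add_iff 1).2 (Real.summable_one_div_nat_pow.2 one_lt_two)
      simpa using this
    refine tendsto_tsum_of_dominated_convergence hbs ?_ ?_
    · intro j
      have h1 : Tendsto (fun r : ℝ => (mMin ρ j : ℝ) * ((((2 : ℝ) ^ j)⁻¹) ^ (ρ / 2) / (ρ / 2)) *
          r ^ (-(ρ / 2))) atTop (𝓝 ((mMin ρ j : ℝ) *
            ((((2 : ℝ) ^ j)⁻¹) ^ (ρ / 2) / (ρ / 2)) * 0)) :=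
        (tendsto_rpow_neg_atTop (by linarith)).const_mul _
      rw [mul_zero] at h1
      refine squeeze_zero' ?_ ?_ h1
      · filter_upwards [eventually_ge_atTop 0] with r hr
        refine mul_nonneg (Real.rpow_nonneg hr _) (mul_nonneg (Nat.cast_nonneg _)
          (Real.log_nonneg ?_))
        have : (0 : ℝ) ≤ ((2 : ℝ) ^ j)⁻¹ * r := by positivity
        linarith
      · filter_upwards [eventually_gt_atTop 0] with r hr
        have h2 := log_one_add_le (s := ρ / 2) (x := ((2 : ℝ) ^ j)⁻¹ * r) (by linarith)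
          (by linarith) (by positivity)
        rw [Real.mul_rpow (by positivity) hr.le] at h2
        have h3 : r ^ (-ρ) * r ^ (ρ / 2) = r ^ (-(ρ / 2)) := by
          rw [← Real.rpow_add hr]; congr 1; ring
        have h4 : 0 ≤ r ^ (-ρ) := Real.rpow_nonneg hr.le _
        calc r ^ (-ρ) * ((mMin ρ j : ℝ) * Real.log (1 + ((2 : ℝ) ^ j)⁻¹ * r))
            ≤ r ^ (-ρ) * ((mMin ρ j : ℝ) *
                ((((2 : ℝ) ^ j)⁻¹) ^ (ρ / 2) * r ^ (ρ / 2) / (ρ / 2))) :=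
              mul_le_mul_of_nonneg_left (mul_le_mul_of_nonneg_left h2 (Nat.cast_nonneg _)) h4
          _ = (mMin ρ j : ℝ) * ((((2 : ℝ) ^ j)⁻¹) ^ (ρ / 2) / (ρ / 2)) *
                (r ^ (-ρ) * r ^ (ρ / 2)) := by ring
          _ = _ := by rw [h3]
    · filter_upwards [eventually_gt_atTop 0] with r hr j
      have h2 := log_one_add_le (s := ρ) (x := ((2 : ℝ) ^ j)⁻¹ * r) hρ
          hρ1.le (by positivity)
      rw [Real.mul_rpow (by positivity) hr.le] at h2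
      have h3 : r ^ (-ρ) * r ^ ρ = 1 := by
        rw [← Real.rpow_add hr, neg_add_cancel, Real.rpow_zero]
      have h4 : 0 ≤ r ^ (-ρ) := Real.rpow_nonneg hr.le _
      have h5 : 0 ≤ Real.log (1 + ((2 : ℝ) ^ j)⁻¹ * r) := by
        refine Real.log_nonneg ?_
        have : (0 : ℝ) ≤ ((2 : ℝ) ^ j)⁻¹ * r := by positivity
        linarith
      rw [Real.norm_of_nonneg (mul_nonneg h4 (mul_nonneg (Nat.cast_nonneg _) h5))]
      have h6 : (mMin ρ j : ℝ) * (((2 : ℝ) ^ j)⁻¹) ^ ρ ≤ 1 / ((j : ℝ) + 1) ^ 2 := by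
        have h7 := mMin_le' ρ j
        have h8 : (((2 : ℝ) ^ j)⁻¹) ^ ρ = (((2 : ℝ) ^ j) ^ ρ)⁻¹ := Real.inv_rpow (by positivity) _
        have h9 : 0 < ((2 : ℝ) ^ j) ^ ρ := Real.rpow_pos_of_pos (by positivity) _
        rw [h8]
        calc (mMin ρ j : ℝ) * (((2 : ℝ) ^ j) ^ ρ)⁻¹
            ≤ ((2 : ℝ) ^ j) ^ ρ / ((j : ℝ) + 1) ^ 2 * (((2 : ℝ) ^ j) ^ ρ)⁻¹ :=
              mul_le_mul_of_nonneg_right h7 (inv_pos.2 h9).le
          _ = 1 / ((j : ℝ) + 1) ^ 2 := by field_simp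
      calc r ^ (-ρ) * ((mMin ρ j : ℝ) * Real.log (1 + ((2 : ℝ) ^ j)⁻¹ * r))
          ≤ r ^ (-ρ) * ((mMin ρ j : ℝ) * ((((2 : ℝ) ^ j)⁻¹) ^ ρ * r ^ ρ / ρ)) :=
            mul_le_mul_of_nonneg_left (mul_le_mul_of_nonneg_left h2 (Nat.cast_nonneg _)) h4
        _ = 1 / ρ * ((mMin ρ j : ℝ) * (((2 : ℝ) ^ j)⁻¹) ^ ρ) * (r ^ (-ρ) * r ^ ρ) := by ring
        _ = 1 / ρ * ((mMin ρ j : ℝ) * (((2 : ℝ) ^ j)⁻¹) ^ ρ) := by rw [h3, mul_one]
        _ ≤ 1 / ρ * (1 / ((j : ℝ) + 1) ^ 2) :=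
            mul_le_mul_of_nonneg_left h6 (by positivity)
  rw [tsum_zero] at hlim
  have hle : ∀ θ, ind ρ f θ ≤ 0 := by
    intro θ
    by_contra hcon
    rw [not_le] at hcon
    obtain ⟨a, ha0, ha⟩ := EReal.exists_between_coe_real hcon
    have ha0' : 0 < a := by exact_mod_cast ha0
    refine absurd (ind_le_of_eventually (a := a) ?_) (not_le.2 ha)
    filter_upwards [hlim.eventually_le_const ha0', eventually_gt_atTop 0] with r hr hr0
    refine (hup _).trans (Real.exp_le_exp.2 ?_)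
    rw [norm_ray hr0.le]
    rw [tsum_mul_left] at hr
    simp only [Fintype.card_unit, Nat.cast_one, mul_one]
    rw [Real.rpow_neg hr0.le, inv_mul_le_iff₀ (Real.rpow_pos_of_pos hr0 _), mul_comm] at hr
    exact hr
  have hbot : ∀ θ, ind ρ f θ ≠ ⊥ := fun θ => ind_ne_bot hin hρ hρ1
    (fun θ => ne_of_lt ((hle θ).trans_lt (EReal.coe_lt_top 0))) θ
  have hreal : ∀ θ, ind ρ f θ = ((ind ρ f θ).toReal : ℝ) := fun θ =>
    (EReal.coe_toReal (ne_of_lt ((hle θ).trans_lt (EReal.coe_lt_top 0))) (hbot θ)).symm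
  have hconv := trigConvex_of_ind hin hρ hreal
  have hz := eq_zero_of_nonpos hρ hconv (fun θ => by
    have := hle θ
    rw [hreal θ] at this
    exact_mod_cast this)
  refine ⟨f, hin, fun θ => ?_⟩
  rw [hreal θ, hz θ]
  rfl

theorem exists_maximal {ρ : ℝ} (hρ : 0 < ρ) (hρ1 : ρ < 1) :
    ∃ f : ℂ → ℂ, InClass ρ f ∧ ind ρ f 0 = ⊤ := by
  obtain ⟨f, hpre, hlow, -⟩ := exists_base (κ := Unit) hρ hρ1 (mMax_le ρ) (e := fun _ => -1)
    (fun _ => by simp)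
  have htop : ind ρ f 0 = ⊤ := by
    rw [EReal.eq_top_iff_forall_lt]
    intro K
    refine lt_of_lt_of_le (EReal.coe_lt_coe_iff.2 (lt_add_one K)) (le_ind_of_frequently ?_)
    refine tendsto_two_pow.frequently (Eventually.frequently ?_)
    filter_upwards [mMax_large hρ (K + 1)] with j hj
    exact (Real.exp_le_exp.2 hj).trans (lower_neg hlow j)
  exact ⟨f, hpre.inClass hρ (θ := 0) (by rw [htop]; exact EReal.coe_lt_top 0), htop⟩

/-- lower bound on the imaginary ray for zeros `± 2 ^ j` -/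
lemma lower_imag {m : ℕ → ℕ} {f : ℂ → ℂ} {e : Bool → ℝ} (he : ∀ s, |e s| = 1)
    (hf : ∀ z : ℂ, (∀ i : Idx m Bool, cf e i * z ≠ 1) →
        f z ≠ 0 ∧ HasSum (fun i : Idx m Bool => Real.log ‖1 - cf e i * z‖)
          (Real.log ‖f z‖)) (j : ℕ) :
    Real.exp (m j * Real.log 2) ≤ ‖f (ray ((2 : ℝ) ^ j) (π / 2))‖ := by
  have hray : ray ((2 : ℝ) ^ j) (π / 2) = ((2 : ℝ) ^ j : ℝ) * I := by
    rw [ray]
    push_cast
    rw [Complex.exp_pi_div_two_mul_I]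
  have h1 : ∀ i : Idx m Bool, 1 - cf e i * ray ((2 : ℝ) ^ j) (π / 2)
      = ⟨1, -(e i.2.2 / 2 ^ i.1 * 2 ^ j)⟩ := by
    intro i
    have h0 : ∀ t : ℝ, 1 - (t : ℂ) * I = ⟨1, -t⟩ := fun t => by
      apply Complex.ext <;> simp
    rw [hray, cf, ← mul_assoc, ← Complex.ofReal_mul, h0]
  have h2 : ∀ i : Idx m Bool, ‖1 - cf e i * ray ((2 : ℝ) ^ j) (π / 2)‖
      = Real.sqrt (1 + (2 ^ j / 2 ^ i.1) ^ 2) := by
    intro i
    rw [h1, Complex.norm_def, Complex.normSq_mk]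
    congr 1
    have h3 : e i.2.2 ^ 2 = 1 := by rw [← sq_abs, he, one_pow]
    calc (1 : ℝ) * 1 + -(e i.2.2 / 2 ^ i.1 * 2 ^ j) * -(e i.2.2 / 2 ^ i.1 * 2 ^ j)
        = 1 + e i.2.2 ^ 2 * (2 ^ j / 2 ^ i.1) ^ 2 := by ring
      _ = _ := by rw [h3, one_mul]
  have h2' : ∀ i : Idx m Bool, 1 ≤ ‖1 - cf e i * ray ((2 : ℝ) ^ j) (π / 2)‖ := by
    intro i
    rw [h2, Real.one_le_sqrt]
    have : (0 : ℝ) ≤ (2 ^ j / 2 ^ i.1) ^ 2 := by positivity
    linarith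
  obtain ⟨h3, h4⟩ := hf (ray ((2 : ℝ) ^ j) (π / 2)) (by
    intro i hi
    have := h2' i
    rw [hi, sub_self, norm_zero] at this
    linarith)
  have h5 := lower_base (j := j) (B := Real.log 2 / 2) h4 h2' (fun y => by
      rw [h2]
      simp only
      rw [div_self (by positivity), Real.log_sqrt (by norm_num)]
      norm_num)
  rw [Fintype.card_bool] at h5
  rw [← Real.log_le_log_iff (Real.exp_pos _) (norm_pos_iff.2 h3), Real.log_exp]
  refine le_trans (le_of_eq ?_) h5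
  push_cast
  ring

theorem exists_maximal_even {ρ : ℝ} (hρ : 0 < ρ) (hρ1 : ρ < 1) :
    ∃ f : ℂ → ℂ, InClass ρ f ∧ (∀ θ, ind ρ f (θ + π) = ind ρ f θ) ∧ ind ρ f (π / 2) = ⊤ := by
  set e : Bool → ℝ := fun s => if s then 1 else -1 with he'
  have he : ∀ s, |e s| = 1 := by
    intro s
    cases s <;> simp [he']
  have hes : ∀ s, e (!s) = -e s := by
    intro s
    cases s <;> simp [he']
  obtain ⟨f, hpre, hlow, -⟩ := exists_base (κ := Bool) hρ hρ1 (mMax_le ρ) he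
  have htop : ind ρ f (π / 2) = ⊤ := by
    rw [EReal.eq_top_iff_forall_lt]
    intro K
    refine lt_of_lt_of_le (EReal.coe_lt_coe_iff.2 (lt_add_one K)) (le_ind_of_frequently ?_)
    refine tendsto_two_pow.frequently (Eventually.frequently ?_)
    filter_upwards [mMax_large hρ (K + 1)] with j hj
    exact (Real.exp_le_exp.2 hj).trans (lower_imag he hlow j)
  -- the function is even in absolute value
  have heven : ∀ z, ‖f (-z)‖ = ‖f z‖ := by
    let sw : Idx (mMax ρ) Bool ≃ Idx (mMax ρ) Bool :=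
      Equiv.sigmaCongrRight fun j => Equiv.prodCongr (Equiv.refl _) Equiv.boolNot
    have hsw : ∀ i z, cf e (sw i) * z = cf e i * (-z) := by
      rintro ⟨j, k, s⟩ z
      have : cf e (sw ⟨j, k, s⟩) = -cf e (⟨j, k, s⟩ : Idx (mMax ρ) Bool) := by
        change (((e (!s)) / 2 ^ j : ℝ) : ℂ) = -((e s / 2 ^ j : ℝ) : ℂ)
        rw [hes]
        push_cast
        ring
      rw [this]
      ring
    have hz : {z : ℂ | ∃ i : Idx (mMax ρ) Bool, cf e i * z = 1}.Countable := by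
      have : {z : ℂ | ∃ i : Idx (mMax ρ) Bool, cf e i * z = 1} ⊆
          Set.range fun i : Idx (mMax ρ) Bool => (cf e i)⁻¹ := by
        rintro z ⟨i, hi⟩
        exact ⟨i, (eq_inv_of_mul_eq_one_right hi).symm⟩
      exact (Set.countable_range _).mono this
    have hd := hz.dense_compl ℂ
    have hcont := hpre.entire.continuous
    have key : (fun z => ‖f (-z)‖) = fun z => ‖f z‖ := by
      refine Continuous.ext_on hd (by fun_prop) (by fun_prop) ?_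
      intro z hz
      simp only [Set.mem_compl_iff, Set.mem_ofPred_eq, not_exists] at hz
      obtain ⟨h1, h2⟩ := hlow z hz
      obtain ⟨h3, h4⟩ := hlow (-z) (fun i => by rw [← hsw]; exact hz _)
      have h5 : HasSum (fun i : Idx (mMax ρ) Bool => Real.log ‖1 - cf e i * (-z)‖)
          (Real.log ‖f z‖) := by
        have := (Equiv.hasSum_iff sw).2 h2
        simpa only [Function.comp_def, hsw] using this
      have h6 := h4.unique h5
      exact Real.log_injOn_pos (norm_pos_iff.2 h3) (norm_pos_iff.2 h1) h6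
    exact fun z => congrFun key z
  refine ⟨f, hpre.inClass hρ (θ := π / 2) (by rw [htop]; exact EReal.coe_lt_top 0), ?_, htop⟩
  intro θ
  have h1 : ∀ r, ray r (θ + π) = -ray r θ := by
    intro r
    rw [ray, ray]
    push_cast
    rw [add_mul, Complex.exp_add, Complex.exp_pi_mul_I]
    ring
  have h2 : ∀ r, ‖f (ray r (θ + π))‖ₑ = ‖f (ray r θ)‖ₑ := by
    intro r
    rw [h1, ← ofReal_norm, ← ofReal_norm, heven]
  simp only [ind, h2]

end HBInd
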