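import Pool.Agent.HBInd.HalfF
import Pool.Agent.HBInd.Special

/-!
# Order 1/2, infinite type

For `α ∈ [0, π]` and every `β ∈ [-∞, ∞]` there is `f` in the class `E_{1/2}` with indicator `+∞`
off the ray `α` and equal to `β` on it.

* `ind_mul_of_tendsto`: elementary (`le_ind_of_frequently`, `ind_le_of_eventually`, ...).
* `exists_half`. By `ind_half` (module `Nec`): if `f` is in the class, `ind f α ≠ ⊤` and
  `ind f (α + π) = ⊤` then `ind f = ⊤` off `α` mod `2 π`.
  `β = ⊤`: `exists_maximal_even`; `ind` is `π`-periodic and `⊤` somewhere, so `⊤` everywhere by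
  `ind_half`. `β = ⊥`: `exists_F_bot`, `Pre.inClass` at `θ = α + π`. `β` real: choose `a > 0` with
  `a β₀ ≤ β`, `α' ∈ {0, π / 2}` with `sin ((α - α') / 2) ≠ 0` and `sin ((α + π - α') / 2) ≠ 0`
  (`α' = π / 2` unless `α = π / 2`, then `α' = 0`), `b = (β - a β₀) / |sin ((α - α') / 2)| ≥ 0`,
  `f = F G` with `F` from `exists_F` and `G` from `exists_sinus`.
-/

namespace HBInd

open Complex Filter Topology Set Bornology
open scoped Real ComplexConjugate

lemma log_le_of_term_lt {ρ r c : ℝ} (hr : 0 < r) {w : ℂ} (hw : w ≠ 0)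
    (h : r ^ (-ρ) * Real.log ‖w‖ < c) : ‖w‖ ≤ Real.exp (c * r ^ ρ) := by
  have hrp : 0 < r ^ ρ := Real.rpow_pos_of_pos hr _
  rw [Real.rpow_neg hr.le, inv_mul_lt_iff₀ hrp, mul_comm] at h
  exact ((Real.log_lt_iff_lt_exp (norm_pos_iff.2 hw)).1 h).le

lemma le_log_of_lt_term {ρ r c : ℝ} (hr : 0 < r) {w : ℂ} (hw : w ≠ 0)
    (h : c < r ^ (-ρ) * Real.log ‖w‖) : Real.exp (c * r ^ ρ) ≤ ‖w‖ := by
  have hrp : 0 < r ^ ρ := Real.rpow_pos_of_pos hr _
  rw [Real.rpow_neg hr.le, lt_inv_mul_iff₀ hrp, mul_comm] at h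
  exact ((Real.lt_log_iff_exp_lt (norm_pos_iff.2 hw)).1 h).le

theorem ind_mul_of_tendsto {ρ θ x L : ℝ} {F G : ℂ → ℂ} (hF : ind ρ F θ = (x : EReal))
    (hG : ∀ᶠ r : ℝ in atTop, G (ray r θ) ≠ 0)
    (hL : Tendsto (fun r : ℝ => r ^ (-ρ) * Real.log ‖G (ray r θ)‖) atTop (𝓝 L)) :
    ind ρ (fun z => F z * G z) θ = ((x + L : ℝ) : EReal) := by
  refine le_antisymm ?_ ?_
  · refine EReal.le_of_forall_lt_iff_le.1 fun z hz => ?_
    have hz' : x + L < z := by exact_mod_cast hz
    set ε := (z - (x + L)) / 2 with hε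
    have hε0 : 0 < ε := by rw [hε]; linarith
    refine ind_le_of_eventually ?_
    have h1 : ind ρ F θ < ((x + ε : ℝ) : EReal) := by
      rw [hF]; exact_mod_cast (by linarith : x < x + ε)
    have h2 := eventually_of_ind_lt h1
    have h3 := hL.eventually_lt_const (by linarith : L < L + ε)
    filter_upwards [h2, h3, hG, eventually_gt_atTop 0] with r hr2 hr3 hrG hr0
    rw [norm_mul]
    have h4 := log_le_of_term_lt hr0 hrG hr3
    calc ‖F (ray r θ)‖ * ‖G (ray r θ)‖
        ≤ Real.exp ((x + ε) * r ^ ρ) * Real.exp ((L + ε) * r ^ ρ) :=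
          mul_le_mul hr2.le h4 (norm_nonneg _) (Real.exp_pos _).le
      _ = Real.exp (z * r ^ ρ) := by
          rw [← Real.exp_add]
          congr 1
          rw [← add_mul]
          congr 1
          rw [hε]; ring
  · refine EReal.ge_of_forall_gt_iff_ge.1 fun z hz => ?_
    have hz' : z < x + L := by exact_mod_cast hz
    set ε := ((x + L) - z) / 2 with hε
    have hε0 : 0 < ε := by rw [hε]; linarith
    refine le_ind_of_frequently ?_
    have h1 : ((x - ε : ℝ) : EReal) < ind ρ F θ := by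
      rw [hF]; exact_mod_cast (by linarith : x - ε < x)
    have h2 := frequently_of_lt_ind h1
    have h3 := hL.eventually_const_lt (by linarith : L - ε < L)
    refine (h2.and_eventually (h3.and (hG.and (eventually_gt_atTop 0)))).mono ?_
    rintro r ⟨hr2, hr3, hrG, hr0⟩
    rw [norm_mul]
    have h4 := le_log_of_lt_term hr0 hrG hr3
    calc Real.exp (z * r ^ ρ) = Real.exp ((x - ε) * r ^ ρ) * Real.exp ((L - ε) * r ^ ρ) := by
          rw [← Real.exp_add]
          congr 1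
          rw [← add_mul]
          congr 1
          rw [hε]; ring
      _ ≤ ‖F (ray r θ)‖ * ‖G (ray r θ)‖ :=
          mul_le_mul hr2.le h4 (Real.exp_pos _).le (norm_nonneg _)

lemma ind_eq_top_of {ρ θ : ℝ} {f : ℂ → ℂ}
    (h : ∀ K : ℝ, ∀ᶠ r : ℝ in atTop, Real.exp (K * r ^ ρ) ≤ ‖f (ray r θ)‖) :
    ind ρ f θ = ⊤ := by
  rw [EReal.eq_top_iff_forall_lt]
  intro K
  refine lt_of_lt_of_le ?_ (le_ind_of_frequently (h (K + 1)).frequently)
  exact_mod_cast (by linarith : K < K + 1)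

lemma half_top {f : ℂ → ℂ} (hf : InClass (1 / 2) f) {α : ℝ} (h1 : ind (1 / 2) f α ≠ ⊤)
    {θ₀ : ℝ} (h2 : ind (1 / 2) f θ₀ = ⊤) (θ : ℝ) (hθ : ∀ n : ℤ, θ ≠ α + n * (2 * π)) :
    ind (1 / 2) f θ = ⊤ := by
  rcases ind_half hf with h | ⟨α', -, h⟩
  · exact absurd h2 (h _)
  · have hα : ∃ n : ℤ, α = α' + n * (2 * π) := by
      by_contra hcon
      push Not at hcon
      exact h1 (h α hcon)
    obtain ⟨n, hn⟩ := hα
    refine h θ fun m hm => hθ (m - n) ?_
    rw [hm, hn]
    push_cast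
    ring

lemma exists_alpha' {α : ℝ} (hα : α ∈ Icc 0 π) : ∃ α' ∈ Icc 0 π,
    Real.sin ((α - α') / 2) ≠ 0 ∧ Real.sin ((α + π - α') / 2) ≠ 0 := by
  have hpi := Real.pi_pos
  obtain ⟨h0, h1⟩ := hα
  by_cases h : α = π / 2
  · refine ⟨0, ⟨le_rfl, hpi.le⟩, ?_, ?_⟩
    · exact (Real.sin_pos_of_pos_of_lt_pi (by linarith) (by linarith)).ne'
    · exact (Real.sin_pos_of_pos_of_lt_pi (by linarith) (by linarith)).ne'
  · refine ⟨π / 2, ⟨by linarith, by linarith⟩, ?_, ?_⟩
    · rcases lt_or_gt_of_ne h with h | h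
      · exact (Real.sin_neg_of_neg_of_neg_pi_lt (by linarith) (by linarith)).ne
      · exact (Real.sin_pos_of_pos_of_lt_pi (by linarith) (by linarith)).ne'
    · exact (Real.sin_pos_of_pos_of_lt_pi (by linarith) (by linarith)).ne'

theorem exists_half {α : ℝ} (hα : α ∈ Icc 0 π) (β : EReal) :
    ∃ f : ℂ → ℂ, InClass (1 / 2) f ∧
      (∀ θ, (∀ n : ℤ, θ ≠ α + n * (2 * π)) → ind (1 / 2) f θ = ⊤) ∧ ind (1 / 2) f α = β := by
  have hpi := Real.pi_pos
  have hhalf : (0 : ℝ) < 1 / 2 := by norm_num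
  induction β using EReal.rec with
  | bot =>
    obtain ⟨F, hF, hbot, htop⟩ := exists_F_bot hα
    have h1 : ind (1 / 2) F (α + π) = ⊤ := ind_eq_top_of htop
    have hcl : InClass (1 / 2) F := hF.inClass hhalf (θ := α + π) (by rw [h1]; exact EReal.zero_lt_top)
    exact ⟨F, hcl, half_top hcl (by rw [hbot]; exact bot_ne_top) h1, hbot⟩
  | top =>
    obtain ⟨f, hf, hper, htop⟩ := exists_maximal_even (ρ := 1 / 2) hhalf (by norm_num)
    have hall : ∀ θ, ind (1 / 2) f θ = ⊤ := by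
      rcases ind_half hf with h | ⟨α', -, h⟩
      · exact absurd htop (h _)
      · have h2 : ind (1 / 2) f α' = ⊤ := by
          rw [← hper α']
          refine h _ fun n hn => ?_
          have h3 : (1 : ℝ) = 2 * n := by
            have : π * 1 = π * (2 * n) := by linarith
            exact mul_left_cancel₀ hpi.ne' this
          have h4 : (1 : ℤ) = 2 * n := by exact_mod_cast h3
          omega
        intro θ
        by_cases hθ : ∃ n : ℤ, θ = α' + n * (2 * π)
        · obtain ⟨n, rfl⟩ := hθ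
          rw [ind_add_int, h2]
        · push Not at hθ
          exact h θ hθ
    exact ⟨f, hf, fun θ _ => hall θ, hall α⟩
  | coe β =>
    obtain ⟨β₀, hβ₀, hF⟩ := exists_F
    set a : ℝ := max 1 (β / β₀) with ha
    have ha0 : 0 < a := lt_of_lt_of_le one_pos (le_max_left _ _)
    have haβ : a * β₀ ≤ β := by
      have h1 : β / β₀ ≤ a := le_max_right _ _
      have h2 := mul_le_mul_of_nonpos_right h1 hβ₀.le
      rwa [div_mul_cancel₀ _ hβ₀.ne] at h2
    obtain ⟨F, hFpre, hFα, hFtop⟩ := hF α hα a ha0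
    obtain ⟨α', hα', hs1, hs2⟩ := exists_alpha' hα
    have hs0 : 0 < |Real.sin ((α - α') / 2)| := abs_pos.2 hs1
    set b : ℝ := (β - a * β₀) / |Real.sin ((α - α') / 2)| with hb
    have hb0 : 0 ≤ b := div_nonneg (by linarith) hs0.le
    obtain ⟨G, hGpre, hG⟩ := exists_sinus hα' hb0
    obtain ⟨hG1, hG2⟩ := hG α hs1
    obtain ⟨hG3, hG4⟩ := hG (α + π) hs2
    have e : (-(1 / 2) : ℝ) = -(1 / 2 : ℝ) := rfl
    have hind : ind (1 / 2) (fun z => F z * G z) α = (β : EReal) := by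
      rw [ind_mul_of_tendsto hFα hG1 hG2]
      congr 1
      rw [hb, div_mul_cancel₀ _ hs0.ne']
      ring
    have htop : ind (1 / 2) (fun z => F z * G z) (α + π) = ⊤ := by
      refine ind_eq_top_of fun K => ?_
      set L := b * |Real.sin ((α + π - α') / 2)|
      filter_upwards [hFtop (K - (L - 1)), hG4.eventually_const_lt (by linarith : L - 1 < L), hG3,
        eventually_gt_atTop 0] with r hr1 hr2 hr3 hr0
      rw [norm_mul]
      have h4 := le_log_of_lt_term hr0 hr3 hr2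
      calc Real.exp (K * r ^ (1 / 2 : ℝ))
          = Real.exp ((K - (L - 1)) * r ^ (1 / 2 : ℝ)) * Real.exp ((L - 1) * r ^ (1 / 2 : ℝ)) := by
            rw [← Real.exp_add]
            congr 1
            ring
        _ ≤ ‖F (ray r (α + π))‖ * ‖G (ray r (α + π))‖ :=
            mul_le_mul hr1 h4 (Real.exp_pos _).le (norm_nonneg _)
    have hcl : InClass (1 / 2) (fun z => F z * G z) :=
      (hFpre.mul hGpre).inClass hhalf (θ := α + π) (by rw [htop]; exact EReal.zero_lt_top)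
    exact ⟨_, hcl, half_top hcl (by rw [hind]; exact EReal.coe_ne_top _) htop, hind⟩

end HBInd
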