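import Pool.Agent.HBInd.Construct
import Pool.Agent.HBInd.Special
import Pool.Agent.HBInd.Half

/-!
# The indicators of the class `E_ρ`
-/

namespace HBInd

open Complex Filter Topology Set
open scoped Real ComplexConjugate

lemma periodic_int_gen {X : Type} {h : ℝ → X} (hp : ∀ θ, h (θ + 2 * π) = h θ) (θ : ℝ) (n : ℤ) :
    h (θ + n * (2 * π)) = h θ := by
  have h1 : Function.Periodic h (2 * π) := hp
  exact h1.int_mul n θ

/-- non-negative indicators, `0 < ρ < 1` -/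
theorem nonneg_iff {ρ : ℝ} (hρ : 0 < ρ) (hρ1 : ρ < 1) {h : ℝ → ℝ} (h0 : ∀ θ, 0 ≤ h θ) :
    (∃ f : ℂ → ℂ, InClass ρ f ∧ ∀ θ, ind ρ f θ = h θ) ↔
      (∀ θ, h (θ + 2 * π) = h θ) ∧ TrigConvex ρ h ∧ ∀ θ ∈ Ioo 0 π, h θ ≤ h (-θ) := by
  constructor
  · rintro ⟨f, hf, hfh⟩
    refine ⟨fun θ => ?_, trigConvex_of_ind hf hρ hfh, fun θ hθ => ?_⟩
    · have := ind_add_two_pi ρ f θ
      rw [hfh, hfh] at this
      exact_mod_cast this
    · have := hf.ind_le hθ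
      rw [hfh, hfh] at this
      exact_mod_cast this
  · rintro ⟨hp, hc, hs⟩
    by_cases hne : ∃ θ, h θ ≠ 0
    · exact exists_of_nonneg hρ hρ1 hc hp h0 hs hne
    · push Not at hne
      obtain ⟨f, hf, hf0⟩ := exists_minimal hρ hρ1
      exact ⟨f, hf, fun θ => by rw [hf0, hne, EReal.coe_zero]⟩

/-- the complete answer for `0 < ρ ≤ 1 / 2` -/
theorem small_iff {ρ : ℝ} (hρ : 0 < ρ) (hρ2 : ρ ≤ 1 / 2) (h : ℝ → EReal) :
    (∃ f : ℂ → ℂ, InClass ρ f ∧ ∀ θ, ind ρ f θ = h θ) ↔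
      (∀ θ, h (θ + 2 * π) = h θ) ∧
        ((∃ g : ℝ → ℝ, (∀ θ, h θ = g θ) ∧ TrigConvex ρ g ∧ ∀ θ ∈ Ioo 0 π, g θ ≤ g (-θ)) ∨
          (∀ θ, h θ = ⊤) ∨
          (ρ = 1 / 2 ∧ ∃ α ∈ Icc 0 π, ∀ θ, (∀ n : ℤ, θ ≠ α + n * (2 * π)) → h θ = ⊤)) := by
  have hρ1 : ρ < 1 := by linarith
  constructor
  · rintro ⟨f, hf, hfh⟩
    refine ⟨fun θ => ?_, ?_⟩
    · have := ind_add_two_pi ρ f θ
      rwa [hfh, hfh] at this
    have hreal : (∀ θ, ind ρ f θ ≠ ⊤) →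
        ∃ g : ℝ → ℝ, (∀ θ, h θ = g θ) ∧ TrigConvex ρ g ∧ ∀ θ ∈ Ioo 0 π, g θ ≤ g (-θ) := by
      intro htop
      have hbot := ind_ne_bot hf hρ hρ1 htop
      have hg : ∀ θ, ind ρ f θ = ((ind ρ f θ).toReal : ℝ) := fun θ =>
        (EReal.coe_toReal (htop θ) (hbot θ)).symm
      refine ⟨fun θ => (ind ρ f θ).toReal, fun θ => by rw [← hfh, ← hg],
        trigConvex_of_ind hf hρ hg, fun θ hθ => ?_⟩
      have := hf.ind_le hθ
      rw [hg, hg (-θ)] at this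
      exact_mod_cast this
    rcases lt_or_eq_of_le hρ2 with hlt | heq
    · rcases ind_dichotomy hf hρ hlt with h1 | h1
      · exact Or.inr (Or.inl fun θ => by rw [← hfh, h1])
      · exact Or.inl (hreal h1)
    · subst heq
      rcases ind_half hf with h1 | ⟨α, hα, h1⟩
      · exact Or.inl (hreal h1)
      · exact Or.inr (Or.inr ⟨rfl, α, hα, fun θ hθ => by rw [← hfh, h1 θ hθ]⟩)
  · rintro ⟨hp, ⟨g, hg, hc, hs⟩ | htop | ⟨rfl, α, hα, htop⟩⟩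
    · have hgp : ∀ θ, g (θ + 2 * π) = g θ := by
        intro θ
        have := hp θ
        rw [hg, hg] at this
        exact_mod_cast this
      have hg0 : ∀ θ, 0 ≤ g θ := nonneg_of_trigConvex hρ hρ2 hc hgp
      obtain ⟨f, hf, hfg⟩ := (nonneg_iff hρ hρ1 hg0).2 ⟨hgp, hc, hs⟩
      exact ⟨f, hf, fun θ => by rw [hfg, hg]⟩
    · rcases lt_or_eq_of_le hρ2 with hlt | heq
      · obtain ⟨f, hf, hf0⟩ := exists_maximal hρ hρ1
        refine ⟨f, hf, fun θ => ?_⟩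
        rcases ind_dichotomy hf hρ hlt with h1 | h1
        · rw [h1, htop]
        · exact absurd hf0 (h1 0)
      · subst heq
        obtain ⟨f, hf, hf1, hf2⟩ := exists_half (α := 0) ⟨le_rfl, Real.pi_pos.le⟩ ⊤
        refine ⟨f, hf, fun θ => ?_⟩
        rw [htop]
        by_cases hθ : ∀ n : ℤ, θ ≠ 0 + n * (2 * π)
        · exact hf1 θ hθ
        · push Not at hθ
          obtain ⟨n, rfl⟩ := hθ
          rw [ind_add_int, hf2]
    · obtain ⟨f, hf, hf1, hf2⟩ := exists_half hα (h α)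
      refine ⟨f, hf, fun θ => ?_⟩
      by_cases hθ : ∀ n : ℤ, θ ≠ α + n * (2 * π)
      · rw [hf1 θ hθ, htop θ hθ]
      · push Not at hθ
        obtain ⟨n, rfl⟩ := hθ
        rw [ind_add_int, hf2, periodic_int_gen hp]

end HBInd
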