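import Pool.Agent.HBInd.KerP
import Pool.Agent.HBInd.Basic

/-!
# Tools for relative subharmonicity

* `continuousOn_HH`: `h` is continuous and `2π`-periodic, so `z ↦ h (arg z)` is continuous off `0` (near a
  point `z₀ = r e^{iθ₀}`, `arg z = θ₀ + arg (z e^{-iθ₀})` mod `2π`).
* `avg_HH_le`: uniform continuity: for `|u - z| = δ |z|`, `u = z (1 + δ e^{iφ})`,
  `HH u = |z|^ρ |1 + δ e^{iφ}|^ρ h (arg z + arg (1 + δ e^{iφ}))` (periodicity) `→ |z|^ρ h (arg z)`
  uniformly as `δ → 0`, because `h` is bounded and uniformly continuous (periodic).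
* `RelSub.countable`: transport the index set to `ℕ` by `Countable.exists_injective_nat` (extend by
  `w = 0`, `z = 1`); `tsum` over the range.
* `RelSub.le_reflect` (`z₁ = conj z₀`, `Im z₀ ≥ 0`, resp. any `z₀` for `p = 1`): the system with the single
  point `conj z₀` dominates, and `δ → 0` (`avg_HH_le`).
-/

namespace HBInd

open Complex Filter Topology Set
open scoped Real ComplexConjugate

/-- `HH` through the angle -/
theorem HH_eq_lift {ρ : ℝ} {h : ℝ → ℝ} (hp : Function.Periodic h (2 * π)) (z : ℂ) :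
    HH ρ h z = ‖z‖ ^ ρ * hp.lift ((Complex.arg z : ℝ) : Real.Angle) := rfl

theorem continuous_liftAngle {h : ℝ → ℝ} (hp : Function.Periodic h (2 * π)) (hc : Continuous h) :
    Continuous (hp.lift : Real.Angle → ℝ) :=
  continuous_coinduced_dom.2 hc

theorem continuousOn_HH {ρ : ℝ} {h : ℝ → ℝ} (hp : ∀ θ, h (θ + 2 * π) = h θ)
    (hc : Continuous h) : ContinuousOn (HH ρ h) {z | z ≠ 0} := by
  intro z hz
  have hp' : Function.Periodic h (2 * π) := hp
  have h1 : HH ρ h = fun z => ‖z‖ ^ ρ * hp'.lift ((Complex.arg z : ℝ) : Real.Angle) := by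
    funext z
    exact HH_eq_lift hp' z
  rw [h1]
  refine ContinuousAt.continuousWithinAt (ContinuousAt.mul ?_ ?_)
  · exact continuous_norm.continuousAt.rpow_const (Or.inl (norm_ne_zero_iff.2 hz))
  · exact ((continuous_liftAngle hp' hc).continuousAt).comp (Complex.continuousAt_arg_coe_angle hz)

theorem HH_ray {ρ : ℝ} {h : ℝ → ℝ} (hp : ∀ θ, h (θ + 2 * π) = h θ) {r : ℝ} (hr : 0 < r)
    (θ : ℝ) : HH ρ h (ray r θ) = r ^ ρ * h θ := by
  have hp' : Function.Periodic h (2 * π) := hp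
  rw [HH, norm_ray hr.le, ray, arg_real_mul _ hr, arg_exp_mul_I]
  congr 1
  have h1 : toIocMod Real.two_pi_pos (-π) θ = θ - toIocDiv Real.two_pi_pos (-π) θ • (2 * π) := rfl
  rw [h1, hp'.sub_zsmul_eq]

theorem HH_mul_pos {ρ : ℝ} {h : ℝ → ℝ} {r : ℝ} (hr : 0 < r) (z : ℂ) :
    HH ρ h (r * z) = r ^ ρ * HH ρ h z := by
  rw [HH, HH, arg_real_mul _ hr, norm_mul, Complex.norm_real, Real.norm_of_nonneg hr.le,
    Real.mul_rpow hr.le (norm_nonneg z), mul_assoc]

theorem avg_HH_le {ρ : ℝ} {h : ℝ → ℝ} (hp : ∀ θ, h (θ + 2 * π) = h θ)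
    (hc : Continuous h) {ε : ℝ} (hε : 0 < ε) : ∃ δ₀ : ℝ, 0 < δ₀ ∧ δ₀ < 1 ∧
      ∀ δ : ℝ, 0 < δ → δ < δ₀ → ∀ r : ℝ, 0 < r → ∀ θ : ℝ,
        |Real.circleAverage (HH ρ h) (ray r θ) (δ * r) - r ^ ρ * h θ| ≤ r ^ ρ * ε := by
  have hS : IsCompact (Metric.closedBall (0 : ℂ) 2 \ Metric.ball 0 (1 / 2)) :=
    (isCompact_closedBall _ _).diff Metric.isOpen_ball
  have hcS : ContinuousOn (HH ρ h) (Metric.closedBall (0 : ℂ) 2 \ Metric.ball 0 (1 / 2)) := by
    refine (continuousOn_HH hp hc).mono ?_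
    rintro z ⟨-, hz⟩ rfl
    exact hz (Metric.mem_ball_self (by norm_num))
  have huc := hS.uniformContinuousOn_of_continuous hcS
  rw [Metric.uniformContinuousOn_iff] at huc
  obtain ⟨δ₁, hδ₁, hu⟩ := huc ε hε
  refine ⟨min δ₁ (1 / 2), lt_min hδ₁ (by norm_num), lt_of_le_of_lt (min_le_right _ _) (by norm_num),
    ?_⟩
  intro δ hδ0 hδ r hr θ
  have hδ1 : δ < δ₁ := lt_of_lt_of_le hδ (min_le_left _ _)
  have hδ2 : δ < 1 / 2 := lt_of_lt_of_le hδ (min_le_right _ _)
  have hR : 0 < δ * r := mul_pos hδ0 hr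
  -- points of the sphere
  have hsph : ∀ u ∈ Metric.sphere (ray r θ) |δ * r|, u ≠ 0 ∧
      |HH ρ h u - r ^ ρ * h θ| ≤ r ^ ρ * ε := by
    intro u hu'
    rw [abs_of_pos hR, mem_sphere_iff_norm] at hu'
    have hr0 : (r : ℂ) ≠ 0 := Complex.ofReal_ne_zero.2 hr.ne'
    have h1 : u = (r : ℂ) * (u / r) := by field_simp
    have h2 : ‖u / r - ray 1 θ‖ = δ := by
      have h3 : u / r - ray 1 θ = (u - ray r θ) / r := by
        rw [ray, ray]
        field_simp
        push_cast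
        ring
      rw [h3, norm_div, hu', Complex.norm_real, Real.norm_of_nonneg hr.le, mul_div_assoc,
        div_self hr.ne', mul_one]
    have h4 : ‖ray 1 θ‖ = 1 := norm_ray zero_le_one θ
    have h5 : ‖u / r‖ ≤ 1 + δ := by
      calc ‖u / r‖ = ‖ray 1 θ + (u / r - ray 1 θ)‖ := by congr 1; ring
        _ ≤ ‖ray 1 θ‖ + ‖u / r - ray 1 θ‖ := norm_add_le _ _
        _ = 1 + δ := by rw [h4, h2]
    have h6 : 1 - δ ≤ ‖u / r‖ := by
      have := norm_sub_norm_le (ray 1 θ) (ray 1 θ - u / r)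
      rw [sub_sub_cancel, norm_sub_rev, h4, h2] at this
      exact this
    have h7 : u / r ∈ Metric.closedBall (0 : ℂ) 2 \ Metric.ball 0 (1 / 2) := by
      refine ⟨?_, ?_⟩
      · rw [mem_closedBall_zero_iff]; linarith
      · rw [mem_ball_zero_iff]; linarith
    have h8 : ray 1 θ ∈ Metric.closedBall (0 : ℂ) 2 \ Metric.ball 0 (1 / 2) := by
      refine ⟨?_, ?_⟩
      · rw [mem_closedBall_zero_iff, h4]; norm_num
      · rw [mem_ball_zero_iff, h4]; norm_num
    have h9 := hu _ h7 _ h8 (by rw [dist_eq_norm, h2]; exact hδ1)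
    have h10 : HH ρ h (ray 1 θ) = h θ := by
      rw [HH_ray hp one_pos, Real.one_rpow, one_mul]
    rw [h10, Real.dist_eq] at h9
    refine ⟨?_, ?_⟩
    · rintro rfl
      rw [zero_div, norm_zero] at h6
      linarith
    · rw [h1, HH_mul_pos hr, ← mul_sub, abs_mul, abs_of_pos (Real.rpow_pos_of_pos hr ρ)]
      exact mul_le_mul_of_nonneg_left h9.le (Real.rpow_pos_of_pos hr ρ).le
  have hco : ContinuousOn (HH ρ h) (Metric.sphere (ray r θ) |δ * r|) :=
    (continuousOn_HH hp hc).mono fun u hu' => (hsph u hu').1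
  have hint : CircleIntegrable (HH ρ h) (ray r θ) (δ * r) := hco.circleIntegrable'
  have hcst : CircleIntegrable (fun _ : ℂ => r ^ ρ * h θ) (ray r θ) (δ * r) :=
    circleIntegrable_const _ _ _
  have e1 : Real.circleAverage (HH ρ h) (ray r θ) (δ * r) - r ^ ρ * h θ =
      Real.circleAverage (fun u => HH ρ h u - r ^ ρ * h θ) (ray r θ) (δ * r) := by
    rw [Real.circleAverage_fun_sub hint hcst, Real.circleAverage_const]
  rw [e1]
  refine le_trans Real.abs_circleAverage_le_circleAverage_abs ?_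
  refine Real.circleAverage_mono_on_of_le_circle ?_ fun u hu' => (hsph u hu').2
  exact (hco.sub continuousOn_const).abs.circleIntegrable'

theorem RelSub.countable {p : ℕ} {ρ : ℝ} {h : ℝ → ℝ} (hr : RelSub p ρ h) {ι : Type}
    [Countable ι] {δ : ℝ} (hδ : δ ∈ Ioo (0 : ℝ) 1) {z₀ : ℂ} (hz₀ : z₀ ≠ 0) (w : ι → ℝ)
    (z : ι → ℂ) (hw : ∀ k, 0 ≤ w k) (hz : ∀ k, z k ≠ 0)
    (hs : Summable fun k => w k * ‖z k‖ ^ ρ)
    (hd : ∀ ζ ∈ XX p, ζ ≠ z₀ → KK p (z₀ / ζ) ≤ ∑' k, w k * KD p δ (z k / ζ)) :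
    HH ρ h z₀ ≤ ∑' k, w k * Real.circleAverage (HH ρ h) (z k) (δ * ‖z k‖) := by
  obtain ⟨e, he⟩ := Countable.exists_injective_nat ι
  have key : ∀ G : ℂ → ℝ, (fun n => Function.extend e w 0 n * G (Function.extend e z 1 n)) =
      Function.extend e (fun k => w k * G (z k)) 0 := by
    intro G
    funext n
    by_cases hn : ∃ k, e k = n
    · obtain ⟨k, rfl⟩ := hn
      rw [he.extend_apply, he.extend_apply, he.extend_apply]
    · rw [Function.extend_apply' _ _ _ hn, Function.extend_apply' _ _ _ hn,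
        Function.extend_apply' _ _ _ hn, Pi.zero_apply, zero_mul]
  have key2 : ∀ G : ℂ → ℝ, ∑' n, Function.extend e w 0 n * G (Function.extend e z 1 n) =
      ∑' k, w k * G (z k) := by
    intro G
    rw [key G, tsum_extend_zero he]
  have h1 := hr δ hδ z₀ hz₀ (Function.extend e w 0) (Function.extend e z 1) ?_ ?_ ?_ ?_
  · rwa [key2 fun u => Real.circleAverage (HH ρ h) u (δ * ‖u‖)] at h1
  · intro n
    by_cases hn : ∃ k, e k = n
    · obtain ⟨k, rfl⟩ := hn
      rw [he.extend_apply]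
      exact hw k
    · rw [Function.extend_apply' _ _ _ hn]
      exact le_rfl
  · intro n
    by_cases hn : ∃ k, e k = n
    · obtain ⟨k, rfl⟩ := hn
      rw [he.extend_apply]
      exact hz k
    · rw [Function.extend_apply' _ _ _ hn]
      exact one_ne_zero
  · rw [key fun u => ‖u‖ ^ ρ]
    exact (summable_extend_zero he).2 hs
  · intro ζ hζ hne
    rw [key2 fun u => KD p δ (u / ζ)]
    exact hd ζ hζ hne

end HBInd
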