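import Pool.Agent.HBInd.Zeros
import Pool.Agent.HBInd.RelTools
import Pool.Agent.HBInd.AvgSum

/-!
# Indicators are relatively subharmonic, order less than one

Let `f` be in `E_ρ` with real valued indicator `g`, `0 < ρ < 1`, a system `δ, z₀, w, z` as in `RelSub 0`, and
`ι, a, m, A` from `exists_zeros` (`finite_type`); the `a i` are in `XX 0` (property `zero_free`). Put
`U z = log ‖f z‖ - m log ‖z‖ - A`.

* `U z = ∑_i KK 0 (z / a i)` off the zeros, and `U z ≤ K' ‖z‖^ρ` for all `z ≠ 0` which are not zeros;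
  `Ubar r k := circleAverage U (r z_k) (δ r ‖z_k‖) = ∑_i KD 0 δ (r z_k / a i)` (`hasSum_circleAverage`
  with `c i = 1 / a i`, some `σ ∈ (ρ, 1)`: `∑ |a i|^{-σ} < ∞` from the growth of `∑ log (1 + x/|a i|)`).
* If `r z₀` is not a zero, sum the domination inequality at `ζ = a i / r` over `i`
  (`∑_k w_k |KD 0 δ (r z_k / a i)|` is summable over `(k, i)`:
  `|KD 0 δ w| ≤ C_δ log (1 + |w|)`, `∑_i log (1 + r |z_k| / |a i|) ≤ K' (r |z_k|)^ρ`):
  `U (r z₀) ≤ ∑_k w_k Ubar r k`.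
* For every `k`: `limsup_r r^{-ρ} Ubar r k ≤ circleAverage (HH ρ g) (z k) (δ ‖z k‖)` (`ind_uniform`, the circle does
  not meet `0`; `log ‖f‖` is circle integrable), and `r^{-ρ} Ubar r k ≤ K' (2 ‖z k‖)^ρ` for all `r, k`; since
  `∑ w_k ‖z_k‖^ρ < ∞` and `|circleAverage (HH ρ g)| ≤ C ‖z_k‖^ρ`: `limsup_r r^{-ρ} ∑_k w_k Ubar r k ≤ ∑_k w_k avg_k`.
* `g (arg z₀) ‖z₀‖^ρ ≤ limsup_r r^{-ρ} U (r z₀)` over `r` such that `r z₀` is not a zero: from
  `frequently_of_lt_ind` (there `|f (r z₀)| > exp(..) > 0`, so it is not a zero).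
-/

namespace HBInd

open Complex Filter Topology Set Bornology MeasureTheory
open scoped Real ComplexConjugate

lemma KK_zero (w : ℂ) : KK 0 w = Real.log ‖1 - w‖ := by simp [KK]

lemma KD_zero (δ : ℝ) (w : ℂ) : KD 0 δ w = Real.log (max ‖1 - w‖ (δ * ‖w‖)) := by simp [KD]

lemma max_pos_aux {δ : ℝ} (hδ : 0 < δ) (w : ℂ) : 0 < max ‖1 - w‖ (δ * ‖w‖) := by
  rcases eq_or_ne w 0 with rfl | hw
  · simp
  · exact lt_max_of_lt_right (mul_pos hδ (norm_pos_iff.2 hw))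

lemma KD_zero_le {δ : ℝ} (hδ : δ ∈ Ioo (0 : ℝ) 1) (w : ℂ) :
    KD 0 δ w ≤ Real.log (1 + ‖w‖) := by
  rw [KD_zero]
  refine Real.log_le_log (max_pos_aux hδ.1 w) (max_le ?_ ?_)
  · exact (norm_sub_le _ _).trans (by rw [norm_one])
  · nlinarith [norm_nonneg w, hδ.2]

lemma abs_KD_zero_le {δ : ℝ} (hδ : δ ∈ Ioo (0 : ℝ) 1) :
    ∃ C : ℝ, 0 < C ∧ ∀ w : ℂ, |KD 0 δ w| ≤ C * Real.log (1 + ‖w‖) := by
  have hl : 0 < Real.log (3 / 2) := Real.log_pos (by norm_num)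
  have hd : Real.log (δ / 2) < 0 := Real.log_neg (by linarith [hδ.1]) (by linarith [hδ.2])
  have hq : 0 < -Real.log (δ / 2) / Real.log (3 / 2) := div_pos (by linarith) hl
  refine ⟨3 + -Real.log (δ / 2) / Real.log (3 / 2), by linarith, fun w => ?_⟩
  have hn := norm_nonneg w
  have h0 : 0 ≤ Real.log (1 + ‖w‖) := Real.log_nonneg (by linarith)
  rw [abs_le]
  constructor
  · rw [KD_zero]
    rcases le_or_gt ‖w‖ (1 / 2) with h | h
    · have h1 : 1 - ‖w‖ ≤ max ‖1 - w‖ (δ * ‖w‖) := by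
        refine le_max_of_le_left ?_
        have := norm_sub_norm_le (1 : ℂ) w
        rwa [norm_one] at this
      have h2 : Real.log (1 - ‖w‖) ≤ Real.log (max ‖1 - w‖ (δ * ‖w‖)) :=
        Real.log_le_log (by linarith) h1
      have h3 := Real.one_sub_inv_le_log_of_pos (show 0 < 1 - ‖w‖ by linarith)
      have h4 := Real.one_sub_inv_le_log_of_pos (show 0 < 1 + ‖w‖ by linarith)
      have h5 : -(2 * ‖w‖) ≤ 1 - (1 - ‖w‖)⁻¹ := by
        rw [← sub_nonneg]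
        have : 1 - (1 - ‖w‖)⁻¹ - -(2 * ‖w‖) = ‖w‖ * (1 - 2 * ‖w‖) / (1 - ‖w‖) := by
          field_simp [show (1 : ℝ) - ‖w‖ ≠ 0 by linarith]
          ring
        rw [this]
        exact div_nonneg (mul_nonneg hn (by linarith)) (by linarith)
      have h6 : 2 / 3 * ‖w‖ ≤ 1 - (1 + ‖w‖)⁻¹ := by
        rw [← sub_nonneg]
        have : 1 - (1 + ‖w‖)⁻¹ - 2 / 3 * ‖w‖ = ‖w‖ * (1 - 2 * ‖w‖) / (3 * (1 + ‖w‖)) := by
          field_simp [show (1 : ℝ) + ‖w‖ ≠ 0 by linarith]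
          ring
        rw [this]
        exact div_nonneg (mul_nonneg hn (by linarith)) (by linarith)
      nlinarith
    · have h1 : δ / 2 ≤ max ‖1 - w‖ (δ * ‖w‖) :=
        le_max_of_le_right (by nlinarith [hδ.1])
      have h2 : Real.log (δ / 2) ≤ Real.log (max ‖1 - w‖ (δ * ‖w‖)) :=
        Real.log_le_log (by linarith [hδ.1]) h1
      have h3 : Real.log (3 / 2) ≤ Real.log (1 + ‖w‖) :=
        Real.log_le_log (by norm_num) (by linarith)
      have h4 : -Real.log (δ / 2) ≤ -Real.log (δ / 2) / Real.log (3 / 2) * Real.log (1 + ‖w‖) := by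
        calc -Real.log (δ / 2) = -Real.log (δ / 2) / Real.log (3 / 2) * Real.log (3 / 2) := by
              field_simp
          _ ≤ _ := mul_le_mul_of_nonneg_left h3 hq.le
      nlinarith
  · have := KD_zero_le hδ w
    nlinarith

/-- convergence exponent from the growth of the counting sum -/
lemma summable_rpow_of_log {ι : Type} {t : ι → ℝ} (ht : ∀ i, 0 < t i) {ρ σ K : ℝ}
    (hσ0 : 0 < σ) (hσ : ρ < σ)
    (h : ∀ x : ℝ, 0 < x → (Summable fun i => Real.log (1 + x * t i)) ∧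
      ∑' i, Real.log (1 + x * t i) ≤ K * x ^ ρ) : Summable fun i => t i ^ σ := by
  have hnn : ∀ (x : ℝ) i, 0 < x → 0 ≤ Real.log (1 + x * t i) := fun x i hx =>
    Real.log_nonneg (by linarith [mul_pos hx (ht i)])
  obtain ⟨F, hFdef⟩ : ∃ F : ℕ × ι → ℝ, ∀ k i,
      F (k, i) = ((2 : ℝ) ^ k) ^ (-σ) * Real.log (1 + 2 ^ k * t i) := 
    ⟨fun p => ((2 : ℝ) ^ p.1) ^ (-σ) * Real.log (1 + 2 ^ p.1 * t p.2), fun _ _ => rfl⟩
  have hF0 : 0 ≤ F := by
    rintro ⟨k, i⟩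
    rw [hFdef]
    exact mul_nonneg (Real.rpow_nonneg (by positivity) _) (hnn _ _ (by positivity))
  have hF : Summable F := by
    rw [summable_prod_of_nonneg hF0]
    constructor
    · intro k
      simp only [hFdef]
      exact ((h ((2 : ℝ) ^ k) (by positivity)).1).mul_left _
    have hg : Summable fun k : ℕ => K * ((2 : ℝ) ^ (ρ - σ)) ^ k := by
      refine (summable_geometric_of_lt_one (by positivity) ?_).mul_left K
      exact Real.rpow_lt_one_of_one_lt_of_neg (by norm_num) (by linarith)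
    refine Summable.of_nonneg_of_le (fun k => tsum_nonneg fun i => hF0 (k, i)) (fun k => ?_) hg
    simp only [hFdef]
    rw [tsum_mul_left]
    calc ((2 : ℝ) ^ k) ^ (-σ) * ∑' i, Real.log (1 + 2 ^ k * t i)
        ≤ ((2 : ℝ) ^ k) ^ (-σ) * (K * (2 ^ k) ^ ρ) :=
          mul_le_mul_of_nonneg_left (h (2 ^ k) (by positivity)).2 (by positivity)
      _ = K * (((2 : ℝ) ^ k) ^ (-σ) * (2 ^ k) ^ ρ) := by ring
      _ = K * ((2 : ℝ) ^ (ρ - σ)) ^ k := by
          rw [← Real.rpow_add (by positivity), ← Real.rpow_natCast, ← Real.rpow_natCast,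
            ← Real.rpow_mul (by norm_num), ← Real.rpow_mul (by norm_num)]
          congr 2
          ring
  have hF' : Summable fun p : ι × ℕ => F p.swap := (Equiv.prodComm ι ℕ).summable_iff.2 hF
  have h2 := (summable_prod_of_nonneg (f := fun p : ι × ℕ => F p.swap)
    (fun p => hF0 p.swap)).1 hF'
  have hl : 0 < Real.log (3 / 2) := Real.log_pos (by norm_num)
  refine Summable.of_norm_bounded_eventually (h2.2.mul_left (Real.log (3 / 2))⁻¹) ?_
  have h3 : ∀ᶠ i in cofinite, t i < 1 := by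
    have h4 := (h 1 one_pos).1.tendsto_cofinite_zero
    have h5 : (0 : ℝ) < Real.log 2 := Real.log_pos (by norm_num)
    filter_upwards [h4.eventually_lt_const h5] with i hi
    have h6 := (Real.log_lt_log_iff (by linarith [ht i]) (by norm_num)).1 hi
    linarith
  filter_upwards [h3] with i hi
  rw [Real.norm_of_nonneg (Real.rpow_nonneg (ht i).le _)]
  obtain ⟨n, hn1, hn2⟩ := exists_nat_pow_near (x := (t i)⁻¹) (y := 2)
    ((one_le_inv₀ (ht i)).2 hi.le) (by norm_num)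
  have h4 : (2 : ℝ) ^ n * t i ≤ 1 := by
    have := mul_le_mul_of_nonneg_right hn1 (ht i).le
    rwa [inv_mul_cancel₀ (ht i).ne'] at this
  have h5 : 1 < (2 : ℝ) ^ (n + 1) * t i := by
    have := mul_lt_mul_of_pos_right hn2 (ht i)
    rwa [inv_mul_cancel₀ (ht i).ne'] at this
  have h6 : t i ^ σ ≤ ((2 : ℝ) ^ n) ^ (-σ) := by
    rw [Real.rpow_neg (by positivity), ← Real.inv_rpow (by positivity)]
    refine Real.rpow_le_rpow (ht i).le ?_ hσ0.le
    rw [← one_div, le_div_iff₀ (by positivity), mul_comm]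
    exact h4
  have h7 : Real.log (3 / 2) ≤ Real.log (1 + 2 ^ n * t i) := by
    refine Real.log_le_log (by norm_num) ?_
    rw [pow_succ] at h5
    linarith
  have h8 : F (n, i) ≤ ∑' k, F (k, i) :=
    (h2.1 i).le_tsum n fun k _ => hF0 (k, i)
  rw [← div_eq_inv_mul, le_div_iff₀ hl]
  refine le_trans ?_ h8
  rw [hFdef]
  exact mul_le_mul h6 h7 hl.le (by positivity)

/-- averages of the canonical product over small circles -/
lemma avg_canonical {δ ρ K : ℝ} (hδ : δ ∈ Ioo (0 : ℝ) 1) (hρ : 0 < ρ) (hρ1 : ρ < 1) {ι : Type}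
    [Countable ι] {a : ι → ℂ} (ha : ∀ i, a i ≠ 0)
    (hK : ∀ x : ℝ, 0 < x → (Summable fun i => Real.log (1 + x / ‖a i‖)) ∧
      ∑' i, Real.log (1 + x / ‖a i‖) ≤ K * x ^ ρ)
    {U : ℂ → ℝ}
    (hU : ∀ u : ℂ, u ≠ 0 → (∀ i, u ≠ a i) → HasSum (fun i => KK 0 (u / a i)) (U u))
    {z : ℂ} (hz : z ≠ 0) :
    HasSum (fun i => KD 0 δ (z / a i)) (Real.circleAverage U z (δ * ‖z‖)) ∧
      Real.circleAverage U z (δ * ‖z‖) ≤ K * ‖z‖ ^ ρ := by
  obtain ⟨σ, h1, h2⟩ := exists_between hρ1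
  have hs : Summable fun i => ‖(a i)⁻¹‖ ^ σ := by
    refine summable_rpow_of_log (fun i => norm_pos_iff.2 (inv_ne_zero (ha i)))
      (hρ.trans h1) h1 (K := K) fun x hx => ?_
    have := hK x hx
    simp only [norm_inv, ← div_eq_mul_inv]
    exact this
  have h3 := hasSum_circleAverage (p := 0) (by norm_num) (c := fun i => (a i)⁻¹) (σ := σ)
    (by simpa using hρ.trans h1) (by simpa using h2) hs (F := U)
    (fun u hu hcu => by
      have := hU u hu (fun i e => hcu i (by rw [e, inv_mul_cancel₀ (ha i)]))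
      simpa only [div_eq_inv_mul] using this) hδ hz
  have h4 : HasSum (fun i => KD 0 δ (z / a i)) (Real.circleAverage U z (δ * ‖z‖)) := by
    simpa only [div_eq_inv_mul] using h3
  refine ⟨h4, ?_⟩
  obtain ⟨h5, h6⟩ := hK ‖z‖ (norm_pos_iff.2 hz)
  refine le_trans ?_ h6
  refine hasSum_le (fun i => ?_) h4 h5.hasSum
  have := KD_zero_le hδ (z / a i)
  rwa [norm_div] at this

/-- summation of the domination inequality over the zeros -/
lemma domination_sum {δ ρ K : ℝ} (hδ : δ ∈ Ioo (0 : ℝ) 1) (hρ : 0 < ρ) (hρ1 : ρ < 1) {ι : Type}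
    [Countable ι] {a : ι → ℂ} (ha : ∀ i, a i ≠ 0) (him : ∀ i, 0 ≤ (a i).im)
    (hK : ∀ x : ℝ, 0 < x → (Summable fun i => Real.log (1 + x / ‖a i‖)) ∧
      ∑' i, Real.log (1 + x / ‖a i‖) ≤ K * x ^ ρ)
    {U : ℂ → ℝ}
    (hU : ∀ u : ℂ, u ≠ 0 → (∀ i, u ≠ a i) → HasSum (fun i => KK 0 (u / a i)) (U u))
    {z₀ : ℂ} (hz₀ : z₀ ≠ 0) {w : ℕ → ℝ} {z : ℕ → ℂ} (hw : ∀ k, 0 ≤ w k) (hz : ∀ k, z k ≠ 0)
    (hs : Summable fun k => w k * ‖z k‖ ^ ρ)
    (hd : ∀ ζ ∈ XX 0, ζ ≠ z₀ → KK 0 (z₀ / ζ) ≤ ∑' k, w k * KD 0 δ (z k / ζ))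
    {r : ℝ} (hr : 0 < r) (hr0 : ∀ i, r * z₀ ≠ a i) :
    (Summable fun k => w k * Real.circleAverage U (r * z k) (δ * ‖r * z k‖)) ∧
      U (r * z₀) ≤ ∑' k, w k * Real.circleAverage U (r * z k) (δ * ‖r * z k‖) := by
  have hrc : (r : ℂ) ≠ 0 := by exact_mod_cast hr.ne'
  have hrz : ∀ k, (r : ℂ) * z k ≠ 0 := fun k => mul_ne_zero hrc (hz k)
  obtain ⟨C, hC0, hC⟩ := abs_KD_zero_le hδ
  obtain ⟨F, hF⟩ : ∃ F : ℕ × ι → ℝ, ∀ k i, F (k, i) = w k * KD 0 δ (r * z k / a i) :=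
    ⟨fun p => w p.1 * KD 0 δ (r * z p.1 / a p.2), fun _ _ => rfl⟩
  obtain ⟨G, hG⟩ : ∃ G : ℕ × ι → ℝ, ∀ k i,
      G (k, i) = w k * (C * Real.log (1 + ‖r * z k‖ / ‖a i‖)) :=
    ⟨fun p => w p.1 * (C * Real.log (1 + ‖r * z p.1‖ / ‖a p.2‖)), fun _ _ => rfl⟩
  have hG0 : 0 ≤ G := by
    rintro ⟨k, i⟩
    rw [hG]
    exact mul_nonneg (hw k) (mul_nonneg hC0.le (Real.log_nonneg (by
      have : 0 ≤ ‖r * z k‖ / ‖a i‖ := by positivity
      linarith)))
  have hGs : Summable G := by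
    rw [summable_prod_of_nonneg hG0]
    constructor
    · intro k
      simp only [hG]
      exact (((hK _ (norm_pos_iff.2 (hrz k))).1).mul_left C).mul_left _
    · have hg : Summable fun k => (C * K * r ^ ρ) * (w k * ‖z k‖ ^ ρ) := hs.mul_left _
      refine Summable.of_nonneg_of_le (fun k => tsum_nonneg fun i => hG0 (k, i)) (fun k => ?_) hg
      simp only [hG]
      rw [tsum_mul_left, tsum_mul_left]
      have h1 := (hK _ (norm_pos_iff.2 (hrz k))).2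
      calc w k * (C * ∑' i, Real.log (1 + ‖r * z k‖ / ‖a i‖)) ≤
          w k * (C * (K * ‖r * z k‖ ^ ρ)) :=
            mul_le_mul_of_nonneg_left (mul_le_mul_of_nonneg_left h1 hC0.le) (hw k)
        _ = C * K * r ^ ρ * (w k * ‖z k‖ ^ ρ) := by
            rw [norm_mul, Complex.norm_real, Real.norm_of_nonneg hr.le,
              Real.mul_rpow hr.le (norm_nonneg _)]
            ring
  have hFs : Summable F := by
    refine Summable.of_norm_bounded hGs ?_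
    rintro ⟨k, i⟩
    rw [hF, hG, Real.norm_eq_abs, abs_mul, abs_of_nonneg (hw k)]
    refine mul_le_mul_of_nonneg_left ?_ (hw k)
    have := hC (r * z k / a i)
    rwa [norm_div] at this
  have hrow : ∀ k, ∑' i, F (k, i) = w k * Real.circleAverage U (r * z k) (δ * ‖r * z k‖) := by
    intro k
    simp only [hF]
    rw [tsum_mul_left, ((avg_canonical hδ hρ hρ1 ha hK hU (hrz k)).1).tsum_eq]
  have hsum1 : Summable fun k => ∑' i, F (k, i) := hFs.prod
  refine ⟨by simpa only [hrow] using hsum1, ?_⟩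
  have hcomm : ∑' k, ∑' i, F (k, i) = ∑' i, ∑' k, F (k, i) :=
    (Summable.tsum_comm (f := fun k i => F (k, i)) hFs).symm
  simp only [hrow] at hcomm
  rw [hcomm]
  have hF' : Summable fun p : ι × ℕ => F p.swap := (Equiv.prodComm ι ℕ).summable_iff.2 hFs
  have hcol : Summable fun i => ∑' k, F (k, i) := hF'.prod
  refine hasSum_le (fun i => ?_) (hU (r * z₀) (mul_ne_zero hrc hz₀) hr0) hcol.hasSum
  have hζ : a i / r ∈ XX 0 := by
    refine ⟨div_ne_zero (ha i) hrc, ?_, fun h => absurd h (by norm_num)⟩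
    rw [Complex.div_ofReal_im]
    exact div_nonneg (him i) hr.le
  have h1 := hd (a i / r) hζ (by
    intro e
    apply hr0 i
    rw [← e, mul_div_cancel₀ _ hrc])
  have e1 : z₀ / (a i / r) = r * z₀ / a i := by
    field_simp
  have e2 : ∀ k, z k / (a i / r) = r * z k / a i := fun k => by
    field_simp
  rw [e1] at h1
  simp only [e2] at h1
  simpa only [hF] using h1

lemma circleAverage_le_of_countable {c : ℂ} {R : ℝ} (hR : R ≠ 0) {F G : ℂ → ℝ}
    (hF : CircleIntegrable F c R) (hG : CircleIntegrable G c R) {S : Set ℂ} (hS : S.Countable)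
    (h : ∀ u ∈ Metric.sphere c |R|, u ∉ S → F u ≤ G u) :
    Real.circleAverage F c R ≤ Real.circleAverage G c R := by
  apply (mul_le_mul_iff_of_pos_left (by simp [Real.pi_pos])).2
  refine intervalIntegral.integral_mono_ae (by positivity) hF hG ?_
  filter_upwards [(hS.preimage_circleMap c hR).ae_notMem volume] with θ hθ
  exact h _ (circleMap_mem_sphere' c R θ) hθ

lemma HH_mul {ρ : ℝ} {h : ℝ → ℝ} {r : ℝ} (hr : 0 < r) (u : ℂ) :
    HH ρ h (r * u) = r ^ ρ * HH ρ h u := by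
  rw [HH, HH, norm_mul, Complex.norm_real, Real.norm_of_nonneg hr.le,
    Real.mul_rpow hr.le (norm_nonneg _), Complex.arg_real_mul _ hr, mul_assoc]

lemma circleAverage_HH_mul {ρ δ : ℝ} {h : ℝ → ℝ} {r : ℝ} (hr : 0 < r) (z : ℂ) :
    Real.circleAverage (HH ρ h) (r * z) (δ * ‖r * z‖) =
      r ^ ρ * Real.circleAverage (HH ρ h) z (δ * ‖z‖) := by
  have h1 : ∀ θ, circleMap (r * z) (δ * ‖(r : ℂ) * z‖) θ = r * circleMap z (δ * ‖z‖) θ := by
    intro θ
    rw [circleMap, circleMap, norm_mul, Complex.norm_real, Real.norm_of_nonneg hr.le]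
    push_cast
    ring
  simp only [Real.circleAverage, h1, HH_mul hr, intervalIntegral.integral_const_mul, smul_eq_mul]
  ring

lemma norm_on_circle {δ : ℝ} (hδ : δ ∈ Ioo (0 : ℝ) 1) {z u : ℂ}
    (hu : u ∈ Metric.sphere z |δ * ‖z‖|) : (1 - δ) * ‖z‖ ≤ ‖u‖ ∧ ‖u‖ ≤ 2 * ‖z‖ := by
  have hn := norm_nonneg z
  rw [mem_sphere_iff_norm, abs_of_nonneg (mul_nonneg hδ.1.le hn)] at hu
  constructor
  · have := norm_sub_norm_le z u
    rw [norm_sub_rev, hu] at this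
    linarith
  · have := norm_sub_norm_le u z
    rw [hu] at this
    nlinarith [hδ.2]

lemma circle_ne_zero {δ : ℝ} (hδ : δ ∈ Ioo (0 : ℝ) 1) {z u : ℂ} (hz : z ≠ 0)
    (hu : u ∈ Metric.sphere z |δ * ‖z‖|) : u ≠ 0 := by
  rw [← norm_pos_iff]
  have h1 := (norm_on_circle hδ hu).1
  have h2 : 0 < (1 - δ) * ‖z‖ := mul_pos (by linarith [hδ.2]) (norm_pos_iff.2 hz)
  linarith

lemma circleIntegrable_HH {ρ δ : ℝ} {g : ℝ → ℝ} (hgp : ∀ θ, g (θ + 2 * π) = g θ)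
    (hgc : Continuous g) (hδ : δ ∈ Ioo (0 : ℝ) 1) {z : ℂ} (hz : z ≠ 0) :
    CircleIntegrable (HH ρ g) z (δ * ‖z‖) :=
  ContinuousOn.circleIntegrable' ((continuousOn_HH hgp hgc).mono fun _ hu => circle_ne_zero hδ hz hu)

lemma avg_le_HH {ρ : ℝ} {f : ℂ → ℂ} (hf : InClass ρ f) (hρ : 0 < ρ) {g : ℝ → ℝ}
    (hg : ∀ θ, ind ρ f θ = g θ) (hgp : ∀ θ, g (θ + 2 * π) = g θ) (hgc : Continuous g)
    (m : ℕ) (A : ℝ) {δ : ℝ} (hδ : δ ∈ Ioo (0 : ℝ) 1) {z : ℂ} (hz : z ≠ 0)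
    (hzeros : {u | f u = 0}.Countable) {ε : ℝ} (hε : 0 < ε) :
    ∀ᶠ r : ℝ in atTop,
      Real.circleAverage (fun u => Real.log ‖f u‖ - m * Real.log ‖u‖ - A) (r * z) (δ * ‖r * z‖) ≤
        r ^ ρ * (Real.circleAverage (HH ρ g) z (δ * ‖z‖) + ε) := by
  have hz' : 0 < ‖z‖ := norm_pos_iff.2 hz
  obtain ⟨B, hB⟩ : ∃ B : ℝ, B = (2 * ‖z‖) ^ ρ := ⟨_, rfl⟩
  have hB0 : 0 < B := by rw [hB]; positivity
  obtain ⟨ε₁, hε₁⟩ : ∃ e : ℝ, e = ε / (2 * B) := ⟨_, rfl⟩
  have hε₁0 : 0 < ε₁ := by rw [hε₁]; positivity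
  have ev1 := ind_uniform hf hρ hg hε₁0
  have ev2 : ∀ᶠ s : ℝ in atTop, |A| / ε₁ ≤ s ^ ρ := (tendsto_rpow_atTop hρ).eventually_ge_atTop _
  obtain ⟨s₁, hs₁⟩ := eventually_atTop.1 (ev1.and (ev2.and (eventually_ge_atTop 1)))
  have key : ∀ u : ℂ, s₁ ≤ ‖u‖ → f u ≠ 0 →
      Real.log ‖f u‖ - m * Real.log ‖u‖ - A ≤ HH ρ g u + 2 * ε₁ * ‖u‖ ^ ρ := by
    intro u hu hfu
    obtain ⟨h1, h2, h3⟩ := hs₁ ‖u‖ hu
    have h4 := h1 u.arg
    have h5 : ray ‖u‖ u.arg = u := Complex.norm_mul_exp_arg_mul_I u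
    rw [h5] at h4
    have h6 : Real.log ‖f u‖ ≤ (g u.arg + ε₁) * ‖u‖ ^ ρ :=
      (Real.log_le_iff_le_exp (norm_pos_iff.2 hfu)).2 h4
    have h7 : 0 ≤ (m : ℝ) * Real.log ‖u‖ := mul_nonneg (Nat.cast_nonneg _) (Real.log_nonneg h3)
    have h8 : |A| ≤ ε₁ * ‖u‖ ^ ρ := by
      rw [div_le_iff₀ hε₁0] at h2; linarith
    have h9 := neg_abs_le A
    rw [HH]
    nlinarith
  have ev3 : ∀ᶠ r : ℝ in atTop, s₁ / ((1 - δ) * ‖z‖) ≤ r := eventually_ge_atTop _
  filter_upwards [ev3, eventually_gt_atTop 0] with r hr hr0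
  have hd : 0 < (1 - δ) * ‖z‖ := mul_pos (by linarith [hδ.2]) hz'
  rw [div_le_iff₀ hd] at hr
  have hrz : (r : ℂ) * z ≠ 0 := mul_ne_zero (by exact_mod_cast hr0.ne') hz
  have hnorm : ‖(r : ℂ) * z‖ = r * ‖z‖ := by
    rw [norm_mul, Complex.norm_real, Real.norm_of_nonneg hr0.le]
  have hR : δ * ‖(r : ℂ) * z‖ ≠ 0 := mul_ne_zero hδ.1.ne' (norm_ne_zero_iff.2 hrz)
  have i1 : CircleIntegrable (fun u => Real.log ‖f u‖) (r * z) (δ * ‖(r : ℂ) * z‖) :=
    MeromorphicOn.circleIntegrable_log_norm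
      (fun u _ => (hf.entire.analyticAt u).meromorphicAt)
  have i2 : CircleIntegrable (fun u : ℂ => Real.log ‖u‖) (r * z) (δ * ‖(r : ℂ) * z‖) :=
    MeromorphicOn.circleIntegrable_log_norm (f := fun u => u)
      (fun u _ => (differentiable_id.analyticAt u).meromorphicAt)
  have i3 : CircleIntegrable (fun u => Real.log ‖f u‖ - m * Real.log ‖u‖ - A) (r * z)
      (δ * ‖(r : ℂ) * z‖) :=
    (i1.sub (i2.const_smul (a := (m : ℝ)))).sub (circleIntegrable_const A _ _)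
  have i4 : CircleIntegrable (HH ρ g) (r * z) (δ * ‖(r : ℂ) * z‖) :=
    circleIntegrable_HH hgp hgc hδ hrz
  have h1 := circleAverage_le_of_countable hR i3
    (i4.add (circleIntegrable_const (ε * r ^ ρ) _ _)) hzeros (fun u hu huS => by
      obtain ⟨h2, h3⟩ := norm_on_circle hδ hu
      have h4 : s₁ ≤ ‖u‖ := by rw [hnorm] at h2; nlinarith
      have h5 := key u h4 huS
      have h6 : 2 * ε₁ * ‖u‖ ^ ρ ≤ ε * r ^ ρ := by
        have h7 : ‖u‖ ^ ρ ≤ (2 * (r * ‖z‖)) ^ ρ := by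
          rw [hnorm] at h3
          exact Real.rpow_le_rpow (norm_nonneg _) h3 hρ.le
        have h8 : (2 * (r * ‖z‖)) ^ ρ = r ^ ρ * B := by
          rw [hB, ← Real.mul_rpow hr0.le (by positivity)]; ring_nf
        rw [h8] at h7
        have h9 : 2 * ε₁ * (r ^ ρ * B) = ε * r ^ ρ := by rw [hε₁]; field_simp
        rw [← h9]
        exact mul_le_mul_of_nonneg_left h7 (by positivity)
      exact h5.trans (by
        change _ ≤ HH ρ g u + ε * r ^ ρ
        linarith))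
  rw [Real.circleAverage_add i4 (circleIntegrable_const _ _ _), Real.circleAverage_const,
    circleAverage_HH_mul hr0] at h1
  refine h1.trans (le_of_eq ?_)
  ring

lemma eventually_log_le {ρ : ℝ} (hρ : 0 < ρ) (m : ℕ) (A : ℝ) {c : ℝ} (hc : 0 < c) :
    ∀ᶠ s : ℝ in atTop, m * Real.log s + A ≤ c * s ^ ρ := by
  have h1 : (fun s : ℝ => (m : ℝ) * Real.log s) =o[atTop] fun s : ℝ => s ^ ρ :=
    (isLittleO_log_rpow_atTop hρ).const_mul_left _
  have h2 := h1.bound (half_pos hc)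
  have h3 : ∀ᶠ s : ℝ in atTop, A / (c / 2) ≤ s ^ ρ := (tendsto_rpow_atTop hρ).eventually_ge_atTop _
  filter_upwards [h2, h3, eventually_gt_atTop 0] with s h4 h5 h6
  rw [Real.norm_eq_abs, Real.norm_of_nonneg (Real.rpow_nonneg h6.le _)] at h4
  rw [div_le_iff₀ (half_pos hc)] at h5
  have := le_abs_self ((m : ℝ) * Real.log s)
  linarith

theorem relSub_zero {ρ : ℝ} {f : ℂ → ℂ} (hf : InClass ρ f) (hρ : 0 < ρ) (hρ1 : ρ < 1)
    {g : ℝ → ℝ} (hg : ∀ θ, ind ρ f θ = g θ) : RelSub 0 ρ g := by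
  intro δ hδ z₀ hz₀ w z hw hz hs hd
  have hgp : ∀ θ, g (θ + 2 * π) = g θ := by
    intro θ
    have h := ind_add_two_pi ρ f θ
    rw [hg, hg] at h
    exact_mod_cast h
  have hgc : Continuous g := continuous_of_trigConvex hρ (trigConvex_of_ind hf hρ hg)
  obtain ⟨K, hK0, hKf⟩ := finite_type hf hρ hg
  obtain ⟨ι, hι, a, m, A, ha, ⟨K', hK'0, hK'⟩, hrep⟩ :=
    exists_zeros hf.entire ⟨-I, hf.zero_free (-I) (by simp)⟩ hρ hρ1 hKf
  have ha0 : ∀ i, a i ≠ 0 := fun i => (ha i).1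
  have him : ∀ i, 0 ≤ (a i).im := by
    intro i
    by_contra h
    exact hf.zero_free (a i) (not_le.1 h) (ha i).2
  obtain ⟨U, hUdef⟩ : ∃ U : ℂ → ℝ, U = fun u => Real.log ‖f u‖ - m * Real.log ‖u‖ - A :=
    ⟨_, rfl⟩
  have hU : ∀ u : ℂ, u ≠ 0 → (∀ i, u ≠ a i) → HasSum (fun i => KK 0 (u / a i)) (U u) := by
    intro u hu hui
    simp only [KK_zero, hUdef]
    exact (hrep u hu hui).2
  have hzeros : {u | f u = 0}.Countable := by
    refine ((countable_singleton (0 : ℂ)).union (countable_range a)).mono ?_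
    intro u hu
    by_contra hcon
    rw [mem_union, not_or, mem_singleton_iff, mem_range, not_exists] at hcon
    exact (hrep u hcon.1 (fun i e => hcon.2 i e.symm)).1 hu
  -- bounds for `g` and for the averages of `HH ρ g`
  obtain ⟨G, hG⟩ : ∃ G : ℝ, ∀ u : ℂ, |HH ρ g u| ≤ G * ‖u‖ ^ ρ := by
    obtain ⟨G, hG⟩ := (isCompact_Icc (a := -π) (b := π)).exists_bound_of_continuousOn
      hgc.continuousOn
    refine ⟨G, fun u => ?_⟩
    rw [HH, abs_mul, abs_of_nonneg (Real.rpow_nonneg (norm_nonneg _) _), mul_comm]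
    exact mul_le_mul_of_nonneg_right (hG _ ⟨(Complex.neg_pi_lt_arg u).le, Complex.arg_le_pi u⟩)
      (Real.rpow_nonneg (norm_nonneg _) _)
  have hG0 : 0 ≤ G := by
    have := (abs_nonneg _).trans (hG 1)
    rwa [norm_one, Real.one_rpow, mul_one] at this
  obtain ⟨avg, havg⟩ : ∃ avg : ℕ → ℝ, ∀ k,
      avg k = Real.circleAverage (HH ρ g) (z k) (δ * ‖z k‖) := ⟨fun k => _, fun _ => rfl⟩
  obtain ⟨C₁, hC₁⟩ : ∃ C₁ : ℝ, C₁ = G * 2 ^ ρ := ⟨_, rfl⟩
  have hC₁0 : 0 ≤ C₁ := by rw [hC₁]; positivity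
  have havgb : ∀ k, |avg k| ≤ C₁ * ‖z k‖ ^ ρ := by
    intro k
    have hi := circleIntegrable_HH (ρ := ρ) hgp hgc hδ (hz k)
    have hb : ∀ u ∈ Metric.sphere (z k) |δ * ‖z k‖|, |HH ρ g u| ≤ C₁ * ‖z k‖ ^ ρ := by
      intro u hu
      have h1 := (norm_on_circle hδ hu).2
      have h2 : ‖u‖ ^ ρ ≤ 2 ^ ρ * ‖z k‖ ^ ρ := by
        rw [← Real.mul_rpow (by norm_num) (norm_nonneg _)]
        exact Real.rpow_le_rpow (norm_nonneg _) h1 hρ.le
      calc |HH ρ g u| ≤ G * ‖u‖ ^ ρ := hG u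
        _ ≤ G * (2 ^ ρ * ‖z k‖ ^ ρ) := mul_le_mul_of_nonneg_left h2 hG0
        _ = C₁ * ‖z k‖ ^ ρ := by rw [hC₁]; ring
    rw [havg, abs_le]
    constructor
    · have := Real.circleAverage_mono (circleIntegrable_const (-(C₁ * ‖z k‖ ^ ρ)) (z k)
        (δ * ‖z k‖)) hi (fun u hu => (abs_le.1 (hb u hu)).1)
      rwa [Real.circleAverage_const] at this
    · exact Real.circleAverage_mono_on_of_le_circle hi (fun u hu => (abs_le.1 (hb u hu)).2)
  have havgs : Summable fun k => w k * avg k := by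
    refine Summable.of_norm_bounded (hs.mul_left C₁) fun k => ?_
    rw [Real.norm_eq_abs, abs_mul, abs_of_nonneg (hw k)]
    calc w k * |avg k| ≤ w k * (C₁ * ‖z k‖ ^ ρ) := mul_le_mul_of_nonneg_left (havgb k) (hw k)
      _ = C₁ * (w k * ‖z k‖ ^ ρ) := by ring
  -- the excess
  obtain ⟨ub, hub⟩ : ∃ ub : ℝ → ℕ → ℝ, ∀ r k,
      ub r k = Real.circleAverage U (r * z k) (δ * ‖r * z k‖) := ⟨fun r k => _, fun _ _ => rfl⟩
  obtain ⟨e, he⟩ : ∃ e : ℝ → ℕ → ℝ, ∀ r k, e r k = max 0 (r ^ (-ρ) * ub r k - avg k) :=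
    ⟨fun r k => max 0 (r ^ (-ρ) * ub r k - avg k), fun _ _ => rfl⟩
  have he0 : ∀ r k, 0 ≤ e r k := fun r k => by rw [he]; exact le_max_left _ _
  have hnormr : ∀ (r : ℝ) k, 0 < r → ‖(r : ℂ) * z k‖ = r * ‖z k‖ := fun r k hr => by
    rw [norm_mul, Complex.norm_real, Real.norm_of_nonneg hr.le]
  have heb : ∀ r k, 0 < r → e r k ≤ (K' + C₁) * ‖z k‖ ^ ρ := by
    intro r k hr
    have hrz : (r : ℂ) * z k ≠ 0 := mul_ne_zero (by exact_mod_cast hr.ne') (hz k)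
    have h1 := (avg_canonical hδ hρ hρ1 ha0 hK' hU hrz).2
    rw [← hub, hnormr r k hr, Real.mul_rpow hr.le (norm_nonneg _)] at h1
    have h2 : r ^ (-ρ) * ub r k ≤ K' * ‖z k‖ ^ ρ := by
      rw [Real.rpow_neg hr.le, inv_mul_le_iff₀ (Real.rpow_pos_of_pos hr _)]
      linarith
    have h3 := (abs_le.1 (havgb k)).1
    have h4 : 0 ≤ ‖z k‖ ^ ρ := Real.rpow_nonneg (norm_nonneg _) _
    rw [he]
    refine max_le (mul_nonneg (by linarith) h4) ?_
    rw [add_mul]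
    linarith
  have het : ∀ k, Tendsto (fun r => e r k) atTop (𝓝 0) := by
    intro k
    rw [Metric.tendsto_atTop']
    intro ε hε
    have h1 := avg_le_HH hf hρ hg hgp hgc m A hδ (hz k) hzeros (half_pos hε)
    obtain ⟨N, hN⟩ := eventually_atTop.1 (h1.and (eventually_gt_atTop 0))
    refine ⟨N, fun r hr => ?_⟩
    obtain ⟨h2, h3⟩ := hN r hr.le
    rw [Real.dist_eq, sub_zero, abs_of_nonneg (he0 r k), he]
    refine max_lt hε ?_
    rw [← hUdef, ← hub, ← havg] at h2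
    have h4 : r ^ (-ρ) * ub r k ≤ avg k + ε / 2 := by
      rw [Real.rpow_neg h3.le, inv_mul_le_iff₀ (Real.rpow_pos_of_pos h3 _)]
      exact h2
    linarith
  have hEt : Tendsto (fun r => ∑' k, w k * e r k) atTop (𝓝 (∑' _k : ℕ, (0 : ℝ))) := by
    refine tendsto_tsum_of_dominated_convergence (bound := fun k => (K' + C₁) * (w k * ‖z k‖ ^ ρ))
      (hs.mul_left _) (fun k => ?_) ?_
    · have := (het k).const_mul (w k)
      rwa [mul_zero] at this
    · filter_upwards [eventually_gt_atTop 0] with r hr k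
      rw [Real.norm_of_nonneg (mul_nonneg (hw k) (he0 r k))]
      calc w k * e r k ≤ w k * ((K' + C₁) * ‖z k‖ ^ ρ) :=
            mul_le_mul_of_nonneg_left (heb r k hr) (hw k)
        _ = _ := by ring
  rw [tsum_zero] at hEt
  -- the main inequality
  have main : ∀ r : ℝ, 0 < r → f (r * z₀) ≠ 0 →
      U (r * z₀) ≤ r ^ ρ * (∑' k, w k * avg k + ∑' k, w k * e r k) := by
    intro r hr hfr
    have hr0 : ∀ i, (r : ℂ) * z₀ ≠ a i := fun i e => hfr (by rw [e]; exact (ha i).2)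
    obtain ⟨h1, h2⟩ := domination_sum hδ hρ hρ1 ha0 him hK' hU hz₀ hw hz hs hd hr hr0
    simp only [← hub] at h1 h2
    have hes : Summable fun k => w k * e r k := by
      refine Summable.of_nonneg_of_le (fun k => mul_nonneg (hw k) (he0 r k)) (fun k => ?_)
        (hs.mul_left (K' + C₁))
      calc w k * e r k ≤ w k * ((K' + C₁) * ‖z k‖ ^ ρ) :=
            mul_le_mul_of_nonneg_left (heb r k hr) (hw k)
        _ = _ := by ring
    refine h2.trans ?_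
    rw [← Summable.tsum_add havgs hes, ← tsum_mul_left]
    refine h1.tsum_le_tsum (fun k => ?_) ((havgs.add hes).mul_left _)
    have h3 : r ^ (-ρ) * ub r k ≤ avg k + e r k := by
      have := le_max_right 0 (r ^ (-ρ) * ub r k - avg k)
      rw [← he] at this
      linarith
    rw [Real.rpow_neg hr.le, inv_mul_le_iff₀ (Real.rpow_pos_of_pos hr _)] at h3
    calc w k * ub r k ≤ w k * (r ^ ρ * (avg k + e r k)) := mul_le_mul_of_nonneg_left h3 (hw k)
      _ = _ := by ring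
  -- conclusion
  have hgoal : HH ρ g z₀ ≤ ∑' k, w k * avg k := by
    by_contra hcon
    rw [not_le] at hcon
    obtain ⟨S, hS⟩ : ∃ S : ℝ, S = ∑' k, w k * avg k := ⟨_, rfl⟩
    rw [← hS] at hcon
    have hz₀' : 0 < ‖z₀‖ := norm_pos_iff.2 hz₀
    obtain ⟨T, hT⟩ : ∃ T : ℝ, T = ‖z₀‖ ^ ρ := ⟨_, rfl⟩
    have hT0 : 0 < T := by rw [hT]; exact Real.rpow_pos_of_pos hz₀' _
    rw [HH, ← hT, mul_comm, ← div_lt_iff₀ hT0] at hcon
    obtain ⟨b, hb1, hb2⟩ := exists_between hcon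
    have hlt : ((b : ℝ) : EReal) < ind ρ f z₀.arg := by rw [hg]; exact_mod_cast hb2
    have hfr := frequently_of_lt_ind hlt
    obtain ⟨η, hη⟩ : ∃ η : ℝ, η = (b - S / T) / 2 := ⟨_, rfl⟩
    have hη0 : 0 < η := by rw [hη]; linarith
    have ev1 := eventually_log_le hρ m A hη0
    have ev2 : ∀ᶠ r : ℝ in atTop, ∑' k, w k * e r k < η * T :=
      hEt.eventually_lt_const (mul_pos hη0 hT0)
    have ev3 : ∀ᶠ s : ℝ in atTop, ∑' k, w k * e (s / ‖z₀‖) k < η * T :=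
      (tendsto_id.atTop_div_const hz₀').eventually ev2
    obtain ⟨s, h1, h2, h3, h4⟩ := (hfr.and_eventually (ev1.and (ev3.and
      (eventually_gt_atTop 0)))).exists
    have hrpos : 0 < s / ‖z₀‖ := div_pos h4 hz₀'
    have hray : ((s / ‖z₀‖ : ℝ) : ℂ) * z₀ = ray s z₀.arg := by
      have h5 : ray ‖z₀‖ z₀.arg = z₀ := Complex.norm_mul_exp_arg_mul_I z₀
      have h6 : ((s / ‖z₀‖ : ℝ) : ℂ) * ray ‖z₀‖ z₀.arg = ray s z₀.arg := by
        rw [ray, ray]
        push_cast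
        have : ((‖z₀‖ : ℝ) : ℂ) ≠ 0 := by exact_mod_cast hz₀'.ne'
        field_simp
      rwa [h5] at h6
    have hf0 : f (ray s z₀.arg) ≠ 0 := by
      intro h0
      rw [h0, norm_zero] at h1
      exact absurd h1 (not_lt.2 (Real.exp_pos _).le)
    have h5 := main (s / ‖z₀‖) hrpos (by rw [hray]; exact hf0)
    rw [hray] at h5
    have h6 : b * s ^ ρ < Real.log ‖f (ray s z₀.arg)‖ :=
      (Real.lt_log_iff_exp_lt (norm_pos_iff.2 hf0)).2 h1
    have h7 : U (ray s z₀.arg) = Real.log ‖f (ray s z₀.arg)‖ - m * Real.log s - A := by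
      rw [hUdef]
      simp only [norm_ray h4.le]
    rw [h7, ← hS, Real.div_rpow h4.le hz₀'.le, ← hT] at h5
    have h8 : s ^ ρ / T * (S + ∑' k, w k * e (s / ‖z₀‖) k) ≤ s ^ ρ / T * (S + η * T) :=
      mul_le_mul_of_nonneg_left (by linarith) (by positivity)
    have h9 : s ^ ρ / T * (S + η * T) = s ^ ρ * (S / T + η) := by field_simp
    have h10 : 0 < s ^ ρ := Real.rpow_pos_of_pos h4 _
    have h11 : b = S / T + 2 * η := by rw [hη]; ring
    rw [h9] at h8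
    rw [h11] at h6
    nlinarith
  simpa only [havg] using hgoal

end HBInd
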