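import Pool.Agent.HBInd.GlueD
import Pool.Agent.HBInd.NecRel

/-!
# Real valued indicators, order less than one
-/

namespace HBInd

open Complex Filter Topology Set Bornology
open scoped Real ComplexConjugate

theorem real_iff_lt_one {ρ : ℝ} (hρ : 0 < ρ) (hρ1 : ρ < 1) (h : ℝ → ℝ) :
    (∃ f : ℂ → ℂ, InClass ρ f ∧ ∀ θ, ind ρ f θ = (h θ : EReal)) ↔
      (∀ θ, h (θ + 2 * π) = h θ) ∧ Continuous h ∧ RelSub 0 ρ h := by
  constructor
  · rintro ⟨f, hf, hfh⟩
    refine ⟨fun θ => ?_, continuous_of_trigConvex hρ (trigConvex_of_ind hf hρ hfh),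
      relSub_zero hf hρ hρ1 hfh⟩
    have h1 := ind_add_two_pi ρ f θ
    rw [hfh, hfh] at h1
    exact_mod_cast h1
  · rintro ⟨hper, hc, hrel⟩
    by_cases hne : ∃ θ, h θ ≠ 0
    · exact exists_of_relSub (p := 0) (by norm_num) (by simpa using hρ)
        (by simpa using hρ1) hper hc hrel hne
    · push Not at hne
      obtain ⟨f, hf, hf0⟩ := exists_minimal hρ hρ1
      exact ⟨f, hf, fun θ => by rw [hf0, hne, EReal.coe_zero]⟩

end HBInd
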