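import Pool.Agent.HBInd.Special

/-!
# A function of minimal type, order between one and two

`f z = ∏_j (1 - z² / 4^j ..)^{m_j}`: `f z = h (z²)`, where `h` is the canonical product of genus zero with
the zeros `4^j` (or `2^j`) of multiplicity `mMin (ρ/2) j`, so `c_i = 1 / 2^j > 0`: `exists_base` in
`Special` with `ρ/2 ∈ (1/2, 1)` and `e = 1` instead of `-1` gives `h` of order `ρ/2` and minimal type
(`|h w| ≤ exp (ε |w|^{ρ/2})` for large `|w|`), with lower bound along the negative axis. See also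
`Pool.Agent.HBInd.MinimalOne` (same construction for `ρ = 1`). Real zeros and real coefficients:
`|f (conj z)| = |f z|`, no zeros off the real axis. The indicator is `≤ 0`, and trigonometrically convex,
so it is `0` (`eq_zero_of_nonpos`; `ind ≠ ⊥`: on the imaginary axis `|f (iy)| ≥ 1`; if `ind ρ f θ = ⊥` for some `θ`,
then by `ind_bot_right` in steps of length `π/2` it is `⊥` everywhere; or use `ind_ne_bot_two` of
`GlueC` by importing it).

In the file: `f z = h (-z²)` with the negative zeros `-2^j` of `h`, so that `lower_neg` applies.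
-/

namespace HBInd

open Complex Filter Topology Set Bornology
open scoped Real ComplexConjugate

namespace MinP

lemma tendsto_sum {ρ : ℝ} (hρ : 0 < ρ) (hρ1 : ρ < 1) :
    Tendsto (fun r : ℝ => ∑' j : ℕ, r ^ (-ρ) *
      ((mMin ρ j : ℝ) * Real.log (1 + ((2 : ℝ) ^ j)⁻¹ * r))) atTop (𝓝 0) := by
  have hlim : Tendsto (fun r : ℝ => ∑' j : ℕ, r ^ (-ρ) *
      ((mMin ρ j : ℝ) * Real.log (1 + ((2 : ℝ) ^ j)⁻¹ * r))) atTop (𝓝 (∑' _ : ℕ, (0 : ℝ))) := by
    have hbs : Summable fun j : ℕ => 1 / ρ * (1 / ((j : ℝ) + 1) ^ 2) := by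
      refine Summable.mul_left _ ?_
      have := (summable_nat_add_iff 1).2 (Real.summable_one_div_nat_pow.2 one_lt_two)
      simpa using this
    refine tendsto_tsum_of_dominated_convergence hbs ?_ ?_
    · intro j
      have h1 : Tendsto (fun r : ℝ => (mMin ρ j : ℝ) * ((((2 : ℝ) ^ j)⁻¹) ^ (ρ / 2) / (ρ / 2)) *
          r ^ (-(ρ / 2))) atTop (𝓝 ((mMin ρ j : ℝ) *
            ((((2 : ℝ) ^ j)⁻¹) ^ (ρ / 2) / (ρ / 2)) * 0)) :=
        (tendsto_rpow_neg_atTop (by linarith)).const_mul _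
      rw [mul_zero] at h1
      refine squeeze_zero' ?_ ?_ h1
      · filter_upwards [eventually_ge_atTop 0] with r hr
        refine mul_nonneg (Real.rpow_nonneg hr _) (mul_nonneg (Nat.cast_nonneg _)
          (Real.log_nonneg ?_))
        have : (0 : ℝ) ≤ ((2 : ℝ) ^ j)⁻¹ * r := by positivity
        linarith
      · filter_upwards [eventually_gt_atTop 0] with r hr
        have h2 := log_one_add_le (s := ρ / 2) (x := ((2 : ℝ) ^ j)⁻¹ * r) (by linarith)
          (by linarith) (by positivity)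
        rw [Real.mul_rpow (by positivity) hr.le] at h2
        have h3 : r ^ (-ρ) * r ^ (ρ / 2) = r ^ (-(ρ / 2)) := by
          rw [← Real.rpow_add hr]; congr 1; ring
        have h4 : 0 ≤ r ^ (-ρ) := Real.rpow_nonneg hr.le _
        calc r ^ (-ρ) * ((mMin ρ j : ℝ) * Real.log (1 + ((2 : ℝ) ^ j)⁻¹ * r))
            ≤ r ^ (-ρ) * ((mMin ρ j : ℝ) *
                ((((2 : ℝ) ^ j)⁻¹) ^ (ρ / 2) * r ^ (ρ / 2) / (ρ / 2))) :=
              mul_le_mul_of_nonneg_left (mul_le_mul_of_nonneg_left h2 (Nat.cast_nonneg _)) h4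
          _ = (mMin ρ j : ℝ) * ((((2 : ℝ) ^ j)⁻¹) ^ (ρ / 2) / (ρ / 2)) *
                (r ^ (-ρ) * r ^ (ρ / 2)) := by ring
          _ = _ := by rw [h3]
    · filter_upwards [eventually_gt_atTop 0] with r hr j
      have h2 := log_one_add_le (s := ρ) (x := ((2 : ℝ) ^ j)⁻¹ * r) hρ
          hρ1.le (by positivity)
      rw [Real.mul_rpow (by positivity) hr.le] at h2
      have h3 : r ^ (-ρ) * r ^ ρ = 1 := by
        rw [← Real.rpow_add hr, neg_add_cancel, Real.rpow_zero]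
      have h4 : 0 ≤ r ^ (-ρ) := Real.rpow_nonneg hr.le _
      have h5 : 0 ≤ Real.log (1 + ((2 : ℝ) ^ j)⁻¹ * r) := by
        refine Real.log_nonneg ?_
        have : (0 : ℝ) ≤ ((2 : ℝ) ^ j)⁻¹ * r := by positivity
        linarith
      rw [Real.norm_of_nonneg (mul_nonneg h4 (mul_nonneg (Nat.cast_nonneg _) h5))]
      have h6 : (mMin ρ j : ℝ) * (((2 : ℝ) ^ j)⁻¹) ^ ρ ≤ 1 / ((j : ℝ) + 1) ^ 2 := by
        have h7 := mMin_le' ρ j
        have h8 : (((2 : ℝ) ^ j)⁻¹) ^ ρ = (((2 : ℝ) ^ j) ^ ρ)⁻¹ := Real.inv_rpow (by positivity) _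
        have h9 : 0 < ((2 : ℝ) ^ j) ^ ρ := Real.rpow_pos_of_pos (by positivity) _
        rw [h8]
        calc (mMin ρ j : ℝ) * (((2 : ℝ) ^ j) ^ ρ)⁻¹
            ≤ ((2 : ℝ) ^ j) ^ ρ / ((j : ℝ) + 1) ^ 2 * (((2 : ℝ) ^ j) ^ ρ)⁻¹ :=
              mul_le_mul_of_nonneg_right h7 (inv_pos.2 h9).le
          _ = 1 / ((j : ℝ) + 1) ^ 2 := by field_simp
      calc r ^ (-ρ) * ((mMin ρ j : ℝ) * Real.log (1 + ((2 : ℝ) ^ j)⁻¹ * r))
          ≤ r ^ (-ρ) * ((mMin ρ j : ℝ) * ((((2 : ℝ) ^ j)⁻¹) ^ ρ * r ^ ρ / ρ)) :=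
            mul_le_mul_of_nonneg_left (mul_le_mul_of_nonneg_left h2 (Nat.cast_nonneg _)) h4
        _ = 1 / ρ * ((mMin ρ j : ℝ) * (((2 : ℝ) ^ j)⁻¹) ^ ρ) * (r ^ (-ρ) * r ^ ρ) := by ring
        _ = 1 / ρ * ((mMin ρ j : ℝ) * (((2 : ℝ) ^ j)⁻¹) ^ ρ) := by rw [h3, mul_one]
        _ ≤ 1 / ρ * (1 / ((j : ℝ) + 1) ^ 2) :=
            mul_le_mul_of_nonneg_left h6 (by positivity)
  rwa [tsum_zero] at hlim

variable {m : ℕ → ℕ}

lemma cf_mul (z : ℂ) (i : Idx m Unit) :
    cf (fun _ => -1) i * -(z ^ 2) = ((1 / 2 ^ i.1 : ℝ) : ℂ) * z ^ 2 := by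
  rw [cf]
  push_cast
  ring

lemma cf_mul_ne {z : ℂ} (hz : z.im ≠ 0) (i : Idx m Unit) :
    cf (fun _ => -1) i * -(z ^ 2) ≠ 1 := by
  intro h
  rw [cf_mul] at h
  have h0 : (0 : ℝ) < 1 / 2 ^ i.1 := by positivity
  have h1 := congrArg Complex.im h
  have h2 := congrArg Complex.re h
  rw [Complex.im_ofReal_mul, Complex.one_im, pow_two, Complex.mul_im] at h1
  rw [Complex.re_ofReal_mul, Complex.one_re, pow_two, Complex.mul_re] at h2
  have h3 : z.re * z.im + z.im * z.re = 0 := (mul_eq_zero.1 h1).resolve_left h0.ne'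
  have h4 : z.re = 0 := by
    have : z.re * z.im = 0 := by linarith
    exact (mul_eq_zero.1 this).resolve_right hz
  rw [h4] at h2
  nlinarith [mul_nonneg h0.le (mul_self_nonneg z.im)]

lemma norm_conj_eq {h : ℂ → ℂ} (hlow : ∀ z : ℂ, (∀ i : Idx m Unit, cf (fun _ => -1) i * z ≠ 1) →
        h z ≠ 0 ∧ HasSum (fun i : Idx m Unit => Real.log ‖1 - cf (fun _ => -1) i * z‖)
          (Real.log ‖h z‖)) {z : ℂ} (hz : z.im ≠ 0) :
    ‖h (-(z ^ 2))‖ = ‖h (-((conj z) ^ 2))‖ := by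
  obtain ⟨h1, h2⟩ := hlow (-(z ^ 2)) (cf_mul_ne hz)
  obtain ⟨h3, h4⟩ := hlow (-((conj z) ^ 2)) (cf_mul_ne (by rw [Complex.conj_im]; exact neg_ne_zero.2 hz))
  have h5 : ∀ i : Idx m Unit, ‖1 - cf (fun _ => -1) i * -((conj z) ^ 2)‖ =
      ‖1 - cf (fun _ => -1) i * -(z ^ 2)‖ := by
    intro i
    have h6 : 1 - cf (fun _ => -1) i * -((conj z) ^ 2) =
        conj (1 - cf (fun _ => -1) i * -(z ^ 2)) := by
      rw [map_sub, map_one, map_mul, map_neg, map_pow, cf, Complex.conj_ofReal]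
    rw [h6, Complex.norm_conj]
  simp only [h5] at h4
  have h7 := h2.unique h4
  rw [← Real.exp_log (norm_pos_iff.2 h1), h7, Real.exp_log (norm_pos_iff.2 h3)]

lemma ray_sq {r : ℝ} : -((ray r (π / 2)) ^ 2) = ray (r ^ 2) 0 := by
  rw [ray_zero, ray]
  push_cast
  rw [Complex.exp_pi_div_two_mul_I, mul_pow, Complex.I_sq]
  ring

end MinP

open MinP in
theorem exists_minimal_gt_one {ρ : ℝ} (hρ1 : 1 < ρ) (hρ2 : ρ < 2) :
    ∃ f : ℂ → ℂ, InClass ρ f ∧ ∀ θ, ind ρ f θ = 0 := by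
  have hρ : 0 < ρ := by linarith
  have hs0 : 0 < ρ / 2 := by linarith
  have hs1 : ρ / 2 < 1 := by linarith
  obtain ⟨h, hpre, hlow, hup⟩ := exists_base (κ := Unit) hs0 hs1 (mMin_le (ρ / 2))
    (e := fun _ => -1) (fun _ => by simp)
  set f : ℂ → ℂ := fun z => h (-(z ^ 2)) with hf
  have hpow : ∀ (σ r : ℝ), 0 ≤ r → (r ^ 2) ^ (σ / 2) = r ^ σ := by
    intro σ r hr
    rw [← Real.rpow_natCast, ← Real.rpow_mul hr]
    congr 1
    push_cast
    ring
  have hpre' : Pre ρ f := by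
    refine ⟨?_, ?_, ?_, ?_⟩
    · exact hpre.entire.comp (by fun_prop)
    · intro σ hσ
      have h1 : Tendsto (fun z : ℂ => -(z ^ 2)) (cobounded ℂ) (cobounded ℂ) := by
        rw [← tendsto_norm_atTop_iff_cobounded]
        refine Tendsto.congr (fun z => ?_) ((tendsto_pow_atTop two_ne_zero).comp
          (tendsto_norm_cobounded_atTop (E := ℂ)))
        rw [norm_neg, norm_pow]
        rfl
      filter_upwards [h1.eventually (hpre.order (σ / 2) (by linarith))] with z hz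
      rw [norm_neg, norm_pow, hpow σ _ (norm_nonneg z)] at hz
      exact hz
    · intro z hz
      exact (hlow _ (cf_mul_ne hz.ne)).1
    · intro z hz
      exact (norm_conj_eq hlow hz.ne').le
  have hin : InClass ρ f := by
    refine hpre'.inClass_of_frequently hρ (θ := π / 2) fun σ hσ0 hσ => ?_
    have h1 : Tendsto (fun j : ℕ => Real.sqrt ((2 : ℝ) ^ j)) atTop atTop :=
      Real.tendsto_sqrt_atTop.comp tendsto_two_pow
    refine h1.frequently (Eventually.frequently ?_)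
    filter_upwards [mMin_large (ρ := ρ / 2) (σ := σ / 2) (by linarith) (by linarith)] with j hj
    have h2 : Real.sqrt ((2 : ℝ) ^ j) ^ 2 = 2 ^ j := Real.sq_sqrt (by positivity)
    have h3 : f (ray (Real.sqrt ((2 : ℝ) ^ j)) (π / 2)) = h (ray ((2 : ℝ) ^ j) 0) := by
      rw [hf]
      simp only
      rw [ray_sq, h2]
    rw [h3, ← hpow σ _ (Real.sqrt_nonneg _), h2]
    exact (Real.exp_lt_exp.2 hj).trans_le (lower_neg hlow j)
  have hle : ∀ θ, ind ρ f θ ≤ 0 := by
    intro θ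
    by_contra hcon
    rw [not_le] at hcon
    obtain ⟨a, ha0, ha⟩ := EReal.exists_between_coe_real hcon
    have ha0' : 0 < a := by exact_mod_cast ha0
    refine absurd (ind_le_of_eventually (a := a) ?_) (not_le.2 ha)
    have h2 : Tendsto (fun r : ℝ => r ^ 2) atTop atTop := tendsto_pow_atTop two_ne_zero
    filter_upwards [h2.eventually ((MinP.tendsto_sum hs0 hs1).eventually_le_const ha0'),
      eventually_gt_atTop 0] with r hr hr0
    refine (hup _).trans (Real.exp_le_exp.2 ?_)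
    rw [norm_neg, norm_pow, norm_ray hr0.le]
    rw [tsum_mul_left] at hr
    simp only [Fintype.card_unit, Nat.cast_one, mul_one]
    rw [Real.rpow_neg (by positivity), inv_mul_le_iff₀ (Real.rpow_pos_of_pos (by positivity) _),
      mul_comm, hpow ρ r hr0.le] at hr
    exact hr
  -- on the imaginary axis all factors are at least one
  have himag : ∀ n : ℤ, 0 ≤ ind ρ f (π / 2 + n * π) := by
    intro n
    refine le_ind_of_frequently (a := 0) (Eventually.frequently ?_)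
    filter_upwards [eventually_gt_atTop 0] with r hr
    rw [zero_mul, Real.exp_zero]
    have hre : (ray r (π / 2 + n * π)).re = 0 := by
      rw [ray_re, Real.cos_add_int_mul_pi, Real.cos_pi_div_two, mul_zero, mul_zero]
    have h1 : ∀ i : Idx (mMin (ρ / 2)) Unit,
        1 ≤ ‖1 - cf (fun _ => -1) i * -((ray r (π / 2 + n * π)) ^ 2)‖ := by
      intro i
      have h2 : 1 ≤ (1 - cf (fun _ => -1) i * -((ray r (π / 2 + n * π)) ^ 2)).re := by
        rw [cf_mul, Complex.sub_re, Complex.one_re, Complex.re_ofReal_mul, pow_two, Complex.mul_re,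
          hre]
        have h0 : (0 : ℝ) < 1 / 2 ^ i.1 := by positivity
        nlinarith [mul_nonneg h0.le (mul_self_nonneg (ray r (π / 2 + n * π)).im)]
      exact h2.trans (Complex.re_le_norm _)
    obtain ⟨h3, h4⟩ := hlow (-((ray r (π / 2 + n * π)) ^ 2)) (by
      intro i hi
      have := h1 i
      rw [hi, sub_self, norm_zero] at this
      linarith)
    have h5 : 0 ≤ Real.log ‖f (ray r (π / 2 + n * π))‖ :=
      h4.nonneg fun i => Real.log_nonneg (h1 i)
    exact (Real.log_nonneg_iff (norm_pos_iff.2 h3)).1 h5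
  have hfin : ∀ θ, ind ρ f θ ≠ ⊤ := fun θ => ne_of_lt ((hle θ).trans_lt (EReal.coe_lt_top 0))
  have hstep : ∀ a t : ℝ, ind ρ f a = ⊥ → a ≤ t → t ≤ a + π / 2 → ind ρ f t = ⊥ := by
    intro a t ha h1 h2
    have hpi := Real.pi_pos
    refine ind_bot_right hin hρ hfin ha h1 ?_
    have : ρ * (t - a) ≤ ρ * (π / 2) := mul_le_mul_of_nonneg_left (by linarith) hρ.le
    nlinarith
  have hbot : ∀ θ, ind ρ f θ ≠ ⊥ := by
    intro θ h
    have hpi := Real.pi_pos
    obtain ⟨n, hn, -⟩ := existsUnique_add_zsmul_mem_Ico hpi (π / 2) θ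
    rw [zsmul_eq_mul] at hn
    have h1 : ind ρ f (π / 2 + n * π) = ⊥ := by
      rcases le_total (π / 2 + n * π) (θ + π / 2) with h3 | h3
      · exact hstep θ _ h hn.1 h3
      · refine hstep (θ + π / 2) _ (hstep θ _ h (by linarith) le_rfl) h3 ?_
        linarith [hn.2]
    have h2 := himag n
    rw [h1] at h2
    exact absurd h2 (not_le.2 (EReal.bot_lt_coe 0))
  have hreal : ∀ θ, ind ρ f θ = ((ind ρ f θ).toReal : ℝ) := fun θ =>
    (EReal.coe_toReal (hfin θ) (hbot θ)).symm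
  have hconv := trigConvex_of_ind hin hρ hreal
  have hz := eq_zero_of_nonpos hρ hconv (fun θ => by
    have := hle θ
    rw [hreal θ] at this
    exact_mod_cast this)
  refine ⟨f, hin, fun θ => ?_⟩
  rw [hreal θ, hz θ]
  rfl

end HBInd
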