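import Pool.Agent.HBInd.Basic

/-!
# The zeros of a function of the class are close to the real axis

Let `|f z| ≤ |f (conj z)|` for `Im z > 0`, `f z ≠ 0` for `Im z < 0`, `f z = z^m f₁ z`, `f₁ 0 ≠ 0`, and for
every finite set `F` of indices `f₁ z = ∏_{i ∈ F} (1 - z / a_i) g_F z`. Then
`∑_{i ∈ F} - Im (1 / a_i) ≤ Im (f₁' 0 / f₁ 0)` for all `F`.

Proof. `Im a_i ≥ 0` (no zeros in the lower half-plane), so `γ_i = - Im (1/a_i) ≥ 0`. For real `a_i`,
`γ_i = 0`: we may assume `Im a_i > 0` for `i ∈ F` (filter `F`). Put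
`ψ z = g_F z ∏_{i ∈ F} (1 - z / conj a_i) / conj (f₁ (conj z))`, analytic in the upper half-plane, and
`|ψ z| = |f₁ z / f₁ (conj z)| B z ≤ B z`, `B z = ∏_{i ∈ F} |1 - z / conj a_i| / |1 - z / a_i|` off the `a_i`.
Let `0 < s < min Im a_i` and `R > max |a_i|`. On the frontier of the region `{s < Im z, |z| < R}`:
`|ψ| ≤ B`, and `B ≤ ∏ (R + |a_i|) / (R - |a_i|)` on `|z| = R`, `B ≤ ∏ (1 + 2 s / (Im a_i - s))` on `Im z = s`
(`|z - conj a| ≤ |z - a| + 2 s` for `Im z = s`, and `|z - a| ≥ Im a - s`). By the maximum principle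
(`Complex.norm_le_of_forall_mem_frontier_norm_le`) and `R → ∞`, `s → 0`: `|ψ| ≤ 1` in the upper half-plane.
At `z = iy`, `y → 0+`:
`0 ≥ (log |ψ (iy)|) / y → - 2 Im (f₁' 0 / f₁ 0) + 2 ∑_{i ∈ F} γ_i` (derivatives at `0` of `log |f₁ (iy)|`,
`log |f₁ (-iy)|`, `log |1 - iy/a|`, which are `- Im (f₁' 0 / f₁ 0)`, `Im (f₁' 0/f₁ 0)`, `Im (1/a)`).
-/

namespace HBInd

open Complex Filter Topology Set Bornology
open scoped Real ComplexConjugate

lemma sim_normSq (t a : ℂ) : ‖t - conj a‖ ^ 2 - ‖t - a‖ ^ 2 = 4 * t.im * a.im := by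
  rw [← Complex.normSq_eq_norm_sq, ← Complex.normSq_eq_norm_sq, Complex.normSq_apply,
    Complex.normSq_apply]
  simp only [Complex.sub_re, Complex.sub_im, Complex.conj_re, Complex.conj_im]
  ring

lemma sim_ne_conj {a : ℂ} (ha : 0 < a.im) : a - conj a ≠ 0 := by
  intro h
  have h1 := congrArg Complex.im h
  simp only [Complex.sub_im, Complex.conj_im, Complex.zero_im] at h1
  linarith

lemma sim_sub_conj {a z : ℂ} (ha : 0 < a.im) (hz : 0 < z.im) : z - conj a ≠ 0 := by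
  intro h
  have h1 := congrArg Complex.im h
  simp only [Complex.sub_im, Complex.conj_im, Complex.zero_im] at h1
  linarith

/-- Schwarz lemma in the upper half-plane. -/
lemma sim_schwarz {φ : ℂ → ℂ} (hφ : DifferentiableOn ℂ φ {z | 0 < z.im}) {a : ℂ} (ha : 0 < a.im)
    (h0 : φ a = 0) (h : ∀ z : ℂ, 0 < z.im → ‖φ z‖ ≤ 1) {z : ℂ} (hz : 0 < z.im) :
    ‖φ z‖ ≤ ‖z - a‖ / ‖z - conj a‖ := by
  have haa := sim_ne_conj ha
  have hw1 : ∀ w : ℂ, w ∈ Metric.ball (0 : ℂ) 1 → 1 - w ≠ 0 := by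
    intro w hw h1
    rw [mem_ball_zero_iff] at hw
    have h2 : w = 1 := (sub_eq_zero.1 h1).symm
    rw [h2, norm_one] at hw
    exact lt_irrefl _ hw
  have hT : ∀ w : ℂ, w ∈ Metric.ball (0 : ℂ) 1 → 0 < ((a - conj a * w) / (1 - w)).im := by
    intro w hw
    have h1 := hw1 w hw
    rw [mem_ball_zero_iff] at hw
    set t := (a - conj a * w) / (1 - w) with ht
    have h2 : t - a = w * ((a - conj a) / (1 - w)) := by
      rw [ht]; field_simp; ring
    have h3 : t - conj a = (a - conj a) / (1 - w) := by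
      rw [ht]; field_simp; ring
    have h4 : 0 < ‖(a - conj a) / (1 - w)‖ := norm_pos_iff.2 (div_ne_zero haa h1)
    have h5 := sim_normSq t a
    rw [h2, h3, norm_mul, mul_pow] at h5
    have h6 : 0 < ‖(a - conj a) / (1 - w)‖ ^ 2 - ‖w‖ ^ 2 * ‖(a - conj a) / (1 - w)‖ ^ 2 := by
      have h7 : ‖w‖ ^ 2 < 1 := by
        have := norm_nonneg w
        nlinarith
      have h8 : 0 < ‖(a - conj a) / (1 - w)‖ ^ 2 := by positivity
      nlinarith
    rw [h5] at h6
    by_contra h9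
    push Not at h9
    nlinarith
  have hz' := sim_sub_conj ha hz
  set w : ℂ := (z - a) / (z - conj a) with hw
  have hwn : ‖w‖ < 1 := by
    rw [hw, norm_div, div_lt_one (norm_pos_iff.2 hz')]
    have h1 := sim_normSq z a
    have h2 : 0 < 4 * z.im * a.im := by positivity
    exact lt_of_pow_lt_pow_left₀ 2 (norm_nonneg _) (by linarith)
  have hTz : (a - conj a * w) / (1 - w) = z := by
    have h1 : 1 - w = (a - conj a) / (z - conj a) := by
      rw [hw]; field_simp; ring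
    have h2 : a - conj a * w = z * ((a - conj a) / (z - conj a)) := by
      rw [hw]; field_simp; ring
    rw [h2, h1]
    exact mul_div_cancel_right₀ _ (div_ne_zero haa hz')
  have hd : DifferentiableOn ℂ (fun w : ℂ => φ ((a - conj a * w) / (1 - w)))
      (Metric.ball (0 : ℂ) 1) := by
    refine hφ.comp (t := {z | 0 < z.im}) ?_ hT
    intro w hw
    exact ((differentiableAt_const _).sub ((differentiableAt_id).const_mul _)).div
      ((differentiableAt_const _).sub differentiableAt_id) (hw1 w hw) |>.differentiableWithinAt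
  have hS := Complex.norm_le_norm_of_mapsTo_ball (R := 1) (z := w) hd
    (fun w hw => by
      rw [mem_closedBall_zero_iff]
      exact h _ (hT w hw)) (by simp [h0]) hwn
  rw [hTz] at hS
  rw [← norm_div]
  exact hS

/-- One Blaschke factor. -/
lemma sim_step {q : ℂ → ℂ} (hq : DifferentiableOn ℂ q {z | 0 < z.im}) {a : ℂ} (ha : 0 < a.im)
    (h : ∀ z : ℂ, 0 < z.im → ‖(1 - z / a) * q z‖ ≤ 1) {z : ℂ} (hz : 0 < z.im) :
    ‖(1 - z / conj a) * q z‖ ≤ 1 := by
  have ha0 : a ≠ 0 := by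
    rintro rfl
    simp at ha
  have hca0 : conj a ≠ 0 := (map_ne_zero _).2 ha0
  have hd : DifferentiableOn ℂ (fun z => (1 - z / a) * q z) {z | 0 < z.im} := by
    refine DifferentiableOn.mul ?_ hq
    fun_prop
  have key : ∀ z : ℂ, 0 < z.im → z ≠ a → ‖(1 - z / conj a) * q z‖ ≤ 1 := by
    intro z hz hza
    have h1 := sim_schwarz hd ha (by simp [ha0]) h hz
    have h2 : ‖1 - z / a‖ = ‖z - a‖ / ‖a‖ := by
      rw [← norm_div, ← norm_neg ((z - a) / a)]
      congr 1
      field_simp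
      ring
    have h3 : ‖1 - z / conj a‖ = ‖z - conj a‖ / ‖a‖ := by
      rw [← Complex.norm_conj a, ← norm_div, ← norm_neg ((z - conj a) / conj a)]
      congr 1
      field_simp
      ring
    have h4 : 0 < ‖z - a‖ := norm_pos_iff.2 (sub_ne_zero.2 hza)
    have h5 : 0 < ‖z - conj a‖ := norm_pos_iff.2 (sim_sub_conj ha hz)
    have h6 : 0 < ‖a‖ := norm_pos_iff.2 ha0
    rw [norm_mul, h2] at h1
    rw [norm_mul, h3]
    have h7 : ‖q z‖ / ‖a‖ ≤ 1 / ‖z - conj a‖ := by
      have h8 : ‖z - a‖ * (‖q z‖ / ‖a‖) ≤ ‖z - a‖ * (1 / ‖z - conj a‖) := by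
        calc ‖z - a‖ * (‖q z‖ / ‖a‖) = ‖z - a‖ / ‖a‖ * ‖q z‖ := by ring
          _ ≤ ‖z - a‖ / ‖z - conj a‖ := h1
          _ = ‖z - a‖ * (1 / ‖z - conj a‖) := by ring
      exact le_of_mul_le_mul_left h8 h4
    calc ‖z - conj a‖ / ‖a‖ * ‖q z‖ = ‖z - conj a‖ * (‖q z‖ / ‖a‖) := by ring
      _ ≤ ‖z - conj a‖ * (1 / ‖z - conj a‖) := mul_le_mul_of_nonneg_left h7 h5.le
      _ = 1 := by field_simp
  rcases eq_or_ne z a with rfl | hza
  · have hopen : IsOpen {z : ℂ | 0 < z.im} := isOpen_lt continuous_const Complex.continuous_im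
    have hqc : ContinuousAt q z := (hq.differentiableAt (hopen.mem_nhds hz)).continuousAt
    have hc : ContinuousAt (fun t : ℂ => ‖(1 - t / conj z) * q t‖) z := by
      refine ContinuousAt.norm (ContinuousAt.mul ?_ hqc)
      fun_prop
    have hlim : Tendsto (fun t : ℂ => ‖(1 - t / conj z) * q t‖) (𝓝[≠] z)
        (𝓝 ‖(1 - z / conj z) * q z‖) := hc.tendsto.mono_left nhdsWithin_le_nhds
    refine le_of_tendsto hlim ?_
    filter_upwards [nhdsWithin_le_nhds (hopen.mem_nhds hz), self_mem_nhdsWithin] with t ht ht'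
    exact key t ht ht'
  · exact key z hz hza

lemma sim_prod {ι : Type} {a : ι → ℂ} (ha : ∀ i, 0 ≤ (a i).im) (F : Finset ι) :
    ∀ q : ℂ → ℂ, DifferentiableOn ℂ q {z | 0 < z.im} →
      (∀ z : ℂ, 0 < z.im → ‖(∏ i ∈ F, (1 - z / a i)) * q z‖ ≤ 1) →
      ∀ z : ℂ, 0 < z.im → ‖(∏ i ∈ F, (1 - z / conj (a i))) * q z‖ ≤ 1 := by
  classical
  induction F using Finset.induction_on with
  | empty => intro q _ h z hz; simpa using h z hz
  | insert i F hi ih =>
    intro q hq h z hz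
    have hdiff : DifferentiableOn ℂ (fun z => (∏ j ∈ F, (1 - z / a j)) * q z)
        {z | 0 < z.im} := by
      refine DifferentiableOn.mul ?_ hq
      exact DifferentiableOn.fun_finsetProd fun j _ => by fun_prop
    have hstep : ∀ z : ℂ, 0 < z.im →
        ‖(1 - z / conj (a i)) * ((∏ j ∈ F, (1 - z / a j)) * q z)‖ ≤ 1 := by
      intro z hz
      have h' : ∀ z : ℂ, 0 < z.im →
          ‖(1 - z / a i) * ((∏ j ∈ F, (1 - z / a j)) * q z)‖ ≤ 1 := by
        intro z hz
        have := h z hz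
        rwa [Finset.prod_insert hi, mul_assoc] at this
      rcases (ha i).eq_or_lt with h0 | h0
      · have h1 : conj (a i) = a i := by
          rw [Complex.conj_eq_iff_im]; exact h0.symm
        rw [h1]; exact h' z hz
      · exact sim_step hdiff h0 h' hz
    have h2 := ih (fun z => (1 - z / conj (a i)) * q z)
      (DifferentiableOn.mul (by fun_prop) hq) (fun z hz => by
        have := hstep z hz
        rwa [mul_left_comm] at this) z hz
    rw [Finset.prod_insert hi, mul_comm (1 - z / conj (a i)), mul_assoc]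
    exact h2

lemma sim_deriv {ι : Type} (b : ι → ℂ) (F : Finset ι) :
    HasDerivAt (fun z : ℂ => ∏ i ∈ F, (1 - z / b i)) (-∑ i ∈ F, 1 / b i) 0 := by
  classical
  induction F using Finset.induction_on with
  | empty => simpa using hasDerivAt_const (0 : ℂ) (1 : ℂ)
  | insert i F hi ih =>
    have h1 : HasDerivAt (fun z : ℂ => 1 - z / b i) (-(1 / b i)) 0 := by
      simpa using ((hasDerivAt_id (0 : ℂ)).div_const (b i)).const_sub 1
    have h2 := h1.mul ih
    have h3 : (fun z : ℂ => ∏ j ∈ insert i F, (1 - z / b j)) =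
        (fun z : ℂ => 1 - z / b i) * fun z : ℂ => ∏ j ∈ F, (1 - z / b j) := by
      funext z
      rw [Pi.mul_apply, Finset.prod_insert hi]
    rw [h3, Finset.sum_insert hi]
    refine h2.congr_deriv ?_
    simp only [zero_div, sub_zero, Finset.prod_const_one]
    ring

/-- If `‖G (iy)‖ ≤ ‖H (-iy)‖` for `y > 0` and `G 0 = H 0`, comparison of the derivatives. -/
lemma sim_compare {G H : ℂ → ℂ} {G' H' : ℂ} (hG : HasDerivAt G G' 0) (hH : HasDerivAt H H' 0)
    (h0 : G 0 = H 0) (hle : ∀ y : ℝ, 0 < y → ‖G (y * I)‖ ≤ ‖H (-(y * I))‖) :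
    (conj (H 0) * (I * G')).re ≤ (conj (H 0) * (-I * H')).re := by
  have hG1 : HasDerivAt (fun y : ℝ => G (y * I)) (I * G') 0 := by
    have h1 : HasDerivAt (fun y : ℝ => (y : ℂ) * I) I 0 := by
      simpa using (Complex.ofRealCLM.hasDerivAt (x := (0 : ℝ))).mul_const I
    have h2 : HasDerivAt G G' ((fun y : ℝ => (y : ℂ) * I) 0) := by simpa using hG
    have h3 := h2.scomp (0 : ℝ) h1
    simpa [Function.comp_def] using h3
  have hH1 : HasDerivAt (fun y : ℝ => H (-(y * I))) (-I * H') 0 := by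
    have h1 : HasDerivAt (fun y : ℝ => -((y : ℂ) * I)) (-I) 0 := by
      simpa using ((Complex.ofRealCLM.hasDerivAt (x := (0 : ℝ))).mul_const I).fun_neg
    have h2 : HasDerivAt H H' ((fun y : ℝ => -((y : ℂ) * I)) 0) := by simpa using hH
    have h3 := h2.scomp (0 : ℝ) h1
    simpa [Function.comp_def] using h3
  have hG2 := hG1.norm_sq
  have hH2 := hH1.norm_sq
  have h4 := hH2.sub hG2
  rw [hasDerivAt_iff_tendsto_slope] at h4
  have h5 : Tendsto (slope ((fun y : ℝ => ‖H (-(y * I))‖ ^ 2) - fun y : ℝ => ‖G (y * I)‖ ^ 2) 0)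
      (𝓝[>] 0) (𝓝 (2 * inner ℝ (H (-(((0 : ℝ) : ℂ) * I))) (-I * H') -
        2 * inner ℝ (G (((0 : ℝ) : ℂ) * I)) (I * G'))) :=
    h4.mono_left (nhdsWithin_mono _ fun x hx => ne_of_gt hx)
  have h6 := ge_of_tendsto h5 (b := 0) (by
    filter_upwards [self_mem_nhdsWithin] with y hy
    rw [slope_def_field]
    have hy : (0 : ℝ) < y := hy
    refine div_nonneg ?_ (by simpa using hy.le)
    have h7 := hle y hy
    have h8 : ‖G (y * I)‖ ^ 2 ≤ ‖H (-(y * I))‖ ^ 2 :=
      pow_le_pow_left₀ (norm_nonneg _) h7 2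
    simp only [Pi.sub_apply, Complex.ofReal_zero, zero_mul, neg_zero, h0, sub_self, sub_zero]
    linarith)
  simp only [Complex.ofReal_zero, zero_mul, neg_zero, h0, Complex.inner] at h6
  rw [mul_comm (conj (H 0)), mul_comm (conj (H 0))]
  linarith

theorem summable_im {f : ℂ → ℂ} (hz : ∀ z : ℂ, z.im < 0 → f z ≠ 0)
    (hle : ∀ z : ℂ, 0 < z.im → ‖f z‖ ≤ ‖f (conj z)‖) {ι : Type} {a : ι → ℂ} {m : ℕ}
    (ha : ∀ i, a i ≠ 0 ∧ f (a i) = 0)
    (hF : ∀ F : Finset ι, ∃ g : ℂ → ℂ, Differentiable ℂ g ∧ g 0 ≠ 0 ∧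
        ∀ z, f z = z ^ m * ((∏ i ∈ F, (1 - z / a i)) * g z)) :
    (∀ i, 0 ≤ -(1 / a i).im) ∧ Summable fun i => -(1 / a i).im := by
  have him : ∀ i, 0 ≤ (a i).im := by
    intro i
    by_contra h
    push Not at h
    exact hz _ h (ha i).2
  have hinv : ∀ i, -(1 / a i).im = (a i).im / Complex.normSq (a i) := by
    intro i
    rw [one_div, Complex.inv_im]
    ring
  have hnn : ∀ i, 0 ≤ -(1 / a i).im := by
    intro i
    rw [hinv]
    exact div_nonneg (him i) (Complex.normSq_nonneg _)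
  refine ⟨hnn, ?_⟩
  obtain ⟨f₁, hf₁, hf₁0, hff₁⟩ := hF ∅
  simp only [Finset.prod_empty, one_mul] at hff₁
  refine summable_of_sum_le (c := (conj (f₁ 0) * deriv f₁ 0).im / ‖f₁ 0‖ ^ 2) hnn ?_
  intro F
  obtain ⟨g, hg, hg0, hfg⟩ := hF F
  -- the factorisation of `f₁`
  have hfac : ∀ z, f₁ z = (∏ i ∈ F, (1 - z / a i)) * g z := by
    have h1 : ∀ z : ℂ, z ≠ 0 → f₁ z = (∏ i ∈ F, (1 - z / a i)) * g z := by
      intro z hz0
      have h2 := hff₁ z
      rw [hfg z] at h2
      exact (mul_left_cancel₀ (pow_ne_zero m hz0) h2).symm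
    have h3 : Differentiable ℂ (fun z : ℂ => (∏ i ∈ F, (1 - z / a i)) * g z) := by
      refine Differentiable.mul ?_ hg
      exact Differentiable.fun_finsetProd fun j _ => by fun_prop
    have h4 : f₁ = fun z : ℂ => (∏ i ∈ F, (1 - z / a i)) * g z := by
      refine Continuous.ext_on (s := {z : ℂ | z ≠ 0}) ?_ hf₁.continuous h3.continuous
        (fun z hz => h1 z hz)
      exact dense_compl_singleton (0 : ℂ)
    intro z
    exact congrFun h4 z
  have hf₁ne : ∀ z : ℂ, z.im < 0 → f₁ z ≠ 0 := by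
    intro z hz' h0
    exact hz z hz' (by rw [hff₁, h0, mul_zero])
  have hf₁le : ∀ z : ℂ, 0 < z.im → ‖f₁ z‖ ≤ ‖f₁ (conj z)‖ := by
    intro z hz'
    have h1 := hle z hz'
    rw [hff₁, hff₁ (conj z), norm_mul, norm_mul, norm_pow, norm_pow, Complex.norm_conj] at h1
    have h2 : 0 < ‖z‖ ^ m := by
      apply pow_pos
      rw [norm_pos_iff]
      rintro rfl
      simp at hz'
    exact le_of_mul_le_mul_left h1 h2
  -- the quotient
  have hqd : DifferentiableOn ℂ (fun z => g z / conj (f₁ (conj z))) {z | 0 < z.im} := by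
    intro z hz'
    refine DifferentiableAt.differentiableWithinAt ?_
    refine (hg z).fun_div ?_ ?_
    · have h1 : DifferentiableAt ℂ f₁ (conj z) := hf₁ _
      have h2 := differentiableAt_conj_conj_iff.2 h1
      exact h2
    · refine (map_ne_zero _).2 (hf₁ne _ ?_)
      rw [Complex.conj_im]
      exact neg_neg_of_pos hz'
  have hb := sim_prod him F _ hqd (fun z hz' => by
    rw [← mul_div_assoc, ← hfac z, norm_div, Complex.norm_conj]
    exact div_le_one_of_le₀ (hf₁le z hz') (norm_nonneg _))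
  have hcmp := sim_compare (G := fun z => (∏ i ∈ F, (1 - z / conj (a i))) * g z) (H := f₁)
    ((sim_deriv (fun i => conj (a i)) F).mul (hg 0).hasDerivAt) (hf₁ 0).hasDerivAt
    (by simp [hfac 0]) (fun y hy => by
      have h1 := hb (y * I) (by simpa using hy)
      have h2 : conj ((y : ℂ) * I) = -(y * I) := by simp
      rw [h2, ← mul_div_assoc, norm_div, Complex.norm_conj] at h1
      have h3 : 0 < ‖f₁ (-(y * I))‖ := norm_pos_iff.2 (hf₁ne _ (by simpa using hy))
      rwa [div_le_one h3] at h1)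
  have hd1 : deriv f₁ 0 = -(∑ i ∈ F, 1 / a i) * g 0 + deriv g 0 := by
    have h1 := ((sim_deriv a F).mul (hg 0).hasDerivAt).deriv
    have h2 : f₁ = (fun z : ℂ => ∏ i ∈ F, (1 - z / a i)) * g := funext hfac
    rw [h2, h1]
    simp
  have hg01 : g 0 = f₁ 0 := by simp [hfac 0]
  have hpos : 0 < ‖f₁ 0‖ ^ 2 := by
    have := norm_pos_iff.2 hf₁0
    positivity
  rw [le_div_iff₀ hpos]
  have hconj : ∑ i ∈ F, 1 / conj (a i) = conj (∑ i ∈ F, 1 / a i) := by
    rw [map_sum]
    exact Finset.sum_congr rfl fun i _ => by simp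
  have hsum : (∑ i ∈ F, -(1 / a i).im) = -(∑ i ∈ F, 1 / a i).im := by
    rw [Complex.im_sum, Finset.sum_neg_distrib]
  rw [hsum]
  simp only [zero_div, sub_zero, Finset.prod_const_one, one_mul] at hcmp
  rw [hconj] at hcmp
  have hdg : deriv g 0 = deriv f₁ 0 + (∑ i ∈ F, 1 / a i) * f₁ 0 := by
    rw [hd1, hg01]; ring
  rw [hdg, hg01] at hcmp
  have hn : ‖f₁ 0‖ ^ 2 = (f₁ 0).re * (f₁ 0).re + (f₁ 0).im * (f₁ 0).im := by
    rw [← Complex.normSq_eq_norm_sq, Complex.normSq_apply]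
  rw [hn]
  generalize (∑ i ∈ F, 1 / a i) = s at *
  generalize deriv f₁ 0 = d at *
  generalize f₁ 0 = c at *
  simp only [Complex.mul_re, Complex.mul_im, Complex.add_re, Complex.add_im, Complex.conj_re,
    Complex.conj_im, Complex.I_re, Complex.I_im, Complex.neg_re, Complex.neg_im] at hcmp ⊢
  nlinarith

end HBInd
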