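import Pool.Agent.HBInd.ZerosA

/-!
# Counting the zeros, and the product formula for functions of order less than one
-/

namespace HBInd

open Complex Filter Topology Set Bornology
open scoped Real ComplexConjugate

lemma za_ne_zero {f : ℂ → ℂ} (h0 : f 0 = 1) (i : ZI f) : za f i ≠ 0 := by
  intro h
  have := f_za f i
  rw [h, h0] at this
  exact one_ne_zero this

/-- the factor without the zeros of modulus `< R` -/
theorem phi_bound {f : ℂ → ℂ} (h0 : f 0 = 1) {R : ℝ} (hR : 0 < R) {I : Finset (ZI f)}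
    (hI : ∀ i, i ∈ I ↔ ‖za f i‖ < R) {φ : ℂ → ℂ} (hφ : Differentiable ℂ φ)
    (hp : ∀ z, f z = (∏ i ∈ I, (1 - z / za f i)) * φ z) {M : ℝ}
    (hM : ∀ z : ℂ, ‖z‖ ≤ 3 * R → ‖f z‖ ≤ M) {z : ℂ} (hz : ‖z‖ ≤ 3 * R) :
    ‖φ z‖ ≤ M / 2 ^ I.card := by
  apply norm_le_of_circle hφ _ hz
  intro w hw
  rw [le_div_iff₀ (by positivity)]
  have h1 : (2 : ℝ) ^ I.card ≤ ∏ i ∈ I, ‖1 - w / za f i‖ := by
    rw [← Finset.prod_const]
    apply Finset.prod_le_prod
    · intro i _; norm_num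
    · intro i hi
      have hi' := (hI i).1 hi
      have ha : 0 < ‖za f i‖ := norm_pos_iff.2 (za_ne_zero h0 i)
      have h2 : 3 ≤ ‖w / za f i‖ := by
        rw [norm_div, hw, le_div_iff₀ ha]
        nlinarith
      have h3 : ‖w / za f i‖ - ‖(1 : ℂ)‖ ≤ ‖1 - w / za f i‖ := by
        rw [norm_sub_rev]
        exact norm_sub_norm_le _ _
      rw [norm_one] at h3
      linarith
  have h4 := hM w hw.le
  rw [hp w, norm_mul, norm_prod] at h4
  calc ‖φ w‖ * 2 ^ I.card = 2 ^ I.card * ‖φ w‖ := mul_comm _ _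
    _ ≤ (∏ i ∈ I, ‖1 - w / za f i‖) * ‖φ w‖ := by gcongr
    _ ≤ M := h4

/-- the number of zeros in a disc -/
theorem count_zeros {f : ℂ → ℂ} (hf : Differentiable ℂ f) (h0 : f 0 = 1) {ρ K : ℝ}
    (hρ : 0 < ρ) (hK : 0 < K)
    (hb : ∀ᶠ r : ℝ in atTop, ∀ z : ℂ, ‖z‖ ≤ r → ‖f z‖ ≤ Real.exp (K * r ^ ρ)) :
    ∃ C : ℝ, 0 < C ∧ ∀ R : ℝ, 0 < R → ∀ J : Finset (ZI f), (∀ i ∈ J, ‖za f i‖ < R) →
      (J.card : ℝ) ≤ C * R ^ ρ := by
  classical
  obtain ⟨R₀, hR₀⟩ := eventually_atTop.1 hb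
  set R₁ := max R₀ 1 with hR₁
  have hR₁1 : 1 ≤ R₁ := le_max_right _ _
  obtain ⟨I₁, hI₁, -⟩ := exists_finset hf h0 R₁
  obtain ⟨ε, hε, hε0⟩ : ∃ ε : ℝ, 0 < ε ∧ ∀ i, ε ≤ ‖za f i‖ := by
    have h1 : ∀ᶠ z in 𝓝 (0 : ℂ), f z ≠ 0 := by
      apply (hf 0).continuousAt.eventually_ne
      rw [h0]; exact one_ne_zero
    obtain ⟨ε, hε, h2⟩ := Metric.eventually_nhds_iff.1 h1
    refine ⟨ε, hε, fun i => ?_⟩
    by_contra hc
    rw [not_le] at hc
    exact h2 (by rwa [dist_zero_right]) (f_za f i)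
  have hlog : 0 < Real.log 2 := Real.log_pos (by norm_num)
  refine ⟨K * 3 ^ ρ / Real.log 2 + I₁.card / ε ^ ρ, by positivity, ?_⟩
  intro R hR J hJ
  rcases le_or_gt R₁ R with hcase | hcase
  · obtain ⟨I, hI, φ, hφ, hφ0, -, hp⟩ := exists_finset hf h0 R
    have h1 := phi_bound h0 hR hI hφ hp (M := Real.exp (K * (3 * R) ^ ρ))
      (hR₀ (3 * R) (by linarith [le_max_left R₀ 1])) (z := 0) (by rw [norm_zero]; positivity)
    rw [hφ0, norm_one, le_div_iff₀ (by positivity), one_mul] at h1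
    have h2 : (I.card : ℝ) * Real.log 2 ≤ K * (3 * R) ^ ρ := by
      rw [← Real.log_pow, Real.log_le_iff_le_exp (by positivity)]
      exact h1
    have h3 : (J.card : ℝ) ≤ I.card := by
      exact_mod_cast Finset.card_le_card (fun i hi => (hI i).2 (hJ i hi))
    have h4 : (I.card : ℝ) ≤ K * 3 ^ ρ / Real.log 2 * R ^ ρ := by
      rw [Real.mul_rpow (by norm_num) hR.le] at h2
      rw [div_mul_eq_mul_div, le_div_iff₀ hlog]
      linarith
    have h5 : 0 ≤ (I₁.card : ℝ) / ε ^ ρ * R ^ ρ := by positivity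
    calc (J.card : ℝ) ≤ I.card := h3
      _ ≤ K * 3 ^ ρ / Real.log 2 * R ^ ρ := h4
      _ ≤ K * 3 ^ ρ / Real.log 2 * R ^ ρ + (I₁.card : ℝ) / ε ^ ρ * R ^ ρ := by linarith
      _ = _ := by ring
  · rcases J.eq_empty_or_nonempty with rfl | ⟨i, hi⟩
    · rw [Finset.card_empty, Nat.cast_zero]; positivity
    · have h1 : ε ≤ R := (hε0 i).trans (hJ i hi).le
      have h2 : (J.card : ℝ) ≤ I₁.card := by
        exact_mod_cast Finset.card_le_card (fun i hi => (hI₁ i).2 ((hJ i hi).trans hcase))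
      have h3 : (I₁.card : ℝ) ≤ (I₁.card : ℝ) / ε ^ ρ * R ^ ρ := by
        rw [div_mul_eq_mul_div, le_div_iff₀ (by positivity)]
        gcongr
      have h5 : 0 ≤ K * 3 ^ ρ / Real.log 2 * R ^ ρ := by positivity
      calc (J.card : ℝ) ≤ I₁.card := h2
        _ ≤ (I₁.card : ℝ) / ε ^ ρ * R ^ ρ := h3
        _ ≤ K * 3 ^ ρ / Real.log 2 * R ^ ρ + (I₁.card : ℝ) / ε ^ ρ * R ^ ρ := by linarith
        _ = _ := by ring

/-- the dyadic series -/
theorem summable_dyadic {ρ : ℝ} (hρ : 0 < ρ) (hρ1 : ρ < 1) :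
    Summable fun k : ℤ => ((2 : ℝ) ^ (k + 1)) ^ ρ * Real.log (1 + ((2 : ℝ) ^ k)⁻¹) := by
  have h2ρ : (0 : ℝ) < 2 ^ ρ := by positivity
  apply Summable.of_nat_of_neg
  · -- `k = n`
    have hr : (2 : ℝ) ^ (ρ - 1) < 1 := Real.rpow_lt_one_of_one_lt_of_neg (by norm_num) (by linarith)
    have hs : Summable fun n : ℕ => (2 : ℝ) ^ ρ * ((2 : ℝ) ^ (ρ - 1)) ^ n :=
      (summable_geometric_of_lt_one (by positivity) hr).mul_left _
    apply Summable.of_nonneg_of_le _ _ hs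
    · intro n
      apply mul_nonneg (by positivity)
      apply Real.log_nonneg
      have : (0 : ℝ) < ((2 : ℝ) ^ (n : ℤ))⁻¹ := by positivity
      linarith
    · intro n
      have h1 : Real.log (1 + ((2 : ℝ) ^ (n : ℤ))⁻¹) ≤ ((2 : ℝ) ^ (n : ℤ))⁻¹ := by
        have := Real.log_le_sub_one_of_pos (x := 1 + ((2 : ℝ) ^ (n : ℤ))⁻¹) (by positivity)
        linarith
      have h2 : ((2 : ℝ) ^ ((n : ℤ) + 1)) ^ ρ = 2 ^ ρ * ((2 : ℝ) ^ ρ) ^ n := by
        rw [zpow_add₀ (by norm_num), zpow_one, zpow_natCast, Real.mul_rpow (by positivity) (by norm_num),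
          ← Real.rpow_natCast, ← Real.rpow_mul (by norm_num), mul_comm (n : ℝ) ρ,
          Real.rpow_mul (by norm_num), Real.rpow_natCast]
        ring
      calc ((2 : ℝ) ^ ((n : ℤ) + 1)) ^ ρ * Real.log (1 + ((2 : ℝ) ^ (n : ℤ))⁻¹)
          ≤ ((2 : ℝ) ^ ((n : ℤ) + 1)) ^ ρ * ((2 : ℝ) ^ (n : ℤ))⁻¹ := by gcongr
        _ = (2 : ℝ) ^ ρ * ((2 : ℝ) ^ (ρ - 1)) ^ n := by
            rw [h2, zpow_natCast, Real.rpow_sub (by norm_num), Real.rpow_one, div_pow]
            field_simp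
  · have hr : ((2 : ℝ) ^ ρ)⁻¹ < 1 := by
      apply inv_lt_one_of_one_lt₀
      exact Real.one_lt_rpow (by norm_num) hρ
    have hs1 : Summable fun n : ℕ => ((n : ℝ) ^ 1 * (((2 : ℝ) ^ ρ)⁻¹) ^ n) := by
      apply summable_pow_mul_geometric_of_norm_lt_one
      rw [Real.norm_of_nonneg (by positivity)]
      exact hr
    have hs2 : Summable fun n : ℕ => (((2 : ℝ) ^ ρ)⁻¹) ^ n :=
      summable_geometric_of_lt_one (by positivity) hr
    have hs : Summable fun n : ℕ => (2 : ℝ) ^ ρ * ((n : ℝ) ^ 1 * (((2 : ℝ) ^ ρ)⁻¹) ^ n +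
        (((2 : ℝ) ^ ρ)⁻¹) ^ n) := (hs1.add hs2).mul_left _
    apply Summable.of_nonneg_of_le _ _ hs
    · intro n
      apply mul_nonneg (by positivity)
      apply Real.log_nonneg
      have : (0 : ℝ) < ((2 : ℝ) ^ (-(n : ℤ)))⁻¹ := by positivity
      linarith
    · intro n
      have h1 : Real.log (1 + ((2 : ℝ) ^ (-(n : ℤ)))⁻¹) ≤ n + 1 := by
        rw [zpow_neg, inv_inv, zpow_natCast]
        have h3 : (1 : ℝ) + 2 ^ n ≤ 2 ^ (n + 1) := by
          have : (1 : ℝ) ≤ 2 ^ n := one_le_pow₀ (by norm_num)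
          rw [pow_succ]; linarith
        calc Real.log (1 + 2 ^ n) ≤ Real.log (2 ^ (n + 1)) :=
              Real.log_le_log (by positivity) h3
          _ = (n + 1) * Real.log 2 := by rw [Real.log_pow]; push_cast; ring
          _ ≤ (n + 1) * 1 := by
              have := Real.log_two_lt_d9
              gcongr
              linarith
          _ = n + 1 := by ring
      have h2 : ((2 : ℝ) ^ (-(n : ℤ) + 1)) ^ ρ = 2 ^ ρ * (((2 : ℝ) ^ ρ)⁻¹) ^ n := by
        rw [zpow_add₀ (by norm_num), zpow_one, zpow_neg, zpow_natCast,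
          Real.mul_rpow (by positivity) (by norm_num), Real.inv_rpow (by positivity),
          ← Real.rpow_natCast, ← Real.rpow_mul (by norm_num), mul_comm (n : ℝ) ρ,
          Real.rpow_mul (by norm_num), Real.rpow_natCast, inv_pow]
        ring
      calc ((2 : ℝ) ^ (-(n : ℤ) + 1)) ^ ρ * Real.log (1 + ((2 : ℝ) ^ (-(n : ℤ)))⁻¹)
          ≤ ((2 : ℝ) ^ (-(n : ℤ) + 1)) ^ ρ * (n + 1) := by gcongr
        _ = (2 : ℝ) ^ ρ * ((n : ℝ) ^ 1 * (((2 : ℝ) ^ ρ)⁻¹) ^ n + (((2 : ℝ) ^ ρ)⁻¹) ^ n) := by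
            rw [h2]; ring

/-- the logarithmic sums -/
theorem log_sums {ι : Type} {a : ι → ℂ} (ha : ∀ i, a i ≠ 0) {ρ C : ℝ} (hρ : 0 < ρ) (hρ1 : ρ < 1)
    (hC : 0 < C)
    (hcount : ∀ R : ℝ, 0 < R → ∀ J : Finset ι, (∀ i ∈ J, ‖a i‖ < R) → (J.card : ℝ) ≤ C * R ^ ρ) :
    ∃ K' : ℝ, 0 < K' ∧ ∀ x : ℝ, 0 < x → (Summable fun i => Real.log (1 + x / ‖a i‖)) ∧
        ∑' i, Real.log (1 + x / ‖a i‖) ≤ K' * x ^ ρ := by
  classical
  set b : ℤ → ℝ := fun k => ((2 : ℝ) ^ (k + 1)) ^ ρ * Real.log (1 + ((2 : ℝ) ^ k)⁻¹) with hbdef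
  have hb : Summable b := summable_dyadic hρ hρ1
  have hw0 : ∀ k : ℤ, 0 < Real.log (1 + ((2 : ℝ) ^ k)⁻¹) := by
    intro k
    apply Real.log_pos
    have : (0 : ℝ) < ((2 : ℝ) ^ k)⁻¹ := by positivity
    linarith
  have hb0 : ∀ k, 0 < b k := fun k => mul_pos (by positivity) (hw0 k)
  have hbt : 0 ≤ ∑' k, b k := tsum_nonneg (fun k => (hb0 k).le)
  refine ⟨C * ∑' k, b k + 1, by positivity, ?_⟩
  intro x hx
  have ha' : ∀ i, 0 < ‖a i‖ := fun i => norm_pos_iff.2 (ha i)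
  have hexp : ∀ i, ∃ k : ℤ, (2 : ℝ) ^ k ≤ ‖a i‖ / x ∧ ‖a i‖ / x < (2 : ℝ) ^ (k + 1) := by
    intro i
    obtain ⟨k, hk⟩ := exists_mem_Ico_zpow (x := ‖a i‖ / x) (y := (2 : ℝ)) (div_pos (ha' i) hx)
      (by norm_num)
    exact ⟨k, hk.1, hk.2⟩
  choose κ hκ1 hκ2 using hexp
  have hnn : ∀ i, 0 ≤ Real.log (1 + x / ‖a i‖) := by
    intro i
    apply Real.log_nonneg
    have : 0 < x / ‖a i‖ := div_pos hx (ha' i)
    linarith
  have hterm : ∀ i, Real.log (1 + x / ‖a i‖) ≤ Real.log (1 + ((2 : ℝ) ^ κ i)⁻¹) := by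
    intro i
    have h1 : x / ‖a i‖ ≤ ((2 : ℝ) ^ κ i)⁻¹ := by
      rw [← inv_div]
      exact inv_anti₀ (by positivity) (hκ1 i)
    apply Real.log_le_log
    · have : 0 < x / ‖a i‖ := div_pos hx (ha' i)
      linarith
    · linarith
  have hfin : ∀ J : Finset ι, ∑ i ∈ J, Real.log (1 + x / ‖a i‖) ≤ C * (∑' k, b k) * x ^ ρ := by
    intro J
    calc ∑ i ∈ J, Real.log (1 + x / ‖a i‖) ≤ ∑ i ∈ J, Real.log (1 + ((2 : ℝ) ^ κ i)⁻¹) :=
          Finset.sum_le_sum (fun i _ => hterm i)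
      _ = ∑ k ∈ J.image κ, (J.filter (fun i => κ i = k)).card • Real.log (1 + ((2 : ℝ) ^ k)⁻¹) :=
          Finset.sum_comp (fun k : ℤ => Real.log (1 + ((2 : ℝ) ^ k)⁻¹)) κ
      _ ≤ ∑ k ∈ J.image κ, (C * x ^ ρ) * b k := by
          apply Finset.sum_le_sum
          intro k _
          have h1 : (((J.filter (fun i => κ i = k)).card : ℕ) : ℝ) ≤
              C * ((2 : ℝ) ^ (k + 1) * x) ^ ρ := by
            apply hcount _ (by positivity)
            intro i hi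
            rw [Finset.mem_filter] at hi
            have := hκ2 i
            rw [hi.2, div_lt_iff₀ hx] at this
            exact this
          rw [nsmul_eq_mul]
          calc (((J.filter (fun i => κ i = k)).card : ℕ) : ℝ) * Real.log (1 + ((2 : ℝ) ^ k)⁻¹)
              ≤ (C * ((2 : ℝ) ^ (k + 1) * x) ^ ρ) * Real.log (1 + ((2 : ℝ) ^ k)⁻¹) := by
                gcongr
                exact (hw0 k).le
            _ = (C * x ^ ρ) * b k := by
                rw [Real.mul_rpow (by positivity) hx.le, hbdef]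
                ring
      _ = (C * x ^ ρ) * ∑ k ∈ J.image κ, b k := by rw [Finset.mul_sum]
      _ ≤ (C * x ^ ρ) * ∑' k, b k := by
          gcongr
          exact hb.sum_le_tsum _ (fun k _ => (hb0 k).le)
      _ = C * (∑' k, b k) * x ^ ρ := by ring
  have hsum : Summable fun i => Real.log (1 + x / ‖a i‖) :=
    summable_of_sum_le hnn hfin
  refine ⟨hsum, ?_⟩
  have h1 : ∑' i, Real.log (1 + x / ‖a i‖) ≤ C * (∑' k, b k) * x ^ ρ :=
    hsum.tsum_le_of_sum_le hfin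
  have h2 : 0 < x ^ ρ := by positivity
  calc _ ≤ C * (∑' k, b k) * x ^ ρ := h1
    _ ≤ (C * ∑' k, b k + 1) * x ^ ρ := by nlinarith

/-- comparison of the terms -/
lemma abs_log_le {w : ℂ} (hw : ‖w‖ ≤ 1 / 2) : |Real.log ‖1 - w‖| ≤ 3 * Real.log (1 + ‖w‖) := by
  set t := ‖w‖ with ht
  have ht0 : 0 ≤ t := norm_nonneg w
  have h1 : ‖1 - w‖ ≤ 1 + t := by
    have := norm_sub_le (1 : ℂ) w
    rwa [norm_one] at this
  have h2 : 1 - t ≤ ‖1 - w‖ := by
    have := norm_sub_norm_le (1 : ℂ) w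
    rwa [norm_one] at this
  have h3 : 0 < 1 - t := by linarith
  have hlt : 0 ≤ Real.log (1 + t) := Real.log_nonneg (by linarith)
  -- `log (1 + t) ≥ (2/3) t`
  have h4 : 2 / 3 * t ≤ Real.log (1 + t) := by
    have h5 := Real.one_sub_inv_le_log_of_pos (x := 1 + t) (by linarith)
    have h6 : 2 / 3 * t ≤ 1 - (1 + t)⁻¹ := by
      rw [← sub_nonneg]
      have : 1 - (1 + t)⁻¹ - 2 / 3 * t = t * (1 - 2 * t) / (3 * (1 + t)) := by
        field_simp
        ring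
      rw [this]
      apply div_nonneg (mul_nonneg ht0 (by linarith)) (by linarith)
    linarith
  have h7 : -(2 * t) ≤ Real.log (1 - t) := by
    have h5 := Real.one_sub_inv_le_log_of_pos (x := 1 - t) h3
    have h6 : -(2 * t) ≤ 1 - (1 - t)⁻¹ := by
      rw [← sub_nonneg]
      have : 1 - (1 - t)⁻¹ - -(2 * t) = t * (1 - 2 * t) / (1 - t) := by
        field_simp
        ring
      rw [this]
      exact div_nonneg (mul_nonneg ht0 (by linarith)) h3.le
    linarith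
  rw [abs_le]
  constructor
  · have h8 : Real.log (1 - t) ≤ Real.log ‖1 - w‖ := Real.log_le_log h3 h2
    linarith
  · have h8 : Real.log ‖1 - w‖ ≤ Real.log (1 + t) := Real.log_le_log (by linarith) h1
    linarith

/-- the product formula for `f 0 = 1` -/
theorem hasSum_log {f : ℂ → ℂ} (hf : Differentiable ℂ f) (h0 : f 0 = 1) {ρ K : ℝ}
    (hρ : 0 < ρ) (hρ1 : ρ < 1) (hK : 0 < K)
    (hb : ∀ᶠ r : ℝ in atTop, ∀ z : ℂ, ‖z‖ ≤ r → ‖f z‖ ≤ Real.exp (K * r ^ ρ))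
    (hs : ∀ x : ℝ, 0 < x → Summable fun i : ZI f => Real.log (1 + x / ‖za f i‖))
    {z : ℂ} (hz0 : z ≠ 0) (hz : ∀ i, z ≠ za f i) :
    HasSum (fun i => Real.log ‖1 - z / za f i‖) (Real.log ‖f z‖) := by
  classical
  have hzn : 0 < ‖z‖ := norm_pos_iff.2 hz0
  -- summability
  have hsum : Summable fun i => Real.log ‖1 - z / za f i‖ := by
    apply Summable.of_norm_bounded_eventually ((hs ‖z‖ hzn).mul_left 3)
    obtain ⟨I, hI, -⟩ := exists_finset hf h0 (2 * ‖z‖)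
    have : {i | ¬ ‖Real.log ‖1 - z / za f i‖‖ ≤ 3 * Real.log (1 + ‖z‖ / ‖za f i‖)} ⊆ ↑I := by
      intro i hi
      rw [Finset.mem_coe, hI]
      by_contra hc
      rw [not_lt] at hc
      apply hi
      have ha : 0 < ‖za f i‖ := norm_pos_iff.2 (za_ne_zero h0 i)
      rw [← norm_div, Real.norm_eq_abs]
      apply abs_log_le
      rw [norm_div, div_le_iff₀ ha]
      linarith
    exact (I.finite_toSet.subset this)
  -- the exhaustion
  have hex : ∀ n : ℕ, ∃ I : Finset (ZI f), (∀ i, i ∈ I ↔ ‖za f i‖ < n) ∧ ∃ φ : ℂ → ℂ,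
      Differentiable ℂ φ ∧ φ 0 = 1 ∧ (∀ z, ‖z‖ < n → φ z ≠ 0) ∧
      ∀ z, f z = (∏ i ∈ I, (1 - z / za f i)) * φ z := fun n => exists_finset hf h0 n
  choose I hI φ hφ hφ0 hφne hp using hex
  have hIt : Tendsto I atTop atTop := by
    apply tendsto_atTop_finset_of_monotone
    · intro m n hmn i hi
      rw [hI] at hi ⊢
      exact lt_of_lt_of_le hi (by exact_mod_cast hmn)
    · intro i
      obtain ⟨n, hn⟩ := exists_nat_gt ‖za f i‖
      exact ⟨n, (hI n i).2 hn⟩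
  have hlim1 : Tendsto (fun n => ∑ i ∈ I n, Real.log ‖1 - z / za f i‖) atTop
      (𝓝 (∑' i, Real.log ‖1 - z / za f i‖)) := hsum.hasSum.comp hIt
  have hne1 : ∀ i, (1 - z / za f i) ≠ 0 := by
    intro i
    rw [sub_ne_zero]
    intro e
    apply hz i
    rw [eq_comm, div_eq_one_iff_eq (za_ne_zero h0 i)] at e
    exact e
  have hfz : f z ≠ 0 := by
    intro e
    obtain ⟨i, hi⟩ := exists_za hf ⟨0, by rw [h0]; exact one_ne_zero⟩ e
    exact hz i hi.symm
  have hφz : ∀ n, φ n z ≠ 0 := by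
    intro n e
    apply hfz
    rw [hp n z, e, mul_zero]
  have hid : ∀ n, ∑ i ∈ I n, Real.log ‖1 - z / za f i‖ = Real.log ‖f z‖ - Real.log ‖φ n z‖ := by
    intro n
    rw [hp n z, norm_mul, norm_prod, Real.log_mul, Real.log_prod]
    · ring
    · intro i _; exact norm_ne_zero_iff.2 (hne1 i)
    · exact Finset.prod_ne_zero_iff.2 (fun i _ => norm_ne_zero_iff.2 (hne1 i))
    · exact norm_ne_zero_iff.2 (hφz n)
  -- the remainder
  have hrem : Tendsto (fun n => Real.log ‖φ n z‖) atTop (𝓝 0) := by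
    have hbn : ∀ᶠ n : ℕ in atTop, ∀ w : ℂ, ‖w‖ ≤ 3 * n → ‖f w‖ ≤ Real.exp (K * (3 * n) ^ ρ) := by
      have : Tendsto (fun n : ℕ => 3 * (n : ℝ)) atTop atTop :=
        (tendsto_natCast_atTop_atTop).const_mul_atTop (by norm_num)
      exact this.eventually hb
    have hn4 : ∀ᶠ n : ℕ in atTop, 4 * ‖z‖ < n :=
      (tendsto_natCast_atTop_atTop (R := ℝ)).eventually_gt_atTop _
    have hmaj : Tendsto (fun n : ℕ => 4 * ‖z‖ * (K * 3 ^ ρ) * (n : ℝ) ^ (-(1 - ρ))) atTop (𝓝 0) := by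
      have h1 : Tendsto (fun n : ℕ => (n : ℝ) ^ (-(1 - ρ))) atTop (𝓝 0) :=
        (tendsto_rpow_neg_atTop (by linarith)).comp tendsto_natCast_atTop_atTop
      simpa using h1.const_mul (4 * ‖z‖ * (K * 3 ^ ρ))
    apply squeeze_zero_norm' _ hmaj
    filter_upwards [hbn, hn4] with n hn hn4
    have hn0 : (0 : ℝ) < n := by linarith
    set L := K * (3 * (n : ℝ)) ^ ρ with hL
    have hL0 : 0 ≤ L := by positivity
    have hφb : ∀ w : ℂ, ‖w‖ ≤ 3 * n → ‖φ n w‖ ≤ Real.exp L := by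
      intro w hw
      have h1 := phi_bound h0 hn0 (hI n) (hφ n) (hp n) hn hw
      refine h1.trans ?_
      apply div_le_self (Real.exp_pos _).le
      exact one_le_pow₀ (by norm_num)
    set t := Real.log ‖φ n z‖ with ht
    set c := 2 * ‖z‖ / (n - 2 * ‖z‖) with hc
    have hden : 0 < (n : ℝ) - 2 * ‖z‖ := by linarith
    have hc0 : 0 ≤ c := by positivity
    -- lower bound
    have hlow : -(c * L) ≤ t := by
      have h1 := harnack (φ := φ n) (c := 0) (R := n) (M := Real.exp L) hn0 (Real.exp_pos _)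
        (hφ n).differentiableOn (fun w hw => hφne n w (by rwa [mem_ball_zero_iff] at hw))
        (fun w hw => hφb w (by rw [mem_ball_zero_iff] at hw; linarith)) (z := z)
        (by rw [mem_ball_zero_iff]; linarith)
      rw [hφ0, norm_one, Real.log_one, sub_zero, Real.log_exp, sub_zero, zero_sub] at h1
      have h2 : 2 * ‖z‖ / (n - ‖z‖) ≤ c := by
        apply div_le_div_of_nonneg_left (by positivity) hden
        linarith
      have h3 : 2 * ‖z‖ / (n - ‖z‖) * L ≤ c * L := by gcongr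
      linarith
    -- upper bound
    have hup : t ≤ c * L := by
      have h1 := harnack (φ := φ n) (c := z) (R := n - ‖z‖) (M := Real.exp L) (by linarith)
        (Real.exp_pos _) (hφ n).differentiableOn (fun w hw => hφne n w (by
          rw [Metric.mem_ball, dist_eq_norm] at hw
          calc ‖w‖ = ‖(w - z) + z‖ := by rw [sub_add_cancel]
            _ ≤ ‖w - z‖ + ‖z‖ := norm_add_le _ _
            _ < n := by linarith))
        (fun w hw => hφb w (by
          rw [Metric.mem_ball, dist_eq_norm] at hw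
          calc ‖w‖ = ‖(w - z) + z‖ := by rw [sub_add_cancel]
            _ ≤ ‖w - z‖ + ‖z‖ := norm_add_le _ _
            _ ≤ 3 * n := by linarith)) (z := 0)
        (by rw [Metric.mem_ball, dist_eq_norm, zero_sub, norm_neg]; linarith)
      rw [hφ0, norm_one, Real.log_one, zero_sub, norm_neg, Real.log_exp, ← ht] at h1
      have e : (n : ℝ) - ‖z‖ - ‖z‖ = n - 2 * ‖z‖ := by ring
      rw [e, ← hc] at h1
      rcases le_or_gt t 0 with h2 | h2
      · have : 0 ≤ c * L := by positivity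
        linarith
      · nlinarith
    rw [Real.norm_eq_abs, abs_le]
    have hfin : c * L ≤ 4 * ‖z‖ * (K * 3 ^ ρ) * (n : ℝ) ^ (-(1 - ρ)) := by
      have h1 : c ≤ 4 * ‖z‖ / n := by
        rw [hc, div_le_div_iff₀ hden hn0]
        nlinarith
      calc c * L ≤ 4 * ‖z‖ / n * L := by gcongr
        _ = 4 * ‖z‖ * (K * 3 ^ ρ) * (n : ℝ) ^ (-(1 - ρ)) := by
            rw [hL, Real.mul_rpow (by norm_num) hn0.le, neg_sub, Real.rpow_sub hn0, Real.rpow_one]
            ring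
    constructor
    · linarith
    · linarith
  have hlim2 : Tendsto (fun n => ∑ i ∈ I n, Real.log ‖1 - z / za f i‖) atTop
      (𝓝 (Real.log ‖f z‖)) := by
    have := (tendsto_const_nhds (x := Real.log ‖f z‖) (f := atTop (α := ℕ))).sub hrem
    rw [sub_zero] at this
    exact this.congr (fun n => (hid n).symm)
  rw [← tendsto_nhds_unique hlim1 hlim2]
  exact hsum.hasSum

end HBInd
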