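import Pool.Agent.HBInd.Uniform
import Pool.Agent.HBInd.ZerosB

/-!
# The zeros of a function of order less than one

Let `f` be entire, not identically zero, `|f z| ≤ exp (K r ^ ρ)` for `|z| ≤ r`, `r` large, `0 < ρ < 1`.
Dividing by `z^m` we may assume `f 0 ≠ 0`, and then `f 0 = 1` (divide by the constant). Let `ι` be the set
of zeros counted with multiplicity (for instance `Σ u : {u // f u = 0}, Fin (order of f at u)`), countable,
finitely many in every disc.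

* For `R > 0` let `P_R z = ∏_{|a_i| < R} (1 - z / a_i)` and `φ_R = f / P_R` (entire, no zeros in `|z| < R`,
  `φ_R 0 = 1`; Mathlib: `MeromorphicOn.extract_zeros_poles`, or divide out one zero at a time with
  `dslope`). For `|z| = 3R`: `|1 - z / a| ≥ 2`, so `|φ_R| ≤ exp (K (3R)^ρ) / 2^{n(R)}` there, hence at `0` by
  the maximum principle: `n(R) log 2 ≤ K (3R)^ρ`. With this, for all `x > 0`,
  `∑_i log (1 + x / |a_i|) ≤ K' x^ρ` (dyadic sums over `2^k ≤ |a_i| < 2^{k+1}`; there are no zeros in a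
  neighbourhood of `0`).
* On `|z| < R`: `log |φ_R z| ≤ K (3R)^ρ` (maximum principle in `|z| ≤ 3R`), `φ_R = exp g` with `g 0 = 0`
  analytic in the disc, and Borel-Caratheodory gives `|g z| ≤ 2 K (3R)^ρ |z| / (R - |z|) → 0` as `R → ∞`.
  So `log |f z| = lim_R ∑_{|a_i| < R} log |1 - z / a_i|` if `z` is not a zero; the series is absolutely
  convergent as `|log |1 - w|| ≤ 2 |w|` for `|w| ≤ 1/2`.
-/

namespace HBInd

open Complex Filter Topology Set Bornology
open scoped Real ComplexConjugate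

lemma countable_zeros {f : ℂ → ℂ} (hf : Differentiable ℂ f) (h0 : ∃ z, f z ≠ 0) :
    Countable {u : ℂ // f u = 0} := by
  have h1 : {u : ℂ | f u = 0} = ⋃ n : ℕ, {u : ℂ | f u = 0 ∧ ‖u‖ < n} := by
    ext u
    rw [Set.mem_iUnion]
    constructor
    · intro hu
      obtain ⟨n, hn⟩ := exists_nat_gt ‖u‖
      exact ⟨n, hu, hn⟩
    · rintro ⟨n, hu, -⟩
      exact hu
  have h2 : {u : ℂ | f u = 0}.Countable := by
    rw [h1]
    exact Set.countable_iUnion (fun n => (finite_zeros hf h0 n).countable)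
  exact h2.to_subtype

theorem exists_zeros {f : ℂ → ℂ} (hf : Differentiable ℂ f) (h0 : ∃ z, f z ≠ 0) {ρ K : ℝ}
    (hρ : 0 < ρ) (hρ1 : ρ < 1)
    (hb : ∀ᶠ r : ℝ in atTop, ∀ z : ℂ, ‖z‖ ≤ r → ‖f z‖ ≤ Real.exp (K * r ^ ρ)) :
    ∃ (ι : Type) (_ : Countable ι) (a : ι → ℂ) (m : ℕ) (A : ℝ),
      (∀ i, a i ≠ 0 ∧ f (a i) = 0) ∧
      (∃ K' : ℝ, 0 < K' ∧ ∀ x : ℝ, 0 < x → (Summable fun i => Real.log (1 + x / ‖a i‖)) ∧
        ∑' i, Real.log (1 + x / ‖a i‖) ≤ K' * x ^ ρ) ∧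
      ∀ z : ℂ, z ≠ 0 → (∀ i, z ≠ a i) → f z ≠ 0 ∧
        HasSum (fun i => Real.log ‖1 - z / a i‖) (Real.log ‖f z‖ - m * Real.log ‖z‖ - A) := by
  obtain ⟨F, hF, hF0, hp⟩ := exists_div_pow hf h0 0
  set m := analyticOrderNatAt f 0 with hm
  set c := F 0 with hc
  have hcn : 0 < ‖c‖ := norm_pos_iff.2 hF0
  set G : ℂ → ℂ := fun z => F z / c with hG
  have hGd : Differentiable ℂ G := hF.div_const c
  have hG0 : G 0 = 1 := div_self hF0
  have hfG : ∀ z, f z = z ^ m * (c * G z) := by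
    intro z
    rw [hp z, sub_zero, hG]
    congr 1
    field_simp
  have hG0' : ∃ z, G z ≠ 0 := ⟨0, by rw [hG0]; exact one_ne_zero⟩
  have hK1 : 0 < |K| + 1 := by positivity
  have hbG : ∀ᶠ r : ℝ in atTop, ∀ z : ℂ, ‖z‖ ≤ r → ‖G z‖ ≤ Real.exp ((|K| + 1) * r ^ ρ) := by
    have h1 : ∀ᶠ r : ℝ in atTop, Real.log (1 / ‖c‖) ≤ r ^ ρ :=
      (tendsto_rpow_atTop hρ).eventually_ge_atTop _
    filter_upwards [hb, h1, eventually_ge_atTop 1] with r hr h1 hr1 z hz
    apply norm_le_of_circle hGd _ hz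
    intro w hw
    have hwn : 0 < ‖w‖ := by rw [hw]; linarith
    have h2 := hr w hw.le
    rw [hfG w, norm_mul, norm_pow, norm_mul, hw] at h2
    have h3 : 1 ≤ r ^ m := one_le_pow₀ hr1
    have h4 : ‖c‖ * ‖G w‖ ≤ Real.exp (K * r ^ ρ) := by
      refine le_trans ?_ h2
      exact le_mul_of_one_le_left (by positivity) h3
    have h5 : 1 / ‖c‖ ≤ Real.exp (r ^ ρ) := by
      rw [← Real.log_le_iff_le_exp (by positivity)]
      exact h1
    have h6 : ‖G w‖ = 1 / ‖c‖ * (‖c‖ * ‖G w‖) := by field_simp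
    have hrρ : 0 ≤ r ^ ρ := by positivity
    rw [h6]
    calc 1 / ‖c‖ * (‖c‖ * ‖G w‖) ≤ Real.exp (r ^ ρ) * Real.exp (K * r ^ ρ) := by gcongr
      _ = Real.exp ((K + 1) * r ^ ρ) := by rw [← Real.exp_add]; congr 1; ring
      _ ≤ Real.exp ((|K| + 1) * r ^ ρ) := by
          apply Real.exp_le_exp.2
          have := le_abs_self K
          gcongr
  obtain ⟨C, hC, hcount⟩ := count_zeros hGd hG0 hρ hK1 hbG
  obtain ⟨K', hK', hsums⟩ := log_sums (za_ne_zero hG0) hρ hρ1 hC hcount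
  have : Countable {u : ℂ // G u = 0} := countable_zeros hGd hG0'
  refine ⟨ZI G, inferInstance, za G, m, Real.log ‖c‖, ?_, ⟨K', hK', hsums⟩, ?_⟩
  · intro i
    refine ⟨za_ne_zero hG0 i, ?_⟩
    rw [hfG, f_za G i, mul_zero, mul_zero]
  · intro z hz0 hz
    have h1 := hasSum_log hGd hG0 hρ hρ1 hK1 hbG (fun x hx => (hsums x hx).1) hz0 hz
    have hGz : G z ≠ 0 := by
      intro e
      obtain ⟨i, hi⟩ := exists_za hGd hG0' e
      exact hz i hi.symm
    have hfz : f z ≠ 0 := by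
      rw [hfG]
      exact mul_ne_zero (pow_ne_zero _ hz0) (mul_ne_zero hF0 hGz)
    refine ⟨hfz, ?_⟩
    have e : Real.log ‖f z‖ - m * Real.log ‖z‖ - Real.log ‖c‖ = Real.log ‖G z‖ := by
      rw [hfG, norm_mul, norm_mul, norm_pow, Real.log_mul, Real.log_mul, Real.log_pow]
      · ring
      · exact hcn.ne'
      · exact norm_ne_zero_iff.2 hGz
      · exact pow_ne_zero _ (norm_ne_zero_iff.2 hz0)
      · exact mul_ne_zero hcn.ne' (norm_ne_zero_iff.2 hGz)
    rw [e]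
    exact h1

end HBInd
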