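import Pool.Agent.HBInd.ZerosOneA
import Pool.Agent.HBInd.Zeros

/-!
# The zeros of a function of order between one and two, assembly

As `exists_zeros` in `Pool.Agent.HBInd.Zeros`: `f z = z ^ m * (c * G z)` with `G 0 = 1`, `ι = ZI G`,
`a = za G`, `B = G' 0`; `count_zeros`, `sums_one`, `hasSum_KK_one`. Divisibility: for a finite set `F` of
indices take `R` larger than all `|a_i|`, `i ∈ F`; by `exists_finset`, `G = ∏_{i ∈ I} (1 - z / a_i) φ` with
`I ⊇ F`, so `g z = c ∏_{i ∈ I \ F} (1 - z / a_i) φ z`; for `F = ∅` this is `c G`, and `g 0 = c` always.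
-/

namespace HBInd

open Complex Filter Topology Set Bornology
open scoped Real ComplexConjugate

theorem exists_zeros_one {f : ℂ → ℂ} (hf : Differentiable ℂ f) (h0 : ∃ z, f z ≠ 0) {ρ K : ℝ}
    (hρ1 : 1 < ρ) (hρ2 : ρ < 2)
    (hb : ∀ᶠ r : ℝ in atTop, ∀ z : ℂ, ‖z‖ ≤ r → ‖f z‖ ≤ Real.exp (K * r ^ ρ)) :
    ∃ (ι : Type) (_ : Countable ι) (a : ι → ℂ) (m : ℕ) (A : ℝ) (B : ℂ),
      (∀ i, a i ≠ 0 ∧ f (a i) = 0) ∧
      (∃ K' : ℝ, 0 < K' ∧ ∀ x : ℝ, 0 < x →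
        (Summable fun i => min (x / ‖a i‖) ((x / ‖a i‖) ^ 2)) ∧
          ∑' i, min (x / ‖a i‖) ((x / ‖a i‖) ^ 2) ≤ K' * x ^ ρ) ∧
      (∀ z : ℂ, z ≠ 0 → (∀ i, z ≠ a i) → f z ≠ 0 ∧
        HasSum (fun i => KK 1 (z / a i)) (Real.log ‖f z‖ - m * Real.log ‖z‖ - A - (B * z).re)) ∧
      ∀ F : Finset ι, ∃ g : ℂ → ℂ, Differentiable ℂ g ∧ g 0 ≠ 0 ∧
        ∀ z, f z = z ^ m * ((∏ i ∈ F, (1 - z / a i)) * g z) := by
  classical
  have hρ : 0 < ρ := by linarith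
  obtain ⟨F, hF, hF0, hp⟩ := exists_div_pow hf h0 0
  set m := analyticOrderNatAt f 0 with hm
  set c := F 0 with hc
  have hcn : 0 < ‖c‖ := norm_pos_iff.2 hF0
  set G : ℂ → ℂ := fun z => F z / c with hG
  have hGd : Differentiable ℂ G := hF.div_const c
  have hG0 : G 0 = 1 := div_self hF0
  have hfG : ∀ z, f z = z ^ m * (c * G z) := by
    intro z
    rw [hp z, sub_zero, hG]
    congr 1
    field_simp
  have hG0' : ∃ z, G z ≠ 0 := ⟨0, by rw [hG0]; exact one_ne_zero⟩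
  have hK1 : 0 < |K| + 1 := by positivity
  have hbG : ∀ᶠ r : ℝ in atTop, ∀ z : ℂ, ‖z‖ ≤ r → ‖G z‖ ≤ Real.exp ((|K| + 1) * r ^ ρ) := by
    have h1 : ∀ᶠ r : ℝ in atTop, Real.log (1 / ‖c‖) ≤ r ^ ρ :=
      (tendsto_rpow_atTop hρ).eventually_ge_atTop _
    filter_upwards [hb, h1, eventually_ge_atTop 1] with r hr h1 hr1 z hz
    apply norm_le_of_circle hGd _ hz
    intro w hw
    have hwn : 0 < ‖w‖ := by rw [hw]; linarith
    have h2 := hr w hw.le
    rw [hfG w, norm_mul, norm_pow, norm_mul, hw] at h2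
    have h3 : 1 ≤ r ^ m := one_le_pow₀ hr1
    have h4 : ‖c‖ * ‖G w‖ ≤ Real.exp (K * r ^ ρ) := by
      refine le_trans ?_ h2
      exact le_mul_of_one_le_left (by positivity) h3
    have h5 : 1 / ‖c‖ ≤ Real.exp (r ^ ρ) := by
      rw [← Real.log_le_iff_le_exp (by positivity)]
      exact h1
    have h6 : ‖G w‖ = 1 / ‖c‖ * (‖c‖ * ‖G w‖) := by field_simp
    have hrρ : 0 ≤ r ^ ρ := by positivity
    rw [h6]
    calc 1 / ‖c‖ * (‖c‖ * ‖G w‖) ≤ Real.exp (r ^ ρ) * Real.exp (K * r ^ ρ) := by gcongr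
      _ = Real.exp ((K + 1) * r ^ ρ) := by rw [← Real.exp_add]; congr 1; ring
      _ ≤ Real.exp ((|K| + 1) * r ^ ρ) := by
          apply Real.exp_le_exp.2
          have := le_abs_self K
          gcongr
  obtain ⟨C, hC, hcount⟩ := count_zeros hGd hG0 hρ hK1 hbG
  obtain ⟨K', hK', hsums⟩ := sums_one (za_ne_zero hG0) hρ1 hρ2 hC hcount
  have : Countable {u : ℂ // G u = 0} := countable_zeros hGd hG0'
  refine ⟨ZI G, inferInstance, za G, m, Real.log ‖c‖, deriv G 0, ?_, ⟨K', hK', hsums⟩, ?_, ?_⟩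
  · intro i
    refine ⟨za_ne_zero hG0 i, ?_⟩
    rw [hfG, f_za G i, mul_zero, mul_zero]
  · intro z hz0 hz
    have h1 := hasSum_KK_one hGd hG0 hρ1 hρ2 hK1 hbG hz0 hz
    have hGz : G z ≠ 0 := by
      intro e
      obtain ⟨i, hi⟩ := exists_za hGd hG0' e
      exact hz i hi.symm
    have hfz : f z ≠ 0 := by
      rw [hfG]
      exact mul_ne_zero (pow_ne_zero _ hz0) (mul_ne_zero hF0 hGz)
    refine ⟨hfz, ?_⟩
    have e : Real.log ‖f z‖ - m * Real.log ‖z‖ - Real.log ‖c‖ - (deriv G 0 * z).re =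
        Real.log ‖G z‖ - (deriv G 0 * z).re := by
      rw [hfG, norm_mul, norm_mul, norm_pow, Real.log_mul, Real.log_mul, Real.log_pow]
      · ring
      · exact hcn.ne'
      · exact norm_ne_zero_iff.2 hGz
      · exact pow_ne_zero _ (norm_ne_zero_iff.2 hz0)
      · exact mul_ne_zero hcn.ne' (norm_ne_zero_iff.2 hGz)
    rw [e]
    exact h1
  · intro J
    obtain ⟨I, hI, φ, hφ, hφ0, -, hprod⟩ :=
      exists_finset hGd hG0 (∑ i ∈ J, ‖za G i‖ + 1)
    have hJI : J ⊆ I := by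
      intro i hi
      rw [hI]
      have := Finset.single_le_sum (f := fun i => ‖za G i‖) (fun j _ => norm_nonneg _) hi
      linarith
    refine ⟨fun z => c * ((∏ i ∈ I \ J, (1 - z / za G i)) * φ z), ?_, ?_, ?_⟩
    · fun_prop
    · simp only [zero_div, sub_zero, Finset.prod_const_one, hφ0, mul_one]
      exact hF0
    · intro z
      rw [hfG z, hprod z, ← Finset.prod_sdiff hJI]
      ring

end HBInd
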