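import Pool.Agent.HBInd.NecOneA
import Pool.Agent.HBInd.ZerosOne
import Pool.Agent.HBInd.SumIm
import Pool.Agent.HBInd.NecRel

/-!
# Indicators are relatively subharmonic, order between one and two

Model: `Pool.Agent.HBInd.NecRel` (`relSub_zero`, `domination_sum`, `avg_canonical`, `avg_le_HH`). Let `f` be in `E_ρ`,
`1 < ρ < 2`, with real valued indicator `g`, a system `δ, z₀, w, z` as in `RelSub 1`, and `ι, a, m, A, B, K'` from
`exists_zeros_one` (`finite_type`), `b i = 1 / a i`, `γ i = - Im (b i) ≥ 0`, `∑ γ i < ∞` (`summable_im`). Put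
`U z = log ‖f z‖ - m log ‖z‖ - A - Re (B z) = ∑_i KK 1 (z b_i)`.

* `avg_one`: `circleAverage U z (δ ‖z‖) = ∑_i KD 1 δ (z b_i)` (`hasSum_circleAverage`, with some
  `σ ∈ (ρ, 2)`; `∑ |b_i|^σ < ∞` follows from the bound for `∑ min ..` as in `summable_rpow_of_log`), and it
  is `≤ C K' ‖z‖^ρ` in absolute value (`abs_KD_one_le`).
* `domination_one`: let `r > 0`, `r z₀` not a zero, `β i` from `exists_real_shift`. The domination inequality at
  the real place `ζ = 1 / (r β i)` (if `β i ≠ 0`; if `β i = 0` it is `0 ≤ 0`) gives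
  `KK 1 (r z₀ b_i) ≤ ∑_k w_k KD 1 δ (r z_k β_i) + C r γ_i`. Summing over `i`, with
  `|KD 1 δ (r z_k β_i) - KD 1 δ (r z_k b_i)| ≤ E k i := min (3 C r |z_k| γ_i) (C' (r |z_k|)² (|b_i| + 3 γ_i)²)`
  (`KD_one_lip`, `abs_KD_one_le`):
  `U (r z₀) ≤ ∑_k w_k circleAverage U (r z_k) (δ ‖r z_k‖) + C r ∑ γ_i + ∑_k w_k ∑_i E k i`,
  and `∑_i E k i ≤ C'' min (r |z_k|) ((r |z_k|)²)` (`∑ γ_i < ∞`, `γ_i ≤ |b_i|`, `∑ |b_i|² < ∞`).
* `relSub_one`: divide by `r^ρ`, `r → ∞`: `r^{-ρ} C r ∑ γ_i → 0`;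
  `r^{-ρ} ∑_k w_k min (r |z_k|) ((r |z_k|)²) = ∑_k w_k |z_k|^ρ μ (r |z_k|)` with
  `μ t = min (t^{1-ρ}) (t^{2-ρ}) ≤ 1`, `μ t → 0` as `t → ∞` (Tannery); for every `k`:
  `r^{-ρ} circleAverage U (r z_k) (δ ‖r z_k‖) ≤ circleAverage (HH ρ g) (z k) (δ ‖z k‖) + ε` for large `r` (as `avg_le_HH`, the additional term
  `Re (B z)` is `O(r)`), and it is `≤ C K' |z_k|^ρ` in absolute value for all `r`; the rest is as in
  `relSub_zero`.
-/

namespace HBInd

open Complex Filter Topology Set Bornology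
open scoped Real ComplexConjugate

/-- convergence exponent from the growth of the counting sum -/
lemma n1_summable_rpow {ι : Type} {t : ι → ℝ} (ht : ∀ i, 0 < t i) {ρ σ K : ℝ}
    (hσ0 : 0 < σ) (hσ : ρ < σ)
    (h : ∀ x : ℝ, 0 < x → (Summable fun i => min (x * t i) ((x * t i) ^ 2)) ∧
      ∑' i, min (x * t i) ((x * t i) ^ 2) ≤ K * x ^ ρ) : Summable fun i => t i ^ σ := by
  have hnn : ∀ (x : ℝ) i, 0 < x → 0 ≤ min (x * t i) ((x * t i) ^ 2) := fun x i hx =>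
    le_min (mul_pos hx (ht i)).le (by positivity)
  obtain ⟨F, hFdef⟩ : ∃ F : ℕ × ι → ℝ, ∀ k i,
      F (k, i) = ((2 : ℝ) ^ k) ^ (-σ) * min (2 ^ k * t i) ((2 ^ k * t i) ^ 2) :=
    ⟨fun p => ((2 : ℝ) ^ p.1) ^ (-σ) * min (2 ^ p.1 * t p.2) ((2 ^ p.1 * t p.2) ^ 2),
      fun _ _ => rfl⟩
  have hF0 : 0 ≤ F := by
    rintro ⟨k, i⟩
    rw [hFdef]
    exact mul_nonneg (Real.rpow_nonneg (by positivity) _) (hnn _ _ (by positivity))
  have hF : Summable F := by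
    rw [summable_prod_of_nonneg hF0]
    constructor
    · intro k
      simp only [hFdef]
      exact ((h ((2 : ℝ) ^ k) (by positivity)).1).mul_left _
    have hg : Summable fun k : ℕ => K * ((2 : ℝ) ^ (ρ - σ)) ^ k := by
      refine (summable_geometric_of_lt_one (by positivity) ?_).mul_left K
      exact Real.rpow_lt_one_of_one_lt_of_neg (by norm_num) (by linarith)
    refine Summable.of_nonneg_of_le (fun k => tsum_nonneg fun i => hF0 (k, i)) (fun k => ?_) hg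
    simp only [hFdef]
    rw [tsum_mul_left]
    calc ((2 : ℝ) ^ k) ^ (-σ) * ∑' i, min (2 ^ k * t i) ((2 ^ k * t i) ^ 2)
        ≤ ((2 : ℝ) ^ k) ^ (-σ) * (K * (2 ^ k) ^ ρ) :=
          mul_le_mul_of_nonneg_left (h (2 ^ k) (by positivity)).2 (by positivity)
      _ = K * (((2 : ℝ) ^ k) ^ (-σ) * (2 ^ k) ^ ρ) := by ring
      _ = K * ((2 : ℝ) ^ (ρ - σ)) ^ k := by
          rw [← Real.rpow_add (by positivity), ← Real.rpow_natCast, ← Real.rpow_natCast,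
            ← Real.rpow_mul (by norm_num), ← Real.rpow_mul (by norm_num)]
          congr 2
          ring
  have hF' : Summable fun p : ι × ℕ => F p.swap := (Equiv.prodComm ι ℕ).summable_iff.2 hF
  have h2 := (summable_prod_of_nonneg (f := fun p : ι × ℕ => F p.swap)
    (fun p => hF0 p.swap)).1 hF'
  refine Summable.of_norm_bounded_eventually (h2.2.mul_left (1 / 4 : ℝ)⁻¹) ?_
  have h3 : ∀ᶠ i in cofinite, t i < 1 := by
    have h4 := (h 1 one_pos).1.tendsto_cofinite_zero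
    filter_upwards [h4.eventually_lt_const one_pos] with i hi
    by_contra hcon
    push Not at hcon
    have h5 : 1 ≤ min (1 * t i) ((1 * t i) ^ 2) := by
      rw [one_mul]
      exact le_min hcon (one_le_pow₀ hcon)
    linarith
  filter_upwards [h3] with i hi
  rw [Real.norm_of_nonneg (Real.rpow_nonneg (ht i).le _)]
  obtain ⟨n, hn1, hn2⟩ := exists_nat_pow_near (x := (t i)⁻¹) (y := 2)
    ((one_le_inv₀ (ht i)).2 hi.le) (by norm_num)
  have h4 : (2 : ℝ) ^ n * t i ≤ 1 := by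
    have := mul_le_mul_of_nonneg_right hn1 (ht i).le
    rwa [inv_mul_cancel₀ (ht i).ne'] at this
  have h5 : 1 < (2 : ℝ) ^ (n + 1) * t i := by
    have := mul_lt_mul_of_pos_right hn2 (ht i)
    rwa [inv_mul_cancel₀ (ht i).ne'] at this
  have h6 : t i ^ σ ≤ ((2 : ℝ) ^ n) ^ (-σ) := by
    rw [Real.rpow_neg (by positivity), ← Real.inv_rpow (by positivity)]
    refine Real.rpow_le_rpow (ht i).le ?_ hσ0.le
    rw [← one_div, le_div_iff₀ (by positivity), mul_comm]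
    exact h4
  have h7 : (1 / 4 : ℝ) ≤ min (2 ^ n * t i) ((2 ^ n * t i) ^ 2) := by
    rw [pow_succ] at h5
    have h8 : 1 / 2 < (2 : ℝ) ^ n * t i := by linarith
    refine le_min (by linarith) ?_
    nlinarith
  have h8 : F (n, i) ≤ ∑' k, F (k, i) :=
    (h2.1 i).le_tsum n fun k _ => hF0 (k, i)
  rw [← div_eq_inv_mul, le_div_iff₀ (by norm_num)]
  refine le_trans ?_ h8
  rw [hFdef]
  exact mul_le_mul h6 h7 (by norm_num) (by positivity)

lemma n1_min_le_rpow {ρ x : ℝ} (hρ1 : 1 < ρ) (hρ2 : ρ < 2) (hx : 0 < x) :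
    min x (x ^ 2) ≤ x ^ ρ := by
  rcases le_total x 1 with h | h
  · refine (min_le_right _ _).trans ?_
    rw [← Real.rpow_two]
    exact Real.rpow_le_rpow_of_exponent_ge hx h hρ2.le
  · refine (min_le_left _ _).trans ?_
    calc x = x ^ (1 : ℝ) := (Real.rpow_one x).symm
      _ ≤ x ^ ρ := Real.rpow_le_rpow_of_exponent_le h hρ1.le

lemma n1_hK {ρ K : ℝ} {ι : Type} {a : ι → ℂ}
    (hK : ∀ x : ℝ, 0 < x → (Summable fun i => min (x / ‖a i‖) ((x / ‖a i‖) ^ 2)) ∧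
          ∑' i, min (x / ‖a i‖) ((x / ‖a i‖) ^ 2) ≤ K * x ^ ρ) (x : ℝ) (hx : 0 < x) :
    (Summable fun i => min (x * ‖(a i)⁻¹‖) ((x * ‖(a i)⁻¹‖) ^ 2)) ∧
      ∑' i, min (x * ‖(a i)⁻¹‖) ((x * ‖(a i)⁻¹‖) ^ 2) ≤ K * x ^ ρ := by
  have := hK x hx
  simp only [norm_inv, ← div_eq_mul_inv]
  exact this

theorem avg_one {δ ρ K : ℝ} (hδ : δ ∈ Ioo (0 : ℝ) 1) (hρ1 : 1 < ρ) (hρ2 : ρ < 2) {ι : Type}
    [Countable ι] {a : ι → ℂ} (ha : ∀ i, a i ≠ 0)
    (hK : ∀ x : ℝ, 0 < x → (Summable fun i => min (x / ‖a i‖) ((x / ‖a i‖) ^ 2)) ∧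
          ∑' i, min (x / ‖a i‖) ((x / ‖a i‖) ^ 2) ≤ K * x ^ ρ) :
    ∃ C : ℝ, 0 < C ∧ ∀ U : ℂ → ℝ,
      (∀ u : ℂ, u ≠ 0 → (∀ i, u ≠ a i) → HasSum (fun i => KK 1 (u / a i)) (U u)) →
      ∀ z : ℂ, z ≠ 0 →
        HasSum (fun i => KD 1 δ (z / a i)) (Real.circleAverage U z (δ * ‖z‖)) ∧
          |Real.circleAverage U z (δ * ‖z‖)| ≤ C * ‖z‖ ^ ρ := by
  obtain ⟨C, hC0, hC⟩ := abs_KD_one_le hδ
  refine ⟨C * (|K| + 1), by positivity, fun U hU z hz => ?_⟩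
  obtain ⟨σ, h1, h2⟩ := exists_between hρ2
  have hs : Summable fun i => ‖(a i)⁻¹‖ ^ σ :=
    n1_summable_rpow (fun i => norm_pos_iff.2 (inv_ne_zero (ha i))) (by linarith) h1 (n1_hK hK)
  have h3 := hasSum_circleAverage (p := 1) le_rfl (c := fun i => (a i)⁻¹) (σ := σ)
    (by push_cast; linarith) (by push_cast; linarith) hs (F := U)
    (fun u hu hcu => by
      have := hU u hu (fun i e => hcu i (by rw [e, inv_mul_cancel₀ (ha i)]))
      simpa only [div_eq_inv_mul] using this) hδ hz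
  have h4 : HasSum (fun i => KD 1 δ (z / a i)) (Real.circleAverage U z (δ * ‖z‖)) := by
    simpa only [div_eq_inv_mul] using h3
  refine ⟨h4, ?_⟩
  obtain ⟨h5, h6⟩ := hK ‖z‖ (norm_pos_iff.2 hz)
  have h7 : ∀ i, |KD 1 δ (z / a i)| ≤ C * min (‖z‖ / ‖a i‖) ((‖z‖ / ‖a i‖) ^ 2) := by
    intro i
    have := hC (z / a i)
    rwa [norm_div] at this
  have hzρ : 0 ≤ ‖z‖ ^ ρ := Real.rpow_nonneg (norm_nonneg _) _
  have h8 : C * ∑' i, min (‖z‖ / ‖a i‖) ((‖z‖ / ‖a i‖) ^ 2) ≤ C * (|K| + 1) * ‖z‖ ^ ρ := by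
    rw [mul_assoc]
    refine mul_le_mul_of_nonneg_left (h6.trans ?_) hC0.le
    exact mul_le_mul_of_nonneg_right (by linarith [le_abs_self K]) hzρ
  have h9 := (h5.mul_left C).hasSum
  rw [tsum_mul_left] at h9
  rw [abs_le]
  constructor
  · have h10 := hasSum_le (fun i => (abs_le.1 (h7 i)).1) h9.neg h4
    linarith
  · have h10 := hasSum_le (fun i => (abs_le.1 (h7 i)).2) h4 h9
    linarith

lemma n1_KK_zero : KK 1 0 = 0 := by simp [KK]

lemma n1_KD_zero (δ : ℝ) : KD 1 δ 0 = 0 := by simp [KD]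

theorem domination_one {δ ρ K : ℝ} (hδ : δ ∈ Ioo (0 : ℝ) 1) (hρ1 : 1 < ρ) (hρ2 : ρ < 2) {ι : Type}
    [Countable ι] {a : ι → ℂ} (ha : ∀ i, a i ≠ 0) (him : ∀ i, 0 ≤ -(1 / a i).im)
    (hims : Summable fun i => -(1 / a i).im)
    (hK : ∀ x : ℝ, 0 < x → (Summable fun i => min (x / ‖a i‖) ((x / ‖a i‖) ^ 2)) ∧
          ∑' i, min (x / ‖a i‖) ((x / ‖a i‖) ^ 2) ≤ K * x ^ ρ)
    {U : ℂ → ℝ}
    (hU : ∀ u : ℂ, u ≠ 0 → (∀ i, u ≠ a i) → HasSum (fun i => KK 1 (u / a i)) (U u))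
    {z₀ : ℂ} (hz₀ : z₀ ≠ 0) {w : ℕ → ℝ} {z : ℕ → ℂ} (hw : ∀ k, 0 ≤ w k) (hz : ∀ k, z k ≠ 0)
    (hs : Summable fun k => w k * ‖z k‖ ^ ρ)
    (hd : ∀ ζ ∈ XX 1, ζ ≠ z₀ → KK 1 (z₀ / ζ) ≤ ∑' k, w k * KD 1 δ (z k / ζ)) :
    ∃ C : ℝ, 0 < C ∧ ∀ r : ℝ, 0 < r → (∀ i, r * z₀ ≠ a i) →
      (Summable fun k => w k * Real.circleAverage U (r * z k) (δ * ‖r * z k‖)) ∧
      (Summable fun k => w k * min (r * ‖z k‖) ((r * ‖z k‖) ^ 2)) ∧
      U (r * z₀) ≤ ∑' k, w k * Real.circleAverage U (r * z k) (δ * ‖r * z k‖) +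
        C * r + C * ∑' k, w k * min (r * ‖z k‖) ((r * ‖z k‖) ^ 2) := by
  obtain ⟨Ca, hCa0, hCa⟩ := avg_one hδ hρ1 hρ2 ha hK
  obtain ⟨C₁, hC₁0, hC₁⟩ := exists_real_shift hz₀
  obtain ⟨C₂, hC₂0, hC₂⟩ := KD_one_lip hδ
  obtain ⟨C₃, hC₃0, hC₃⟩ := abs_KD_one_le hδ
  -- the sums of `γ` and of `|b|²`
  obtain ⟨γ, hγ⟩ : ∃ γ : ι → ℝ, ∀ i, γ i = -(1 / a i).im := ⟨fun i => _, fun _ => rfl⟩
  obtain ⟨b, hb⟩ : ∃ b : ι → ℂ, ∀ i, b i = 1 / a i := ⟨fun i => _, fun _ => rfl⟩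
  have hγ0 : ∀ i, 0 ≤ γ i := fun i => by rw [hγ]; exact him i
  have hγs : Summable γ := by simpa only [← hγ] using hims
  have hγb : ∀ i, γ i ≤ ‖b i‖ := by
    intro i
    rw [hγ, hb]
    exact (neg_le_abs _).trans (Complex.abs_im_le_norm _)
  have hbs : Summable fun i => ‖b i‖ ^ 2 := by
    have h1 := n1_summable_rpow (t := fun i => ‖(a i)⁻¹‖) (σ := 2)
      (fun i => norm_pos_iff.2 (inv_ne_zero (ha i))) (by norm_num) hρ2 (n1_hK hK)
    refine h1.congr fun i => ?_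
    rw [Real.rpow_two, hb, one_div]
  obtain ⟨Γ, hΓ⟩ : ∃ Γ : ℝ, Γ = ∑' i, γ i := ⟨_, rfl⟩
  obtain ⟨B2, hB2⟩ : ∃ B2 : ℝ, B2 = ∑' i, ‖b i‖ ^ 2 := ⟨_, rfl⟩
  have hΓ0 : 0 ≤ Γ := by rw [hΓ]; exact tsum_nonneg hγ0
  have hB20 : 0 ≤ B2 := by rw [hB2]; exact tsum_nonneg fun i => by positivity
  obtain ⟨c₁, hc₁⟩ : ∃ c : ℝ, c = 3 * C₂ := ⟨_, rfl⟩
  obtain ⟨c₂, hc₂⟩ : ∃ c : ℝ, c = 17 * C₃ := ⟨_, rfl⟩
  have hc₁0 : 0 < c₁ := by rw [hc₁]; positivity
  have hc₂0 : 0 < c₂ := by rw [hc₂]; positivity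
  obtain ⟨C₄, hC₄⟩ : ∃ C : ℝ, C = c₁ * Γ + c₂ * B2 := ⟨_, rfl⟩
  have hC₄0 : 0 ≤ C₄ := by rw [hC₄]; positivity
  refine ⟨C₁ * Γ + C₄ + 1, by positivity, fun r hr hr0 => ?_⟩
  have hrc : (r : ℂ) ≠ 0 := by exact_mod_cast hr.ne'
  have hrz : ∀ k, (r : ℂ) * z k ≠ 0 := fun k => mul_ne_zero hrc (hz k)
  have hnorm : ∀ k, ‖(r : ℂ) * z k‖ = r * ‖z k‖ := fun k => by
    rw [norm_mul, Complex.norm_real, Real.norm_of_nonneg hr.le]
  have hrzp : ∀ k, 0 < r * ‖z k‖ := fun k => mul_pos hr (norm_pos_iff.2 (hz k))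
  -- the sum over `k` of the minima
  have hρs : Summable fun k => w k * (r * ‖z k‖) ^ ρ := by
    refine (hs.mul_left (r ^ ρ)).congr fun k => ?_
    rw [Real.mul_rpow hr.le (norm_nonneg _)]
    ring
  have hmin : Summable fun k => w k * min (r * ‖z k‖) ((r * ‖z k‖) ^ 2) := by
    refine Summable.of_nonneg_of_le (fun k => mul_nonneg (hw k) (le_min (hrzp k).le (by positivity)))
      (fun k => ?_) hρs
    exact mul_le_mul_of_nonneg_left (n1_min_le_rpow hρ1 hρ2 (hrzp k)) (hw k)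
  -- the double series
  obtain ⟨F, hF⟩ : ∃ F : ℕ × ι → ℝ, ∀ k i, F (k, i) = w k * KD 1 δ (r * z k / a i) :=
    ⟨fun p => w p.1 * KD 1 δ (r * z p.1 / a p.2), fun _ _ => rfl⟩
  obtain ⟨G, hG⟩ : ∃ G : ℕ × ι → ℝ, ∀ k i,
      G (k, i) = w k * (C₃ * min (‖r * z k‖ / ‖a i‖) ((‖r * z k‖ / ‖a i‖) ^ 2)) :=
    ⟨fun p => w p.1 * (C₃ * min (‖r * z p.1‖ / ‖a p.2‖) ((‖r * z p.1‖ / ‖a p.2‖) ^ 2)),
      fun _ _ => rfl⟩
  obtain ⟨E, hE⟩ : ∃ E : ℕ × ι → ℝ, ∀ k i,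
      E (k, i) = w k * min (c₁ * (r * ‖z k‖) * γ i) (c₂ * (r * ‖z k‖) ^ 2 * ‖b i‖ ^ 2) :=
    ⟨fun p => w p.1 * min (c₁ * (r * ‖z p.1‖) * γ p.2) (c₂ * (r * ‖z p.1‖) ^ 2 * ‖b p.2‖ ^ 2),
      fun _ _ => rfl⟩
  have hG0 : 0 ≤ G := by
    rintro ⟨k, i⟩
    rw [hG]
    exact mul_nonneg (hw k) (mul_nonneg hC₃0.le (le_min (by positivity) (by positivity)))
  have hE1 : ∀ k i, 0 ≤ min (c₁ * (r * ‖z k‖) * γ i) (c₂ * (r * ‖z k‖) ^ 2 * ‖b i‖ ^ 2) := by
    intro k i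
    refine le_min ?_ (by positivity)
    exact mul_nonneg (mul_nonneg hc₁0.le (hrzp k).le) (hγ0 i)
  have hE0 : 0 ≤ E := by
    rintro ⟨k, i⟩
    rw [hE]
    exact mul_nonneg (hw k) (hE1 k i)
  have hGs : Summable G := by
    rw [summable_prod_of_nonneg hG0]
    constructor
    · intro k
      simp only [hG]
      exact (((hK _ (norm_pos_iff.2 (hrz k))).1).mul_left C₃).mul_left _
    · have hg : Summable fun k => (C₃ * |K|) * (w k * (r * ‖z k‖) ^ ρ) := hρs.mul_left _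
      refine Summable.of_nonneg_of_le (fun k => tsum_nonneg fun i => hG0 (k, i)) (fun k => ?_) hg
      simp only [hG]
      rw [tsum_mul_left, tsum_mul_left]
      have h1 := (hK _ (norm_pos_iff.2 (hrz k))).2
      rw [hnorm] at h1 ⊢
      have h2 : K * (r * ‖z k‖) ^ ρ ≤ |K| * (r * ‖z k‖) ^ ρ :=
        mul_le_mul_of_nonneg_right (le_abs_self K) (Real.rpow_nonneg (hrzp k).le _)
      calc w k * (C₃ * ∑' i, min (r * ‖z k‖ / ‖a i‖) ((r * ‖z k‖ / ‖a i‖) ^ 2)) ≤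
          w k * (C₃ * (|K| * (r * ‖z k‖) ^ ρ)) :=
            mul_le_mul_of_nonneg_left (mul_le_mul_of_nonneg_left (h1.trans h2) hC₃0.le) (hw k)
        _ = _ := by ring
  have hFs : Summable F := by
    refine Summable.of_norm_bounded hGs ?_
    rintro ⟨k, i⟩
    rw [hF, hG, Real.norm_eq_abs, abs_mul, abs_of_nonneg (hw k)]
    refine mul_le_mul_of_nonneg_left ?_ (hw k)
    have := hC₃ (r * z k / a i)
    rwa [norm_div] at this
  have hErow : ∀ k, (Summable fun i => E (k, i)) ∧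
      ∑' i, E (k, i) ≤ C₄ * (w k * min (r * ‖z k‖) ((r * ‖z k‖) ^ 2)) := by
    intro k
    have s1 : Summable fun i => c₁ * (r * ‖z k‖) * γ i := hγs.mul_left _
    have s2 : Summable fun i => c₂ * (r * ‖z k‖) ^ 2 * ‖b i‖ ^ 2 := hbs.mul_left _
    have s3 : Summable fun i =>
        min (c₁ * (r * ‖z k‖) * γ i) (c₂ * (r * ‖z k‖) ^ 2 * ‖b i‖ ^ 2) :=
      Summable.of_nonneg_of_le (hE1 k) (fun i => min_le_left _ _) s1
    simp only [hE]
    refine ⟨s3.mul_left _, ?_⟩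
    rw [tsum_mul_left]
    have e1 : ∑' i, min (c₁ * (r * ‖z k‖) * γ i) (c₂ * (r * ‖z k‖) ^ 2 * ‖b i‖ ^ 2) ≤
        C₄ * (r * ‖z k‖) := by
      refine (s3.tsum_le_tsum (fun i => min_le_left _ _) s1).trans ?_
      rw [tsum_mul_left, ← hΓ, hC₄]
      have : 0 ≤ c₂ * B2 * (r * ‖z k‖) := by have := (hrzp k).le; positivity
      nlinarith
    have e2 : ∑' i, min (c₁ * (r * ‖z k‖) * γ i) (c₂ * (r * ‖z k‖) ^ 2 * ‖b i‖ ^ 2) ≤
        C₄ * (r * ‖z k‖) ^ 2 := by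
      refine (s3.tsum_le_tsum (fun i => min_le_right _ _) s2).trans ?_
      rw [tsum_mul_left, ← hB2, hC₄]
      have : 0 ≤ c₁ * Γ * (r * ‖z k‖) ^ 2 := by positivity
      nlinarith
    have e3 : ∑' i, min (c₁ * (r * ‖z k‖) * γ i) (c₂ * (r * ‖z k‖) ^ 2 * ‖b i‖ ^ 2) ≤
        C₄ * min (r * ‖z k‖) ((r * ‖z k‖) ^ 2) := by
      rw [mul_min_of_nonneg _ _ hC₄0]
      exact le_min e1 e2
    calc w k * ∑' i, min (c₁ * (r * ‖z k‖) * γ i) (c₂ * (r * ‖z k‖) ^ 2 * ‖b i‖ ^ 2)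
        ≤ w k * (C₄ * min (r * ‖z k‖) ((r * ‖z k‖) ^ 2)) := mul_le_mul_of_nonneg_left e3 (hw k)
      _ = _ := by ring
  have hEs : Summable E := by
    rw [summable_prod_of_nonneg hE0]
    exact ⟨fun k => (hErow k).1, Summable.of_nonneg_of_le
      (fun k => tsum_nonneg fun i => hE0 (k, i)) (fun k => (hErow k).2) (hmin.mul_left C₄)⟩
  have hrow : ∀ k, ∑' i, F (k, i) = w k * Real.circleAverage U (r * z k) (δ * ‖r * z k‖) := by
    intro k
    simp only [hF]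
    rw [tsum_mul_left, ((hCa U hU (r * z k) (hrz k)).1).tsum_eq]
  have hsum1 : Summable fun k => ∑' i, F (k, i) := hFs.prod
  refine ⟨by simpa only [hrow] using hsum1, hmin, ?_⟩
  have hcomm : ∑' k, ∑' i, F (k, i) = ∑' i, ∑' k, F (k, i) :=
    (Summable.tsum_comm (f := fun k i => F (k, i)) hFs).symm
  have hcommE : ∑' k, ∑' i, E (k, i) = ∑' i, ∑' k, E (k, i) :=
    (Summable.tsum_comm (f := fun k i => E (k, i)) hEs).symm
  simp only [hrow] at hcomm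
  have hF' : Summable fun p : ι × ℕ => F p.swap := (Equiv.prodComm ι ℕ).summable_iff.2 hFs
  have hE' : Summable fun p : ι × ℕ => E p.swap := (Equiv.prodComm ι ℕ).summable_iff.2 hEs
  have hcolF : Summable fun i => ∑' k, F (k, i) := hF'.prod
  have hcolE : Summable fun i => ∑' k, E (k, i) := hE'.prod
  -- the inequality for a fixed zero
  have key : ∀ i, KK 1 (r * z₀ / a i) ≤
      (∑' k, F (k, i) + ∑' k, E (k, i)) + C₁ * r * γ i := by
    intro i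
    have him' : (b i).im ≤ 0 := by
      have := hγ0 i
      rw [hγ, ← hb] at this
      linarith
    have hne : r * z₀ * b i ≠ 1 := by
      rw [hb, mul_one_div]
      intro e
      exact hr0 i ((div_eq_one_iff_eq (ha i)).1 e)
    obtain ⟨β, hβ1, hβ2, hβ3⟩ := hC₁ r hr (b i) him' hne
    have hγi : -(b i).im = γ i := by rw [hγ, hb]
    rw [hγi] at hβ1 hβ3
    have h1 : KK 1 (r * z₀ * β) ≤ ∑' k, w k * KD 1 δ (r * z k * β) := by
      rcases eq_or_ne β 0 with h0 | h0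
      · rw [h0]
        simp only [Complex.ofReal_zero, mul_zero, n1_KK_zero, n1_KD_zero, tsum_zero, le_refl]
      · have hβc : (β : ℂ) ≠ 0 := by exact_mod_cast h0
        have hζ : (1 : ℂ) / (r * β) ∈ XX 1 := by
          have him0 : ((1 : ℂ) / (r * β)).im = 0 := by
            have : (1 : ℂ) / (r * β) = ((1 / (r * β) : ℝ) : ℂ) := by push_cast; ring
            rw [this, Complex.ofReal_im]
          refine ⟨one_div_ne_zero (mul_ne_zero hrc hβc), by rw [him0], fun _ => him0⟩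
        have h2 := hd _ hζ (by
          intro e
          apply hβ2
          rw [← e]
          field_simp)
        have e1 : z₀ / (1 / (r * β)) = r * z₀ * β := by field_simp
        have e2 : ∀ k, z k / (1 / (r * β)) = r * z k * β := fun k => by field_simp
        rw [e1] at h2
        simpa only [e2] using h2
    -- comparison
    have h2 : ∀ k, |KD 1 δ (r * z k * β) - KD 1 δ (r * z k / a i)| ≤
        min (c₁ * (r * ‖z k‖) * γ i) (c₂ * (r * ‖z k‖) ^ 2 * ‖b i‖ ^ 2) := by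
      intro k
      have e0 : (r : ℂ) * z k / a i = r * z k * b i := by rw [hb, mul_one_div]
      rw [e0]
      refine le_min ?_ ?_
      · refine (hC₂ _ _).trans ?_
        rw [← mul_sub, norm_mul, hnorm]
        calc C₂ * (r * ‖z k‖ * ‖(β : ℂ) - b i‖) ≤ C₂ * (r * ‖z k‖ * (3 * γ i)) := by
              have := (hrzp k).le
              gcongr
          _ = c₁ * (r * ‖z k‖) * γ i := by rw [hc₁]; ring
      · have e1 : |KD 1 δ (r * z k * β)| ≤ C₃ * (16 * ((r * ‖z k‖) ^ 2 * ‖b i‖ ^ 2)) := by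
          refine (hC₃ _).trans (mul_le_mul_of_nonneg_left ((min_le_right _ _).trans ?_) hC₃0.le)
          rw [norm_mul, hnorm]
          have h5 : ‖(β : ℂ)‖ ≤ 4 * ‖b i‖ := by
            calc ‖(β : ℂ)‖ = ‖((β : ℂ) - b i) + b i‖ := by ring_nf
              _ ≤ ‖(β : ℂ) - b i‖ + ‖b i‖ := norm_add_le _ _
              _ ≤ 3 * ‖b i‖ + ‖b i‖ := by linarith [hγb i]
              _ = 4 * ‖b i‖ := by ring
          calc (r * ‖z k‖ * ‖(β : ℂ)‖) ^ 2 ≤ (r * ‖z k‖ * (4 * ‖b i‖)) ^ 2 := by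
                have := (hrzp k).le
                gcongr
            _ = 16 * ((r * ‖z k‖) ^ 2 * ‖b i‖ ^ 2) := by ring
        have e2 : |KD 1 δ (r * z k * b i)| ≤ C₃ * ((r * ‖z k‖) ^ 2 * ‖b i‖ ^ 2) := by
          refine (hC₃ _).trans (mul_le_mul_of_nonneg_left ((min_le_right _ _).trans ?_) hC₃0.le)
          rw [norm_mul, hnorm, mul_pow]
        refine (abs_sub _ _).trans ?_
        rw [hc₂]
        linarith
    have hcF : Summable fun k => F (k, i) := hF'.prod_factor i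
    have hcE : Summable fun k => E (k, i) := hE'.prod_factor i
    have hcB : Summable fun k => w k * KD 1 δ (r * z k * β) := by
      refine Summable.of_norm_bounded (hcF.abs.add hcE) fun k => ?_
      rw [Real.norm_eq_abs, hF, hE, abs_mul, abs_mul, abs_of_nonneg (hw k), ← mul_add]
      refine mul_le_mul_of_nonneg_left ?_ (hw k)
      have h3 := h2 k
      have h4 : |KD 1 δ (r * z k * β)| ≤ |KD 1 δ (r * z k / a i)| +
          |KD 1 δ (r * z k * β) - KD 1 δ (r * z k / a i)| := by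
        have := abs_add_le (KD 1 δ (r * z k / a i))
          (KD 1 δ (r * z k * β) - KD 1 δ (r * z k / a i))
        rwa [add_sub_cancel] at this
      linarith
    have h3 : ∑' k, w k * KD 1 δ (r * z k * β) ≤ ∑' k, F (k, i) + ∑' k, E (k, i) := by
      rw [← hcF.tsum_add hcE]
      refine hcB.tsum_le_tsum (fun k => ?_) (hcF.add hcE)
      rw [hF, hE, ← mul_add]
      refine mul_le_mul_of_nonneg_left ?_ (hw k)
      have := (abs_le.1 (h2 k)).2
      linarith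
    have e0 : (r : ℂ) * z₀ / a i = r * z₀ * b i := by rw [hb, mul_one_div]
    rw [e0]
    linarith
  have hfin := hasSum_le key (hU (r * z₀) (mul_ne_zero hrc hz₀) hr0)
    (((hcolF.hasSum).add hcolE.hasSum).add ((hγs.mul_left (C₁ * r)).hasSum))
  rw [tsum_mul_left, ← hΓ, ← hcomm, ← hcommE] at hfin
  have hEle : ∑' k, ∑' i, E (k, i) ≤
      C₄ * ∑' k, w k * min (r * ‖z k‖) ((r * ‖z k‖) ^ 2) := by
    rw [← tsum_mul_left]
    exact (hEs.prod).tsum_le_tsum (fun k => (hErow k).2) (hmin.mul_left C₄)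
  have hmin0 : 0 ≤ ∑' k, w k * min (r * ‖z k‖) ((r * ‖z k‖) ^ 2) :=
    tsum_nonneg fun k => mul_nonneg (hw k) (le_min (hrzp k).le (by positivity))
  have hx1 : 0 ≤ (C₄ + 1) * r := by positivity
  have hx2 : 0 ≤ (C₁ * Γ + 1) * ∑' k, w k * min (r * ‖z k‖) ((r * ‖z k‖) ^ 2) := by positivity
  have e1 : (C₁ * Γ + C₄ + 1) * r = C₁ * r * Γ + (C₄ + 1) * r := by ring
  have e2 : (C₁ * Γ + C₄ + 1) * ∑' k, w k * min (r * ‖z k‖) ((r * ‖z k‖) ^ 2) =
      C₄ * ∑' k, w k * min (r * ‖z k‖) ((r * ‖z k‖) ^ 2) +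
      (C₁ * Γ + 1) * ∑' k, w k * min (r * ‖z k‖) ((r * ‖z k‖) ^ 2) := by ring
  rw [e1, e2]
  linarith

/-- `s` is small against `s^ρ` -/
lemma n1_linear {ρ : ℝ} (hρ1 : 1 < ρ) (D : ℝ) {c : ℝ} (hc : 0 < c) :
    ∀ᶠ s : ℝ in atTop, D * s ≤ c * s ^ ρ := by
  have h1 : ∀ᶠ s : ℝ in atTop, D / c ≤ s ^ (ρ - 1) :=
    (tendsto_rpow_atTop (by linarith)).eventually_ge_atTop _
  filter_upwards [h1, eventually_gt_atTop 0] with s h2 h3
  rw [div_le_iff₀ hc] at h2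
  have h4 : s ^ ρ = s ^ (ρ - 1) * s := by
    rw [← Real.rpow_add_one h3.ne']
    congr 1; ring
  rw [h4]
  calc D * s ≤ (s ^ (ρ - 1) * c) * s := mul_le_mul_of_nonneg_right h2 h3.le
    _ = c * (s ^ (ρ - 1) * s) := by ring

lemma n1_avg_le {ρ : ℝ} {f : ℂ → ℂ} (hf : InClass ρ f) (hρ1 : 1 < ρ) {g : ℝ → ℝ}
    (hg : ∀ θ, ind ρ f θ = g θ) (hgp : ∀ θ, g (θ + 2 * π) = g θ) (hgc : Continuous g)
    (m : ℕ) (A : ℝ) (B : ℂ) {δ : ℝ} (hδ : δ ∈ Ioo (0 : ℝ) 1) {z : ℂ} (hz : z ≠ 0)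
    (hzeros : {u | f u = 0}.Countable) {ε : ℝ} (hε : 0 < ε) :
    ∀ᶠ r : ℝ in atTop,
      Real.circleAverage (fun u => Real.log ‖f u‖ - m * Real.log ‖u‖ - A - (B * u).re)
        (r * z) (δ * ‖r * z‖) ≤
        r ^ ρ * (Real.circleAverage (HH ρ g) z (δ * ‖z‖) + ε) := by
  have hρ : 0 < ρ := by linarith
  have h1 := avg_le_HH hf hρ hg hgp hgc m A hδ hz hzeros (half_pos hε)
  have h2 := n1_linear hρ1 (‖B‖ * ‖z‖) (half_pos hε)
  filter_upwards [h1, h2, eventually_gt_atTop 0] with r h3 h4 hr0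
  have i1 : CircleIntegrable (fun u => Real.log ‖f u‖) (r * z) (δ * ‖(r : ℂ) * z‖) :=
    MeromorphicOn.circleIntegrable_log_norm
      (fun u _ => (hf.entire.analyticAt u).meromorphicAt)
  have i2 : CircleIntegrable (fun u : ℂ => Real.log ‖u‖) (r * z) (δ * ‖(r : ℂ) * z‖) :=
    MeromorphicOn.circleIntegrable_log_norm (f := fun u => u)
      (fun u _ => (differentiable_id.analyticAt u).meromorphicAt)
  have i3 : CircleIntegrable (fun u => Real.log ‖f u‖ - m * Real.log ‖u‖ - A) (r * z)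
      (δ * ‖(r : ℂ) * z‖) :=
    (i1.sub (i2.const_smul (a := (m : ℝ)))).sub (circleIntegrable_const A _ _)
  have i4 := avgsum_circleIntegrable_re 1 B (r * z) (δ * ‖(r : ℂ) * z‖)
  have e4 := avgsum_circleAverage_re 1 B (r * z) (δ * ‖(r : ℂ) * z‖)
  simp only [Nat.cast_one, one_mul] at i4 e4
  rw [Real.circleAverage_fun_sub i3 i4, e4]
  have h5 : -(B * (r * z)).re ≤ ‖B‖ * ‖z‖ * r := by
    refine (neg_le_abs _).trans ((Complex.abs_re_le_norm _).trans (le_of_eq ?_))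
    rw [norm_mul, norm_mul, Complex.norm_real, Real.norm_of_nonneg hr0.le]
    ring
  have h6 : r ^ ρ * (Real.circleAverage (HH ρ g) z (δ * ‖z‖) + ε) =
      r ^ ρ * (Real.circleAverage (HH ρ g) z (δ * ‖z‖) + ε / 2) + ε / 2 * r ^ ρ := by ring
  rw [h6]
  linarith

theorem relSub_one {ρ : ℝ} {f : ℂ → ℂ} (hf : InClass ρ f) (hρ1 : 1 < ρ) (hρ2 : ρ < 2)
    {g : ℝ → ℝ} (hg : ∀ θ, ind ρ f θ = g θ) : RelSub 1 ρ g := by
  intro δ hδ z₀ hz₀ w z hw hz hs hd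
  have hρ : 0 < ρ := by linarith
  have hgp : ∀ θ, g (θ + 2 * π) = g θ := by
    intro θ
    have h := ind_add_two_pi ρ f θ
    rw [hg, hg] at h
    exact_mod_cast h
  have hgc : Continuous g := continuous_of_trigConvex hρ (trigConvex_of_ind hf hρ hg)
  obtain ⟨K, hK0, hKf⟩ := finite_type hf hρ hg
  obtain ⟨ι, hι, a, m, A, B, ha, ⟨K', hK'0, hK'⟩, hrep, hfac⟩ :=
    exists_zeros_one hf.entire ⟨-I, hf.zero_free (-I) (by simp)⟩ hρ1 hρ2 hKf
  have ha0 : ∀ i, a i ≠ 0 := fun i => (ha i).1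
  obtain ⟨him, hims⟩ := summable_im hf.zero_free hf.norm_le ha hfac
  obtain ⟨U, hUdef⟩ : ∃ U : ℂ → ℝ,
      U = fun u => Real.log ‖f u‖ - m * Real.log ‖u‖ - A - (B * u).re := ⟨_, rfl⟩
  have hU : ∀ u : ℂ, u ≠ 0 → (∀ i, u ≠ a i) → HasSum (fun i => KK 1 (u / a i)) (U u) := by
    intro u hu hui
    simp only [hUdef]
    exact (hrep u hu hui).2
  have hzeros : {u | f u = 0}.Countable := by
    refine ((countable_singleton (0 : ℂ)).union (countable_range a)).mono ?_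
    intro u hu
    by_contra hcon
    rw [mem_union, not_or, mem_singleton_iff, mem_range, not_exists] at hcon
    exact (hrep u hcon.1 (fun i e => hcon.2 i e.symm)).1 hu
  obtain ⟨Ca, hCa0, hCa⟩ := avg_one hδ hρ1 hρ2 ha0 hK'
  obtain ⟨Cd, hCd0, hCd⟩ := domination_one hδ hρ1 hρ2 ha0 him hims hK' hU hz₀ hw hz hs hd
  -- bounds for `g` and for the averages of `HH ρ g`
  obtain ⟨G, hG⟩ : ∃ G : ℝ, ∀ u : ℂ, |HH ρ g u| ≤ G * ‖u‖ ^ ρ := by
    obtain ⟨G, hG⟩ := (isCompact_Icc (a := -π) (b := π)).exists_bound_of_continuousOn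
      hgc.continuousOn
    refine ⟨G, fun u => ?_⟩
    rw [HH, abs_mul, abs_of_nonneg (Real.rpow_nonneg (norm_nonneg _) _), mul_comm]
    exact mul_le_mul_of_nonneg_right (hG _ ⟨(Complex.neg_pi_lt_arg u).le, Complex.arg_le_pi u⟩)
      (Real.rpow_nonneg (norm_nonneg _) _)
  have hG0 : 0 ≤ G := by
    have := (abs_nonneg _).trans (hG 1)
    rwa [norm_one, Real.one_rpow, mul_one] at this
  obtain ⟨avg, havg⟩ : ∃ avg : ℕ → ℝ, ∀ k,
      avg k = Real.circleAverage (HH ρ g) (z k) (δ * ‖z k‖) := ⟨fun k => _, fun _ => rfl⟩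
  obtain ⟨C₁, hC₁⟩ : ∃ C₁ : ℝ, C₁ = G * 2 ^ ρ := ⟨_, rfl⟩
  have hC₁0 : 0 ≤ C₁ := by rw [hC₁]; positivity
  have havgb : ∀ k, |avg k| ≤ C₁ * ‖z k‖ ^ ρ := by
    intro k
    have hi := circleIntegrable_HH (ρ := ρ) hgp hgc hδ (hz k)
    have hb : ∀ u ∈ Metric.sphere (z k) |δ * ‖z k‖|, |HH ρ g u| ≤ C₁ * ‖z k‖ ^ ρ := by
      intro u hu
      have h1 := (norm_on_circle hδ hu).2
      have h2 : ‖u‖ ^ ρ ≤ 2 ^ ρ * ‖z k‖ ^ ρ := by
        rw [← Real.mul_rpow (by norm_num) (norm_nonneg _)]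
        exact Real.rpow_le_rpow (norm_nonneg _) h1 hρ.le
      calc |HH ρ g u| ≤ G * ‖u‖ ^ ρ := hG u
        _ ≤ G * (2 ^ ρ * ‖z k‖ ^ ρ) := mul_le_mul_of_nonneg_left h2 hG0
        _ = C₁ * ‖z k‖ ^ ρ := by rw [hC₁]; ring
    rw [havg, abs_le]
    constructor
    · have := Real.circleAverage_mono (circleIntegrable_const (-(C₁ * ‖z k‖ ^ ρ)) (z k)
        (δ * ‖z k‖)) hi (fun u hu => (abs_le.1 (hb u hu)).1)
      rwa [Real.circleAverage_const] at this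
    · exact Real.circleAverage_mono_on_of_le_circle hi (fun u hu => (abs_le.1 (hb u hu)).2)
  have havgs : Summable fun k => w k * avg k := by
    refine Summable.of_norm_bounded (hs.mul_left C₁) fun k => ?_
    rw [Real.norm_eq_abs, abs_mul, abs_of_nonneg (hw k)]
    calc w k * |avg k| ≤ w k * (C₁ * ‖z k‖ ^ ρ) := mul_le_mul_of_nonneg_left (havgb k) (hw k)
      _ = C₁ * (w k * ‖z k‖ ^ ρ) := by ring
  -- the excess
  obtain ⟨ub, hub⟩ : ∃ ub : ℝ → ℕ → ℝ, ∀ r k,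
      ub r k = Real.circleAverage U (r * z k) (δ * ‖r * z k‖) := ⟨fun r k => _, fun _ _ => rfl⟩
  obtain ⟨e, he⟩ : ∃ e : ℝ → ℕ → ℝ, ∀ r k, e r k = max 0 (r ^ (-ρ) * ub r k - avg k) :=
    ⟨fun r k => max 0 (r ^ (-ρ) * ub r k - avg k), fun _ _ => rfl⟩
  have he0 : ∀ r k, 0 ≤ e r k := fun r k => by rw [he]; exact le_max_left _ _
  have hnormr : ∀ (r : ℝ) k, 0 < r → ‖(r : ℂ) * z k‖ = r * ‖z k‖ := fun r k hr => by
    rw [norm_mul, Complex.norm_real, Real.norm_of_nonneg hr.le]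
  have heb : ∀ r k, 0 < r → e r k ≤ (Ca + C₁) * ‖z k‖ ^ ρ := by
    intro r k hr
    have hrz : (r : ℂ) * z k ≠ 0 := mul_ne_zero (by exact_mod_cast hr.ne') (hz k)
    have h1 := (le_abs_self _).trans (hCa U hU (r * z k) hrz).2
    rw [← hub, hnormr r k hr, Real.mul_rpow hr.le (norm_nonneg _)] at h1
    have h2 : r ^ (-ρ) * ub r k ≤ Ca * ‖z k‖ ^ ρ := by
      rw [Real.rpow_neg hr.le, inv_mul_le_iff₀ (Real.rpow_pos_of_pos hr _)]
      linarith
    have h3 := (abs_le.1 (havgb k)).1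
    have h4 : 0 ≤ ‖z k‖ ^ ρ := Real.rpow_nonneg (norm_nonneg _) _
    rw [he]
    refine max_le (mul_nonneg (by linarith) h4) ?_
    rw [add_mul]
    linarith
  have het : ∀ k, Tendsto (fun r => e r k) atTop (𝓝 0) := by
    intro k
    rw [Metric.tendsto_atTop']
    intro ε hε
    have h1 := n1_avg_le hf hρ1 hg hgp hgc m A B hδ (hz k) hzeros (half_pos hε)
    obtain ⟨N, hN⟩ := eventually_atTop.1 (h1.and (eventually_gt_atTop 0))
    refine ⟨N, fun r hr => ?_⟩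
    obtain ⟨h2, h3⟩ := hN r hr.le
    rw [Real.dist_eq, sub_zero, abs_of_nonneg (he0 r k), he]
    refine max_lt hε ?_
    rw [← hUdef, ← hub, ← havg] at h2
    have h4 : r ^ (-ρ) * ub r k ≤ avg k + ε / 2 := by
      rw [Real.rpow_neg h3.le, inv_mul_le_iff₀ (Real.rpow_pos_of_pos h3 _)]
      exact h2
    linarith
  have hEt : Tendsto (fun r => ∑' k, w k * e r k) atTop (𝓝 (∑' _k : ℕ, (0 : ℝ))) := by
    refine tendsto_tsum_of_dominated_convergence (bound := fun k => (Ca + C₁) * (w k * ‖z k‖ ^ ρ))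
      (hs.mul_left _) (fun k => ?_) ?_
    · have := (het k).const_mul (w k)
      rwa [mul_zero] at this
    · filter_upwards [eventually_gt_atTop 0] with r hr k
      rw [Real.norm_of_nonneg (mul_nonneg (hw k) (he0 r k))]
      calc w k * e r k ≤ w k * ((Ca + C₁) * ‖z k‖ ^ ρ) :=
            mul_le_mul_of_nonneg_left (heb r k hr) (hw k)
        _ = _ := by ring
  rw [tsum_zero] at hEt
  -- the additional error
  obtain ⟨mu, hmu⟩ : ∃ mu : ℝ → ℕ → ℝ, ∀ r k,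
      mu r k = r ^ (-ρ) * min (r * ‖z k‖) ((r * ‖z k‖) ^ 2) := ⟨fun r k => _, fun _ _ => rfl⟩
  have hzp : ∀ k, 0 < ‖z k‖ := fun k => norm_pos_iff.2 (hz k)
  have hmu0 : ∀ r k, 0 < r → 0 ≤ mu r k := by
    intro r k hr
    rw [hmu]
    have := hzp k
    exact mul_nonneg (Real.rpow_nonneg hr.le _) (le_min (by positivity) (by positivity))
  have hmub : ∀ r k, 0 < r → mu r k ≤ ‖z k‖ ^ ρ := by
    intro r k hr
    rw [hmu, Real.rpow_neg hr.le, inv_mul_le_iff₀ (Real.rpow_pos_of_pos hr _),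
      ← Real.mul_rpow hr.le (norm_nonneg _)]
    exact n1_min_le_rpow hρ1 hρ2 (mul_pos hr (hzp k))
  have hpow0 : Tendsto (fun r : ℝ => r ^ (-(ρ - 1))) atTop (𝓝 0) :=
    tendsto_rpow_neg_atTop (by linarith)
  have hpow : ∀ r : ℝ, 0 < r → r ^ (-ρ) * r = r ^ (-(ρ - 1)) := by
    intro r hr
    rw [← Real.rpow_add_one hr.ne']
    congr 1; ring
  have hmut : ∀ k, Tendsto (fun r => mu r k) atTop (𝓝 0) := by
    intro k
    have h1 : Tendsto (fun r : ℝ => r ^ (-(ρ - 1)) * ‖z k‖) atTop (𝓝 0) := by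
      simpa using hpow0.mul_const ‖z k‖
    refine squeeze_zero' ?_ ?_ h1
    · filter_upwards [eventually_gt_atTop 0] with r hr using hmu0 r k hr
    · filter_upwards [eventually_gt_atTop 0] with r hr
      rw [hmu, ← hpow r hr, mul_assoc]
      exact mul_le_mul_of_nonneg_left (min_le_left _ _) (Real.rpow_nonneg hr.le _)
  have hMt : Tendsto (fun r => ∑' k, w k * mu r k) atTop (𝓝 (∑' _k : ℕ, (0 : ℝ))) := by
    refine tendsto_tsum_of_dominated_convergence (bound := fun k => w k * ‖z k‖ ^ ρ)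
      hs (fun k => ?_) ?_
    · have := (hmut k).const_mul (w k)
      rwa [mul_zero] at this
    · filter_upwards [eventually_gt_atTop 0] with r hr k
      rw [Real.norm_of_nonneg (mul_nonneg (hw k) (hmu0 r k hr))]
      exact mul_le_mul_of_nonneg_left (hmub r k hr) (hw k)
  rw [tsum_zero] at hMt
  obtain ⟨X, hX⟩ : ∃ X : ℝ → ℝ, ∀ r, X r = ∑' k, w k * e r k +
      (Cd * r ^ (-(ρ - 1)) + Cd * ∑' k, w k * mu r k) := ⟨fun r => _, fun _ => rfl⟩
  have hXt : Tendsto X atTop (𝓝 0) := by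
    have h1 := hEt.add ((hpow0.const_mul Cd).add (hMt.const_mul Cd))
    simp only [mul_zero, add_zero] at h1
    exact h1.congr fun r => (hX r).symm
  -- the main inequality
  have main : ∀ r : ℝ, 0 < r → f (r * z₀) ≠ 0 →
      U (r * z₀) ≤ r ^ ρ * (∑' k, w k * avg k + X r) := by
    intro r hr hfr
    have hr0 : ∀ i, (r : ℂ) * z₀ ≠ a i := fun i e => hfr (by rw [e]; exact (ha i).2)
    obtain ⟨h1, h1', h2⟩ := hCd r hr hr0
    simp only [← hub] at h1 h2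
    have hes : Summable fun k => w k * e r k := by
      refine Summable.of_nonneg_of_le (fun k => mul_nonneg (hw k) (he0 r k)) (fun k => ?_)
        (hs.mul_left (Ca + C₁))
      calc w k * e r k ≤ w k * ((Ca + C₁) * ‖z k‖ ^ ρ) :=
            mul_le_mul_of_nonneg_left (heb r k hr) (hw k)
        _ = _ := by ring
    have h3 : ∑' k, w k * ub r k ≤ r ^ ρ * (∑' k, w k * avg k + ∑' k, w k * e r k) := by
      rw [← Summable.tsum_add havgs hes, ← tsum_mul_left]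
      refine h1.tsum_le_tsum (fun k => ?_) ((havgs.add hes).mul_left _)
      have h3 : r ^ (-ρ) * ub r k ≤ avg k + e r k := by
        have := le_max_right 0 (r ^ (-ρ) * ub r k - avg k)
        rw [← he] at this
        linarith
      rw [Real.rpow_neg hr.le, inv_mul_le_iff₀ (Real.rpow_pos_of_pos hr _)] at h3
      calc w k * ub r k ≤ w k * (r ^ ρ * (avg k + e r k)) := mul_le_mul_of_nonneg_left h3 (hw k)
        _ = _ := by ring
    have hrr : r ^ ρ * r ^ (-ρ) = 1 := by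
      rw [← Real.rpow_add hr, add_neg_cancel, Real.rpow_zero]
    have h4 : ∑' k, w k * min (r * ‖z k‖) ((r * ‖z k‖) ^ 2) = r ^ ρ * ∑' k, w k * mu r k := by
      rw [← tsum_mul_left]
      refine tsum_congr fun k => ?_
      rw [hmu]
      linear_combination (-(w k * min (r * ‖z k‖) ((r * ‖z k‖) ^ 2))) * hrr
    have h5 : r = r ^ ρ * r ^ (-(ρ - 1)) := by
      rw [← hpow r hr]
      linear_combination (-r) * hrr
    rw [h4] at h2
    have h6 : Cd * r = r ^ ρ * (Cd * r ^ (-(ρ - 1))) := by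
      linear_combination Cd * h5
    rw [hX]
    calc U (r * z₀) ≤ _ := h2
      _ ≤ r ^ ρ * (∑' k, w k * avg k + ∑' k, w k * e r k) + r ^ ρ * (Cd * r ^ (-(ρ - 1))) +
          Cd * (r ^ ρ * ∑' k, w k * mu r k) := by linarith
      _ = _ := by ring
  -- conclusion
  have hgoal : HH ρ g z₀ ≤ ∑' k, w k * avg k := by
    by_contra hcon
    rw [not_le] at hcon
    obtain ⟨S, hS⟩ : ∃ S : ℝ, S = ∑' k, w k * avg k := ⟨_, rfl⟩
    rw [← hS] at hcon
    have hz₀' : 0 < ‖z₀‖ := norm_pos_iff.2 hz₀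
    obtain ⟨T, hT⟩ : ∃ T : ℝ, T = ‖z₀‖ ^ ρ := ⟨_, rfl⟩
    have hT0 : 0 < T := by rw [hT]; exact Real.rpow_pos_of_pos hz₀' _
    rw [HH, ← hT, mul_comm, ← div_lt_iff₀ hT0] at hcon
    obtain ⟨b, hb1, hb2⟩ := exists_between hcon
    have hlt : ((b : ℝ) : EReal) < ind ρ f z₀.arg := by rw [hg]; exact_mod_cast hb2
    have hfr := frequently_of_lt_ind hlt
    obtain ⟨η, hη⟩ : ∃ η : ℝ, η = (b - S / T) / 3 := ⟨_, rfl⟩
    have hη0 : 0 < η := by rw [hη]; linarith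
    have ev1 := eventually_log_le hρ m A hη0
    have ev1' := n1_linear hρ1 ‖B‖ hη0
    have ev2 : ∀ᶠ r : ℝ in atTop, X r < η * T :=
      hXt.eventually_lt_const (mul_pos hη0 hT0)
    have ev3 : ∀ᶠ s : ℝ in atTop, X (s / ‖z₀‖) < η * T :=
      (tendsto_id.atTop_div_const hz₀').eventually ev2
    obtain ⟨s, h1, h2, h2', h3, h4⟩ := (hfr.and_eventually (ev1.and (ev1'.and (ev3.and
      (eventually_gt_atTop 0))))).exists
    have hrpos : 0 < s / ‖z₀‖ := div_pos h4 hz₀'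
    have hray : ((s / ‖z₀‖ : ℝ) : ℂ) * z₀ = ray s z₀.arg := by
      have h5 : ray ‖z₀‖ z₀.arg = z₀ := Complex.norm_mul_exp_arg_mul_I z₀
      have h6 : ((s / ‖z₀‖ : ℝ) : ℂ) * ray ‖z₀‖ z₀.arg = ray s z₀.arg := by
        rw [ray, ray]
        push_cast
        have : ((‖z₀‖ : ℝ) : ℂ) ≠ 0 := by exact_mod_cast hz₀'.ne'
        field_simp
      rwa [h5] at h6
    have hf0 : f (ray s z₀.arg) ≠ 0 := by
      intro h0
      rw [h0, norm_zero] at h1
      exact absurd h1 (not_lt.2 (Real.exp_pos _).le)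
    have h5 := main (s / ‖z₀‖) hrpos (by rw [hray]; exact hf0)
    rw [hray] at h5
    have h6 : b * s ^ ρ < Real.log ‖f (ray s z₀.arg)‖ :=
      (Real.lt_log_iff_exp_lt (norm_pos_iff.2 hf0)).2 h1
    have h7 : U (ray s z₀.arg) =
        Real.log ‖f (ray s z₀.arg)‖ - m * Real.log s - A - (B * ray s z₀.arg).re := by
      rw [hUdef]
      simp only [norm_ray h4.le]
    have h7' : (B * ray s z₀.arg).re ≤ ‖B‖ * s := by
      refine (Complex.re_le_norm _).trans ?_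
      rw [norm_mul, norm_ray h4.le]
    rw [h7, ← hS, Real.div_rpow h4.le hz₀'.le, ← hT] at h5
    have h8 : s ^ ρ / T * (S + X (s / ‖z₀‖)) ≤ s ^ ρ / T * (S + η * T) :=
      mul_le_mul_of_nonneg_left (by linarith) (by positivity)
    have h9 : s ^ ρ / T * (S + η * T) = s ^ ρ * (S / T + η) := by field_simp
    have h10 : 0 < s ^ ρ := Real.rpow_pos_of_pos h4 _
    have h11 : b = S / T + 3 * η := by rw [hη]; ring
    rw [h9] at h8
    rw [h11] at h6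
    nlinarith
  simpa only [havg] using hgoal

end HBInd
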