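import Pool.Agent.HBInd.FinalB
import Pool.Agent.HBInd.NecOne
import Pool.Agent.HBInd.MinimalP

/-!
# Real valued indicators, order between one and two
-/

namespace HBInd

open Complex Filter Topology Set Bornology
open scoped Real ComplexConjugate

theorem real_iff_gt_one {ρ : ℝ} (hρ1 : 1 < ρ) (hρ2 : ρ < 2) (h : ℝ → ℝ) :
    (∃ f : ℂ → ℂ, InClass ρ f ∧ ∀ θ, ind ρ f θ = (h θ : EReal)) ↔
      (∀ θ, h (θ + 2 * π) = h θ) ∧ Continuous h ∧ RelSub 1 ρ h := by
  have hρ : 0 < ρ := by linarith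
  constructor
  · rintro ⟨f, hf, hfh⟩
    refine ⟨fun θ => ?_, continuous_of_trigConvex hρ (trigConvex_of_ind hf hρ hfh),
      relSub_one hf hρ1 hρ2 hfh⟩
    have h1 := ind_add_two_pi ρ f θ
    rw [hfh, hfh] at h1
    exact_mod_cast h1
  · rintro ⟨hper, hc, hrel⟩
    by_cases hne : ∃ θ, h θ ≠ 0
    · exact exists_of_relSub (p := 1) (by norm_num) (by simpa using hρ1)
        (by norm_num; linarith) hper hc hrel hne
    · push Not at hne
      obtain ⟨f, hf, hf0⟩ := exists_minimal_gt_one hρ1 hρ2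
      exact ⟨f, hf, fun θ => by rw [hf0, hne, EReal.coe_zero]⟩

end HBInd
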