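import Pool.Agent.HBInd.Basic

/-!
# Canonical products of genus one with real zeros

`f z = ∏ (1 - c_i z) e^{c_i z}`, `c_i` real, `∑ c_i² < ∞`. The terms are `1 + O(|c_i z|²)` on bounded sets
(`|(1 - w) e^w - 1| ≤ |w|² e^{|w|}`), so the product converges locally uniformly
(`multipliable_one_add_of_summable` and the lemmas used in `Pool.Agent.HBInd.Prod`), `f (conj z)` is the
conjugate of `f z`. Growth: `log |(1 - w) e^w| ≤ 2 |w|^σ` for `1 ≤ σ ≤ 2` (`≤ |w|² / 2` for all `w`, and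
`≤ 2 |w|` if `|w| ≥ 1`).
-/

namespace HBInd

open Complex Filter Topology Set Bornology
open scoped Real ComplexConjugate

/-- `(1 - w) e^w - 1` -/
private noncomputable def gt (w : ℂ) : ℂ := (1 - w) * Complex.exp w - 1

private lemma one_add_gt (w : ℂ) : 1 + gt w = (1 - w) * Complex.exp w := by
  rw [gt]
  ring

private lemma gt_differentiable : Differentiable ℂ gt := by
  unfold gt
  fun_prop

private lemma norm_gt_le (w : ℂ) : ‖gt w‖ ≤ ‖w‖ ^ 2 * Real.exp ‖w‖ := by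
  have hd : ∀ x ∈ Metric.closedBall (0 : ℂ) ‖w‖,
      HasDerivWithinAt gt (-x * Complex.exp x) (Metric.closedBall (0 : ℂ) ‖w‖) x := by
    intro x _
    have h1 : HasDerivAt (fun y : ℂ => (1 - y) * Complex.exp y)
        ((0 - 1) * Complex.exp x + (1 - x) * Complex.exp x) x :=
      ((hasDerivAt_const x (1 : ℂ)).sub (hasDerivAt_id x)).mul (Complex.hasDerivAt_exp x)
    have h2 : HasDerivAt gt ((0 - 1) * Complex.exp x + (1 - x) * Complex.exp x) x :=
      h1.sub_const 1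
    have h3 : (0 - 1) * Complex.exp x + (1 - x) * Complex.exp x = -x * Complex.exp x := by ring
    rw [h3] at h2
    exact h2.hasDerivWithinAt
  have hb : ∀ x ∈ Metric.closedBall (0 : ℂ) ‖w‖, ‖-x * Complex.exp x‖ ≤ ‖w‖ * Real.exp ‖w‖ := by
    intro x hx
    rw [mem_closedBall_zero_iff] at hx
    rw [norm_mul, norm_neg, Complex.norm_exp]
    refine mul_le_mul hx (Real.exp_le_exp.2 ((Complex.re_le_norm x).trans hx))
      (Real.exp_pos _).le (norm_nonneg _)
  have h := (convex_closedBall (0 : ℂ) ‖w‖).norm_image_sub_le_of_norm_hasDerivWithin_le hd hb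
    (x := 0) (y := w) (by simp) (by simp)
  have h0 : gt 0 = 0 := by simp [gt]
  rw [h0, sub_zero, sub_zero] at h
  calc ‖gt w‖ ≤ ‖w‖ * Real.exp ‖w‖ * ‖w‖ := h
    _ = ‖w‖ ^ 2 * Real.exp ‖w‖ := by ring

private lemma abs_le_of_summable {ι : Type} {c : ι → ℝ} (hc : Summable fun i => (c i) ^ 2) :
    ∃ B : ℝ, 0 ≤ B ∧ ∀ i, |c i| ≤ B := by
  refine ⟨Real.sqrt (∑' i, (c i) ^ 2), Real.sqrt_nonneg _, fun i => ?_⟩
  rw [← Real.sqrt_sq_eq_abs]
  exact Real.sqrt_le_sqrt (hc.le_tsum i fun j _ => sq_nonneg _)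

private lemma norm_gt_factor {c B R : ℝ} {z : ℂ} (hB : 0 ≤ B) (hc : |c| ≤ B) (hz : ‖z‖ ≤ R) :
    ‖gt ((c : ℂ) * z)‖ ≤ c ^ 2 * (R ^ 2 * Real.exp (B * R)) := by
  have hn : ‖(c : ℂ) * z‖ = |c| * ‖z‖ := by
    rw [norm_mul, Complex.norm_real, Real.norm_eq_abs]
  have hR : 0 ≤ R := (norm_nonneg z).trans hz
  refine (norm_gt_le _).trans ?_
  rw [hn, mul_pow, sq_abs, mul_assoc]
  refine mul_le_mul_of_nonneg_left ?_ (sq_nonneg _)
  refine mul_le_mul (pow_le_pow_left₀ (norm_nonneg _) hz 2)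
    (Real.exp_le_exp.2 (mul_le_mul hc hz (norm_nonneg _) hB)) (Real.exp_pos _).le (sq_nonneg _)

private lemma summable_gt {ι : Type} {c : ι → ℝ} (hc : Summable fun i => (c i) ^ 2) (z : ℂ) :
    Summable fun i => ‖gt ((c i : ℂ) * z)‖ := by
  obtain ⟨B, hB, hcB⟩ := abs_le_of_summable hc
  refine Summable.of_nonneg_of_le (fun i => norm_nonneg _)
    (fun i => norm_gt_factor hB (hcB i) le_rfl) (hc.mul_right _)

private lemma hasProd_gt {ι : Type} {c : ι → ℝ} (hc : Summable fun i => (c i) ^ 2) (z : ℂ) :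
    HasProd (fun i => 1 + gt ((c i : ℂ) * z)) (∏' i, (1 + gt ((c i : ℂ) * z))) :=
  (multipliable_one_add_of_summable (summable_gt hc z)).hasProd

private lemma differentiable_prod_gt {ι : Type} {c : ι → ℝ} (hc : Summable fun i => (c i) ^ 2) :
    Differentiable ℂ fun z => ∏' i, (1 + gt ((c i : ℂ) * z)) := by
  intro z
  obtain ⟨B, hB, hcB⟩ := abs_le_of_summable hc
  have hU : IsOpen (Metric.ball (0 : ℂ) (‖z‖ + 1)) := Metric.isOpen_ball
  have hdg : ∀ i, Differentiable ℂ fun z : ℂ => gt ((c i : ℂ) * z) := fun i =>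
    gt_differentiable.comp (by fun_prop)
  have h1 : HasProdLocallyUniformlyOn (fun i z => 1 + gt ((c i : ℂ) * z))
      (fun z => ∏' i, (1 + gt ((c i : ℂ) * z))) (Metric.ball (0 : ℂ) (‖z‖ + 1)) := by
    refine Summable.hasProdLocallyUniformlyOn_one_add hU
      (hc.mul_right ((‖z‖ + 1) ^ 2 * Real.exp (B * (‖z‖ + 1)))) ?_ ?_
    · refine Eventually.of_forall fun i w hw => ?_
      rw [mem_ball_zero_iff] at hw
      exact norm_gt_factor hB (hcB i) hw.le
    · intro i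
      exact (hdg i).continuous.continuousOn
  have h2 : DifferentiableOn ℂ (fun z => ∏' i, (1 + gt ((c i : ℂ) * z)))
      (Metric.ball (0 : ℂ) (‖z‖ + 1)) := by
    refine TendstoLocallyUniformlyOn.differentiableOn (φ := atTop)
      (F := fun (s : Finset ι) z => ∏ i ∈ s, (1 + gt ((c i : ℂ) * z))) h1 ?_ hU
    refine Eventually.of_forall fun s => ?_
    exact (Differentiable.fun_finsetProd fun i _ =>
      (differentiable_const _).add (hdg i)).differentiableOn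
  refine h2.differentiableAt (hU.mem_nhds ?_)
  rw [mem_ball_zero_iff]
  linarith

private lemma one_add_gt_ne_zero {w : ℂ} (h : w ≠ 1) : 1 + gt w ≠ 0 := by
  rw [one_add_gt]
  exact mul_ne_zero (sub_ne_zero.2 fun h' => h h'.symm) (Complex.exp_ne_zero _)

private lemma log_norm_one_add_gt {c : ℝ} {z : ℂ} (h : (c : ℂ) * z ≠ 1) :
    Real.log ‖1 + gt ((c : ℂ) * z)‖ = Real.log ‖1 - (c : ℂ) * z‖ + c * z.re := by
  rw [one_add_gt, norm_mul, Complex.norm_exp, Real.log_mul, Real.log_exp, Complex.re_ofReal_mul]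
  · exact norm_ne_zero_iff.2 (sub_ne_zero.2 fun h' => h h'.symm)
  · exact (Real.exp_pos _).ne'

/-- `|(1 - w) e^w| ≤ e^{2 |w|^σ}` -/
private lemma norm_one_add_gt_le {σ : ℝ} (h1 : 1 ≤ σ) (h2 : σ ≤ 2) (w : ℂ) :
    ‖1 + gt w‖ ≤ Real.exp (2 * ‖w‖ ^ σ) := by
  rw [one_add_gt, norm_mul, Complex.norm_exp]
  rcases le_total ‖w‖ 1 with hw | hw
  · have hsq : ‖1 - w‖ ^ 2 = 1 - 2 * w.re + ‖w‖ ^ 2 := by
      rw [← Complex.normSq_eq_norm_sq, ← Complex.normSq_eq_norm_sq, Complex.normSq_apply,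
        Complex.normSq_apply]
      simp only [Complex.sub_re, Complex.one_re, Complex.sub_im, Complex.one_im]
      ring
    have h3 : ‖1 - w‖ ^ 2 ≤ Real.exp (-2 * w.re + ‖w‖ ^ 2) := by
      rw [hsq]
      have := Real.add_one_le_exp (-2 * w.re + ‖w‖ ^ 2)
      linarith
    have h4 : ‖1 - w‖ ≤ Real.exp (-w.re + ‖w‖ ^ 2 / 2) := by
      refine le_of_sq_le_sq (h3.trans_eq ?_) (Real.exp_pos _).le
      rw [← Real.exp_nat_mul]
      congr 1
      push_cast
      ring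
    have h5 : ‖w‖ ^ 2 ≤ ‖w‖ ^ σ := by
      rcases eq_or_lt_of_le (norm_nonneg w) with h0 | h0
      · rw [← h0]
        simp only [ne_eq, OfNat.ofNat_ne_zero, not_false_eq_true, zero_pow]
        exact Real.rpow_nonneg le_rfl _
      · rw [← Real.rpow_natCast]
        exact Real.rpow_le_rpow_of_exponent_ge h0 hw (by exact_mod_cast h2)
    have h6 : 0 ≤ ‖w‖ ^ σ := Real.rpow_nonneg (norm_nonneg _) _
    calc ‖1 - w‖ * Real.exp w.re ≤ Real.exp (-w.re + ‖w‖ ^ 2 / 2) * Real.exp w.re :=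
          mul_le_mul_of_nonneg_right h4 (Real.exp_pos _).le
      _ = Real.exp (‖w‖ ^ 2 / 2) := by
          rw [← Real.exp_add]
          congr 1
          ring
      _ ≤ Real.exp (2 * ‖w‖ ^ σ) := Real.exp_le_exp.2 (by linarith)
  · have h3 : ‖1 - w‖ ≤ Real.exp ‖w‖ := by
      calc ‖1 - w‖ ≤ ‖(1 : ℂ)‖ + ‖w‖ := norm_sub_le _ _
        _ = ‖w‖ + 1 := by rw [norm_one, add_comm]
        _ ≤ Real.exp ‖w‖ := Real.add_one_le_exp _
    have h4 : ‖w‖ ≤ ‖w‖ ^ σ := by
      calc ‖w‖ = ‖w‖ ^ (1 : ℝ) := (Real.rpow_one _).symm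
        _ ≤ ‖w‖ ^ σ := Real.rpow_le_rpow_of_exponent_le hw h1
    calc ‖1 - w‖ * Real.exp w.re ≤ Real.exp ‖w‖ * Real.exp ‖w‖ :=
          mul_le_mul h3 (Real.exp_le_exp.2 (Complex.re_le_norm w)) (Real.exp_pos _).le
            (Real.exp_pos _).le
      _ = Real.exp (2 * ‖w‖) := by
          rw [← Real.exp_add]
          congr 1
          ring
      _ ≤ Real.exp (2 * ‖w‖ ^ σ) := Real.exp_le_exp.2 (by linarith)

theorem exists_genus_one {ι : Type} [Countable ι] {c : ι → ℝ}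
    (hc : Summable fun i => (c i) ^ 2) :
    ∃ f : ℂ → ℂ, Differentiable ℂ f ∧ (∀ z : ℂ, z.im ≠ 0 → f z ≠ 0) ∧
      (∀ z : ℂ, f (conj z) = conj (f z)) ∧
      (∀ z : ℂ, (∀ i, (c i : ℂ) * z ≠ 1) →
        f z ≠ 0 ∧
          HasSum (fun i => Real.log ‖1 - (c i : ℂ) * z‖ + c i * z.re) (Real.log ‖f z‖)) ∧
      (∀ σ : ℝ, 1 ≤ σ → σ ≤ 2 → Summable (fun i => |c i| ^ σ) → ∀ z : ℂ,
        ‖f z‖ ≤ Real.exp (2 * (∑' i, |c i| ^ σ) * ‖z‖ ^ σ)) := by
  have hne : ∀ z : ℂ, (∀ i, (c i : ℂ) * z ≠ 1) → ∏' i, (1 + gt ((c i : ℂ) * z)) ≠ 0 := by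
    intro z hz
    exact tprod_one_add_ne_zero_of_summable (fun i => one_add_gt_ne_zero (hz i))
      (summable_gt hc z)
  refine ⟨fun z => ∏' i, (1 + gt ((c i : ℂ) * z)), differentiable_prod_gt hc, ?_, ?_, ?_, ?_⟩
  · intro z hz
    refine hne z fun i h => hz ?_
    have h1 := congrArg Complex.im h
    rw [Complex.im_ofReal_mul, Complex.one_im] at h1
    rcases mul_eq_zero.1 h1 with h2 | h2
    · rw [h2] at h
      simp at h
    · exact h2
  · intro z
    have h1 := (hasProd_gt hc z).map (starRingEnd ℂ) Complex.continuous_conj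
    have h2 := hasProd_gt hc (conj z)
    refine h2.unique ?_
    refine h1.congr_fun fun i => ?_
    simp only [Function.comp_apply, one_add_gt, map_mul, map_sub, map_one, Complex.conj_ofReal,
      ← Complex.exp_conj]
  · intro z hz
    refine ⟨hne z hz, ?_⟩
    have h1 : ∀ i, 0 < ‖1 + gt ((c i : ℂ) * z)‖ := fun i =>
      norm_pos_iff.2 (one_add_gt_ne_zero (hz i))
    have h2 : Summable fun i => Real.log ‖1 + gt ((c i : ℂ) * z)‖ :=
      (summable_gt hc z).summable_log_norm_one_add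
    have h3 := Real.rexp_tsum_eq_tprod h1 h2
    have h4 : ‖∏' i, (1 + gt ((c i : ℂ) * z))‖ = ∏' i, ‖1 + gt ((c i : ℂ) * z)‖ :=
      (multipliable_one_add_of_summable (summable_gt hc z)).norm_tprod
    have h5 : Real.log ‖∏' i, (1 + gt ((c i : ℂ) * z))‖
        = ∑' i, Real.log ‖1 + gt ((c i : ℂ) * z)‖ := by
      rw [h4, ← h3, Real.log_exp]
    have h6 : (fun i => Real.log ‖1 - (c i : ℂ) * z‖ + c i * z.re)
        = fun i => Real.log ‖1 + gt ((c i : ℂ) * z)‖ := by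
      funext i
      exact (log_norm_one_add_gt (hz i)).symm
    rw [h6]
    change HasSum _ (Real.log ‖∏' i, (1 + gt ((c i : ℂ) * z))‖)
    rw [h5]
    exact h2.hasSum
  · intro σ h1 h2 hs z
    have h3 : Summable fun i => 2 * ‖(c i : ℂ) * z‖ ^ σ := by
      refine ((hs.mul_right (‖z‖ ^ σ)).mul_left 2).congr fun i => ?_
      rw [norm_mul, Complex.norm_real, Real.norm_eq_abs, Real.mul_rpow (abs_nonneg _)
        (norm_nonneg _)]
    have h4 : HasProd (fun i => Real.exp (2 * ‖(c i : ℂ) * z‖ ^ σ))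
        (Real.exp (∑' i, 2 * ‖(c i : ℂ) * z‖ ^ σ)) := by
      refine Real.hasProd_of_hasSum_log (fun i => Real.exp_pos _) ?_
      simp only [Real.log_exp]
      exact h3.hasSum
    have h5 : ‖∏' i, (1 + gt ((c i : ℂ) * z))‖ ≤ Real.exp (∑' i, 2 * ‖(c i : ℂ) * z‖ ^ σ) := by
      refine le_of_tendsto_of_tendsto' (hasProd_gt hc z).norm h4 fun s => ?_
      exact Finset.prod_le_prod (fun i _ => norm_nonneg _) fun i _ => norm_one_add_gt_le h1 h2 _
    refine h5.trans_eq ?_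
    congr 1
    rw [tsum_mul_left]
    have h6 : (fun i => ‖(c i : ℂ) * z‖ ^ σ) = fun i => |c i| ^ σ * ‖z‖ ^ σ := by
      funext i
      rw [norm_mul, Complex.norm_real, Real.norm_eq_abs, Real.mul_rpow (abs_nonneg _)
        (norm_nonneg _)]
    rw [h6, tsum_mul_right]
    ring

end HBInd
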