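import Mathlib

/-!
# A linear programming duality

Unknown `c ∈ [0, σ]^I`, constraints `∑ c_i v_{j,i} ≤ b_j` for all `j ∈ J` and `β ≤ ∑ c_i l_i`.
The box `[0, σ]^I` is compact (Tychonoff) and the linear forms are continuous on it (the coefficients are
summable: `continuousOn_tsum`/uniform limits), so the set of solutions is an intersection of closed sets
and it suffices to treat finitely many constraints `j ∈ s` at a time
(`IsCompact.inter_iInter_nonempty` or `isCompact.elim_finite_subfamily_closed`).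
For finite `s` let `A` be the image of the box in `(s → ℝ) × ℝ` under `c ↦ ((∑ c_i v_{j,i})_j, ∑ c_i l_i)`,
compact and convex, and `B = {(x, y) : x_j ≤ b_j, β ≤ y}`, closed and convex. If they are disjoint,
`geometric_hahn_banach_compact_closed` gives a linear form `-∑ w_j x_j + w₀ y`, with `< u` on `A` and `> u` on
`B`; as it is bounded below on `B`, `w_j ≥ 0` and `w₀ ≥ 0`. Evaluate on `B` at `(b, β)`, and on `A` at
`c_i = σ` if `w₀ l_i - ∑ w_j v_{j,i} > 0`, else `c_i = 0`: this contradicts the hypothesis.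
-/

namespace HBInd

open Filter Topology Set

lemma lp_summable {I : Type} {v : I → ℝ} (hv : Summable fun i => |v i|) {σ : ℝ} {c : I → ℝ}
    (hc : ∀ i, 0 ≤ c i ∧ c i ≤ σ) : Summable fun i => c i * v i := by
  apply Summable.of_norm_bounded (g := fun i => σ * |v i|) (hv.mul_left σ)
  intro i
  rw [Real.norm_eq_abs, abs_mul, abs_of_nonneg (hc i).1]
  exact mul_le_mul_of_nonneg_right (hc i).2 (abs_nonneg _)

lemma lp_cont {I : Type} {v : I → ℝ} (hv : Summable fun i => |v i|) {σ : ℝ} :
    ContinuousOn (fun c : I → ℝ => ∑' i, c i * v i) (Set.pi univ fun _ => Icc 0 σ) := by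
  apply continuousOn_tsum (u := fun i => σ * |v i|)
  · intro i
    fun_prop
  · exact hv.mul_left σ
  · intro i c hc
    have h := hc i (mem_univ i)
    rw [Real.norm_eq_abs, abs_mul, abs_of_nonneg h.1]
    exact mul_le_mul_of_nonneg_right h.2 (abs_nonneg _)

lemma lp_finite {I J : Type} (v : J → I → ℝ) (hv : ∀ j, Summable fun i => |v j i|)
    (l : I → ℝ) (hl : Summable fun i => |l i|) (b : J → ℝ) (β : ℝ) {σ : ℝ} (hσ : 0 < σ)
    (hdual : ∀ (s : Finset J) (w : J → ℝ) (w₀ : ℝ), (∀ j, 0 ≤ w j) → 0 ≤ w₀ →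
      w₀ * β - ∑ j ∈ s, w j * b j ≤ σ * ∑' i, max 0 (w₀ * l i - ∑ j ∈ s, w j * v j i))
    (s : Finset J) :
    ∃ c : I → ℝ, c ∈ (Set.pi univ fun _ => Icc 0 σ) ∧ (∀ j ∈ s, ∑' i, c i * v j i ≤ b j) ∧
      β ≤ ∑' i, c i * l i := by
  classical
  by_contra hcon
  push Not at hcon
  set K : Set (I → ℝ) := Set.pi univ fun _ => Icc 0 σ with hKdef
  let Φ : (I → ℝ) → (s → ℝ) × ℝ := fun c => (fun j => ∑' i, c i * v j i, ∑' i, c i * l i)
  have hK : IsCompact K := isCompact_univ_pi fun _ => isCompact_Icc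
  have hKc : Convex ℝ K := convex_pi fun _ _ => convex_Icc 0 σ
  have hmem : ∀ c, c ∈ K ↔ ∀ i, 0 ≤ c i ∧ c i ≤ σ := by
    intro c
    simp only [hKdef, Set.mem_pi, mem_univ, forall_const, mem_Icc]
  have hΦ : ContinuousOn Φ K := by
    apply ContinuousOn.prodMk
    · rw [continuousOn_pi]
      intro j
      exact lp_cont (hv j)
    · exact lp_cont hl
  have hA : IsCompact (Φ '' K) := hK.image_of_continuousOn hΦ
  have hlin : ∀ (u : I → ℝ), (Summable fun i => |u i|) → ∀ c ∈ K, ∀ c' ∈ K, ∀ x y : ℝ,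
      ∑' i, (x • c + y • c') i * u i = x * ∑' i, c i * u i + y * ∑' i, c' i * u i := by
    intro u hu c hc c' hc' x y
    have h1 := lp_summable hu ((hmem c).mp hc)
    have h2 := lp_summable hu ((hmem c').mp hc')
    rw [← tsum_mul_left, ← tsum_mul_left, ← (h1.mul_left x).tsum_add (h2.mul_left y)]
    apply tsum_congr
    intro i
    simp only [Pi.add_apply, Pi.smul_apply, smul_eq_mul]
    ring
  have hAc : Convex ℝ (Φ '' K) := by
    rintro _ ⟨c, hc, rfl⟩ _ ⟨c', hc', rfl⟩ x y hx hy hxy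
    refine ⟨x • c + y • c', hKc hc hc' hx hy hxy, ?_⟩
    apply Prod.ext
    · funext j
      simp only [Φ, Prod.fst_add, Prod.smul_fst, Pi.add_apply, Pi.smul_apply, smul_eq_mul]
      exact hlin _ (hv j) c hc c' hc' x y
    · simp only [Φ, Prod.snd_add, Prod.smul_snd, smul_eq_mul]
      exact hlin _ hl c hc c' hc' x y
  let B : Set ((s → ℝ) × ℝ) := {p | (∀ j : s, p.1 j ≤ b j) ∧ β ≤ p.2}
  have hB : IsClosed B := by
    have h1 : B = (⋂ j : s, {p : (s → ℝ) × ℝ | p.1 j ≤ b j}) ∩ {p | β ≤ p.2} := by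
      ext p
      simp [B]
    rw [h1]
    apply IsClosed.inter
    · apply isClosed_iInter
      intro j
      exact isClosed_le (by fun_prop) continuous_const
    · exact isClosed_le continuous_const continuous_snd
  have hBc : Convex ℝ B := by
    rintro p ⟨hp1, hp2⟩ q ⟨hq1, hq2⟩ x y hx hy hxy
    have key : ∀ a c d : ℝ, a ≤ c → d ≤ c → x * a + y * d ≤ c := by
      intro a c d h1 h2
      calc x * a + y * d ≤ x * c + y * c := by gcongr
        _ = c := by rw [← add_mul, hxy, one_mul]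
    have key' : ∀ a c d : ℝ, c ≤ a → c ≤ d → c ≤ x * a + y * d := by
      intro a c d h1 h2
      calc c = x * c + y * c := by rw [← add_mul, hxy, one_mul]
        _ ≤ x * a + y * d := by gcongr
    refine ⟨fun j => ?_, ?_⟩
    · simp only [Prod.fst_add, Prod.smul_fst, Pi.add_apply, Pi.smul_apply, smul_eq_mul]
      exact key _ _ _ (hp1 j) (hq1 j)
    · simp only [Prod.snd_add, Prod.smul_snd, smul_eq_mul]
      exact key' _ _ _ hp2 hq2
  have hdisj : Disjoint (Φ '' K) B := by
    rw [Set.disjoint_left]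
    rintro _ ⟨c, hc, rfl⟩ ⟨h1, h2⟩
    have := hcon c hc (fun j hj => h1 ⟨j, hj⟩)
    exact absurd h2 (not_le.mpr this)
  obtain ⟨f, u, u', hfA, huu, hfB⟩ := geometric_hahn_banach_compact_closed hAc hA hBc hB hdisj
  -- the coefficients of `f`
  set w : J → ℝ := fun j => if hj : j ∈ s then - f (Pi.single ⟨j, hj⟩ 1, 0) else 0 with hw
  set w₀ : ℝ := f (0, 1) with hw₀
  have hwj : ∀ j : s, f (Pi.single j 1, 0) = - w j := by
    intro j
    simp [hw, j.2]
  have hf : ∀ p : (s → ℝ) × ℝ, f p = w₀ * p.2 - ∑ j : s, w j * p.1 j := by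
    intro p
    have h1 : p = ∑ j : s, (p.1 j) • ((Pi.single j 1, 0) : (s → ℝ) × ℝ) + p.2 • (0, 1) := by
      apply Prod.ext
      · simp only [Prod.fst_add, Prod.fst_sum, Prod.smul_fst, smul_zero, add_zero]
        funext j
        simp [Finset.sum_apply, Pi.single_apply]
      · simp [Prod.snd_sum]
    conv_lhs => rw [h1]
    rw [map_add, map_sum, map_smul]
    simp only [map_smul, hwj, smul_eq_mul]
    rw [← hw₀]
    rw [mul_comm p.2, add_comm, sub_eq_add_neg, ← Finset.sum_neg_distrib]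
    congr 1
    apply Finset.sum_congr rfl
    intro j _
    ring
  have hbB : ((fun j : s => b j, β) : (s → ℝ) × ℝ) ∈ B := ⟨fun j => le_rfl, le_rfl⟩
  have hfb := hfB _ hbB
  rw [hf] at hfb
  simp only at hfb
  -- signs
  have hw0 : 0 ≤ w₀ := by
    by_contra hneg
    push Not at hneg
    set V : ℝ := w₀ * β - ∑ j : s, w j * b j with hV
    have hN : 0 ≤ (V - u') / (-w₀) := div_nonneg (by linarith) (by linarith)
    have hm : ((fun j : s => b j, β + (V - u') / (-w₀)) : (s → ℝ) × ℝ) ∈ B :=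
      ⟨fun j => le_rfl, by simp only; linarith⟩
    have h1 := hfB _ hm
    rw [hf] at h1
    simp only at h1
    have h2 : w₀ * ((V - u') / (-w₀)) = -(V - u') := by
      have hne : w₀ ≠ 0 := hneg.ne
      rw [div_neg, mul_neg, mul_div_cancel₀ _ hne]
    rw [mul_add, h2] at h1
    linarith
  have hwnn : ∀ j, 0 ≤ w j := by
    intro j
    by_cases hj : j ∈ s
    · by_contra hneg
      push Not at hneg
      set V : ℝ := w₀ * β - ∑ j : s, w j * b j with hV
      set N : ℝ := (V - u') / (-w j) with hNdef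
      have hN : 0 ≤ N := div_nonneg (by linarith) (by linarith)
      let j' : s := ⟨j, hj⟩
      have hm : ((fun i : s => b i - N * (Pi.single j' (1 : ℝ) : s → ℝ) i, β) : (s → ℝ) × ℝ) ∈ B := by
        refine ⟨fun i => ?_, le_rfl⟩
        simp only
        have : 0 ≤ (Pi.single j' (1 : ℝ) : s → ℝ) i := by
          by_cases hi : i = j'
          · subst hi; simp
          · simp [hi]
        have := mul_nonneg hN this
        linarith
      have h1 := hfB _ hm
      rw [hf] at h1
      simp only at h1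
      have h2 : ∑ i : s, w i * (b i - N * (Pi.single j' (1 : ℝ) : s → ℝ) i) =
          ∑ i : s, w i * b i - N * w j := by
        have h3 : ∑ i : s, w i * (N * (Pi.single j' (1 : ℝ) : s → ℝ) i) = N * w j := by
          rw [Finset.sum_eq_single j']
          · simp [j']; ring
          · intro i _ hi
            simp [hi]
          · simp
        rw [← h3, ← Finset.sum_sub_distrib]
        apply Finset.sum_congr rfl
        intro i _
        ring
      rw [h2] at h1
      have h4 : N * w j = -(V - u') := by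
        rw [hNdef]
        have : w j ≠ 0 := hneg.ne
        field_simp
      linarith
    · simp [hw, hj]
  -- evaluation on `A`
  set X : I → ℝ := fun i => w₀ * l i - ∑ j ∈ s, w j * v j i with hX
  let c : I → ℝ := fun i => if 0 < X i then σ else 0
  have hc : ∀ i, 0 ≤ c i ∧ c i ≤ σ := by
    intro i
    simp only [c]
    split_ifs
    · exact ⟨hσ.le, le_rfl⟩
    · exact ⟨le_rfl, hσ.le⟩
  have hcK : c ∈ K := (hmem c).mpr hc
  have hfa := hfA _ ⟨c, hcK, rfl⟩
  rw [hf] at hfa
  simp only [Φ] at hfa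
  have h1 : w₀ * ∑' i, c i * l i - ∑ j : s, w j * ∑' i, c i * v j i = ∑' i, c i * X i := by
    have hs1 : Summable fun i => w₀ * (c i * l i) := (lp_summable hl hc).mul_left w₀
    have hs2 : ∀ j ∈ (Finset.univ : Finset s), Summable fun i => w j * (c i * v j i) :=
      fun j _ => (lp_summable (hv j) hc).mul_left _
    rw [← tsum_mul_left]
    simp_rw [← tsum_mul_left]
    rw [← Summable.tsum_finsetSum hs2, ← hs1.tsum_sub (summable_sum hs2)]
    apply tsum_congr
    intro i
    rw [hX]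
    simp only
    rw [← Finset.sum_coe_sort s (fun j => w j * v j i), mul_sub, Finset.mul_sum]
    congr 1
    · ring
    · apply Finset.sum_congr rfl
      intro j _
      ring
  have h2 : ∑' i, c i * X i = σ * ∑' i, max 0 (X i) := by
    rw [← tsum_mul_left]
    apply tsum_congr
    intro i
    simp only [c]
    split_ifs with h
    · rw [max_eq_right h.le]
    · rw [max_eq_left (not_lt.mp h)]
      ring
  have h3 := hdual s w w₀ hwnn hw0
  rw [← Finset.sum_coe_sort s (fun j => w j * b j)] at h3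
  rw [h1, h2] at hfa
  linarith

theorem lp_duality {I J : Type} (v : J → I → ℝ) (hv : ∀ j, Summable fun i => |v j i|)
    (l : I → ℝ) (hl : Summable fun i => |l i|) (b : J → ℝ) (β : ℝ) {σ : ℝ} (hσ : 0 < σ)
    (hdual : ∀ (s : Finset J) (w : J → ℝ) (w₀ : ℝ), (∀ j, 0 ≤ w j) → 0 ≤ w₀ →
      w₀ * β - ∑ j ∈ s, w j * b j ≤ σ * ∑' i, max 0 (w₀ * l i - ∑ j ∈ s, w j * v j i)) :
    ∃ c : I → ℝ, (∀ i, 0 ≤ c i ∧ c i ≤ σ) ∧ (∀ j, ∑' i, c i * v j i ≤ b j) ∧
      β ≤ ∑' i, c i * l i := by
  classical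
  set K : Set (I → ℝ) := Set.pi univ fun _ => Icc 0 σ with hKdef
  have hK : IsCompact K := isCompact_univ_pi fun _ => isCompact_Icc
  have hKcl : IsClosed K := isClosed_set_pi fun _ _ => isClosed_Icc
  have hmem : ∀ c, c ∈ K ↔ ∀ i, 0 ≤ c i ∧ c i ≤ σ := by
    intro c
    simp only [hKdef, Set.mem_pi, mem_univ, forall_const, mem_Icc]
  let K₀ : Set (I → ℝ) := K ∩ (fun c : I → ℝ => ∑' i, c i * l i) ⁻¹' (Ici β)
  let Z : J → Set (I → ℝ) := fun j => K ∩ (fun c : I → ℝ => ∑' i, c i * v j i) ⁻¹' (Iic (b j))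
  have hK₀ : IsCompact K₀ := by
    apply hK.of_isClosed_subset _ inter_subset_left
    exact (lp_cont hl).preimage_isClosed_of_isClosed hKcl isClosed_Ici
  have hZ : ∀ j, IsClosed (Z j) := fun j =>
    (lp_cont (hv j)).preimage_isClosed_of_isClosed hKcl isClosed_Iic
  have hne : (K₀ ∩ ⋂ j, Z j).Nonempty := by
    apply hK₀.inter_iInter_nonempty Z hZ
    intro s
    obtain ⟨c, hc, h1, h2⟩ := lp_finite v hv l hl b β hσ hdual s
    refine ⟨c, ⟨hc, h2⟩, ?_⟩
    simp only [mem_iInter]
    intro j hj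
    exact ⟨hc, h1 j hj⟩
  obtain ⟨c, ⟨hc, h2⟩, h1⟩ := hne
  simp only [mem_iInter] at h1
  exact ⟨c, (hmem c).mp hc, fun j => (h1 j).2, h2⟩

end HBInd
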