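import Pool.Agent.HBInd.Domin
import Pool.Agent.HBInd.LP

/-!
# Touching potentials

`exists_touch`: `domination` with small `δ₁` and `ε / 2`, then `lp_duality` with `I = ℤ × Fin n`,
`J = ℝ × ℝ`, `v j i = cv ..`, `l i = cl ..`, `b j = h j.2 + ε/2`, `β = h θ₀ - ε/2`; `c_b = dens ρ η (c (·, b))`,
`dens_spec`, `tsum_cv` (sum over `i ∈ ℤ × Fin n` = sum over `b` of sums over `a`), `exists_cl_le`: for
`u = 1 + δ e^{iφ}`, `t₁ = log |u|`, `θ₁ = θ₀ + arg u`, the potential at `(t₁, θ₁)` is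
`≥ (h θ₀ - ε/2) / |u|^ρ ≥ h θ₀ - ε` for `δ` small.
-/

namespace HBInd

open Complex Filter Topology Set MeasureTheory
open scoped Real

/-- the (normalised) potential at `e^{t + iθ}` of zeros on the rays `α i` with densities
`c i (τ) e^{ρτ} dτ` -/
noncomputable def Vpot (p : ℕ) (ρ : ℝ) {n : ℕ} (α : Fin n → ℝ) (c : Fin n → ℝ → ℝ) (t θ : ℝ) : ℝ :=
  ∑ i, ∫ u : ℝ, kp p u (θ - α i) * Real.exp (-ρ * u) * c i (t - u)

lemma touch_summable {n : ℕ} {f : ℤ × Fin n → ℝ} (hf : ∀ b, Summable fun a : ℤ => |f (a, b)|) :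
    Summable fun i : ℤ × Fin n => |f i| := by
  rw [← (Equiv.prodComm (Fin n) ℤ).summable_iff]
  rw [summable_prod_of_nonneg]
  · refine ⟨fun b => ?_, ?_⟩
    · exact hf b
    · exact summable_of_finite_support (Set.toFinite _)
  · intro i
    exact abs_nonneg _

lemma touch_tsum {n : ℕ} {f : ℤ × Fin n → ℝ} (hf : ∀ b, Summable fun a : ℤ => |f (a, b)|) :
    ∑' i : ℤ × Fin n, f i = ∑ b : Fin n, ∑' a : ℤ, f (a, b) := by
  have h1 : Summable f := (touch_summable hf).of_abs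
  rw [← (Equiv.prodComm (Fin n) ℤ).tsum_eq f]
  have h2 : Summable fun i : Fin n × ℤ => f (i.2, i.1) :=
    (Equiv.prodComm (Fin n) ℤ).summable_iff.mpr h1
  have h3 := h2.tsum_prod
  simp only [tsum_fintype] at h3
  exact h3

/-- continuity at `1` of the quantities which occur -/
lemma touch_near (H ρ : ℝ) {ε : ℝ} (hε : 0 < ε) : ∃ r : ℝ, 0 < r ∧ ∀ u : ℂ, ‖u - 1‖ < r →
    0 < ‖u‖ ∧ |Real.log ‖u‖| ≤ 1 ∧ |Complex.arg u| ≤ ε ∧ H - ε / 2 ≤ H / ‖u‖ ^ ρ := by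
  have h1 : ContinuousAt (fun u : ℂ => ‖u‖) 1 := continuous_norm.continuousAt
  have h2 : ContinuousAt (fun u : ℂ => Real.log ‖u‖) 1 :=
    h1.log (by simp)
  have h3 : ContinuousAt (fun u : ℂ => Complex.arg u) 1 :=
    Complex.continuousAt_arg (by simp)
  have h4 : ContinuousAt (fun u : ℂ => H / ‖u‖ ^ ρ) 1 := by
    apply ContinuousAt.div continuousAt_const
    · exact h1.rpow_const (Or.inl (by simp))
    · simp
  have e1 : ∀ᶠ u : ℂ in 𝓝 1, 0 < ‖u‖ := by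
    apply h1.eventually_const_lt
    simp
  have e2 : ∀ᶠ u : ℂ in 𝓝 1, |Real.log ‖u‖| < 1 := by
    have := h2.abs.eventually_lt_const (u := 1) (by simp)
    exact this
  have e3 : ∀ᶠ u : ℂ in 𝓝 1, |Complex.arg u| < ε := by
    have := h3.abs.eventually_lt_const (u := ε) (by simpa using hε)
    exact this
  have e4 : ∀ᶠ u : ℂ in 𝓝 1, H - ε / 2 < H / ‖u‖ ^ ρ := by
    apply h4.eventually_const_lt
    simp
    exact hε
  have e := e1.and (e2.and (e3.and e4))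
  obtain ⟨r, hr, hb⟩ := Metric.eventually_nhds_iff.mp e
  refine ⟨r, hr, fun u hu => ?_⟩
  have := hb (y := u) (by rw [Complex.dist_eq]; exact hu)
  exact ⟨this.1, this.2.1.le, this.2.2.1.le, this.2.2.2.le⟩

theorem exists_touch {p : ℕ} (hp : p ≤ 1) {ρ : ℝ} (h1 : (p : ℝ) < ρ) (h2 : ρ < p + 1)
    {h : ℝ → ℝ} (hper : ∀ θ, h (θ + 2 * π) = h θ) (hc : Continuous h) (hrel : RelSub p ρ h)
    (θ₀ : ℝ) {ε : ℝ} (hε : 0 < ε) :
    ∃ (n : ℕ) (α : Fin n → ℝ) (c : Fin n → ℝ → ℝ) (D : ℝ),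
      (∀ i, α i ∈ Icc 0 π ∧ (p = 1 → α i = 0 ∨ α i = π)) ∧ (∀ i, Continuous (c i)) ∧
      (∀ i t, 0 ≤ c i t ∧ c i t ≤ D) ∧ (∀ t θ, Vpot p ρ α c t θ ≤ h θ + ε) ∧
      ∃ t₁ θ₁ : ℝ, |t₁| ≤ 1 ∧ |θ₁ - θ₀| ≤ ε ∧ h θ₀ - ε ≤ Vpot p ρ α c t₁ θ₁ := by
  obtain ⟨r, hr, hnear⟩ := touch_near (h θ₀ - ε / 2) ρ hε
  obtain ⟨δ, η, σ, n, α, hδ0, hδr, hδ1, hη, hσ, hα, hdom⟩ :=
    domination hp h1 h2 hper hc hrel θ₀ (half_pos hε) hr
  have hδ : δ ∈ Ioo (0 : ℝ) 1 := ⟨hδ0, hδ1⟩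
  -- linear programming duality
  have hsv : ∀ j : ℝ × ℝ, ∀ b, Summable fun a : ℤ => |cv p ρ η (α b) a j.1 j.2| :=
    fun j b => summable_cv hp h1 h2 hη (α b) j.1 j.2
  have hsl : ∀ b, Summable fun a : ℤ => |cl p ρ δ η (α b) a θ₀| :=
    fun b => summable_cl hp h1 h2 hδ hη (α b) θ₀
  obtain ⟨c, hc0, hcv, hcl⟩ := lp_duality (I := ℤ × Fin n) (J := ℝ × ℝ)
    (fun j i => cv p ρ η (α i.2) i.1 j.1 j.2)
    (fun j => touch_summable (f := fun i => cv p ρ η (α i.2) i.1 j.1 j.2) (hsv j))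
    (fun i => cl p ρ δ η (α i.2) i.1 θ₀)
    (touch_summable (f := fun i => cl p ρ δ η (α i.2) i.1 θ₀) hsl)
    (fun j => h j.2 + ε / 2) (h θ₀ - ε / 2) hσ hdom
  have hcb : ∀ b : Fin n, ∀ a : ℤ, 0 ≤ c (a, b) ∧ c (a, b) ≤ σ := fun b a => hc0 (a, b)
  have hspec := fun b => dens_spec (ρ := ρ) hη (hcb b)
  choose hcont D' hD' using hspec
  have hpot : ∀ t θ, Vpot p ρ α (fun b => dens ρ η fun a => c (a, b)) t θ =
      ∑' i : ℤ × Fin n, c i * cv p ρ η (α i.2) i.1 t θ := by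
    intro t θ
    have hs : ∀ b, Summable fun a : ℤ => |c (a, b) * cv p ρ η (α b) a t θ| := by
      intro b
      apply Summable.of_nonneg_of_le (fun a => abs_nonneg _) _ ((hsv (t, θ) b).mul_left σ)
      intro a
      rw [abs_mul, abs_of_nonneg (hcb b a).1]
      exact mul_le_mul_of_nonneg_right (hcb b a).2 (abs_nonneg _)
    rw [touch_tsum (f := fun i : ℤ × Fin n => c i * cv p ρ η (α i.2) i.1 t θ) hs]
    unfold Vpot
    apply Finset.sum_congr rfl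
    intro b _
    exact (tsum_cv hp h1 h2 hη (α b) (hcb b) t θ).symm
  refine ⟨n, α, fun b => dens ρ η fun a => c (a, b), ∑ b, |D' b|, hα, hcont, ?_, ?_, ?_⟩
  · intro b t
    refine ⟨(hD' b t).1, (hD' b t).2.trans ((le_abs_self _).trans ?_)⟩
    exact Finset.single_le_sum (f := fun b => |D' b|) (fun _ _ => abs_nonneg _)
      (Finset.mem_univ b)
  · intro t θ
    rw [hpot]
    have := hcv (t, θ)
    simp only at this
    linarith
  · obtain ⟨φ, hφ⟩ := exists_cl_le hp h1 h2 hδ hη α hc0 θ₀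
    set u : ℂ := 1 + (δ : ℂ) * Complex.exp ((φ : ℂ) * I) with hu
    have hu1 : ‖u - 1‖ < r := by
      have : u - 1 = (δ : ℂ) * Complex.exp ((φ : ℂ) * I) := by rw [hu]; ring
      rw [this, norm_mul, Complex.norm_exp_ofReal_mul_I, mul_one, Complex.norm_real,
        Real.norm_of_nonneg hδ0.le]
      exact hδr
    obtain ⟨hu0, hlog, harg, hH⟩ := hnear u hu1
    refine ⟨Real.log ‖u‖, θ₀ + Complex.arg u, hlog, ?_, ?_⟩
    · simpa using harg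
    · rw [hpot]
      have h3 : h θ₀ - ε / 2 ≤ ‖u‖ ^ ρ *
          ∑' i : ℤ × Fin n, c i * cv p ρ η (α i.2) i.1 (Real.log ‖u‖) (θ₀ + Complex.arg u) :=
        hcl.trans hφ
      have h4 : (h θ₀ - ε / 2) / ‖u‖ ^ ρ ≤
          ∑' i : ℤ × Fin n, c i * cv p ρ η (α i.2) i.1 (Real.log ‖u‖) (θ₀ + Complex.arg u) := by
        rw [div_le_iff₀ (Real.rpow_pos_of_pos hu0 ρ), mul_comm]
        exact h3
      linarith

end HBInd
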