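import Pool.Agent.HBInd.Ramp
import Pool.Agent.HBInd.Block2
import Pool.Agent.HBInd.Touch
import Pool.Agent.HBInd.Construct

/-!
# Gluing of touching potentials: majorants, slow variation, choice of the windows
-/

namespace HBInd

open Complex Filter Topology Set MeasureTheory
open scoped Real

/-- integral of `(1 + |u|) e^{-κ|u|}`-type functions -/
lemma integrable_abs_exp {κ : ℝ} (hκ : 0 < κ) :
    Integrable fun u : ℝ => (1 + |u|) * Real.exp (-κ * |u|) := by
  have h1 : Integrable fun u : ℝ => Real.exp (-(κ / 2) * |u|) := by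
    rw [← integrableOn_univ, ← Iic_union_Ioi (a := (0 : ℝ))]
    refine IntegrableOn.union ?_ ?_
    · refine (integrableOn_exp_mul_Iic (by linarith : 0 < κ / 2) 0).congr_fun (fun u hu => ?_)
        measurableSet_Iic
      simp only
      rw [abs_of_nonpos hu]
      ring_nf
    · refine (integrableOn_exp_mul_Ioi (by linarith : -(κ / 2) < 0) 0).congr_fun
        (fun u hu => ?_) measurableSet_Ioi
      simp only
      rw [abs_of_pos hu]
  refine (h1.const_mul (1 + 1 / (κ / 2))).mono' (by fun_prop)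
    (Eventually.of_forall fun u => ?_)
  have h2 := lin_le_exp (by linarith : 0 < κ / 2) (abs_nonneg u)
  rw [Real.norm_of_nonneg (mul_nonneg (by positivity) (Real.exp_pos _).le)]
  calc (1 + |u|) * Real.exp (-κ * |u|) ≤
      ((1 + 1 / (κ / 2)) * Real.exp (κ / 2 * |u|)) * Real.exp (-κ * |u|) :=
        mul_le_mul_of_nonneg_right h2 (Real.exp_pos _).le
    _ = _ := by
        rw [mul_assoc, ← Real.exp_add]
        ring_nf

/-- a majorant of the regularised kernel -/
lemma exists_kq_majorant {p : ℕ} (hp : p ≤ 1) {ρ : ℝ} (h1 : (p : ℝ) < ρ) (h2 : ρ < p + 1)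
    {δ : ℝ} (hδ : δ ∈ Ioo (0 : ℝ) 1) : ∃ P : ℝ → ℝ, (∀ u, 0 ≤ P u) ∧
      (∀ u ψ, |kq p δ u ψ| ≤ P u) ∧
      Integrable fun u : ℝ => (1 + |u|) * P u * Real.exp (-ρ * u) := by
  obtain ⟨σ₁, hσ₁, hσ₁'⟩ := exists_between h1
  obtain ⟨σ₂, hσ₂, hσ₂'⟩ := exists_between h2
  obtain ⟨C₁, hC₁, hk₁⟩ := abs_kq_le hp hδ hσ₁ (hσ₁'.trans h2)
  obtain ⟨C₂, hC₂, hk₂⟩ := abs_kq_le hp hδ (h1.trans hσ₂) hσ₂'
  set κ := min (ρ - σ₁) (σ₂ - ρ) with hκ
  have hκ0 : 0 < κ := lt_min (by linarith) (by linarith)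
  refine ⟨fun u => min (C₁ * Real.exp (σ₁ * u)) (C₂ * Real.exp (σ₂ * u)),
    fun u => le_min (by positivity) (by positivity),
    fun u ψ => le_min (hk₁ u ψ) (hk₂ u ψ), ?_⟩
  refine ((integrable_abs_exp hκ0).const_mul (C₁ + C₂)).mono' (by fun_prop)
    (Eventually.of_forall fun u => ?_)
  have h3 : 0 ≤ min (C₁ * Real.exp (σ₁ * u)) (C₂ * Real.exp (σ₂ * u)) :=
    le_min (by positivity) (by positivity)
  rw [Real.norm_of_nonneg (mul_nonneg (mul_nonneg (by positivity) h3) (Real.exp_pos _).le)]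
  have h4 : min (C₁ * Real.exp (σ₁ * u)) (C₂ * Real.exp (σ₂ * u)) * Real.exp (-ρ * u) ≤
      (C₁ + C₂) * Real.exp (-κ * |u|) := by
    rcases le_total 0 u with hu | hu
    · rw [abs_of_nonneg hu]
      calc _ ≤ C₁ * Real.exp (σ₁ * u) * Real.exp (-ρ * u) :=
            mul_le_mul_of_nonneg_right (min_le_left _ _) (Real.exp_pos _).le
        _ = C₁ * Real.exp ((σ₁ - ρ) * u) := by
            rw [mul_assoc, ← Real.exp_add]
            ring_nf
        _ ≤ (C₁ + C₂) * Real.exp (-κ * u) := by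
            refine mul_le_mul (by linarith) (Real.exp_le_exp.2 ?_) (Real.exp_pos _).le
              (by linarith)
            have : κ ≤ ρ - σ₁ := min_le_left _ _
            nlinarith
    · rw [abs_of_nonpos hu]
      calc _ ≤ C₂ * Real.exp (σ₂ * u) * Real.exp (-ρ * u) :=
            mul_le_mul_of_nonneg_right (min_le_right _ _) (Real.exp_pos _).le
        _ = C₂ * Real.exp ((σ₂ - ρ) * u) := by
            rw [mul_assoc, ← Real.exp_add]
            ring_nf
        _ ≤ (C₁ + C₂) * Real.exp (-κ * -u) := by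
            refine mul_le_mul (by linarith) (Real.exp_le_exp.2 ?_) (Real.exp_pos _).le
              (by linarith)
            have : κ ≤ σ₂ - ρ := min_le_right _ _
            nlinarith
  calc (1 + |u|) * min (C₁ * Real.exp (σ₁ * u)) (C₂ * Real.exp (σ₂ * u)) * Real.exp (-ρ * u)
      = (1 + |u|) * (min (C₁ * Real.exp (σ₁ * u)) (C₂ * Real.exp (σ₂ * u)) *
          Real.exp (-ρ * u)) := by ring
    _ ≤ (1 + |u|) * ((C₁ + C₂) * Real.exp (-κ * |u|)) :=
        mul_le_mul_of_nonneg_left h4 (by positivity)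
    _ = _ := by ring

lemma tendsto_kq {p : ℕ} (hp : p ≤ 1) {ρ : ℝ} (h1 : (p : ℝ) < ρ) (h2 : ρ < p + 1)
    {δ : ℝ} (hδ : δ ∈ Ioo (0 : ℝ) 1) (τ α : ℝ) :
    Tendsto (fun x : ℝ × ℝ => Real.exp (-ρ * x.1) * kq p δ (x.1 - τ) (x.2 - α))
      (comap Prod.fst atTop) (𝓝 0) := by
  obtain ⟨σ₁, hσ₁, hσ₁'⟩ := exists_between h1
  obtain ⟨C₁, hC₁, hk₁⟩ := abs_kq_le hp hδ hσ₁ (hσ₁'.trans h2)
  have h3 : Tendsto (fun t : ℝ => C₁ * Real.exp (-σ₁ * τ) * Real.exp ((σ₁ - ρ) * t)) atTop
      (𝓝 0) := by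
    have h4 : Tendsto (fun t : ℝ => Real.exp ((σ₁ - ρ) * t)) atTop (𝓝 0) :=
      Real.tendsto_exp_atBot.comp (tendsto_id.const_mul_atTop_of_neg (by linarith))
    simpa using h4.const_mul (C₁ * Real.exp (-σ₁ * τ))
  refine squeeze_zero_norm (fun x => ?_) (h3.comp tendsto_comap)
  rw [norm_mul, Real.norm_eq_abs, Real.abs_exp, Real.norm_eq_abs]
  calc Real.exp (-ρ * x.1) * |kq p δ (x.1 - τ) (x.2 - α)| ≤
      Real.exp (-ρ * x.1) * (C₁ * Real.exp (σ₁ * (x.1 - τ))) :=
        mul_le_mul_of_nonneg_left (hk₁ _ _) (Real.exp_pos _).le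
    _ = C₁ * Real.exp (-σ₁ * τ) * Real.exp ((σ₁ - ρ) * x.1) := by
        rw [mul_left_comm, ← Real.exp_add, mul_assoc, ← Real.exp_add]
        ring_nf

lemma ae_abs_kp_le {p : ℕ} (hp : p ≤ 1) (ψ : ℝ) : ∀ᵐ u : ℝ, |kp p u ψ| ≤ PhiP p u := by
  filter_upwards [ae_ne_zero] with u hu
  exact abs_kp_le_PhiP hp hu ψ

lemma continuous_kp (p : ℕ) {ψ : ℝ} (hψ : Real.sin ψ ≠ 0) : Continuous fun u => kp p u ψ :=
  continuous_iff_continuousAt.2 fun u => (hasDerivAt_kp p hψ u).continuousAt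

/-- measurability of `kp` in both variables -/
lemma measurable_kp (p : ℕ) : Measurable fun x : ℝ × ℝ => kp p x.1 x.2 := by
  unfold kp KK
  fun_prop

/-- integrability against bounded densities -/
lemma integrable_mul_of_le {ρ : ℝ} {K P c : ℝ → ℝ} (hK : AEStronglyMeasurable K)
    (hKP : ∀ᵐ u, |K u| ≤ P u) (hP : Integrable fun u : ℝ => (1 + |u|) * P u * Real.exp (-ρ * u))
    {D : ℝ} (hc : AEStronglyMeasurable c) (hcD : ∀ u, |c u| ≤ D * (1 + |u|)) :
    Integrable fun u : ℝ => K u * Real.exp (-ρ * u) * c u := by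
  refine (hP.const_mul D).mono' ((hK.mul (by fun_prop)).mul hc) ?_
  filter_upwards [hKP] with u hu
  rw [norm_mul, norm_mul, Real.norm_eq_abs, Real.norm_eq_abs, Real.norm_eq_abs, Real.abs_exp]
  have h0 : 0 ≤ P u := (abs_nonneg _).trans hu
  calc |K u| * Real.exp (-ρ * u) * |c u| ≤ P u * Real.exp (-ρ * u) * (D * (1 + |u|)) := by
        refine mul_le_mul ?_ (hcD u) (abs_nonneg _) (mul_nonneg h0 (Real.exp_pos _).le)
        exact mul_le_mul_of_nonneg_right hu (Real.exp_pos _).le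
    _ = D * ((1 + |u|) * P u * Real.exp (-ρ * u)) := by ring

lemma abs_integral_mul_le {ρ : ℝ} {K P c : ℝ → ℝ}
    (hKP : ∀ᵐ u, |K u| ≤ P u) (hP : Integrable fun u : ℝ => (1 + |u|) * P u * Real.exp (-ρ * u))
    {D : ℝ} (hcD : ∀ u, |c u| ≤ D * (1 + |u|)) :
    |∫ u : ℝ, K u * Real.exp (-ρ * u) * c u| ≤
      D * ∫ u : ℝ, (1 + |u|) * P u * Real.exp (-ρ * u) := by
  rw [← integral_const_mul, ← Real.norm_eq_abs]
  refine norm_integral_le_of_norm_le (hP.const_mul D) ?_
  filter_upwards [hKP] with u hu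
  rw [norm_mul, norm_mul, Real.norm_eq_abs, Real.norm_eq_abs, Real.norm_eq_abs, Real.abs_exp]
  have h0 : 0 ≤ P u := (abs_nonneg _).trans hu
  calc |K u| * Real.exp (-ρ * u) * |c u| ≤ P u * Real.exp (-ρ * u) * (D * (1 + |u|)) := by
        refine mul_le_mul ?_ (hcD u) (abs_nonneg _) (mul_nonneg h0 (Real.exp_pos _).le)
        exact mul_le_mul_of_nonneg_right hu (Real.exp_pos _).le
    _ = D * ((1 + |u|) * P u * Real.exp (-ρ * u)) := by ring

/-- slow variation of the window functions -/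
lemma slow_var {ρ : ℝ} {K P : ℝ → ℝ} (hK : AEStronglyMeasurable K)
    (hKP : ∀ᵐ u, |K u| ≤ P u) (hP : Integrable fun u : ℝ => (1 + |u|) * P u * Real.exp (-ρ * u))
    {c χ : ℝ → ℝ} {D Λ : ℝ} (hc : Continuous c) (hcD : ∀ t, 0 ≤ c t ∧ c t ≤ D)
    (hχ : Continuous χ) (hχ1 : ∀ t, 0 ≤ χ t ∧ χ t ≤ 1)
    (hχL : ∀ s t, |χ s - χ t| ≤ Λ * |s - t|) (t S : ℝ) :
    |(∫ u : ℝ, K u * Real.exp (-ρ * u) * (c (t - u - S) * χ (t - u))) -
      χ t * ∫ u : ℝ, K u * Real.exp (-ρ * u) * c (t - S - u)| ≤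
      D * Λ * ∫ u : ℝ, (1 + |u|) * P u * Real.exp (-ρ * u) := by
  have hD : 0 ≤ D := (hcD 0).1.trans (hcD 0).2
  have hΛ : 0 ≤ Λ := by
    have := (abs_nonneg _).trans (hχL 1 0)
    simpa using this
  have e1 : (∫ u : ℝ, K u * Real.exp (-ρ * u) * (c (t - u - S) * χ (t - u))) -
      χ t * ∫ u : ℝ, K u * Real.exp (-ρ * u) * c (t - S - u) =
      ∫ u : ℝ, K u * Real.exp (-ρ * u) * (c (t - S - u) * (χ (t - u) - χ t)) := by
    rw [← integral_const_mul, ← integral_sub]
    · congr 1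
      ext u
      rw [show t - u - S = t - S - u by ring]
      ring
    · refine integrable_mul_of_le hK hKP hP (D := D) (by fun_prop) fun u => ?_
      rw [abs_of_nonneg (mul_nonneg (hcD _).1 (hχ1 _).1)]
      calc c (t - u - S) * χ (t - u) ≤ D * 1 :=
            mul_le_mul (hcD _).2 (hχ1 _).2 (hχ1 _).1 hD
        _ ≤ D * (1 + |u|) := mul_le_mul_of_nonneg_left (by linarith [abs_nonneg u]) hD
    · refine Integrable.const_mul ?_ _
      refine integrable_mul_of_le hK hKP hP (D := D) (by fun_prop) fun u => ?_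
      rw [abs_of_nonneg (hcD _).1]
      calc c (t - S - u) ≤ D * 1 := by rw [mul_one]; exact (hcD _).2
        _ ≤ D * (1 + |u|) := mul_le_mul_of_nonneg_left (by linarith [abs_nonneg u]) hD
  rw [e1]
  refine abs_integral_mul_le hKP hP fun u => ?_
  rw [abs_mul, abs_of_nonneg (hcD _).1, mul_assoc]
  refine mul_le_mul (hcD _).2 ?_ (abs_nonneg _) hD
  refine (hχL _ _).trans ?_
  rw [show t - u - t = -u by ring, abs_neg]
  exact mul_le_mul_of_nonneg_left (by linarith [abs_nonneg u]) hΛ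

/-- choice of the windows -/
lemma exists_windows2 {ρ : ℝ} (hρ : 0 < ρ) {n : ℕ → ℕ} {α : (j : ℕ) → Fin (n j) → ℝ}
    {q : ℕ → ℝ} (hq : ∀ l j i, Real.sin (q l - α j i) ≠ 0) (D : ℕ → ℝ) :
    ∃ T w : ℕ → ℝ, (∀ j, 0 < w j) ∧ (∀ j, T j + w j + 4 ≤ T (j + 1)) ∧ 0 ≤ T 0 ∧
      (∀ l, Summable fun j => ∑ i, Real.exp (-ρ * T j) / |Real.sin (q l - α j i)|) ∧
      (Summable fun j => (n j : ℝ) * Real.exp (-ρ * T j)) ∧
      (Summable fun j => (n j : ℝ) * |D j| * (1 / w j + 1 / w (j + 1))) ∧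
      (∀ κ : ℝ, 0 < κ → Summable fun j => (n j : ℝ) * |D j| * Real.exp (-κ * T j)) := by
  set B : ℕ → ℝ := fun j => (n j : ℝ) * |D j| with hB
  have hB0 : ∀ j, 0 ≤ B j := fun j => by positivity
  set A : ℕ → ℝ := fun j => ∑ k ∈ Finset.range (j + 1), B k with hA
  have hA0 : ∀ j, 0 ≤ A j := fun j => Finset.sum_nonneg fun k _ => hB0 k
  have hAB : ∀ j, B j ≤ A j := fun j =>
    Finset.single_le_sum (f := B) (fun k _ => hB0 k) (Finset.self_mem_range_succ j)
  have hAB' : ∀ j, B j ≤ A (j + 1) := fun j =>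
    Finset.single_le_sum (f := B) (fun k _ => hB0 k)
      (Finset.mem_range.2 (by omega))
  set w : ℕ → ℝ := fun j => 2 ^ j * (1 + A j) with hw
  have hw0 : ∀ j, 0 < w j := fun j => by
    have := hA0 j
    positivity
  -- lower bounds for the times
  have h1 : ∀ j : ℕ, ∃ b : ℝ, 0 ≤ b ∧ (n j : ℝ) * Real.exp (-ρ * b) ≤ (1 / 2) ^ j ∧
      ∀ l ∈ Finset.range (j + 1),
        ∑ i, Real.exp (-ρ * b) / |Real.sin (q l - α j i)| ≤ (1 / 2) ^ j := by
    intro j
    have h3 : Tendsto (fun t : ℝ => Real.exp (-ρ * t)) atTop (𝓝 0) := by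
      refine Real.tendsto_exp_atBot.comp ?_
      exact tendsto_id.const_mul_atTop_of_neg (by linarith)
    have hpos : (0 : ℝ) < (1 / 2) ^ j := by positivity
    have h4 : ∀ᶠ b : ℝ in atTop, (n j : ℝ) * Real.exp (-ρ * b) ≤ (1 / 2) ^ j := by
      have := h3.const_mul (n j : ℝ)
      rw [mul_zero] at this
      exact (this.eventually_lt_const hpos).mono fun _ h => h.le
    have h5 : ∀ᶠ b : ℝ in atTop, ∀ l ∈ Finset.range (j + 1),
        ∑ i, Real.exp (-ρ * b) / |Real.sin (q l - α j i)| ≤ (1 / 2) ^ j := by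
      rw [Filter.eventually_all_finset]
      intro l _
      have : Tendsto (fun b : ℝ => ∑ i, Real.exp (-ρ * b) / |Real.sin (q l - α j i)|) atTop
          (𝓝 (∑ i, 0 / |Real.sin (q l - α j i)|)) :=
        tendsto_finsetSum _ fun i _ => h3.div_const _
      simp only [zero_div, Finset.sum_const_zero] at this
      exact (this.eventually_lt_const hpos).mono fun _ h => h.le
    obtain ⟨b, ⟨hb1, hb2⟩, hb3⟩ := ((h4.and h5).and (eventually_ge_atTop 0)).exists
    exact ⟨b, hb3, hb1, hb2⟩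
  choose b hb0 hb1 hb2 using h1
  set g : ℕ → ℝ := fun k => b k + k * (Real.log (1 + B k) + 1) + w k + w (k - 1) + 4 with hg
  have hlog : ∀ k, 0 ≤ Real.log (1 + B k) := fun k => Real.log_nonneg (by linarith [hB0 k])
  have hg0 : ∀ k, 0 ≤ g k := fun k => by
    have h5 := hb0 k
    have h6 := hlog k
    have h7 := hw0 k
    have h8 := hw0 (k - 1)
    have h9 : 0 ≤ (k : ℝ) * (Real.log (1 + B k) + 1) := by positivity
    rw [hg]
    simp only
    linarith
  set T : ℕ → ℝ := fun j => ∑ k ∈ Finset.range (j + 1), g k with hTdef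
  have hTg : ∀ j, g j ≤ T j := fun j =>
    Finset.single_le_sum (f := g) (fun k _ => hg0 k) (Finset.self_mem_range_succ j)
  have hTb : ∀ j, b j ≤ T j := fun j => by
    refine le_trans ?_ (hTg j)
    have h6 := hlog j
    have h7 := hw0 j
    have h8 := hw0 (j - 1)
    have h9 : 0 ≤ (j : ℝ) * (Real.log (1 + B j) + 1) := by positivity
    rw [hg]
    simp only
    linarith
  have hTl : ∀ j : ℕ, (j : ℝ) * (Real.log (1 + B j) + 1) ≤ T j := fun j => by
    refine le_trans ?_ (hTg j)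
    have h5 := hb0 j
    have h7 := hw0 j
    have h8 := hw0 (j - 1)
    rw [hg]
    simp only
    linarith
  have hexp : ∀ j, Real.exp (-ρ * T j) ≤ Real.exp (-ρ * b j) := fun j =>
    Real.exp_le_exp.2 (by nlinarith [hTb j])
  have hgeo : Summable fun j : ℕ => ((1 : ℝ) / 2) ^ j := summable_geometric_two
  refine ⟨T, w, hw0, ?_, ?_, ?_, ?_, ?_, ?_⟩
  · intro j
    have e : T (j + 1) = T j + g (j + 1) := by
      rw [hTdef]
      simp only
      rw [Finset.sum_range_succ _ (j + 1)]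
    rw [e, hg]
    simp only
    rw [Nat.add_sub_cancel]
    have h5 := hb0 (j + 1)
    have h6 := hlog (j + 1)
    have h7 := hw0 (j + 1)
    have h9 : 0 ≤ ((j + 1 : ℕ) : ℝ) * (Real.log (1 + B (j + 1)) + 1) := by positivity
    linarith
  · exact (hb0 0).trans (hTb 0)
  · intro l
    refine Summable.of_norm_bounded_eventually_nat hgeo ?_
    filter_upwards [eventually_ge_atTop l] with j hj
    have h5 : ∀ i, 0 < |Real.sin (q l - α j i)| := fun i => abs_pos.2 (hq l j i)
    rw [Real.norm_of_nonneg (Finset.sum_nonneg fun i _ =>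
      div_nonneg (Real.exp_pos _).le (h5 i).le)]
    refine le_trans (Finset.sum_le_sum fun i _ => ?_)
      (hb2 j l (Finset.mem_range.2 (Nat.lt_succ_of_le hj)))
    exact div_le_div_of_nonneg_right (hexp j) (h5 i).le
  · refine Summable.of_nonneg_of_le (fun j => by positivity) (fun j => ?_) hgeo
    exact (mul_le_mul_of_nonneg_left (hexp j) (Nat.cast_nonneg _)).trans (hb1 j)
  · refine Summable.of_nonneg_of_le (fun j => ?_) (fun j => ?_) (hgeo.mul_left 2)
    · have h5 := hw0 j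
      have h6 := hw0 (j + 1)
      positivity
    · change B j * (1 / w j + 1 / w (j + 1)) ≤ 2 * (1 / 2) ^ j
      have h5 := hw0 j
      have h6 := hw0 (j + 1)
      have h7 : B j * (1 / w j) ≤ (1 / 2) ^ j := by
        rw [mul_one_div, div_le_iff₀ h5, hw]
        simp only
        rw [← mul_assoc, ← mul_pow]
        norm_num
        linarith [hAB j]
      have h8 : B j * (1 / w (j + 1)) ≤ (1 / 2) ^ j := by
        rw [mul_one_div, div_le_iff₀ h6, hw]
        simp only
        rw [← mul_assoc, pow_succ, ← mul_assoc, ← mul_pow]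
        norm_num
        linarith [hAB' j, hA0 (j + 1)]
      linarith
  · intro κ hκ
    change Summable fun j => B j * Real.exp (-κ * T j)
    have hr : Summable fun j : ℕ => Real.exp (-(κ / 2)) ^ j :=
      summable_geometric_of_lt_one (Real.exp_pos _).le
        (by rw [Real.exp_lt_one_iff]; linarith)
    refine Summable.of_norm_bounded_eventually_nat hr ?_
    filter_upwards [eventually_ge_atTop ⌈2 / κ⌉₊] with j hj
    have hj' : 2 / κ ≤ j := Nat.ceil_le.1 hj
    have hj'' : 2 ≤ κ * j := by rwa [div_le_iff₀ hκ, mul_comm] at hj'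
    rw [Real.norm_of_nonneg (mul_nonneg (hB0 j) (Real.exp_pos _).le)]
    have h5 : B j ≤ Real.exp (Real.log (1 + B j)) := by
      rw [Real.exp_log (by linarith [hB0 j])]
      linarith
    have h6 := hTl j
    have h7 := hlog j
    calc B j * Real.exp (-κ * T j) ≤
        Real.exp (Real.log (1 + B j)) * Real.exp (-κ * T j) :=
          mul_le_mul_of_nonneg_right h5 (Real.exp_pos _).le
      _ = Real.exp (Real.log (1 + B j) - κ * T j) := by
          rw [← Real.exp_add]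
          ring_nf
      _ ≤ Real.exp (j * -(κ / 2)) := by
          refine Real.exp_le_exp.2 ?_
          have h8 : κ * ((j : ℝ) * (Real.log (1 + B j) + 1)) ≤ κ * T j :=
            mul_le_mul_of_nonneg_left h6 hκ.le
          nlinarith
      _ = Real.exp (-(κ / 2)) ^ j := by rw [← Real.exp_nat_mul]

end HBInd
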