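import Pool.Agent.HBInd.AvgSum
import Pool.Agent.HBInd.Prod
import Pool.Agent.HBInd.GenusOne

/-!
# Canonical products of genus `p`: the interface

Zeros `exp (τ_i + i α_i)`, `c_i = exp (- τ_i - i α_i)`. `p = 0`: `exists_pre` (`Im c_i ≤ 0`). `p = 1`:
`exists_genus_one` with the real numbers `c_i = ± exp (-τ_i)` (`α_i = 0` or `π`); the function has only
real zeros and `f (conj z) = conj (f z)`, order `≤ ρ` from the growth estimate with `σ ∈ (ρ, 2)` and
`eventually_mul_rpow_le`. Circle averages: `hasSum_circleAverage`.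
-/

namespace HBInd

open Complex Filter Topology Set MeasureTheory Bornology
open scoped Real ComplexConjugate

/-- the inverse of the zero `exp (τ + i α)` -/
private noncomputable def czp (τ α : ℝ) : ℂ := Complex.exp (((-τ : ℝ) : ℂ) + ((-α : ℝ) : ℂ) * I)

private lemma czp_norm (τ α : ℝ) : ‖czp τ α‖ = Real.exp (-τ) := by
  rw [czp, Complex.norm_exp]
  congr 1
  simp

private lemma czp_im (τ α : ℝ) : (czp τ α).im = -(Real.exp (-τ) * Real.sin α) := by
  rw [czp, Complex.exp_im]
  simp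

private lemma czp_norm_rpow (τ α σ : ℝ) : ‖czp τ α‖ ^ σ = Real.exp (-σ * τ) := by
  rw [czp_norm, ← Real.exp_mul]
  congr 1
  ring

private lemma czp_mul_ray (τ α t θ : ℝ) :
    czp τ α * ray (Real.exp t) θ =
      Complex.exp (((t - τ : ℝ) : ℂ) + ((θ - α : ℝ) : ℂ) * I) := by
  rw [czp, ray, Complex.ofReal_exp, ← Complex.exp_add, ← Complex.exp_add]
  congr 1
  push_cast
  ring

private lemma czp_ne {τ α t q : ℝ} (h : Real.sin (q - α) ≠ 0) :
    czp τ α * ray (Real.exp t) q ≠ 1 := by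
  intro h1
  have h2 := congrArg Complex.im h1
  rw [czp_mul_ray, Complex.exp_im] at h2
  simp only [Complex.add_re, Complex.ofReal_re, Complex.mul_re, Complex.I_re, Complex.ofReal_im,
    Complex.I_im, Complex.add_im, Complex.mul_im, Complex.one_im] at h2
  rw [show (0 : ℝ) + ((q - α) * 1 + 0 * 0) = q - α by ring] at h2
  rcases mul_eq_zero.1 h2 with h3 | h3
  · exact (Real.exp_pos _).ne' h3
  · exact h h3

/-- the product of genus `p`, as a function of `c` -/
private theorem exists_prod_aux {p : ℕ} (hp : p ≤ 1) {ρ : ℝ} (h1 : (p : ℝ) < ρ) (h2 : ρ < p + 1)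
    {ι : Type} [Countable ι] {τ α : ι → ℝ}
    (hα : ∀ i, α i ∈ Icc 0 π ∧ (p = 1 → α i = 0 ∨ α i = π))
    (hs : ∀ σ, ρ < σ → Summable fun i => Real.exp (-σ * τ i)) :
    ∃ f : ℂ → ℂ, Pre ρ f ∧ ∀ z : ℂ, (∀ i, czp (τ i) (α i) * z ≠ 1) →
      f z ≠ 0 ∧ HasSum (fun i => KK p (czp (τ i) (α i) * z)) (Real.log ‖f z‖) := by
  interval_cases p
  · have hρ0 : 0 < ρ := by simpa using h1
    have hρ1 : ρ < 1 := by simpa using h2
    obtain ⟨f, hf, hf2, -⟩ := exists_pre hρ0 hρ1 (c := fun i => czp (τ i) (α i))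
      (fun σ hσ => by simpa only [czp_norm_rpow] using hs σ hσ)
      (fun i => by
        rw [czp_im]
        have := Real.sin_nonneg_of_mem_Icc (hα i).1
        have h3 := Real.exp_pos (-τ i)
        have := mul_nonneg h3.le this
        linarith)
    refine ⟨f, hf, fun z hz => ?_⟩
    obtain ⟨h3, h4⟩ := hf2 z hz
    refine ⟨h3, ?_⟩
    refine h4.congr_fun fun i => ?_
    rw [KK]
    simp
  · have hρ0 : 1 < ρ := by simpa using h1
    have hρ1 : ρ < 2 := by
      have h3 : ρ < 1 + 1 := by simpa using h2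
      linarith
    set r : ι → ℝ := fun i => Real.exp (-τ i) * Real.cos (α i) with hr
    have hc : ∀ i, czp (τ i) (α i) = (r i : ℂ) := by
      intro i
      have hsin : Real.sin (α i) = 0 := by
        rcases (hα i).2 rfl with h | h <;> rw [h] <;> simp
      apply Complex.ext
      · rw [czp, Complex.exp_re, Complex.ofReal_re, hr]
        simp only [Complex.add_re, Complex.ofReal_re, Complex.mul_re, Complex.I_re,
          Complex.ofReal_im, Complex.I_im, Complex.add_im, Complex.mul_im]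
        rw [show (-τ i + (-α i * 0 - 0 * 1) : ℝ) = -τ i by ring,
          show (0 + (-α i * 1 + 0 * 0) : ℝ) = -α i by ring, Real.cos_neg]
      · rw [czp_im, hsin]
        simp
    have habs : ∀ i, |r i| = Real.exp (-τ i) := by
      intro i
      rw [← czp_norm (τ i) (α i), hc i, Complex.norm_real, Real.norm_eq_abs]
    have hrs : ∀ σ, ρ < σ → Summable fun i => |r i| ^ σ := by
      intro σ hσ
      refine (hs σ hσ).congr fun i => ?_
      rw [habs, ← Real.exp_mul]
      congr 1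
      ring
    have hr2 : Summable fun i => (r i) ^ 2 := by
      refine (hs 2 hρ1).congr fun i => ?_
      rw [← sq_abs, habs, ← Real.exp_nat_mul]
      congr 1
      push_cast
      ring
    obtain ⟨f, hf1, hf2, hf3, hf4, hf5⟩ := exists_genus_one hr2
    refine ⟨f, ⟨hf1, ?_, fun z hz => hf2 z hz.ne, ?_⟩, ?_⟩
    · intro σ hσ
      obtain ⟨s, hs1, hs2⟩ := exists_between (lt_min hσ hρ1)
      have hsσ : s < σ := hs2.trans_le (min_le_left _ _)
      have hs2' : s ≤ 2 := (hs2.trans_le (min_le_right _ _)).le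
      filter_upwards [(tendsto_norm_cobounded_atTop (E := ℂ)).eventually
        (eventually_mul_rpow_le hsσ (2 * ∑' i, |r i| ^ s))] with z hz
      exact (hf5 s (by linarith) hs2' (hrs s hs1) z).trans (Real.exp_le_exp.2 hz)
    · intro z _
      rw [hf3 z, Complex.norm_conj]
    · intro z hz
      obtain ⟨h3, h4⟩ := hf4 z (fun i => by rw [← hc i]; exact hz i)
      refine ⟨h3, ?_⟩
      refine h4.congr_fun fun i => ?_
      rw [KK, hc i, Complex.re_ofReal_mul]
      simp

theorem exists_product {p : ℕ} (hp : p ≤ 1) {ρ : ℝ} (h1 : (p : ℝ) < ρ) (h2 : ρ < p + 1)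
    {ι : Type} [Countable ι] {τ α : ι → ℝ}
    (hα : ∀ i, α i ∈ Icc 0 π ∧ (p = 1 → α i = 0 ∨ α i = π))
    (hs : ∀ σ, ρ < σ → Summable fun i => Real.exp (-σ * τ i)) :
    ∃ f : ℂ → ℂ, Pre ρ f ∧
      (∀ q : ℝ, (∀ i, Real.sin (q - α i) ≠ 0) → ∀ t : ℝ, f (ray (Real.exp t) q) ≠ 0 ∧
        HasSum (fun i => kp p (t - τ i) (q - α i)) (Real.log ‖f (ray (Real.exp t) q)‖)) ∧
      (∀ t θ : ℝ, ∀ δ ∈ Ioo (0 : ℝ) 1, HasSum (fun i => kq p δ (t - τ i) (θ - α i))
        (Real.circleAverage (fun z => Real.log ‖f z‖) (ray (Real.exp t) θ) (δ * Real.exp t))) := by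
  obtain ⟨f, hf, hf2⟩ := exists_prod_aux hp h1 h2 hα hs
  refine ⟨f, hf, ?_, ?_⟩
  · intro q hq t
    obtain ⟨h3, h4⟩ := hf2 (ray (Real.exp t) q) (fun i => czp_ne (hq i))
    refine ⟨h3, ?_⟩
    refine h4.congr_fun fun i => ?_
    rw [czp_mul_ray, kp]
  · intro t θ δ hδ
    obtain ⟨σ, hσ1, hσ2⟩ := exists_between h2
    have hz : ray (Real.exp t) θ ≠ 0 := by
      rw [← norm_ne_zero_iff, norm_ray (Real.exp_pos t).le]
      exact (Real.exp_pos t).ne'
    have h3 := hasSum_circleAverage hp (h1.trans hσ1) hσ2 (c := fun i => czp (τ i) (α i))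
      (by simpa only [czp_norm_rpow] using hs σ hσ1) (F := fun z => Real.log ‖f z‖)
      (fun u _ hu => (hf2 u hu).2) hδ hz
    rw [norm_ray (Real.exp_pos t).le] at h3
    refine h3.congr_fun fun i => ?_
    rw [czp_mul_ray, kq]

end HBInd
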