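import Pool.Agent.HBInd.GlueA
import Pool.Agent.HBInd.ProdP

/-!
# Gluing of touching potentials: the function
-/

namespace HBInd

open Complex Filter Topology Set MeasureTheory
open scoped Real ComplexConjugate

/-- the middle of the plateau of the window `xi T w j` -/
noncomputable def mid (T w : ℕ → ℝ) (j : ℕ) : ℝ := (T j + w j + T (j + 1)) / 2

lemma mid_mem {T w : ℕ → ℝ} (hT : ∀ j, T j + w j + 4 ≤ T (j + 1)) (j : ℕ) {t : ℝ}
    (ht : |t| ≤ 2) : mid T w j + t ∈ Icc (T j + w j) (T (j + 1)) := by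
  have := hT j
  have h := abs_le.1 ht
  rw [mid]
  constructor <;> linarith

lemma tendsto_mid {T w : ℕ → ℝ} (hw : ∀ j, 0 < w j) (hT : ∀ j, T j + w j + 4 ≤ T (j + 1)) :
    Tendsto (mid T w) atTop atTop := by
  refine tendsto_atTop_mono (f := fun j : ℕ => T 0 + (j : ℝ)) (fun j => ?_)
    (tendsto_const_nhds.add_atTop tendsto_natCast_atTop_atTop)
  have h1 := T_ge hw hT j
  have h2 := hT j
  have h3 := hw j
  rw [mid]
  linarith

lemma hasSum_xi {T w : ℕ → ℝ} (hw : ∀ j, 0 < w j) (hT : ∀ j, T j + w j + 4 ≤ T (j + 1)) (t : ℝ)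
    (a : ℕ → ℝ) : Summable fun j => xi T w j t * a j := by
  obtain ⟨M, hM⟩ := exists_nat_ge (t - T 0)
  have hMt : t ≤ T M := by linarith [T_ge hw hT M]
  refine summable_of_ne_finset_zero (s := Finset.range M) fun j hj => ?_
  rw [Finset.mem_range, not_lt] at hj
  rw [xi_eq_zero_left hw hT (hMt.trans (T_mono hw hT hj)), zero_mul]

/-- from the estimates of the blocks to the sum -/
lemma tendsto_glue {Y : Type} {l : Filter Y} {s : Y → ℝ} (hs : Tendsto s l atTop)
    {T w : ℕ → ℝ} (hw : ∀ j, 0 < w j) (hT : ∀ j, T j + w j + 4 ≤ T (j + 1))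
    {a W : ℕ → Y → ℝ} {L : Y → ℝ} {b : ℕ → ℝ} (hb : Summable b)
    (hab : ∀ j y, |a j y - xi T w j (s y) * W j y| ≤ b j)
    (ha : ∀ j, Tendsto (a j) l (𝓝 0)) (hL : ∀ y, HasSum (fun j => a j y) (L y)) :
    Tendsto (fun y => L y - ∑' j, xi T w j (s y) * W j y) l (𝓝 0) := by
  have h1 : ∀ j, Tendsto (fun y => a j y - xi T w j (s y) * W j y) l (𝓝 0) := by
    intro j
    refine (ha j).congr' ?_
    filter_upwards [hs.eventually_ge_atTop (T (j + 1) + w (j + 1))] with y hy
    rw [xi_eq_zero_right hw hT hy, zero_mul, sub_zero]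
  have h2 := tendsto_tsum_of_dominated_convergence (𝓕 := l)
    (f := fun y j => a j y - xi T w j (s y) * W j y) (g := fun _ => (0 : ℝ)) hb h1
    (Eventually.of_forall fun y j => by rw [Real.norm_eq_abs]; exact hab j y)
  rw [tsum_zero] at h2
  refine h2.congr fun y => ?_
  exact ((hL y).sub (hasSum_xi hw hT (s y) fun j => W j y).hasSum).tsum_eq

lemma exp_neg_mul_exp (ρ t : ℝ) : Real.exp (-ρ * t) * Real.exp (ρ * t) = 1 := by
  rw [← Real.exp_add, ← Real.exp_zero]
  congr 1
  ring

theorem exists_glue {p : ℕ} (hp : p ≤ 1) {ρ : ℝ} (h1 : (p : ℝ) < ρ) (h2 : ρ < p + 1)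
    {n : ℕ → ℕ} {α : (j : ℕ) → Fin (n j) → ℝ} {c : (j : ℕ) → Fin (n j) → ℝ → ℝ} {D : ℕ → ℝ}
    (hα : ∀ j i, α j i ∈ Icc 0 π ∧ (p = 1 → α j i = 0 ∨ α j i = π))
    (hc : ∀ j i, Continuous (c j i)) (hcD : ∀ j i t, 0 ≤ c j i t ∧ c j i t ≤ D j)
    {q : ℕ → ℝ} (hq : ∀ l j i, Real.sin (q l - α j i) ≠ 0) :
    ∃ (f : ℂ → ℂ) (T w : ℕ → ℝ), Pre ρ f ∧ (∀ j, 0 < w j) ∧
      (∀ j, T j + w j + 4 ≤ T (j + 1)) ∧
      (∀ l t, f (ray (Real.exp t) (q l)) ≠ 0) ∧
      (∀ l, ∀ ε : ℝ, 0 < ε → ∀ᶠ t in atTop,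
        Real.exp (-ρ * t) * Real.log ‖f (ray (Real.exp t) (q l))‖ ≤
          (∑' j, xi T w j t * Vpot p ρ (α j) (c j) (t - mid T w j) (q l)) + ε) ∧
      (∀ δ ∈ Ioo (0 : ℝ) 1, ∀ ε : ℝ, 0 < ε → ∀ᶠ t in atTop, ∀ θ : ℝ,
        (∑' j, xi T w j t * Vpot p ρ (α j) (c j) (t - mid T w j) θ) - ε ≤
          Real.exp (-ρ * t) *
            Real.circleAverage (fun z => Real.log ‖f z‖) (ray (Real.exp t) θ)
              (δ * Real.exp t)) := by
  have hρ : 0 < ρ := lt_of_le_of_lt (Nat.cast_nonneg p) h1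
  have hD0 : ∀ x : (j : ℕ) × Fin (n j), 0 ≤ D x.1 := fun x =>
    (hcD x.1 x.2 0).1.trans (hcD x.1 x.2 0).2
  obtain ⟨T, w, hw, hT, hT0, hs1, hs2, hs3, hs4⟩ := exists_windows2 hρ hq D
  obtain ⟨C, hC, hblock⟩ := exists_block2 hp h1 h2
  have hTm := T_mono hw hT
  have hTle : ∀ j, T j ≤ T (j + 1) + w (j + 1) := fun j => by
    have := hTm (Nat.le_succ j)
    have := hw (j + 1)
    simp only [Nat.succ_eq_add_one] at *
    linarith
  set dn : (x : (j : ℕ) × Fin (n j)) → ℝ → ℝ := fun x t =>
    c x.1 x.2 (t - mid T w x.1) * xi T w x.1 t with hdn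
  have hdnc : ∀ x, Continuous (dn x) := fun x =>
    ((hc x.1 x.2).comp (by fun_prop)).mul (continuous_xi _ _ _)
  have hdn0 : ∀ x t, 0 ≤ dn x t := fun x t =>
    mul_nonneg (hcD _ _ _).1 (xi_nonneg hw hT _ _)
  have hdnD : ∀ x t, dn x t ≤ D x.1 := fun x t => by
    calc dn x t ≤ D x.1 * 1 :=
          mul_le_mul (hcD _ _ _).2 (xi_le_one _ _ _ _) (xi_nonneg hw hT _ _) (hD0 x)
      _ = D x.1 := mul_one _
  have hdnz : ∀ x t, t ∉ Icc (T x.1) (T (x.1 + 1) + w (x.1 + 1)) → dn x t = 0 := fun x t ht => by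
    rw [hdn]
    simp only
    rw [xi_eq_zero hw hT ht, mul_zero]
  choose N τ hτ hanti hkp hkq using fun x : (j : ℕ) × Fin (n j) =>
    hblock (dn x) (T x.1) (T (x.1 + 1) + w (x.1 + 1)) (hdnc x) (hdn0 x) (hTle x.1) (hdnz x)
  -- summability
  have hsum : ∀ σ, ρ < σ → Summable fun i : (x : (j : ℕ) × Fin (n j)) × Fin (N x) =>
      Real.exp (-σ * τ i.1 i.2) := by
    intro σ hσ
    set κ := σ - ρ with hκ
    have hκ0 : 0 < κ := by rw [hκ]; linarith
    have hblk : ∀ x : (j : ℕ) × Fin (n j), ∑ m, Real.exp (-σ * τ x m) ≤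
        D x.1 * (Real.exp (-κ * T x.1) / κ) := by
      intro x
      have e1 := hanti x (fun t => Real.exp (-σ * t))
        (fun a b hab => Real.exp_le_exp.2 (by
          have : 0 < σ := hρ.trans hσ
          simp only [neg_mul, neg_le_neg_iff]
          exact mul_le_mul_of_nonneg_left hab this.le))
        (fun t => (Real.exp_pos _).le)
      refine e1.trans ?_
      have hi : IntegrableOn (fun t => D x.1 * Real.exp (-κ * t)) (Ioi (T x.1)) :=
        (integrableOn_exp_mul_Ioi (by linarith : -κ < 0) (T x.1)).const_mul _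
      have e2 : ∫ t, Real.exp (-σ * t) * (dn x t * Real.exp (ρ * t)) =
          ∫ t in Ici (T x.1), Real.exp (-σ * t) * (dn x t * Real.exp (ρ * t)) := by
        symm
        refine setIntegral_eq_integral_of_forall_compl_eq_zero fun t ht => ?_
        rw [hdnz x t (fun h => ht h.1), zero_mul, mul_zero]
      rw [e2, integral_Ici_eq_integral_Ioi]
      calc ∫ t in Ioi (T x.1), Real.exp (-σ * t) * (dn x t * Real.exp (ρ * t)) ≤
          ∫ t in Ioi (T x.1), D x.1 * Real.exp (-κ * t) := by
            refine integral_mono_of_nonneg (Eventually.of_forall fun t => ?_) hi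
              (Eventually.of_forall fun t => ?_)
            · exact mul_nonneg (Real.exp_pos _).le (mul_nonneg (hdn0 x t) (Real.exp_pos _).le)
            · simp only
              calc Real.exp (-σ * t) * (dn x t * Real.exp (ρ * t)) =
                  dn x t * Real.exp (-κ * t) := by
                    rw [hκ, mul_left_comm, ← Real.exp_add]
                    ring_nf
                _ ≤ _ := mul_le_mul_of_nonneg_right (hdnD x t) (Real.exp_pos _).le
        _ = D x.1 * (Real.exp (-κ * T x.1) / κ) := by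
            rw [integral_const_mul, integral_exp_mul_Ioi (by linarith : -κ < 0), neg_div_neg_eq]
    rw [summable_sigma_of_nonneg fun i => (Real.exp_pos _).le]
    refine ⟨fun x => Summable.of_finite, ?_⟩
    simp only [tsum_fintype]
    refine Summable.of_nonneg_of_le (fun x => Finset.sum_nonneg fun _ _ => (Real.exp_pos _).le)
      hblk ?_
    rw [summable_sigma_of_nonneg fun x => mul_nonneg (hD0 x) (by positivity)]
    refine ⟨fun j => Summable.of_finite, ?_⟩
    simp only [tsum_fintype, Finset.sum_const, Finset.card_univ, Fintype.card_fin, nsmul_eq_mul]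
    refine ((hs4 κ hκ0).mul_right (1 / κ)).of_nonneg_of_le (fun j => ?_) (fun j => ?_)
    · rcases Nat.eq_zero_or_pos (n j) with h0 | h0
      · rw [h0]; simp
      · have := hD0 ⟨j, ⟨0, h0⟩⟩
        exact mul_nonneg (Nat.cast_nonneg _) (mul_nonneg this (by positivity))
    · rw [← mul_assoc, mul_div_assoc', mul_one_div]
      refine div_le_div_of_nonneg_right ?_ hκ0.le
      refine mul_le_mul_of_nonneg_right ?_ (Real.exp_pos _).le
      exact mul_le_mul_of_nonneg_left (le_abs_self _) (Nat.cast_nonneg _)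
  obtain ⟨f, hf1, hf2, hf3⟩ := exists_product hp h1 h2
    (ι := (x : (j : ℕ) × Fin (n j)) × Fin (N x)) (τ := fun i => τ i.1 i.2)
    (α := fun i => α i.1.1 i.1.2) (fun i => hα _ _) hsum
  refine ⟨f, T, w, hf1, hw, hT, fun l t => (hf2 (q l) (fun i => hq l _ _) t).1, ?_, ?_⟩
  · intro l ε hε
    set IP := ∫ u : ℝ, (1 + |u|) * PhiP p u * Real.exp (-ρ * u) with hIP
    have hIP0 : 0 ≤ IP := integral_nonneg fun u =>
      mul_nonneg (mul_nonneg (by positivity) (PhiP_nonneg p u)) (Real.exp_pos _).le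
    have hlim := tendsto_glue (Y := ℝ) (l := atTop) (s := id) tendsto_id hw hT
      (a := fun j t => Real.exp (-ρ * t) * ∑ i, ∑ m, kp p (t - τ ⟨j, i⟩ m) (q l - α j i))
      (W := fun j t => Vpot p ρ (α j) (c j) (t - mid T w j) (q l))
      (L := fun t => Real.exp (-ρ * t) * Real.log ‖f (ray (Real.exp t) (q l))‖)
      (b := fun j => C * (∑ i, Real.exp (-ρ * T j) / |Real.sin (q l - α j i)|) +
        (n j : ℝ) * |D j| * (1 / w j + 1 / w (j + 1)) * IP)
      (((hs1 l).mul_left C).add (hs3.mul_right IP)) ?_ ?_ ?_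
    · filter_upwards [(Metric.tendsto_nhds.1 hlim) ε hε] with t ht
      rw [dist_zero_right, Real.norm_eq_abs] at ht
      have := (abs_lt.1 ht).2
      simp only [id] at this
      linarith
    · intro j t
      simp only [id]
      have e1 : Real.exp (-ρ * t) * ∑ i, ∑ m, kp p (t - τ ⟨j, i⟩ m) (q l - α j i) -
          xi T w j t * Vpot p ρ (α j) (c j) (t - mid T w j) (q l) =
          ∑ i, (Real.exp (-ρ * t) * ∑ m, kp p (t - τ ⟨j, i⟩ m) (q l - α j i) -
            xi T w j t * ∫ u : ℝ, kp p u (q l - α j i) * Real.exp (-ρ * u) *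
              c j i (t - mid T w j - u)) := by
        rw [Finset.sum_sub_distrib, ← Finset.mul_sum, ← Finset.mul_sum, Vpot]
      rw [e1]
      refine (Finset.abs_sum_le_sum_abs _ _).trans ?_
      have e2 : ∀ i : Fin (n j), |Real.exp (-ρ * t) * ∑ m, kp p (t - τ ⟨j, i⟩ m) (q l - α j i) -
            xi T w j t * ∫ u : ℝ, kp p u (q l - α j i) * Real.exp (-ρ * u) *
              c j i (t - mid T w j - u)| ≤
          C * (Real.exp (-ρ * T j) / |Real.sin (q l - α j i)|) +
            |D j| * (1 / w j + 1 / w (j + 1)) * IP := by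
        intro i
        have a1 := hkp ⟨j, i⟩ (q l - α j i) (hq l j i) t
        have a2 := slow_var (ρ := ρ) (K := fun u => kp p u (q l - α j i)) (P := PhiP p)
          (continuous_kp p (hq l j i)).aestronglyMeasurable (ae_abs_kp_le hp _)
          (integrable_PhiP hp h1 h2) (hc j i) (hcD j i) (continuous_xi T w j)
          (fun s => ⟨xi_nonneg hw hT j s, xi_le_one T w j s⟩) (abs_xi_sub_le hw j) t
          (mid T w j)
        simp only at a1
        rw [← hIP] at a2
        have a3 : Real.exp (-ρ * t) * ∑ m, kp p (t - τ ⟨j, i⟩ m) (q l - α j i) -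
            xi T w j t * ∫ u : ℝ, kp p u (q l - α j i) * Real.exp (-ρ * u) *
              c j i (t - mid T w j - u) =
            Real.exp (-ρ * t) * (∑ m, kp p (t - τ ⟨j, i⟩ m) (q l - α j i) -
              Real.exp (ρ * t) * ∫ u : ℝ, kp p u (q l - α j i) * Real.exp (-ρ * u) *
                dn ⟨j, i⟩ (t - u)) +
            ((∫ u : ℝ, kp p u (q l - α j i) * Real.exp (-ρ * u) *
              (c j i (t - u - mid T w j) * xi T w j (t - u))) -
              xi T w j t * ∫ u : ℝ, kp p u (q l - α j i) * Real.exp (-ρ * u) *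
              c j i (t - mid T w j - u)) := by
          rw [mul_sub, ← mul_assoc (Real.exp (-ρ * t)) (Real.exp (ρ * t)), exp_neg_mul_exp,
            one_mul, hdn]
          ring
        rw [a3]
        refine (abs_add_le _ _).trans (add_le_add ?_ ?_)
        · rw [abs_mul, Real.abs_exp]
          refine (mul_le_mul_of_nonneg_left a1 (Real.exp_pos _).le).trans (le_of_eq ?_)
          rw [← mul_assoc, exp_neg_mul_exp, one_mul, mul_div_assoc]
        · refine a2.trans ?_
          have : 0 ≤ 1 / w j + 1 / w (j + 1) := by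
            have := hw j
            have := hw (j + 1)
            positivity
          exact mul_le_mul_of_nonneg_right (mul_le_mul_of_nonneg_right (le_abs_self _) this) hIP0
      refine (Finset.sum_le_sum fun i _ => e2 i).trans (le_of_eq ?_)
      rw [Finset.sum_add_distrib, ← Finset.mul_sum]
      simp only [Finset.sum_const, Finset.card_univ, Fintype.card_fin, nsmul_eq_mul]
      ring
    · intro j
      have e1 : Tendsto (fun t => ∑ i : Fin (n j), ∑ m, Real.exp (-ρ * t) *
          kp p (t - τ ⟨j, i⟩ m) (q l - α j i)) atTop (𝓝 (∑ i : Fin (n j), ∑ m : Fin (N ⟨j, i⟩), 0)) :=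
        tendsto_finsetSum _ fun i _ => tendsto_finsetSum _ fun m _ =>
          tendsto_exp_mul_kp hp h1 _ _
      simp only [Finset.sum_const_zero] at e1
      refine e1.congr fun t => ?_
      rw [Finset.mul_sum]
      refine Finset.sum_congr rfl fun i _ => ?_
      rw [Finset.mul_sum]
    · intro t
      have e1 := (hf2 (q l) (fun i => hq l _ _) t).2
      have e2 := (e1.sigma fun x => hasSum_fintype _).sigma fun j => hasSum_fintype _
      exact e2.mul_left _
  · intro δ hδ ε hε
    obtain ⟨P, hP0, hP1, hP2⟩ := exists_kq_majorant hp h1 h2 hδ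
    set IP := ∫ u : ℝ, (1 + |u|) * P u * Real.exp (-ρ * u) with hIP
    have hIP0 : 0 ≤ IP := integral_nonneg fun u =>
      mul_nonneg (mul_nonneg (by positivity) (hP0 u)) (Real.exp_pos _).le
    have hkqm : ∀ ψ, Continuous fun u => kq p δ u ψ := fun ψ =>
      (continuous_kq hδ).comp (by fun_prop : Continuous fun u : ℝ => (u, ψ))
    have hlim := tendsto_glue (Y := ℝ × ℝ) (l := comap Prod.fst atTop) (s := Prod.fst)
      tendsto_comap hw hT
      (a := fun j y => Real.exp (-ρ * y.1) * ∑ i, ∑ m, kq p δ (y.1 - τ ⟨j, i⟩ m) (y.2 - α j i))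
      (W := fun j y => ∑ i, ∫ u : ℝ, kq p δ u (y.2 - α j i) * Real.exp (-ρ * u) *
        c j i (y.1 - mid T w j - u))
      (L := fun y => Real.exp (-ρ * y.1) *
        Real.circleAverage (fun z => Real.log ‖f z‖) (ray (Real.exp y.1) y.2)
          (δ * Real.exp y.1))
      (b := fun j => (n j : ℝ) * Real.exp (-ρ * T j) * (C / δ) +
        (n j : ℝ) * |D j| * (1 / w j + 1 / w (j + 1)) * IP)
      ((hs2.mul_right _).add (hs3.mul_right IP)) ?_ ?_ ?_
    · have h5 := (Metric.tendsto_nhds.1 hlim) ε hε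
      rw [eventually_comap] at h5
      filter_upwards [h5] with t ht θ
      have h6 := ht (t, θ) rfl
      rw [dist_zero_right, Real.norm_eq_abs] at h6
      have h7 := (abs_lt.1 h6).1
      simp only at h7
      have h8 : ∑' j, xi T w j t * Vpot p ρ (α j) (c j) (t - mid T w j) θ ≤
          ∑' j, xi T w j t * ∑ i, ∫ u : ℝ, kq p δ u (θ - α j i) * Real.exp (-ρ * u) *
            c j i (t - mid T w j - u) := by
        refine (hasSum_xi hw hT t _).tsum_le_tsum (fun j => ?_) (hasSum_xi hw hT t _)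
        refine mul_le_mul_of_nonneg_left ?_ (xi_nonneg hw hT j t)
        rw [Vpot]
        refine Finset.sum_le_sum fun i _ => ?_
        have hb : ∀ u : ℝ, |c j i (t - mid T w j - u)| ≤ D j * (1 + |u|) := by
          intro u
          rw [abs_of_nonneg (hcD _ _ _).1]
          have hDj := hD0 ⟨j, i⟩
          calc c j i (t - mid T w j - u) ≤ D j * 1 := by rw [mul_one]; exact (hcD _ _ _).2
            _ ≤ D j * (1 + |u|) := mul_le_mul_of_nonneg_left (by linarith [abs_nonneg u]) hDj
        have hcm : AEStronglyMeasurable (fun u : ℝ => c j i (t - mid T w j - u)) :=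
          ((hc j i).comp (by fun_prop)).aestronglyMeasurable
        refine integral_mono_ae ?_ ?_ ?_
        · exact integrable_mul_of_le
            ((measurable_kp p).comp (by fun_prop : Measurable fun u : ℝ =>
              (u, θ - α j i))).aestronglyMeasurable
            (ae_abs_kp_le hp _) (integrable_PhiP hp h1 h2) hcm hb
        · exact integrable_mul_of_le (hkqm _).aestronglyMeasurable
            (Eventually.of_forall fun u => hP1 u _) hP2 hcm hb
        · filter_upwards [ae_ne_zero] with u hu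
          refine mul_le_mul_of_nonneg_right ?_ (hcD _ _ _).1
          exact mul_le_mul_of_nonneg_right (kp_le_kq hu _) (Real.exp_pos _).le
      linarith
    · intro j y
      have e1 : Real.exp (-ρ * y.1) * ∑ i, ∑ m, kq p δ (y.1 - τ ⟨j, i⟩ m) (y.2 - α j i) -
          xi T w j y.1 * ∑ i, ∫ u : ℝ, kq p δ u (y.2 - α j i) * Real.exp (-ρ * u) *
            c j i (y.1 - mid T w j - u) =
          ∑ i, (Real.exp (-ρ * y.1) * ∑ m, kq p δ (y.1 - τ ⟨j, i⟩ m) (y.2 - α j i) -
            xi T w j y.1 * ∫ u : ℝ, kq p δ u (y.2 - α j i) * Real.exp (-ρ * u) *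
              c j i (y.1 - mid T w j - u)) := by
        rw [Finset.sum_sub_distrib, ← Finset.mul_sum, ← Finset.mul_sum]
      rw [e1]
      refine (Finset.abs_sum_le_sum_abs _ _).trans ?_
      have e2 : ∀ i : Fin (n j), |Real.exp (-ρ * y.1) *
            ∑ m, kq p δ (y.1 - τ ⟨j, i⟩ m) (y.2 - α j i) -
            xi T w j y.1 * ∫ u : ℝ, kq p δ u (y.2 - α j i) * Real.exp (-ρ * u) *
              c j i (y.1 - mid T w j - u)| ≤
          Real.exp (-ρ * T j) * (C / δ) + |D j| * (1 / w j + 1 / w (j + 1)) * IP := by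
        intro i
        have a1 := hkq ⟨j, i⟩ δ hδ (y.2 - α j i) y.1
        have a2 := slow_var (ρ := ρ) (K := fun u => kq p δ u (y.2 - α j i)) (P := P)
          (hkqm _).aestronglyMeasurable (Eventually.of_forall fun u => hP1 u _)
          hP2 (hc j i) (hcD j i) (continuous_xi T w j)
          (fun s => ⟨xi_nonneg hw hT j s, xi_le_one T w j s⟩) (abs_xi_sub_le hw j) y.1
          (mid T w j)
        simp only at a1
        rw [← hIP] at a2
        have a3 : Real.exp (-ρ * y.1) * ∑ m, kq p δ (y.1 - τ ⟨j, i⟩ m) (y.2 - α j i) -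
            xi T w j y.1 * ∫ u : ℝ, kq p δ u (y.2 - α j i) * Real.exp (-ρ * u) *
              c j i (y.1 - mid T w j - u) =
            Real.exp (-ρ * y.1) * (∑ m, kq p δ (y.1 - τ ⟨j, i⟩ m) (y.2 - α j i) -
              Real.exp (ρ * y.1) * ∫ u : ℝ, kq p δ u (y.2 - α j i) * Real.exp (-ρ * u) *
                dn ⟨j, i⟩ (y.1 - u)) +
            ((∫ u : ℝ, kq p δ u (y.2 - α j i) * Real.exp (-ρ * u) *
              (c j i (y.1 - u - mid T w j) * xi T w j (y.1 - u))) -
              xi T w j y.1 * ∫ u : ℝ, kq p δ u (y.2 - α j i) * Real.exp (-ρ * u) *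
              c j i (y.1 - mid T w j - u)) := by
          rw [mul_sub, ← mul_assoc (Real.exp (-ρ * y.1)) (Real.exp (ρ * y.1)), exp_neg_mul_exp,
            one_mul, hdn]
          ring
        rw [a3]
        refine (abs_add_le _ _).trans (add_le_add ?_ ?_)
        · rw [abs_mul, Real.abs_exp]
          refine (mul_le_mul_of_nonneg_left a1 (Real.exp_pos _).le).trans (le_of_eq ?_)
          rw [← mul_assoc, exp_neg_mul_exp, one_mul]
          ring
        · refine a2.trans ?_
          have : 0 ≤ 1 / w j + 1 / w (j + 1) := by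
            have := hw j
            have := hw (j + 1)
            positivity
          exact mul_le_mul_of_nonneg_right (mul_le_mul_of_nonneg_right (le_abs_self _) this) hIP0
      refine (Finset.sum_le_sum fun i _ => e2 i).trans (le_of_eq ?_)
      rw [Finset.sum_add_distrib]
      simp only [Finset.sum_const, Finset.card_univ, Fintype.card_fin, nsmul_eq_mul]
      ring
    · intro j
      have e1 : Tendsto (fun y : ℝ × ℝ => ∑ i : Fin (n j), ∑ m, Real.exp (-ρ * y.1) *
          kq p δ (y.1 - τ ⟨j, i⟩ m) (y.2 - α j i)) (comap Prod.fst atTop)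
          (𝓝 (∑ i : Fin (n j), ∑ m : Fin (N ⟨j, i⟩), 0)) :=
        tendsto_finsetSum _ fun i _ => tendsto_finsetSum _ fun m _ =>
          tendsto_kq hp h1 h2 hδ _ _
      simp only [Finset.sum_const_zero] at e1
      refine e1.congr fun y => ?_
      rw [Finset.mul_sum]
      refine Finset.sum_congr rfl fun i _ => ?_
      rw [Finset.mul_sum]
    · intro y
      have e1 := hf3 y.1 y.2 δ hδ
      have e2 := (e1.sigma fun x => hasSum_fintype _).sigma fun j => hasSum_fintype _
      exact e2.mul_left _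

end HBInd
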