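import Pool.Agent.HBInd.Nec
import Pool.Agent.HBInd.Trig

/-!
# The uniform upper bound by the indicator

Let `f` be in the class `E_ρ` with real valued indicator `g` (continuous, `2π`-periodic,
`ρ`-trigonometrically convex: `trigConvex_of_ind`, `continuous_of_trigConvex`, `ind_add_two_pi`).

* `ind_uniform`: divide `[-π, π]` into `N` sectors `[a, b]` of equal small opening `d` (with `ρ d < π`,
  `σ d < π` for some `σ > ρ`, see `HasOrder.eventually`), apply `sector_bound` with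
  `A = g a + ε / 4`, `B = g b + ε / 4` (`eventually_of_ind_lt`). The majorant is
  `s(t) = (A sin ρ(b - t) + B sin ρ(t - a)) / sin ρ(b - a)`, and
  `1 ≤ (sin ρ(b - t) + sin ρ(t - a)) / sin ρ(b - a) ≤ 1 / cos (ρ d / 2)`, so by uniform continuity of
  `g`, `s(t) ≤ g t + ε / 2` on `[a, b]` if `d` is small; `C e^{(g + ε/2) r^ρ} ≤ e^{(g + ε) r^ρ}` for large
  `r`. Finitely many sectors, then periodicity (`ray_add_int`) for arbitrary `θ`.
* `ind_near`: `ind_uniform` with `ε / 2` and continuity: write `z = ray s t` with `s = ‖z‖`,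
  `t = arg (z e^{-iθ₀}) + θ₀`; `|s - r| ≤ η r`, and `t` is close to `θ₀`, so
  `(g t + ε / 2) s ^ ρ ≤ (g θ₀ + ε) r ^ ρ` if `η` is small.
* `finite_type`: from `ind_uniform`, `g` bounded.
-/

namespace HBInd

open Complex Filter Topology Set Bornology
open scoped Real ComplexConjugate

lemma ind_real_add_int {ρ : ℝ} {f : ℂ → ℂ} {g : ℝ → ℝ} (hg : ∀ θ, ind ρ f θ = g θ) (θ : ℝ)
    (n : ℤ) : g (θ + n * (2 * π)) = g θ := by
  have h := ind_add_int ρ f θ n
  rw [hg, hg] at h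
  exact_mod_cast h

/-- the elementary inequality behind the local bound -/
lemma unif_sin_aux {A x y : ℝ} (hx : 0 ≤ x) (hy : 0 ≤ y) (h0 : 0 < x + y) (h1 : x + y ≤ 1) :
    (A * Real.sin x + A * Real.sin y) / Real.sin (x + y) ≤ A + |A| * (x + y) := by
  have hpi := Real.pi_gt_three
  set u := x + y with hu
  have hsin : 0 < Real.sin u := Real.sin_pos_of_pos_of_lt_pi h0 (by linarith)
  rw [div_le_iff₀ hsin]
  have hs1 : Real.sin u ≤ Real.sin x + Real.sin y := sin_add_le hx hy (by linarith)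
  have hs2 : Real.sin x + Real.sin y ≤ u := by
    have := Real.sin_le hx
    have := Real.sin_le hy
    linarith
  have hs3 : u ≤ (1 + u) * Real.sin u := by
    have h3 := Real.sin_gt_sub_cube h0
    have h4 : (1 + u) * (u - u ^ 3 / 6) ≤ (1 + u) * Real.sin u :=
      mul_le_mul_of_nonneg_left h3.le (by linarith)
    have h5 : u ≤ (1 + u) * (u - u ^ 3 / 6) := by
      have h6 : 0 ≤ u ^ 2 * (1 - u / 6 - u ^ 2 / 6) := by
        apply mul_nonneg (sq_nonneg _)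
        nlinarith
      nlinarith
    linarith
  rcases le_or_gt 0 A with hA | hA
  · rw [abs_of_nonneg hA]
    have h6 : A * (Real.sin x + Real.sin y) ≤ A * ((1 + u) * Real.sin u) :=
      mul_le_mul_of_nonneg_left (hs2.trans hs3) hA
    calc A * Real.sin x + A * Real.sin y = A * (Real.sin x + Real.sin y) := by ring
      _ ≤ A * ((1 + u) * Real.sin u) := h6
      _ = (A + A * u) * Real.sin u := by ring
  · rw [abs_of_neg hA]
    have h6 : A * (Real.sin x + Real.sin y) ≤ A * Real.sin u :=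
      mul_le_mul_of_nonpos_left hs1 hA.le
    have h7 : 0 ≤ -A * u * Real.sin u := by
      apply mul_nonneg (mul_nonneg (by linarith) h0.le) hsin.le
    calc A * Real.sin x + A * Real.sin y = A * (Real.sin x + Real.sin y) := by ring
      _ ≤ A * Real.sin u := h6
      _ ≤ (A + -A * u) * Real.sin u := by linarith

lemma ind_local {ρ : ℝ} {f : ℂ → ℂ} (hf : InClass ρ f) (hρ : 0 < ρ) {g : ℝ → ℝ}
    (hg : ∀ θ, ind ρ f θ = g θ) (θ₀ : ℝ) {ε : ℝ} (hε : 0 < ε) :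
    ∃ δ : ℝ, 0 < δ ∧ ∀ᶠ r : ℝ in atTop, ∀ t ∈ Icc (θ₀ - δ) (θ₀ + δ),
      ‖f (ray r t)‖ ≤ Real.exp ((g t + ε) * r ^ ρ) := by
  have hc : Continuous g := continuous_of_trigConvex hρ (trigConvex_of_ind hf hρ hg)
  set η : ℝ := ε / 8 with hη
  have hη0 : 0 < η := by rw [hη]; linarith
  obtain ⟨δ₁, hδ₁, hδ₁'⟩ := Metric.continuousAt_iff.1 (hc.continuousAt (x := θ₀)) η hη0
  set A : ℝ := g θ₀ + 2 * η with hA
  set δ : ℝ := min (δ₁ / 2) (min (1 / (2 * ρ)) (η / (2 * ρ * (|A| + 1)))) with hδ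
  have hA1 : 0 < |A| + 1 := by positivity
  have hδ0 : 0 < δ := by
    rw [hδ]
    refine lt_min (by linarith) (lt_min (by positivity) (by positivity))
  have hδa : δ < δ₁ := lt_of_le_of_lt (min_le_left _ _) (by linarith)
  have hδb : 2 * ρ * δ ≤ 1 := by
    have h : δ ≤ 1 / (2 * ρ) := (min_le_right _ _).trans (min_le_left _ _)
    calc 2 * ρ * δ ≤ 2 * ρ * (1 / (2 * ρ)) := mul_le_mul_of_nonneg_left h (by positivity)
      _ = 1 := by field_simp
  have hδc : |A| * (2 * ρ * δ) ≤ η := by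
    have h : δ ≤ η / (2 * ρ * (|A| + 1)) := (min_le_right _ _).trans (min_le_right _ _)
    have h2 : (|A| + 1) * (2 * ρ * δ) ≤ η := by
      calc (|A| + 1) * (2 * ρ * δ) = 2 * ρ * (|A| + 1) * δ := by ring
        _ ≤ 2 * ρ * (|A| + 1) * (η / (2 * ρ * (|A| + 1))) :=
            mul_le_mul_of_nonneg_left h (by positivity)
        _ = η := by field_simp
    have h3 : 0 ≤ 2 * ρ * δ := by positivity
    nlinarith
  refine ⟨δ, hδ0, ?_⟩
  have hgc : ∀ t, |t - θ₀| ≤ δ → |g t - g θ₀| < η := by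
    intro t ht
    have := hδ₁' (x := t) (by rw [Real.dist_eq]; exact lt_of_le_of_lt ht hδa)
    rwa [Real.dist_eq] at this
  set a := θ₀ - δ with ha
  set b := θ₀ + δ with hb
  have hab : a < b := by rw [ha, hb]; linarith
  have hba : b - a = 2 * δ := by rw [ha, hb]; ring
  have hpi := Real.pi_gt_three
  have hρl : ρ * (b - a) < π := by rw [hba]; linarith
  have hba0 : 0 < b - a := sub_pos.2 hab
  obtain ⟨σ, h1, h2⟩ := exists_between ((lt_div_iff₀ hba0).2 hρl)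
  rw [lt_div_iff₀ hba0] at h2
  have hga : ind ρ f a < (A : EReal) := by
    rw [hg]
    have := abs_lt.1 (hgc a (by rw [ha]; simp [abs_of_pos hδ0]))
    exact_mod_cast (by rw [hA]; linarith : g a < A)
  have hgb : ind ρ f b < (A : EReal) := by
    rw [hg]
    have := abs_lt.1 (hgc b (by rw [hb]; simp [abs_of_pos hδ0]))
    exact_mod_cast (by rw [hA]; linarith : g b < A)
  obtain ⟨C, -, hC⟩ := sector_bound hf.entire hρ (hρ.trans h1) hab hρl h2
    (hf.order.eventually h1) ((eventually_of_ind_lt hga).mono fun _ h => h.le)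
    ((eventually_of_ind_lt hgb).mono fun _ h => h.le)
  have h3 : Tendsto (fun r : ℝ => Real.exp (ε / 2 * r ^ ρ)) atTop atTop :=
    Real.tendsto_exp_atTop.comp ((tendsto_rpow_atTop hρ).const_mul_atTop (by linarith))
  filter_upwards [h3.eventually_ge_atTop C, eventually_gt_atTop 0] with r hr hr0
  intro t ht
  have hrp : 0 < r ^ ρ := Real.rpow_pos_of_pos hr0 _
  have e0 : ρ * (b - a) = ρ * (b - t) + ρ * (t - a) := by ring
  have hs : (A * Real.sin (ρ * (b - t)) + A * Real.sin (ρ * (t - a))) /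
      Real.sin (ρ * (b - a)) ≤ g t + ε / 2 := by
    have h4 := unif_sin_aux (A := A) (x := ρ * (b - t)) (y := ρ * (t - a))
      (mul_nonneg hρ.le (by linarith [ht.2])) (mul_nonneg hρ.le (by linarith [ht.1]))
      (by rw [← e0]; exact mul_pos hρ hba0) (by rw [← e0, hba]; linarith)
    rw [← e0] at h4
    refine h4.trans ?_
    have h5 := abs_lt.1 (hgc t (by
      rw [abs_le]
      exact ⟨by linarith [ht.1], by linarith [ht.2]⟩))
    have h6 : |A| * (ρ * (b - a)) ≤ η := by rw [hba]; linarith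
    rw [hη] at h5 h6 hA
    linarith [h5.1]
  calc ‖f (ray r t)‖ ≤ C * Real.exp ((A * Real.sin (ρ * (b - t)) + A * Real.sin (ρ * (t - a))) /
        Real.sin (ρ * (b - a)) * r ^ ρ) := hC r hr0 t ht
    _ ≤ Real.exp (ε / 2 * r ^ ρ) * Real.exp ((g t + ε / 2) * r ^ ρ) := by
        refine mul_le_mul hr (Real.exp_le_exp.2 (mul_le_mul_of_nonneg_right hs hrp.le))
          (Real.exp_pos _).le (Real.exp_pos _).le
    _ = Real.exp ((g t + ε) * r ^ ρ) := by
        rw [← Real.exp_add]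
        congr 1
        ring

theorem ind_uniform {ρ : ℝ} {f : ℂ → ℂ} (hf : InClass ρ f) (hρ : 0 < ρ) {g : ℝ → ℝ}
    (hg : ∀ θ, ind ρ f θ = g θ) {ε : ℝ} (hε : 0 < ε) :
    ∀ᶠ r : ℝ in atTop, ∀ θ : ℝ, ‖f (ray r θ)‖ ≤ Real.exp ((g θ + ε) * r ^ ρ) := by
  have key : ∀ᶠ r : ℝ in atTop, ∀ θ ∈ Icc (-π) π,
      ‖f (ray r θ)‖ ≤ Real.exp ((g θ + ε) * r ^ ρ) := by
    refine (isCompact_Icc (a := -π) (b := π)).induction_on
      (p := fun s => ∀ᶠ r : ℝ in atTop, ∀ θ ∈ s, ‖f (ray r θ)‖ ≤ Real.exp ((g θ + ε) * r ^ ρ))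
      ?_ ?_ ?_ ?_
    · exact Eventually.of_forall fun r θ hθ => absurd hθ (notMem_empty θ)
    · intro s t hst ht
      exact ht.mono fun r h θ hθ => h θ (hst hθ)
    · intro s t hs ht
      filter_upwards [hs, ht] with r h1 h2 θ hθ
      rcases hθ with hθ | hθ
      · exact h1 θ hθ
      · exact h2 θ hθ
    · intro θ₀ _
      obtain ⟨δ, hδ, h⟩ := ind_local hf hρ hg θ₀ hε
      exact ⟨Icc (θ₀ - δ) (θ₀ + δ), mem_nhdsWithin_of_mem_nhds
        (Icc_mem_nhds (by linarith) (by linarith)), h⟩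
  filter_upwards [key] with r hr θ
  obtain ⟨n, hn, -⟩ := existsUnique_add_zsmul_mem_Ioc (a := 2 * π) (by positivity) θ (-π)
  rw [zsmul_eq_mul] at hn
  have h1 := hr (θ + n * (2 * π)) ⟨hn.1.le, by linarith [hn.2]⟩
  rwa [ray_add_int, ind_real_add_int hg] at h1

lemma ray_norm_arg (z : ℂ) (θ₀ : ℝ) : ray ‖z‖ (θ₀ + (z * Complex.exp (-(θ₀ : ℂ) * I)).arg) = z := by
  have h1 : ‖z * Complex.exp (-(θ₀ : ℂ) * I)‖ = ‖z‖ := by
    rw [norm_mul]
    have : (-(θ₀ : ℂ) * I) = ((-θ₀ : ℝ) : ℂ) * I := by push_cast; ring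
    rw [this, Complex.norm_exp_ofReal_mul_I, mul_one]
  have h2 := Complex.norm_mul_exp_arg_mul_I (z * Complex.exp (-(θ₀ : ℂ) * I))
  rw [h1] at h2
  rw [ray]
  push_cast
  rw [add_mul, Complex.exp_add, mul_left_comm, h2, mul_left_comm, ← Complex.exp_add]
  have : (θ₀ : ℂ) * I + -(θ₀ : ℂ) * I = 0 := by ring
  rw [this, Complex.exp_zero, mul_one]

theorem ind_near {ρ : ℝ} {f : ℂ → ℂ} (hf : InClass ρ f) (hρ : 0 < ρ) {g : ℝ → ℝ}
    (hg : ∀ θ, ind ρ f θ = g θ) (θ₀ : ℝ) {ε : ℝ} (hε : 0 < ε) :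
    ∃ η : ℝ, 0 < η ∧ η < 1 ∧ ∀ᶠ r : ℝ in atTop, ∀ z : ℂ, ‖z - ray r θ₀‖ ≤ η * r →
      ‖f z‖ ≤ Real.exp ((g θ₀ + ε) * r ^ ρ) := by
  have hc : Continuous g := continuous_of_trigConvex hρ (trigConvex_of_ind hf hρ hg)
  -- the auxiliary function
  have hcont : ContinuousAt (fun u : ℂ => (g (θ₀ + u.arg) + ε / 2) * ‖u‖ ^ ρ) 1 := by
    have h1 : ContinuousAt Complex.arg 1 :=
      Complex.continuousAt_arg (by simp [Complex.slitPlane])
    have h2 : ContinuousAt (fun u : ℂ => g (θ₀ + u.arg) + ε / 2) 1 :=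
      ((hc.continuousAt).comp (continuousAt_const.add h1)).add continuousAt_const
    have h3 : ContinuousAt (fun u : ℂ => ‖u‖ ^ ρ) 1 :=
      (continuous_norm.continuousAt).rpow_const (Or.inr hρ.le)
    exact h2.mul h3
  have hval : (fun u : ℂ => (g (θ₀ + u.arg) + ε / 2) * ‖u‖ ^ ρ) 1 < g θ₀ + ε := by
    simp only [Complex.arg_one, add_zero, norm_one, Real.one_rpow, mul_one]
    linarith
  obtain ⟨η₁, hη₁, hη₁'⟩ := Metric.eventually_nhds_iff.1 (hcont.eventually (gt_mem_nhds hval))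
  set η : ℝ := min (η₁ / 2) (1 / 2) with hη
  have hη0 : 0 < η := lt_min (by linarith) (by norm_num)
  have hηh : η ≤ 1 / 2 := min_le_right _ _
  have hηl : η < η₁ := lt_of_le_of_lt (min_le_left _ _) (by linarith)
  refine ⟨η, hη0, by linarith, ?_⟩
  obtain ⟨R, hR⟩ := eventually_atTop.1 (ind_uniform hf hρ hg (half_pos hε))
  filter_upwards [eventually_gt_atTop 0, eventually_ge_atTop (2 * R)] with r hr0 hrR
  intro z hz
  have hexp : ‖Complex.exp (-(θ₀ : ℂ) * I)‖ = 1 := by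
    have : (-(θ₀ : ℂ) * I) = ((-θ₀ : ℝ) : ℂ) * I := by push_cast; ring
    rw [this, Complex.norm_exp_ofReal_mul_I]
  set w := z * Complex.exp (-(θ₀ : ℂ) * I) with hw
  have hwn : ‖w‖ = ‖z‖ := by rw [hw, norm_mul, hexp, mul_one]
  have hwr : ‖w - (r : ℂ)‖ ≤ η * r := by
    have e1 : w - (r : ℂ) = (z - ray r θ₀) * Complex.exp (-(θ₀ : ℂ) * I) := by
      rw [sub_mul, ray, mul_assoc, ← Complex.exp_add]
      have : (θ₀ : ℂ) * I + -(θ₀ : ℂ) * I = 0 := by ring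
      rw [this, Complex.exp_zero, mul_one, hw]
    rw [e1, norm_mul, hexp, mul_one]
    exact hz
  set u : ℂ := ((r⁻¹ : ℝ) : ℂ) * w with hu
  have hrc : (r : ℂ) ≠ 0 := by exact_mod_cast hr0.ne'
  have hu1 : dist u 1 < η₁ := by
    have e1 : u - 1 = ((r⁻¹ : ℝ) : ℂ) * (w - (r : ℂ)) := by
      rw [hu, mul_sub]
      congr 1
      push_cast
      rw [inv_mul_cancel₀ hrc]
    rw [dist_eq_norm, e1, norm_mul, Complex.norm_real, Real.norm_of_nonneg (inv_pos.2 hr0).le]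
    calc r⁻¹ * ‖w - (r : ℂ)‖ ≤ r⁻¹ * (η * r) :=
          mul_le_mul_of_nonneg_left hwr (inv_pos.2 hr0).le
      _ = η := by field_simp
      _ < η₁ := hηl
  have h1 := hη₁' hu1
  have harg : u.arg = w.arg := by
    rw [hu]
    exact Complex.arg_real_mul w (inv_pos.2 hr0)
  have hun : ‖u‖ = r⁻¹ * ‖z‖ := by
    rw [hu, norm_mul, Complex.norm_real, Real.norm_of_nonneg (inv_pos.2 hr0).le, hwn]
  have hsR : R ≤ ‖z‖ := by
    have h2 : r ≤ ‖w‖ + ‖w - (r : ℂ)‖ := by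
      have h3 : ‖(r : ℂ)‖ ≤ ‖w‖ + ‖w - (r : ℂ)‖ := by
        have e : (r : ℂ) = w - (w - (r : ℂ)) := by ring
        calc ‖(r : ℂ)‖ = ‖w - (w - (r : ℂ))‖ := by rw [← e]
          _ ≤ ‖w‖ + ‖w - (r : ℂ)‖ := norm_sub_le _ _
      rwa [Complex.norm_real, Real.norm_of_nonneg hr0.le] at h3
    rw [hwn] at h2
    nlinarith
  have h2 := hR ‖z‖ hsR (θ₀ + w.arg)
  rw [hw, ray_norm_arg] at h2
  refine h2.trans (Real.exp_le_exp.2 ?_)
  rw [← hw]
  rw [harg, hun, Real.mul_rpow (inv_pos.2 hr0).le (norm_nonneg _), Real.inv_rpow hr0.le] at h1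
  have hrp : 0 < r ^ ρ := Real.rpow_pos_of_pos hr0 _
  have h3 := mul_le_mul_of_nonneg_right h1.le hrp.le
  calc (g (θ₀ + w.arg) + ε / 2) * ‖z‖ ^ ρ
      = (g (θ₀ + w.arg) + ε / 2) * ((r ^ ρ)⁻¹ * ‖z‖ ^ ρ) * r ^ ρ := by
        field_simp
    _ ≤ (g θ₀ + ε) * r ^ ρ := h3

theorem finite_type {ρ : ℝ} {f : ℂ → ℂ} (hf : InClass ρ f) (hρ : 0 < ρ) {g : ℝ → ℝ}
    (hg : ∀ θ, ind ρ f θ = g θ) :
    ∃ K : ℝ, 0 < K ∧ ∀ᶠ r : ℝ in atTop, ∀ z : ℂ, ‖z‖ ≤ r → ‖f z‖ ≤ Real.exp (K * r ^ ρ) := by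
  have hc : Continuous g := continuous_of_trigConvex hρ (trigConvex_of_ind hf hρ hg)
  obtain ⟨M, hM⟩ := (isCompact_Icc (a := -π) (b := π)).exists_bound_of_continuousOn hc.continuousOn
  have hM' : ∀ θ, g θ ≤ M := by
    intro θ
    obtain ⟨n, hn, -⟩ := existsUnique_add_zsmul_mem_Ioc (a := 2 * π) (by positivity) θ (-π)
    rw [zsmul_eq_mul] at hn
    have h1 := hM (θ + n * (2 * π)) ⟨hn.1.le, by linarith [hn.2]⟩
    rw [ind_real_add_int hg, Real.norm_eq_abs] at h1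
    exact (le_abs_self _).trans h1
  set K : ℝ := max (M + 1) 1 with hK
  have hK1 : 1 ≤ K := le_max_right _ _
  refine ⟨K, by linarith, ?_⟩
  obtain ⟨R, hR⟩ := eventually_atTop.1 (ind_uniform hf hρ hg one_pos)
  obtain ⟨B, hB1, hB⟩ := exists_bound hf.entire.continuous (R := R)
  have h3 : Tendsto (fun r : ℝ => Real.exp (K * r ^ ρ)) atTop atTop :=
    Real.tendsto_exp_atTop.comp ((tendsto_rpow_atTop hρ).const_mul_atTop (by linarith))
  filter_upwards [h3.eventually_ge_atTop B] with r hr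
  intro z hz
  rcases le_total ‖z‖ R with h | h
  · exact (hB z h).trans hr
  · have h2 := hR ‖z‖ h (0 + (z * Complex.exp (-((0 : ℝ) : ℂ) * I)).arg)
    rw [ray_norm_arg] at h2
    refine h2.trans (Real.exp_le_exp.2 ?_)
    have h4 : ‖z‖ ^ ρ ≤ r ^ ρ := Real.rpow_le_rpow (norm_nonneg _) hz hρ.le
    have h5 : 0 ≤ ‖z‖ ^ ρ := Real.rpow_nonneg (norm_nonneg _) _
    have h6 : g (0 + (z * Complex.exp (-((0 : ℝ) : ℂ) * I)).arg) + 1 ≤ K :=
      (by linarith [hM' (0 + (z * Complex.exp (-((0 : ℝ) : ℂ) * I)).arg)] :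
        g (0 + (z * Complex.exp (-((0 : ℝ) : ℂ) * I)).arg) + 1 ≤ M + 1).trans (le_max_left _ _)
    calc (g (0 + (z * Complex.exp (-((0 : ℝ) : ℂ) * I)).arg) + 1) * ‖z‖ ^ ρ
        ≤ K * ‖z‖ ^ ρ := mul_le_mul_of_nonneg_right h6 h5
      _ ≤ K * r ^ ρ := mul_le_mul_of_nonneg_left h4 (by linarith)

end HBInd
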