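import Pool.Agent.HBInd.GlueB
import Pool.Agent.HBInd.Uniform
import Pool.Agent.HBInd.Special

/-!
# Gluing of touching potentials: identification of the indicator
-/

namespace HBInd

open Complex Filter Topology Set MeasureTheory Bornology
open scoped Real ComplexConjugate

/-- indicators (for `ρ < 2`) without the value `+∞` do not take the value `-∞` -/
theorem ind_ne_bot_two {ρ : ℝ} {f : ℂ → ℂ} (hf : InClass ρ f) (hρ : 0 < ρ) (hρ2 : ρ < 2)
    (hfin : ∀ θ, ind ρ f θ ≠ ⊤) (θ : ℝ) : ind ρ f θ ≠ ⊥ := by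
  intro h0
  have hpi := Real.pi_pos
  have hstep : ∀ a t : ℝ, ind ρ f a = ⊥ → a ≤ t → t ≤ a + π / 2 → ind ρ f t = ⊥ := by
    intro a t ha h1 h2
    refine ind_bot_right hf hρ hfin ha h1 ?_
    have : ρ * (t - a) ≤ ρ * (π / 2) := mul_le_mul_of_nonneg_left (by linarith) hρ.le
    nlinarith
  have hsteps : ∀ (n : ℕ) (t : ℝ), θ ≤ t → t ≤ θ + n * (π / 2) → ind ρ f t = ⊥ := by
    intro n
    induction n with
    | zero =>
      intro t h1 h2
      have : t = θ := by simp at h2; linarith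
      rw [this, h0]
    | succ n ih =>
      intro t h1 h2
      push_cast at h2
      rcases le_total t (θ + n * (π / 2)) with h | h
      · exact ih t h1 h
      · refine hstep (θ + n * (π / 2)) t (ih _ ?_ le_rfl) h (by linarith)
        have : 0 ≤ (n : ℝ) * (π / 2) := by positivity
        linarith
  have hall : ∀ t, ind ρ f t = ⊥ := by
    intro t
    obtain ⟨n, hn, -⟩ := existsUnique_add_zsmul_mem_Ico (a := 2 * π) (by positivity) t θ
    rw [zsmul_eq_mul] at hn
    rw [← ind_add_int ρ f t n]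
    exact hsteps 4 _ hn.1 (by push_cast; linarith [hn.2])
  have hl : ρ * (π / 2) < π := by nlinarith
  have hsec : ∀ a b : ℝ, b = a + π / 2 → ∃ C : ℝ, 0 ≤ C ∧ ∀ r : ℝ, 0 < r → ∀ t ∈ Icc a b,
      ‖f (ray r t)‖ ≤ C * Real.exp (-r ^ ρ) := by
    intro a b hb
    refine exp_bound_of_bot hf hρ (by rw [hb]; linarith) ?_ (hall _) (hall _)
    rw [hb, add_sub_cancel_left]
    exact hl
  obtain ⟨C1, h10, h1⟩ := hsec (-π) (-π / 2) (by ring)
  obtain ⟨C2, h20, h2⟩ := hsec (-π / 2) 0 (by ring)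
  obtain ⟨C3, h30, h3⟩ := hsec 0 (π / 2) (by ring)
  obtain ⟨C4, h40, h4⟩ := hsec (π / 2) π (by ring)
  have hb : ∀ z : ℂ, z ≠ 0 → ‖f z‖ ≤ (C1 + C2 + C3 + C4) * Real.exp (-‖z‖ ^ ρ) := by
    intro z hz
    have hz0 : 0 < ‖z‖ := norm_pos_iff.2 hz
    have hzr : ray ‖z‖ z.arg = z := Complex.norm_mul_exp_arg_mul_I z
    have ha1 := Complex.neg_pi_lt_arg z
    have ha2 := Complex.arg_le_pi z
    have he := Real.exp_pos (-‖z‖ ^ ρ)
    have key : ∀ C a b : ℝ, C ≤ C1 + C2 + C3 + C4 → (∀ r : ℝ, 0 < r → ∀ t ∈ Icc a b,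
        ‖f (ray r t)‖ ≤ C * Real.exp (-r ^ ρ)) → z.arg ∈ Icc a b →
        ‖f z‖ ≤ (C1 + C2 + C3 + C4) * Real.exp (-‖z‖ ^ ρ) := by
      intro C a b hC h h'
      have := h ‖z‖ hz0 z.arg h'
      rw [hzr] at this
      exact this.trans (mul_le_mul_of_nonneg_right hC he.le)
    rcases le_total z.arg (-π / 2) with h | h
    · exact key C1 _ _ (by linarith) h1 ⟨ha1.le, h⟩
    · rcases le_total z.arg 0 with h' | h'
      · exact key C2 _ _ (by linarith) h2 ⟨h, h'⟩
      · rcases le_total z.arg (π / 2) with h'' | h''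
        · exact key C3 _ _ (by linarith) h3 ⟨h', h''⟩
        · exact key C4 _ _ (by linarith) h4 ⟨h'', ha2⟩
  set C := C1 + C2 + C3 + C4 with hC
  have hC0 : 0 ≤ C := by rw [hC]; linarith
  have hbdd : IsBounded (range f) := by
    rw [isBounded_iff_forall_norm_le]
    refine ⟨max C ‖f 0‖, ?_⟩
    rintro _ ⟨z, rfl⟩
    rcases eq_or_ne z 0 with rfl | hz
    · exact le_max_right _ _
    · refine ((hb z hz).trans ?_).trans (le_max_left _ _)
      refine mul_le_of_le_one_right hC0 (Real.exp_le_one_iff.2 ?_)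
      exact neg_nonpos.2 (Real.rpow_nonneg (norm_nonneg _) _)
  have hconst : ∀ z : ℂ, f z = f (-I) := fun z => hf.entire.apply_eq_apply_of_bounded hbdd z (-I)
  have hne : f (-I) ≠ 0 := hf.zero_free (-I) (by simp)
  have hlim : Tendsto (fun r : ℝ => C * Real.exp (-r ^ ρ)) atTop (𝓝 0) := by
    have h := (Real.tendsto_exp_atBot.comp (tendsto_neg_atTop_atBot.comp
      (tendsto_rpow_atTop hρ))).const_mul C
    rw [mul_zero] at h
    exact h
  have hle : ‖f (-I)‖ ≤ 0 := by
    refine ge_of_tendsto hlim ?_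
    filter_upwards [eventually_gt_atTop 0] with r hr
    have h := hb (r : ℂ) (by exact_mod_cast hr.ne')
    rwa [hconst, Complex.norm_real, Real.norm_of_nonneg hr.le] at h
  exact hne (norm_le_zero_iff.1 hle)

/-- the mean value of the kernel over a circle around the origin -/
lemma mean_kp_nonneg (p : ℕ) (u α : ℝ) : 0 ≤ ∫ θ in (0 : ℝ)..(2 * π), kp p u (θ - α) := by
  have hper : Function.Periodic (fun θ => kp p u θ) (2 * π) := by
    intro θ
    simp only [kp]
    congr 1
    have : (u : ℂ) + ((θ + 2 * π : ℝ) : ℂ) * I = ((u : ℂ) + (θ : ℂ) * I) + 2 * π * I := by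
      push_cast
      ring
    rw [this, Complex.exp_periodic]
  have e1 : ∫ θ in (0 : ℝ)..(2 * π), kp p u (θ - α) = ∫ θ in (0 : ℝ)..(2 * π), kp p u θ := by
    rw [intervalIntegral.integral_comp_sub_right (fun θ => kp p u θ) α]
    have h := hper.intervalIntegral_add_eq (0 - α) 0
    rw [zero_add] at h
    rw [← h]
    congr 1
    ring
  rw [e1]
  have hmap : ∀ θ : ℝ, Complex.exp ((u : ℂ) + (θ : ℂ) * I) = circleMap 0 (Real.exp u) θ := by
    intro θ
    rw [circleMap, zero_add, Complex.ofReal_exp, ← Complex.exp_add]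
  have e2 : ∀ θ : ℝ, kp p u θ = Real.log ‖circleMap 0 (Real.exp u) θ - 1‖ +
      p * (Real.exp u * Real.cos θ) := by
    intro θ
    rw [kp, KK, norm_sub_rev, hmap]
    congr 2
    rw [← hmap, Complex.exp_re]
    simp
  have hi1 : IntervalIntegrable (fun θ => Real.log ‖circleMap 0 (Real.exp u) θ - 1‖) volume 0
      (2 * π) := circleIntegrable_log_norm_sub_const (a := 1) (c := 0) (Real.exp u)
  have e3 : ∫ θ in (0 : ℝ)..(2 * π), kp p u θ =
      (∫ θ in (0 : ℝ)..(2 * π), Real.log ‖circleMap 0 (Real.exp u) θ - 1‖) +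
      ∫ θ in (0 : ℝ)..(2 * π), (p : ℝ) * (Real.exp u * Real.cos θ) := by
    rw [← intervalIntegral.integral_add hi1 ((by fun_prop : Continuous fun θ : ℝ =>
      (p : ℝ) * (Real.exp u * Real.cos θ)).intervalIntegrable _ _)]
    exact intervalIntegral.integral_congr fun θ _ => e2 θ
  have e4 : ∫ θ in (0 : ℝ)..(2 * π), (p : ℝ) * (Real.exp u * Real.cos θ) = 0 := by
    rw [intervalIntegral.integral_const_mul, intervalIntegral.integral_const_mul, integral_cos]
    simp
  have e5 := circleAverage_log_norm_sub_const_eq_log_radius_add_posLog (a := 1) (c := 0)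
    (R := Real.exp u) (Real.exp_pos u).ne'
  rw [Real.circleAverage, smul_eq_mul] at e5
  rw [e3, e4, add_zero]
  have hpi := Real.pi_pos
  have e6 : 0 ≤ (2 * π)⁻¹ * ∫ θ in (0 : ℝ)..(2 * π),
      Real.log ‖circleMap 0 (Real.exp u) θ - 1‖ := by
    rw [e5, Real.log_exp, zero_sub, norm_neg, norm_one, mul_one, ← Real.exp_neg]
    rcases le_total 0 u with h | h
    · exact add_nonneg h Real.posLog_nonneg
    · rw [Real.posLog_eq_log (by
        rw [abs_of_pos (Real.exp_pos _)]
        exact Real.one_le_exp (by linarith)), Real.log_exp]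
      linarith
  have hpos : 0 < (2 * π)⁻¹ := by positivity
  exact nonneg_of_mul_nonneg_right e6 hpos

/-- functions with touching potentials from below have a non-negative mean value -/
lemma mean_nonneg {p : ℕ} (hp : p ≤ 1) {ρ : ℝ} (h1 : (p : ℝ) < ρ) (h2 : ρ < p + 1)
    {n : ℕ} {α : Fin n → ℝ} {c : Fin n → ℝ → ℝ} {D : ℝ} (hc : ∀ i, Continuous (c i))
    (hcD : ∀ i t, 0 ≤ c i t ∧ c i t ≤ D) {h : ℝ → ℝ} (hh : Continuous h) {ε : ℝ}
    (hV : ∀ t θ, Vpot p ρ α c t θ ≤ h θ + ε) :
    0 ≤ ∫ θ in (0 : ℝ)..(2 * π), (h θ + ε) := by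
  have hpi := Real.pi_pos
  have hprod : ∀ i, Integrable (Function.uncurry fun θ u : ℝ =>
      kp p u (θ - α i) * Real.exp (-ρ * u) * c i (0 - u))
      ((volume.restrict (Ioc 0 (2 * π))).prod volume) := by
    intro i
    have hD : 0 ≤ D := (hcD i 0).1.trans (hcD i 0).2
    have hb : Integrable (fun x : ℝ × ℝ => D * ((1 + |x.2|) * PhiP p x.2 * Real.exp (-ρ * x.2)))
        ((volume.restrict (Ioc 0 (2 * π))).prod volume) :=
      ((integrable_PhiP hp h1 h2).const_mul D).comp_snd _
    refine hb.mono' ?_ ?_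
    · refine Measurable.aestronglyMeasurable ?_
      have m1 : Measurable fun x : ℝ × ℝ => kp p x.2 (x.1 - α i) :=
        (measurable_kp p).comp (by fun_prop : Measurable fun x : ℝ × ℝ => (x.2, x.1 - α i))
      have m2 : Measurable fun x : ℝ × ℝ => c i (0 - x.2) :=
        (hc i).measurable.comp (by fun_prop)
      exact (m1.mul (by fun_prop)).mul m2
    · have hne : ∀ᵐ x : ℝ × ℝ ∂((volume.restrict (Ioc 0 (2 * π))).prod volume), x.2 ≠ 0 :=
        Measure.quasiMeasurePreserving_snd.ae ae_ne_zero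
      filter_upwards [hne] with x hx
      rw [Function.uncurry, norm_mul, norm_mul, Real.norm_eq_abs, Real.norm_eq_abs,
        Real.norm_eq_abs, Real.abs_exp, abs_of_nonneg (hcD i _).1]
      have h3 := abs_kp_le_PhiP hp hx (x.1 - α i)
      calc |kp p x.2 (x.1 - α i)| * Real.exp (-ρ * x.2) * c i (0 - x.2) ≤
          PhiP p x.2 * Real.exp (-ρ * x.2) * D :=
            mul_le_mul (mul_le_mul_of_nonneg_right h3 (Real.exp_pos _).le) (hcD i _).2
              (hcD i _).1 (mul_nonneg (PhiP_nonneg p _) (Real.exp_pos _).le)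
        _ ≤ D * ((1 + |x.2|) * PhiP p x.2 * Real.exp (-ρ * x.2)) := by
            have h4 : 0 ≤ |x.2| * (D * PhiP p x.2 * Real.exp (-ρ * x.2)) :=
              mul_nonneg (abs_nonneg _)
                (mul_nonneg (mul_nonneg hD (PhiP_nonneg p _)) (Real.exp_pos _).le)
            nlinarith
  have hint : ∀ i, Integrable (fun θ => ∫ u : ℝ,
      kp p u (θ - α i) * Real.exp (-ρ * u) * c i (0 - u)) (volume.restrict (Ioc 0 (2 * π))) :=
    fun i => (hprod i).integral_prod_left
  have hnn : ∀ i, 0 ≤ ∫ θ in Ioc 0 (2 * π), ∫ u : ℝ,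
      kp p u (θ - α i) * Real.exp (-ρ * u) * c i (0 - u) := by
    intro i
    rw [integral_integral_swap (hprod i)]
    refine integral_nonneg fun u => ?_
    simp only
    have e : ∀ θ : ℝ, kp p u (θ - α i) * Real.exp (-ρ * u) * c i (0 - u) =
        kp p u (θ - α i) * (Real.exp (-ρ * u) * c i (0 - u)) := fun θ => by ring
    simp_rw [e]
    rw [integral_mul_const]
    refine mul_nonneg ?_ (mul_nonneg (Real.exp_pos _).le (hcD i _).1)
    rw [← intervalIntegral.integral_of_le (by positivity)]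
    exact mean_kp_nonneg p u (α i)
  have h3 : 0 ≤ ∫ θ in Ioc 0 (2 * π), Vpot p ρ α c 0 θ := by
    simp only [Vpot]
    rw [integral_finsetSum _ fun i _ => hint i]
    exact Finset.sum_nonneg fun i _ => hnn i
  rw [intervalIntegral.integral_of_le (by positivity)]
  refine h3.trans (integral_mono ?_ ?_ fun θ => hV 0 θ)
  · exact integrable_finsetSum Finset.univ fun i _ => hint i
  · exact ((hh.add continuous_const).integrableOn_Icc).mono_set Ioc_subset_Icc_self

/-- if the function is large at some points tending to infinity, the order is exactly `ρ` -/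
lemma Pre.inClass_of_points {ρ : ℝ} {f : ℂ → ℂ} (hρ : 0 < ρ) (hf : Pre ρ f) {a : ℝ}
    (ha : 0 < a) (h : ∃ᶠ z in cobounded ℂ, Real.exp (a * ‖z‖ ^ ρ) ≤ ‖f z‖) :
    InClass ρ f where
  entire := hf.entire
  order := by
    refine hasOrder_of hρ.le hf.order fun σ hσ0 hσ => ?_
    obtain ⟨σ', h1, h2⟩ := exists_between hσ
    refine (h.and_eventually (((tendsto_norm_cobounded_atTop (E := ℂ)).eventually
      (eventually_mul_rpow_le h1 2)).and (((tendsto_norm_cobounded_atTop (E := ℂ)).eventually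
      (eventually_mul_rpow_le h2 a⁻¹)).and
      ((tendsto_norm_cobounded_atTop (E := ℂ)).eventually_ge_atTop 1)))).mono ?_
    rintro z ⟨hz, hz1, hz2, hz3⟩
    refine lt_of_lt_of_le (Real.exp_lt_exp.2 ?_) hz
    rw [inv_mul_le_iff₀ ha] at hz2
    have h3 : 0 < ‖z‖ ^ σ := Real.rpow_pos_of_pos (by linarith) _
    linarith
  zero_free := hf.zero_free
  norm_le := hf.norm_le

/-- an upper bound for the modulus on a circle gives one for the average of the logarithm -/
lemma circleAverage_log_le {f : ℂ → ℂ} (hf : Differentiable ℂ f) {x : ℂ} (hx : f x ≠ 0) {c : ℂ}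
    {R A : ℝ} (hR : 0 < R) (h : ∀ z ∈ Metric.sphere c R, ‖f z‖ ≤ Real.exp A) :
    Real.circleAverage (fun z => Real.log ‖f z‖) c R ≤ A := by
  have han : AnalyticOnNhd ℂ f univ := fun z _ => hf.analyticAt z
  have h1 : f ⁻¹' {0}ᶜ ∈ codiscrete ℂ := han.preimage_zero_mem_codiscrete hx
  have h2 : f ⁻¹' {0}ᶜ ∈ codiscreteWithin (Metric.sphere c |R|) :=
    codiscreteWithin_mono (subset_univ _) h1
  have h3 : (fun z => Real.log ‖f z‖) =ᶠ[codiscreteWithin (Metric.sphere c |R|)]
      fun z => if f z = 0 then A else Real.log ‖f z‖ := by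
    filter_upwards [h2] with z hz
    rw [if_neg (by simpa using hz)]
  have h4 : CircleIntegrable (fun z => Real.log ‖f z‖) c R :=
    (MeromorphicOn.circleIntegrable_log_norm fun z _ => (hf.analyticAt z).meromorphicAt)
  rw [Real.circleAverage_congr_codiscreteWithin h3 hR.ne']
  refine Real.circleAverage_mono_on_of_le_circle (h4.congr_codiscreteWithin h3) fun z hz => ?_
  rw [abs_of_pos hR] at hz
  split_ifs with h0
  · exact le_rfl
  · rw [Real.log_le_iff_le_exp (norm_pos_iff.2 h0)]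
    exact h z hz

end HBInd
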