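import Pool.Agent.HBInd.GlueC

/-!
# Relatively subharmonic functions are indicators
-/

namespace HBInd

open Complex Filter Topology Set MeasureTheory Bornology
open scoped Real ComplexConjugate

lemma norm_ray_sub_le {r : ℝ} (hr : 0 ≤ r) (a b : ℝ) : ‖ray r a - ray r b‖ ≤ r * |a - b| := by
  have e : ray r a - ray r b = (r : ℂ) * (Complex.exp ((b : ℂ) * I) *
      (Complex.exp (I * ((a - b : ℝ) : ℂ)) - 1)) := by
    have e0 : Complex.exp ((a : ℂ) * I) =
        Complex.exp ((b : ℂ) * I) * Complex.exp (I * ((a - b : ℝ) : ℂ)) := by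
      rw [← Complex.exp_add]
      congr 1
      push_cast
      ring
    rw [ray, ray, e0]
    ring
  rw [e, norm_mul, norm_mul, Complex.norm_real, Real.norm_of_nonneg hr,
    Complex.norm_exp_ofReal_mul_I, one_mul]
  refine mul_le_mul_of_nonneg_left ?_ hr
  have := Real.norm_exp_I_mul_ofReal_sub_one_le (x := a - b)
  rwa [Real.norm_eq_abs] at this

/-- a countable dense set of directions avoiding the zeros -/
lemma exists_directions2 {n : ℕ → ℕ} (α : (j : ℕ) → Fin (n j) → ℝ) :
    ∃ q : ℕ → ℝ, DenseRange q ∧ ∀ l j i, Real.sin (q l - α j i) ≠ 0 := by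
  have h1 : ({x : ℝ | ∃ j i, Real.sin (x - α j i) = 0}).Countable := by
    have : {x : ℝ | ∃ j i, Real.sin (x - α j i) = 0} ⊆
        ⋃ j : ℕ, ⋃ i : Fin (n j), range fun m : ℤ => (m : ℝ) * π + α j i := by
      rintro x ⟨j, i, hx⟩
      obtain ⟨m, hm⟩ := Real.sin_eq_zero_iff.1 hx
      exact mem_iUnion.2 ⟨j, mem_iUnion.2 ⟨i, m, by simp only; linarith⟩⟩
    exact (countable_iUnion fun j => countable_iUnion fun i => countable_range _).mono this
  have h2 : Dense ({x : ℝ | ∃ j i, Real.sin (x - α j i) = 0})ᶜ := h1.dense_compl ℝ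
  obtain ⟨t, ht1, ht2, ht3⟩ := h2.exists_countable_dense_subset
  obtain ⟨q, rfl⟩ := ht2.exists_eq_range ht3.nonempty
  refine ⟨q, ht3, fun l j i h => ?_⟩
  exact ht1 (mem_range_self l) ⟨j, i, h⟩

theorem exists_of_relSub {p : ℕ} (hp : p ≤ 1) {ρ : ℝ} (h1 : (p : ℝ) < ρ) (h2 : ρ < p + 1)
    {h : ℝ → ℝ} (hper : ∀ θ, h (θ + 2 * π) = h θ) (hc : Continuous h) (hrel : RelSub p ρ h)
    (hne : ∃ θ, h θ ≠ 0) : ∃ f : ℂ → ℂ, InClass ρ f ∧ ∀ θ, ind ρ f θ = h θ := by
  have hρ : 0 < ρ := lt_of_le_of_lt (Nat.cast_nonneg p) h1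
  have hρ2 : ρ < 2 := by
    have : (p : ℝ) ≤ 1 := by exact_mod_cast hp
    linarith
  have hpi := Real.pi_pos
  set ϑ : ℕ → ℝ := fun j => TopologicalSpace.denseSeq ℝ (Nat.unpair j).1 with hϑ
  set e : ℕ → ℝ := fun j => 1 / ((j : ℝ) + 1) with he
  have he0 : ∀ j, 0 < e j := fun j => by rw [he]; positivity
  have helim : Tendsto e atTop (𝓝 0) := tendsto_one_div_add_atTop_nhds_zero_nat
  choose n α c D hα hcc hcD hV t₁ θ₁ ht₁ hθ₁ hlow using fun j =>
    exists_touch hp h1 h2 hper hc hrel (ϑ j) (he0 j)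
  obtain ⟨q, hqd, hq⟩ := exists_directions2 α
  obtain ⟨f, T, w, hf, hw, hT, hf0, hup, hlo⟩ := exists_glue hp h1 h2 (D := D) hα hcc hcD hq
  -- upper bound in the good directions
  have hind : ∀ l, ∀ a : ℝ, h (q l) < a → ind ρ f (q l) ≤ a := by
    intro l a ha
    set ε : ℝ := (a - h (q l)) / 2 with hε
    have hε0 : 0 < ε := by rw [hε]; linarith
    obtain ⟨M, hM⟩ := eventually_atTop.1 (helim.eventually_le_const hε0)
    refine ind_le_of_eventually ?_
    filter_upwards [Real.tendsto_log_atTop.eventually (hup l ε hε0),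
      Real.tendsto_log_atTop.eventually_ge_atTop (T M + w M), eventually_gt_atTop 0]
      with r hr hr1 hr0
    rw [Real.exp_log hr0] at hr
    have h3 : ∑' j, xi T w j (Real.log r) *
        Vpot p ρ (α j) (c j) (Real.log r - mid T w j) (q l) ≤ h (q l) + ε := by
      refine tsum_xi_le hw hT ?_ fun j hj => ?_
      · rcases Nat.eq_zero_or_pos M with h0 | h0
        · rwa [h0] at hr1
        · have h4 : T 1 ≤ T M := T_mono hw hT h0
          have h5 := hT 0
          rw [zero_add] at h5
          have h6 := hw M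
          linarith
      · have hjM : M ≤ j := by
          by_contra hcon
          rw [not_le] at hcon
          refine hj (xi_eq_zero_right hw hT ?_)
          refine le_trans ?_ hr1
          rcases eq_or_lt_of_le (Nat.succ_le_of_lt hcon) with h' | h'
          · rw [← h']
          · have h4 : T (j + 1 + 1) ≤ T M := T_mono hw hT h'
            have h5 := hT (j + 1)
            have h6 := hw M
            linarith
        exact (hV j _ _).trans (by linarith [hM j hjM])
    have h7 : Real.exp (-ρ * Real.log r) * Real.log ‖f (ray r (q l))‖ ≤ a := by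
      have : a = h (q l) + ε + ε := by rw [hε]; ring
      linarith
    have h8 : f (ray r (q l)) ≠ 0 := by
      have := hf0 l (Real.log r)
      rwa [Real.exp_log hr0] at this
    have h9 : Real.log ‖f (ray r (q l))‖ ≤ a * r ^ ρ := by
      have hrp : 0 < r ^ ρ := Real.rpow_pos_of_pos hr0 _
      calc Real.log ‖f (ray r (q l))‖ =
          (Real.exp (-ρ * Real.log r) * r ^ ρ) * Real.log ‖f (ray r (q l))‖ := by
            rw [rpow_exp_mul hr0, one_mul]
        _ = (Real.exp (-ρ * Real.log r) * Real.log ‖f (ray r (q l))‖) * r ^ ρ := by ring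
        _ ≤ a * r ^ ρ := mul_le_mul_of_nonneg_right h7 hrp.le
    exact (Real.log_le_iff_le_exp (norm_pos_iff.2 h8)).1 h9
  -- lower bound for the averages
  set s : ℕ → ℝ := fun j => mid T w j + t₁ j with hs
  have hslim : Tendsto s atTop atTop := by
    refine tendsto_atTop_mono (f := fun j => mid T w j - 1) (fun j => ?_)
      (tendsto_atTop_add_const_right _ _ (tendsto_mid hw hT))
    have := (abs_le.1 (ht₁ j)).1
    rw [hs]
    simp only
    linarith
  have havg : ∀ δ ∈ Ioo (0 : ℝ) 1, ∀ ε : ℝ, 0 < ε → ∀ᶠ j in atTop,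
      Real.exp (ρ * s j) * (h (ϑ j) - ε) ≤
        Real.circleAverage (fun z => Real.log ‖f z‖) (ray (Real.exp (s j)) (θ₁ j))
          (δ * Real.exp (s j)) := by
    intro δ hδ ε hε
    filter_upwards [hslim.eventually (hlo δ hδ (ε / 2) (by linarith)),
      helim.eventually_le_const (by linarith : 0 < ε / 2)] with j hj hj2
    have h3 := hj (θ₁ j)
    have h4 : s j ∈ Icc (T j + w j) (T (j + 1)) := mid_mem hT j ((ht₁ j).trans (by norm_num))
    rw [tsum_xi_eq hw hT h4 fun k => Vpot p ρ (α k) (c k) (s j - mid T w k) (θ₁ j)] at h3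
    have h5 : s j - mid T w j = t₁ j := by rw [hs]; simp
    rw [h5] at h3
    have h6 := hlow j
    have h7 : h (ϑ j) - ε ≤ Real.exp (-ρ * s j) *
        Real.circleAverage (fun z => Real.log ‖f z‖) (ray (Real.exp (s j)) (θ₁ j))
          (δ * Real.exp (s j)) := by linarith
    have h8 := mul_le_mul_of_nonneg_left h7 (Real.exp_pos (ρ * s j)).le
    rwa [← mul_assoc, mul_comm (Real.exp (ρ * s j)) (Real.exp (-ρ * s j)), exp_neg_mul_exp,
      one_mul] at h8
  -- `h` is positive somewhere
  have hpos : ∃ k, 0 < h (TopologicalSpace.denseSeq ℝ k) := by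
    by_contra hcon
    push Not at hcon
    have hle : ∀ θ, h θ ≤ 0 := by
      have hcl : IsClosed {θ | h θ ≤ 0} := isClosed_le hc continuous_const
      intro θ
      have := (TopologicalSpace.denseRange_denseSeq ℝ).closure_range
      have h3 : closure (range (TopologicalSpace.denseSeq ℝ)) ⊆ {θ | h θ ≤ 0} :=
        hcl.closure_subset_iff.2 (by rintro _ ⟨k, rfl⟩; exact hcon k)
      rw [this] at h3
      exact h3 (mem_univ θ)
    obtain ⟨x, hx⟩ := hne
    obtain ⟨m, hm, -⟩ := existsUnique_add_zsmul_mem_Ico (a := 2 * π) (by positivity) x 0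
    rw [zsmul_eq_mul, zero_add] at hm
    have hx' : h (x + m * (2 * π)) ≠ 0 := by
      have h3 := periodic_int hper (-m) x
      rw [show x + m * (2 * π) = x - ((-m : ℤ) : ℝ) * (2 * π) by push_cast; ring, h3]
      exact hx
    have hint : 0 < ∫ θ in (0 : ℝ)..(2 * π), -h θ :=
      intervalIntegral.integral_pos (by positivity) hc.neg.continuousOn
        (fun θ _ => by linarith [hle θ]) ⟨_, ⟨hm.1, hm.2.le⟩, by
          have := lt_of_le_of_ne (hle _) hx'
          linarith⟩
    set J := ∫ θ in (0 : ℝ)..(2 * π), -h θ with hJ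
    have hall : ∀ j, J ≤ 2 * π * e j := by
      intro j
      have h3 := mean_nonneg hp h1 h2 (hcc j) (hcD j) hc (hV j)
      rw [intervalIntegral.integral_add (hc.intervalIntegrable _ _)
        (continuous_const.intervalIntegrable _ _), intervalIntegral.integral_const, sub_zero,
        smul_eq_mul] at h3
      rw [hJ, intervalIntegral.integral_neg]
      linarith
    have hlim2 : Tendsto (fun j => 2 * π * e j) atTop (𝓝 0) := by
      simpa using helim.const_mul (2 * π)
    have := ge_of_tendsto' hlim2 hall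
    linarith
  -- indices
  have hϑk : ∀ k m, ϑ (Nat.pair k m) = TopologicalSpace.denseSeq ℝ k := by
    intro k m
    rw [hϑ]
    simp
  have hpair : ∀ k, Tendsto (fun m => Nat.pair k m) atTop atTop := fun k =>
    tendsto_atTop_mono (fun m => Nat.right_le_pair k m) tendsto_id
  -- the order
  have hf1 : f (ray (Real.exp 0) (q 0)) ≠ 0 := hf0 0 0
  have hcl : InClass ρ f := by
    obtain ⟨k, hk⟩ := hpos
    set b := h (TopologicalSpace.denseSeq ℝ k) / 2 with hb
    have hb0 : 0 < b := by rw [hb]; linarith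
    have h2ρ : (0 : ℝ) < 2 ^ ρ := Real.rpow_pos_of_pos (by norm_num) _
    set a := b / 2 / 2 ^ ρ with ha
    have ha0 : 0 < a := by rw [ha]; positivity
    refine hf.inClass_of_points hρ ha0 ?_
    by_contra hcon
    rw [not_frequently] at hcon
    obtain ⟨R, -, hR⟩ := hasBasis_cobounded_norm.eventually_iff.1 hcon
    have h3 := (hpair k).eventually (havg (1 / 2) ⟨by norm_num, by norm_num⟩ b hb0)
    have h4 := (hpair k).eventually
      ((Real.tendsto_exp_atTop.comp hslim).eventually_ge_atTop (2 * R))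
    obtain ⟨m, hm1, hm2⟩ := (h3.and h4).exists
    set j := Nat.pair k m with hj
    rw [hϑk] at hm1
    simp only [Function.comp_apply] at hm2
    have hsj := Real.exp_pos (s j)
    have h5 : Real.circleAverage (fun z => Real.log ‖f z‖) (ray (Real.exp (s j)) (θ₁ j))
        (1 / 2 * Real.exp (s j)) ≤ a * (2 * Real.exp (s j)) ^ ρ := by
      refine circleAverage_log_le hf.entire hf1 (by positivity) fun z hz => ?_
      rw [Metric.mem_sphere, dist_eq_norm] at hz
      have hn := norm_ray hsj.le (θ₁ j)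
      have hz1 : ‖z‖ ≤ 2 * Real.exp (s j) := by
        have := norm_le_norm_add_norm_sub' z (ray (Real.exp (s j)) (θ₁ j))
        rw [hn, hz] at this
        linarith
      have hz2 : R ≤ ‖z‖ := by
        have := norm_sub_norm_le (ray (Real.exp (s j)) (θ₁ j)) z
        rw [norm_sub_rev, hn, hz] at this
        linarith
      have h6 := hR (x := z) hz2
      rw [not_le] at h6
      refine h6.le.trans (Real.exp_le_exp.2 ?_)
      exact mul_le_mul_of_nonneg_left (Real.rpow_le_rpow (norm_nonneg _) hz1 hρ.le) ha0.le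
    have h6 : a * (2 * Real.exp (s j)) ^ ρ = b / 2 * Real.exp (ρ * s j) := by
      rw [Real.mul_rpow (by norm_num) hsj.le, ← Real.exp_mul, mul_comm (s j) ρ, ha]
      field_simp
    rw [h6] at h5
    have h7 : h (TopologicalSpace.denseSeq ℝ k) = 2 * b := by rw [hb]; ring
    rw [h7] at hm1
    have h8 := Real.exp_pos (ρ * s j)
    nlinarith
  -- finiteness
  have hlt : ∀ l, ind ρ f (q l) ≠ ⊤ := by
    intro l
    have := hind l (h (q l) + 1) (by linarith)
    exact (this.trans_lt (EReal.coe_lt_top _)).ne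
  have htop : ∀ θ, ind ρ f θ ≠ ⊤ := by
    intro θ
    have hd : 0 < π / (4 * ρ) := by positivity
    obtain ⟨l1, hl1⟩ := hqd.exists_mem_open (isOpen_Ioo (a := θ - π / (4 * ρ)) (b := θ))
      (nonempty_Ioo.2 (by linarith))
    obtain ⟨l2, hl2⟩ := hqd.exists_mem_open (isOpen_Ioo (a := θ) (b := θ + π / (4 * ρ)))
      (nonempty_Ioo.2 (by linarith))
    refine ind_ne_top_between hcl hρ (a := q l1) (b := q l2) (hl1.2.trans hl2.1) ?_ (hlt _)
      (hlt _) ⟨hl1.2.le, hl2.1.le⟩
    have h3 : q l2 - q l1 < 2 * (π / (4 * ρ)) := by linarith [hl1.1, hl2.2]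
    calc ρ * (q l2 - q l1) < ρ * (2 * (π / (4 * ρ))) := mul_lt_mul_of_pos_left h3 hρ
      _ = π / 2 := by field_simp; norm_num
      _ < π := by linarith
  have hbot := ind_ne_bot_two hcl hρ hρ2 htop
  set g : ℝ → ℝ := fun θ => (ind ρ f θ).toReal with hgdef
  have hg : ∀ θ, ind ρ f θ = ((g θ : ℝ) : EReal) := fun θ =>
    (EReal.coe_toReal (htop θ) (hbot θ)).symm
  have hgc : Continuous g := continuous_of_trigConvex hρ (trigConvex_of_ind hcl hρ hg)
  have hgh : ∀ θ, g θ ≤ h θ := by
    have hcl2 : IsClosed {θ | g θ ≤ h θ} := isClosed_le hgc hc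
    have h3 : closure (range q) ⊆ {θ | g θ ≤ h θ} := by
      refine hcl2.closure_subset_iff.2 ?_
      rintro _ ⟨l, rfl⟩
      change g (q l) ≤ h (q l)
      refine le_of_forall_pos_le_add fun ε hε => ?_
      have := hind l (h (q l) + ε) (by linarith)
      rw [hg] at this
      exact_mod_cast this
    rw [hqd.closure_range] at h3
    exact fun θ => h3 (mem_univ θ)
  have hhg : ∀ θ, h θ ≤ g θ := by
    intro θ
    refine le_of_forall_pos_le_add fun ε hε => ?_
    set ε' := ε / 3 with hε'
    have hε0 : 0 < ε' := by rw [hε']; linarith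
    obtain ⟨η, hη0, hη1, hnear⟩ := ind_near hcl hρ hg θ hε0
    obtain ⟨d, hd0, hd⟩ := Metric.continuous_iff.1 hc θ ε' hε0
    obtain ⟨k, hk⟩ := (TopologicalSpace.denseRange_denseSeq ℝ).exists_dist_lt θ
      (lt_min hd0 (by linarith : 0 < η / 4))
    have hk1 : |TopologicalSpace.denseSeq ℝ k - θ| < η / 4 := by
      rw [← Real.dist_eq, dist_comm]
      exact hk.trans_le (min_le_right _ _)
    have hk2 : |h (TopologicalSpace.denseSeq ℝ k) - h θ| < ε' := by
      rw [← Real.dist_eq]
      refine hd _ ?_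
      rw [dist_comm]
      exact hk.trans_le (min_le_left _ _)
    have h3 := (hpair k).eventually (havg (η / 2) ⟨by linarith, by linarith⟩ ε' hε0)
    have h4 := (hpair k).eventually
      ((Real.tendsto_exp_atTop.comp hslim).eventually hnear)
    have h5 := (hpair k).eventually (helim.eventually_le_const (by linarith : 0 < η / 4))
    obtain ⟨m, ⟨hm1, hm2⟩, hm3⟩ := ((h3.and h4).and h5).exists
    set j := Nat.pair k m with hj
    rw [hϑk] at hm1
    simp only [Function.comp_apply] at hm2
    have hsj := Real.exp_pos (s j)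
    have h6 : Real.circleAverage (fun z => Real.log ‖f z‖) (ray (Real.exp (s j)) (θ₁ j))
        (η / 2 * Real.exp (s j)) ≤ (g θ + ε') * Real.exp (s j) ^ ρ := by
      refine circleAverage_log_le hf.entire hf1 (by positivity) fun z hz => ?_
      rw [Metric.mem_sphere, dist_eq_norm] at hz
      refine hm2 z ?_
      have h7 := norm_ray_sub_le hsj.le (θ₁ j) θ
      have h8 : |θ₁ j - θ| ≤ η / 2 := by
        have h9 := hθ₁ j
        rw [hϑk] at h9
        have h10 := abs_sub_le (θ₁ j) (TopologicalSpace.denseSeq ℝ k) θ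
        linarith
      calc ‖z - ray (Real.exp (s j)) θ‖ ≤ ‖z - ray (Real.exp (s j)) (θ₁ j)‖ +
            ‖ray (Real.exp (s j)) (θ₁ j) - ray (Real.exp (s j)) θ‖ := norm_sub_le_norm_sub_add_norm_sub _ _ _
        _ ≤ η / 2 * Real.exp (s j) + Real.exp (s j) * (η / 2) :=
            add_le_add hz.le (h7.trans (mul_le_mul_of_nonneg_left h8 hsj.le))
        _ = η * Real.exp (s j) := by ring
    have h7 : Real.exp (s j) ^ ρ = Real.exp (ρ * s j) := by
      rw [← Real.exp_mul, mul_comm]
    rw [h7, mul_comm (g θ + ε')] at h6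
    have h8 := le_of_mul_le_mul_left (hm1.trans h6) (Real.exp_pos (ρ * s j))
    have h9 := (abs_lt.1 hk2).1
    have : ε = 3 * ε' := by rw [hε']; ring
    linarith
  refine ⟨f, hcl, fun θ => ?_⟩
  rw [hg θ]
  exact_mod_cast le_antisymm (hgh θ) (hhg θ)

end HBInd
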