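import Pool.Agent.HBInd.Basic

/-!
# The function `log |sin (π x) / (π x)|` and its averages (real variable part of `HalfF.lean`)
-/

namespace HBInd.HF

open Complex Filter Topology Set Finset
open scoped Real

/-- `log |sin (π x) / (π x)|` -/
noncomputable def L (x : ℝ) : ℝ := Real.log |Real.sin (π * x) / (π * x)|

lemma L_nonpos (x : ℝ) : L x ≤ 0 := by
  refine Real.log_nonpos (abs_nonneg _) ?_
  rw [abs_div]
  exact div_le_one_of_le₀ Real.abs_sin_le_abs (abs_nonneg _)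

lemma L_le_of_half_le {x : ℝ} (h1 : 1 / 2 ≤ x) (h2 : x < 1) : L x ≤ Real.log (2 / π) := by
  have hp := Real.pi_pos
  have hx : 0 < π * x := by positivity
  have hs : 0 < Real.sin (π * x) := Real.sin_pos_of_pos_of_lt_pi hx (by nlinarith)
  refine Real.log_le_log (abs_pos.2 (div_pos hs hx).ne') ?_
  rw [abs_of_pos (div_pos hs hx), div_le_div_iff₀ hx hp]
  have h3 := Real.sin_le_one (π * x)
  nlinarith

lemma log_two_div_pi_neg : Real.log (2 / π) < 0 := by
  apply Real.log_neg (by positivity)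
  rw [div_lt_one Real.pi_pos]
  linarith [Real.pi_gt_three]

/-- lower bound of the tail terms -/
lemma le_L_of_small {x : ℝ} (h0 : 0 < x) (h2 : π * x ≤ 1) : -(π * x) ^ 2 / 2 ≤ L x := by
  have hp := Real.pi_pos
  have hx : 0 < π * x := by positivity
  set u := π * x with hu
  have hs : u - u ^ 3 / 6 < Real.sin u := Real.sin_gt_sub_cube hx
  have h3 : 1 - u ^ 2 / 6 ≤ Real.sin u / u := by
    rw [le_div_iff₀ hx]
    nlinarith
  have h4 : 0 < 1 - u ^ 2 / 6 := by nlinarith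
  have h5 : Real.exp (-u ^ 2 / 2) ≤ 1 - u ^ 2 / 6 := by
    -- exp(-t) ≤ 1/(1+t), t = u^2/2
    have h6 : 1 + u ^ 2 / 2 ≤ Real.exp (u ^ 2 / 2) := by
      have := Real.add_one_le_exp (u ^ 2 / 2)
      linarith
    have h7 : Real.exp (-u ^ 2 / 2) = (Real.exp (u ^ 2 / 2))⁻¹ := by
      rw [← Real.exp_neg]; congr 1; ring
    rw [h7]
    have h8 : (Real.exp (u ^ 2 / 2))⁻¹ ≤ (1 + u ^ 2 / 2)⁻¹ :=
      inv_anti₀ (by positivity) h6
    refine h8.trans ?_
    rw [inv_le_iff_one_le_mul₀ (by positivity)]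
    nlinarith [sq_nonneg u, mul_self_nonneg (u ^ 2), mul_le_mul h2 h2 hx.le zero_le_one]
  rw [L, Real.le_log_iff_exp_le, abs_of_pos]
  · exact h5.trans h3
  · exact lt_of_lt_of_le h4 h3
  · exact abs_pos.2 (lt_of_lt_of_le h4 h3).ne'

/-- upper bound of a sum of values of `L` -/
lemma sum_le_of_two_le {y A : ℝ} (hy : 2 ≤ y)
    (h : HasSum (fun k : ℕ => L (y / (k + 1))) A) : A ≤ Real.log (2 / π) / 2 * y := by
  have h1 : A ≤ ∑ k ∈ Finset.Ico ⌊y⌋₊ ⌊2 * y⌋₊, L (y / (k + 1)) := by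
    have := sum_le_hasSum (Finset.Ico ⌊y⌋₊ ⌊2 * y⌋₊)
      (f := fun k : ℕ => -L (y / (k + 1))) (fun k _ => neg_nonneg.2 (L_nonpos _)) h.neg
    rw [Finset.sum_neg_distrib] at this
    linarith
  have h2 : ∑ k ∈ Finset.Ico ⌊y⌋₊ ⌊2 * y⌋₊, L (y / (k + 1)) ≤
      ∑ k ∈ Finset.Ico ⌊y⌋₊ ⌊2 * y⌋₊, Real.log (2 / π) := by
    refine Finset.sum_le_sum fun k hk => ?_
    rw [Finset.mem_Ico] at hk
    have hk1 : y < k + 1 := by
      have := Nat.lt_floor_add_one y
      have h3 : ((⌊y⌋₊ : ℕ) : ℝ) ≤ k := by exact_mod_cast hk.1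
      linarith
    have hk2 : (k : ℝ) + 1 ≤ 2 * y := by
      have h3 : (((k + 1 : ℕ)) : ℝ) ≤ ⌊2 * y⌋₊ := by exact_mod_cast hk.2
      have h4 := Nat.floor_le (show 0 ≤ 2 * y by linarith)
      push_cast at h3
      linarith
    have hk0 : (0 : ℝ) < k + 1 := by positivity
    refine L_le_of_half_le ?_ ?_
    · rw [le_div_iff₀ hk0]; linarith
    · rw [div_lt_one hk0]; exact hk1
  rw [Finset.sum_const, Nat.card_Ico, nsmul_eq_mul] at h2
  have h3 : y / 2 ≤ ((⌊2 * y⌋₊ - ⌊y⌋₊ : ℕ) : ℝ) := by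
    have h4 := Nat.floor_le (show 0 ≤ y by linarith)
    have h5 := Nat.lt_floor_add_one (2 * y)
    have h6 : ⌊y⌋₊ ≤ ⌊2 * y⌋₊ := Nat.floor_mono (by linarith)
    rw [Nat.cast_sub h6]
    linarith
  have h4 := log_two_div_pi_neg
  nlinarith

/-- the full product -/
lemma prod_two_sin {K : ℕ} (hK : 0 < K) :
    ∏ j ∈ Finset.range K, (2 * |Real.sin (π * ((j + 1 / 2 : ℝ) / K))|) = 2 := by
  have hK0 : (K : ℂ) ≠ 0 := by exact_mod_cast hK.ne'
  have hz := Complex.isPrimitiveRoot_exp K hK.ne'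
  set ζ := Complex.exp (2 * π * I / K) with hζ
  have h1 := hz.pow_sub_pow_eq_prod_sub_mul 1 (Complex.exp (π * I / K)) hK
  have h2 : (Complex.exp (π * I / K)) ^ K = -1 := by
    rw [← Complex.exp_nat_mul, mul_div_cancel₀ _ hK0, Complex.exp_pi_mul_I]
  rw [h2, one_pow] at h1
  have h3 : ∏ w ∈ Polynomial.nthRootsFinset K (1 : ℂ), (1 - w * Complex.exp (π * I / K)) =
      ∏ j ∈ Finset.range K, (1 - ζ ^ j * Complex.exp (π * I / K)) := by
    symm
    refine Finset.prod_nbij (fun j => ζ ^ j) ?_ ?_ ?_ fun _ _ => rfl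
    · intro j _
      rw [Polynomial.mem_nthRootsFinset hK, ← pow_mul, mul_comm, pow_mul, hz.pow_eq_one, one_pow]
    · intro i hi j hj hij
      exact hz.pow_inj (Finset.mem_range.1 hi) (Finset.mem_range.1 hj) hij
    · intro w hw
      have hw' := (Polynomial.mem_nthRootsFinset hK _).1 (Finset.mem_coe.1 hw)
      have : NeZero K := ⟨hK.ne'⟩
      obtain ⟨i, hi, h⟩ := hz.eq_pow_of_pow_eq_one hw'
      exact ⟨i, Finset.mem_coe.2 (Finset.mem_range.2 hi), h⟩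
  rw [h3] at h1
  have h4 : ∀ j ∈ Finset.range K, 2 * |Real.sin (π * ((j + 1 / 2 : ℝ) / K))| =
      ‖1 - ζ ^ j * Complex.exp (π * I / K)‖ := by
    intro j _
    have h5 : ζ ^ j * Complex.exp (π * I / K) =
        Complex.exp (((2 * (π * ((j + 1 / 2 : ℝ) / K)) : ℝ) : ℂ) * I) := by
      rw [hζ, ← Complex.exp_nat_mul, ← Complex.exp_add]
      congr 1
      push_cast
      field_simp
    rw [h5]
    set t := π * ((j + 1 / 2 : ℝ) / K) with ht
    have h6 : (1 : ℂ) - Complex.exp (((2 * t : ℝ) : ℂ) * I) =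
        Complex.exp ((t : ℂ) * I) * (-(2 * I) * Complex.sin t) := by
      rw [Complex.sin, show (((2 * t : ℝ) : ℂ) * I) = (t : ℂ) * I + (t : ℂ) * I by push_cast; ring,
        Complex.exp_add, show -(t : ℂ) * I = -((t : ℂ) * I) by ring]
      have h7 : Complex.exp ((t : ℂ) * I) * Complex.exp (-((t : ℂ) * I)) = 1 := by
        rw [← Complex.exp_add, add_neg_cancel, Complex.exp_zero]
      linear_combination (-1 : ℂ) * h7 +
        (Complex.exp ((t : ℂ) * I) * Complex.exp (-((t : ℂ) * I)) - Complex.exp ((t : ℂ) * I) ^ 2) *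
          Complex.I_sq
    rw [h6, norm_mul, Complex.norm_exp_ofReal_mul_I, one_mul, norm_mul, norm_neg, norm_mul,
      Complex.norm_I, mul_one, ← Complex.ofReal_sin, Complex.norm_real, Real.norm_eq_abs]
    norm_num
  rw [Finset.prod_congr rfl h4, ← norm_prod, ← h1]
  norm_num

/-- the discrete function with averages at least `-log 2` per period -/
noncomputable def g (K n : ℕ) : ℝ := Real.log (2 * |Real.sin (π * ((n + 1 / 2 : ℝ) / K))|)

lemma sin_ne_zero {K : ℕ} (hK : 0 < K) (n : ℕ) :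
    Real.sin (π * ((n + 1 / 2 : ℝ) / K)) ≠ 0 := by
  have hK0 : (0 : ℝ) < K := by exact_mod_cast hK
  intro h
  rw [Real.sin_eq_zero_iff] at h
  obtain ⟨m, hm⟩ := h
  have h1 : (m : ℝ) = (n + 1 / 2) / K := by
    have := Real.pi_ne_zero
    have h2 : π * (m : ℝ) = π * ((n + 1 / 2 : ℝ) / K) := by rw [← hm]; ring
    exact mul_left_cancel₀ this h2
  have h2 : (m : ℝ) * K = n + 1 / 2 := by rw [h1]; field_simp
  have h3 : ((2 * m * K : ℤ) : ℝ) = ((2 * n + 1 : ℤ) : ℝ) := by push_cast; linarith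
  have h4 : (2 * m * K : ℤ) = 2 * n + 1 := by exact_mod_cast h3
  obtain ⟨q, hq⟩ : ∃ q : ℤ, q = m * K := ⟨_, rfl⟩
  have h5 : 2 * q = 2 * n + 1 := by rw [hq, ← h4]; ring
  omega

lemma g_le {K : ℕ} (hK : 0 < K) (n : ℕ) : g K n ≤ Real.log 2 := by
  have h1 : 0 < |Real.sin (π * ((n + 1 / 2 : ℝ) / K))| := abs_pos.2 (sin_ne_zero hK n)
  refine Real.log_le_log (by positivity) ?_
  have h2 := Real.abs_sin_le_one (π * ((n + 1 / 2 : ℝ) / K))
  linarith

lemma g_add {K : ℕ} (hK : 0 < K) (n : ℕ) : g K (n + K) = g K n := by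
  have hK0 : (K : ℝ) ≠ 0 := by exact_mod_cast hK.ne'
  rw [g, g]
  have h1 : π * (((n + K : ℕ) + 1 / 2 : ℝ) / K) = π * ((n + 1 / 2 : ℝ) / K) + π := by
    push_cast
    field_simp
    ring
  rw [h1, Real.sin_add_pi, abs_neg]

lemma sum_g_full {K : ℕ} (hK : 0 < K) : ∑ n ∈ Finset.range K, g K n = Real.log 2 := by
  rw [← prod_two_sin hK, Real.log_prod]
  · rfl
  · intro n _
    have := sin_ne_zero hK n
    positivity

lemma sum_g_add {K : ℕ} (hK : 0 < K) (M : ℕ) :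
    ∑ n ∈ Finset.range (M + K), g K n = ∑ n ∈ Finset.range M, g K n + Real.log 2 := by
  induction M with
  | zero => simp [sum_g_full hK]
  | succ M ih =>
    rw [show M + 1 + K = (M + K) + 1 by ring, Finset.sum_range_succ, ih, g_add hK,
      Finset.sum_range_succ]
    ring

lemma sum_g_ge {K : ℕ} (hK : 0 < K) (M : ℕ) :
    -(K * Real.log 2) ≤ ∑ n ∈ Finset.range M, g K n := by
  have hl : 0 < Real.log 2 := Real.log_pos one_lt_two
  induction M using Nat.strong_induction_on with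
  | _ M ih =>
    rcases lt_or_ge M K with h | h
    · have h1 : ∑ n ∈ Finset.range M, g K n + ∑ n ∈ Finset.Ico M K, g K n = Real.log 2 := by
        rw [Finset.sum_range_add_sum_Ico _ h.le, sum_g_full hK]
      have h2 : ∑ n ∈ Finset.Ico M K, g K n ≤ ∑ n ∈ Finset.Ico M K, Real.log 2 :=
        Finset.sum_le_sum fun n _ => g_le hK n
      rw [Finset.sum_const, Nat.card_Ico, nsmul_eq_mul] at h2
      have h3 : ((K - M : ℕ) : ℝ) ≤ K := by exact_mod_cast Nat.sub_le K M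
      nlinarith
    · obtain ⟨M', rfl⟩ := Nat.exists_eq_add_of_le' h
      rw [sum_g_add hK]
      have := ih M' (by omega)
      linarith

lemma L_half {K : ℕ} (hK : 0 < K) (n : ℕ) :
    L ((n + 1 / 2 : ℝ) / K) = g K n - Real.log 2 - Real.log (π * ((n + 1 / 2 : ℝ) / K)) := by
  have hK0 : (0 : ℝ) < K := by exact_mod_cast hK
  have hp := Real.pi_pos
  have hx : 0 < π * ((n + 1 / 2 : ℝ) / K) := by positivity
  have hs : 0 < |Real.sin (π * ((n + 1 / 2 : ℝ) / K))| := abs_pos.2 (sin_ne_zero hK n)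
  rw [L, g, abs_div, abs_of_pos hx, Real.log_div hs.ne' hx.ne', Real.log_mul two_ne_zero hs.ne']
  ring

lemma sum_log_le (N : ℕ) : ∑ k ∈ Finset.range N, Real.log ((N : ℝ) / (k + 1)) ≤ N := by
  have h1 : ∏ k ∈ Finset.range N, ((N : ℝ) / (k + 1)) = (N : ℝ) ^ N / N.factorial := by
    rw [Finset.prod_div_distrib, Finset.prod_const, Finset.card_range]
    congr 1
    rw [← Finset.prod_range_add_one_eq_factorial]
    push_cast
    rfl
  rcases Nat.eq_zero_or_pos N with rfl | hN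
  · simp
  have hN0 : (0 : ℝ) < N := by exact_mod_cast hN
  rw [← Real.log_prod (fun k _ => by positivity), h1, Real.log_le_iff_le_exp (by positivity)]
  exact Real.pow_div_factorial_le_exp _ hN0.le N

/-- lower bound for the sum of the main terms over all `n < 2 Y` -/
lemma double_sum_ge {Y : ℕ} (hY : 0 < Y) :
    -(96 * (Y : ℝ) ^ 2) ≤ ∑ n ∈ Finset.range (2 * Y), ∑ k ∈ Finset.range (8 * Y),
      L ((n + 1 / 2 : ℝ) / (k + 1)) := by
  have hY0 : (1 : ℝ) ≤ Y := by exact_mod_cast hY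
  have hl : 0 < Real.log 2 := Real.log_pos one_lt_two
  have hl1 : Real.log 2 ≤ 1 := by
    have := Real.log_two_lt_d9
    linarith
  have h1 : ∀ n ∈ Finset.range (2 * Y), ∀ k ∈ Finset.range (8 * Y),
      g (k + 1) n - Real.log 2 - Real.log (((8 * Y : ℕ) : ℝ) / (k + 1)) ≤
        L ((n + 1 / 2 : ℝ) / (k + 1)) := by
    intro n hn k hk
    rw [Finset.mem_range] at hn hk
    have h2 := L_half (K := k + 1) (Nat.succ_pos k) n
    push_cast at h2
    rw [h2]
    have hn' : (n : ℝ) + 1 ≤ 2 * Y := by exact_mod_cast hn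
    have hp := Real.pi_lt_four
    have hp0 := Real.pi_pos
    have h3 : Real.log (π * ((n + 1 / 2 : ℝ) / (k + 1))) ≤
        Real.log (((8 * Y : ℕ) : ℝ) / (k + 1)) := by
      refine Real.log_le_log (by positivity) ?_
      rw [← mul_div_assoc]
      refine div_le_div_of_nonneg_right ?_ (by positivity)
      push_cast
      nlinarith
    linarith
  have h2 : ∑ n ∈ Finset.range (2 * Y), ∑ k ∈ Finset.range (8 * Y),
      (g (k + 1) n - Real.log 2 - Real.log (((8 * Y : ℕ) : ℝ) / (k + 1))) ≤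
      ∑ n ∈ Finset.range (2 * Y), ∑ k ∈ Finset.range (8 * Y), L ((n + 1 / 2 : ℝ) / (k + 1)) :=
    Finset.sum_le_sum fun n hn => Finset.sum_le_sum fun k hk => h1 n hn k hk
  refine le_trans ?_ h2
  simp only [Finset.sum_sub_distrib, Finset.sum_const, Finset.card_range, nsmul_eq_mul]
  rw [Finset.sum_comm]
  have h3 : -(((8 * Y : ℕ) : ℝ) * ((8 * Y : ℕ) * Real.log 2)) ≤
      ∑ k ∈ Finset.range (8 * Y), ∑ n ∈ Finset.range (2 * Y), g (k + 1) n := by
    have h4 : ∑ k ∈ Finset.range (8 * Y), -(((8 * Y : ℕ) : ℝ) * Real.log 2) ≤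
        ∑ k ∈ Finset.range (8 * Y), ∑ n ∈ Finset.range (2 * Y), g (k + 1) n := by
      refine Finset.sum_le_sum fun k hk => le_trans ?_ (sum_g_ge (Nat.succ_pos k) _)
      rw [Finset.mem_range] at hk
      have h5 : ((k + 1 : ℕ) : ℝ) ≤ ((8 * Y : ℕ) : ℝ) := by exact_mod_cast hk
      nlinarith
    rw [Finset.sum_const, Finset.card_range, nsmul_eq_mul] at h4
    linarith
  have h4 := sum_log_le (8 * Y)
  have h5 : ((2 * Y : ℕ) : ℝ) * ∑ k ∈ Finset.range (8 * Y),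
      Real.log (((8 * Y : ℕ) : ℝ) / (k + 1)) ≤ ((2 * Y : ℕ) : ℝ) * ((8 * Y : ℕ) : ℝ) :=
    mul_le_mul_of_nonneg_left h4 (Nat.cast_nonneg _)
  push_cast at h3 h5 ⊢
  nlinarith [mul_nonneg (sub_nonneg.2 hl1) (sq_nonneg (Y : ℝ))]

/-- tail of the sum -/
lemma tail_ge {Y : ℕ} (hY : 0 < Y) {y : ℝ} (hy0 : 0 < y) (hy : y ≤ 2 * Y) (M : ℕ) :
    -(3 * (Y : ℝ)) ≤ ∑ k ∈ Finset.range M, L (y / ((8 * Y + k : ℕ) + 1)) := by
  have hY0 : (1 : ℝ) ≤ Y := by exact_mod_cast hY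
  have hp := Real.pi_pos
  have hp4 := Real.pi_lt_d2
  have h1 : ∀ k : ℕ, -(5 * y ^ 2) * (1 / ((8 * Y + k : ℕ) : ℝ) - 1 / (((8 * Y + k : ℕ) : ℝ) + 1)) ≤
      L (y / ((8 * Y + k : ℕ) + 1)) := by
    intro k
    set N : ℝ := ((8 * Y + k : ℕ) : ℝ) with hN
    have hN8 : 8 * (Y : ℝ) ≤ N := by
      rw [hN]; push_cast
      have : (0 : ℝ) ≤ k := Nat.cast_nonneg k
      linarith
    have hN0 : 0 < N := by linarith
    have h2 : π * (y / (N + 1)) ≤ 1 := by
      rw [← mul_div_assoc, div_le_one (by linarith)]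
      nlinarith
    refine le_trans ?_ (le_L_of_small (by positivity) h2)
    have h3 : 1 / N - 1 / (N + 1) = 1 / (N * (N + 1)) := by field_simp; ring
    rw [h3]
    have h4 : (π * (y / (N + 1))) ^ 2 / 2 ≤ 5 * y ^ 2 * (1 / (N * (N + 1))) := by
      have h5 : (π * (y / (N + 1))) ^ 2 / 2 = (π ^ 2 / 2) * y ^ 2 * (1 / ((N + 1) * (N + 1))) := by
        field_simp
      rw [h5]
      have h6 : π ^ 2 / 2 ≤ 5 := by nlinarith
      have h7 : 1 / ((N + 1) * (N + 1)) ≤ 1 / (N * (N + 1)) := by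
        apply one_div_le_one_div_of_le (by positivity)
        nlinarith
      have h8 : 0 ≤ 1 / ((N + 1) * (N + 1)) := by positivity
      calc (π ^ 2 / 2) * y ^ 2 * (1 / ((N + 1) * (N + 1)))
          ≤ 5 * y ^ 2 * (1 / ((N + 1) * (N + 1))) := by gcongr
        _ ≤ _ := by gcongr
    have h9 : -(π * (y / (N + 1))) ^ 2 / 2 = -((π * (y / (N + 1))) ^ 2 / 2) := by ring
    rw [h9]
    linarith
  have h2 : ∑ k ∈ Finset.range M, -(5 * y ^ 2) *
      (1 / ((8 * Y + k : ℕ) : ℝ) - 1 / (((8 * Y + k : ℕ) : ℝ) + 1)) =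
      -(5 * y ^ 2) * (1 / ((8 * Y : ℕ) : ℝ) - 1 / ((8 * Y + M : ℕ) : ℝ)) := by
    rw [← Finset.mul_sum]
    congr 1
    have := Finset.sum_range_sub' (fun k : ℕ => 1 / ((8 * Y + k : ℕ) : ℝ)) M
    simp only [Nat.add_zero] at this
    rw [← this]
    refine Finset.sum_congr rfl fun k _ => ?_
    congr 2
    push_cast
    ring
  have h3 : ∑ k ∈ Finset.range M, -(5 * y ^ 2) *
      (1 / ((8 * Y + k : ℕ) : ℝ) - 1 / (((8 * Y + k : ℕ) : ℝ) + 1)) ≤
      ∑ k ∈ Finset.range M, L (y / ((8 * Y + k : ℕ) + 1)) :=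
    Finset.sum_le_sum fun k _ => h1 k
  refine le_trans ?_ h3
  rw [h2]
  have h4 : (0 : ℝ) ≤ 1 / ((8 * Y + M : ℕ) : ℝ) := by positivity
  have h5 : 5 * y ^ 2 * (1 / ((8 * Y : ℕ) : ℝ)) ≤ 3 * Y := by
    push_cast
    rw [mul_one_div, div_le_iff₀ (by positivity)]
    nlinarith
  nlinarith [sq_nonneg y]

/-- points at which the sum is not too small -/
lemma exists_ge {Y : ℕ} (hY : 0 < Y) {A : ℕ → ℝ}
    (h : ∀ n : ℕ, HasSum (fun k : ℕ => L ((n + 1 / 2 : ℝ) / (k + 1))) (A n)) :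
    ∃ n : ℕ, Y ≤ n ∧ -(99 * ((n : ℝ) + 1 / 2)) ≤ A n := by
  have hY0 : (1 : ℝ) ≤ Y := by exact_mod_cast hY
  have h1 := double_sum_ge hY
  have h2 : ∃ n ∈ Finset.Ico Y (2 * Y), -(96 * (Y : ℝ)) ≤
      ∑ k ∈ Finset.range (8 * Y), L ((n + 1 / 2 : ℝ) / (k + 1)) := by
    by_contra hcon
    push Not at hcon
    have h3 : ∑ n ∈ Finset.Ico Y (2 * Y), ∑ k ∈ Finset.range (8 * Y),
        L ((n + 1 / 2 : ℝ) / (k + 1)) < ∑ n ∈ Finset.Ico Y (2 * Y), -(96 * (Y : ℝ)) := by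
      refine Finset.sum_lt_sum_of_nonempty ?_ hcon
      rw [Finset.nonempty_Ico]
      omega
    rw [Finset.sum_const, Nat.card_Ico, nsmul_eq_mul, show 2 * Y - Y = Y by omega] at h3
    rw [← Finset.sum_range_add_sum_Ico _ (show Y ≤ 2 * Y by omega)] at h1
    have h4 : ∑ n ∈ Finset.range Y, ∑ k ∈ Finset.range (8 * Y),
        L ((n + 1 / 2 : ℝ) / (k + 1)) ≤ 0 :=
      Finset.sum_nonpos fun n _ => Finset.sum_nonpos fun k _ => L_nonpos _
    nlinarith
  obtain ⟨n, hn, h3⟩ := h2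
  rw [Finset.mem_Ico] at hn
  refine ⟨n, hn.1, ?_⟩
  have hn1 : (Y : ℝ) ≤ n := by exact_mod_cast hn.1
  have hn2 : (n : ℝ) + 1 ≤ 2 * Y := by exact_mod_cast hn.2
  have h4 : -(99 * (Y : ℝ)) ≤ A n := by
    refine ge_of_tendsto ((tendsto_add_atTop_iff_nat (8 * Y)).2 (h n).tendsto_sum_nat)
      (Eventually.of_forall fun M => ?_)
    rw [add_comm M, Finset.sum_range_add]
    have h5 := tail_ge hY (y := n + 1 / 2) (by positivity) (by linarith) M
    linarith
  linarith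

end HBInd.HF
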