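import Pool.Agent.HBInd.HalfS
import Pool.Agent.HBInd.HalfL

/-!
# Order 1/2: functions of infinite type with small growth on the ray of zeros

`S z = ∏_m (1 - z / (m+1)²)`, `S (w²) = sin (π w) / (π w)`, `F z = ∏_k S (z / (k+1)²)`, with positive zeros
`((k+1)(m+1))²`, rotated and scaled: `F (a² e^{-iα} z)`. Use `exists_pre` with
`c_{k,m} = a² e^{-iα} / ((k+1)(m+1))²` on `ℕ × ℕ` (`∑ |c|^σ < ∞` for `σ > 1/2`), and `hasSum_log_sin`
for the inner sum: for `z = r e^{iα}` and `y = a √r` not an integer,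
`log |F| = A(y) := ∑_k log |sin (π y / (k+1)) / (π y / (k+1))|`.

(1) all terms of `A(y)` are `≤ 0` (`|sin x| ≤ |x|`), and for `y < k + 1 ≤ 2 y` the term is `≤ log (2 / π) < 0`
    (`sin x / x ≤ 1 / x ≤ 2 / π` for `x = π y / (k + 1) ≥ π / 2`), so `A(y) ≤ -c y` for `y ≥ 2`, for some
    `c > 0`.
(2) there is `C` with `A(y) ≥ -C y` for arbitrarily large non-integral `y`: for `k + 1 ≥ 4 Y`, `y ≤ 2 Y`,
    `x = π y / (k + 1) ≤ π / 2`: `log (sin x / x) ≥ -C x²`, sum `≥ -C' Y`. For `K = k + 1 < 4 Y`: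
    `∫_Y^{2Y} log |sin (π y / K)| dy = (K / π) ∫ log |sin x| dx` over an interval of length `π Y / K`,
    and `∫` over a period is `-π log 2` (Mathlib `integral_log_sin_zero_pi`), so it is `≥ -C₁ (Y + K) ≥
    -5 C₁ Y`; and `∑_{K < 4 Y} log (π y / K) ≤ C₂ Y` (`∑_{K ≤ N} log (N / K) ≤ N`, from `N! ≥ (N / e)^N`).
    So `∫_Y^{2Y} A ≥ -C₃ Y²` and some non-integral `y ∈ [Y, 2Y]` has `A(y) ≥ -C₃ Y ≥ -C₃ y`.
(3) on the opposite ray: `z = r e^{i(α + π)}`, `w = i y`, `y = a √r`: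
    `log |F| = ∑_k log (sinh (π y / (k+1)) / (π y / (k+1)))`, all terms are `≥ 0` and the term is
    `≥ π y / (2 (k + 1))` if `y / (k + 1) ≥ x₀`; the harmonic series diverges, so `≥ K y` for all `K`.
(4) `ind (1/2) F α = limsup A(a √r) / √r = a β₀` with `β₀ := limsup_{y → ∞} A(y) / y` over non-integral
    `y` (the terms with `y` an integer are `⊥` and do not matter, or by continuity are limits);
    a convenient way: let `F₁` be the function with `α = 0`, `a = 1`, `β₀ = ind (1/2) F₁ 0` (real by (1),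
    (2)); then `‖F (ray r α)‖ = ‖F₁ (ray (a² r) 0)‖` if it is not a zero, and both vanish otherwise.

`exists_F_bot`: `c_{k,l,m} = e^{-iα} / ((k+1)(l+1)(m+1))²` on `ℕ × ℕ × ℕ`;
`log |F| = ∑_l A(y / (l+1)) ≤ -c y ∑_{l + 1 ≤ y / 2} 1 / (l + 1)`; opposite ray as before (at least as large).
-/

namespace HBInd

open Complex Filter Topology Set Bornology
open scoped Real ComplexConjugate

namespace HF

lemma exists_rot {ι : Type} [Countable ι] {d : ι → ℝ} (hd : ∀ i, 0 < d i)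
    (hs : ∀ s : ℝ, 1 < s → Summable fun i => (1 / d i) ^ s) {α : ℝ} (hα : α ∈ Icc 0 π)
    {a : ℝ} (ha : 0 < a) :
    ∃ F : ℂ → ℂ, Pre (1 / 2) F ∧
      (∀ r : ℝ, 0 ≤ r → (∀ i, a * √r ≠ d i) → F (ray r α) ≠ 0 ∧
        HasSum (fun i => Real.log |1 - (a * √r / d i) ^ 2|) (Real.log ‖F (ray r α)‖)) ∧
      (∀ r : ℝ, 0 ≤ r → F (ray r (α + π)) ≠ 0 ∧
        HasSum (fun i => Real.log (1 + (a * √r / d i) ^ 2)) (Real.log ‖F (ray r (α + π))‖)) := by
  set c : ι → ℂ := fun i => (((a / d i) ^ 2 : ℝ) : ℂ) * Complex.exp (((-α : ℝ) : ℂ) * I) with hc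
  have hnc : ∀ i, ‖c i‖ = (a / d i) ^ 2 := by
    intro i
    rw [hc]
    simp only
    rw [norm_mul, Complex.norm_exp_ofReal_mul_I, mul_one, Complex.norm_real,
      Real.norm_of_nonneg (sq_nonneg _)]
  have h1 : ∀ σ : ℝ, 1 / 2 < σ → Summable fun i => ‖c i‖ ^ σ := by
    intro σ hσ
    have h2 := (hs (2 * σ) (by linarith)).mul_left (a ^ (2 * σ))
    refine h2.congr fun i => ?_
    have hdi := hd i
    rw [hnc, ← Real.rpow_natCast, ← Real.rpow_mul (by positivity), ← Real.mul_rpow ha.le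
      (by positivity)]
    congr 1
    rw [mul_one_div]
  have him : ∀ i, (c i).im ≤ 0 := by
    intro i
    rw [hc]
    simp only
    rw [Complex.im_ofReal_mul, Complex.exp_ofReal_mul_I_im, Real.sin_neg]
    have h3 : 0 ≤ Real.sin α := Real.sin_nonneg_of_mem_Icc hα
    nlinarith [sq_nonneg (a / d i)]
  obtain ⟨F, hF, hF1, -⟩ := exists_pre (ρ := 1 / 2) (by norm_num) (by norm_num) h1 him
  have hm : ∀ r : ℝ, 0 ≤ r → ∀ i, c i * ray r α = (((a * √r / d i) ^ 2 : ℝ) : ℂ) := by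
    intro r hr i
    have h4 : Complex.exp (((-α : ℝ) : ℂ) * I) * Complex.exp ((α : ℂ) * I) = 1 := by
      rw [← Complex.exp_add]
      push_cast
      rw [show -(α : ℂ) * I + α * I = 0 by ring, Complex.exp_zero]
    have h5 : (a * √r / d i) ^ 2 = (a / d i) ^ 2 * r := by
      rw [mul_div_right_comm, mul_pow, Real.sq_sqrt hr]
    rw [h5, hc, ray]
    simp only
    push_cast at h4 ⊢
    linear_combination ((a : ℂ) / (d i : ℂ)) ^ 2 * r * h4
  have hm' : ∀ r : ℝ, 0 ≤ r → ∀ i, c i * ray r (α + π) = ((-(a * √r / d i) ^ 2 : ℝ) : ℂ) := by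
    intro r hr i
    have h4 : ray r (α + π) = -ray r α := by
      rw [ray, ray]
      push_cast
      rw [add_mul, Complex.exp_add, Complex.exp_pi_mul_I]
      ring
    rw [h4, mul_neg, hm r hr i]
    push_cast
    ring
  refine ⟨F, hF, ?_, ?_⟩
  · intro r hr hne
    have h6 : ∀ i, c i * ray r α ≠ 1 := by
      intro i h
      rw [hm r hr i] at h
      have h7 : (a * √r / d i) ^ 2 = 1 := by exact_mod_cast h
      have h8 : 0 ≤ a * √r / d i := div_nonneg (mul_nonneg ha.le (Real.sqrt_nonneg _)) (hd i).le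
      have h9 : a * √r / d i = 1 := by nlinarith
      rw [div_eq_one_iff_eq (hd i).ne'] at h9
      exact hne i h9
    obtain ⟨h7, h8⟩ := hF1 _ h6
    refine ⟨h7, ?_⟩
    convert! h8 using 2 with i
    rw [hm r hr i, ← Complex.ofReal_one, ← Complex.ofReal_sub, Complex.norm_real,
      Real.norm_eq_abs]
  · intro r hr
    have h6 : ∀ i, c i * ray r (α + π) ≠ 1 := by
      intro i h
      rw [hm' r hr i] at h
      have h7 : -(a * √r / d i) ^ 2 = 1 := by exact_mod_cast h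
      nlinarith [sq_nonneg (a * √r / d i)]
    obtain ⟨h7, h8⟩ := hF1 _ h6
    refine ⟨h7, ?_⟩
    convert! h8 using 2 with i
    rw [hm' r hr i, ← Complex.ofReal_one, ← Complex.ofReal_sub, Complex.norm_real,
      Real.norm_eq_abs, sub_neg_eq_add, abs_of_pos (by positivity)]

lemma opp_growth {ι : Type} {d : ι → ℝ} {α a : ℝ} (ha : 0 < a) {F : ℂ → ℂ}
    (hF : ∀ r : ℝ, 0 ≤ r → F (ray r (α + π)) ≠ 0 ∧
      HasSum (fun i => Real.log (1 + (a * √r / d i) ^ 2)) (Real.log ‖F (ray r (α + π))‖))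
    (e : ℕ × ℕ ↪ ι) (he : ∀ p, d (e p) = ((p.1 : ℝ) + 1) * ((p.2 : ℝ) + 1)) (K : ℝ) :
    ∀ᶠ r : ℝ in atTop, Real.exp (K * r ^ (1 / 2 : ℝ)) ≤ ‖F (ray r (α + π))‖ := by
  have hl : 0 < Real.log 2 := Real.log_pos one_lt_two
  obtain ⟨K₀, hK₀⟩ := (Real.tendsto_sum_range_one_div_nat_succ_atTop.eventually_ge_atTop
    (K / (a * Real.log 2) + 1)).exists
  have h0 : Tendsto (fun r : ℝ => a * √r) atTop atTop :=
    Tendsto.const_mul_atTop ha Real.tendsto_sqrt_atTop
  filter_upwards [h0.eventually_ge_atTop (K₀ : ℝ), eventually_ge_atTop 0] with r hr hr0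
  obtain ⟨hne, hsum⟩ := hF r hr0
  set y := a * √r with hy
  have hy0 : 0 ≤ y := mul_nonneg ha.le (Real.sqrt_nonneg _)
  have hnn : ∀ x : ℝ, 0 ≤ Real.log (1 + x ^ 2) := fun x =>
    Real.log_nonneg (by nlinarith [sq_nonneg x])
  have h1 := sum_le_hasSum ((Finset.range K₀ ×ˢ Finset.range ⌊y⌋₊).map e)
    (fun i _ => hnn (y / d i)) hsum
  rw [Finset.sum_map, Finset.sum_product] at h1
  have h2 : ∀ k ∈ Finset.range K₀, (y / ((k : ℝ) + 1) - 1) * Real.log 2 ≤
      ∑ m ∈ Finset.range ⌊y⌋₊, Real.log (1 + (y / d (e (k, m))) ^ 2) := by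
    intro k _
    have hk : (0 : ℝ) < k + 1 := by positivity
    have h3 : ⌊y / ((k : ℝ) + 1)⌋₊ ≤ ⌊y⌋₊ := by
      apply Nat.floor_mono
      exact div_le_self hy0 (by linarith [(Nat.cast_nonneg k : (0 : ℝ) ≤ k)])
    have h4 : ∑ m ∈ Finset.range ⌊y / ((k : ℝ) + 1)⌋₊, Real.log (1 + (y / d (e (k, m))) ^ 2) ≤
        ∑ m ∈ Finset.range ⌊y⌋₊, Real.log (1 + (y / d (e (k, m))) ^ 2) :=
      Finset.sum_le_sum_of_subset_of_nonneg
        (fun m hm => Finset.mem_range.2 (lt_of_lt_of_le (Finset.mem_range.1 hm) h3))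
        (fun m _ _ => hnn _)
    refine le_trans ?_ h4
    have h5 : ∑ m ∈ Finset.range ⌊y / ((k : ℝ) + 1)⌋₊, Real.log 2 ≤
        ∑ m ∈ Finset.range ⌊y / ((k : ℝ) + 1)⌋₊, Real.log (1 + (y / d (e (k, m))) ^ 2) := by
      refine Finset.sum_le_sum fun m hm => ?_
      rw [Finset.mem_range] at hm
      refine Real.log_le_log two_pos ?_
      rw [he]
      simp only
      have hm0 : (0 : ℝ) < m + 1 := by positivity
      have h6 : ((m + 1 : ℕ) : ℝ) ≤ y / ((k : ℝ) + 1) := by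
        have h7 : ((m + 1 : ℕ) : ℝ) ≤ ⌊y / ((k : ℝ) + 1)⌋₊ := by exact_mod_cast hm
        exact h7.trans (Nat.floor_le (by positivity))
      push_cast at h6
      rw [le_div_iff₀ hk] at h6
      have h7 : 1 ≤ y / (((k : ℝ) + 1) * ((m : ℝ) + 1)) := by
        rw [le_div_iff₀ (by positivity)]
        linarith
      nlinarith
    refine le_trans ?_ h5
    rw [Finset.sum_const, Finset.card_range, nsmul_eq_mul]
    have h6 := Nat.lt_floor_add_one (y / ((k : ℝ) + 1))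
    exact mul_le_mul_of_nonneg_right (by linarith) hl.le
  have h3 := (Finset.sum_le_sum h2).trans h1
  rw [← Finset.sum_mul, Finset.sum_sub_distrib, Finset.sum_const, Finset.card_range,
    nsmul_eq_mul, mul_one] at h3
  have h4 : ∑ k ∈ Finset.range K₀, y / ((k : ℝ) + 1) =
      y * ∑ k ∈ Finset.range K₀, 1 / ((k : ℝ) + 1) := by
    rw [Finset.mul_sum]
    exact Finset.sum_congr rfl fun k _ => by rw [mul_one_div]
  rw [h4] at h3
  have h5 : y * (K / (a * Real.log 2) + 1) ≤ y * ∑ k ∈ Finset.range K₀, 1 / ((k : ℝ) + 1) :=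
    mul_le_mul_of_nonneg_left hK₀ hy0
  have h6 : y * (K / (a * Real.log 2)) * Real.log 2 = K * √r := by
    rw [hy]
    field_simp
  have h7 : K * √r ≤ Real.log ‖F (ray r (α + π))‖ := by
    rw [← h6]
    refine le_trans (mul_le_mul_of_nonneg_right ?_ hl.le) h3
    nlinarith
  rw [← Real.sqrt_eq_rpow]
  rwa [← Real.le_log_iff_exp_le (norm_pos_iff.2 hne)]

lemma dense_nonint (a : ℝ) (ha : 0 < a) : Dense {s : ℝ | ∀ n : ℤ, a * s ≠ n} := by
  have h1 : {s : ℝ | ∀ n : ℤ, a * s ≠ n} = (range fun n : ℤ => (n : ℝ) / a)ᶜ := by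
    ext s
    simp only [Set.mem_ofPred_eq, mem_compl_iff, mem_range, not_exists]
    refine forall_congr' fun n => ?_
    rw [ne_eq, div_eq_iff ha.ne', eq_comm, mul_comm]
  rw [h1]
  exact (countable_range _).dense_compl ℝ

/-- inequalities between continuous functions extend from the non-integral points -/
lemma le_of_nonint {f g : ℝ → ℝ} (hf : Continuous f) (hg : Continuous g) {y₀ : ℝ}
    (h : ∀ y, y₀ < y → (∀ n : ℤ, y ≠ n) → f y ≤ g y) {y : ℝ} (hy : y₀ < y) : f y ≤ g y := by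
  have h1 : Ioi y₀ ⊆ closure (Ioi y₀ ∩ {s : ℝ | ∀ n : ℤ, 1 * s ≠ n}) :=
    (dense_nonint 1 one_pos).open_subset_closure_inter isOpen_Ioi
  have h2 : IsClosed {s : ℝ | f s ≤ g s} := isClosed_le hf hg
  have h3 : Ioi y₀ ∩ {s : ℝ | ∀ n : ℤ, 1 * s ≠ n} ⊆ {s : ℝ | f s ≤ g s} := by
    rintro s ⟨hs1, hs2⟩
    exact h s hs1 fun n => by simpa using hs2 n
  exact (h2.closure_subset_iff.2 h3) (h1 hy)

lemma continuous_ray_sq (b α : ℝ) : Continuous fun s : ℝ => ray ((b * s) ^ 2) α := by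
  unfold ray
  fun_prop

lemma hasSum_fiber {y S : ℝ} (hy : ∀ n : ℤ, y ≠ n)
    (h : HasSum (fun p : ℕ × ℕ => Real.log |1 - (y / (((p.1 : ℝ) + 1) * ((p.2 : ℝ) + 1))) ^ 2|)
      S) :
    HasSum (fun k : ℕ => L (y / (k + 1))) S := by
  refine h.prod_fiberwise fun k => ?_
  have hk : (k : ℝ) + 1 ≠ 0 := by positivity
  have hw : ∀ n : ℤ, (((y / (k + 1) : ℝ)) : ℂ) ≠ n := by
    intro n hn
    have h1 : y / ((k : ℝ) + 1) = (n : ℝ) := by exact_mod_cast hn
    rw [div_eq_iff hk] at h1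
    refine hy (n * ((k : ℤ) + 1)) ?_
    push_cast
    exact h1
  have h2 := hasSum_log_sin hw
  convert! h2 using 1
  · funext m
    congr 1
    have hm : (m : ℝ) + 1 ≠ 0 := by positivity
    rw [show (1 : ℂ) - (((y / (k + 1) : ℝ)) : ℂ) ^ 2 / ((m : ℂ) + 1) ^ 2 =
      ((1 - (y / (((k : ℝ) + 1) * ((m : ℝ) + 1))) ^ 2 : ℝ) : ℂ) by
        push_cast
        rw [div_mul_eq_div_div, div_pow _ ((m : ℂ) + 1)], Complex.norm_real, Real.norm_eq_abs]
  · rw [L]
    congr 1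
    rw [show Complex.sin (π * (((y / (k + 1) : ℝ)) : ℂ)) / (π * (((y / (k + 1) : ℝ)) : ℂ)) =
      ((Real.sin (π * (y / (k + 1))) / (π * (y / (k + 1))) : ℝ) : ℂ) by push_cast; rfl,
      Complex.norm_real, Real.norm_eq_abs]

/-- the index set `ℕ × ℕ` -/
noncomputable def dd (p : ℕ × ℕ) : ℝ := ((p.1 : ℝ) + 1) * ((p.2 : ℝ) + 1)

lemma dd_pos (p : ℕ × ℕ) : 0 < dd p := by unfold dd; positivity

lemma summable_one (s : ℝ) (hs : 1 < s) : Summable fun n : ℕ => (1 / ((n : ℝ) + 1)) ^ s := by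
  have h := (Real.summable_one_div_nat_add_rpow 1 s).2 hs
  refine h.congr fun n => ?_
  have hn : (0 : ℝ) < n + 1 := by positivity
  rw [abs_of_pos hn, Real.div_rpow zero_le_one hn.le, Real.one_rpow]

lemma summable_dd (s : ℝ) (hs : 1 < s) : Summable fun p : ℕ × ℕ => (1 / dd p) ^ s := by
  have h := (summable_one s hs).mul_of_nonneg (summable_one s hs)
    (fun n => by positivity) (fun n => by positivity)
  refine h.congr fun p => ?_
  rw [← Real.mul_rpow (by positivity) (by positivity), dd, one_div_mul_one_div]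

lemma ne_dd {y : ℝ} (hy : ∀ n : ℤ, y ≠ n) (p : ℕ × ℕ) : y ≠ dd p := by
  intro h
  refine hy (((p.1 : ℤ) + 1) * ((p.2 : ℤ) + 1)) ?_
  rw [h, dd]
  push_cast
  rfl

end HF

open HF

theorem exists_F : ∃ β₀ : ℝ, β₀ < 0 ∧ ∀ α ∈ Icc 0 π, ∀ a : ℝ, 0 < a → ∃ F : ℂ → ℂ,
    Pre (1 / 2) F ∧ ind (1 / 2) F α = ((a * β₀ : ℝ) : EReal) ∧
      ∀ K : ℝ, ∀ᶠ r : ℝ in atTop, Real.exp (K * r ^ (1 / 2 : ℝ)) ≤ ‖F (ray r (α + π))‖ := by
  have hl := log_two_div_pi_neg
  obtain ⟨F₁, hF₁, hs₁, -⟩ := exists_rot dd_pos summable_dd (α := 0) ⟨le_rfl, Real.pi_pos.le⟩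
    (a := 1) one_pos
  have hcont₁ : Continuous fun s : ℝ => ‖F₁ (ray ((1 * s) ^ 2) 0)‖ :=
    (hF₁.entire.continuous.comp (continuous_ray_sq 1 0)).norm
  -- the sums
  have hA : ∀ y : ℝ, 0 ≤ y → (∀ n : ℤ, y ≠ n) → F₁ (ray (y ^ 2) 0) ≠ 0 ∧
      HasSum (fun k : ℕ => L (y / (k + 1))) (Real.log ‖F₁ (ray (y ^ 2) 0)‖) := by
    intro y hy0 hy
    have h1 := hs₁ (y ^ 2) (sq_nonneg _)
    rw [Real.sqrt_sq hy0, one_mul] at h1
    obtain ⟨h2, h3⟩ := h1 (ne_dd hy)
    exact ⟨h2, hasSum_fiber hy h3⟩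
  -- upper bound
  have hup : ind (1 / 2) F₁ 0 ≤ ((Real.log (2 / π) / 2 : ℝ) : EReal) := by
    refine ind_le_of_eventually ?_
    filter_upwards [eventually_gt_atTop 4] with r hr
    have h2 : (2 : ℝ) < √r := by
      rw [Real.lt_sqrt (by norm_num)]
      linarith
    have h1 := le_of_nonint (f := fun s => ‖F₁ (ray ((1 * s) ^ 2) 0)‖)
      (g := fun s => Real.exp (Real.log (2 / π) / 2 * s)) hcont₁ (by fun_prop) (y₀ := 2)
      (fun y hy2 hy => by
        obtain ⟨h3, h4⟩ := hA y (by linarith) hy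
        have h5 := sum_le_of_two_le hy2.le h4
        simp only [one_mul]
        rwa [← Real.log_le_iff_le_exp (norm_pos_iff.2 h3)]) h2
    simp only [one_mul] at h1
    rwa [Real.sq_sqrt (by linarith), Real.sqrt_eq_rpow] at h1
  -- lower bound
  have hlow : ((-99 : ℝ) : EReal) ≤ ind (1 / 2) F₁ 0 := by
    refine le_ind_of_frequently ?_
    rw [frequently_atTop]
    intro R
    obtain ⟨Y, hY⟩ := exists_nat_gt (max R 1)
    have hY1 : 1 < (Y : ℝ) := lt_of_le_of_lt (le_max_right _ _) hY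
    have hYR : R < Y := lt_of_le_of_lt (le_max_left _ _) hY
    have hY0 : 0 < Y := by
      have : (0 : ℝ) < Y := by linarith
      exact_mod_cast this
    have hni : ∀ n : ℕ, ∀ m : ℤ, ((n : ℝ) + 1 / 2) ≠ m := by
      intro n m h
      have h1 : ((2 * n + 1 : ℤ) : ℝ) = ((2 * m : ℤ) : ℝ) := by push_cast; linarith
      have h2 : (2 * n + 1 : ℤ) = 2 * m := by exact_mod_cast h1
      omega
    obtain ⟨n, hn, h1⟩ := HF.exists_ge hY0
      (A := fun n : ℕ => Real.log ‖F₁ (ray (((n : ℝ) + 1 / 2) ^ 2) 0)‖)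
      (fun n => (hA ((n : ℝ) + 1 / 2) (by positivity) (hni n)).2)
    have hn' : (Y : ℝ) ≤ n := by exact_mod_cast hn
    refine ⟨((n : ℝ) + 1 / 2) ^ 2, by nlinarith, ?_⟩
    rw [← Real.sqrt_eq_rpow, Real.sqrt_sq (by positivity), ← Real.le_log_iff_exp_le
      (norm_pos_iff.2 (hA ((n : ℝ) + 1 / 2) (by positivity) (hni n)).1)]
    linarith
  -- the value
  obtain ⟨β₀, hβ₀⟩ : ∃ β₀ : ℝ, ind (1 / 2) F₁ 0 = (β₀ : EReal) := by
    refine ⟨(ind (1 / 2) F₁ 0).toReal, (EReal.coe_toReal ?_ ?_).symm⟩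
    · exact ne_top_of_le_ne_top (EReal.coe_ne_top _) hup
    · exact ne_bot_of_le_ne_bot (EReal.coe_ne_bot _) hlow
  have hβ : β₀ < 0 := by
    rw [hβ₀, EReal.coe_le_coe_iff] at hup
    linarith
  refine ⟨β₀, hβ, fun α hα a ha => ?_⟩
  obtain ⟨F, hF, hs, hs'⟩ := exists_rot dd_pos summable_dd hα ha
  -- the two functions have the same norm
  have heq : ∀ r : ℝ, 0 ≤ r → ‖F (ray r α)‖ = ‖F₁ (ray (a ^ 2 * r) 0)‖ := by
    have h1 : (fun s : ℝ => ‖F (ray ((1 * s) ^ 2) α)‖) = fun s : ℝ => ‖F₁ (ray ((a * s) ^ 2) 0)‖ := by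
      refine Continuous.ext_on (dense_nonint a ha)
        (hF.entire.continuous.comp (continuous_ray_sq 1 α)).norm
        (hF₁.entire.continuous.comp (continuous_ray_sq a 0)).norm ?_
      intro s hs0
      have h2 : ∀ n : ℤ, |a * s| ≠ n := by
        intro n hn
        rcases abs_choice (a * s) with h | h
        · exact hs0 n (by rw [← hn, h])
        · exact hs0 (-n) (by push_cast; rw [← hn, h]; ring)
      have h3 : a * √((1 * s) ^ 2) = |a * s| := by
        rw [one_mul, Real.sqrt_sq_eq_abs, abs_mul, abs_of_pos ha]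
      obtain ⟨h4, h5⟩ := hs ((1 * s) ^ 2) (sq_nonneg _) (by rw [h3]; exact ne_dd h2)
      rw [h3] at h5
      obtain ⟨h6, h7⟩ := hs₁ ((a * s) ^ 2) (sq_nonneg _)
        (by rw [one_mul, Real.sqrt_sq_eq_abs]; exact ne_dd h2)
      rw [one_mul, Real.sqrt_sq_eq_abs] at h7
      exact Real.log_injOn_pos (norm_pos_iff.2 h4) (norm_pos_iff.2 h6) (h5.unique h7)
    intro r hr
    have h2 := congr_fun h1 (√r)
    simp only [one_mul] at h2
    rwa [Real.sq_sqrt hr, mul_pow, Real.sq_sqrt hr] at h2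
  have ha2 : 0 < a ^ 2 := by positivity
  have hpow : ∀ r : ℝ, 0 ≤ r → (a ^ 2 * r) ^ (1 / 2 : ℝ) = a * r ^ (1 / 2 : ℝ) := by
    intro r hr
    rw [← Real.sqrt_eq_rpow, ← Real.sqrt_eq_rpow, Real.sqrt_mul ha2.le, Real.sqrt_sq ha.le]
  refine ⟨F, hF, le_antisymm ?_ ?_, ?_⟩
  · refine EReal.le_of_forall_lt_iff_le.1 fun c hc => ?_
    have hc' : β₀ < c / a := by
      rw [lt_div_iff₀ ha, mul_comm]
      exact_mod_cast hc
    have h1 : ind (1 / 2) F₁ 0 < ((c / a : ℝ) : EReal) := by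
      rw [hβ₀]
      exact_mod_cast hc'
    have h2 := eventually_of_ind_lt h1
    have h3 : Tendsto (fun r : ℝ => a ^ 2 * r) atTop atTop :=
      Tendsto.const_mul_atTop ha2 tendsto_id
    refine ind_le_of_eventually ?_
    filter_upwards [h3.eventually h2, eventually_ge_atTop 0] with r hr hr0
    rw [heq r hr0]
    refine hr.le.trans (le_of_eq ?_)
    rw [hpow r hr0]
    congr 1
    field_simp
  · refine EReal.ge_of_forall_gt_iff_ge.1 fun c hc => ?_
    have hc' : c / a < β₀ := by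
      rw [div_lt_iff₀ ha, mul_comm]
      exact_mod_cast hc
    have h1 : ((c / a : ℝ) : EReal) < ind (1 / 2) F₁ 0 := by
      rw [hβ₀]
      exact_mod_cast hc'
    have h2 := frequently_of_lt_ind h1
    have h3 : Tendsto (fun r : ℝ => (a ^ 2)⁻¹ * r) atTop atTop :=
      Tendsto.const_mul_atTop (by positivity) tendsto_id
    refine le_ind_of_frequently ?_
    refine h3.frequently ((h2.and_eventually (eventually_ge_atTop 0)).mono ?_)
    rintro r ⟨hr, hr0⟩
    have h4 : 0 ≤ (a ^ 2)⁻¹ * r := by positivity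
    rw [heq _ h4, mul_inv_cancel_left₀ ha2.ne']
    refine le_trans (le_of_eq ?_) hr.le
    congr 1
    have h5 := hpow _ h4
    rw [mul_inv_cancel_left₀ ha2.ne'] at h5
    rw [h5]
    field_simp
  · exact opp_growth ha hs' (Function.Embedding.refl _) (fun p => rfl)

theorem exists_F_bot {α : ℝ} (hα : α ∈ Icc 0 π) : ∃ F : ℂ → ℂ,
    Pre (1 / 2) F ∧ ind (1 / 2) F α = ⊥ ∧
      ∀ K : ℝ, ∀ᶠ r : ℝ in atTop, Real.exp (K * r ^ (1 / 2 : ℝ)) ≤ ‖F (ray r (α + π))‖ := by
  have hl := log_two_div_pi_neg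
  obtain ⟨F₁, hF₁, hs₁, -⟩ := exists_rot dd_pos summable_dd (α := 0) ⟨le_rfl, Real.pi_pos.le⟩
    (a := 1) one_pos
  have hA : ∀ y : ℝ, 0 ≤ y → (∀ n : ℤ, y ≠ n) →
      HasSum (fun p : ℕ × ℕ => Real.log |1 - (y / dd p) ^ 2|)
        (Real.log ‖F₁ (ray (y ^ 2) 0)‖) ∧
      HasSum (fun k : ℕ => L (y / (k + 1))) (Real.log ‖F₁ (ray (y ^ 2) 0)‖) := by
    intro y hy0 hy
    have h1 := hs₁ (y ^ 2) (sq_nonneg _)
    rw [Real.sqrt_sq hy0, one_mul] at h1
    obtain ⟨h2, h3⟩ := h1 (ne_dd hy)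
    exact ⟨h3, hasSum_fiber hy h3⟩
  set d : ℕ × (ℕ × ℕ) → ℝ := fun q => ((q.1 : ℝ) + 1) * dd q.2 with hd
  have hdpos : ∀ q, 0 < d q := fun q => mul_pos (by positivity) (dd_pos _)
  have hdsum : ∀ s : ℝ, 1 < s → Summable fun q => (1 / d q) ^ s := by
    intro s hs
    have h := (summable_one s hs).mul_of_nonneg (summable_dd s hs)
      (fun n => by positivity) (fun n => Real.rpow_nonneg (one_div_nonneg.2 (dd_pos n).le) _)
    refine h.congr fun q => ?_
    rw [← Real.mul_rpow (by positivity) (one_div_nonneg.2 (dd_pos _).le), hd,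
      one_div_mul_one_div]
  obtain ⟨F, hF, hs, hs'⟩ := exists_rot hdpos hdsum hα (a := 1) one_pos
  have hcont : Continuous fun s : ℝ => ‖F (ray ((1 * s) ^ 2) α)‖ :=
    (hF.entire.continuous.comp (continuous_ray_sq 1 α)).norm
  refine ⟨F, hF, ?_, ?_⟩
  · rw [EReal.eq_bot_iff_forall_lt]
    intro K
    set c := -(Real.log (2 / π) / 2) with hc
    have hc0 : 0 < c := by rw [hc]; linarith
    obtain ⟨N, hN⟩ := (Real.tendsto_sum_range_one_div_nat_succ_atTop.eventually_ge_atTop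
      ((1 - K) / c)).exists
    refine lt_of_le_of_lt (b := ((K - 1 : ℝ) : EReal)) ?_ (by exact_mod_cast sub_one_lt K)
    refine ind_le_of_eventually ?_
    filter_upwards [eventually_gt_atTop ((2 * (N : ℝ)) ^ 2), eventually_gt_atTop 0]
      with r hr hr0
    have h2 : (2 * (N : ℝ)) < √r := by
      rw [Real.lt_sqrt (by positivity)]
      exact hr
    have h1 := le_of_nonint (f := fun s => ‖F (ray ((1 * s) ^ 2) α)‖)
      (g := fun s => Real.exp ((K - 1) * s)) hcont (by fun_prop) (y₀ := 2 * N)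
      (fun y hy2 hy => by
        have hy0 : 0 < y := lt_of_le_of_lt (by positivity) hy2
        simp only [one_mul]
        have hyd : ∀ q, y ≠ d q := by
          intro q h
          refine hy (((q.1 : ℤ) + 1) * (((q.2.1 : ℤ) + 1) * ((q.2.2 : ℤ) + 1))) ?_
          rw [h, hd]
          simp only [dd]
          push_cast
          rfl
        have h3 := hs (y ^ 2) (sq_nonneg _)
        rw [Real.sqrt_sq hy0.le, one_mul] at h3
        obtain ⟨h4, h5⟩ := h3 hyd
        have hyl : ∀ l : ℕ, ∀ n : ℤ, y / ((l : ℝ) + 1) ≠ n := by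
          intro l n h
          rw [div_eq_iff (by positivity)] at h
          refine hy (n * ((l : ℤ) + 1)) ?_
          push_cast
          exact h
        have h6 : HasSum (fun l : ℕ => Real.log ‖F₁ (ray ((y / ((l : ℝ) + 1)) ^ 2) 0)‖)
            (Real.log ‖F (ray (y ^ 2) α)‖) := by
          refine h5.prod_fiberwise fun l => ?_
          convert! (hA (y / ((l : ℝ) + 1)) (by positivity) (hyl l)).1 using 1
          funext p
          rw [hd]
          simp only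
          rw [div_mul_eq_div_div]
        have hnp : ∀ l : ℕ, Real.log ‖F₁ (ray ((y / ((l : ℝ) + 1)) ^ 2) 0)‖ ≤ 0 := by
          intro l
          exact hasSum_le (fun k => L_nonpos _)
            (hA (y / ((l : ℝ) + 1)) (by positivity) (hyl l)).2 hasSum_zero
        have h7 : Real.log ‖F (ray (y ^ 2) α)‖ ≤
            ∑ l ∈ Finset.range N, Real.log ‖F₁ (ray ((y / ((l : ℝ) + 1)) ^ 2) 0)‖ := by
          have := sum_le_hasSum (Finset.range N)
            (f := fun l : ℕ => -Real.log ‖F₁ (ray ((y / ((l : ℝ) + 1)) ^ 2) 0)‖)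
            (fun l _ => neg_nonneg.2 (hnp l)) h6.neg
          rw [Finset.sum_neg_distrib] at this
          linarith
        have h8 : ∑ l ∈ Finset.range N, Real.log ‖F₁ (ray ((y / ((l : ℝ) + 1)) ^ 2) 0)‖ ≤
            ∑ l ∈ Finset.range N, -(c * y) * (1 / ((l : ℝ) + 1)) := by
          refine Finset.sum_le_sum fun l hl' => ?_
          rw [Finset.mem_range] at hl'
          have hl0 : (0 : ℝ) < l + 1 := by positivity
          have h9 : (l : ℝ) + 1 ≤ N := by exact_mod_cast hl'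
          have h10 : 2 ≤ y / ((l : ℝ) + 1) := by
            rw [le_div_iff₀ hl0]
            linarith
          have h11 := sum_le_of_two_le h10
            (hA (y / ((l : ℝ) + 1)) (by positivity) (hyl l)).2
          refine h11.trans (le_of_eq ?_)
          rw [hc]
          ring
        rw [← Finset.mul_sum] at h8
        have h9 : (1 - K) * y ≤ c * y * ∑ l ∈ Finset.range N, 1 / ((l : ℝ) + 1) := by
          have h10 := mul_le_mul_of_nonneg_left hN (mul_pos hc0 hy0).le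
          refine le_trans (le_of_eq ?_) h10
          field_simp
        rw [← Real.log_le_iff_le_exp (norm_pos_iff.2 h4)]
        linarith) h2
    simp only [one_mul] at h1
    rwa [Real.sq_sqrt hr0.le, Real.sqrt_eq_rpow] at h1
  · refine opp_growth one_pos hs' ⟨fun p => (0, p), fun p q h => (Prod.mk.inj h).2⟩ (fun p => ?_)
    rw [hd]
    simp [dd]

end HBInd
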