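import Pool.Agent.HBInd.Prod

/-!
# The function `sin (b √z) / (b √z)` and rotations

* `hasSum_log_sin`: Euler's product `Complex.tendsto_euler_sin_prod` (the partial products of
  `∏ (1 - w² / (m+1)²)` tend to `sin (π w) / (π w)`); take `log ‖ ‖` (continuous at the non-zero limit);
  the series is absolutely convergent, so the limit of partial sums is the `HasSum` value
  (`Summable` from `exists_entire`, or from `exists_pre`).
* `exists_sinus` (`b = 0`: `G = 1`). For `b > 0`: `exists_pre` with `c_m = (b / π)² e^{-iα'} / (m+1)²`.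
  For `z = r e^{iθ}`, `w = (b / π) √r e^{i(θ - α')/2}`: `log |G z| = log |sin (π w) / (π w)|`, and
  `Im (π w) = b √r sin ((θ - α')/2) → ± ∞`; `|sin v| ≥ |sinh (Im v)|`, `|sin v| ≤ cosh (Im v)`.
-/

namespace HBInd

open Complex Filter Topology Set Bornology
open scoped Real ComplexConjugate

theorem hasSum_log_sin {w : ℂ} (hw : ∀ n : ℤ, w ≠ n) :
    HasSum (fun m : ℕ => Real.log ‖1 - w ^ 2 / ((m : ℂ) + 1) ^ 2‖)
      (Real.log ‖Complex.sin (π * w) / (π * w)‖) := by
  have hw0 : w ≠ 0 := by simpa using hw 0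
  have hpi : (π : ℂ) ≠ 0 := Complex.ofReal_ne_zero.2 Real.pi_ne_zero
  have hpw : (π : ℂ) * w ≠ 0 := mul_ne_zero hpi hw0
  have hne : ∀ m : ℕ, w ^ 2 / ((m : ℂ) + 1) ^ 2 ≠ 1 := by
    intro m hm
    have h1 : ((m : ℂ) + 1) ≠ 0 := Nat.cast_add_one_ne_zero m
    rw [div_eq_one_iff_eq (pow_ne_zero 2 h1)] at hm
    rcases sq_eq_sq_iff_eq_or_eq_neg.1 hm with h | h
    · exact hw ((m : ℤ) + 1) (by rw [h]; push_cast; ring)
    · exact hw (-((m : ℤ) + 1)) (by rw [h]; push_cast; ring)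
  have hne' : ∀ m : ℕ, (1 : ℂ) - w ^ 2 / ((m : ℂ) + 1) ^ 2 ≠ 0 := fun m h =>
    hne m (sub_eq_zero.1 h).symm
  -- the sine is not zero
  have hsin : Complex.sin (π * w) ≠ 0 := by
    rw [Complex.sin_ne_zero_iff]
    intro k hk
    refine hw k ?_
    rw [mul_comm (k : ℂ)] at hk
    exact mul_left_cancel₀ hpi hk
  -- the limit of the partial sums
  have h1 : Tendsto (fun n : ℕ => ∏ j ∈ Finset.range n, (1 - w ^ 2 / ((j : ℂ) + 1) ^ 2)) atTop
      (𝓝 (Complex.sin (π * w) / (π * w))) := by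
    have h := (Complex.tendsto_euler_sin_prod w).div_const ((π : ℂ) * w)
    refine h.congr fun n => ?_
    rw [mul_div_cancel_left₀ _ hpw]
  have h2 : Tendsto (fun n : ℕ => ∑ j ∈ Finset.range n,
      Real.log ‖(1 : ℂ) - w ^ 2 / ((j : ℂ) + 1) ^ 2‖) atTop
      (𝓝 (Real.log ‖Complex.sin (π * w) / (π * w)‖)) := by
    have h3 := (Real.continuousAt_log (norm_ne_zero_iff.2 (div_ne_zero hsin hpw))).tendsto.comp
      h1.norm
    refine h3.congr fun n => ?_
    rw [Function.comp_apply, norm_prod, Real.log_prod (fun j _ => norm_ne_zero_iff.2 (hne' j))]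
  -- summability
  have hw2 : ((‖w ^ 2‖ : ℝ) : ℂ) ≠ 0 :=
    Complex.ofReal_ne_zero.2 (norm_ne_zero_iff.2 (pow_ne_zero 2 hw0))
  have hsum : Summable fun m : ℕ => ‖((‖w ^ 2‖ : ℝ) : ℂ) / ((m : ℂ) + 1) ^ 2‖ := by
    have h3 : Summable fun m : ℕ => 1 / ((m : ℝ) + 1) ^ 2 := by
      have h4 := (summable_nat_add_iff 1).2 (Real.summable_one_div_nat_pow.2 (one_lt_two))
      refine h4.congr fun m => ?_
      push_cast
      rfl
    refine (h3.mul_left ‖w ^ 2‖).congr fun m => ?_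
    have : ‖(m : ℂ) + 1‖ = (m : ℝ) + 1 := by
      rw [← Nat.cast_add_one, Complex.norm_natCast]
      push_cast
      rfl
    rw [norm_div, Complex.norm_real, norm_norm, norm_pow ((m : ℂ) + 1), this, mul_one_div]
  obtain ⟨f, -, -, -, hf, -⟩ := exists_entire (c := fun m : ℕ => ((‖w ^ 2‖ : ℝ) : ℂ) /
    ((m : ℂ) + 1) ^ 2) hsum (by
      intro m
      have : ((‖w ^ 2‖ : ℝ) : ℂ) / ((m : ℂ) + 1) ^ 2 = ((‖w ^ 2‖ / ((m : ℝ) + 1) ^ 2 : ℝ) : ℂ) := by
        push_cast
        rfl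
      simp only [this, Complex.ofReal_im, le_refl])
  have hcz : ∀ m : ℕ, ((‖w ^ 2‖ : ℝ) : ℂ) / ((m : ℂ) + 1) ^ 2 * (w ^ 2 / ((‖w ^ 2‖ : ℝ) : ℂ)) =
      w ^ 2 / ((m : ℂ) + 1) ^ 2 := by
    intro m
    rw [div_mul_div_comm, mul_comm ((‖w ^ 2‖ : ℝ) : ℂ) (w ^ 2), mul_div_mul_right _ _ hw2]
  obtain ⟨-, h3⟩ := hf (w ^ 2 / ((‖w ^ 2‖ : ℝ) : ℂ)) (fun m => by
    simp only [hcz m]
    exact hne m)
  simp only [hcz] at h3
  have h4 := tendsto_nhds_unique h3.tendsto_sum_nat h2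
  rw [← h4]
  exact h3

/-- upper bound for the sine -/
lemma norm_sin_le (v : ℂ) : ‖Complex.sin v‖ ≤ Real.exp |v.im| := by
  have h1 : ‖Complex.exp (-v * I)‖ = Real.exp v.im := by
    rw [Complex.norm_exp]
    congr 1
    simp
  have h2 : ‖Complex.exp (v * I)‖ = Real.exp (-v.im) := by
    rw [Complex.norm_exp]
    congr 1
    simp
  have h3 : ‖Complex.sin v‖ = ‖Complex.exp (-v * I) - Complex.exp (v * I)‖ / 2 := by
    rw [Complex.sin, norm_div, norm_mul, Complex.norm_I, mul_one, Complex.norm_two]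
  rw [h3, div_le_iff₀ two_pos]
  refine (norm_sub_le _ _).trans ?_
  rw [h1, h2]
  have h4 : Real.exp v.im ≤ Real.exp |v.im| := Real.exp_le_exp.2 (le_abs_self _)
  have h5 : Real.exp (-v.im) ≤ Real.exp |v.im| := Real.exp_le_exp.2 (neg_le_abs _)
  linarith

/-- lower bound for the sine -/
lemma le_norm_sin {v : ℂ} (hv : 1 ≤ |v.im|) : Real.exp |v.im| / 4 ≤ ‖Complex.sin v‖ := by
  have h1 : ‖Complex.exp (-v * I)‖ = Real.exp v.im := by
    rw [Complex.norm_exp]
    congr 1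
    simp
  have h2 : ‖Complex.exp (v * I)‖ = Real.exp (-v.im) := by
    rw [Complex.norm_exp]
    congr 1
    simp
  have h3 : ‖Complex.sin v‖ = ‖Complex.exp (-v * I) - Complex.exp (v * I)‖ / 2 := by
    rw [Complex.sin, norm_div, norm_mul, Complex.norm_I, mul_one, Complex.norm_two]
  have h4 : |Real.exp v.im - Real.exp (-v.im)| ≤
      ‖Complex.exp (-v * I) - Complex.exp (v * I)‖ := by
    rw [← h1, ← h2]
    exact abs_norm_sub_norm_le _ _
  have h5 : Real.exp (-|v.im|) ≤ 1 := Real.exp_le_one_iff.2 (by linarith)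
  have h6 : 2 ≤ Real.exp |v.im| := by
    have := Real.add_one_le_exp |v.im|
    linarith
  have h7 : Real.exp |v.im| - Real.exp (-|v.im|) ≤ |Real.exp v.im - Real.exp (-v.im)| := by
    rcases le_total 0 v.im with h | h
    · rw [abs_of_nonneg h]
      exact le_abs_self _
    · rw [abs_of_nonpos h, neg_neg]
      have := neg_le_abs (Real.exp v.im - Real.exp (-v.im))
      linarith
  rw [h3]
  linarith

theorem exists_sinus {α' : ℝ} (hα : α' ∈ Icc 0 π) {b : ℝ} (hb : 0 ≤ b) :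
    ∃ G : ℂ → ℂ, Pre (1 / 2) G ∧ ∀ θ : ℝ, Real.sin ((θ - α') / 2) ≠ 0 →
      (∀ᶠ r : ℝ in atTop, G (ray r θ) ≠ 0) ∧
      Tendsto (fun r : ℝ => r ^ (-(1 / 2) : ℝ) * Real.log ‖G (ray r θ)‖) atTop
        (𝓝 (b * |Real.sin ((θ - α') / 2)|)) := by
  rcases hb.eq_or_lt with rfl | hb
  · refine ⟨fun _ => 1, ⟨differentiable_const _, ?_, fun z _ => one_ne_zero, fun z _ => le_rfl⟩,
      fun θ _ => ⟨Eventually.of_forall fun _ => one_ne_zero, ?_⟩⟩
    · intro σ _
      refine Eventually.of_forall fun z => ?_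
      rw [norm_one]
      exact Real.one_le_exp (Real.rpow_nonneg (norm_nonneg _) _)
    · simp only [norm_one, Real.log_one, mul_zero, zero_mul]
      exact tendsto_const_nhds
  -- the coefficients
  have hb2 : 0 < (b / π) ^ 2 := pow_pos (div_pos hb Real.pi_pos) 2
  set c : ℕ → ℂ := fun m => (((b / π) ^ 2 / ((m : ℝ) + 1) ^ 2 : ℝ) : ℂ) *
    Complex.exp (((-α' : ℝ) : ℂ) * I) with hc
  have hcn : ∀ m, ‖c m‖ = (b / π) ^ 2 / ((m : ℝ) + 1) ^ 2 := by
    intro m
    rw [hc]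
    simp only
    rw [norm_mul, Complex.norm_exp_ofReal_mul_I, mul_one, Complex.norm_real,
      Real.norm_of_nonneg (by positivity)]
  obtain ⟨G, hG, hG2, -⟩ := exists_pre (ρ := 1 / 2) (by norm_num) (by norm_num) (c := c) (by
    intro σ hσ
    have h1 : Summable fun m : ℕ => 1 / (((m + 1 : ℕ) : ℝ)) ^ (2 * σ) :=
      (summable_nat_add_iff 1).2 (Real.summable_one_div_nat_rpow.2 (by linarith))
    refine (h1.mul_left (((b / π) ^ 2) ^ σ)).congr fun m => ?_
    have h2 : (0 : ℝ) ≤ (m : ℝ) + 1 := by positivity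
    rw [hcn, Real.div_rpow hb2.le (by positivity), ← Real.rpow_natCast ((m : ℝ) + 1) 2,
      ← Real.rpow_mul h2, mul_one_div]
    push_cast
    rfl) (by
    intro m
    rw [hc]
    simp only
    rw [Complex.im_ofReal_mul, Complex.exp_ofReal_mul_I_im, Real.sin_neg]
    have h1 : 0 ≤ Real.sin α' := Real.sin_nonneg_of_nonneg_of_le_pi hα.1 hα.2
    have h2 : 0 ≤ (b / π) ^ 2 / ((m : ℝ) + 1) ^ 2 := by positivity
    nlinarith [mul_nonneg h2 h1])
  refine ⟨G, hG, fun θ hθ => ?_⟩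
  set s : ℝ := Real.sin ((θ - α') / 2) with hs
  -- the point `w`
  set w : ℝ → ℂ := fun r => ((b / π * Real.sqrt r : ℝ) : ℂ) *
    Complex.exp ((((θ - α') / 2 : ℝ) : ℂ) * I) with hw
  have hwn : ∀ r, 0 < r → ‖(π : ℂ) * w r‖ = b * Real.sqrt r := by
    intro r hr
    rw [hw]
    simp only
    rw [norm_mul, norm_mul, Complex.norm_exp_ofReal_mul_I, mul_one, Complex.norm_real,
      Complex.norm_real, Real.norm_of_nonneg Real.pi_pos.le, Real.norm_of_nonneg (by positivity)]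
    field_simp
  have hwim : ∀ r, ((π : ℂ) * w r).im = b * Real.sqrt r * s := by
    intro r
    rw [hw]
    simp only
    rw [Complex.im_ofReal_mul, Complex.im_ofReal_mul, Complex.exp_ofReal_mul_I_im]
    have := Real.pi_ne_zero
    field_simp
    rw [hs]
  have hwz : ∀ r, 0 < r → ∀ m : ℕ, c m * ray r θ = w r ^ 2 / ((m : ℂ) + 1) ^ 2 := by
    intro r hr m
    rw [hc, hw, ray]
    simp only
    have h1 : Complex.exp (((-α' : ℝ) : ℂ) * I) * Complex.exp ((θ : ℂ) * I) =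
        Complex.exp ((((θ - α') / 2 : ℝ) : ℂ) * I) ^ 2 := by
      rw [← Complex.exp_add, ← Complex.exp_nat_mul]
      congr 1
      push_cast
      ring
    have h2 : ((Real.sqrt r : ℝ) : ℂ) ^ 2 = (r : ℂ) := by
      rw [← Complex.ofReal_pow, Real.sq_sqrt hr.le]
    rw [mul_pow, ← h1]
    push_cast
    rw [mul_pow, h2]
    ring
  have hwint : ∀ r, 0 < r → ∀ n : ℤ, w r ≠ n := by
    intro r hr n hn
    have h1 := hwim r
    rw [hn] at h1
    have h2 : ((π : ℂ) * (n : ℂ)).im = 0 := by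
      rw [Complex.im_ofReal_mul, Complex.intCast_im, mul_zero]
    rw [h2] at h1
    exact (mul_ne_zero (mul_ne_zero hb.ne' (Real.sqrt_pos.2 hr).ne') hθ) h1.symm
  have hval : ∀ r, 0 < r → G (ray r θ) ≠ 0 ∧ Real.log ‖G (ray r θ)‖ =
      Real.log ‖Complex.sin (π * w r)‖ - Real.log (b * Real.sqrt r) := by
    intro r hr
    have hnz : ∀ m : ℕ, c m * ray r θ ≠ 1 := by
      intro m hm
      rw [hwz r hr m] at hm
      have h1 : ((m : ℂ) + 1) ≠ 0 := Nat.cast_add_one_ne_zero m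
      rw [div_eq_one_iff_eq (pow_ne_zero 2 h1)] at hm
      rcases sq_eq_sq_iff_eq_or_eq_neg.1 hm with h | h
      · exact hwint r hr ((m : ℤ) + 1) (by rw [h]; push_cast; ring)
      · exact hwint r hr (-((m : ℤ) + 1)) (by rw [h]; push_cast; ring)
    obtain ⟨h1, h2⟩ := hG2 (ray r θ) hnz
    refine ⟨h1, ?_⟩
    simp only [hwz r hr] at h2
    rw [h2.unique (hasSum_log_sin (hwint r hr)), norm_div, Real.log_div, hwn r hr]
    · intro h0
      rw [norm_eq_zero, Complex.sin_eq_zero_iff] at h0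
      obtain ⟨k, hk⟩ := h0
      refine hwint r hr k ?_
      rw [mul_comm (k : ℂ)] at hk
      exact mul_left_cancel₀ (Complex.ofReal_ne_zero.2 Real.pi_ne_zero) hk
    · rw [hwn r hr]
      exact (mul_pos hb (Real.sqrt_pos.2 hr)).ne'
  refine ⟨?_, ?_⟩
  · filter_upwards [eventually_gt_atTop 0] with r hr
    exact (hval r hr).1
  -- the limit
  have hsq : Tendsto (fun r : ℝ => Real.sqrt r) atTop atTop := Real.tendsto_sqrt_atTop
  have hinv : Tendsto (fun r : ℝ => (Real.sqrt r)⁻¹) atTop (𝓝 0) := tendsto_inv_atTop_zero.comp hsq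
  have hlog : Tendsto (fun r : ℝ => (Real.sqrt r)⁻¹ * Real.log (b * Real.sqrt r)) atTop
      (𝓝 0) := by
    have h1 : Tendsto (fun x : ℝ => Real.log x / x) atTop (𝓝 0) := by
      have := Real.isLittleO_log_id_atTop.tendsto_div_nhds_zero
      simpa using this
    have h2 : Tendsto (fun r : ℝ => b * Real.sqrt r) atTop atTop := hsq.const_mul_atTop hb
    have h3 := (h1.comp h2).const_mul b
    rw [mul_zero] at h3
    refine h3.congr' ?_
    filter_upwards [eventually_gt_atTop 0] with r hr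
    have := (Real.sqrt_pos.2 hr).ne'
    simp only [Function.comp_apply]
    field_simp
  have hup : Tendsto (fun r : ℝ => b * |s| - (Real.sqrt r)⁻¹ * Real.log (b * Real.sqrt r)) atTop
      (𝓝 (b * |s|)) := by
    simpa using tendsto_const_nhds.sub hlog
  have hlow : Tendsto (fun r : ℝ => b * |s| - (Real.sqrt r)⁻¹ * Real.log (b * Real.sqrt r) -
      (Real.sqrt r)⁻¹ * Real.log 4) atTop (𝓝 (b * |s|)) := by
    simpa using hup.sub (hinv.mul_const (Real.log 4))
  have hbig : ∀ᶠ r : ℝ in atTop, 1 ≤ b * Real.sqrt r * |s| := by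
    have h1 : Tendsto (fun r : ℝ => b * Real.sqrt r * |s|) atTop atTop :=
      (hsq.const_mul_atTop hb).atTop_mul_const (abs_pos.2 hθ)
    exact h1.eventually_ge_atTop 1
  have hexp : ∀ r : ℝ, 0 < r → r ^ (-(1 / 2) : ℝ) = (Real.sqrt r)⁻¹ := by
    intro r hr
    rw [Real.rpow_neg hr.le, Real.sqrt_eq_rpow]
  have habs : ∀ r : ℝ, |((π : ℂ) * w r).im| = b * Real.sqrt r * |s| := by
    intro r
    rw [hwim r, abs_mul, abs_of_nonneg (by positivity)]
  have hcancel : ∀ r : ℝ, 0 < r → (Real.sqrt r)⁻¹ * (b * Real.sqrt r * |s|) = b * |s| := by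
    intro r hr
    have := (Real.sqrt_pos.2 hr).ne'
    field_simp
  refine tendsto_of_tendsto_of_tendsto_of_le_of_le' hlow hup ?_ ?_
  · filter_upwards [hbig, eventually_gt_atTop 0] with r h1 hr
    rw [(hval r hr).2, hexp r hr, mul_sub]
    have h2 := le_norm_sin (v := (π : ℂ) * w r) (by rw [habs]; exact h1)
    have h3 : b * Real.sqrt r * |s| - Real.log 4 ≤ Real.log ‖Complex.sin (π * w r)‖ := by
      rw [← habs r, ← Real.log_exp |((π : ℂ) * w r).im|, ← Real.log_div (Real.exp_pos _).ne'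
        (by norm_num)]
      exact Real.log_le_log (by positivity) h2
    have h4 := mul_le_mul_of_nonneg_left h3 (inv_nonneg.2 (Real.sqrt_nonneg r))
    rw [mul_sub, hcancel r hr] at h4
    linarith
  · filter_upwards [hbig, eventually_gt_atTop 0] with r h1 hr
    rw [(hval r hr).2, hexp r hr, mul_sub]
    have h2 := norm_sin_le ((π : ℂ) * w r)
    have h0 := le_norm_sin (v := (π : ℂ) * w r) (by rw [habs]; exact h1)
    have h3 : Real.log ‖Complex.sin (π * w r)‖ ≤ b * Real.sqrt r * |s| := by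
      rw [← habs r, ← Real.log_exp |((π : ℂ) * w r).im|]
      exact Real.log_le_log (lt_of_lt_of_le (by positivity) h0) h2
    have h4 := mul_le_mul_of_nonneg_left h3 (inv_nonneg.2 (Real.sqrt_nonneg r))
    rw [hcancel r hr] at h4
    linarith

end HBInd
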