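import Pool.Agent.HBInd.Defs

/-!
# Functions subharmonic relative to the zero-free region: definitions
-/

namespace HBInd

open Complex Filter Topology Set
open scoped Real ComplexConjugate

/-- `log |1 - w|`, resp. `log |1 - w| + Re w` for `p = 1`: logarithm of the modulus of the Weierstrass
factor of genus `p` -/
noncomputable def KK (p : ℕ) (w : ℂ) : ℝ := Real.log ‖1 - w‖ + p * w.re

/-- the average of `KK p` over the circle with centre `w` and radius `δ |w|` -/
noncomputable def KD (p : ℕ) (δ : ℝ) (w : ℂ) : ℝ :=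
  Real.log (max ‖1 - w‖ (δ * ‖w‖)) + p * w.re

/-- the places where the zeros are: the closed upper half-plane without `0` for `p = 0`, the real axis
without `0` for `p = 1` -/
def XX (p : ℕ) : Set ℂ := {ζ | ζ ≠ 0 ∧ 0 ≤ ζ.im ∧ (p = 1 → ζ.im = 0)}

/-- the homogeneous function `|z| ^ ρ h(arg z)` -/
noncomputable def HH (ρ : ℝ) (h : ℝ → ℝ) (z : ℂ) : ℝ := ‖z‖ ^ ρ * h (Complex.arg z)

/-- `HH ρ h` is subharmonic relative to the set `XX p`: whenever a point `z₀` is dominated, with respect to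
all places `ζ` of zeros in `XX p`, by a system of circles with centres `z k`, radii `δ |z k|` and weights
`w k`, the value of `HH ρ h` at `z₀` is at most the corresponding combination of its averages over the
circles -/
def RelSub (p : ℕ) (ρ : ℝ) (h : ℝ → ℝ) : Prop :=
  ∀ δ ∈ Ioo (0 : ℝ) 1, ∀ z₀ : ℂ, z₀ ≠ 0 → ∀ (w : ℕ → ℝ) (z : ℕ → ℂ),
    (∀ k, 0 ≤ w k) → (∀ k, z k ≠ 0) → (Summable fun k => w k * ‖z k‖ ^ ρ) →
    (∀ ζ ∈ XX p, ζ ≠ z₀ → KK p (z₀ / ζ) ≤ ∑' k, w k * KD p δ (z k / ζ)) →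
    HH ρ h z₀ ≤ ∑' k, w k * Real.circleAverage (HH ρ h) (z k) (δ * ‖z k‖)

end HBInd
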