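import Pool.Agent.HBInd.Kernel
import Pool.Agent.HBInd.RelDefs

/-!
# Kernels of genus `p ∈ {0, 1}` in logarithmic coordinates

`kp p u ψ = KK p (e^{u + iψ})`, `kq p δ u ψ = KD p δ (e^{u + iψ})`, `mp p u = min (e^{p u}) (e^{(p+1) u})`.

* `abs_kp_le_PhiP`: for `p = 0` this is `abs_ker_le`; for `p = 1` and `u ≤ -1` use
  `|log |1 - w| + Re w| ≤ |w|²` for `|w| ≤ 1/2`, and `abs_ker_le` + `e^u` for `u > -1`. So
  `PhiP p u = if p = 0 then Phi u else (if u ≤ -1 then e^{2u} else Phi u + e^u)`.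
* `integrable_PhiP`: `integrable_Phi` (case `p = 0`); for `p = 1`, `1 < ρ < 2`: on `u ≤ -1` compare with
  `(1 + |u|) e^{(2 - ρ) u}`; on `u > -1`, `e^{-ρ u} ≤ C e^{-u/2}` reduces `Phi` to `integrable_Phi` with
  `1/2`, and `(1 + |u|) e^{(1 - ρ) u}` is integrable on `(-1, ∞)`.
* `kd_lip`: with `w' = w e^{-v}`, `|v| ≤ 1`: `|w - w'| ≤ 2 |v| |w'|`, so
  `max |1 - w| (δ |w|) ≤ M' + 2 |v| |w'|` with `M' = max |1 - w'| (δ |w'|) ≥ δ |w'|`, and
  `M' ≥ 1/2` if `|w'| ≤ 1/2`; so `log (..) ≤ log M' + (4 / δ) |v| min 1 |w'|`. For `p = 1` and `|w| ≤ 1/4`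
  use that `log |1 - w| + Re w` has gradient `Re (w²/(w-1))`-type `≤ 2 |w|²` in logarithmic coordinates
  (as long as `|1 - w| ≥ δ |w|`, which holds there for `δ < 1`), otherwise add `|w - w'| ≤ C |v|`.
* `abs_kq_le`: for `u ≤ -2`: `|kq| ≤ C e^{(p+1) u}`, for `u ≥ -2`:
  `|kq| ≤ C_δ (1 + |u|) + p e^u ≤ C e^{σ u}`.
* `hasDerivAt_kp`: `d/du = Re (e^w / (e^w - 1)) + p Re e^w`, for `p = 1` it is
  `Re (e^{2w} / (e^w - 1))`; `|e^w - 1| ≥ |sin ψ| max 1 e^u`.
-/

namespace HBInd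

open Complex Filter Topology Set MeasureTheory
open scoped Real

noncomputable def kp (p : ℕ) (u ψ : ℝ) : ℝ := KK p (Complex.exp ((u : ℂ) + (ψ : ℂ) * I))

noncomputable def kq (p : ℕ) (δ u ψ : ℝ) : ℝ := KD p δ (Complex.exp ((u : ℂ) + (ψ : ℂ) * I))

noncomputable def mp (p : ℕ) (u : ℝ) : ℝ := min (Real.exp (p * u)) (Real.exp ((p + 1) * u))

/-- a majorant of `|kp p|` -/
noncomputable def PhiP (p : ℕ) (u : ℝ) : ℝ :=
  if p = 0 then Phi u else (if u ≤ -1 then Real.exp (2 * u) else Phi u + Real.exp u)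

/-! ### auxiliary facts -/

theorem re_expw (u ψ : ℝ) : (Complex.exp ((u : ℂ) + (ψ : ℂ) * I)).re = Real.exp u * Real.cos ψ := by
  rw [Complex.exp_re]; simp

theorem kp_eq (p : ℕ) (u ψ : ℝ) : kp p u ψ = ker u ψ + p * (Real.exp u * Real.cos ψ) := by
  rw [kp, KK, re_expw, ker]

theorem exp_neg_one_le_half : Real.exp (-1) ≤ 1 / 2 := by
  rw [Real.exp_neg]
  have h3 : (2 : ℝ) ≤ Real.exp 1 := by linarith [Real.add_one_le_exp (1 : ℝ)]
  have h4 : (Real.exp 1)⁻¹ ≤ 2⁻¹ := inv_anti₀ (by norm_num) h3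
  linarith

/-- `|log |1 - w| + Re w| ≤ |w|²` for `|w| ≤ 1/2` -/
theorem abs_log_add_re_le {w : ℂ} (hw : ‖w‖ ≤ 1 / 2) : |Real.log ‖1 - w‖ + w.re| ≤ ‖w‖ ^ 2 := by
  have h1 : ‖-w‖ < 1 := by rw [norm_neg]; linarith
  have h2 := Complex.norm_log_one_add_sub_self_le h1
  have h3 : (Complex.log (1 + -w) - -w).re = Real.log ‖1 - w‖ + w.re := by
    rw [Complex.sub_re, Complex.log_re, Complex.neg_re, ← sub_eq_add_neg]
    ring
  have h4 := Complex.abs_re_le_norm (Complex.log (1 + -w) - -w)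
  rw [h3] at h4
  refine h4.trans (h2.trans ?_)
  rw [norm_neg]
  have h5 : (1 - ‖w‖)⁻¹ ≤ 2 := by
    rw [inv_le_iff_one_le_mul₀ (by linarith)]
    linarith
  have h6 : 0 ≤ ‖w‖ ^ 2 := by positivity
  nlinarith

theorem abs_re_expw_le (u ψ : ℝ) : |Real.exp u * Real.cos ψ| ≤ Real.exp u := by
  rw [abs_mul, abs_of_pos (Real.exp_pos u)]
  have := Real.abs_cos_le_one ψ
  have := Real.exp_pos u
  nlinarith

theorem mp_zero (u : ℝ) : mp 0 u = min 1 (Real.exp u) := by
  simp [mp]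

theorem mp_one (u : ℝ) : mp 1 u = min (Real.exp u) (Real.exp u ^ 2) := by
  rw [mp, ← Real.exp_nat_mul]
  norm_num

/-! ### the statements -/

theorem mp_le {p : ℕ} {ρ : ℝ} (h1 : (p : ℝ) ≤ ρ) (h2 : ρ ≤ p + 1) (u : ℝ) :
    mp p u ≤ Real.exp (ρ * u) := by
  unfold mp
  rcases le_total 0 u with hu | hu
  · refine (min_le_left _ _).trans (Real.exp_le_exp.2 ?_)
    exact mul_le_mul_of_nonneg_right h1 hu
  · refine (min_le_right _ _).trans (Real.exp_le_exp.2 ?_)
    exact mul_le_mul_of_nonpos_right h2 hu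

theorem PhiP_nonneg (p : ℕ) (u : ℝ) : 0 ≤ PhiP p u := by
  unfold PhiP
  have := Phi_nonneg u
  split_ifs <;> positivity

theorem abs_kp_le_PhiP {p : ℕ} (hp : p ≤ 1) {u : ℝ} (hu : u ≠ 0) (ψ : ℝ) :
    |kp p u ψ| ≤ PhiP p u := by
  have hker := abs_ker_le hu ψ
  interval_cases p
  · rw [kp_eq, PhiP, if_pos rfl]
    simpa using hker
  · rw [PhiP, if_neg one_ne_zero]
    split_ifs with h
    · have hn := norm_expw u ψ
      have h1 : Real.exp u ≤ 1 / 2 := (Real.exp_le_exp.2 h).trans exp_neg_one_le_half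
      have h2 := abs_log_add_re_le (w := Complex.exp ((u : ℂ) + (ψ : ℂ) * I)) (by rw [hn]; exact h1)
      rw [hn, ← Real.exp_nat_mul] at h2
      rw [kp, KK]
      simpa using h2
    · rw [kp_eq]
      have h1 := abs_re_expw_le u ψ
      have h2 := abs_add_le (ker u ψ) (((1 : ℕ) : ℝ) * (Real.exp u * Real.cos ψ))
      rw [Nat.cast_one, one_mul] at h2
      rw [Nat.cast_one, one_mul]
      linarith

theorem measurable_PhiP (p : ℕ) : Measurable (PhiP p) := by
  unfold PhiP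
  have := measurable_Phi
  by_cases hp : p = 0
  · simpa [hp] using this
  · simp only [if_neg hp]
    exact Measurable.ite (measurableSet_le measurable_id measurable_const)
      (by fun_prop) (by fun_prop)

theorem integrable_PhiP {p : ℕ} (hp : p ≤ 1) {ρ : ℝ} (h1 : (p : ℝ) < ρ) (h2 : ρ < p + 1) :
    Integrable fun u : ℝ => (1 + |u|) * PhiP p u * Real.exp (-ρ * u) := by
  interval_cases p
  · have h3 : (fun u : ℝ => (1 + |u|) * PhiP 0 u * Real.exp (-ρ * u)) =
        fun u : ℝ => (1 + |u|) * Phi u * Real.exp (-ρ * u) := by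
      ext u
      rw [PhiP, if_pos rfl]
    rw [h3]
    exact integrable_Phi (by simpa using h1) (by simpa using h2)
  · have h1 : 1 < ρ := by simpa using h1
    have h2 : ρ < 2 := by
      have : ρ < ((1 : ℕ) : ℝ) + 1 := h2
      norm_num at this
      exact this
    have hm : Measurable fun u : ℝ => (1 + |u|) * PhiP 1 u * Real.exp (-ρ * u) := by
      have := measurable_PhiP 1
      fun_prop
    have h0 : ∀ u : ℝ, 0 ≤ (1 + |u|) * PhiP 1 u * Real.exp (-ρ * u) := fun u => by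
      have := PhiP_nonneg 1 u
      positivity
    have hA : IntegrableOn (fun u : ℝ => (1 + |u|) * PhiP 1 u * Real.exp (-ρ * u)) (Iic (-1)) := by
      set ε := (2 - ρ) / 2 with hε
      have hε0 : 0 < ε := by rw [hε]; linarith
      refine Integrable.mono' ((integrableOn_exp_mul_Iic hε0 (-1)).const_mul (1 + 1 / ε))
        hm.aestronglyMeasurable.restrict ?_
      filter_upwards [self_mem_ae_restrict measurableSet_Iic] with u hu
      have hu : u ≤ -1 := hu
      rw [Real.norm_of_nonneg (h0 u), PhiP, if_neg one_ne_zero, if_pos hu]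
      have h2 := lin_le_exp hε0 (abs_nonneg u)
      have h3 : |u| = -u := abs_of_neg (by linarith)
      calc (1 + |u|) * Real.exp (2 * u) * Real.exp (-ρ * u)
          ≤ ((1 + 1 / ε) * Real.exp (ε * |u|)) * Real.exp (2 * u) * Real.exp (-ρ * u) := by
            gcongr
        _ = (1 + 1 / ε) * (Real.exp (ε * |u|) * Real.exp (2 * u) * Real.exp (-ρ * u)) := by ring
        _ = (1 + 1 / ε) * Real.exp (ε * u) := by
            rw [← Real.exp_add, ← Real.exp_add, h3, hε]
            congr 2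
            ring
    have hB : IntegrableOn (fun u : ℝ => (1 + |u|) * PhiP 1 u * Real.exp (-ρ * u)) (Ioi (-1)) := by
      set ε := (ρ - 1) / 2 with hε
      have hε0 : 0 < ε := by rw [hε]; linarith
      have hI1 : Integrable fun u : ℝ => (1 + |u|) * Phi u * Real.exp (-(1 / 2) * u) :=
        integrable_Phi (by norm_num) (by norm_num)
      have hI2 : IntegrableOn (fun u : ℝ => Real.exp (-ε * u)) (Ioi (-1)) :=
        integrableOn_exp_mul_Ioi (a := -ε) (by linarith) (-1)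
      have hI := (hI1.integrableOn (s := Ioi (-1))).const_mul (Real.exp (ρ - 1 / 2)) |>.add
        (hI2.const_mul ((1 + 1 / ε) * Real.exp (2 * ε)))
      refine Integrable.mono' hI hm.aestronglyMeasurable.restrict ?_
      filter_upwards [self_mem_ae_restrict measurableSet_Ioi] with u hu
      have hu : -1 < u := hu
      rw [Real.norm_of_nonneg (h0 u), PhiP, if_neg one_ne_zero, if_neg (not_le.2 hu)]
      have h3 := lin_le_exp hε0 (abs_nonneg u)
      have h4 : Real.exp (-ρ * u) ≤ Real.exp (ρ - 1 / 2) * Real.exp (-(1 / 2) * u) := by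
        rw [← Real.exp_add]
        apply Real.exp_le_exp.2
        nlinarith
      have h5 : Real.exp (ε * |u|) ≤ Real.exp (2 * ε) * Real.exp (ε * u) := by
        rw [← Real.exp_add]
        apply Real.exp_le_exp.2
        have : |u| ≤ u + 2 := by
          rw [abs_le]; constructor <;> linarith
        nlinarith
      have hPhi := Phi_nonneg u
      calc (1 + |u|) * (Phi u + Real.exp u) * Real.exp (-ρ * u)
          = (1 + |u|) * Phi u * Real.exp (-ρ * u) +
            (1 + |u|) * (Real.exp u * Real.exp (-ρ * u)) := by ring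
        _ ≤ (1 + |u|) * Phi u * (Real.exp (ρ - 1 / 2) * Real.exp (-(1 / 2) * u)) +
            ((1 + 1 / ε) * (Real.exp (2 * ε) * Real.exp (ε * u))) *
              (Real.exp u * Real.exp (-ρ * u)) := by
            gcongr
            exact h3.trans (by gcongr)
        _ = Real.exp (ρ - 1 / 2) * ((1 + |u|) * Phi u * Real.exp (-(1 / 2) * u)) +
            (1 + 1 / ε) * Real.exp (2 * ε) *
              (Real.exp (ε * u) * Real.exp u * Real.exp (-ρ * u)) := by ring
        _ = Real.exp (ρ - 1 / 2) * ((1 + |u|) * Phi u * Real.exp (-(1 / 2) * u)) +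
            (1 + 1 / ε) * Real.exp (2 * ε) * Real.exp (-ε * u) := by
            congr 2
            rw [← Real.exp_add, ← Real.exp_add, hε]
            congr 1
            ring
    rw [← integrableOn_univ, ← Iic_union_Ioi (a := (-1 : ℝ))]
    exact hA.union hB

/-- the regularised kernel is larger -/
theorem KK_le_KD {p : ℕ} {δ : ℝ} {w : ℂ} (hw : w ≠ 1) : KK p w ≤ KD p δ w := by
  unfold KK KD
  have h : 0 < ‖1 - w‖ := norm_pos_iff.2 (sub_ne_zero.2 hw.symm)
  have := Real.log_le_log h (le_max_left ‖1 - w‖ (δ * ‖w‖))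
  linarith

theorem kp_le_kq {p : ℕ} {δ : ℝ} {u : ℝ} (hu : u ≠ 0) (ψ : ℝ) : kp p u ψ ≤ kq p δ u ψ := by
  refine KK_le_KD fun h => hu ?_
  have h1 := norm_expw u ψ
  rw [h, norm_one] at h1
  have := congrArg Real.log h1
  rw [Real.log_one, Real.log_exp] at this
  exact this.symm

theorem norm_expw_sub_le {u u' ψ ψ' : ℝ} (h : |u - u'| + |ψ - ψ'| ≤ 1) :
    ‖Complex.exp ((u : ℂ) + (ψ : ℂ) * I) - Complex.exp ((u' : ℂ) + (ψ' : ℂ) * I)‖ ≤
      2 * (|u - u'| + |ψ - ψ'|) * Real.exp u' := by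
  set v : ℂ := ((u - u' : ℝ) : ℂ) + ((ψ - ψ' : ℝ) : ℂ) * I with hv
  have hvn : ‖v‖ ≤ |u - u'| + |ψ - ψ'| := by
    refine (norm_add_le _ _).trans ?_
    rw [norm_mul, Complex.norm_I, mul_one, Complex.norm_real, Complex.norm_real,
      Real.norm_eq_abs, Real.norm_eq_abs]
  have h1 : Complex.exp ((u : ℂ) + (ψ : ℂ) * I) - Complex.exp ((u' : ℂ) + (ψ' : ℂ) * I) =
      Complex.exp ((u' : ℂ) + (ψ' : ℂ) * I) * (Complex.exp v - 1) := by
    rw [mul_sub, mul_one, ← Complex.exp_add]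
    congr 2
    rw [hv]
    push_cast
    ring
  rw [h1, norm_mul, norm_expw]
  have h2 := Complex.norm_exp_sub_one_le (hvn.trans h)
  have h3 := Real.exp_pos u'
  nlinarith

theorem log_max_le {δ : ℝ} (hδ : δ ∈ Ioo (0 : ℝ) 1) {w w' : ℂ} {s : ℝ} (hs : 0 ≤ s)
    (hw' : w' ≠ 0) (h : ‖w - w'‖ ≤ 2 * s * ‖w'‖) :
    Real.log (max ‖1 - w‖ (δ * ‖w‖)) ≤
      Real.log (max ‖1 - w'‖ (δ * ‖w'‖)) + 4 / δ * s * min 1 ‖w'‖ := by
  set M' := max ‖1 - w'‖ (δ * ‖w'‖) with hM'
  have hr : 0 < ‖w'‖ := norm_pos_iff.2 hw'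
  have hδ0 := hδ.1
  have hδ1 := hδ.2
  have hM1 : δ * ‖w'‖ ≤ M' := le_max_right _ _
  have hM2 : ‖1 - w'‖ ≤ M' := le_max_left _ _
  have hM0 : 0 < M' := lt_of_lt_of_le (by positivity) hM1
  have hM : max ‖1 - w‖ (δ * ‖w‖) ≤ M' + 2 * s * ‖w'‖ := by
    refine max_le ?_ ?_
    · have h1 : ‖1 - w‖ ≤ ‖1 - w'‖ + ‖w - w'‖ := by
        have : 1 - w = (1 - w') - (w - w') := by ring
        rw [this]
        exact norm_sub_le _ _
      linarith
    · have h1 : ‖w‖ ≤ ‖w'‖ + ‖w - w'‖ := by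
        have : w = w' + (w - w') := by ring
        nth_rw 1 [this]
        exact norm_add_le _ _
      have h2 : 0 ≤ ‖w - w'‖ := norm_nonneg _
      nlinarith
  have hMpos : 0 ≤ max ‖1 - w‖ (δ * ‖w‖) := le_max_of_le_left (norm_nonneg _)
  have hx : 0 ≤ 2 * s * ‖w'‖ := by positivity
  have hrM : ‖w'‖ / M' ≤ 2 / δ * min 1 ‖w'‖ := by
    rw [div_le_iff₀ hM0]
    rcases le_total ‖w'‖ (1 / 2) with h5 | h5
    · have h6 : 1 / 2 ≤ M' := by
        have : 1 - ‖w'‖ ≤ ‖1 - w'‖ := by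
          have := norm_sub_norm_le (1 : ℂ) w'
          rwa [norm_one] at this
        linarith
      rw [min_eq_right (by linarith)]
      have h7 : 1 ≤ 1 / δ := by
        rw [le_div_iff₀ hδ0]; linarith
      have h8 : 2 / δ * ‖w'‖ * M' = (1 / δ) * (‖w'‖ * (2 * M')) := by ring
      rw [h8]
      have h9 : ‖w'‖ ≤ ‖w'‖ * (2 * M') := by nlinarith
      have h10 : 0 ≤ ‖w'‖ * (2 * M') := by positivity
      nlinarith
    · have h6 : 1 / 2 ≤ min 1 ‖w'‖ := le_min (by norm_num) h5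
      have h7 : ‖w'‖ ≤ 1 / δ * M' := by
        rw [div_mul_eq_mul_div, one_mul, le_div_iff₀ hδ0]
        linarith
      have h8 : 2 / δ * min 1 ‖w'‖ * M' = (2 * min 1 ‖w'‖) * (1 / δ * M') := by ring
      rw [h8]
      have h9 : 0 ≤ 1 / δ * M' := by positivity
      nlinarith
  have hlog : Real.log (M' + 2 * s * ‖w'‖) ≤ Real.log M' + 2 * s * (‖w'‖ / M') := by
    have e : M' + 2 * s * ‖w'‖ = M' * (1 + 2 * s * (‖w'‖ / M')) := by
      field_simp
    have hpos : 0 < 1 + 2 * s * (‖w'‖ / M') := by positivity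
    rw [e, Real.log_mul hM0.ne' hpos.ne']
    have := Real.log_le_sub_one_of_pos hpos
    linarith
  have hfin : Real.log (max ‖1 - w‖ (δ * ‖w‖)) ≤ Real.log (M' + 2 * s * ‖w'‖) := by
    rcases hMpos.eq_or_lt with h0 | h0
    · exfalso
      have h1 : ‖1 - w‖ ≤ 0 := by rw [h0]; exact le_max_left _ _
      have h2 : δ * ‖w‖ ≤ 0 := by rw [h0]; exact le_max_right _ _
      have h3 : 1 - w = 0 := norm_le_zero_iff.1 h1
      have h4 : w = 1 := (sub_eq_zero.1 h3).symm
      rw [h4, norm_one] at h2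
      linarith
    · exact Real.log_le_log h0 hM
  have h11 : 2 * s * (‖w'‖ / M') ≤ 2 * s * (2 / δ * min 1 ‖w'‖) := by gcongr
  calc _ ≤ Real.log (M' + 2 * s * ‖w'‖) := hfin
    _ ≤ Real.log M' + 2 * s * (‖w'‖ / M') := hlog
    _ ≤ Real.log M' + 2 * s * (2 / δ * min 1 ‖w'‖) := by linarith
    _ = _ := by ring

theorem log_add_re_lip {w w' : ℂ} {s : ℝ} (hs : 0 ≤ s) (hs1 : s ≤ 1) (h1 : ‖w'‖ ≤ 1 / 8)
    (h : ‖w - w'‖ ≤ 2 * s * ‖w'‖) :
    Real.log ‖1 - w‖ + w.re ≤ Real.log ‖1 - w'‖ + w'.re + 48 * s * ‖w'‖ ^ 2 := by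
  have hr : 0 ≤ ‖w'‖ := norm_nonneg _
  have h2 : 7 / 8 ≤ ‖1 - w'‖ := by
    have := norm_sub_norm_le (1 : ℂ) w'
    rw [norm_one] at this
    linarith
  have hne : 1 - w' ≠ 0 := norm_pos_iff.1 (by linarith)
  set q : ℂ := (w - w') / (1 - w') with hq
  have hqn : ‖q‖ ≤ 3 * s * ‖w'‖ := by
    rw [hq, norm_div, div_le_iff₀ (by linarith)]
    have : 0 ≤ s * ‖w'‖ := by positivity
    nlinarith
  have hq2 : ‖q‖ ≤ 1 / 2 := by
    have : s * ‖w'‖ ≤ 1 * (1 / 8) := by gcongr
    nlinarith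
  have e1 : 1 - w = (1 - w') * (1 - q) := by
    rw [hq]; field_simp; ring
  have hq1 : ‖1 - q‖ ≠ 0 := by
    have := norm_sub_norm_le (1 : ℂ) q
    rw [norm_one] at this
    linarith
  have e2 : Real.log ‖1 - w‖ = Real.log ‖1 - w'‖ + Real.log ‖1 - q‖ := by
    rw [e1, norm_mul, Real.log_mul (norm_ne_zero_iff.2 hne) hq1]
  have h3 := (abs_le.1 (abs_log_add_re_le hq2)).2
  have e3 : w - w' - q = -(q * w') := by
    rw [hq]; field_simp; ring
  have h4 : (w - w' - q).re ≤ ‖q‖ * ‖w'‖ := by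
    refine (Complex.re_le_norm _).trans ?_
    rw [e3, norm_neg, norm_mul]
  rw [Complex.sub_re, Complex.sub_re] at h4
  have h5 : ‖q‖ * ‖w'‖ ≤ 3 * s * ‖w'‖ ^ 2 := by nlinarith
  have h6 : ‖q‖ ^ 2 ≤ 9 * s * ‖w'‖ ^ 2 := by
    have : ‖q‖ ^ 2 ≤ (3 * s * ‖w'‖) ^ 2 := by gcongr
    have h7 : (3 * s * ‖w'‖) ^ 2 = 9 * (s * s) * ‖w'‖ ^ 2 := by ring
    have h8 : s * s ≤ s := by nlinarith
    have h9 : 9 * (s * s) * ‖w'‖ ^ 2 ≤ 9 * s * ‖w'‖ ^ 2 := by gcongr
    linarith
  have h7 : 0 ≤ s * ‖w'‖ ^ 2 := by positivity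
  rw [e2]
  linarith

/-- Lipschitz estimate for the regularised kernel; the constant does not depend on anything -/
theorem kd_lip : ∃ C : ℝ, 0 < C ∧ ∀ (p : ℕ), p ≤ 1 → ∀ δ ∈ Ioo (0 : ℝ) 1, ∀ u u' ψ ψ' : ℝ,
    |u - u'| + |ψ - ψ'| ≤ 1 →
      kq p δ u ψ ≤ kq p δ u' ψ' + C / δ * (|u - u'| + |ψ - ψ'|) * mp p u' := by
  refine ⟨48, by norm_num, ?_⟩
  intro p hp δ hδ u u' ψ ψ' hs1
  have hs : 0 ≤ |u - u'| + |ψ - ψ'| := by positivity
  have hd := norm_expw_sub_le hs1
  have hn := norm_expw u ψ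
  have hn' := norm_expw u' ψ'
  set s := |u - u'| + |ψ - ψ'| with hsdef
  set w := Complex.exp ((u : ℂ) + (ψ : ℂ) * I) with hw
  set w' := Complex.exp ((u' : ℂ) + (ψ' : ℂ) * I) with hw'
  have hd' : ‖w - w'‖ ≤ 2 * s * ‖w'‖ := by rw [hn']; exact hd
  have hw0 : w' ≠ 0 := Complex.exp_ne_zero _
  have hδ0 := hδ.1
  have hδ1 := hδ.2
  have hr := Real.exp_pos u'
  have hinv : 1 ≤ 1 / δ := by rw [le_div_iff₀ hδ0]; linarith
  have hL := log_max_le hδ hs hw0 hd'
  rw [hn'] at hL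
  interval_cases p
  · rw [mp_zero]
    simp only [kq, KD, ← hw, ← hw', Nat.cast_zero, zero_mul, add_zero]
    rw [hn']
    have hm : 0 ≤ min 1 (Real.exp u') := le_min (by norm_num) hr.le
    have : 4 / δ * s * min 1 (Real.exp u') ≤ 48 / δ * s * min 1 (Real.exp u') := by
      gcongr
      norm_num
    linarith
  · rw [mp_one]
    simp only [kq, KD, ← hw, ← hw', Nat.cast_one, one_mul]
    rcases le_total (Real.exp u') (1 / 8) with h8 | h8
    · have h1 : max ‖1 - w'‖ (δ * ‖w'‖) = ‖1 - w'‖ := by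
        apply max_eq_left
        have := norm_sub_norm_le (1 : ℂ) w'
        rw [norm_one, hn'] at this
        rw [hn']
        nlinarith
      have hwn : ‖w‖ ≤ 3 / 8 := by
        have h2 : ‖w‖ ≤ ‖w'‖ + ‖w - w'‖ := by
          have : w = w' + (w - w') := by ring
          nth_rw 1 [this]
          exact norm_add_le _ _
        rw [hn'] at h2
        nlinarith
      have h2 : max ‖1 - w‖ (δ * ‖w‖) = ‖1 - w‖ := by
        apply max_eq_left
        have := norm_sub_norm_le (1 : ℂ) w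
        rw [norm_one] at this
        have h3 : 0 ≤ ‖w‖ := norm_nonneg _
        nlinarith
      rw [h1, h2]
      have h3 := log_add_re_lip hs hs1 (by rw [hn']; exact h8) hd'
      rw [hn'] at h3
      rw [min_eq_right (by nlinarith)]
      have h4 : 0 ≤ 48 * s * Real.exp u' ^ 2 := by positivity
      have h5 : 48 / δ * s * Real.exp u' ^ 2 = (1 / δ) * (48 * s * Real.exp u' ^ 2) := by ring
      rw [h5]
      nlinarith
    · have h1 : w.re ≤ w'.re + 2 * s * Real.exp u' := by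
        have := (Complex.re_le_norm (w - w')).trans hd
        rw [Complex.sub_re] at this
        linarith
      have h2 : Real.exp u' ≤ 8 * min (Real.exp u') (Real.exp u' ^ 2) := by
        rw [mul_min_of_nonneg _ _ (by norm_num)]
        refine le_min (by linarith) (by nlinarith)
      set m := min (Real.exp u') (Real.exp u' ^ 2) with hm
      have h3 : 4 / δ * s * min 1 (Real.exp u') ≤ 4 / δ * s * (8 * m) := by
        gcongr
        exact (min_le_right _ _).trans h2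
      have h4 : 2 * s * Real.exp u' ≤ 2 * s * (8 * m) := by gcongr
      have hm0 : 0 ≤ m := le_min hr.le (by positivity)
      have h5 : 2 * s * (8 * m) ≤ (1 / δ) * (2 * s * (8 * m)) := by
        have : 0 ≤ 2 * s * (8 * m) := by positivity
        nlinarith
      have h6 : 48 / δ * s * m = 4 / δ * s * (8 * m) + (1 / δ) * (2 * s * (8 * m)) := by ring
      rw [hn']
      rw [h6]
      linarith

theorem abs_kq_le {p : ℕ} (hp : p ≤ 1) {δ : ℝ} (hδ : δ ∈ Ioo (0 : ℝ) 1) {σ : ℝ}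
    (h1 : (p : ℝ) < σ) (h2 : σ < p + 1) :
    ∃ C : ℝ, 0 < C ∧ ∀ u ψ : ℝ, |kq p δ u ψ| ≤ C * Real.exp (σ * u) := by
  have hσ : 0 < σ := lt_of_le_of_lt (Nat.cast_nonneg p) h1
  have hδ0 := hδ.1
  have hδ1 := hδ.2
  refine ⟨2 + (1 + 1 / σ + |Real.log δ|) * Real.exp (4 * σ) + Real.exp (2 * σ), by positivity, ?_⟩
  intro u ψ
  have hr := Real.exp_pos u
  have hn := norm_expw u ψ
  have hre := re_expw u ψ
  rw [kq, KD]
  set w := Complex.exp ((u : ℂ) + (ψ : ℂ) * I) with hw
  have hpos : 0 ≤ (1 + 1 / σ + |Real.log δ|) * Real.exp (4 * σ) + Real.exp (2 * σ) := by positivity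
  rcases le_total u (-1) with hu | hu
  · have h3 : Real.exp u ≤ 1 / 2 := (Real.exp_le_exp.2 hu).trans exp_neg_one_le_half
    have h4 : max ‖1 - w‖ (δ * ‖w‖) = ‖1 - w‖ := by
      apply max_eq_left
      have := norm_sub_norm_le (1 : ℂ) w
      rw [norm_one, hn] at this
      rw [hn]
      nlinarith
    rw [h4]
    have h5 := abs_log_add_re_le (w := w) (by rw [hn]; exact h3)
    rw [hn] at h5
    have h6 : |Real.log ‖1 - w‖ + p * w.re| ≤ 2 * Real.exp (σ * u) := by
      interval_cases p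
      · have h7 : |w.re| ≤ Real.exp u := by rw [hre]; exact abs_re_expw_le u ψ
        have h8 : |Real.log ‖1 - w‖| ≤ |Real.log ‖1 - w‖ + w.re| + |w.re| := by
          have := abs_sub (Real.log ‖1 - w‖ + w.re) w.re
          rwa [add_sub_cancel_right] at this
        have h9 : Real.exp u ≤ Real.exp (σ * u) := by
          apply Real.exp_le_exp.2
          have h2' : σ < 1 := by simpa using h2
          nlinarith
        simp only [Nat.cast_zero, zero_mul, add_zero]
        nlinarith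
      · have h9 : Real.exp u ^ 2 ≤ Real.exp (σ * u) := by
          rw [← Real.exp_nat_mul]
          apply Real.exp_le_exp.2
          have h2' : σ < 2 := by
            have : σ < ((1 : ℕ) : ℝ) + 1 := h2
            norm_num at this
            exact this
          push_cast
          nlinarith
        simp only [Nat.cast_one, one_mul]
        linarith [Real.exp_pos (σ * u)]
    refine h6.trans ?_
    gcongr
    linarith
  · have hM : 0 < δ * ‖w‖ := by rw [hn]; positivity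
    have h3 : Real.log δ + u ≤ Real.log (max ‖1 - w‖ (δ * ‖w‖)) := by
      have := Real.log_le_log hM (le_max_right ‖1 - w‖ (δ * ‖w‖))
      rwa [hn, Real.log_mul hδ0.ne' hr.ne', Real.log_exp, ← hn] at this
    have h4 : Real.log (max ‖1 - w‖ (δ * ‖w‖)) ≤ 1 + |u| := by
      have h5 : max ‖1 - w‖ (δ * ‖w‖) ≤ Real.exp (1 + |u|) := by
        have h6 : (1 : ℝ) ≤ Real.exp |u| := Real.one_le_exp (abs_nonneg u)
        have h7 : Real.exp u ≤ Real.exp |u| := Real.exp_le_exp.2 (le_abs_self u)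
        have h8 : (2 : ℝ) ≤ Real.exp 1 := by linarith [Real.add_one_le_exp (1 : ℝ)]
        rw [Real.exp_add]
        refine max_le ?_ ?_
        · have h9 := norm_sub_le (1 : ℂ) w
          rw [norm_one, hn] at h9
          nlinarith
        · rw [hn]
          nlinarith
      have := Real.log_le_log (lt_of_lt_of_le hM (le_max_right _ _)) h5
      rwa [Real.log_exp] at this
    have h5 : |Real.log (max ‖1 - w‖ (δ * ‖w‖))| ≤ 1 + |u| + |Real.log δ| := by
      rw [abs_le]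
      constructor
      · have a1 := neg_abs_le (Real.log δ)
        have a2 := neg_abs_le u
        linarith
      · have a1 := abs_nonneg (Real.log δ)
        linarith
    have hau : |u| ≤ u + 4 := by rw [abs_le]; constructor <;> linarith
    have h6 : Real.exp (σ * |u|) ≤ Real.exp (4 * σ) * Real.exp (σ * u) := by
      rw [← Real.exp_add]
      apply Real.exp_le_exp.2
      nlinarith
    have h7 : 1 + |u| ≤ (1 + 1 / σ) * Real.exp (σ * |u|) := lin_le_exp hσ (abs_nonneg u)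
    have h8 : |Real.log δ| ≤ |Real.log δ| * Real.exp (σ * |u|) := by
      have : 1 ≤ Real.exp (σ * |u|) := Real.one_le_exp (by positivity)
      have := abs_nonneg (Real.log δ)
      nlinarith
    have h9 : |Real.log (max ‖1 - w‖ (δ * ‖w‖))| ≤
        (1 + 1 / σ + |Real.log δ|) * (Real.exp (4 * σ) * Real.exp (σ * u)) := by
      calc |Real.log (max ‖1 - w‖ (δ * ‖w‖))| ≤ 1 + |u| + |Real.log δ| := h5
        _ ≤ (1 + 1 / σ) * Real.exp (σ * |u|) + |Real.log δ| * Real.exp (σ * |u|) := by linarith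
        _ = (1 + 1 / σ + |Real.log δ|) * Real.exp (σ * |u|) := by ring
        _ ≤ _ := by gcongr
    have h10 : |(p : ℝ) * w.re| ≤ Real.exp (2 * σ) * Real.exp (σ * u) := by
      have hwre : |w.re| ≤ Real.exp u := by rw [hre]; exact abs_re_expw_le u ψ
      interval_cases p
      · simp only [Nat.cast_zero, zero_mul, abs_zero]
        positivity
      · rw [Nat.cast_one, one_mul]
        refine hwre.trans ?_
        rw [← Real.exp_add]
        apply Real.exp_le_exp.2
        have h1' : 1 < σ := by simpa using h1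
        nlinarith
    have h11 := abs_add_le (Real.log (max ‖1 - w‖ (δ * ‖w‖))) ((p : ℝ) * w.re)
    have h12 := Real.exp_pos (σ * u)
    calc _ ≤ _ := h11
      _ ≤ (1 + 1 / σ + |Real.log δ|) * (Real.exp (4 * σ) * Real.exp (σ * u)) +
          Real.exp (2 * σ) * Real.exp (σ * u) := by linarith
      _ ≤ (2 + (1 + 1 / σ + |Real.log δ|) * Real.exp (4 * σ) + Real.exp (2 * σ)) *
          Real.exp (σ * u) := by nlinarith

theorem continuous_kq {p : ℕ} {δ : ℝ} (hδ : δ ∈ Ioo (0 : ℝ) 1) :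
    Continuous fun x : ℝ × ℝ => kq p δ x.1 x.2 := by
  unfold kq KD
  have hc : Continuous fun x : ℝ × ℝ => Complex.exp ((x.1 : ℂ) + (x.2 : ℂ) * I) := by fun_prop
  have hre : Continuous fun x : ℝ × ℝ => (Complex.exp ((x.1 : ℂ) + (x.2 : ℂ) * I)).re :=
    Complex.continuous_re.comp hc
  refine Continuous.add (Continuous.log ?_ ?_) (continuous_const.mul hre)
  · exact (continuous_const.sub hc).norm.max (continuous_const.mul hc.norm)
  · intro x
    have h1 : 0 < δ * ‖Complex.exp ((x.1 : ℂ) + (x.2 : ℂ) * I)‖ := by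
      rw [norm_expw]
      have := hδ.1
      positivity
    exact (lt_of_lt_of_le h1 (le_max_right _ _)).ne'

/-- the derivative of `kp` in `u` -/
noncomputable def dkp (p : ℕ) (u ψ : ℝ) : ℝ := dker u ψ + p * (Real.exp u * Real.cos ψ)

theorem hasDerivAt_kp (p : ℕ) {ψ : ℝ} (hψ : Real.sin ψ ≠ 0) (u : ℝ) :
    HasDerivAt (fun u => kp p u ψ) (dkp p u ψ) u := by
  have h : (fun u => kp p u ψ) = fun u => ker u ψ + p * (Real.exp u * Real.cos ψ) := by
    ext u
    exact kp_eq p u ψ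
  rw [h]
  exact (hasDerivAt_ker hψ u).add (((Real.hasDerivAt_exp u).mul_const _).const_mul _)

theorem continuous_dkp (p : ℕ) {ψ : ℝ} (hψ : Real.sin ψ ≠ 0) : Continuous fun u => dkp p u ψ := by
  unfold dkp
  exact (continuous_dker hψ).add (by fun_prop)

theorem abs_dkp_le {p : ℕ} (hp : p ≤ 1) {ψ : ℝ} (hψ : Real.sin ψ ≠ 0) (u : ℝ) :
    |dkp p u ψ| ≤ mp p u / |Real.sin ψ| := by
  interval_cases p
  · rw [mp_zero, dkp]
    simpa using abs_dker_le hψ u
  · have hs : 0 < |Real.sin ψ| := abs_pos.2 hψ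
    have he := Real.exp_pos u
    rw [dkp, dker, ← re_expw, mp_one]
    set w := Complex.exp ((u : ℂ) + (ψ : ℂ) * I) with hw
    have hn : ‖w‖ = Real.exp u := norm_expw u ψ
    have hsq : ‖w - 1‖ ^ 2 = 1 - 2 * Real.exp u * Real.cos ψ + Real.exp u ^ 2 := by
      rw [norm_sub_rev]; exact normSq_expw u ψ
    have h1 : |Real.sin ψ| ≤ ‖w - 1‖ := by
      apply le_of_sq_le_sq _ (norm_nonneg _)
      rw [hsq, sq_abs]
      nlinarith [Real.sin_sq_add_cos_sq ψ, sq_nonneg (Real.exp u - Real.cos ψ)]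
    have h2 : Real.exp u * |Real.sin ψ| ≤ ‖w - 1‖ := by
      apply le_of_sq_le_sq _ (norm_nonneg _)
      rw [hsq, mul_pow, sq_abs]
      nlinarith [Real.sin_sq_add_cos_sq ψ, sq_nonneg (1 - Real.exp u * Real.cos ψ)]
    have hpos : 0 < ‖w - 1‖ := lt_of_lt_of_le hs h1
    have hne : w - 1 ≠ 0 := norm_pos_iff.1 hpos
    have e : (w / (w - 1)).re + ((1 : ℕ) : ℝ) * w.re = (w ^ 2 / (w - 1)).re := by
      rw [Nat.cast_one, one_mul, ← Complex.add_re]
      congr 1
      field_simp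
      ring
    rw [e]
    refine (Complex.abs_re_le_norm _).trans ?_
    rw [norm_div, norm_pow, hn, div_le_div_iff₀ hpos hs]
    rcases le_total (Real.exp u) (Real.exp u ^ 2) with h3 | h3
    · rw [min_eq_left h3]
      nlinarith
    · rw [min_eq_right h3]
      have : 0 < Real.exp u ^ 2 := by positivity
      nlinarith

theorem tendsto_kp_atBot {p : ℕ} (hp : p ≤ 1) (ψ : ℝ) :
    Tendsto (fun u => kp p u ψ) atBot (𝓝 0) := by
  have h : (fun u => kp p u ψ) = fun u => ker u ψ + p * (Real.exp u * Real.cos ψ) := by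
    ext u
    exact kp_eq p u ψ
  rw [h]
  have h1 := (tendsto_ker_atBot ψ).add
    ((Real.tendsto_exp_atBot.mul_const (Real.cos ψ)).const_mul (p : ℝ))
  simpa using h1

/-- on all rays `kp` is small compared with `e^{ρ u}` as `u → ∞` -/
theorem tendsto_exp_mul_kp {p : ℕ} (hp : p ≤ 1) {ρ : ℝ} (h1 : (p : ℝ) < ρ) (ψ τ : ℝ) :
    Tendsto (fun t : ℝ => Real.exp (-ρ * t) * kp p (t - τ) ψ) atTop (𝓝 0) := by
  have hρ : 0 < ρ := lt_of_le_of_lt (Nat.cast_nonneg p) h1
  set ε := ρ / 2 with hε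
  have hε0 : 0 < ε := by rw [hε]; linarith
  have hlim1 : Tendsto (fun t : ℝ => 2 * (1 + 1 / ε) * Real.exp (-ε * τ) * Real.exp (-ε * t))
      atTop (𝓝 0) := by
    have h2 : Tendsto (fun t : ℝ => Real.exp (-ε * t)) atTop (𝓝 0) := by
      apply Real.tendsto_exp_atBot.comp
      exact tendsto_id.const_mul_atTop_of_neg (by linarith)
    simpa using h2.const_mul (2 * (1 + 1 / ε) * Real.exp (-ε * τ))
  have hlim2 : Tendsto (fun t : ℝ => (p : ℝ) * (Real.exp (-τ) * Real.exp (-(ρ - 1) * t)))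
      atTop (𝓝 0) := by
    interval_cases p
    · simp
    · have h2 : Tendsto (fun t : ℝ => Real.exp (-(ρ - 1) * t)) atTop (𝓝 0) := by
        apply Real.tendsto_exp_atBot.comp
        have : 1 < ρ := by simpa using h1
        exact tendsto_id.const_mul_atTop_of_neg (by linarith)
      simpa using h2.const_mul (((1 : ℕ) : ℝ) * Real.exp (-τ))
  have hsum := hlim1.add hlim2
  rw [add_zero] at hsum
  refine squeeze_zero_norm' ?_ hsum
  filter_upwards [eventually_ge_atTop (τ + 1)] with t ht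
  have hu : 1 ≤ t - τ := by linarith
  have h3 := Phi_le_pos hu
  have h4 := lin_le_exp (x := t - τ) hε0 (by linarith)
  have h5 : |kp p (t - τ) ψ| ≤ 2 * (1 + (t - τ)) + p * Real.exp (t - τ) := by
    rw [kp_eq]
    have a1 := abs_ker_le (u := t - τ) (by linarith) ψ
    have a2 := abs_re_expw_le (t - τ) ψ
    have a3 : |(p : ℝ) * (Real.exp (t - τ) * Real.cos ψ)| ≤ p * Real.exp (t - τ) := by
      rw [abs_mul, Nat.abs_cast]
      gcongr
    have a4 := abs_add_le (ker (t - τ) ψ) ((p : ℝ) * (Real.exp (t - τ) * Real.cos ψ))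
    linarith
  rw [norm_mul, Real.norm_eq_abs, Real.norm_eq_abs, abs_of_pos (Real.exp_pos _)]
  calc Real.exp (-ρ * t) * |kp p (t - τ) ψ|
      ≤ Real.exp (-ρ * t) * (2 * ((1 + 1 / ε) * Real.exp (ε * (t - τ))) +
          p * Real.exp (t - τ)) := by
        gcongr
        linarith
    _ = 2 * (1 + 1 / ε) * (Real.exp (-ρ * t) * Real.exp (ε * (t - τ))) +
          p * (Real.exp (-ρ * t) * Real.exp (t - τ)) := by ring
    _ = 2 * (1 + 1 / ε) * (Real.exp (-ε * τ) * Real.exp (-ε * t)) +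
          p * (Real.exp (-τ) * Real.exp (-(ρ - 1) * t)) := by
        congr 2
        · rw [← Real.exp_add, ← Real.exp_add, hε]
          congr 1
          ring
        · rw [← Real.exp_add, ← Real.exp_add]
          congr 1
          ring
    _ = 2 * (1 + 1 / ε) * Real.exp (-ε * τ) * Real.exp (-ε * t) +
          p * (Real.exp (-τ) * Real.exp (-(ρ - 1) * t)) := by ring

end HBInd
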