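import Mathlib

/-!
# The logarithmic kernel: elementary bounds

Paper proofs.

* `abs_ker_le`: `|1 - e^u| ≤ |1 - e^{u + iψ}| ≤ 1 + e^u`.
* `integrable_Phi`: as `u → -∞`, `Phi u ≤ 3 e^u`; near `0` it is `≤ C + |log |u||`; as `u → ∞` it is
  `≤ 2 u + C`.
* `hasDerivAt_ker`, `abs_dker_le`: `1 - e^{u + iψ} ≠ 0` and
  `|1 - e^{u + iψ}| ≥ |sin ψ| max (1, e^u)`.
-/

namespace HBInd

open Complex Filter Topology Set MeasureTheory
open scoped Real

/-- `log |1 - e^{u + iψ}|` -/
noncomputable def ker (u ψ : ℝ) : ℝ := Real.log ‖1 - Complex.exp ((u : ℂ) + (ψ : ℂ) * I)‖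

/-- a majorant of `|ker|` -/
noncomputable def Phi (u : ℝ) : ℝ := |Real.log (1 - Real.exp u)| + Real.log (1 + Real.exp u)

theorem Phi_nonneg (u : ℝ) : 0 ≤ Phi u := by
  unfold Phi
  have h : 0 ≤ Real.log (1 + Real.exp u) := Real.log_nonneg (by linarith [Real.exp_pos u])
  positivity

theorem norm_expw (u ψ : ℝ) : ‖Complex.exp ((u : ℂ) + (ψ : ℂ) * I)‖ = Real.exp u := by
  rw [Complex.norm_exp]
  simp

theorem abs_ker_le {u : ℝ} (hu : u ≠ 0) (ψ : ℝ) : |ker u ψ| ≤ Phi u := by
  unfold ker Phi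
  set w := Complex.exp ((u : ℂ) + (ψ : ℂ) * I) with hw
  have hn : ‖w‖ = Real.exp u := norm_expw u ψ
  have h1 : |1 - Real.exp u| ≤ ‖1 - w‖ := by
    have := abs_norm_sub_norm_le (1 : ℂ) w
    rwa [norm_one, hn] at this
  have h2 : ‖1 - w‖ ≤ 1 + Real.exp u := by
    have := norm_sub_le (1 : ℂ) w
    rwa [norm_one, hn] at this
  have h0 : 0 < |1 - Real.exp u| := by
    rw [abs_pos, sub_ne_zero]
    intro h
    apply hu
    have := congrArg Real.log h
    rw [Real.log_one, Real.log_exp] at this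
    exact this.symm
  have h3 : Real.log (1 - Real.exp u) ≤ Real.log ‖1 - w‖ := by
    rw [← Real.log_abs (1 - Real.exp u)]
    exact Real.log_le_log h0 h1
  have h4 : Real.log ‖1 - w‖ ≤ Real.log (1 + Real.exp u) :=
    Real.log_le_log (h0.trans_le h1) h2
  have h5 : 0 ≤ Real.log (1 + Real.exp u) := Real.log_nonneg (by linarith [Real.exp_pos u])
  rw [abs_le]
  constructor
  · have := neg_abs_le (Real.log (1 - Real.exp u))
    linarith
  · have := abs_nonneg (Real.log (1 - Real.exp u))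
    linarith

theorem normSq_expw (u ψ : ℝ) : ‖1 - Complex.exp ((u : ℂ) + (ψ : ℂ) * I)‖ ^ 2 =
    1 - 2 * Real.exp u * Real.cos ψ + Real.exp u ^ 2 := by
  rw [← Complex.normSq_eq_norm_sq, Complex.normSq_apply]
  have h1 : (Complex.exp ((u : ℂ) + (ψ : ℂ) * I)).re = Real.exp u * Real.cos ψ := by
    rw [Complex.exp_re]; simp
  have h2 : (Complex.exp ((u : ℂ) + (ψ : ℂ) * I)).im = Real.exp u * Real.sin ψ := by
    rw [Complex.exp_im]; simp
  rw [Complex.sub_re, Complex.sub_im, h1, h2, Complex.one_re, Complex.one_im]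
  linear_combination Real.exp u ^ 2 * Real.sin_sq_add_cos_sq ψ

theorem den_pos {ψ : ℝ} (hψ : Real.sin ψ ≠ 0) (u : ℝ) :
    0 < 1 - 2 * Real.exp u * Real.cos ψ + Real.exp u ^ 2 := by
  have h : 1 - 2 * Real.exp u * Real.cos ψ + Real.exp u ^ 2 =
      (Real.exp u - Real.cos ψ) ^ 2 + Real.sin ψ ^ 2 := by
    linear_combination -Real.sin_sq_add_cos_sq ψ
  rw [h]
  positivity

theorem ker_eq (u ψ : ℝ) :
    ker u ψ = Real.log (1 - 2 * Real.exp u * Real.cos ψ + Real.exp u ^ 2) / 2 := by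
  rw [← normSq_expw, Real.log_pow, ker]
  push_cast
  ring

theorem measurable_Phi : Measurable Phi := by
  unfold Phi
  fun_prop

theorem lin_le_exp {ε x : ℝ} (hε : 0 < ε) (hx : 0 ≤ x) : 1 + x ≤ (1 + 1 / ε) * Real.exp (ε * x) := by
  have h1 := Real.add_one_le_exp (ε * x)
  have h2 : (1 + 1 / ε) * (ε * x + 1) ≤ (1 + 1 / ε) * Real.exp (ε * x) :=
    mul_le_mul_of_nonneg_left h1 (by positivity)
  have h3 : (1 + 1 / ε) * (ε * x + 1) = 1 + x + (ε * x + 1 / ε) := by field_simp; ring
  have h4 : 0 ≤ ε * x + 1 / ε := by positivity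
  linarith

theorem Phi_le_neg {u : ℝ} (hu : u ≤ -1) : Phi u ≤ 3 * Real.exp u := by
  have he := Real.exp_pos u
  have h1 : Real.exp u ≤ 1 / 2 := by
    have h2 : Real.exp u ≤ Real.exp (-1) := Real.exp_le_exp.2 hu
    have h3 : (2 : ℝ) ≤ Real.exp 1 := by linarith [Real.add_one_le_exp (1 : ℝ)]
    rw [Real.exp_neg] at h2
    have h4 : (Real.exp 1)⁻¹ ≤ 2⁻¹ := inv_anti₀ (by norm_num) h3
    linarith
  have h5 : Real.log (1 + Real.exp u) ≤ Real.exp u := by
    have := Real.log_le_sub_one_of_pos (x := 1 + Real.exp u) (by linarith)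
    linarith
  have h6 : |Real.log (1 - Real.exp u)| ≤ 2 * Real.exp u := by
    rw [abs_of_nonpos (Real.log_nonpos (by linarith) (by linarith)), ← Real.log_inv]
    have h7 := Real.log_le_sub_one_of_pos (x := (1 - Real.exp u)⁻¹) (by
      apply inv_pos.2; linarith)
    have h8 : (1 - Real.exp u)⁻¹ - 1 ≤ 2 * Real.exp u := by
      rw [sub_le_iff_le_add, inv_le_iff_one_le_mul₀ (by linarith)]
      nlinarith
    linarith
  unfold Phi
  linarith

theorem Phi_le_pos {u : ℝ} (hu : 1 ≤ u) : Phi u ≤ 2 * (1 + u) := by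
  have he := Real.exp_pos u
  have h1 : u ≤ Real.exp u - 1 := by linarith [Real.add_one_le_exp u]
  have h2 : |Real.log (1 - Real.exp u)| ≤ u := by
    have e : Real.log (1 - Real.exp u) = Real.log (Real.exp u - 1) := by
      rw [← Real.log_neg_eq_log, neg_sub]
    rw [e, abs_of_nonneg (Real.log_nonneg (by linarith))]
    have := Real.log_le_log (x := Real.exp u - 1) (by linarith) (show _ ≤ Real.exp u by linarith)
    rwa [Real.log_exp] at this
  have h3 : Real.log (1 + Real.exp u) ≤ u + 1 := by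
    have h4 : 1 + Real.exp u ≤ Real.exp (u + 1) := by
      rw [Real.exp_add]
      have h5 : (2 : ℝ) ≤ Real.exp 1 := by linarith [Real.add_one_le_exp (1 : ℝ)]
      nlinarith
    have := Real.log_le_log (by linarith) h4
    rwa [Real.log_exp] at this
  unfold Phi
  linarith

theorem Phi_le_mid {u : ℝ} (hu : |u| ≤ 1) : Phi u ≤ |Real.log u| + 4 := by
  have he := Real.exp_pos u
  have hu' := abs_le.1 hu
  have h3 : Real.exp u ≤ 3 := by
    have h4 : Real.exp u ≤ Real.exp 1 := Real.exp_le_exp.2 hu'.2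
    linarith [Real.exp_one_lt_d9]
  have h5 : Real.log (1 + Real.exp u) ≤ Real.exp u := by
    have := Real.log_le_sub_one_of_pos (x := 1 + Real.exp u) (by linarith)
    linarith
  have h6 : |Real.log (1 - Real.exp u)| ≤ |Real.log u| + 1 := by
    rcases eq_or_ne u 0 with rfl | hu0
    · simp
    have hup : |1 - Real.exp u| ≤ 2 * |u| := by
      rw [abs_sub_comm]
      exact Real.abs_exp_sub_one_le hu
    have hlo : |u| / 2 ≤ |1 - Real.exp u| := by
      rcases lt_or_gt_of_ne hu0 with h | h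
      · have h1 : Real.exp u < 1 := by rw [← Real.exp_zero]; exact Real.exp_lt_exp.2 h
        rw [abs_of_neg h, abs_of_pos (by linarith)]
        have h2 := Real.add_one_le_exp (-u)
        have h4 : Real.exp (-u) * Real.exp u = 1 := by rw [← Real.exp_add]; simp
        nlinarith
      · have h1 : 1 < Real.exp u := Real.one_lt_exp_iff.2 h
        rw [abs_of_pos h, abs_of_neg (by linarith)]
        linarith [Real.add_one_le_exp u]
    have hu1 : 0 < |u| := abs_pos.2 hu0
    have hy : 0 < |1 - Real.exp u| := by linarith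
    have hl2 : Real.log 2 ≤ 1 := by
      have := Real.log_two_lt_d9
      linarith
    have h7 : Real.log |1 - Real.exp u| ≤ Real.log 2 + Real.log |u| := by
      rw [← Real.log_mul (by norm_num) hu1.ne']
      exact Real.log_le_log hy hup
    have h8 : Real.log |u| - Real.log 2 ≤ Real.log |1 - Real.exp u| := by
      rw [← Real.log_div hu1.ne' (by norm_num)]
      exact Real.log_le_log (by positivity) hlo
    rw [Real.log_abs] at h7 h8
    rw [Real.log_abs] at h7 h8
    rw [abs_le]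
    constructor
    · linarith [neg_abs_le (Real.log u)]
    · linarith [le_abs_self (Real.log u)]
  unfold Phi
  linarith

theorem integrable_Phi {ρ : ℝ} (hρ : 0 < ρ) (hρ1 : ρ < 1) :
    Integrable fun u : ℝ => (1 + |u|) * Phi u * Real.exp (-ρ * u) := by
  have hm : Measurable fun u : ℝ => (1 + |u|) * Phi u * Real.exp (-ρ * u) := by
    have := measurable_Phi
    fun_prop
  have h0 : ∀ u : ℝ, 0 ≤ (1 + |u|) * Phi u * Real.exp (-ρ * u) := fun u => by
    have := Phi_nonneg u
    positivity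
  have hA : IntegrableOn (fun u : ℝ => (1 + |u|) * Phi u * Real.exp (-ρ * u)) (Iic (-1)) := by
    set ε := (1 - ρ) / 2 with hε
    have hε0 : 0 < ε := by rw [hε]; linarith
    refine Integrable.mono' ((integrableOn_exp_mul_Iic hε0 (-1)).const_mul (3 * (1 + 1 / ε)))
      hm.aestronglyMeasurable.restrict ?_
    filter_upwards [self_mem_ae_restrict measurableSet_Iic] with u hu
    have hu : u ≤ -1 := hu
    rw [Real.norm_of_nonneg (h0 u)]
    have h1 := Phi_le_neg hu
    have h2 := lin_le_exp hε0 (abs_nonneg u)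
    have h3 : |u| = -u := abs_of_neg (by linarith)
    calc (1 + |u|) * Phi u * Real.exp (-ρ * u)
        ≤ ((1 + 1 / ε) * Real.exp (ε * |u|)) * (3 * Real.exp u) * Real.exp (-ρ * u) := by
          gcongr
          exact Phi_nonneg u
      _ = 3 * (1 + 1 / ε) * (Real.exp (ε * |u|) * Real.exp u * Real.exp (-ρ * u)) := by ring
      _ = 3 * (1 + 1 / ε) * Real.exp (ε * u) := by
          rw [← Real.exp_add, ← Real.exp_add, h3, hε]
          congr 2
          ring
  have hB : IntegrableOn (fun u : ℝ => (1 + |u|) * Phi u * Real.exp (-ρ * u)) (Ioc (-1) 1) := by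
    have hl : IntegrableOn Real.log (Ioc (-1) 1) :=
      (intervalIntegrable_iff_integrableOn_Ioc_of_le (by norm_num)).1
        intervalIntegral.intervalIntegrable_log'
    have hg : IntegrableOn (fun u => 6 * (‖Real.log u‖ + 4)) (Ioc (-1 : ℝ) 1) := by
      refine Integrable.const_mul ?_ 6
      exact hl.norm.add (integrable_const 4)
    refine Integrable.mono' hg hm.aestronglyMeasurable.restrict ?_
    filter_upwards [self_mem_ae_restrict measurableSet_Ioc] with u hu
    rw [Real.norm_of_nonneg (h0 u), Real.norm_eq_abs]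
    have hu1 : |u| ≤ 1 := abs_le.2 ⟨hu.1.le, hu.2⟩
    have h1 := Phi_le_mid hu1
    have h2 : Real.exp (-ρ * u) ≤ 3 := by
      have h4 : Real.exp (-ρ * u) ≤ Real.exp 1 := Real.exp_le_exp.2 (by nlinarith [hu.1, hu.2])
      linarith [Real.exp_one_lt_d9]
    have h5 : 0 ≤ |Real.log u| + 4 := by positivity
    calc (1 + |u|) * Phi u * Real.exp (-ρ * u) ≤ 2 * (|Real.log u| + 4) * 3 := by
          gcongr
          · exact Phi_nonneg u
          · linarith
      _ = 6 * (|Real.log u| + 4) := by ring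
  have hC : IntegrableOn (fun u : ℝ => (1 + |u|) * Phi u * Real.exp (-ρ * u)) (Ioi 1) := by
    set ε := ρ / 4 with hε
    have hε0 : 0 < ε := by rw [hε]; linarith
    refine Integrable.mono' ((integrableOn_exp_mul_Ioi (a := -(ρ / 2)) (by linarith) 1).const_mul
      (2 * (1 + 1 / ε) ^ 2)) hm.aestronglyMeasurable.restrict ?_
    filter_upwards [self_mem_ae_restrict measurableSet_Ioi] with u hu
    have hu : 1 < u := hu
    rw [Real.norm_of_nonneg (h0 u)]
    have h1 := Phi_le_pos hu.le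
    have h3 : |u| = u := abs_of_pos (by linarith)
    have h2 := lin_le_exp (x := u) hε0 (by linarith)
    rw [h3]
    have h4 : (0 : ℝ) ≤ 1 + u := by linarith
    calc (1 + u) * Phi u * Real.exp (-ρ * u)
        ≤ ((1 + 1 / ε) * Real.exp (ε * u)) * (2 * ((1 + 1 / ε) * Real.exp (ε * u))) *
          Real.exp (-ρ * u) := by
          gcongr
          · exact Phi_nonneg u
          · linarith
      _ = 2 * (1 + 1 / ε) ^ 2 * (Real.exp (ε * u) * Real.exp (ε * u) * Real.exp (-ρ * u)) := by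
          ring
      _ = 2 * (1 + 1 / ε) ^ 2 * Real.exp (-(ρ / 2) * u) := by
          rw [← Real.exp_add, ← Real.exp_add, hε]
          congr 2
          ring
  rw [← integrableOn_univ]
  have hun : (univ : Set ℝ) = (Iic (-1) ∪ Ioc (-1) 1) ∪ Ioi 1 := by
    rw [Iic_union_Ioc_eq_Iic (by norm_num), Iic_union_Ioi]
  rw [hun]
  exact (hA.union hB).union hC

/-- the derivative of `ker` in `u` -/
noncomputable def dker (u ψ : ℝ) : ℝ :=
  (Complex.exp ((u : ℂ) + (ψ : ℂ) * I) / (Complex.exp ((u : ℂ) + (ψ : ℂ) * I) - 1)).re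

theorem dker_eq (u ψ : ℝ) :
    dker u ψ = (Real.exp u ^ 2 - Real.exp u * Real.cos ψ) /
      (1 - 2 * Real.exp u * Real.cos ψ + Real.exp u ^ 2) := by
  have h1 : (Complex.exp ((u : ℂ) + (ψ : ℂ) * I)).re = Real.exp u * Real.cos ψ := by
    rw [Complex.exp_re]; simp
  have h2 : (Complex.exp ((u : ℂ) + (ψ : ℂ) * I)).im = Real.exp u * Real.sin ψ := by
    rw [Complex.exp_im]; simp
  have h3 : Complex.normSq (Complex.exp ((u : ℂ) + (ψ : ℂ) * I) - 1) =
      1 - 2 * Real.exp u * Real.cos ψ + Real.exp u ^ 2 := by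
    rw [← normSq_expw, Complex.normSq_eq_norm_sq, norm_sub_rev]
  rw [dker, Complex.div_re, h3, Complex.sub_re, Complex.sub_im, h1, h2, Complex.one_re,
    Complex.one_im, ← add_div]
  congr 1
  linear_combination Real.exp u ^ 2 * Real.sin_sq_add_cos_sq ψ

theorem hasDerivAt_ker {ψ : ℝ} (hψ : Real.sin ψ ≠ 0) (u : ℝ) :
    HasDerivAt (fun u => ker u ψ) (dker u ψ) u := by
  have h : (fun u => ker u ψ) = fun u =>
      Real.log (1 - 2 * Real.exp u * Real.cos ψ + Real.exp u ^ 2) / 2 := by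
    ext u
    exact ker_eq u ψ
  rw [h, dker_eq]
  have he := Real.hasDerivAt_exp u
  have h1 : HasDerivAt (fun u => 1 - 2 * Real.exp u * Real.cos ψ + Real.exp u ^ 2)
      (-(2 * Real.exp u * Real.cos ψ) + 2 * Real.exp u ^ 2) u := by
    have h2 := ((he.const_mul 2).mul_const (Real.cos ψ)).const_sub 1
    have h3 := h2.add (he.pow 2)
    refine h3.congr_deriv ?_
    simp only [Nat.cast_ofNat, Nat.add_one_sub_one, pow_one]
    ring
  have h4 := (h1.log (den_pos hψ u).ne').div_const 2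
  refine h4.congr_deriv ?_
  have := (den_pos hψ u).ne'
  field_simp
  ring

theorem continuous_dker {ψ : ℝ} (hψ : Real.sin ψ ≠ 0) : Continuous fun u => dker u ψ := by
  have h : (fun u => dker u ψ) = fun u => (Real.exp u ^ 2 - Real.exp u * Real.cos ψ) /
      (1 - 2 * Real.exp u * Real.cos ψ + Real.exp u ^ 2) := by
    ext u
    exact dker_eq u ψ
  rw [h]
  exact Continuous.div (by fun_prop) (by fun_prop) (fun u => (den_pos hψ u).ne')

theorem abs_dker_le {ψ : ℝ} (hψ : Real.sin ψ ≠ 0) (u : ℝ) :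
    |dker u ψ| ≤ min 1 (Real.exp u) / |Real.sin ψ| := by
  have hs : 0 < |Real.sin ψ| := abs_pos.2 hψ
  have he := Real.exp_pos u
  set w := Complex.exp ((u : ℂ) + (ψ : ℂ) * I) with hw
  have hn : ‖w‖ = Real.exp u := norm_expw u ψ
  have hsq : ‖w - 1‖ ^ 2 = 1 - 2 * Real.exp u * Real.cos ψ + Real.exp u ^ 2 := by
    rw [norm_sub_rev]; exact normSq_expw u ψ
  have h1 : |Real.sin ψ| ≤ ‖w - 1‖ := by
    apply le_of_sq_le_sq _ (norm_nonneg _)
    rw [hsq, sq_abs]
    nlinarith [Real.sin_sq_add_cos_sq ψ, sq_nonneg (Real.exp u - Real.cos ψ)]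
  have h2 : Real.exp u * |Real.sin ψ| ≤ ‖w - 1‖ := by
    apply le_of_sq_le_sq _ (norm_nonneg _)
    rw [hsq, mul_pow, sq_abs]
    nlinarith [Real.sin_sq_add_cos_sq ψ, sq_nonneg (1 - Real.exp u * Real.cos ψ)]
  have h0 : 0 < ‖w - 1‖ := hs.trans_le h1
  have h3 : |dker u ψ| ≤ Real.exp u / ‖w - 1‖ := by
    have := Complex.abs_re_le_norm (w / (w - 1))
    rw [norm_div, hn] at this
    exact this
  refine h3.trans ?_
  rw [div_le_div_iff₀ h0 hs]
  rcases le_total 1 (Real.exp u) with h | h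
  · rw [min_eq_left h, one_mul]
    exact h2
  · rw [min_eq_right h]
    exact mul_le_mul_of_nonneg_left h1 he.le

theorem tendsto_ker_atBot (ψ : ℝ) : Tendsto (fun u => ker u ψ) atBot (𝓝 0) := by
  have h1 : Tendsto (fun u : ℝ => Complex.exp ((u : ℂ) + (ψ : ℂ) * I)) atBot (𝓝 0) := by
    rw [tendsto_zero_iff_norm_tendsto_zero]
    simp only [norm_expw]
    exact Real.tendsto_exp_atBot
  have h2 : Tendsto (fun u : ℝ => ‖1 - Complex.exp ((u : ℂ) + (ψ : ℂ) * I)‖) atBot (𝓝 1) := by
    have := (tendsto_const_nhds (x := (1 : ℂ))).sub h1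
    simpa using this.norm
  have h3 := (Real.continuousAt_log (one_ne_zero)).tendsto.comp h2
  rw [Real.log_one] at h3
  exact h3

end HBInd
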