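import Pool.Agent.HBInd.Trig
import Pool.Agent.HBInd.Kernel

/-!
# The integral of the logarithmic kernel

Paper proof of `integral_ker`. For `|Im ζ| < π` let `J ζ = ∫ t, log (1 + e^{ζ - t}) e^{ρ t}` (principal branch,
`1 + e^w ∈ slitPlane` if `|Im w| < π`). `J` is complex differentiable (differentiation under the
integral sign, `hasDerivAt_integral_of_dominated_loc_of_deriv_le`; the derivative of the integrand is
`e^{ρ t} / (1 + e^{t - ζ})`, bounded on `|Im ζ| ≤ π - δ` by `e^{ρ t} C_δ min (1, e^{Re ζ - t})`) and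
`J (ζ + a) = e^{ρ a} J ζ` for real `a` by translation; so `J' = ρ J` (differentiate in `a` at `0`) and
`J (i φ) = e^{iρφ} J 0`, `J 0 = ∫ log (1 + e^{-t}) e^{ρ t} > 0`. Real parts, with `u = -t` and
`e^{iψ} = - e^{iφ}`, `φ = arg (-e^{iψ}) ∈ (-π, π)` (`φ ≠ π` as `sin ψ ≠ 0`); `C = J 0`.
-/

namespace HBInd

open Complex Filter Topology Set MeasureTheory
open scoped Real

/-- lower bound for `1 + r e^{iy}` -/
theorem ki_low {r y c s : ℝ} (hr : 0 ≤ r) (hs : 0 ≤ s) (hcs : c ^ 2 + s ^ 2 = 1)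
    (hy : -c ≤ Real.cos y) : s / 2 * (1 + r) ≤ ‖1 + (r : ℂ) * exp (y * I)‖ := by
  have h1 : ‖1 + (r : ℂ) * exp (y * I)‖ ^ 2 = 1 + 2 * r * Real.cos y + r ^ 2 := by
    rw [← Complex.normSq_eq_norm_sq, Complex.normSq_apply, Complex.exp_mul_I]
    have e1 : (1 + (r : ℂ) * (Complex.cos y + Complex.sin y * I)).re = 1 + r * Real.cos y := by
      simp [Complex.cos_ofReal_re, Complex.sin_ofReal_im, Complex.sin_ofReal_re,
        Complex.cos_ofReal_im]
    have e2 : (1 + (r : ℂ) * (Complex.cos y + Complex.sin y * I)).im = r * Real.sin y := by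
      simp [Complex.cos_ofReal_re, Complex.sin_ofReal_im, Complex.sin_ofReal_re,
        Complex.cos_ofReal_im]
    rw [e1, e2]
    have := Real.sin_sq_add_cos_sq y
    linear_combination r ^ 2 * this
  have h2 : (s / 2 * (1 + r)) ^ 2 ≤ ‖1 + (r : ℂ) * exp (y * I)‖ ^ 2 := by
    rw [h1]
    have h3 : r * (-c) ≤ r * Real.cos y := mul_le_mul_of_nonneg_left hy hr
    nlinarith [sq_nonneg (1 - r * c), sq_nonneg (r - c), sq_nonneg (s * (1 - r)),
      sq_nonneg (r * s), sq_nonneg s]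
  exact le_of_sq_le_sq' h2 (norm_nonneg _)
where
  le_of_sq_le_sq' {a b : ℝ} (h : a ^ 2 ≤ b ^ 2) (hb : 0 ≤ b) : a ≤ b := by
    exact abs_le_of_sq_le_sq' h hb |>.2

theorem ki_exp (z : ℂ) : exp z = (Real.exp z.re : ℂ) * exp ((z.im : ℂ) * I) := by
  conv_lhs => rw [← Complex.re_add_im z, Complex.exp_add]
  rw [Complex.ofReal_exp]

/-- lower bound on the strip -/
theorem ki_low' {δ τ : ℝ} (hδ : 0 ≤ δ) (hδ' : δ ≤ π) (hτ : 0 ≤ τ) {z : ℂ}
    (hz : |z.im| ≤ π - δ) :
    Real.sin δ / 2 * (1 + τ * Real.exp z.re) ≤ ‖1 + (τ : ℂ) * exp z‖ := by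
  have h := ki_low (r := τ * Real.exp z.re) (y := z.im) (c := Real.cos δ) (s := Real.sin δ)
    (by positivity) (Real.sin_nonneg_of_nonneg_of_le_pi hδ hδ') (Real.cos_sq_add_sin_sq δ) ?_
  · rw [ki_exp z, ← mul_assoc]
    push_cast at h ⊢
    exact h
  · rw [← Real.cos_pi_sub, ← Real.cos_abs z.im]
    exact Real.cos_le_cos_of_nonneg_of_le_pi (abs_nonneg _) (by linarith) hz

theorem ki_slit {τ : ℝ} (hτ : 0 ≤ τ) {z : ℂ} (hz : |z.im| < π) :
    1 + (τ : ℂ) * exp z ∈ slitPlane := by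
  rw [Complex.mem_slitPlane_iff]
  have hre : (1 + (τ : ℂ) * exp z).re = 1 + τ * (Real.exp z.re * Real.cos z.im) := by
    simp [Complex.exp_re]
  have him : (1 + (τ : ℂ) * exp z).im = τ * (Real.exp z.re * Real.sin z.im) := by
    simp [Complex.exp_im]
  rw [hre, him]
  by_cases h : Real.sin z.im = 0
  · left
    have h0 : z.im = 0 := by
      rw [abs_lt] at hz
      exact (Real.sin_eq_zero_iff_of_lt_of_lt hz.1 hz.2).1 h
    rw [h0, Real.cos_zero]
    have := Real.exp_pos z.re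
    positivity
  · rcases hτ.eq_or_lt with h0 | h0
    · left; rw [← h0]; norm_num
    · right
      have := Real.exp_pos z.re
      positivity

/-- upper bound for the logarithm on the strip -/
theorem ki_log {δ : ℝ} (hδ : 0 < δ) (hδ' : δ < π) {z : ℂ} (hz : |z.im| ≤ π - δ) :
    ‖log (1 + exp z)‖ ≤ 2 / Real.sin δ * Real.log (1 + Real.exp z.re) := by
  have hs : 0 < Real.sin δ := Real.sin_pos_of_pos_of_lt_pi hδ hδ'
  have hz' : |z.im| < π := by linarith
  have hd : ∀ x : ℝ, 0 ≤ x → HasDerivAt (fun τ : ℝ => log (1 + (τ : ℂ) * exp z))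
      (exp z / (1 + (x : ℂ) * exp z)) x := by
    intro x hx
    have h1 : HasDerivAt (fun τ : ℝ => 1 + (τ : ℂ) * exp z) (exp z) x := by
      have h2 : HasDerivAt (fun τ : ℝ => (τ : ℂ)) 1 x := Complex.ofRealCLM.hasDerivAt
      simpa using (h2.mul_const (exp z)).const_add 1
    exact h1.clog_real (ki_slit hx hz')
  have hB : ∀ x ∈ Ico (0 : ℝ) 1, HasDerivWithinAt
      (fun τ : ℝ => 2 / Real.sin δ * Real.log (1 + τ * Real.exp z.re))
      (2 / Real.sin δ * (Real.exp z.re / (1 + x * Real.exp z.re))) (Ici x) x := by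
    intro x hx
    apply HasDerivAt.hasDerivWithinAt
    apply HasDerivAt.const_mul
    have h1 : HasDerivAt (fun τ : ℝ => 1 + τ * Real.exp z.re) (Real.exp z.re) x := by
      simpa using ((hasDerivAt_id x).mul_const (Real.exp z.re)).const_add 1
    refine h1.log ?_
    have := Real.exp_pos z.re
    have := hx.1
    positivity
  have key := image_norm_le_of_norm_deriv_right_le_deriv_boundary' (a := 0) (b := 1)
    (f := fun τ : ℝ => log (1 + (τ : ℂ) * exp z))
    (f' := fun x : ℝ => exp z / (1 + (x : ℂ) * exp z))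
    (fun x hx => (hd x hx.1).continuousAt.continuousWithinAt)
    (fun x hx => (hd x hx.1).hasDerivWithinAt)
    (B := fun τ : ℝ => 2 / Real.sin δ * Real.log (1 + τ * Real.exp z.re))
    (B' := fun x : ℝ => 2 / Real.sin δ * (Real.exp z.re / (1 + x * Real.exp z.re)))
    (by simp) ?_ hB ?_ (x := 1) (by simp)
  · simpa using key
  · apply ContinuousOn.mul continuousOn_const
    apply ContinuousOn.log (by fun_prop)
    intro x hx
    have := Real.exp_pos z.re
    have := hx.1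
    positivity
  · intro x hx
    rw [norm_div, Complex.norm_exp]
    have h1 := ki_low' hδ.le hδ'.le hx.1 hz
    have h2 : 0 < 1 + x * Real.exp z.re := by
      have := Real.exp_pos z.re
      have := hx.1
      positivity
    have h3 : 0 < Real.sin δ / 2 * (1 + x * Real.exp z.re) := by positivity
    calc Real.exp z.re / ‖1 + (x : ℂ) * exp z‖
        ≤ Real.exp z.re / (Real.sin δ / 2 * (1 + x * Real.exp z.re)) :=
          div_le_div_of_nonneg_left (Real.exp_pos _).le h3 h1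
      _ = _ := by field_simp

/-- the integrable majorant -/
theorem ki_majorant {ρ : ℝ} (hρ : 0 < ρ) (hρ1 : ρ < 1) (R : ℝ) :
    Integrable fun t : ℝ => Real.log (1 + Real.exp (R - t)) * Real.exp (ρ * t) := by
  have h1 := ((integrable_Phi hρ hρ1).comp_sub_left R).const_mul (Real.exp (ρ * R))
  refine h1.mono' ?_ (Filter.Eventually.of_forall fun t => ?_)
  · apply Continuous.aestronglyMeasurable
    apply Continuous.mul _ (by fun_prop)
    apply Continuous.log (by fun_prop)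
    intro x
    positivity
  · have h2 : 0 ≤ Real.log (1 + Real.exp (R - t)) :=
      Real.log_nonneg (by linarith [Real.exp_pos (R - t)])
    rw [Real.norm_of_nonneg (mul_nonneg h2 (Real.exp_pos _).le)]
    have h3 : Real.exp (ρ * R) * ((1 + |R - t|) * Phi (R - t) * Real.exp (-ρ * (R - t))) =
        (1 + |R - t|) * Phi (R - t) * Real.exp (ρ * t) := by
      have : Real.exp (ρ * t) = Real.exp (ρ * R) * Real.exp (-ρ * (R - t)) := by
        rw [← Real.exp_add]; congr 1; ring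
      rw [this]; ring
    rw [h3]
    apply mul_le_mul_of_nonneg_right _ (Real.exp_pos _).le
    have h4 : Real.log (1 + Real.exp (R - t)) ≤ Phi (R - t) := by
      unfold Phi
      linarith [abs_nonneg (Real.log (1 - Real.exp (R - t)))]
    calc Real.log (1 + Real.exp (R - t)) ≤ 1 * Phi (R - t) := by linarith
      _ ≤ (1 + |R - t|) * Phi (R - t) :=
        mul_le_mul_of_nonneg_right (by linarith [abs_nonneg (R - t)]) (h2.trans h4)

/-- the integrand -/
noncomputable def kF (ρ : ℝ) (ζ : ℂ) (t : ℝ) : ℂ := log (1 + exp (ζ - t)) * Real.exp (ρ * t)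

theorem kF_cont {ρ : ℝ} {ζ : ℂ} (hζ : |ζ.im| < π) : Continuous (kF ρ ζ) := by
  unfold kF
  apply Continuous.mul _ (by fun_prop)
  apply Continuous.clog (by fun_prop)
  intro t
  have h := ki_slit (τ := 1) zero_le_one (z := ζ - t) (by simpa using hζ)
  simpa using h

theorem kF_norm {ρ δ : ℝ} (hδ : 0 < δ) (hδ' : δ < π) {ζ : ℂ} (hζ : |ζ.im| ≤ π - δ) (t : ℝ) :
    ‖kF ρ ζ t‖ ≤ 2 / Real.sin δ * (Real.log (1 + Real.exp (ζ.re - t)) * Real.exp (ρ * t)) := by
  unfold kF
  rw [norm_mul, Complex.norm_real, Real.norm_of_nonneg (Real.exp_pos _).le, ← mul_assoc]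
  apply mul_le_mul_of_nonneg_right _ (Real.exp_pos _).le
  have h := ki_log hδ hδ' (z := ζ - t) (by simpa using hζ)
  simpa using h

theorem kF_int {ρ : ℝ} (hρ : 0 < ρ) (hρ1 : ρ < 1) {ζ : ℂ} (hζ : |ζ.im| < π) :
    Integrable (kF ρ ζ) := by
  have hδ : 0 < (π - |ζ.im|) / 2 := by linarith
  have hδ' : (π - |ζ.im|) / 2 < π := by linarith [abs_nonneg ζ.im, Real.pi_pos]
  refine ((ki_majorant hρ hρ1 ζ.re).const_mul (2 / Real.sin ((π - |ζ.im|) / 2))).mono'
    (kF_cont hζ).aestronglyMeasurable (Filter.Eventually.of_forall fun t => ?_)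
  exact kF_norm hδ hδ' (by linarith) t

/-- the integral -/
noncomputable def kJ (ρ : ℝ) (ζ : ℂ) : ℂ := ∫ t : ℝ, kF ρ ζ t

theorem kJ_hasDeriv {ρ : ℝ} (hρ : 0 < ρ) (hρ1 : ρ < 1) {ζ : ℂ} (hζ : |ζ.im| < π) :
    ∃ d, HasDerivAt (kJ ρ) d ζ := by
  set δ := (π - |ζ.im|) / 2 with hδdef
  have hδ : 0 < δ := by rw [hδdef]; linarith
  have hδ' : δ < π := by rw [hδdef]; linarith [abs_nonneg ζ.im, Real.pi_pos]
  have hs : 0 < Real.sin δ := Real.sin_pos_of_pos_of_lt_pi hδ hδ'
  set ε := min δ 1 with hεdef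
  have hε : 0 < ε := lt_min hδ one_pos
  have hball : ∀ ξ ∈ Metric.ball ζ ε, |ξ.im| ≤ π - δ ∧ ξ.re ≤ ζ.re + 1 := by
    intro ξ hξ
    rw [Metric.mem_ball, dist_eq_norm] at hξ
    have h1 : |ξ.im - ζ.im| ≤ ‖ξ - ζ‖ := by
      have := Complex.abs_im_le_norm (ξ - ζ)
      simpa using this
    have h2 : |ξ.re - ζ.re| ≤ ‖ξ - ζ‖ := by
      have := Complex.abs_re_le_norm (ξ - ζ)
      simpa using this
    have h3 : |ξ.im| ≤ |ξ.im - ζ.im| + |ζ.im| := by
      have := abs_add_le (ξ.im - ζ.im) ζ.im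
      simpa using this
    have h4 : ε ≤ δ := min_le_left _ _
    have h5 : ε ≤ 1 := min_le_right _ _
    refine ⟨by rw [hδdef] at *; linarith, ?_⟩
    have := le_abs_self (ξ.re - ζ.re)
    linarith
  have hπ : ∀ ξ ∈ Metric.ball ζ ε, |ξ.im| < π := fun ξ hξ => by
    have := (hball ξ hξ).1; linarith
  have key := hasDerivAt_integral_of_dominated_loc_of_deriv_le (μ := volume) (𝕜 := ℂ)
    (F := kF ρ) (x₀ := ζ) (s := Metric.ball ζ ε)
    (F' := fun ξ t => exp (ξ - t) / (1 + exp (ξ - t)) * Real.exp (ρ * t))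
    (bound := fun t => 2 / Real.sin δ *
      (Real.log (1 + Real.exp (ζ.re + 1 - t)) * Real.exp (ρ * t)))
    (Metric.ball_mem_nhds ζ hε) ?_ (kF_int hρ hρ1 hζ) ?_ ?_
    ((ki_majorant hρ hρ1 (ζ.re + 1)).const_mul _) ?_
  · exact ⟨_, key.2⟩
  · filter_upwards [Metric.ball_mem_nhds ζ hε] with ξ hξ
    exact (kF_cont (hπ ξ hξ)).aestronglyMeasurable
  · apply Continuous.aestronglyMeasurable
    apply Continuous.mul _ (by fun_prop)
    apply Continuous.div (by fun_prop) (by fun_prop)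
    intro t h0
    have h := ki_slit (τ := 1) zero_le_one (z := ζ - t) (by simpa using hζ)
    rw [ofReal_one, one_mul, h0] at h
    exact Complex.zero_notMem_slitPlane h
  · refine Filter.Eventually.of_forall fun t ξ hξ => ?_
    rw [norm_mul, Complex.norm_real, Real.norm_of_nonneg (Real.exp_pos _).le, ← mul_assoc]
    apply mul_le_mul_of_nonneg_right _ (Real.exp_pos _).le
    have h1 := ki_low' hδ.le hδ'.le (τ := 1) zero_le_one (z := ξ - t)
      (by simpa using (hball ξ hξ).1)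
    rw [norm_div, Complex.norm_exp]
    simp only [ofReal_one, one_mul, Complex.sub_re, Complex.ofReal_re] at h1 ⊢
    have h2 : 0 < 1 + Real.exp (ξ.re - t) := by positivity
    have h3 : 0 < Real.sin δ / 2 * (1 + Real.exp (ξ.re - t)) := by positivity
    calc Real.exp (ξ.re - t) / ‖1 + exp (ξ - t)‖
        ≤ Real.exp (ξ.re - t) / (Real.sin δ / 2 * (1 + Real.exp (ξ.re - t))) :=
          div_le_div_of_nonneg_left (Real.exp_pos _).le h3 h1
      _ = 2 / Real.sin δ * (1 - (1 + Real.exp (ξ.re - t))⁻¹) := by field_simp; ring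
      _ ≤ 2 / Real.sin δ * Real.log (1 + Real.exp (ξ.re - t)) := by
          apply mul_le_mul_of_nonneg_left (Real.one_sub_inv_le_log_of_pos h2) (by positivity)
      _ ≤ _ := by
          apply mul_le_mul_of_nonneg_left _ (by positivity)
          apply Real.log_le_log h2
          have := (hball ξ hξ).2
          have := Real.exp_le_exp.2 (show ξ.re - t ≤ ζ.re + 1 - t by linarith)
          linarith
  · refine Filter.Eventually.of_forall fun t ξ hξ => ?_
    unfold kF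
    apply HasDerivAt.mul_const
    have h1 : HasDerivAt (fun ξ : ℂ => 1 + exp (ξ - t)) (exp (ξ - t)) ξ := by
      have h2 : HasDerivAt (fun ξ : ℂ => ξ - (t : ℂ)) 1 ξ := by
        simpa using (hasDerivAt_id ξ).sub_const (t : ℂ)
      simpa using (h2.cexp).const_add 1
    refine h1.clog ?_
    have h := ki_slit (τ := 1) zero_le_one (z := ξ - t) (by simpa using hπ ξ hξ)
    simpa using h

theorem kJ_add {ρ : ℝ} (ζ : ℂ) (a : ℝ) : kJ ρ (ζ + a) = Real.exp (ρ * a) * kJ ρ ζ := by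
  unfold kJ
  have h1 : ∀ t : ℝ, kF ρ (ζ + a) t = Real.exp (ρ * a) * kF ρ ζ (t - a) := by
    intro t
    unfold kF
    have e1 : ζ + a - t = ζ - ((t - a : ℝ) : ℂ) := by push_cast; ring
    have e2 : Real.exp (ρ * t) = Real.exp (ρ * a) * Real.exp (ρ * (t - a)) := by
      rw [← Real.exp_add]; congr 1; ring
    rw [e1, e2]; push_cast; ring
  simp_rw [h1]
  rw [integral_const_mul, integral_sub_right_eq_self (fun t => kF ρ ζ t) a]

theorem kJ_deriv {ρ : ℝ} (hρ : 0 < ρ) (hρ1 : ρ < 1) {ζ : ℂ} (hζ : |ζ.im| < π) :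
    HasDerivAt (kJ ρ) (ρ * kJ ρ ζ) ζ := by
  obtain ⟨d, hd⟩ := kJ_hasDeriv hρ hρ1 hζ
  have h1 : HasDerivAt (fun a : ℝ => kJ ρ (ζ + a)) d 0 := by
    have h2 : HasDerivAt (fun a : ℝ => ζ + (a : ℂ)) 1 0 := by
      simpa using (Complex.ofRealCLM.hasDerivAt (x := (0 : ℝ))).const_add ζ
    have h3 : HasDerivAt (kJ ρ) d ((fun a : ℝ => ζ + (a : ℂ)) 0) := by simpa using hd
    have h4 := h3.scomp_of_eq (0 : ℝ) h2 rfl
    rw [one_smul] at h4
    exact h4
  have h5 : HasDerivAt (fun a : ℝ => (Real.exp (ρ * a) : ℂ) * kJ ρ ζ) (ρ * kJ ρ ζ) 0 := by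
    have h6 : HasDerivAt (fun a : ℝ => Real.exp (ρ * a)) ρ 0 := by
      have := ((hasDerivAt_id (0 : ℝ)).const_mul ρ).exp
      simpa using this
    exact (h6.ofReal_comp).mul_const _
  have h7 : (fun a : ℝ => kJ ρ (ζ + a)) = fun a : ℝ => (Real.exp (ρ * a) : ℂ) * kJ ρ ζ :=
    funext fun a => kJ_add ζ a
  rw [h7] at h1
  rw [← h1.unique h5]
  exact hd

theorem kJ_eq {ρ : ℝ} (hρ : 0 < ρ) (hρ1 : ρ < 1) {ζ : ℂ} (hζ : |ζ.im| < π) :
    kJ ρ ζ = exp (ρ * ζ) * kJ ρ 0 := by
  have hopen : IsOpen {z : ℂ | |z.im| < π} :=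
    isOpen_lt (Complex.continuous_im.abs) continuous_const
  have hconv : Convex ℝ {z : ℂ | |z.im| < π} := by
    have h1 : {z : ℂ | |z.im| < π} = Complex.imLm ⁻¹' (Metric.ball (0 : ℝ) π) := by
      ext z
      simp
    rw [h1]
    exact (convex_ball (0 : ℝ) π).linear_preimage Complex.imLm
  have hder : ∀ z ∈ {z : ℂ | |z.im| < π},
      HasDerivAt (fun z => exp (-(ρ * z)) * kJ ρ z) 0 z := by
    intro z hz
    have h1 : HasDerivAt (fun z : ℂ => exp (-(ρ * z))) (exp (-(ρ * z)) * (-ρ)) z := by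
      have h2 : HasDerivAt (fun z : ℂ => -((ρ : ℂ) * z)) (-(ρ : ℂ)) z := by
        have h3 := ((hasDerivAt_id z).const_mul (ρ : ℂ)).fun_neg
        rw [mul_one] at h3
        exact h3
      exact h2.cexp
    have h3 := h1.mul (kJ_deriv hρ hρ1 hz)
    have h4 : exp (-(ρ * z)) * -↑ρ * kJ ρ z + exp (-(ρ * z)) * (↑ρ * kJ ρ z) = 0 := by ring
    rw [h4] at h3
    exact h3
  have key := hopen.is_const_of_deriv_eq_zero hconv.isPreconnected
    (f := fun z => exp (-(ρ * z)) * kJ ρ z)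
    (fun z hz => (hder z hz).differentiableAt.differentiableWithinAt)
    (fun z hz => (hder z hz).deriv) (show ζ ∈ {z : ℂ | |z.im| < π} from hζ)
    (show (0 : ℂ) ∈ {z : ℂ | |z.im| < π} by simp [Real.pi_pos])
  simp only [mul_zero, neg_zero, Complex.exp_zero, one_mul] at key
  rw [← key, ← mul_assoc, ← Complex.exp_add]
  simp

theorem integral_ker {ρ : ℝ} (hρ : 0 < ρ) (hρ1 : ρ < 1) : ∃ C : ℝ, 0 < C ∧
    ∀ ψ : ℝ, Real.sin ψ ≠ 0 → ∫ u : ℝ, ker u ψ * Real.exp (-ρ * u) = C * G ρ ψ := by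
  refine ⟨∫ t : ℝ, Real.log (1 + Real.exp (0 - t)) * Real.exp (ρ * t), ?_, ?_⟩
  · rw [integral_pos_iff_support_of_nonneg _ (ki_majorant hρ hρ1 0)]
    · have h1 : Function.support
          (fun t : ℝ => Real.log (1 + Real.exp (0 - t)) * Real.exp (ρ * t)) = univ := by
        ext t
        simp only [Function.mem_support, mem_univ, iff_true]
        have h2 : 0 < Real.log (1 + Real.exp (0 - t)) :=
          Real.log_pos (by linarith [Real.exp_pos (0 - t)])
        positivity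
      rw [h1]
      simp
    · intro t
      have h2 : 0 < Real.log (1 + Real.exp (0 - t)) :=
        Real.log_pos (by linarith [Real.exp_pos (0 - t)])
      change 0 ≤ Real.log (1 + Real.exp (0 - t)) * Real.exp (ρ * t)
      positivity
  · intro ψ hψ
    set φ := arg (-exp ((ψ : ℂ) * I)) with hφ
    have h0 : kJ ρ 0 =
        ((∫ t : ℝ, Real.log (1 + Real.exp (0 - t)) * Real.exp (ρ * t) : ℝ) : ℂ) := by
      rw [kJ]
      refine Eq.trans ?_ (integral_ofReal (𝕜 := ℂ))
      congr 1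
      funext t
      unfold kF
      rw [RCLike.ofReal_mul]
      change _ = ((Real.log (1 + Real.exp (0 - t)) : ℝ) : ℂ) * ((Real.exp (ρ * t) : ℝ) : ℂ)
      rw [Complex.ofReal_log (by positivity)]
      push_cast
      rfl
    have hn : ‖-exp ((ψ : ℂ) * I)‖ = 1 := by rw [norm_neg, Complex.norm_exp_ofReal_mul_I]
    have hφe : exp ((φ : ℂ) * I) = -exp ((ψ : ℂ) * I) := by
      have := Complex.norm_mul_exp_arg_mul_I (-exp ((ψ : ℂ) * I))
      rwa [hn, ofReal_one, one_mul] at this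
    have hφlt : |φ| < π := by
      rw [abs_lt]
      refine ⟨Complex.neg_pi_lt_arg _, lt_of_le_of_ne (Complex.arg_le_pi _) ?_⟩
      intro h
      have h2 := (Complex.arg_eq_pi_iff.1 h).2
      rw [Complex.neg_im, Complex.exp_ofReal_mul_I_im] at h2
      exact hψ (neg_eq_zero.1 h2)
    have hζ : |((φ : ℂ) * I).im| < π := by simpa using hφlt
    have h1 : ∫ u : ℝ, ker u ψ * Real.exp (-ρ * u) =
        ∫ t : ℝ, (kF ρ ((φ : ℂ) * I) t).re := by
      rw [← integral_neg_eq_self (fun u => ker u ψ * Real.exp (-ρ * u)) volume]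
      congr 1
      funext t
      unfold ker kF
      rw [Complex.re_mul_ofReal, Complex.log_re]
      have h3 : exp ((φ : ℂ) * I - t) = -exp (((-t : ℝ) : ℂ) + (ψ : ℂ) * I) := by
        rw [sub_eq_add_neg, Complex.exp_add, hφe, Complex.exp_add]
        push_cast
        ring
      rw [h3, neg_mul_neg, ← sub_eq_add_neg]
    rw [h1]
    have h2 : ∫ t : ℝ, (kF ρ ((φ : ℂ) * I) t).re = (kJ ρ ((φ : ℂ) * I)).re := by
      have := Complex.reCLM.integral_comp_comm (kF_int hρ hρ1 hζ)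
      simpa [kJ] using this
    rw [h2, kJ_eq hρ hρ1 hζ, h0, Complex.re_mul_ofReal, mul_comm]
    congr 1
    unfold G
    rw [← hφ]
    have h4 : (ρ : ℂ) * ((φ : ℂ) * I) = ((ρ * φ : ℝ) : ℂ) * I := by push_cast; ring
    rw [h4, Complex.exp_ofReal_mul_I_re]

end HBInd
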