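import Pool.Agent.HBInd.Prod
import Pool.Agent.HBInd.Nec
import Pool.Agent.HBInd.Special

/-!
# A function of order one and minimal type with real zeros

`f z = p (z²)`, `p = ∏ (1 - z / 4^j)^{m_j}`, `m_j = ⌊2^j / (j+1)^2⌋₊` (`exists_entire` or `exists_pre` with
index set `Σ j : ℕ, Fin (m j)`, `c = 4^{-j}`). Zeros `± 2^j`. `p w ≠ 0` for `w ∉ [0, ∞)`, and
`|p (conj w)| = |p w|` (equal sums of logarithms if `w` is not a zero; the zeros are real).
`log |f z| ≤ ∑_j m_j log (1 + |z|²/4^j)`, divided by `|z|` it tends to `0` (dominated convergence for series,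
`log (1 + x²) ≤ 2 x`), so `ind ≤ 0` and the order is `≤ 1`. On the imaginary axis all factors are `≥ 1`, so
`ind ≥ 0` at `± π/2`, and `|f (i 2^j)| ≥ 2^{m_j}`, so the order is `1` (`Pre.inClass_of_frequently`).
For the other `θ`: if `ind f θ < -ε < 0` (or `= ⊥`), then `ind_le_sinusoid` in a sector `[θ, b]` or `[b, θ]`
of opening `< π` containing `π/2` or `-π/2` (mod `2π`) in its interior gives `ind f (± π/2) < 0`, a
contradiction.
-/

namespace HBInd

open Complex Filter Topology Set Bornology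
open scoped Real ComplexConjugate

namespace MinOne

/-- signs -/
noncomputable def sg (s : Bool) : ℝ := if s then 1 else -1

lemma abs_sg (s : Bool) : |sg s| = 1 := by
  cases s <;> simp [sg]

lemma mul_inv_le (j : ℕ) : (mMin 1 j : ℝ) * ((2 : ℝ) ^ j)⁻¹ ≤ 1 / ((j : ℝ) + 1) ^ 2 := by
  have h7 := mMin_le' 1 j
  rw [Real.rpow_one] at h7
  calc (mMin 1 j : ℝ) * ((2 : ℝ) ^ j)⁻¹
      ≤ (2 : ℝ) ^ j / ((j : ℝ) + 1) ^ 2 * ((2 : ℝ) ^ j)⁻¹ :=
        mul_le_mul_of_nonneg_right h7 (by positivity)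
    _ = 1 / ((j : ℝ) + 1) ^ 2 := by field_simp

lemma summable_sq : Summable fun j : ℕ => 1 / ((j : ℝ) + 1) ^ 2 := by
  have := (summable_nat_add_iff 1).2 (Real.summable_one_div_nat_pow.2 one_lt_two)
  simpa using this

lemma summable_norm : Summable fun i : Idx (mMin 1) Bool => ‖cf sg i‖ := by
  rw [summable_sigma_of_nonneg (fun i => norm_nonneg _)]
  refine ⟨fun j => (hasSum_fintype _).summable, ?_⟩
  refine Summable.of_nonneg_of_le (fun j => tsum_nonneg fun _ => norm_nonneg _) (fun j => ?_)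
    (summable_sq.mul_left 2)
  simp only [norm_cf abs_sg, tsum_fintype, Finset.sum_const, Finset.card_univ, Fintype.card_prod,
    Fintype.card_fin, Fintype.card_bool, nsmul_eq_mul, Nat.cast_mul]
  have h := mul_inv_le j
  push_cast
  calc (mMin 1 j : ℝ) * 2 * ((2 : ℝ) ^ j)⁻¹ = 2 * ((mMin 1 j : ℝ) * ((2 : ℝ) ^ j)⁻¹) := by ring
    _ ≤ 2 * (1 / ((j : ℝ) + 1) ^ 2) := by linarith

/-- the function -/
lemma exists_fun : ∃ f : ℂ → ℂ, Pre 1 f ∧
      (∀ z : ℂ, (∀ i : Idx (mMin 1) Bool, cf sg i * z ≠ 1) →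
        f z ≠ 0 ∧ HasSum (fun i : Idx (mMin 1) Bool => Real.log ‖1 - cf sg i * z‖)
          (Real.log ‖f z‖)) ∧
      (∀ z : ℂ, ‖f z‖ ≤ Real.exp (∑' j : ℕ,
        (mMin 1 j * 2 : ℝ) * Real.log (1 + ((2 : ℝ) ^ j)⁻¹ * ‖z‖))) := by
  obtain ⟨f, hf1, hf2, hf3, hf4, hf5⟩ := exists_entire (c := fun i : Idx (mMin 1) Bool => cf sg i)
    summable_norm (fun i => by rw [cf, Complex.ofReal_im])
  refine ⟨f, ⟨hf1, ?_, hf2, hf3⟩, hf4, ?_⟩
  · intro σ hσ
    filter_upwards [(tendsto_norm_cobounded_atTop (E := ℂ)).eventually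
      (eventually_mul_rpow_le hσ (∑' i : Idx (mMin 1) Bool, ‖cf sg i‖))] with z hz
    obtain ⟨h1, h2⟩ := hf5 z
    refine h2.trans (Real.exp_le_exp.2 (le_trans ?_ hz))
    have h3 : ∀ i : Idx (mMin 1) Bool, Real.log (1 + ‖cf sg i‖ * ‖z‖) ≤ ‖cf sg i‖ * ‖z‖ := by
      intro i
      have := Real.log_le_sub_one_of_pos
        (show (0 : ℝ) < 1 + ‖cf sg i‖ * ‖z‖ by positivity)
      linarith
    rw [Real.rpow_one]
    calc ∑' i : Idx (mMin 1) Bool, Real.log (1 + ‖cf sg i‖ * ‖z‖)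
        ≤ ∑' i : Idx (mMin 1) Bool, ‖cf sg i‖ * ‖z‖ :=
          h1.tsum_le_tsum h3 (summable_norm.mul_right _)
      _ = (∑' i : Idx (mMin 1) Bool, ‖cf sg i‖) * ‖z‖ := tsum_mul_right
  · intro z
    obtain ⟨h4, h5⟩ := hf5 z
    refine h5.trans_eq ?_
    congr 1
    rw [h4.tsum_sigma' (fun j => (hasSum_fintype _).summable)]
    refine tsum_congr fun j => ?_
    simp only [norm_cf abs_sg, tsum_fintype, Finset.sum_const, Finset.card_univ,
      Fintype.card_prod, Fintype.card_fin, Fintype.card_bool, nsmul_eq_mul, Nat.cast_mul,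
      Nat.cast_ofNat]

lemma tendsto_sum : Tendsto (fun r : ℝ => ∑' j : ℕ, r⁻¹ *
      ((mMin 1 j * 2 : ℝ) * Real.log (1 + ((2 : ℝ) ^ j)⁻¹ * r))) atTop (𝓝 0) := by
  have hlim : Tendsto (fun r : ℝ => ∑' j : ℕ, r⁻¹ *
      ((mMin 1 j * 2 : ℝ) * Real.log (1 + ((2 : ℝ) ^ j)⁻¹ * r))) atTop
        (𝓝 (∑' _ : ℕ, (0 : ℝ))) := by
    refine tendsto_tsum_of_dominated_convergence (summable_sq.mul_left 2) ?_ ?_
    · intro j
      have h1 : Tendsto (fun r : ℝ => (mMin 1 j * 2 : ℝ) *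
          ((((2 : ℝ) ^ j)⁻¹) ^ (1 / 2 : ℝ) / (1 / 2)) * r ^ (-(1 / 2 : ℝ))) atTop
            (𝓝 ((mMin 1 j * 2 : ℝ) * ((((2 : ℝ) ^ j)⁻¹) ^ (1 / 2 : ℝ) / (1 / 2)) * 0)) :=
        (tendsto_rpow_neg_atTop (by norm_num)).const_mul _
      rw [mul_zero] at h1
      refine squeeze_zero' ?_ ?_ h1
      · filter_upwards [eventually_ge_atTop 0] with r hr
        refine mul_nonneg (inv_nonneg.2 hr) (mul_nonneg (by positivity)
          (Real.log_nonneg ?_))
        have : (0 : ℝ) ≤ ((2 : ℝ) ^ j)⁻¹ * r := by positivity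
        linarith
      · filter_upwards [eventually_gt_atTop 0] with r hr
        have h2 := log_one_add_le (s := 1 / 2) (x := ((2 : ℝ) ^ j)⁻¹ * r) (by norm_num)
          (by norm_num) (by positivity)
        rw [Real.mul_rpow (by positivity) hr.le] at h2
        have h3 : r⁻¹ * r ^ (1 / 2 : ℝ) = r ^ (-(1 / 2 : ℝ)) := by
          rw [← Real.rpow_neg_one, ← Real.rpow_add hr]
          norm_num
        have h4 : 0 ≤ r⁻¹ := inv_nonneg.2 hr.le
        calc r⁻¹ * ((mMin 1 j * 2 : ℝ) * Real.log (1 + ((2 : ℝ) ^ j)⁻¹ * r))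
            ≤ r⁻¹ * ((mMin 1 j * 2 : ℝ) *
                ((((2 : ℝ) ^ j)⁻¹) ^ (1 / 2 : ℝ) * r ^ (1 / 2 : ℝ) / (1 / 2))) :=
              mul_le_mul_of_nonneg_left (mul_le_mul_of_nonneg_left h2 (by positivity)) h4
          _ = (mMin 1 j * 2 : ℝ) * ((((2 : ℝ) ^ j)⁻¹) ^ (1 / 2 : ℝ) / (1 / 2)) *
                (r⁻¹ * r ^ (1 / 2 : ℝ)) := by ring
          _ = _ := by rw [h3]
    · filter_upwards [eventually_gt_atTop 0] with r hr j
      have hx : (0 : ℝ) ≤ ((2 : ℝ) ^ j)⁻¹ * r := by positivity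
      have h2 : Real.log (1 + ((2 : ℝ) ^ j)⁻¹ * r) ≤ ((2 : ℝ) ^ j)⁻¹ * r := by
        have := Real.log_le_sub_one_of_pos (show (0 : ℝ) < 1 + ((2 : ℝ) ^ j)⁻¹ * r by linarith)
        linarith
      have h5 : 0 ≤ Real.log (1 + ((2 : ℝ) ^ j)⁻¹ * r) := Real.log_nonneg (by linarith)
      have h4 : 0 ≤ r⁻¹ := inv_nonneg.2 hr.le
      rw [Real.norm_of_nonneg (mul_nonneg h4 (mul_nonneg (by positivity) h5))]
      have h6 := mul_inv_le j
      calc r⁻¹ * ((mMin 1 j * 2 : ℝ) * Real.log (1 + ((2 : ℝ) ^ j)⁻¹ * r))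
          ≤ r⁻¹ * ((mMin 1 j * 2 : ℝ) * (((2 : ℝ) ^ j)⁻¹ * r)) :=
            mul_le_mul_of_nonneg_left (mul_le_mul_of_nonneg_left h2 (by positivity)) h4
        _ = 2 * ((mMin 1 j : ℝ) * ((2 : ℝ) ^ j)⁻¹) * (r⁻¹ * r) := by ring
        _ = 2 * ((mMin 1 j : ℝ) * ((2 : ℝ) ^ j)⁻¹) := by rw [inv_mul_cancel₀ hr.ne', mul_one]
        _ ≤ 2 * (1 / ((j : ℝ) + 1) ^ 2) := by linarith
  rwa [tsum_zero] at hlim

end MinOne

open MinOne in
theorem exists_minimal_one :
    ∃ f : ℂ → ℂ, InClass 1 f ∧ ∀ θ, ind 1 f θ = 0 := by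
  obtain ⟨f, hpre, hlow, hup⟩ := exists_fun
  have hin : InClass 1 f := by
    refine hpre.inClass_of_frequently one_pos (θ := π / 2) fun σ hσ0 hσ => ?_
    refine tendsto_two_pow.frequently (Eventually.frequently ?_)
    filter_upwards [mMin_large hσ0 hσ] with j hj
    exact (Real.exp_lt_exp.2 hj).trans_le (lower_imag abs_sg hlow j)
  have hle : ∀ θ, ind 1 f θ ≤ 0 := by
    intro θ
    by_contra hcon
    rw [not_le] at hcon
    obtain ⟨a, ha0, ha⟩ := EReal.exists_between_coe_real hcon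
    have ha0' : 0 < a := by exact_mod_cast ha0
    refine absurd (ind_le_of_eventually (a := a) ?_) (not_le.2 ha)
    filter_upwards [tendsto_sum.eventually_le_const ha0', eventually_gt_atTop 0] with r hr hr0
    refine (hup _).trans (Real.exp_le_exp.2 ?_)
    rw [norm_ray hr0.le]
    rw [tsum_mul_left, inv_mul_le_iff₀ hr0, mul_comm] at hr
    rw [Real.rpow_one]
    exact hr
  -- on the imaginary axis all factors are at least one
  have himag : ∀ n : ℤ, 0 ≤ ind 1 f (π / 2 + n * π) := by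
    intro n
    refine le_ind_of_frequently (a := 0) (Eventually.frequently ?_)
    filter_upwards [eventually_gt_atTop 0] with r hr
    rw [zero_mul, Real.exp_zero]
    have hre : (ray r (π / 2 + n * π)).re = 0 := by
      rw [ray_re, Real.cos_add_int_mul_pi, Real.cos_pi_div_two, mul_zero, mul_zero]
    have h1 : ∀ i : Idx (mMin 1) Bool, 1 ≤ ‖1 - cf sg i * ray r (π / 2 + n * π)‖ := by
      intro i
      have h2 : (1 - cf sg i * ray r (π / 2 + n * π)).re = 1 := by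
        rw [cf, Complex.sub_re, Complex.one_re, Complex.re_ofReal_mul, hre, mul_zero, sub_zero]
      have h3 := Complex.abs_re_le_norm (1 - cf sg i * ray r (π / 2 + n * π))
      rwa [h2, abs_one] at h3
    obtain ⟨h3, h4⟩ := hlow (ray r (π / 2 + n * π)) (by
      intro i hi
      have := h1 i
      rw [hi, sub_self, norm_zero] at this
      linarith)
    have h5 : 0 ≤ Real.log ‖f (ray r (π / 2 + n * π))‖ :=
      h4.nonneg fun i => Real.log_nonneg (h1 i)
    exact (Real.log_nonneg_iff (norm_pos_iff.2 h3)).1 h5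
  have hfin : ∀ θ, ind 1 f θ ≠ ⊤ := fun θ => ne_of_lt ((hle θ).trans_lt (EReal.coe_lt_top 0))
  have hbot : ∀ θ, ind 1 f θ ≠ ⊥ := by
    intro θ h
    have hpi := Real.pi_pos
    obtain ⟨n, hn, -⟩ := existsUnique_add_zsmul_mem_Ico hpi (π / 2) θ
    rw [zsmul_eq_mul] at hn
    have h1 := ind_bot_right hin one_pos hfin h hn.1 (by linarith [hn.2])
    have h2 := himag n
    rw [h1] at h2
    exact absurd h2 (not_le.2 (EReal.bot_lt_coe 0))
  have hreal : ∀ θ, ind 1 f θ = ((ind 1 f θ).toReal : ℝ) := fun θ =>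
    (EReal.coe_toReal (hfin θ) (hbot θ)).symm
  have hconv := trigConvex_of_ind hin one_pos hreal
  have hz := eq_zero_of_nonpos one_pos hconv (fun θ => by
    have := hle θ
    rw [hreal θ] at this
    exact_mod_cast this)
  refine ⟨f, hin, fun θ => ?_⟩
  rw [hreal θ, hz θ]
  rfl

end HBInd
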