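import Pool.Agent.HBInd.KerP

/-!
# Estimates for the kernels of genus one

* `abs_KD_one_le`: for `|w| ≤ 1/2`, `|1 - w| ≥ δ |w|` and `|log |1 - w| + Re w| ≤ 2 |w|²`
  (`abs_log_add_re_le` in `KerP`), and for `|w| ≥ 1/2`,
  `log (δ/2) + log |w| ≤ log max ≤ log (1 + |w|)`-type bounds give `≤ C |w|`.
* `KD_one_lip`: `max |1 - w| (δ |w|) ≥ δ / 2`, and it is `1`-Lipschitz, so its logarithm is
  `2/δ`-Lipschitz; `Re` is `1`-Lipschitz.
* `exists_real_shift`: `b = β₀ - iγ`. If `z₀` is real: `β = β₀ ± 2γ` with the sign such that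
  `|1 - r z₀ β| = |1 - r z₀ β₀| + 2 r |z₀| γ ≥ |1 - r z₀ b|` (`β = b` if `γ = 0`). If `Im z₀ ≠ 0`: `β = β₀`;
  with `s₀ = |Im z₀| / |z₀|`, `|1 - r z₀ β₀| ≥ s₀` (distance from `1` to the line through `z₀`), so
  `|1 - r z₀ b| ≤ |1 - r z₀ β₀| + r |z₀| γ ≤ |1 - r z₀ β₀| (1 + r |z₀| γ / s₀)`, `log (1 + x) ≤ x`.
-/

namespace HBInd

open Complex Filter Topology Set Bornology
open scoped Real ComplexConjugate

/-! ### auxiliary facts -/

theorem n1a_KD_eq (δ : ℝ) (w : ℂ) : KD 1 δ w = Real.log (max ‖1 - w‖ (δ * ‖w‖)) + w.re := by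
  rw [KD]; simp

theorem n1a_KK_eq (w : ℂ) : KK 1 w = Real.log ‖1 - w‖ + w.re := by
  rw [KK]; simp

theorem n1a_one_le (w : ℂ) : 1 ≤ ‖1 - w‖ + ‖w‖ := by
  have h := norm_add_le (1 - w) w
  rwa [sub_add_cancel, norm_one] at h

theorem n1a_half_le {δ : ℝ} (hδ : δ ∈ Ioo (0 : ℝ) 1) (w : ℂ) :
    δ / 2 ≤ max ‖1 - w‖ (δ * ‖w‖) := by
  have h := n1a_one_le w
  rcases le_total (1 / 2) ‖w‖ with h1 | h1
  · refine le_trans ?_ (le_max_right _ _)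
    nlinarith [hδ.1]
  · refine le_trans ?_ (le_max_left _ _)
    linarith [hδ.2]

theorem n1a_max_le {δ : ℝ} (hδ : δ ∈ Ioo (0 : ℝ) 1) (w w' : ℂ) :
    max ‖1 - w‖ (δ * ‖w‖) ≤ max ‖1 - w'‖ (δ * ‖w'‖) + ‖w - w'‖ := by
  refine max_le ?_ ?_
  · have h : ‖1 - w‖ ≤ ‖1 - w'‖ + ‖w - w'‖ := by
      have h1 := norm_sub_le (1 - w') (w - w')
      rwa [show (1 - w') - (w - w') = 1 - w by ring] at h1
    exact h.trans (add_le_add (le_max_left _ _) le_rfl)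
  · have h : ‖w‖ ≤ ‖w'‖ + ‖w - w'‖ := by
      have h1 := norm_add_le w' (w - w')
      rwa [show w' + (w - w') = w by ring] at h1
    have h2 : δ * ‖w‖ ≤ δ * ‖w'‖ + ‖w - w'‖ := by
      have h3 : 0 ≤ ‖w - w'‖ := norm_nonneg _
      nlinarith [hδ.1, hδ.2]
    exact h2.trans (add_le_add (le_max_right _ _) le_rfl)

theorem n1a_log_sub_le {δ : ℝ} (hδ : δ ∈ Ioo (0 : ℝ) 1) (w w' : ℂ) :
    Real.log (max ‖1 - w‖ (δ * ‖w‖)) - Real.log (max ‖1 - w'‖ (δ * ‖w'‖)) ≤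
      2 / δ * ‖w - w'‖ := by
  have hδ0 := hδ.1
  have h1 := n1a_half_le hδ w
  have h2 := n1a_half_le hδ w'
  have h3 := n1a_max_le hδ w w'
  set M := max ‖1 - w‖ (δ * ‖w‖)
  set M' := max ‖1 - w'‖ (δ * ‖w'‖)
  have hM : 0 < M := by linarith
  have hM' : 0 < M' := by linarith
  rw [← Real.log_div hM.ne' hM'.ne']
  have h4 := Real.log_le_sub_one_of_pos (div_pos hM hM')
  have h5 : M / M' - 1 ≤ 2 / δ * ‖w - w'‖ := by
    rw [div_sub_one hM'.ne', div_le_iff₀ hM']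
    have h6 : 0 ≤ ‖w - w'‖ := norm_nonneg _
    have h7 : 1 ≤ 2 / δ * M' := by
      rw [div_mul_eq_mul_div, le_div_iff₀ hδ0]
      linarith
    calc M - M' ≤ 1 * ‖w - w'‖ := by linarith
      _ ≤ (2 / δ * M') * ‖w - w'‖ := mul_le_mul_of_nonneg_right h7 h6
      _ = 2 / δ * ‖w - w'‖ * M' := by ring
  linarith

/-! ### the statements -/

theorem abs_KD_one_le {δ : ℝ} (hδ : δ ∈ Ioo (0 : ℝ) 1) :
    ∃ C : ℝ, 0 < C ∧ ∀ w : ℂ, |KD 1 δ w| ≤ C * min ‖w‖ (‖w‖ ^ 2) := by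
  have hδ0 := hδ.1
  have hlog : 0 < Real.log (2 / δ) := by
    refine Real.log_pos ?_
    rw [one_lt_div hδ0]
    linarith [hδ.2]
  refine ⟨4 + 4 * Real.log (2 / δ), by positivity, fun w => ?_⟩
  rw [n1a_KD_eq]
  rcases le_or_gt ‖w‖ (1 / 2) with hw | hw
  · have h1 := n1a_one_le w
    have h2 : max ‖1 - w‖ (δ * ‖w‖) = ‖1 - w‖ := by
      refine max_eq_left ?_
      nlinarith [hδ.2, norm_nonneg w]
    rw [h2]
    have h3 := abs_log_add_re_le hw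
    have h0 : 0 ≤ ‖w‖ := norm_nonneg w
    have h4 : min ‖w‖ (‖w‖ ^ 2) = ‖w‖ ^ 2 := min_eq_right (by nlinarith)
    rw [h4]
    have h5 : 0 ≤ ‖w‖ ^ 2 := by positivity
    nlinarith
  · have hM := n1a_half_le hδ w
    have hM1 : max ‖1 - w‖ (δ * ‖w‖) ≤ 1 + ‖w‖ := by
      have h3 := n1a_max_le hδ w 0
      simpa using h3
    set M := max ‖1 - w‖ (δ * ‖w‖) with hMdef
    have hM0 : 0 < M := by linarith
    have h4 : Real.log M ≤ ‖w‖ := by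
      have h5 := Real.log_le_sub_one_of_pos hM0
      linarith
    have h6 : -Real.log (2 / δ) ≤ Real.log M := by
      rw [← Real.log_inv, inv_div]
      exact Real.log_le_log (by positivity) hM
    have h7 : |w.re| ≤ ‖w‖ := Complex.abs_re_le_norm w
    have h8 : |Real.log M + w.re| ≤ 2 * ‖w‖ + Real.log (2 / δ) := by
      rw [abs_le] at h7 ⊢
      constructor <;> linarith
    have h9 : ‖w‖ / 2 ≤ min ‖w‖ (‖w‖ ^ 2) := by
      refine le_min ?_ ?_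
      · linarith
      · nlinarith
    have h10 : 2 * ‖w‖ + Real.log (2 / δ) ≤ (4 + 4 * Real.log (2 / δ)) * (‖w‖ / 2) := by
      nlinarith
    refine h8.trans (h10.trans ?_)
    exact mul_le_mul_of_nonneg_left h9 (by positivity)

theorem KD_one_lip {δ : ℝ} (hδ : δ ∈ Ioo (0 : ℝ) 1) :
    ∃ C : ℝ, 0 < C ∧ ∀ w w' : ℂ, |KD 1 δ w - KD 1 δ w'| ≤ C * ‖w - w'‖ := by
  have hδ0 := hδ.1
  refine ⟨2 / δ + 1, by positivity, fun w w' => ?_⟩
  rw [n1a_KD_eq, n1a_KD_eq]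
  have h1 := n1a_log_sub_le hδ w w'
  have h2 := n1a_log_sub_le hδ w' w
  rw [norm_sub_rev w' w] at h2
  have h3 : |(w - w').re| ≤ ‖w - w'‖ := Complex.abs_re_le_norm _
  rw [Complex.sub_re] at h3
  rw [abs_le] at h3 ⊢
  constructor <;> linarith

theorem n1a_real {x₀ : ℝ} (hx₀ : x₀ ≠ 0) {r : ℝ} (hr : 0 < r) {b : ℂ} (hb : b.im ≤ 0)
    (hne : r * (x₀ : ℂ) * b ≠ 1) : ∃ β : ℝ, ‖(β : ℂ) - b‖ ≤ 3 * (-b.im) ∧
      r * (x₀ : ℂ) * (β : ℂ) ≠ 1 ∧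
      KK 1 (r * (x₀ : ℂ) * b) ≤ KK 1 (r * (x₀ : ℂ) * β) + 2 * |x₀| * r * (-b.im) := by
  obtain ⟨s, hs1, hs⟩ : ∃ s : ℝ, |s| = 1 ∧ 0 ≤ (1 - r * x₀ * b.re) * (-(x₀ * s)) := by
    rcases le_total 0 ((1 - r * x₀ * b.re) * (-x₀)) with h | h
    · exact ⟨1, abs_one, by linarith⟩
    · exact ⟨-1, by simp, by linarith⟩
  set γ := -b.im with hγ
  have hγ0 : 0 ≤ γ := by linarith
  have hb' : b = (b.re : ℂ) - (γ : ℂ) * I := by
    apply Complex.ext <;> simp [hγ]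
  have hnorm : ‖1 - r * (x₀ : ℂ) * b‖ ≤ |1 - r * x₀ * b.re| + r * |x₀| * γ := by
    have h1 : 1 - r * (x₀ : ℂ) * b = ((1 - r * x₀ * b.re : ℝ) : ℂ) + ((r * x₀ * γ : ℝ) : ℂ) * I := by
      apply Complex.ext <;> simp [hγ]
    rw [h1]
    refine (norm_add_le _ _).trans ?_
    rw [norm_mul, Complex.norm_real, Complex.norm_real, Complex.norm_I, Real.norm_eq_abs,
      Real.norm_eq_abs, mul_one, abs_mul, abs_mul, abs_of_pos hr, abs_of_nonneg hγ0]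
  have hβ : ‖1 - r * (x₀ : ℂ) * ((b.re + 2 * γ * s : ℝ) : ℂ)‖ = |1 - r * x₀ * b.re| +
      2 * (r * |x₀| * γ) := by
    have h1 : 1 - r * (x₀ : ℂ) * ((b.re + 2 * γ * s : ℝ) : ℂ) =
        (((1 - r * x₀ * b.re) + 2 * (r * γ * (-(x₀ * s))) : ℝ) : ℂ) := by
      push_cast; ring
    rw [h1, Complex.norm_real, Real.norm_eq_abs]
    have h2 : |x₀| = |-(x₀ * s)| := by rw [abs_neg, abs_mul, hs1, mul_one]
    rw [h2]
    have h3 : (r * |-(x₀ * s)| * γ) = |r * γ * (-(x₀ * s))| := by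
      rw [abs_mul, abs_mul, abs_of_pos hr, abs_of_nonneg hγ0]; ring
    rw [h3]
    have h4 : 0 ≤ (1 - r * x₀ * b.re) * (2 * (r * γ * (-(x₀ * s)))) := by
      have h5 : (1 - r * x₀ * b.re) * (2 * (r * γ * (-(x₀ * s)))) =
        2 * r * γ * ((1 - r * x₀ * b.re) * (-(x₀ * s))) := by ring
      rw [h5]; positivity
    have h6 : |2 * (r * γ * (-(x₀ * s)))| = 2 * |r * γ * (-(x₀ * s))| := by
      rw [abs_mul]; simp
    rw [← h6]
    rcases le_total 0 (1 - r * x₀ * b.re) with h7 | h7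
    · rcases h7.eq_or_lt with h8 | h8
      · rw [← h8]; simp
      · have h9 : 0 ≤ 2 * (r * γ * (-(x₀ * s))) := nonneg_of_mul_nonneg_right h4 h8
        rw [abs_of_nonneg h7, abs_of_nonneg h9, abs_of_nonneg (by linarith)]
    · rcases h7.eq_or_lt with h8 | h8
      · rw [h8]; simp
      · have h9 : 2 * (r * γ * (-(x₀ * s))) ≤ 0 := by
          by_contra h10
          have := mul_neg_of_neg_of_pos h8 (not_le.1 h10)
          linarith
        rw [abs_of_nonpos h7, abs_of_nonpos h9, abs_of_nonpos (by linarith)]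
        ring
  have hpos : 0 < ‖1 - r * (x₀ : ℂ) * b‖ := by
    rw [norm_pos_iff]
    intro h
    exact hne (sub_eq_zero.1 h).symm
  have hrx : 0 ≤ r * |x₀| * γ := by positivity
  have hle : ‖1 - r * (x₀ : ℂ) * b‖ ≤ ‖1 - r * (x₀ : ℂ) * ((b.re + 2 * γ * s : ℝ) : ℂ)‖ := by
    rw [hβ]; linarith
  refine ⟨b.re + 2 * γ * s, ?_, ?_, ?_⟩
  · have h1 : ((b.re + 2 * γ * s : ℝ) : ℂ) - b = ((2 * γ * s : ℝ) : ℂ) + (γ : ℂ) * I := by
      apply Complex.ext <;> simp [hγ]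
    rw [h1]
    refine (norm_add_le _ _).trans ?_
    rw [norm_mul, Complex.norm_real, Complex.norm_real, Complex.norm_I, Real.norm_eq_abs,
      Real.norm_eq_abs, mul_one, abs_mul, abs_mul, hs1, abs_of_nonneg hγ0]
    norm_num
    linarith
  · intro h
    rw [h] at hle
    simp only [sub_self, norm_zero] at hle
    linarith
  · rw [n1a_KK_eq, n1a_KK_eq]
    have h1 := Real.log_le_log hpos hle
    have h2 : (r * (x₀ : ℂ) * b).re = r * x₀ * b.re := by simp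
    have h3 : (r * (x₀ : ℂ) * ((b.re + 2 * γ * s : ℝ) : ℂ)).re = r * x₀ * b.re +
        2 * (r * γ * (x₀ * s)) := by
      rw [← Complex.ofReal_mul, ← Complex.ofReal_mul, Complex.ofReal_re]; ring
    rw [h2, h3]
    have h4 : -(r * γ * |x₀|) ≤ r * γ * (x₀ * s) := by
      have h5 : |x₀ * s| = |x₀| := by rw [abs_mul, hs1, mul_one]
      have h6 := neg_abs_le (x₀ * s)
      rw [h5] at h6
      have h7 : 0 ≤ r * γ := by positivity
      nlinarith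
    nlinarith

theorem n1a_im {z₀ : ℂ} (hz₀ : z₀.im ≠ 0) {r : ℝ} (hr : 0 < r) {b : ℂ} (hb : b.im ≤ 0)
    (hne : r * z₀ * b ≠ 1) : ∃ β : ℝ, ‖(β : ℂ) - b‖ ≤ 3 * (-b.im) ∧
      r * z₀ * (β : ℂ) ≠ 1 ∧
      KK 1 (r * z₀ * b) ≤ KK 1 (r * z₀ * β) + (‖z₀‖ ^ 2 / |z₀.im| + ‖z₀‖) * r * (-b.im) := by
  set γ := -b.im with hγ
  have hγ0 : 0 ≤ γ := by linarith
  have hz0 : z₀ ≠ 0 := by rintro rfl; simp at hz₀
  have hn : 0 < ‖z₀‖ := norm_pos_iff.2 hz0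
  have hy : 0 < |z₀.im| := abs_pos.2 hz₀
  have hsq : ‖z₀‖ ^ 2 = z₀.re ^ 2 + z₀.im ^ 2 := by
    rw [← Complex.normSq_eq_norm_sq, Complex.normSq_apply]; ring
  have hlow : |z₀.im| / ‖z₀‖ ≤ ‖1 - r * z₀ * (b.re : ℂ)‖ := by
    rw [div_le_iff₀ hn]
    refine abs_le_of_sq_le_sq' ?_ (by positivity) |>.2
    rw [mul_pow, hsq, ← Complex.normSq_eq_norm_sq, Complex.normSq_apply, sq_abs]
    have h1 : (1 - r * z₀ * (b.re : ℂ)).re = 1 - r * b.re * z₀.re := by simp; ring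
    have h2 : (1 - r * z₀ * (b.re : ℂ)).im = -(r * b.re * z₀.im) := by simp; ring
    rw [h1, h2]
    nlinarith [sq_nonneg (r * b.re * (z₀.re ^ 2 + z₀.im ^ 2) - z₀.re)]
  have hb' : b = (b.re : ℂ) - (γ : ℂ) * I := by
    apply Complex.ext <;> simp [hγ]
  have hup : ‖1 - r * z₀ * b‖ ≤ ‖1 - r * z₀ * (b.re : ℂ)‖ + r * ‖z₀‖ * γ := by
    have h1 : 1 - r * z₀ * b = (1 - r * z₀ * (b.re : ℂ)) + r * z₀ * (γ * I) := by
      conv_lhs => rw [hb']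
      ring
    rw [h1]
    refine (norm_add_le _ _).trans ?_
    rw [norm_mul, norm_mul, norm_mul, Complex.norm_real, Complex.norm_real, Complex.norm_I,
      Real.norm_eq_abs, Real.norm_eq_abs, mul_one, abs_of_pos hr, abs_of_nonneg hγ0]
  have hpos : 0 < ‖1 - r * z₀ * b‖ := by
    rw [norm_pos_iff]
    intro h
    exact hne (sub_eq_zero.1 h).symm
  have hs0 : 0 < |z₀.im| / ‖z₀‖ := by positivity
  have hN0 : 0 < ‖1 - r * z₀ * (b.re : ℂ)‖ := hs0.trans_le hlow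
  refine ⟨b.re, ?_, ?_, ?_⟩
  · have h1 : (b.re : ℂ) - b = (γ : ℂ) * I := by
      apply Complex.ext <;> simp [hγ]
    rw [h1, norm_mul, Complex.norm_real, Complex.norm_I, Real.norm_eq_abs, mul_one,
      abs_of_nonneg hγ0]
    linarith
  · intro h
    rw [h] at hN0
    simp at hN0
  · rw [n1a_KK_eq, n1a_KK_eq]
    set N := ‖1 - r * z₀ * (b.re : ℂ)‖ with hN
    have h1 : Real.log ‖1 - r * z₀ * b‖ ≤ Real.log (N + r * ‖z₀‖ * γ) :=
      Real.log_le_log hpos hup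
    have hx : 0 ≤ r * ‖z₀‖ * γ := by positivity
    have h2 : Real.log (N + r * ‖z₀‖ * γ) ≤ Real.log N + r * ‖z₀‖ * γ / N := by
      have h3 : N + r * ‖z₀‖ * γ = N * (1 + r * ‖z₀‖ * γ / N) := by
        rw [mul_add, mul_one, mul_div_cancel₀ _ hN0.ne']
      rw [h3, Real.log_mul hN0.ne' (by positivity)]
      have h4 : (0 : ℝ) < 1 + r * ‖z₀‖ * γ / N := by positivity
      have h5 := Real.log_le_sub_one_of_pos h4
      linarith
    have h6 : r * ‖z₀‖ * γ / N ≤ ‖z₀‖ ^ 2 / |z₀.im| * r * γ := by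
      have h7 : r * ‖z₀‖ * γ / N ≤ r * ‖z₀‖ * γ / (|z₀.im| / ‖z₀‖) :=
        div_le_div_of_nonneg_left hx hs0 hlow
      refine h7.trans (le_of_eq ?_)
      field_simp
    have h8 : (r * z₀ * b).re = (r * z₀ * (b.re : ℂ)).re + r * (z₀.im * γ) := by
      simp [hγ]; ring
    have h9 : z₀.im * γ ≤ ‖z₀‖ * γ :=
      mul_le_mul_of_nonneg_right ((le_abs_self _).trans (Complex.abs_im_le_norm z₀)) hγ0
    have h10 : r * (z₀.im * γ) ≤ r * (‖z₀‖ * γ) := mul_le_mul_of_nonneg_left h9 hr.le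
    rw [h8]
    linarith

theorem exists_real_shift {z₀ : ℂ} (hz₀ : z₀ ≠ 0) : ∃ C : ℝ, 0 < C ∧ ∀ r : ℝ, 0 < r →
    ∀ b : ℂ, b.im ≤ 0 → r * z₀ * b ≠ 1 → ∃ β : ℝ, ‖(β : ℂ) - b‖ ≤ 3 * (-b.im) ∧
      r * z₀ * (β : ℂ) ≠ 1 ∧ KK 1 (r * z₀ * b) ≤ KK 1 (r * z₀ * β) + C * r * (-b.im) := by
  by_cases him : z₀.im = 0
  · have hz : z₀ = (z₀.re : ℂ) := by apply Complex.ext <;> simp [him]
    have hx : z₀.re ≠ 0 := by
      intro h
      rw [h] at hz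
      exact hz₀ (by simpa using hz)
    refine ⟨2 * |z₀.re|, by positivity, fun r hr b hb hne => ?_⟩
    rw [hz] at hne
    have h := n1a_real hx hr hb hne
    rw [← hz] at h
    exact h
  · have hy : 0 < |z₀.im| := abs_pos.2 him
    refine ⟨‖z₀‖ ^ 2 / |z₀.im| + ‖z₀‖, by positivity, fun r hr b hb hne => ?_⟩
    exact n1a_im him hr hb hne

end HBInd
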