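import Mathlib

/-!
# A two constants theorem in the upper half-plane, and the Harnack inequality

* `two_constants`: let `w(z) = (z - ζ) / (z - conj ζ)`, a conformal map of the upper half-plane onto the
  unit disc, with inverse `z = (ζ - conj ζ w) / (1 - w)`. `Φ(w) = G(z(w))` is analytic and bounded by `1` in
  the unit disc, `|Φ| ≤ e^{-A}` on `|w| = κ`. Three lines theorem
  (`Complex.HadamardThreeLines.norm_le_interp_of_mem_verticalClosedStrip'`) for `v ↦ Φ(e^v)` on
  `log κ ≤ Re v ≤ log R'`, `R' < 1`, then `R' → 1`: `|Φ(w)| ≤ |w| ^ (A / log (1/κ))` for `κ ≤ |w| < 1`.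
* `half_plane_decay`: `ζ = r e^{iθ₀}`, `κ = η / 4` (then `|z - ζ| = κ |z - conj ζ|` implies
  `|z - ζ| ≤ 4 κ r = η r`). For `|z| ≤ r`, `Im z > 0`: `|w|² = 1 - 4 Im z Im ζ / |z - conj ζ|² ≤
  1 - Im z sin θ₀ / r`, so `|w|^p ≤ exp (- p Im z sin θ₀ / (2 r))`, `p = A / log (1/κ)`. In the case
  `|z - ζ| < κ |z - conj ζ|` use `|G z| ≤ e^{-A}` (from the hypothesis, `|z - ζ| ≤ η r`) and `Im z ≤ r`,
  `2 log (1 / κ) ≥ 1`.
* `harnack`: `φ` has an analytic logarithm on the ball (`DifferentiableOn` on a simply connected set;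
  Mathlib: `Complex.IsExactOn`/`exists_log` on balls, or via a primitive of `φ'/φ`,
  `DifferentiableOn.isExactOn_ball`), `q = log M - log φ` has `Re q ≥ 0`; Schwarz lemma (or
  `Complex.borelCaratheodory_zero` applied to `log φ(z) - log φ(c)`, real part
  `≤ log M - log |φ c|`): `|log φ(z) - log φ(c)| ≤ 2 |z - c| / (R - |z - c|) (log M - log |φ c|)`.
  If `log M = log |φ c|`, `φ` is constant by the maximum principle (or replace `M` by `M + ε`).
-/

namespace HBInd

open Complex Filter Topology Set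
open scoped Real ComplexConjugate

/-- The inverse of the map `z ↦ (z - ζ) / (z - conj ζ)` of the upper half-plane onto the disc. -/
private noncomputable def invMap (ζ w : ℂ) : ℂ := (ζ - conj ζ * w) / (1 - w)

private lemma one_sub_ne {w : ℂ} (hw : ‖w‖ < 1) : (1 : ℂ) - w ≠ 0 := by
  intro h
  have : w = 1 := (sub_eq_zero.1 h).symm
  rw [this] at hw
  simp at hw

private lemma invMap_sub {ζ w : ℂ} (hw : ‖w‖ < 1) :
    invMap ζ w - ζ = w * (ζ - conj ζ) / (1 - w) := by
  have h := one_sub_ne hw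
  unfold invMap
  rw [eq_div_iff h, sub_mul, div_mul_cancel₀ _ h]
  ring

private lemma invMap_sub_conj {ζ w : ℂ} (hw : ‖w‖ < 1) :
    invMap ζ w - conj ζ = (ζ - conj ζ) / (1 - w) := by
  have h := one_sub_ne hw
  unfold invMap
  rw [eq_div_iff h, sub_mul, div_mul_cancel₀ _ h]
  ring

private lemma invMap_im {ζ w : ℂ} (hw : ‖w‖ < 1) (hζ : 0 < ζ.im) : 0 < (invMap ζ w).im := by
  have h := one_sub_ne hw
  have hn : 0 < normSq (1 - w) := normSq_pos.2 h
  have hw2 : w.re * w.re + w.im * w.im < 1 := by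
    have h1 : normSq w < 1 := by
      rw [normSq_eq_norm_sq]
      nlinarith [norm_nonneg w]
    rwa [normSq_apply] at h1
  have e : (invMap ζ w).im = ζ.im * (1 - (w.re * w.re + w.im * w.im)) / normSq (1 - w) := by
    unfold invMap
    rw [div_im]
    simp only [sub_im, sub_re, mul_im, mul_re, conj_re, conj_im, one_re, one_im]
    field_simp
    ring
  rw [e]
  apply div_pos _ hn
  apply mul_pos hζ
  linarith

private lemma invMap_eq {ζ z : ℂ} (hζ : 0 < ζ.im) (hz : 0 < z.im) :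
    invMap ζ ((z - ζ) / (z - conj ζ)) = z := by
  have h1 : z - conj ζ ≠ 0 := by
    intro h
    have := congrArg Complex.im h
    simp at this
    linarith
  have h2 : ζ - conj ζ ≠ 0 := by
    intro h
    have := congrArg Complex.im h
    simp at this
    linarith
  unfold invMap
  have e1 : (1 : ℂ) - (z - ζ) / (z - conj ζ) = (ζ - conj ζ) / (z - conj ζ) := by
    rw [eq_div_iff h1, sub_mul, div_mul_cancel₀ _ h1]; ring
  have e2 : ζ - conj ζ * ((z - ζ) / (z - conj ζ)) = z * (ζ - conj ζ) / (z - conj ζ) := by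
    rw [eq_div_iff h1, sub_mul, mul_assoc, div_mul_cancel₀ _ h1]; ring
  rw [e1, e2, div_div_div_cancel_right₀ h1, mul_div_assoc, div_self h2, mul_one]

/-- `|z - ζ|² = |z - conj ζ|² - 4 Im z Im ζ`. -/
private lemma dist_sq (z ζ : ℂ) :
    ‖z - ζ‖ ^ 2 = ‖z - conj ζ‖ ^ 2 - 4 * z.im * ζ.im := by
  rw [← normSq_eq_norm_sq, ← normSq_eq_norm_sq, normSq_apply, normSq_apply]
  simp only [sub_re, sub_im, conj_re, conj_im]
  ring

private lemma dist_lt {z ζ : ℂ} (hζ : 0 < ζ.im) (hz : 0 < z.im) : ‖z - ζ‖ < ‖z - conj ζ‖ := by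
  have h := dist_sq z ζ
  have h2 : 0 < z.im * ζ.im := mul_pos hz hζ
  nlinarith [norm_nonneg (z - ζ), norm_nonneg (z - conj ζ)]

theorem two_constants {G : ℂ → ℂ} (hG : DifferentiableOn ℂ G {z | 0 < z.im})
    (h1 : ∀ z : ℂ, 0 < z.im → ‖G z‖ ≤ 1) {ζ : ℂ} (hζ : 0 < ζ.im) {κ A : ℝ} (hκ : 0 < κ)
    (hκ1 : κ < 1) (hA : 0 ≤ A)
    (hs : ∀ z : ℂ, 0 < z.im → ‖z - ζ‖ = κ * ‖z - conj ζ‖ → ‖G z‖ ≤ Real.exp (-A))
    {z : ℂ} (hz : 0 < z.im) (hz1 : κ * ‖z - conj ζ‖ ≤ ‖z - ζ‖) :
    ‖G z‖ ≤ (‖z - ζ‖ / ‖z - conj ζ‖) ^ (A / Real.log (1 / κ)) := by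
  have hlt := dist_lt hζ hz
  have hpos : 0 < ‖z - conj ζ‖ := lt_of_le_of_lt (norm_nonneg _) hlt
  set w : ℂ := (z - ζ) / (z - conj ζ) with hw
  have hwn : ‖w‖ = ‖z - ζ‖ / ‖z - conj ζ‖ := by rw [hw, norm_div]
  have hwκ : κ ≤ ‖w‖ := by rw [hwn, le_div_iff₀ hpos]; exact hz1
  have hw1 : ‖w‖ < 1 := by rw [hwn, div_lt_one hpos]; exact hlt
  have hw0 : w ≠ 0 := by
    intro h
    rw [h, norm_zero] at hwκ
    linarith
  set x := Real.log ‖w‖ with hx
  set l := Real.log κ with hl
  have hlx : l ≤ x := Real.log_le_log hκ hwκ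
  have hx0 : x < 0 := Real.log_neg (lt_of_lt_of_le hκ hwκ) hw1
  have hl0 : l < 0 := Real.log_neg hκ hκ1
  set f : ℂ → ℂ := fun v => G (invMap ζ (Complex.exp v)) with hf
  have hexp : ∀ v : ℂ, v.re < 0 → ‖Complex.exp v‖ < 1 := by
    intro v hv
    rw [Complex.norm_exp]
    rw [← Real.exp_zero]; exact Real.exp_lt_exp.2 hv
  have hfd : DifferentiableOn ℂ f {v | v.re < 0} := by
    apply hG.comp
    · intro v hv
      have h := one_sub_ne (hexp v hv)
      apply DifferentiableAt.differentiableWithinAt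
      unfold invMap
      have hE : DifferentiableAt ℂ Complex.exp v := Complex.differentiableAt_exp
      exact (((differentiableAt_const _).sub ((differentiableAt_const _).mul hE))).div
        ((differentiableAt_const _).sub hE) h
    · intro v hv
      exact invMap_im (hexp v hv) hζ
  have hf1 : ∀ v : ℂ, v.re < 0 → ‖f v‖ ≤ 1 := fun v hv => h1 _ (invMap_im (hexp v hv) hζ)
  have hfl : ∀ v : ℂ, v.re = l → ‖f v‖ ≤ Real.exp (-A) := by
    intro v hv
    have hv0 : v.re < 0 := by rw [hv]; exact hl0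
    apply hs _ (invMap_im (hexp v hv0) hζ)
    rw [invMap_sub (hexp v hv0), invMap_sub_conj (hexp v hv0), norm_div, norm_mul, norm_div,
      Complex.norm_exp, hv, hl, Real.exp_log hκ]
    ring
  have hfv : f (Complex.log w) = G z := by
    simp only [hf]
    rw [Complex.exp_log hw0, hw, invMap_eq hζ hz]
  have hre : (Complex.log w).re = x := by rw [Complex.log_re]
  have key : ∀ u : ℝ, x < u → u < 0 →
      ‖G z‖ ≤ Real.exp (-A) ^ (1 - (x - l) / (u - l)) := by
    intro u hxu hu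
    have hlu : l < u := lt_of_le_of_lt hlx hxu
    have hsub : Complex.HadamardThreeLines.verticalClosedStrip l u ⊆ {v | v.re < 0} := by
      intro v hv
      exact lt_of_le_of_lt hv.2 hu
    have hcl : closure (Complex.HadamardThreeLines.verticalStrip l u) ⊆
        Complex.HadamardThreeLines.verticalClosedStrip l u := by
      apply closure_minimal
      · intro v hv
        exact ⟨hv.1.le, hv.2.le⟩
      · exact isClosed_Icc.preimage Complex.continuous_re
    have h := Complex.HadamardThreeLines.norm_le_interp_of_mem_verticalClosedStrip' (f := f)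
      (z := Complex.log w) (a := Real.exp (-A)) (b := 1) hlu ?_ ?_ ?_ ?_ ?_
    · rw [hfv, hre, Real.one_rpow, mul_one] at h
      exact h
    · show (Complex.log w).re ∈ Icc l u
      rw [hre]
      exact ⟨hlx, hxu.le⟩
    · constructor
      · exact hfd.mono (fun v hv => hsub (hcl (subset_closure hv)))
      · exact (hfd.mono (fun v hv => hsub (hcl hv))).continuousOn
    · refine ⟨1, ?_⟩
      rintro _ ⟨v, hv, rfl⟩
      exact hf1 v (hsub hv)
    · intro v hv
      exact hfl v hv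
    · intro v hv
      have : v.re = u := hv
      exact hf1 v (by rw [this]; exact hu)
  have hlim : Tendsto (fun u : ℝ => Real.exp (-A) ^ (1 - (x - l) / (u - l))) (𝓝[<] 0)
      (𝓝 (Real.exp (-A) ^ (1 - (x - l) / (0 - l)))) := by
    apply Tendsto.mono_left _ nhdsWithin_le_nhds
    have hc : ContinuousAt (fun u : ℝ => 1 - (x - l) / (u - l)) 0 := by
      apply ContinuousAt.sub continuousAt_const
      apply ContinuousAt.div continuousAt_const (by fun_prop)
      simpa using hl0.ne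
    exact (ContinuousAt.rpow continuousAt_const hc (Or.inl (Real.exp_pos _).ne'))
  have hev : ∀ᶠ u : ℝ in 𝓝[<] 0, ‖G z‖ ≤ Real.exp (-A) ^ (1 - (x - l) / (u - l)) := by
    have : Ioo x 0 ∈ 𝓝[<] (0 : ℝ) := Ioo_mem_nhdsLT hx0
    filter_upwards [this] with u hu
    exact key u hu.1 hu.2
  have hfin := ge_of_tendsto hlim hev
  refine hfin.trans (le_of_eq ?_)
  rw [← hwn, Real.rpow_def_of_pos (lt_of_lt_of_le hκ hwκ), Real.rpow_def_of_pos (Real.exp_pos _),
    Real.log_exp, ← hx, one_div, Real.log_inv, ← hl]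
  congr 1
  have hl0' : l ≠ 0 := hl0.ne
  rw [zero_sub]
  field_simp
  ring

theorem half_plane_decay {G : ℂ → ℂ} (hG : DifferentiableOn ℂ G {z | 0 < z.im})
    (h1 : ∀ z : ℂ, 0 < z.im → ‖G z‖ ≤ 1) {r θ₀ η A : ℝ} (hr : 0 < r) (hθ : θ₀ ∈ Ioo 0 π)
    (hη : 0 < η) (hη1 : η ≤ 1) (hA : 0 ≤ A)
    (hs : ∀ z : ℂ, 0 < z.im → ‖z - (r : ℂ) * Complex.exp ((θ₀ : ℂ) * I)‖ ≤ η * r →
      ‖G z‖ ≤ Real.exp (-A)) {z : ℂ} (hz : 0 < z.im) (hzr : ‖z‖ ≤ r) :
    ‖G z‖ ≤ Real.exp (-(A * Real.sin θ₀ / (2 * Real.log (4 / η)) * (z.im / r))) := by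
  set ζ : ℂ := (r : ℂ) * Complex.exp ((θ₀ : ℂ) * I) with hζdef
  have hsin : 0 < Real.sin θ₀ := Real.sin_pos_of_pos_of_lt_pi hθ.1 hθ.2
  have hζim : ζ.im = r * Real.sin θ₀ := by
    rw [hζdef, Complex.im_ofReal_mul, Complex.exp_ofReal_mul_I_im]
  have hζ : 0 < ζ.im := by rw [hζim]; positivity
  have hζn : ‖ζ‖ = r := by
    rw [hζdef, norm_mul, Complex.norm_exp_ofReal_mul_I, mul_one, Complex.norm_real,
      Real.norm_of_nonneg hr.le]
  have hcn : ‖conj ζ‖ = r := by rw [Complex.norm_conj, hζn]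
  have hlog4 : 1 ≤ Real.log (4 / η) := by
    have h4 : (4 : ℝ) ≤ 4 / η := by
      rw [le_div_iff₀ hη]; nlinarith
    have h5 : Real.log 4 ≤ Real.log (4 / η) := Real.log_le_log (by norm_num) h4
    have h6 : (1 : ℝ) ≤ Real.log 4 := by
      have : (4 : ℝ) = 2 ^ 2 := by norm_num
      rw [this, Real.log_pow]
      have := Real.log_two_gt_d9
      push_cast
      linarith
    linarith
  have hz2 : ‖z - conj ζ‖ ≤ 2 * r := by
    calc ‖z - conj ζ‖ ≤ ‖z‖ + ‖conj ζ‖ := norm_sub_le _ _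
      _ ≤ r + r := by rw [hcn]; linarith
      _ = 2 * r := by ring
  have hlt := dist_lt hζ hz
  have hpos : 0 < ‖z - conj ζ‖ := lt_of_le_of_lt (norm_nonneg _) hlt
  have himr : z.im ≤ r := (le_trans (le_abs_self _) (Complex.abs_im_le_norm z)).trans hzr
  rcases le_or_gt (η / 4 * ‖z - conj ζ‖) ‖z - ζ‖ with hcase | hcase
  · have hmain := two_constants hG h1 hζ (κ := η / 4) (A := A) (by positivity) (by linarith) hA
      (fun y hy hy2 => hs y hy ?_) hz hcase
    · refine hmain.trans ?_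
      have e4 : 1 / (η / 4) = 4 / η := by rw [one_div_div]
      rw [e4]
      set p := A / Real.log (4 / η) with hp
      have hp0 : 0 ≤ p := div_nonneg hA (by linarith)
      set q := ‖z - ζ‖ / ‖z - conj ζ‖ with hq
      have hq0 : 0 ≤ q := by positivity
      have hq2 : q ^ 2 ≤ 1 - z.im * Real.sin θ₀ / r := by
        rw [hq, div_pow, dist_sq, hζim, sub_div, div_self (by positivity)]
        have : z.im * Real.sin θ₀ / r ≤ 4 * z.im * (r * Real.sin θ₀) / ‖z - conj ζ‖ ^ 2 := by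
          rw [div_le_div_iff₀ hr (by positivity)]
          have h7 : ‖z - conj ζ‖ ^ 2 ≤ 4 * r ^ 2 := by nlinarith
          have h8 : 0 ≤ z.im * Real.sin θ₀ := by positivity
          nlinarith
        linarith
      have hq3 : q ^ 2 ≤ Real.exp (-(z.im * Real.sin θ₀ / r)) := by
        refine hq2.trans ?_
        have := Real.add_one_le_exp (-(z.im * Real.sin θ₀ / r))
        linarith
      have e5 : q ^ p = (q ^ 2) ^ (p / 2) := by
        rw [← Real.rpow_natCast, ← Real.rpow_mul hq0]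
        congr 1
        push_cast
        ring
      rw [e5]
      calc (q ^ 2) ^ (p / 2) ≤ Real.exp (-(z.im * Real.sin θ₀ / r)) ^ (p / 2) :=
            Real.rpow_le_rpow (by positivity) hq3 (by positivity)
        _ = Real.exp (-(A * Real.sin θ₀ / (2 * Real.log (4 / η)) * (z.im / r))) := by
            rw [← Real.exp_mul]
            congr 1
            rw [hp]
            have : Real.log (4 / η) ≠ 0 := by linarith
            field_simp
    · have h9 : ‖y - conj ζ‖ ≤ ‖y - ζ‖ + 2 * r := by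
        calc ‖y - conj ζ‖ = ‖(y - ζ) + (ζ - conj ζ)‖ := by congr 1; ring
          _ ≤ ‖y - ζ‖ + ‖ζ - conj ζ‖ := norm_add_le _ _
          _ ≤ ‖y - ζ‖ + (‖ζ‖ + ‖conj ζ‖) := by gcongr; exact norm_sub_le _ _
          _ = ‖y - ζ‖ + 2 * r := by rw [hζn, hcn]; ring
      have h10 := norm_nonneg (y - conj ζ)
      rw [hy2] at h9 ⊢
      have h11 : η / 4 * ‖y - conj ζ‖ ≤ 1 / 4 * ‖y - conj ζ‖ := by
        apply mul_le_mul_of_nonneg_right _ h10
        linarith
      have h12 : ‖y - conj ζ‖ ≤ 8 / 3 * r := by linarith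
      calc η / 4 * ‖y - conj ζ‖ ≤ η / 4 * (8 / 3 * r) := by gcongr
        _ ≤ η * r := by nlinarith [mul_pos hη hr]
  · have h3 : ‖G z‖ ≤ Real.exp (-A) := by
      apply hs z hz
      have : η / 4 * ‖z - conj ζ‖ ≤ η / 4 * (2 * r) := by gcongr
      nlinarith
    refine h3.trans ?_
    apply Real.exp_le_exp.2
    apply neg_le_neg
    have h11 : z.im / r ≤ 1 := (div_le_one hr).2 himr
    have h12 : 0 ≤ z.im / r := by positivity
    have h13 : Real.sin θ₀ ≤ 1 := Real.sin_le_one _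
    have h14 : A * Real.sin θ₀ / (2 * Real.log (4 / η)) ≤ A := by
      rw [div_le_iff₀ (by linarith)]
      nlinarith
    have h15 : 0 ≤ A * Real.sin θ₀ / (2 * Real.log (4 / η)) :=
      div_nonneg (by positivity) (by linarith)
    calc A * Real.sin θ₀ / (2 * Real.log (4 / η)) * (z.im / r) ≤
        A * Real.sin θ₀ / (2 * Real.log (4 / η)) * 1 := by gcongr
      _ ≤ A := by linarith

theorem harnack {φ : ℂ → ℂ} {c : ℂ} {R M : ℝ} (hR : 0 < R) (hM : 0 < M)
    (hφ : DifferentiableOn ℂ φ (Metric.ball c R)) (h0 : ∀ z ∈ Metric.ball c R, φ z ≠ 0)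
    (hb : ∀ z ∈ Metric.ball c R, ‖φ z‖ ≤ M) {z : ℂ} (hz : z ∈ Metric.ball c R) :
    Real.log ‖φ c‖ - 2 * ‖z - c‖ / (R - ‖z - c‖) * (Real.log M - Real.log ‖φ c‖) ≤
      Real.log ‖φ z‖ := by
  have hc : c ∈ Metric.ball c R := Metric.mem_ball_self hR
  have hq : DifferentiableOn ℂ (fun z => deriv φ z / φ z) (Metric.ball c R) :=
    (hφ.deriv Metric.isOpen_ball).div hφ h0
  obtain ⟨L, hLc, hL⟩ := hq.isExactOn_ball.with_val_at c 0
  -- `φ = φ c * exp L`
  have hexp : ∀ y ∈ Metric.ball c R, φ y = φ c * Complex.exp (L y) := by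
    intro y hy
    have hd : ∀ x ∈ Metric.ball c R, HasDerivAt (fun x => φ x * Complex.exp (-L x)) 0 x := by
      intro x hx
      have h1 : HasDerivAt φ (deriv φ x) x :=
        (hφ.differentiableAt (Metric.isOpen_ball.mem_nhds hx)).hasDerivAt
      have h2 : HasDerivAt (fun x => Complex.exp (-L x))
          (Complex.exp (-L x) * (-(deriv φ x / φ x))) x := ((hL x hx).neg).cexp
      have h3 := h1.mul h2
      have h4 := h0 x hx
      have h5 : φ x * (Complex.exp (-L x) * -(deriv φ x / φ x)) =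
          -(deriv φ x * Complex.exp (-L x)) := by
        rw [mul_neg, mul_neg, ← mul_assoc, mul_comm (φ x), mul_assoc, mul_div_cancel₀ _ h4]
        ring
      rw [h5, add_neg_cancel] at h3
      exact h3
    have hcst := Metric.isOpen_ball.is_const_of_deriv_eq_zero
      (convex_ball c R).isPreconnected
      (f := fun x => φ x * Complex.exp (-L x))
      (fun x hx => (hd x hx).differentiableAt.differentiableWithinAt)
      (fun x hx => (hd x hx).deriv) hy hc
    simp only [hLc, neg_zero, Complex.exp_zero, mul_one] at hcst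
    rw [← hcst, mul_assoc, ← Complex.exp_add, neg_add_cancel, Complex.exp_zero, mul_one]
  have hφc : 0 < ‖φ c‖ := norm_pos_iff.2 (h0 c hc)
  have hre : ∀ y ∈ Metric.ball c R, (L y).re = Real.log ‖φ y‖ - Real.log ‖φ c‖ := by
    intro y hy
    rw [hexp y hy, norm_mul, Complex.norm_exp, Real.log_mul hφc.ne' (Real.exp_pos _).ne',
      Real.log_exp]
    ring
  set m := Real.log M - Real.log ‖φ c‖ with hm
  have hm0 : 0 ≤ m := sub_nonneg.2 (Real.log_le_log hφc (hb c hc))
  have hle : ∀ y ∈ Metric.ball c R, (L y).re ≤ m := by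
    intro y hy
    rw [hre y hy]
    have := Real.log_le_log (norm_pos_iff.2 (h0 y hy)) (hb y hy)
    linarith
  have hzR : ‖z - c‖ < R := by rwa [← dist_eq_norm, ← Metric.mem_ball]
  have hden : 0 < R - ‖z - c‖ := by linarith
  have hBC : ∀ ε : ℝ, 0 < ε → ‖L z‖ ≤ 2 * (m + ε) * ‖z - c‖ / (R - ‖z - c‖) := by
    intro ε hε
    have hmaps : MapsTo (fun y : ℂ => y + c) (Metric.ball 0 R) (Metric.ball c R) := by
      intro y hy
      rw [Metric.mem_ball, dist_eq_norm] at hy ⊢
      simpa using hy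
    have hLd : DifferentiableOn ℂ L (Metric.ball c R) :=
      fun x hx => (hL x hx).differentiableAt.differentiableWithinAt
    have := borelCaratheodory_zero (f := fun y => L (y + c)) (M := m + ε) (R := R) (z := z - c)
      (by positivity) (hLd.comp (by fun_prop) hmaps) ?_ hR ?_ ?_
    · simpa using this
    · intro y hy
      have := hle _ (hmaps hy)
      show (L (y + c)).re ≤ m + ε
      linarith
    · rw [Metric.mem_ball, dist_zero_right]; exact hzR
    · simpa using hLc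
  have hfin : ‖L z‖ ≤ 2 * m * ‖z - c‖ / (R - ‖z - c‖) := by
    apply le_of_forall_pos_le_add
    intro ε hε
    set K := 2 * ‖z - c‖ / (R - ‖z - c‖) with hK
    have hK0 : 0 ≤ K := by positivity
    have h := hBC (ε / (K + 1)) (by positivity)
    have e1 : 2 * (m + ε / (K + 1)) * ‖z - c‖ / (R - ‖z - c‖) = K * m + K * (ε / (K + 1)) := by
      rw [hK]; ring
    have e2 : 2 * m * ‖z - c‖ / (R - ‖z - c‖) = K * m := by rw [hK]; ring
    rw [e1] at h
    rw [e2]
    have h2 : K * (ε / (K + 1)) ≤ ε := by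
      rw [mul_div_assoc', div_le_iff₀ (by positivity)]
      nlinarith
    linarith
  have h5 : -‖L z‖ ≤ (L z).re := by
    have := Complex.abs_re_le_norm (L z)
    exact (abs_le.1 this).1
  have h6 := hre z hz
  have e3 : 2 * ‖z - c‖ / (R - ‖z - c‖) * m = 2 * m * ‖z - c‖ / (R - ‖z - c‖) := by ring
  rw [e3]
  linarith

end HBInd
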