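import Pool.Agent.HBInd.Uniform
import Pool.Agent.HBInd.Three

/-!
# The relation between the indicator in the upper and in the lower half-plane, order `≥ 1`

Let `f` be in `E_ρ` with real valued indicator `g`, `1 ≤ ρ`, `fs z = conj (f (conj z))` (no zeros in the
upper half-plane), `F = f / fs` on the upper half-plane, so `|F| ≤ 1`.

* `star_near`: if `|fs| ≥ e^{a r^ρ}` at `ray r θ₀` then `|fs| ≥ e^{(a - ε) r^ρ}` on the disc of radius
  `η r` around it, `η` small, `r` large: `harnack` in the disc of radius `r sin θ₀` with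
  `M = exp (K (2 r)^ρ)` (`finite_type`, `|fs z| = |f (conj z)|`).
* `key`: if `G` is analytic and bounded by `1` in the upper half-plane and for some `θ₀ ∈ (0, π)`, `η`,
  `δ > 0` there are arbitrarily large `r` with `|G| ≤ e^{-δ r^ρ}` on the disc `|z - ray r θ₀| ≤ η r`, then
  `|G z| ≤ exp (-δ' r^{ρ-1} Im z)` for `|z| ≤ r` and these `r` (`half_plane_decay`); so, for `ρ > 1`,
  `G = 0`, and for `ρ = 1`, `|G z| ≤ e^{-δ' Im z}` in the half-plane.
* `reflect_gt_one` (`1 < ρ`): `≤` is `InClass.ind_le`. If `g θ₀ < g (-θ₀)`, then with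
  `3 δ = g (-θ₀) - g θ₀` (up to a factor) for arbitrarily large `r`: `|fs (ray r θ₀)| ≥ e^{(g(-θ₀) - δ) r^ρ}`
  (`frequently_of_lt_ind`), so `|fs| ≥ e^{(g(-θ₀) - 3δ/2) r^ρ}` nearby (`star_near`), while
  `|f| ≤ e^{(g θ₀ + δ/2) r^ρ}` nearby (`ind_near`), so `|F| ≤ e^{-δ r^ρ}` there; `key` gives `F = 0` on the
  upper half-plane, so `f = 0` there, contradiction with `zero_free` (identity theorem) or with
  `ind ρ f θ₀ ≠ ⊥`.
* `reflect_one` (`ρ = 1`): let `c` be the maximum of the `c ≥ 0` with `|F z| ≤ e^{-2 c Im z}` on the upper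
  half-plane (a closed set containing `0`, bounded as `F ≠ 0`). `|f| ≤ |fs| e^{-2 c Im z}` gives
  `g θ ≤ g (-θ) - 2 c sin θ`. If this is strict at some `θ₀`, then `G z = F z e^{-2 i c z}` is bounded by `1`
  and for arbitrarily large `r` it is `≤ e^{-δ r}` on discs as above, so `|G z| ≤ e^{-δ' Im z}`,
  contradicting the maximality of `c`.
-/

namespace HBInd

open Complex Filter Topology Set Bornology
open scoped Real ComplexConjugate

theorem star_near {ρ : ℝ} {f : ℂ → ℂ} (hf : InClass ρ f) (hρ : 0 < ρ) {g : ℝ → ℝ}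
    (hg : ∀ θ, ind ρ f θ = g θ) {θ₀ : ℝ} (hθ : θ₀ ∈ Ioo 0 π) (a : ℝ) {ε : ℝ} (hε : 0 < ε) :
    ∃ η : ℝ, 0 < η ∧ η < 1 ∧ ∀ᶠ r : ℝ in atTop,
      Real.exp (a * r ^ ρ) ≤ ‖f (ray r (-θ₀))‖ → ∀ z : ℂ, ‖z - ray r θ₀‖ ≤ η * r →
        0 < z.im ∧ Real.exp ((a - ε) * r ^ ρ) ≤ ‖f (conj z)‖ := by
  obtain ⟨K, hK, hft⟩ := finite_type hf hρ hg
  have hsin : 0 < Real.sin θ₀ := Real.sin_pos_of_pos_of_lt_pi hθ.1 hθ.2
  have hsin1 : Real.sin θ₀ ≤ 1 := Real.sin_le_one _
  set s := Real.sin θ₀ with hs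
  set L : ℝ := K * 2 ^ ρ + |a| + 1 with hL
  have h2ρ : (0 : ℝ) < 2 ^ ρ := Real.rpow_pos_of_pos two_pos _
  have hL0 : 0 < L := by rw [hL]; positivity
  set η : ℝ := min (s / 2) (ε * s / (4 * L)) with hη
  have hη0 : 0 < η := lt_min (by positivity) (by positivity)
  have hηs : η ≤ s / 2 := min_le_left _ _
  have hηL : 4 * L * η ≤ ε * s := by
    have h : η ≤ ε * s / (4 * L) := min_le_right _ _
    rw [le_div_iff₀ (by positivity)] at h
    linarith
  have hev2 : Tendsto (fun r : ℝ => 2 * r) atTop atTop :=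
    tendsto_id.const_mul_atTop two_pos
  refine ⟨η, hη0, by linarith, ?_⟩
  filter_upwards [hev2.eventually hft, eventually_gt_atTop 0] with r hr hr0 hlow z hz
  have hrρ : 0 < r ^ ρ := Real.rpow_pos_of_pos hr0 _
  have him : 0 < z.im := by
    have h6 : (ray r θ₀ - z).im ≤ ‖z - ray r θ₀‖ := by
      rw [norm_sub_rev]
      exact (le_abs_self _).trans (Complex.abs_im_le_norm _)
    rw [Complex.sub_im, ray_im] at h6
    have h7 : η * r ≤ s / 2 * r := mul_le_mul_of_nonneg_right hηs hr0.le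
    nlinarith
  refine ⟨him, ?_⟩
  set c : ℂ := ray r (-θ₀) with hc
  have hcim : c.im = -(r * s) := by rw [hc, ray_im, Real.sin_neg, hs]; ring
  have hcn : ‖c‖ = r := norm_ray hr0.le _
  have hball : ∀ y ∈ Metric.ball c (r * s), y.im < 0 := by
    intro y hy
    rw [Metric.mem_ball, dist_eq_norm] at hy
    have h6 : (y - c).im ≤ ‖y - c‖ := (le_abs_self _).trans (Complex.abs_im_le_norm _)
    rw [Complex.sub_im, hcim] at h6
    linarith
  have hd : ‖conj z - c‖ ≤ η * r := by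
    have e : conj z - c = conj (z - ray r θ₀) := by rw [map_sub, conj_ray]
    rw [e, Complex.norm_conj]
    exact hz
  have hηr : η * r ≤ s / 2 * r := mul_le_mul_of_nonneg_right hηs hr0.le
  have hsr : 0 < s * r := by positivity
  have hmem : conj z ∈ Metric.ball c (r * s) := by
    rw [Metric.mem_ball, dist_eq_norm]
    nlinarith
  have hfz : 0 < ‖f (conj z)‖ := norm_pos_iff.2 (hf.zero_free _ (hball _ hmem))
  have hH := harnack (φ := f) (c := c) (R := r * s) (M := Real.exp (K * (2 * r) ^ ρ))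
    (by positivity) (Real.exp_pos _) hf.entire.differentiableOn
    (fun y hy => hf.zero_free _ (hball y hy)) (by
      intro y hy
      apply hr
      rw [Metric.mem_ball, dist_eq_norm] at hy
      have h8 : ‖y‖ ≤ ‖y - c‖ + ‖c‖ := by
        calc ‖y‖ = ‖(y - c) + c‖ := by rw [sub_add_cancel]
          _ ≤ _ := norm_add_le _ _
      nlinarith) hmem
  rw [Real.log_exp, Real.mul_rpow two_pos.le hr0.le] at hH
  have hlogc : a * r ^ ρ ≤ Real.log ‖f c‖ := by
    rw [Real.le_log_iff_exp_le (lt_of_lt_of_le (Real.exp_pos _) hlow)]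
    exact hlow
  have hcc : c ∈ Metric.ball c (r * s) := Metric.mem_ball_self (by positivity)
  have hlogc2 : Real.log ‖f c‖ ≤ K * (2 ^ ρ * r ^ ρ) := by
    rw [← Real.mul_rpow two_pos.le hr0.le, Real.log_le_iff_le_exp
      (lt_of_lt_of_le (Real.exp_pos _) hlow)]
    apply hr
    rw [hcn]
    linarith
  set t : ℝ := ‖conj z - c‖ with ht
  have ht0 : 0 ≤ t := norm_nonneg _
  have hκ : 2 * t / (r * s - t) ≤ 4 * η / s := by
    rw [div_le_div_iff₀ (by nlinarith) hsin]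
    nlinarith [mul_le_mul_of_nonneg_right hd hsin.le, mul_le_mul_of_nonneg_left hd hη0.le,
      mul_pos hη0 hr0]
  have hm0 : 0 ≤ K * (2 ^ ρ * r ^ ρ) - Real.log ‖f c‖ := by linarith
  have hm1 : K * (2 ^ ρ * r ^ ρ) - Real.log ‖f c‖ ≤ L * r ^ ρ := by
    have h9 : -|a| * r ^ ρ ≤ a * r ^ ρ := mul_le_mul_of_nonneg_right (neg_abs_le a) hrρ.le
    rw [hL]
    nlinarith
  have hprod : 2 * t / (r * s - t) * (K * (2 ^ ρ * r ^ ρ) - Real.log ‖f c‖) ≤ ε * r ^ ρ := by
    calc 2 * t / (r * s - t) * (K * (2 ^ ρ * r ^ ρ) - Real.log ‖f c‖)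
        ≤ 4 * η / s * (L * r ^ ρ) :=
          mul_le_mul hκ hm1 hm0 (by positivity)
      _ = (4 * L * η) / s * r ^ ρ := by ring
      _ ≤ ε * r ^ ρ := by
          apply mul_le_mul_of_nonneg_right _ hrρ.le
          rw [div_le_iff₀ hsin]
          exact hηL
  rw [← Real.le_log_iff_exp_le hfz]
  linarith

theorem key_one {G : ℂ → ℂ} (hG : DifferentiableOn ℂ G {z | 0 < z.im})
    (h1 : ∀ z : ℂ, 0 < z.im → ‖G z‖ ≤ 1) {θ₀ η δ : ℝ} (hθ : θ₀ ∈ Ioo 0 π)
    (hη : 0 < η) (hη1 : η ≤ 1) (hδ : 0 < δ)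
    (h : ∃ᶠ r : ℝ in atTop, ∀ z : ℂ, 0 < z.im → ‖z - ray r θ₀‖ ≤ η * r →
      ‖G z‖ ≤ Real.exp (-(δ * r))) :
    ∃ δ' : ℝ, 0 < δ' ∧ ∀ z : ℂ, 0 < z.im → ‖G z‖ ≤ Real.exp (-(δ' * z.im)) := by
  have hsin : 0 < Real.sin θ₀ := Real.sin_pos_of_pos_of_lt_pi hθ.1 hθ.2
  have hlog : 0 < Real.log (4 / η) := by
    apply Real.log_pos
    rw [lt_div_iff₀ hη]
    linarith
  refine ⟨δ * Real.sin θ₀ / (2 * Real.log (4 / η)), by positivity, fun z hz => ?_⟩
  obtain ⟨r, hr, hr0, hrz⟩ :=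
    (h.and_eventually ((eventually_gt_atTop 0).and (eventually_ge_atTop ‖z‖))).exists
  have hmain := half_plane_decay hG h1 hr0 hθ hη hη1 (A := δ * r) (by positivity)
    (fun y hy hy2 => hr y hy hy2) hz hrz
  refine hmain.trans (le_of_eq ?_)
  congr 2
  field_simp

theorem key_gt_one {ρ : ℝ} (hρ : 1 < ρ) {G : ℂ → ℂ} (hG : DifferentiableOn ℂ G {z | 0 < z.im})
    (h1 : ∀ z : ℂ, 0 < z.im → ‖G z‖ ≤ 1) {θ₀ η δ : ℝ} (hθ : θ₀ ∈ Ioo 0 π)
    (hη : 0 < η) (hη1 : η ≤ 1) (hδ : 0 < δ)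
    (h : ∃ᶠ r : ℝ in atTop, ∀ z : ℂ, 0 < z.im → ‖z - ray r θ₀‖ ≤ η * r →
      ‖G z‖ ≤ Real.exp (-(δ * r ^ ρ))) :
    ∀ z : ℂ, 0 < z.im → G z = 0 := by
  intro z hz
  have hsin : 0 < Real.sin θ₀ := Real.sin_pos_of_pos_of_lt_pi hθ.1 hθ.2
  have hlog : 0 < Real.log (4 / η) := by
    apply Real.log_pos
    rw [lt_div_iff₀ hη]
    linarith
  set c : ℝ := δ * Real.sin θ₀ / (2 * Real.log (4 / η)) * z.im with hc
  have hc0 : 0 < c := by rw [hc]; positivity
  have hfr : ∃ᶠ r : ℝ in atTop, ‖G z‖ ≤ Real.exp (-(c * r ^ (ρ - 1))) := by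
    refine (h.and_eventually
      ((eventually_gt_atTop 0).and (eventually_ge_atTop ‖z‖))).mono ?_
    rintro r ⟨hr, hr0, hrz⟩
    have hmain := half_plane_decay hG h1 hr0 hθ hη hη1 (A := δ * r ^ ρ) (by positivity)
      (fun y hy hy2 => hr y hy hy2) hz hrz
    refine hmain.trans (le_of_eq ?_)
    congr 2
    rw [hc, Real.rpow_sub hr0, Real.rpow_one]
    field_simp
  have hlim : Tendsto (fun r : ℝ => Real.exp (-(c * r ^ (ρ - 1)))) atTop (𝓝 0) := by
    apply Real.tendsto_exp_atBot.comp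
    apply tendsto_neg_atTop_atBot.comp
    exact (tendsto_rpow_atTop (by linarith)).const_mul_atTop hc0
  have h3 : ‖G z‖ ≤ 0 := ge_of_tendsto_of_frequently hlim hfr
  exact norm_le_zero_iff.1 h3

/-- the quotient `F = f / fs` on the upper half-plane -/
noncomputable def reflQuot (f : ℂ → ℂ) (z : ℂ) : ℂ := f z / conj (f (conj z))

lemma reflQuot_diff {ρ : ℝ} {f : ℂ → ℂ} (hf : InClass ρ f) :
    DifferentiableOn ℂ (reflQuot f) {z | 0 < z.im} := by
  intro z hz'
  refine DifferentiableAt.differentiableWithinAt ?_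
  refine (hf.entire z).fun_div ?_ ?_
  · have h1 : DifferentiableAt ℂ f (conj z) := hf.entire _
    have h2 := differentiableAt_conj_conj_iff.2 h1
    exact h2
  · refine (map_ne_zero _).2 (hf.zero_free _ ?_)
    rw [Complex.conj_im]
    exact neg_neg_of_pos hz'

lemma reflQuot_norm (f : ℂ → ℂ) (z : ℂ) : ‖reflQuot f z‖ = ‖f z‖ / ‖f (conj z)‖ := by
  rw [reflQuot, norm_div, Complex.norm_conj]

lemma reflQuot_le {ρ : ℝ} {f : ℂ → ℂ} (hf : InClass ρ f) (z : ℂ) (hz : 0 < z.im) :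
    ‖reflQuot f z‖ ≤ 1 := by
  rw [reflQuot_norm]
  exact div_le_one_of_le₀ (hf.norm_le z hz) (norm_nonneg _)

/-- `f` is not identically zero on a ray where the indicator is real -/
lemma reflQuot_ne {ρ : ℝ} {f : ℂ → ℂ} (hf : InClass ρ f) {g : ℝ → ℝ}
    (hg : ∀ θ, ind ρ f θ = g θ) {θ : ℝ} (hθ : θ ∈ Ioo 0 π) :
    ¬ ∀ z : ℂ, 0 < z.im → reflQuot f z = 0 := by
  intro h
  have hsin : 0 < Real.sin θ := Real.sin_pos_of_pos_of_lt_pi hθ.1 hθ.2
  have h2 : ind ρ f θ ≤ ((g θ - 1 : ℝ) : EReal) := by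
    apply ind_le_of_eventually
    filter_upwards [eventually_gt_atTop 0] with r hr
    have him : 0 < (ray r θ).im := by rw [ray_im]; positivity
    have h3 := h _ him
    rw [reflQuot, div_eq_zero_iff] at h3
    rcases h3 with h3 | h3
    · rw [h3, norm_zero]
      exact (Real.exp_pos _).le
    · exfalso
      have h4 : f (conj (ray r θ)) ≠ 0 := by
        apply hf.zero_free
        rw [Complex.conj_im]
        linarith
      exact h4 ((map_eq_zero _).1 h3)
  rw [hg] at h2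
  have h3 : g θ ≤ g θ - 1 := by exact_mod_cast h2
  linarith

theorem reflect_gt_one {ρ : ℝ} {f : ℂ → ℂ} (hf : InClass ρ f) (hρ : 1 < ρ) {g : ℝ → ℝ}
    (hg : ∀ θ, ind ρ f θ = g θ) {θ : ℝ} (hθ : θ ∈ Ioo 0 π) : g (-θ) = g θ := by
  have hρ0 : 0 < ρ := by linarith
  have hle : g θ ≤ g (-θ) := by
    have := hf.ind_le hθ
    rw [hg, hg] at this
    exact_mod_cast this
  by_contra hne
  have hlt : g θ < g (-θ) := lt_of_le_of_ne hle (Ne.symm hne)
  set d : ℝ := g (-θ) - g θ with hd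
  have hd0 : 0 < d := by rw [hd]; linarith
  obtain ⟨η₁, hη₁, hη₁1, hs⟩ := star_near hf hρ0 hg hθ (g (-θ) - d / 8) (ε := d / 8) (by linarith)
  obtain ⟨η₂, hη₂, hη₂1, hn⟩ := ind_near hf hρ0 hg θ (ε := d / 8) (by linarith)
  have hfr : ∃ᶠ r : ℝ in atTop,
      Real.exp ((g (-θ) - d / 8) * r ^ ρ) < ‖f (ray r (-θ))‖ := by
    apply frequently_of_lt_ind
    rw [hg]
    exact_mod_cast (by linarith : g (-θ) - d / 8 < g (-θ))
  refine reflQuot_ne hf hg hθ (key_gt_one hρ (reflQuot_diff hf) (reflQuot_le hf) hθ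
    (η := min η₁ η₂) (δ := 5 * d / 8) (lt_min hη₁ hη₂) ((min_le_left _ _).trans hη₁1.le)
    (by linarith) ?_)
  refine (hfr.and_eventually (hs.and (hn.and (eventually_gt_atTop 0)))).mono ?_
  rintro r ⟨h1, h2, h3, hr0⟩ z hz hzr
  have hz1 : ‖z - ray r θ‖ ≤ η₁ * r :=
    hzr.trans (mul_le_mul_of_nonneg_right (min_le_left _ _) hr0.le)
  have hz2 : ‖z - ray r θ‖ ≤ η₂ * r :=
    hzr.trans (mul_le_mul_of_nonneg_right (min_le_right _ _) hr0.le)
  obtain ⟨-, h4⟩ := h2 h1.le z hz1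
  have h5 := h3 z hz2
  rw [reflQuot_norm, div_le_iff₀ (lt_of_lt_of_le (Real.exp_pos _) h4)]
  calc ‖f z‖ ≤ Real.exp ((g θ + d / 8) * r ^ ρ) := h5
    _ = Real.exp (-(5 * d / 8 * r ^ ρ)) * Real.exp ((g (-θ) - d / 8 - d / 8) * r ^ ρ) := by
        rw [← Real.exp_add]
        congr 1
        rw [hd]
        ring
    _ ≤ Real.exp (-(5 * d / 8 * r ^ ρ)) * ‖f (conj z)‖ :=
        mul_le_mul_of_nonneg_left h4 (Real.exp_pos _).le

theorem reflect_one {f : ℂ → ℂ} (hf : InClass 1 f) {g : ℝ → ℝ} (hg : ∀ θ, ind 1 f θ = g θ) :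
    ∃ c : ℝ, 0 ≤ c ∧ ∀ θ ∈ Ioo 0 π, g (-θ) = g θ + 2 * c * Real.sin θ := by
  set S : Set ℝ := {c | 0 ≤ c ∧ ∀ z : ℂ, 0 < z.im →
    ‖reflQuot f z‖ ≤ Real.exp (-(2 * c * z.im))} with hS
  have h0 : (0 : ℝ) ∈ S := ⟨le_rfl, fun z hz => by simpa using reflQuot_le hf z hz⟩
  have hcl : IsClosed S := by
    have e : S = Ici 0 ∩ ⋂ z : ℂ, ⋂ _ : 0 < z.im,
        {c : ℝ | ‖reflQuot f z‖ ≤ Real.exp (-(2 * c * z.im))} := by
      ext c
      simp only [hS, mem_ofPred_eq, mem_inter_iff, mem_Ici, mem_iInter]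
    rw [e]
    refine isClosed_Ici.inter (isClosed_iInter fun z => isClosed_iInter fun _ => ?_)
    exact isClosed_le continuous_const (by fun_prop)
  have hπ2 : π / 2 ∈ Ioo 0 π := ⟨by positivity, by linarith [Real.pi_pos]⟩
  have hbd : BddAbove S := by
    have h1 := reflQuot_ne hf hg hπ2
    push Not at h1
    obtain ⟨z, hz, hne⟩ := h1
    refine ⟨-Real.log ‖reflQuot f z‖ / (2 * z.im), ?_⟩
    rintro c ⟨-, hc⟩
    have h2 := hc z hz
    have h3 := Real.log_le_log (norm_pos_iff.2 hne) h2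
    rw [Real.log_exp] at h3
    rw [le_div_iff₀ (by positivity)]
    linarith
  have hmem : sSup S ∈ S := hcl.csSup_mem ⟨0, h0⟩ hbd
  set c : ℝ := sSup S with hcdef
  have hc0 : 0 ≤ c := hmem.1
  have hcF : ∀ z : ℂ, 0 < z.im → ‖reflQuot f z‖ ≤ Real.exp (-(2 * c * z.im)) := hmem.2
  refine ⟨c, hc0, fun θ hθ => ?_⟩
  have hsin : 0 < Real.sin θ := Real.sin_pos_of_pos_of_lt_pi hθ.1 hθ.2
  -- the easy inequality
  have hle : g θ + 2 * c * Real.sin θ ≤ g (-θ) := by
    apply le_of_forall_pos_le_add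
    intro ε hε
    have hup : ind 1 f (-θ) < ((g (-θ) + ε : ℝ) : EReal) := by
      rw [hg]
      exact_mod_cast (by linarith : g (-θ) < g (-θ) + ε)
    have h1 : ind 1 f θ ≤ ((g (-θ) + ε - 2 * c * Real.sin θ : ℝ) : EReal) := by
      apply ind_le_of_eventually
      filter_upwards [eventually_of_ind_lt hup, eventually_gt_atTop 0] with r hr hr0
      have him : 0 < (ray r θ).im := by rw [ray_im]; positivity
      have h2 := hcF _ him
      rw [reflQuot_norm, conj_ray] at h2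
      have hne : f (ray r (-θ)) ≠ 0 := by
        apply hf.zero_free
        rw [ray_im, Real.sin_neg]
        nlinarith
      rw [div_le_iff₀ (norm_pos_iff.2 hne)] at h2
      rw [Real.rpow_one] at hr ⊢
      calc ‖f (ray r θ)‖ ≤ Real.exp (-(2 * c * (ray r θ).im)) * ‖f (ray r (-θ))‖ := h2
        _ ≤ Real.exp (-(2 * c * (ray r θ).im)) * Real.exp ((g (-θ) + ε) * r) :=
            mul_le_mul_of_nonneg_left hr.le (Real.exp_pos _).le
        _ = Real.exp ((g (-θ) + ε - 2 * c * Real.sin θ) * r) := by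
            rw [← Real.exp_add, ray_im]
            congr 1
            ring
    rw [hg] at h1
    have h3 : g θ ≤ g (-θ) + ε - 2 * c * Real.sin θ := by exact_mod_cast h1
    linarith
  by_contra hne
  have hlt : g θ + 2 * c * Real.sin θ < g (-θ) := lt_of_le_of_ne hle (Ne.symm hne)
  set d : ℝ := g (-θ) - (g θ + 2 * c * Real.sin θ) with hd
  have hd0 : 0 < d := by rw [hd]; linarith
  obtain ⟨η₁, hη₁, hη₁1, hs⟩ := star_near hf one_pos hg hθ (g (-θ) - d / 8) (ε := d / 8)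
    (by linarith)
  obtain ⟨η₂, hη₂, hη₂1, hn⟩ := ind_near hf one_pos hg θ (ε := d / 8) (by linarith)
  have hfr : ∃ᶠ r : ℝ in atTop,
      Real.exp ((g (-θ) - d / 8) * r ^ (1 : ℝ)) < ‖f (ray r (-θ))‖ := by
    apply frequently_of_lt_ind
    rw [hg]
    exact_mod_cast (by linarith : g (-θ) - d / 8 < g (-θ))
  set η₃ : ℝ := d / (8 * (2 * c + 1)) with hη₃
  have hη₃0 : 0 < η₃ := by rw [hη₃]; positivity
  have hη₃1 : 2 * c * η₃ ≤ d / 8 := by
    have h1 : (2 * c + 1) * η₃ = d / 8 := by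
      rw [hη₃]
      field_simp
    linarith
  -- the function `G`
  set G : ℂ → ℂ := fun z => reflQuot f z * Complex.exp (-(2 * c * I * z)) with hG
  have hGn : ∀ z : ℂ, ‖G z‖ = ‖reflQuot f z‖ * Real.exp (2 * c * z.im) := by
    intro z
    rw [hG]
    simp only [norm_mul, Complex.norm_exp]
    congr 2
    simp [mul_assoc]
  have hGd : DifferentiableOn ℂ G {z | 0 < z.im} := by
    refine (reflQuot_diff hf).mul ?_
    fun_prop
  have hG1 : ∀ z : ℂ, 0 < z.im → ‖G z‖ ≤ 1 := by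
    intro z hz
    rw [hGn]
    calc ‖reflQuot f z‖ * Real.exp (2 * c * z.im)
        ≤ Real.exp (-(2 * c * z.im)) * Real.exp (2 * c * z.im) :=
          mul_le_mul_of_nonneg_right (hcF z hz) (Real.exp_pos _).le
      _ = 1 := by rw [← Real.exp_add, neg_add_cancel, Real.exp_zero]
  obtain ⟨δ', hδ', hdec⟩ := key_one hGd hG1 hθ (η := min (min η₁ η₂) η₃) (δ := d / 2)
    (lt_min (lt_min hη₁ hη₂) hη₃0)
    ((min_le_left _ _).trans ((min_le_left _ _).trans hη₁1.le)) (by linarith) (by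
      refine (hfr.and_eventually (hs.and (hn.and (eventually_gt_atTop 0)))).mono ?_
      rintro r ⟨h1, h2, h3, hr0⟩ z hz hzr
      have hz1 : ‖z - ray r θ‖ ≤ η₁ * r :=
        hzr.trans (mul_le_mul_of_nonneg_right ((min_le_left _ _).trans (min_le_left _ _)) hr0.le)
      have hz2 : ‖z - ray r θ‖ ≤ η₂ * r :=
        hzr.trans (mul_le_mul_of_nonneg_right ((min_le_left _ _).trans (min_le_right _ _)) hr0.le)
      have hz3 : ‖z - ray r θ‖ ≤ η₃ * r :=
        hzr.trans (mul_le_mul_of_nonneg_right (min_le_right _ _) hr0.le)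
      obtain ⟨-, h4⟩ := h2 h1.le z hz1
      have h5 := h3 z hz2
      rw [Real.rpow_one] at h4 h5
      have him : z.im ≤ r * Real.sin θ + η₃ * r := by
        have h6 : (z - ray r θ).im ≤ ‖z - ray r θ‖ :=
          (le_abs_self _).trans (Complex.abs_im_le_norm _)
        rw [Complex.sub_im, ray_im] at h6
        linarith
      rw [hGn, reflQuot_norm]
      have h7 : ‖f z‖ / ‖f (conj z)‖ ≤ Real.exp (-((3 * d / 4 - d / 8 + 2 * c * Real.sin θ) * r)) := by
        rw [div_le_iff₀ (lt_of_lt_of_le (Real.exp_pos _) h4)]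
        calc ‖f z‖ ≤ Real.exp ((g θ + d / 8) * r) := h5
          _ = Real.exp (-((3 * d / 4 - d / 8 + 2 * c * Real.sin θ) * r)) *
              Real.exp ((g (-θ) - d / 8 - d / 8) * r) := by
              rw [← Real.exp_add]
              congr 1
              rw [hd]
              ring
          _ ≤ _ := mul_le_mul_of_nonneg_left h4 (Real.exp_pos _).le
      calc ‖f z‖ / ‖f (conj z)‖ * Real.exp (2 * c * z.im)
          ≤ Real.exp (-((3 * d / 4 - d / 8 + 2 * c * Real.sin θ) * r)) *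
            Real.exp ((2 * c * Real.sin θ + d / 8) * r) := by
            apply mul_le_mul h7 _ (Real.exp_pos _).le (Real.exp_pos _).le
            apply Real.exp_le_exp.2
            have h8 : 2 * c * z.im ≤ 2 * c * (r * Real.sin θ + η₃ * r) :=
              mul_le_mul_of_nonneg_left him (by positivity)
            have h9 : 2 * c * η₃ * r ≤ d / 8 * r := mul_le_mul_of_nonneg_right hη₃1 hr0.le
            linarith
        _ = Real.exp (-(d / 2 * r)) := by
            rw [← Real.exp_add]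
            congr 1
            ring)
  have hnew : c + δ' / 2 ∈ S := by
    refine ⟨by linarith, fun z hz => ?_⟩
    have h1 := hdec z hz
    rw [hGn] at h1
    calc ‖reflQuot f z‖ = ‖reflQuot f z‖ * Real.exp (2 * c * z.im) *
          Real.exp (-(2 * c * z.im)) := by
          rw [mul_assoc, ← Real.exp_add, add_neg_cancel, Real.exp_zero, mul_one]
      _ ≤ Real.exp (-(δ' * z.im)) * Real.exp (-(2 * c * z.im)) :=
          mul_le_mul_of_nonneg_right h1 (Real.exp_pos _).le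
      _ = Real.exp (-(2 * (c + δ' / 2) * z.im)) := by
          rw [← Real.exp_add]
          congr 1
          ring
  have h1 := le_csSup hbd hnew
  linarith

end HBInd
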