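import Pool.Agent.HBInd.EvenOne
import Pool.Agent.HBInd.Reflect
import Pool.Agent.HBInd.MinimalOne
import Pool.Agent.HBInd.GlueC

/-!
# Real valued indicators of order one
-/

namespace HBInd

open Complex Filter Topology Set Bornology
open scoped Real ComplexConjugate

lemma trigConvex_add_sin {g : ℝ → ℝ} (hg : TrigConvex 1 g) (c : ℝ) :
    TrigConvex 1 fun θ => g θ + c * Real.sin θ := by
  intro a t b h1 h2 h3
  have h4 := hg a t b h1 h2 h3
  simp only [one_mul] at h4 ⊢
  have e : Real.sin t * Real.sin (b - a) =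
      Real.sin a * Real.sin (b - t) + Real.sin b * Real.sin (t - a) := by
    rw [Real.sin_sub, Real.sin_sub, Real.sin_sub]
    ring
  linear_combination h4 + c * e

lemma per_add_int {h : ℝ → ℝ} (hp : ∀ θ, h (θ + 2 * π) = h θ) (θ : ℝ) (n : ℤ) :
    h (θ + n * (2 * π)) = h θ := by
  have h1 := periodic_int hp (-n) θ
  rw [← h1]
  congr 1
  push_cast
  ring

lemma reflect_even {h : ℝ → ℝ} (hp : ∀ θ, h (θ + 2 * π) = h θ) {c : ℝ}
    (hs : ∀ θ ∈ Ioo 0 π, h (-θ) = h θ + 2 * c * Real.sin θ) (θ : ℝ) :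
    h (-θ) + c * Real.sin (-θ) = h θ + c * Real.sin θ := by
  have hpi := Real.pi_pos
  have key : ∀ t ∈ Ioc (-π) π, h (-t) + c * Real.sin (-t) = h t + c * Real.sin t := by
    intro t ht
    rcases lt_trichotomy t 0 with h0 | h0 | h0
    · have h1 := hs (-t) ⟨by linarith, by linarith [ht.1]⟩
      rw [neg_neg, Real.sin_neg] at h1
      rw [h1, Real.sin_neg]
      ring
    · rw [h0]
      simp
    · rcases lt_or_eq_of_le ht.2 with h2 | h2
      · have h1 := hs t ⟨h0, h2⟩
        rw [h1, Real.sin_neg]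
        ring
      · rw [h2]
        have h3 := hp (-π)
        rw [show -π + 2 * π = π by ring] at h3
        rw [h3]
        simp
  obtain ⟨n, hn, -⟩ := existsUnique_add_zsmul_mem_Ioc (a := 2 * π) (by positivity) θ (-π)
  rw [zsmul_eq_mul] at hn
  have h1 := key (θ + n * (2 * π)) ⟨hn.1, by linarith [hn.2]⟩
  have e1 : h (θ + n * (2 * π)) = h θ := per_add_int hp θ n
  have e2 : h (-(θ + n * (2 * π))) = h (-θ) := by
    have := per_add_int hp (-θ) (-n)
    rw [← this]
    congr 1
    push_cast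
    ring
  have e3 : Real.sin (θ + n * (2 * π)) = Real.sin θ := Real.sin_add_int_mul_two_pi θ n
  rw [Real.sin_neg, e1, e2, e3] at h1
  rw [Real.sin_neg]
  exact h1

theorem order_one_iff (h : ℝ → ℝ) :
    (∃ f : ℂ → ℂ, InClass 1 f ∧ ∀ θ, ind 1 f θ = (h θ : EReal)) ↔
      (∀ θ, h (θ + 2 * π) = h θ) ∧ TrigConvex 1 h ∧
        ∃ c : ℝ, 0 ≤ c ∧ ∀ θ ∈ Ioo 0 π, h (-θ) = h θ + 2 * c * Real.sin θ := by
  have hpi := Real.pi_pos
  constructor
  · rintro ⟨f, hf, hfh⟩
    refine ⟨fun θ => ?_, trigConvex_of_ind hf one_pos hfh, reflect_one hf hfh⟩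
    have h1 := ind_add_two_pi 1 f θ
    rw [hfh, hfh] at h1
    exact_mod_cast h1
  · rintro ⟨hper, hconv, c, hc0, hs⟩
    by_cases hne : ∀ θ, h θ = 0
    · obtain ⟨f, hf, hf0⟩ := exists_minimal_one
      exact ⟨f, hf, fun θ => by rw [hf0, hne, EReal.coe_zero]⟩
    have hcont : Continuous h := continuous_of_trigConvex one_pos hconv
    -- the even part
    obtain ⟨F, hF1, hF2, hF3, hF4, hF5⟩ := exists_even_one (g := fun θ => h θ + c * Real.sin θ)
      (trigConvex_add_sin hconv c) (fun θ => by rw [hper, Real.sin_add_two_pi])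
      (fun θ => reflect_even hper hs θ)
    set f : ℂ → ℂ := fun z => F z * Complex.exp (I * c * z) with hf
    have hexp : ∀ z : ℂ, ‖Complex.exp (I * c * z)‖ = Real.exp (-(c * z.im)) := by
      intro z
      rw [Complex.norm_exp]
      congr 1
      rw [mul_assoc, Complex.I_mul_re, Complex.im_ofReal_mul]
    have hpre : Pre 1 f := by
      refine ⟨hF1.mul (Complex.differentiable_exp.comp (differentiable_id.const_mul _)), ?_, ?_, ?_⟩
      · intro σ hσ
        obtain ⟨σ', h1, h2⟩ := exists_between hσ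
        filter_upwards [hF4 σ' h1, (tendsto_norm_cobounded_atTop (E := ℂ)).eventually
          (eventually_mul_rpow_le h2 (1 + c)),
          (tendsto_norm_cobounded_atTop (E := ℂ)).eventually_ge_atTop 1] with z hz1 hz2 hz3
        have h5 : ‖z‖ ≤ ‖z‖ ^ σ' := by
          nth_rewrite 1 [← Real.rpow_one ‖z‖]
          exact Real.rpow_le_rpow_of_exponent_le hz3 h1.le
        have h6 : -(c * z.im) ≤ c * ‖z‖ ^ σ' := by
          have h7 : -z.im ≤ ‖z‖ := (neg_le_abs _).trans (Complex.abs_im_le_norm z)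
          nlinarith
        rw [hf, norm_mul, hexp]
        calc ‖F z‖ * Real.exp (-(c * z.im)) ≤
            Real.exp (‖z‖ ^ σ') * Real.exp (c * ‖z‖ ^ σ') :=
              mul_le_mul hz1 (Real.exp_le_exp.2 h6) (Real.exp_pos _).le (Real.exp_pos _).le
          _ = Real.exp ((1 + c) * ‖z‖ ^ σ') := by
              rw [← Real.exp_add]
              ring_nf
          _ ≤ _ := Real.exp_le_exp.2 hz2
      · exact fun z hz => mul_ne_zero (hF2 z hz.ne) (Complex.exp_ne_zero _)
      · intro z hz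
        rw [hf, norm_mul, norm_mul, hexp, hexp, hF3]
        refine mul_le_mul_of_nonneg_left (Real.exp_le_exp.2 ?_) (norm_nonneg _)
        rw [Complex.conj_im]
        nlinarith
    have hfray : ∀ θ : ℝ, Real.sin (2 * θ) ≠ 0 → ∀ t : ℝ, f (ray (Real.exp t) θ) ≠ 0 ∧
        Real.exp (-t) * Real.log ‖f (ray (Real.exp t) θ)‖ =
          Real.exp (-t) * Real.log ‖F (ray (Real.exp t) θ)‖ - c * Real.sin θ := by
      intro θ hθ t
      have h1 : F (ray (Real.exp t) θ) ≠ 0 := by
        refine hF2 _ ?_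
        rw [ray_im]
        refine mul_ne_zero (Real.exp_pos _).ne' fun h => hθ ?_
        rw [Real.sin_two_mul, h]
        ring
      refine ⟨mul_ne_zero h1 (Complex.exp_ne_zero _), ?_⟩
      rw [hf, norm_mul, hexp, Real.log_mul (norm_ne_zero_iff.2 h1) (Real.exp_pos _).ne',
        Real.log_exp, ray_im]
      have e1 : Real.exp (-t) * Real.exp t = 1 := by
        rw [← Real.exp_add, neg_add_cancel, Real.exp_zero]
      linear_combination (-(c * Real.sin θ)) * e1
    -- good directions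
    have hQ : Dense {θ : ℝ | Real.sin (2 * θ) ≠ 0} := by
      have h1 : ({θ : ℝ | Real.sin (2 * θ) = 0}).Countable := by
        have : {θ : ℝ | Real.sin (2 * θ) = 0} ⊆ range fun n : ℤ => (n : ℝ) * π / 2 := by
          intro x hx
          obtain ⟨n, hn⟩ := Real.sin_eq_zero_iff.1 hx
          exact ⟨n, by simp only; linarith⟩
        exact (countable_range _).mono this
      exact h1.dense_compl ℝ
    have hrpow : ∀ r : ℝ, r ^ (1 : ℝ) = r := Real.rpow_one
    have hup : ∀ θ, Real.sin (2 * θ) ≠ 0 → ∀ a : ℝ, h θ < a → ind 1 f θ ≤ a := by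
      intro θ hθ a ha
      refine ind_le_of_eventually ?_
      filter_upwards [Real.tendsto_log_atTop.eventually
        ((hF5 θ hθ (a - h θ) (by linarith)).1), eventually_gt_atTop 0] with r hr hr0
      obtain ⟨h1, h2⟩ := hfray θ hθ (Real.log r)
      rw [Real.exp_log hr0] at hr h1 h2
      have h3 : Real.exp (-Real.log r) * Real.log ‖f (ray r θ)‖ ≤ a := by
        rw [h2]
        linarith
      rw [Real.exp_neg, Real.exp_log hr0, inv_mul_le_iff₀ hr0] at h3
      rw [hrpow, ← Real.log_le_iff_le_exp (norm_pos_iff.2 h1), mul_comm]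
      exact h3
    have hlow : ∀ θ, Real.sin (2 * θ) ≠ 0 → ∀ a : ℝ, a < h θ → (a : EReal) ≤ ind 1 f θ := by
      intro θ hθ a ha
      refine le_ind_of_frequently ?_
      have h0 : ∃ᶠ t : ℝ in atTop,
          Real.exp (a * Real.exp t ^ (1 : ℝ)) ≤ ‖f (ray (Real.exp t) θ)‖ := by
        refine (hF5 θ hθ (h θ - a) (by linarith)).2.mono fun t ht => ?_
        obtain ⟨h1, h2⟩ := hfray θ hθ t
        have h3 : a ≤ Real.exp (-t) * Real.log ‖f (ray (Real.exp t) θ)‖ := by
          rw [h2]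
          linarith
        rw [Real.exp_neg, le_inv_mul_iff₀ (Real.exp_pos t)] at h3
        rw [hrpow, ← Real.le_log_iff_exp_le (norm_pos_iff.2 h1), mul_comm]
        exact h3
      exact Real.tendsto_exp_atTop.frequently (p := fun r : ℝ =>
        Real.exp (a * r ^ (1 : ℝ)) ≤ ‖f (ray r θ)‖) h0
    have heq : ∀ θ, Real.sin (2 * θ) ≠ 0 → ind 1 f θ = h θ := by
      intro θ hθ
      refine le_antisymm ?_ ?_
      · exact EReal.le_of_forall_lt_iff_le.1 fun a ha => hup θ hθ a (by exact_mod_cast ha)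
      · exact EReal.ge_of_forall_gt_iff_ge.1 fun a ha => hlow θ hθ a (by exact_mod_cast ha)
    -- the order
    have hpos : ∃ θ, Real.sin (2 * θ) ≠ 0 ∧ 0 < h θ := by
      have h1 : ∃ θ, 0 < h θ := by
        by_contra hcon
        push Not at hcon
        exact hne (eq_zero_of_nonpos one_pos hconv hcon)
      obtain ⟨θ, hθ⟩ := h1
      obtain ⟨x, hx1, hx2⟩ := hQ.exists_mem_open (isOpen_lt continuous_const hcont) ⟨θ, hθ⟩
      exact ⟨x, hx1, hx2⟩
    obtain ⟨θ₀, hθ₀, hθ₀'⟩ := hpos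
    have hcl : InClass 1 f := hpre.inClass one_pos (θ := θ₀) (by
      rw [heq θ₀ hθ₀]
      exact_mod_cast hθ₀')
    refine ⟨f, hcl, ?_⟩
    have hlt : ∀ θ, Real.sin (2 * θ) ≠ 0 → ind 1 f θ ≠ ⊤ := by
      intro θ hθ
      rw [heq θ hθ]
      exact EReal.coe_ne_top _
    have htop : ∀ θ, ind 1 f θ ≠ ⊤ := by
      intro θ
      obtain ⟨x1, hx1, hx1'⟩ := hQ.exists_mem_open (isOpen_Ioo (a := θ - π / 4) (b := θ))
        (nonempty_Ioo.2 (by linarith))
      obtain ⟨x2, hx2, hx2'⟩ := hQ.exists_mem_open (isOpen_Ioo (a := θ) (b := θ + π / 4))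
        (nonempty_Ioo.2 (by linarith))
      exact ind_ne_top_between hcl one_pos (a := x1) (b := x2) (hx1'.2.trans hx2'.1)
        (by linarith [hx1'.1, hx2'.2]) (hlt _ hx1) (hlt _ hx2) ⟨hx1'.2.le, hx2'.1.le⟩
    have hbot := ind_ne_bot_two hcl one_pos (by norm_num) htop
    have hg : ∀ θ, ind 1 f θ = ((ind 1 f θ).toReal : ℝ) := fun θ =>
      (EReal.coe_toReal (htop θ) (hbot θ)).symm
    have hgc : Continuous fun θ => (ind 1 f θ).toReal :=
      continuous_of_trigConvex one_pos (trigConvex_of_ind hcl one_pos hg)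
    have hgh : (fun θ => (ind 1 f θ).toReal) = h := by
      refine hgc.ext_on hQ hcont ?_
      intro θ hθ
      simp only
      rw [heq θ hθ, EReal.toReal_coe]
    intro θ
    rw [hg θ]
    exact congrArg _ (congrFun hgh θ)

end HBInd
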