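import Pool.Agent.HBInd.Basic

/-!
# Phragmen-Lindelof in a sector, with the sinusoidal majorant

Paper proof of `sector_bound`. Put `F ζ = f (exp ζ)` on the strip `a ≤ Im ζ ≤ b` and
`E ζ = exp (-(s ζ))` where `s ζ = (A sin (ρ (b - y)) + B sin (ρ (y - a))) e^{ρ x} / sin (ρ (b - a))`
is the real part of an entire function: `sin (ρ (b - y)) e^{ρ x} = Re (-i e^{iρ b} e^{ρ \bar ζ})`,
i.e. `= Re (i e^{-iρ b} e^{ρ ζ})` and `sin (ρ (y - a)) e^{ρ x} = Re (-i e^{-iρ a} e^{ρ ζ})`.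
`F E` is bounded on the two boundary lines (for `x` large by the hypotheses, for `x ≤ X` because
`f` is bounded on bounded sets), and `|F E| ≤ exp (B' e^{σ' |x|})` in the strip with
`σ' (b - a) < π`, so `PhragmenLindelof.horizontal_strip` applies.
-/

namespace HBInd

open Complex Filter Topology Set Bornology
open scoped Real ComplexConjugate

lemma exp_eq_ray (ζ : ℂ) : Complex.exp ζ = ray (Real.exp ζ.re) ζ.im := by
  conv_lhs => rw [← Complex.re_add_im ζ, Complex.exp_add]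
  rw [ray, Complex.ofReal_exp]

lemma ray_eq_exp {r : ℝ} (hr : 0 < r) (t : ℝ) :
    ray r t = Complex.exp ((Real.log r : ℂ) + (t : ℂ) * I) := by
  rw [Complex.exp_add, ray, ← Complex.ofReal_exp, Real.exp_log hr]

/-- the constant of the majorant -/
noncomputable def plK (ρ a b A B : ℝ) : ℂ :=
  ((A : ℂ) * (I * Complex.exp (((-(ρ * b) : ℝ) : ℂ) * I)) +
    (B : ℂ) * (-(I * Complex.exp (((-(ρ * a) : ℝ) : ℂ) * I)))) / ((Real.sin (ρ * (b - a)) : ℝ) : ℂ)

lemma re_plK (ρ a b A B : ℝ) (ζ : ℂ) :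
    (plK ρ a b A B * Complex.exp ((ρ : ℂ) * ζ)).re =
      (A * Real.sin (ρ * (b - ζ.im)) + B * Real.sin (ρ * (ζ.im - a))) /
        Real.sin (ρ * (b - a)) * Real.exp (ρ * ζ.re) := by
  have h1 : Complex.exp ((ρ : ℂ) * ζ) =
      ((Real.exp (ρ * ζ.re) : ℝ) : ℂ) * Complex.exp (((ρ * ζ.im : ℝ) : ℂ) * I) := by
    rw [Complex.ofReal_exp, ← Complex.exp_add]
    congr 1
    conv_lhs => rw [← Complex.re_add_im ζ]
    push_cast
    ring
  have key : ∀ c : ℝ, (I * Complex.exp (((-(ρ * c) : ℝ) : ℂ) * I)) *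
      Complex.exp (((ρ * ζ.im : ℝ) : ℂ) * I) = I * Complex.exp (((ρ * (ζ.im - c) : ℝ) : ℂ) * I) := by
    intro c
    rw [mul_assoc, ← Complex.exp_add]
    congr 2
    push_cast
    ring
  have hre : ∀ x : ℝ, (I * Complex.exp ((x : ℂ) * I)).re = -Real.sin x := by
    intro x
    rw [Complex.I_mul_re, Complex.exp_ofReal_mul_I_im]
  have h2 : plK ρ a b A B * Complex.exp ((ρ : ℂ) * ζ) =
      ((Real.exp (ρ * ζ.re) / Real.sin (ρ * (b - a)) : ℝ) : ℂ) *
        ((A : ℂ) * (I * Complex.exp (((ρ * (ζ.im - b) : ℝ) : ℂ) * I)) -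
         (B : ℂ) * (I * Complex.exp (((ρ * (ζ.im - a) : ℝ) : ℂ) * I))) := by
    rw [h1, plK, ← key b, ← key a]
    push_cast
    ring
  rw [h2, Complex.re_ofReal_mul, Complex.sub_re, Complex.re_ofReal_mul, Complex.re_ofReal_mul,
    hre, hre]
  have h3 : Real.sin (ρ * (ζ.im - b)) = -Real.sin (ρ * (b - ζ.im)) := by
    rw [← Real.sin_neg]
    congr 1
    ring
  rw [h3]
  ring

/-- a global bound for a function of finite order -/
lemma exists_bound {f : ℂ → ℂ} (hf : Continuous f) {R : ℝ} : ∃ M : ℝ, 1 ≤ M ∧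
    ∀ z : ℂ, ‖z‖ ≤ R → ‖f z‖ ≤ M := by
  obtain ⟨M, hM⟩ := (isCompact_closedBall (0 : ℂ) R).exists_bound_of_continuousOn hf.continuousOn
  refine ⟨max M 1, le_max_right _ _, fun z hz => (hM z ?_).trans (le_max_left _ _)⟩
  rwa [mem_closedBall_zero_iff]

/-- **Phragmen-Lindelof in a sector.** -/
theorem sector_bound {f : ℂ → ℂ} (hf : Differentiable ℂ f) {ρ σ a b A B : ℝ} (hρ : 0 < ρ)
    (hσ : 0 < σ) (hab : a < b) (hρl : ρ * (b - a) < π) (hσl : σ * (b - a) < π)
    (hord : ∀ᶠ z in cobounded ℂ, ‖f z‖ ≤ Real.exp (‖z‖ ^ σ))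
    (hA : ∀ᶠ r : ℝ in atTop, ‖f (ray r a)‖ ≤ Real.exp (A * r ^ ρ))
    (hB : ∀ᶠ r : ℝ in atTop, ‖f (ray r b)‖ ≤ Real.exp (B * r ^ ρ)) :
    ∃ C : ℝ, 0 ≤ C ∧ ∀ r : ℝ, 0 < r → ∀ t ∈ Icc a b, ‖f (ray r t)‖ ≤
      C * Real.exp ((A * Real.sin (ρ * (b - t)) + B * Real.sin (ρ * (t - a))) /
        Real.sin (ρ * (b - a)) * r ^ ρ) := by
  have hsin : 0 < Real.sin (ρ * (b - a)) :=
    Real.sin_pos_of_pos_of_lt_pi (mul_pos hρ (sub_pos.2 hab)) hρl
  -- a common threshold
  obtain ⟨R, hR1, hRf, hRa, hRb⟩ : ∃ R : ℝ, 1 ≤ R ∧ (∀ z : ℂ, R ≤ ‖z‖ → ‖f z‖ ≤ Real.exp (‖z‖ ^ σ)) ∧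
      (∀ r : ℝ, R ≤ r → ‖f (ray r a)‖ ≤ Real.exp (A * r ^ ρ)) ∧
      (∀ r : ℝ, R ≤ r → ‖f (ray r b)‖ ≤ Real.exp (B * r ^ ρ)) := by
    rw [← comap_norm_atTop, eventually_comap] at hord
    obtain ⟨R1, h1⟩ := eventually_atTop.1 hord
    obtain ⟨R2, h2⟩ := eventually_atTop.1 hA
    obtain ⟨R3, h3⟩ := eventually_atTop.1 hB
    refine ⟨max 1 (max R1 (max R2 R3)), le_max_left _ _, fun z hz => ?_, fun r hr => ?_,
      fun r hr => ?_⟩
    · exact h1 ‖z‖ (((le_max_left _ _).trans (le_max_right _ _)).trans hz) z rfl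
    · exact h2 r ((((le_max_left _ _).trans (le_max_right _ _)).trans (le_max_right _ _)).trans hr)
    · exact h3 r ((((le_max_right _ _).trans (le_max_right _ _)).trans (le_max_right _ _)).trans hr)
  have hR0 : 0 < R := lt_of_lt_of_le one_pos hR1
  obtain ⟨M, hM1, hM⟩ := exists_bound hf.continuous (R := R)
  set K : ℂ := plK ρ a b A B with hK
  set g : ℂ → ℂ := fun ζ => f (Complex.exp ζ) * Complex.exp (-(K * Complex.exp ((ρ : ℂ) * ζ)))
    with hg
  have hgd : Differentiable ℂ g := by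
    have h1 : Differentiable ℂ (fun ζ : ℂ => f (Complex.exp ζ)) := hf.comp Complex.differentiable_exp
    have h2 : Differentiable ℂ (fun ζ : ℂ => Complex.exp ((ρ : ℂ) * ζ)) :=
      Complex.differentiable_exp.comp (differentiable_id.const_mul _)
    have h3 : Differentiable ℂ (fun ζ : ℂ => Complex.exp (-(K * Complex.exp ((ρ : ℂ) * ζ)))) :=
      Complex.differentiable_exp.comp (h2.const_mul K).neg
    exact h1.mul h3
  have hgn : ∀ ζ : ℂ, ‖g ζ‖ = ‖f (Complex.exp ζ)‖ *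
      Real.exp (-((A * Real.sin (ρ * (b - ζ.im)) + B * Real.sin (ρ * (ζ.im - a))) /
        Real.sin (ρ * (b - a)) * Real.exp (ρ * ζ.re))) := by
    intro ζ
    rw [hg]
    simp only [norm_mul, Complex.norm_exp, Complex.neg_re]
    rw [hK, re_plK]
  have hKb : ∀ ζ : ℂ, ‖Complex.exp (-(K * Complex.exp ((ρ : ℂ) * ζ)))‖ ≤
      Real.exp (‖K‖ * Real.exp (ρ * ζ.re)) := by
    intro ζ
    rw [Complex.norm_exp]
    apply Real.exp_le_exp.2
    calc (-(K * Complex.exp ((ρ : ℂ) * ζ))).re ≤ ‖-(K * Complex.exp ((ρ : ℂ) * ζ))‖ :=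
          Complex.re_le_norm _
      _ = ‖K‖ * Real.exp (ρ * ζ.re) := by
          rw [norm_neg, norm_mul, Complex.norm_exp]
          simp
  have hexp : ∀ ζ : ℂ, ‖Complex.exp ζ‖ = Real.exp ζ.re := fun ζ => Complex.norm_exp ζ
  have hrp : ∀ x τ : ℝ, Real.exp x ^ τ = Real.exp (τ * x) := by
    intro x τ
    rw [← Real.exp_mul, mul_comm]
  -- bound for small `x`
  have hsmall : ∀ ζ : ℂ, Real.exp ζ.re ≤ R → ‖g ζ‖ ≤ M * Real.exp (‖K‖ * R ^ ρ) := by
    intro ζ hζ
    rw [hg]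
    simp only [norm_mul]
    refine mul_le_mul (hM _ (by rw [hexp]; exact hζ)) ((hKb ζ).trans ?_) (norm_nonneg _)
      (zero_le_one.trans hM1)
    apply Real.exp_le_exp.2
    refine mul_le_mul_of_nonneg_left ?_ (norm_nonneg _)
    rw [← hrp]
    exact Real.rpow_le_rpow (Real.exp_pos _).le hζ hρ.le
  set C : ℝ := M * Real.exp (‖K‖ * R ^ ρ) with hC
  have hC1 : 1 ≤ C := by
    rw [hC]
    have : 1 ≤ Real.exp (‖K‖ * R ^ ρ) := Real.one_le_exp (by positivity)
    nlinarith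
  have hbd : ∀ ζ : ℂ, a ≤ ζ.im → ζ.im ≤ b → ‖g ζ‖ ≤ C := by
    intro ζ hza hzb
    refine PhragmenLindelof.horizontal_strip (a := a) (b := b) hgd.diffContOnCl ?_ ?_ ?_ hza hzb
    · refine ⟨max ρ σ, ?_, 1 + ‖K‖, ?_⟩
      · rw [lt_div_iff₀ (sub_pos.2 hab)]
        rcases max_choice ρ σ with h | h
        · rw [h]; exact hρl
        · rw [h]; exact hσl
      · refine Asymptotics.IsBigO.of_bound M (Eventually.of_forall fun z => ?_)
        rw [Real.norm_eq_abs, abs_of_pos (Real.exp_pos _), hg]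
        simp only [norm_mul]
        have e1 : ‖f (Complex.exp z)‖ ≤ M * Real.exp (Real.exp (max ρ σ * |z.re|)) := by
          rcases le_total (Real.exp z.re) R with h | h
          · refine (hM _ (by rw [hexp]; exact h)).trans ?_
            refine le_mul_of_one_le_right (zero_le_one.trans hM1) (Real.one_le_exp (Real.exp_pos _).le)
          · refine (hRf _ (by rw [hexp]; exact h)).trans ?_
            rw [hexp, hrp]
            refine le_trans (Real.exp_le_exp.2 (Real.exp_le_exp.2 ?_))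
              (le_mul_of_one_le_left (Real.exp_pos _).le hM1)
            calc σ * z.re ≤ σ * |z.re| := mul_le_mul_of_nonneg_left (le_abs_self _) hσ.le
              _ ≤ max ρ σ * |z.re| := mul_le_mul_of_nonneg_right (le_max_right _ _) (abs_nonneg _)
        have e2 : ‖Complex.exp (-(K * Complex.exp ((ρ : ℂ) * z)))‖ ≤
            Real.exp (‖K‖ * Real.exp (max ρ σ * |z.re|)) := by
          refine (hKb z).trans (Real.exp_le_exp.2 (mul_le_mul_of_nonneg_left
            (Real.exp_le_exp.2 ?_) (norm_nonneg _)))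
          calc ρ * z.re ≤ ρ * |z.re| := mul_le_mul_of_nonneg_left (le_abs_self _) hρ.le
            _ ≤ max ρ σ * |z.re| := mul_le_mul_of_nonneg_right (le_max_left _ _) (abs_nonneg _)
        calc ‖f (Complex.exp z)‖ * ‖Complex.exp (-(K * Complex.exp ((ρ : ℂ) * z)))‖ ≤
            (M * Real.exp (Real.exp (max ρ σ * |z.re|))) *
              Real.exp (‖K‖ * Real.exp (max ρ σ * |z.re|)) :=
              mul_le_mul e1 e2 (norm_nonneg _) (by positivity)
          _ = M * Real.exp ((1 + ‖K‖) * Real.exp (max ρ σ * |z.re|)) := by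
              rw [mul_assoc, ← Real.exp_add]
              ring_nf
    · intro z hz
      rcases le_total (Real.exp z.re) R with h | h
      · exact hsmall z h
      · refine le_trans ?_ hC1
        rw [hgn, hz, sub_self, mul_zero, Real.sin_zero, mul_zero, add_zero,
          mul_div_assoc, div_self hsin.ne', mul_one, exp_eq_ray, hz]
        have h1 := hRa _ h
        rw [hrp] at h1
        calc ‖f (ray (Real.exp z.re) a)‖ * Real.exp (-(A * Real.exp (ρ * z.re))) ≤
            Real.exp (A * Real.exp (ρ * z.re)) * Real.exp (-(A * Real.exp (ρ * z.re))) :=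
              mul_le_mul_of_nonneg_right h1 (Real.exp_pos _).le
          _ = 1 := by rw [← Real.exp_add, add_neg_cancel, Real.exp_zero]
    · intro z hz
      rcases le_total (Real.exp z.re) R with h | h
      · exact hsmall z h
      · refine le_trans ?_ hC1
        rw [hgn, hz, sub_self, mul_zero, Real.sin_zero, mul_zero, zero_add,
          mul_div_assoc, div_self hsin.ne', mul_one, exp_eq_ray, hz]
        have h1 := hRb _ h
        rw [hrp] at h1
        calc ‖f (ray (Real.exp z.re) b)‖ * Real.exp (-(B * Real.exp (ρ * z.re))) ≤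
            Real.exp (B * Real.exp (ρ * z.re)) * Real.exp (-(B * Real.exp (ρ * z.re))) :=
              mul_le_mul_of_nonneg_right h1 (Real.exp_pos _).le
          _ = 1 := by rw [← Real.exp_add, add_neg_cancel, Real.exp_zero]
  refine ⟨C, zero_le_one.trans hC1, fun r hr t ht => ?_⟩
  have h1 := hbd ((Real.log r : ℂ) + (t : ℂ) * I) (by simpa using ht.1) (by simpa using ht.2)
  rw [hgn, ← ray_eq_exp hr] at h1
  have h2 : ((Real.log r : ℂ) + (t : ℂ) * I).im = t := by simp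
  have h3 : ((Real.log r : ℂ) + (t : ℂ) * I).re = Real.log r := by simp
  rw [h2, h3, ← hrp, Real.exp_log hr] at h1
  rw [Real.exp_neg, ← div_eq_mul_inv, div_le_iff₀ (Real.exp_pos _)] at h1
  exact h1

end HBInd
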