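import Mathlib

/-!
# A slowly varying partition of unity on a half-line
-/

namespace HBInd

open Filter Topology Set

/-- `0` up to `T`, `1` from `T + w` on, linear in between -/
noncomputable def ramp (T w t : ℝ) : ℝ := max 0 (min 1 ((t - T) / w))

/-- the windows: `1` on `[T j + w j, T (j + 1)]`, `0` outside `[T j, T (j + 1) + w (j + 1)]` -/
noncomputable def xi (T w : ℕ → ℝ) (j : ℕ) (t : ℝ) : ℝ :=
  ramp (T j) (w j) t - ramp (T (j + 1)) (w (j + 1)) t

lemma ramp_nonneg (T w t : ℝ) : 0 ≤ ramp T w t := le_max_left _ _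

lemma ramp_le_one (T w t : ℝ) : ramp T w t ≤ 1 :=
  max_le zero_le_one (min_le_left _ _)

lemma continuous_ramp (T w : ℝ) : Continuous (ramp T w) := by
  unfold ramp
  fun_prop

lemma ramp_eq_zero {T w t : ℝ} (hw : 0 < w) (ht : t ≤ T) : ramp T w t = 0 := by
  refine max_eq_left ((min_le_right _ _).trans ?_)
  exact div_nonpos_of_nonpos_of_nonneg (by linarith) hw.le

lemma ramp_eq_one {T w t : ℝ} (hw : 0 < w) (ht : T + w ≤ t) : ramp T w t = 1 := by
  have : 1 ≤ (t - T) / w := by rw [le_div_iff₀ hw]; linarith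
  rw [ramp, min_eq_left this]
  norm_num

lemma abs_ramp_sub_le {T w : ℝ} (hw : 0 < w) (s t : ℝ) :
    |ramp T w s - ramp T w t| ≤ 1 / w * |s - t| := by
  have h1 : |(s - T) / w - (t - T) / w| = 1 / w * |s - t| := by
    rw [← sub_div, abs_div, abs_of_pos hw, sub_sub_sub_cancel_right]
    ring
  rw [← h1, ramp, ramp]
  have h2 := abs_min_sub_min_le_max 1 ((s - T) / w) 1 ((t - T) / w)
  have h3 := abs_max_sub_max_le_max 0 (min 1 ((s - T) / w)) 0 (min 1 ((t - T) / w))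
  rw [sub_self, abs_zero] at h2 h3
  exact (h3.trans (max_le (abs_nonneg _) le_rfl)).trans (h2.trans (max_le (abs_nonneg _) le_rfl))

variable {T w : ℕ → ℝ}

lemma continuous_xi (T w : ℕ → ℝ) (j : ℕ) : Continuous (xi T w j) :=
  (continuous_ramp _ _).sub (continuous_ramp _ _)

lemma xi_le_one (T w : ℕ → ℝ) (j : ℕ) (t : ℝ) : xi T w j t ≤ 1 := by
  have h1 := ramp_le_one (T j) (w j) t
  have h2 := ramp_nonneg (T (j + 1)) (w (j + 1)) t
  rw [xi]
  linarith

lemma T_mono (hw : ∀ j, 0 < w j) (hT : ∀ j, T j + w j + 4 ≤ T (j + 1)) : Monotone T :=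
  monotone_nat_of_le_succ fun j => by linarith [hT j, hw j]

lemma T_ge (hw : ∀ j, 0 < w j) (hT : ∀ j, T j + w j + 4 ≤ T (j + 1)) (j : ℕ) :
    T 0 + j ≤ T j := by
  induction j with
  | zero => simp
  | succ j ih =>
    push_cast
    linarith [hT j, hw j]

lemma xi_nonneg (hw : ∀ j, 0 < w j) (hT : ∀ j, T j + w j + 4 ≤ T (j + 1)) (j : ℕ) (t : ℝ) :
    0 ≤ xi T w j t := by
  rcases le_total t (T (j + 1)) with h | h
  · rw [xi, ramp_eq_zero (hw _) h, sub_zero]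
    exact ramp_nonneg _ _ _
  · rw [xi, ramp_eq_one (hw j) (by linarith [hT j])]
    linarith [ramp_le_one (T (j + 1)) (w (j + 1)) t]

lemma xi_eq_zero_left (hw : ∀ j, 0 < w j) (hT : ∀ j, T j + w j + 4 ≤ T (j + 1)) {j : ℕ} {t : ℝ}
    (ht : t ≤ T j) : xi T w j t = 0 := by
  rw [xi, ramp_eq_zero (hw _) ht, ramp_eq_zero (hw _) (by linarith [hT j, hw j]), sub_zero]

lemma xi_eq_zero_right (hw : ∀ j, 0 < w j) (hT : ∀ j, T j + w j + 4 ≤ T (j + 1)) {j : ℕ}
    {t : ℝ} (ht : T (j + 1) + w (j + 1) ≤ t) : xi T w j t = 0 := by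
  rw [xi, ramp_eq_one (hw _) ht, ramp_eq_one (hw _) (by linarith [hT j, hw (j + 1)]), sub_self]

lemma xi_eq_zero (hw : ∀ j, 0 < w j) (hT : ∀ j, T j + w j + 4 ≤ T (j + 1)) {j : ℕ}
    {t : ℝ} (ht : t ∉ Icc (T j) (T (j + 1) + w (j + 1))) : xi T w j t = 0 := by
  rcases lt_or_ge t (T j) with h | h
  · exact xi_eq_zero_left hw hT h.le
  · refine xi_eq_zero_right hw hT ?_
    by_contra hcon
    exact ht ⟨h, (not_le.1 hcon).le⟩

lemma xi_eq_one (hw : ∀ j, 0 < w j) {j : ℕ} {t : ℝ} (ht : t ∈ Icc (T j + w j) (T (j + 1))) :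
    xi T w j t = 1 := by
  rw [xi, ramp_eq_one (hw _) ht.1, ramp_eq_zero (hw _) ht.2, sub_zero]

lemma xi_eq_zero_of_ne (hw : ∀ j, 0 < w j) (hT : ∀ j, T j + w j + 4 ≤ T (j + 1)) {j k : ℕ}
    (hk : k ≠ j) {t : ℝ} (ht : t ∈ Icc (T j + w j) (T (j + 1))) : xi T w k t = 0 := by
  have hm := T_mono hw hT
  rcases lt_or_gt_of_ne hk with h | h
  · refine xi_eq_zero_right hw hT ?_
    rcases eq_or_lt_of_le (Nat.succ_le_of_lt h) with h' | h'
    · rw [Nat.succ_eq_add_one] at h'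
      rw [h']
      exact ht.1
    · have h1 : T (k + 1 + 1) ≤ T j := hm h'
      linarith [hT (k + 1), ht.1, hw j]
  · refine xi_eq_zero_left hw hT ?_
    have h1 : T (j + 1) ≤ T k := hm h
    linarith [ht.2]

lemma abs_xi_sub_le (hw : ∀ j, 0 < w j) (j : ℕ) (s t : ℝ) :
    |xi T w j s - xi T w j t| ≤ (1 / w j + 1 / w (j + 1)) * |s - t| := by
  have h1 := abs_ramp_sub_le (hw j) (T := T j) s t
  have h2 := abs_ramp_sub_le (hw (j + 1)) (T := T (j + 1)) s t
  rw [xi, xi]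
  have e : ramp (T j) (w j) s - ramp (T (j + 1)) (w (j + 1)) s -
      (ramp (T j) (w j) t - ramp (T (j + 1)) (w (j + 1)) t) =
      (ramp (T j) (w j) s - ramp (T j) (w j) t) -
      (ramp (T (j + 1)) (w (j + 1)) s - ramp (T (j + 1)) (w (j + 1)) t) := by ring
  rw [e]
  refine (abs_sub _ _).trans ?_
  linarith

lemma sum_xi (T w : ℕ → ℝ) (M : ℕ) (t : ℝ) :
    ∑ j ∈ Finset.range M, xi T w j t = ramp (T 0) (w 0) t - ramp (T M) (w M) t := by
  have h := Finset.sum_range_sub' (fun j => ramp (T j) (w j) t) M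
  simpa [xi] using h

/-- from some time on, combinations with coefficients `xi` are convex combinations -/
lemma tsum_xi_le (hw : ∀ j, 0 < w j) (hT : ∀ j, T j + w j + 4 ≤ T (j + 1)) {t : ℝ}
    (ht : T 0 + w 0 ≤ t) {a : ℕ → ℝ} {A : ℝ} (ha : ∀ j, xi T w j t ≠ 0 → a j ≤ A) :
    ∑' j, xi T w j t * a j ≤ A := by
  obtain ⟨M, hM⟩ := exists_nat_ge (t - T 0)
  have hMt : t ≤ T M := by linarith [T_ge hw hT M]
  have hz : ∀ j, j ∉ Finset.range M → xi T w j t * a j = 0 := by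
    intro j hj
    rw [Finset.mem_range, not_lt] at hj
    rw [xi_eq_zero_left hw hT (hMt.trans (T_mono hw hT hj)), zero_mul]
  rw [tsum_eq_sum hz]
  calc ∑ j ∈ Finset.range M, xi T w j t * a j ≤ ∑ j ∈ Finset.range M, xi T w j t * A := by
        refine Finset.sum_le_sum fun j _ => ?_
        rcases eq_or_ne (xi T w j t) 0 with h | h
        · rw [h, zero_mul, zero_mul]
        · exact mul_le_mul_of_nonneg_left (ha j h) (xi_nonneg hw hT j t)
    _ = A := by
        rw [← Finset.sum_mul, sum_xi, ramp_eq_one (hw 0) ht, ramp_eq_zero (hw M) hMt, sub_zero,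
          one_mul]

lemma tsum_xi_eq (hw : ∀ j, 0 < w j) (hT : ∀ j, T j + w j + 4 ≤ T (j + 1)) {j : ℕ} {t : ℝ}
    (ht : t ∈ Icc (T j + w j) (T (j + 1))) (a : ℕ → ℝ) :
    ∑' k, xi T w k t * a k = a j := by
  rw [tsum_eq_single j fun k hk => by rw [xi_eq_zero_of_ne hw hT hk ht, zero_mul],
    xi_eq_one hw ht, one_mul]

end HBInd
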