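import Pool.Agent.HBInd.Uniform
import Pool.Agent.HBInd.Three

/-!
# Lower bound for `f` near a point of the lower half-plane where it is large
-/

namespace HBInd

open Complex Filter Topology Set Bornology
open scoped Real ComplexConjugate

theorem star_near {ρ : ℝ} {f : ℂ → ℂ} (hf : InClass ρ f) (hρ : 0 < ρ) {g : ℝ → ℝ}
    (hg : ∀ θ, ind ρ f θ = g θ) {θ₀ : ℝ} (hθ : θ₀ ∈ Ioo 0 π) (a : ℝ) {ε : ℝ} (hε : 0 < ε) :
    ∃ η : ℝ, 0 < η ∧ η < 1 ∧ ∀ᶠ r : ℝ in atTop,
      Real.exp (a * r ^ ρ) ≤ ‖f (ray r (-θ₀))‖ → ∀ z : ℂ, ‖z - ray r θ₀‖ ≤ η * r →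
        0 < z.im ∧ Real.exp ((a - ε) * r ^ ρ) ≤ ‖f (conj z)‖ := by
  obtain ⟨K, hK, hKf⟩ := finite_type hf hρ hg
  have hs : 0 < Real.sin θ₀ := Real.sin_pos_of_pos_of_lt_pi hθ.1 hθ.2
  have hs1 : Real.sin θ₀ ≤ 1 := Real.sin_le_one _
  set s := Real.sin θ₀ with hsdef
  set L : ℝ := K * 2 ^ ρ + |a| + 1 with hL
  have hL0 : 0 < L := by positivity
  set η : ℝ := min (s / 2) (ε * s / (4 * L)) with hη
  have hη0 : 0 < η := lt_min (by positivity) (by positivity)
  have hη1 : η ≤ s / 2 := min_le_left _ _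
  have hη2 : 4 * η * L ≤ ε * s := by
    have h1 : η ≤ ε * s / (4 * L) := min_le_right _ _
    rw [le_div_iff₀ (by positivity)] at h1
    linarith
  refine ⟨η, hη0, by linarith, ?_⟩
  have h2r : Tendsto (fun r : ℝ => 2 * r) atTop atTop :=
    tendsto_id.const_mul_atTop (by norm_num)
  filter_upwards [h2r.eventually hKf, eventually_gt_atTop 0] with r hr hr0 hbig z hz
  have hrp : 0 < r ^ ρ := Real.rpow_pos_of_pos hr0 _
  set c : ℂ := ray r (-θ₀) with hc
  have hcim : c.im = -(r * s) := by rw [hc, ray_im, Real.sin_neg, hsdef]; ring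
  have hcn : ‖c‖ = r := norm_ray hr0.le _
  have hR : 0 < r * s := by positivity
  have hball : ∀ w ∈ Metric.ball c (r * s), w.im < 0 ∧ ‖w‖ ≤ 2 * r := by
    intro w hw
    rw [Metric.mem_ball, dist_eq_norm] at hw
    have h1 : |(w - c).im| ≤ ‖w - c‖ := Complex.abs_im_le_norm _
    have h2 : (w - c).im = w.im + r * s := by rw [Complex.sub_im, hcim]; ring
    rw [h2] at h1
    have h3 := (le_abs_self (w.im + r * s))
    refine ⟨by linarith, ?_⟩
    have h4 : ‖w‖ ≤ ‖c‖ + ‖w - c‖ := by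
      have := norm_add_le c (w - c)
      rwa [add_sub_cancel] at this
    have h5 : r * s ≤ r := by nlinarith
    linarith
  have hzc : ‖conj z - c‖ ≤ η * r := by
    have h1 : conj z - c = conj (z - ray r θ₀) := by rw [map_sub, conj_ray]
    rw [h1, Complex.norm_conj]
    exact hz
  have hlt : η * r < r * s := by nlinarith
  have hmem : conj z ∈ Metric.ball c (r * s) := by
    rw [Metric.mem_ball, dist_eq_norm]
    linarith
  have him := (hball _ hmem).1
  rw [Complex.conj_im] at him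
  refine ⟨by linarith, ?_⟩
  have hM : 0 < Real.exp (K * (2 * r) ^ ρ) := Real.exp_pos _
  have hH := harnack hR hM hf.entire.differentiableOn (fun w hw => hf.zero_free w (hball w hw).1)
    (fun w hw => hr w (hball w hw).2) hmem
  have hfc : 0 < ‖f c‖ := norm_pos_iff.2 (hf.zero_free c (by rw [hcim]; linarith))
  have hlogc : a * r ^ ρ ≤ Real.log ‖f c‖ := (Real.le_log_iff_exp_le hfc).2 hbig
  have hfz : 0 < ‖f (conj z)‖ := norm_pos_iff.2 (hf.zero_free _ (hball _ hmem).1)
  rw [← Real.le_log_iff_exp_le hfz]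
  refine le_trans ?_ hH
  rw [Real.log_exp, Real.mul_rpow (by norm_num) hr0.le]
  set d := ‖conj z - c‖ with hd
  set T : ℝ := 2 * d / (r * s - d) with hT
  have hd0 : 0 ≤ d := norm_nonneg _
  have hden : r * s / 2 ≤ r * s - d := by
    have : η * r ≤ s / 2 * r := mul_le_mul_of_nonneg_right hη1 hr0.le
    linarith
  have hT0 : 0 ≤ T := div_nonneg (by linarith) (by linarith)
  have hT1 : T * s ≤ 4 * η := by
    have h1 : T * (r * s - d) = 2 * d := div_mul_cancel₀ _ (by linarith)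
    have h2 : T * (r * s / 2) ≤ 2 * (η * r) := by
      calc T * (r * s / 2) ≤ T * (r * s - d) := mul_le_mul_of_nonneg_left hden hT0
        _ = 2 * d := h1
        _ ≤ 2 * (η * r) := by linarith
    have h3 : T * s * r ≤ 4 * η * r := by nlinarith
    exact le_of_mul_le_mul_right h3 hr0
  have hTL : T * L ≤ ε := by
    have h1 : T * L * s ≤ ε * s := by
      calc T * L * s = T * s * L := by ring
        _ ≤ 4 * η * L := mul_le_mul_of_nonneg_right hT1 hL0.le
        _ ≤ ε * s := hη2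
    exact le_of_mul_le_mul_right h1 hs
  have h1 : (1 + T) * (a * r ^ ρ) ≤ (1 + T) * Real.log ‖f c‖ :=
    mul_le_mul_of_nonneg_left hlogc (by linarith)
  have h2 : T * (K * 2 ^ ρ - a) ≤ ε := by
    refine le_trans (mul_le_mul_of_nonneg_left ?_ hT0) hTL
    have := neg_abs_le a
    rw [hL]; linarith
  have h3 : T * (K * 2 ^ ρ - a) * r ^ ρ ≤ ε * r ^ ρ := mul_le_mul_of_nonneg_right h2 hrp.le
  nlinarith [h1, h3]

end HBInd
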