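import Pool.Agent.HBInd.Three

/-!
# Dividing out the zeros of an entire function
-/

namespace HBInd

open Complex Filter Topology Set Bornology
open scoped Real ComplexConjugate

/-- dividing out the zero at one point -/
theorem exists_div_pow {h : ℂ → ℂ} (hh : Differentiable ℂ h) (h0 : ∃ z, h z ≠ 0) (u : ℂ) :
    ∃ h₂ : ℂ → ℂ, Differentiable ℂ h₂ ∧ h₂ u ≠ 0 ∧
      ∀ z, h z = (z - u) ^ analyticOrderNatAt h u * h₂ z := by
  classical
  have han : ∀ z, AnalyticAt ℂ h z := fun z => hh.analyticAt z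
  have htop : analyticOrderAt h u ≠ ⊤ := by
    rw [Ne, AnalyticOnNhd.analyticOrderAt_eq_top_iff_eq_zero u han]
    rintro rfl
    obtain ⟨z, hz⟩ := h0
    exact hz rfl
  obtain ⟨g, hg, hgu, hgh⟩ := (han u).analyticOrderAt_ne_top.1 htop
  set n := analyticOrderNatAt h u with hn
  refine ⟨fun z => if z = u then g u else h z / (z - u) ^ n, ?_, ?_, ?_⟩
  · intro z
    by_cases hz : z = u
    · subst hz
      have : (fun w => if w = z then g z else h w / (w - z) ^ n) =ᶠ[𝓝 z] g := by
        filter_upwards [hgh] with w hw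
        by_cases hwz : w = z
        · rw [if_pos hwz, hwz]
        · rw [if_neg hwz, hw, smul_eq_mul, mul_div_cancel_left₀]
          exact pow_ne_zero _ (sub_ne_zero.2 hwz)
      exact hg.differentiableAt.congr_of_eventuallyEq this
    · have : (fun w => if w = u then g u else h w / (w - u) ^ n) =ᶠ[𝓝 z]
          fun w => h w / (w - u) ^ n := by
        filter_upwards [isOpen_ne.mem_nhds hz] with w hw
        rw [if_neg hw]
      refine DifferentiableAt.congr_of_eventuallyEq ?_ this
      exact (hh z).div (by fun_prop) (pow_ne_zero _ (sub_ne_zero.2 hz))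
  · simp only [if_true]
    exact hgu
  · intro z
    by_cases hz : z = u
    · subst hz
      have := hgh.self_of_nhds
      simp only [if_true]
      rw [this]
      rfl
    · simp only [if_neg hz]
      rw [mul_div_cancel₀]
      exact pow_ne_zero _ (sub_ne_zero.2 hz)

/-- dividing out the zeros in a finite set -/
theorem exists_factor {f : ℂ → ℂ} (hf : Differentiable ℂ f) (h0 : ∃ z, f z ≠ 0) (S : Finset ℂ) :
    ∃ h : ℂ → ℂ, Differentiable ℂ h ∧ (∀ u ∈ S, h u ≠ 0) ∧
      ∀ z, f z = (∏ u ∈ S, (z - u) ^ analyticOrderNatAt f u) * h z := by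
  classical
  induction S using Finset.induction_on with
  | empty => exact ⟨f, hf, by simp, by simp⟩
  | insert u S hu ih =>
    obtain ⟨h, hh, hS, hprod⟩ := ih
    have hh0 : ∃ z, h z ≠ 0 := by
      obtain ⟨z, hz⟩ := h0
      refine ⟨z, ?_⟩
      intro hc
      apply hz
      rw [hprod, hc, mul_zero]
    obtain ⟨h₂, hh₂, hu₂, hp₂⟩ := exists_div_pow hh hh0 u
    have hord : analyticOrderNatAt f u = analyticOrderNatAt h u := by
      have e : f = (fun z => ∏ v ∈ S, (z - v) ^ analyticOrderNatAt f v) * h := by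
        funext z; exact hprod z
      have hP : Differentiable ℂ (fun z : ℂ => ∏ v ∈ S, (z - v) ^ analyticOrderNatAt f v) := by
        fun_prop
      have h1 : analyticOrderAt (fun z : ℂ => ∏ v ∈ S, (z - v) ^ analyticOrderNatAt f v) u = 0 := by
        rw [(hP.analyticAt u).analyticOrderAt_eq_zero]
        apply Finset.prod_ne_zero_iff.2
        intro v hv
        apply pow_ne_zero
        apply sub_ne_zero.2
        rintro rfl
        exact hu hv
      have h2 : analyticOrderAt f u = analyticOrderAt h u := by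
        conv_lhs => rw [e]
        rw [analyticOrderAt_mul (hP.analyticAt u) (hh.analyticAt u), h1, zero_add]
      rw [analyticOrderNatAt, analyticOrderNatAt, h2]
    refine ⟨h₂, hh₂, ?_, ?_⟩
    · intro v hv
      rcases Finset.mem_insert.1 hv with rfl | hv
      · exact hu₂
      · intro hc
        apply hS v hv
        rw [hp₂, hc, mul_zero]
    · intro z
      rw [Finset.prod_insert hu, hprod z, hp₂ z, hord]
      ring

/-- the zeros in a disc are finite in number -/
theorem finite_zeros {f : ℂ → ℂ} (hf : Differentiable ℂ f) (h0 : ∃ z, f z ≠ 0) (R : ℝ) :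
    {z : ℂ | f z = 0 ∧ ‖z‖ < R}.Finite := by
  by_contra hc
  have hinf : {z : ℂ | f z = 0 ∧ ‖z‖ < R}.Infinite := hc
  obtain ⟨x, -, hx⟩ := hinf.exists_accPt_of_subset_isCompact
    (isCompact_closedBall (0 : ℂ) R) (fun z hz => by
      rw [mem_closedBall_zero_iff]; exact hz.2.le)
  have h1 : ∃ᶠ z in 𝓝[≠] x, f z = 0 := by
    rw [accPt_iff_frequently] at hx
    rw [frequently_nhdsWithin_iff]
    exact hx.mono (fun z hz => ⟨hz.2.1, hz.1⟩)
  have h2 := AnalyticOnNhd.eqOn_zero_of_preconnected_of_frequently_eq_zero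
    (f := f) (U := univ) (fun z _ => hf.analyticAt z) isPreconnected_univ (mem_univ x) h1
  obtain ⟨z, hz⟩ := h0
  exact hz (h2 (mem_univ z))

/-- the maximum principle on a disc -/
theorem norm_le_of_circle {f : ℂ → ℂ} (hf : Differentiable ℂ f) {r C : ℝ}
    (hC : ∀ z : ℂ, ‖z‖ = r → ‖f z‖ ≤ C) {z : ℂ} (hz : ‖z‖ ≤ r) : ‖f z‖ ≤ C := by
  rcases eq_or_ne r 0 with hr | hr
  · apply hC z
    rw [hr] at hz ⊢
    exact le_antisymm hz (norm_nonneg _)
  apply Complex.norm_le_of_forall_mem_frontier_norm_le (U := Metric.ball (0 : ℂ) r)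
    Metric.isBounded_ball hf.diffContOnCl
  · intro w hw
    rw [frontier_ball _ hr, mem_sphere_zero_iff_norm] at hw
    exact hC w hw
  · rw [closure_ball _ hr, mem_closedBall_zero_iff]
    exact hz

/-! ### The index set -/

/-- the zeros with multiplicity -/
abbrev ZI (f : ℂ → ℂ) : Type := Σ u : {u : ℂ // f u = 0}, Fin (analyticOrderNatAt f u)

/-- the position of a zero -/
def za (f : ℂ → ℂ) (i : ZI f) : ℂ := i.1

lemma f_za (f : ℂ → ℂ) (i : ZI f) : f (za f i) = 0 := i.1.2

lemma exists_za {f : ℂ → ℂ} (hf : Differentiable ℂ f) (h0 : ∃ z, f z ≠ 0) {z : ℂ} (hz : f z = 0) :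
    ∃ i : ZI f, za f i = z := by
  obtain ⟨h, hh, hu, hp⟩ := exists_div_pow hf h0 z
  have : 0 < analyticOrderNatAt f z := by
    rw [Nat.pos_iff_ne_zero]
    intro e
    have h1 := hp z
    rw [e, pow_zero, one_mul, hz] at h1
    exact hu h1.symm
  exact ⟨⟨⟨z, hz⟩, ⟨0, this⟩⟩, rfl⟩

/-- the finite set of indices of zeros in a disc, with the product over it -/
theorem exists_finset {f : ℂ → ℂ} (hf : Differentiable ℂ f) (h0 : f 0 = 1) (R : ℝ) :
    ∃ I : Finset (ZI f), (∀ i, i ∈ I ↔ ‖za f i‖ < R) ∧ ∃ φ : ℂ → ℂ, Differentiable ℂ φ ∧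
      φ 0 = 1 ∧ (∀ z, ‖z‖ < R → φ z ≠ 0) ∧ ∀ z, f z = (∏ i ∈ I, (1 - z / za f i)) * φ z := by
  classical
  have h0' : ∃ z, f z ≠ 0 := ⟨0, by rw [h0]; exact one_ne_zero⟩
  have hfin : {u : {u : ℂ // f u = 0} | ‖(u : ℂ)‖ < R}.Finite := by
    have h1 := finite_zeros hf h0' R
    apply Set.Finite.of_finite_image (f := fun u : {u : ℂ // f u = 0} => (u : ℂ))
    · apply h1.subset
      rintro _ ⟨u, hu, rfl⟩
      exact ⟨u.2, hu⟩
    · exact Subtype.val_injective.injOn
  set T : Finset {u : ℂ // f u = 0} := hfin.toFinset with hT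
  have hTm : ∀ u, u ∈ T ↔ ‖(u : ℂ)‖ < R := by
    intro u; rw [hT, Set.Finite.mem_toFinset]; rfl
  refine ⟨T.sigma (fun _ => Finset.univ), ?_, ?_⟩
  · intro i
    rw [Finset.mem_sigma, hTm]
    simp only [Finset.mem_univ, and_true]
    rfl
  · set S : Finset ℂ := T.map (Function.Embedding.subtype (fun u : ℂ => f u = 0)) with hS
    have hSm : ∀ z, z ∈ S ↔ f z = 0 ∧ ‖z‖ < R := by
      intro z
      rw [hS, Finset.mem_map]
      constructor
      · rintro ⟨u, hu, rfl⟩
        exact ⟨u.2, (hTm u).1 hu⟩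
      · rintro ⟨h1, h2⟩
        exact ⟨⟨z, h1⟩, (hTm _).2 h2, rfl⟩
    obtain ⟨h, hh, hne, hp⟩ := exists_factor hf h0' S
    have hS0 : ∀ u ∈ S, u ≠ 0 := by
      rintro u hu rfl
      rw [hSm, h0] at hu
      exact one_ne_zero hu.1
    have hprod : ∀ z, f z = (∏ i ∈ T.sigma (fun _ => Finset.univ), (1 - z / za f i)) *
        ((∏ u ∈ S, (-u) ^ analyticOrderNatAt f u) * h z) := by
      intro z
      rw [hp z, ← mul_assoc, Finset.prod_sigma]
      congr 1
      have e1 : ∏ u ∈ T, ∏ j ∈ (Finset.univ : Finset (Fin (analyticOrderNatAt f u))),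
          (1 - z / za f ⟨u, j⟩) = ∏ u ∈ S, (1 - z / u) ^ analyticOrderNatAt f u := by
        rw [hS, Finset.prod_map]
        apply Finset.prod_congr rfl
        intro u _
        have : ∀ j ∈ (Finset.univ : Finset (Fin (analyticOrderNatAt f u))),
            (1 - z / za f ⟨u, j⟩) = 1 - z / (u : ℂ) := fun j _ => rfl
        rw [Finset.prod_congr rfl this, Finset.prod_const, Finset.card_univ, Fintype.card_fin]
        rfl
      rw [e1, ← Finset.prod_mul_distrib]
      apply Finset.prod_congr rfl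
      intro u hu
      rw [← mul_pow]
      congr 1
      have := hS0 u hu
      field_simp
      ring
    refine ⟨fun z => (∏ u ∈ S, (-u) ^ analyticOrderNatAt f u) * h z, ?_, ?_, ?_, hprod⟩
    · exact hh.const_mul _
    · have h1 := hprod 0
      have h2 : ∏ i ∈ T.sigma (fun _ => Finset.univ), (1 - (0 : ℂ) / za f i) = 1 := by
        apply Finset.prod_eq_one
        intro i _
        rw [zero_div, sub_zero]
      rw [h2, one_mul, h0] at h1
      exact h1.symm
    · intro z hz
      apply mul_ne_zero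
      · apply Finset.prod_ne_zero_iff.2
        intro u hu
        exact pow_ne_zero _ (neg_ne_zero.2 (hS0 u hu))
      · by_cases hzS : z ∈ S
        · exact hne z hzS
        · intro hc
          apply hzS
          rw [hSm]
          exact ⟨by rw [hp z, hc, mul_zero], hz⟩

end HBInd
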