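import Pool.Agent.HBInd.ZerosOneS
import Pool.Agent.HBInd.RelDefs

/-!
# The zeros of a function of order between one and two

Model: `Pool.Agent.HBInd.ZerosB`, `Pool.Agent.HBInd.Zeros`. Let `1 < ρ < 2`.

* `hasSum_KK_one` (model: `hasSum_log`): let `I_R` be the set of the zeros of modulus `< R`, `φ_R` from
  `exists_finset`, and `ψ_R z = φ_R z * exp (- z ∑_{i ∈ I_R} 1 / a_i)` (so `f = ∏ (1 - z/a_i) e^{z/a_i} ψ_R`,
  `ψ_R` has no zeros in `|z| < R`, `ψ_R 0 = 1`, `ψ_R' 0 = f' 0`). For `|z| ≤ 3R`,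
  `|ψ_R z| ≤ exp (K (3R)^ρ + 3R ∑_{i ∈ I_R} 1/|a_i|) ≤ exp (C R^ρ)` (`phi_bound`; `∑_{|a_i|<R} R/|a_i| ≤ K' R^ρ`
  from `sums_one` with `x = R`). So `ψ_R = exp G_R` on `|z| < R`, `G_R 0 = 0`, `Re G_R ≤ C R^ρ`, and by
  Borel-Caratheodory `|G_R| ≤ C' R^ρ` on `|z| ≤ R/2`; by the Cauchy estimates (or the Schwarz lemma for
  `G_R z - G_R' 0 z`, which vanishes to the second order at `0`)
  `|G_R z - f' 0 z| ≤ C'' R^ρ (|z|/R)² → 0` as `R → ∞` for fixed `z`. Hence
  `log |f z| = lim_R ∑_{|a_i|<R} KK 1 (z/a_i) + Re (f' 0 z)`, and the series converges absolutely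
  (`|KK 1 w| ≤ 2 |w|²` for `|w| ≤ 1/2`).
-/

namespace HBInd

open Complex Filter Topology Set Bornology
open scoped Real ComplexConjugate

/-- the second order remainder of the logarithm of a zero-free function -/
theorem z1a_log {φ : ℂ → ℂ} {R M : ℝ} (hR : 0 < R) (hM : 0 < M)
    (hφ : DifferentiableOn ℂ φ (Metric.ball 0 R)) (h0 : ∀ z ∈ Metric.ball (0 : ℂ) R, φ z ≠ 0)
    (h1 : φ 0 = 1) (hb : ∀ z ∈ Metric.ball (0 : ℂ) R, ‖φ z‖ ≤ Real.exp M) {z : ℂ}
    (hz : ‖z‖ < R / 2) :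
    |Real.log ‖φ z‖ - (deriv φ 0 * z).re| ≤ 16 * M * (‖z‖ / R) ^ 2 := by
  have hc : (0 : ℂ) ∈ Metric.ball (0 : ℂ) R := Metric.mem_ball_self hR
  have hq : DifferentiableOn ℂ (fun z => deriv φ z / φ z) (Metric.ball 0 R) :=
    (hφ.deriv Metric.isOpen_ball).div hφ h0
  obtain ⟨L, hLc, hL⟩ := hq.isExactOn_ball.with_val_at 0 0
  -- `φ = exp L`
  have hexp : ∀ y ∈ Metric.ball (0 : ℂ) R, φ y = Complex.exp (L y) := by
    intro y hy
    have hd : ∀ x ∈ Metric.ball (0 : ℂ) R,
        HasDerivAt (fun x => φ x * Complex.exp (-L x)) 0 x := by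
      intro x hx
      have h1 : HasDerivAt φ (deriv φ x) x :=
        (hφ.differentiableAt (Metric.isOpen_ball.mem_nhds hx)).hasDerivAt
      have h2 : HasDerivAt (fun x => Complex.exp (-L x))
          (Complex.exp (-L x) * (-(deriv φ x / φ x))) x := ((hL x hx).neg).cexp
      have h3 := h1.mul h2
      have h4 := h0 x hx
      have h5 : φ x * (Complex.exp (-L x) * -(deriv φ x / φ x)) =
          -(deriv φ x * Complex.exp (-L x)) := by
        rw [mul_neg, mul_neg, ← mul_assoc, mul_comm (φ x), mul_assoc, mul_div_cancel₀ _ h4]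
        ring
      rw [h5, add_neg_cancel] at h3
      exact h3
    have hcst := Metric.isOpen_ball.is_const_of_deriv_eq_zero
      (convex_ball (0 : ℂ) R).isPreconnected
      (f := fun x => φ x * Complex.exp (-L x))
      (fun x hx => (hd x hx).differentiableAt.differentiableWithinAt)
      (fun x hx => (hd x hx).deriv) hy hc
    simp only [hLc, neg_zero, Complex.exp_zero, mul_one, h1] at hcst
    have h6 := congrArg (· * Complex.exp (L y)) hcst
    simp only [mul_assoc, ← Complex.exp_add, neg_add_cancel, Complex.exp_zero, mul_one,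
      one_mul] at h6
    exact h6
  have hre : ∀ y ∈ Metric.ball (0 : ℂ) R, (L y).re = Real.log ‖φ y‖ := by
    intro y hy
    rw [hexp y hy, Complex.norm_exp, Real.log_exp]
  have hle : ∀ y ∈ Metric.ball (0 : ℂ) R, (L y).re ≤ M := by
    intro y hy
    rw [hre y hy, Real.log_le_iff_le_exp (norm_pos_iff.2 (h0 y hy))]
    exact hb y hy
  have hLd : DifferentiableOn ℂ L (Metric.ball 0 R) :=
    fun x hx => (hL x hx).differentiableAt.differentiableWithinAt
  have hR2 : 0 < R / 2 := by linarith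
  have hsub : Metric.ball (0 : ℂ) (R / 2) ⊆ Metric.ball (0 : ℂ) R :=
    Metric.ball_subset_ball (by linarith)
  have hBC : ∀ y ∈ Metric.ball (0 : ℂ) (R / 2), ‖L y‖ ≤ 2 * M := by
    intro y hy
    have h2 := borelCaratheodory_zero (f := L) (M := M) (R := R) (z := y) hM hLd
      (fun x hx => hle x hx) hR (hsub hy) hLc
    rw [mem_ball_zero_iff] at hy
    refine h2.trans ?_
    rw [div_le_iff₀ (by linarith)]
    nlinarith [norm_nonneg y]
  have hD : HasDerivAt L (deriv φ 0) 0 := by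
    have := hL 0 hc
    rwa [h1, div_one] at this
  have hDn : ‖deriv φ 0‖ ≤ 4 * M / R := by
    have h2 := Complex.norm_deriv_le_div_of_mapsTo_ball (f := L) (c := 0) (R₁ := R / 2)
      (R₂ := 2 * M) (hLd.mono hsub) (by
        intro y hy
        rw [hLc, mem_closedBall_zero_iff]
        exact hBC y hy) hR2
    rw [hD.deriv] at h2
    refine h2.trans (le_of_eq ?_)
    field_simp
    ring
  -- the remainder
  set G : ℂ → ℂ := fun y => L y - deriv φ 0 * y with hG
  have hG0 : G 0 = 0 := by simp [hG, hLc]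
  have hGd : DifferentiableOn ℂ G (Metric.ball 0 (R / 2)) :=
    (hLd.mono hsub).sub (by fun_prop)
  have hGb : MapsTo G (Metric.ball 0 (R / 2)) (Metric.closedBall (G 0) (4 * M)) := by
    intro y hy
    rw [hG0, mem_closedBall_zero_iff]
    have h2 := hBC y hy
    rw [mem_ball_zero_iff] at hy
    calc ‖L y - deriv φ 0 * y‖ ≤ ‖L y‖ + ‖deriv φ 0 * y‖ := norm_sub_le _ _
      _ ≤ 2 * M + 4 * M / R * (R / 2) := by
          rw [norm_mul]
          gcongr
      _ = 4 * M := by field_simp; ring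
  have hGo : (fun y => G y - G 0) =o[𝓝 0] (fun w : ℂ => ‖w - 0‖ ^ 1) := by
    have h2 : HasDerivAt G 0 0 := by
      have := hD.fun_sub ((hasDerivAt_id (0 : ℂ)).const_mul (deriv φ 0))
      rw [mul_one, sub_self] at this
      exact this
    rw [hasDerivAt_iff_isLittleO] at h2
    simp only [smul_zero, sub_zero, pow_one] at h2 ⊢
    exact h2.norm_right
  have hzb : z ∈ Metric.ball (0 : ℂ) (R / 2) := by rwa [mem_ball_zero_iff]
  have h2 := Complex.dist_le_mul_div_pow_of_mapsTo_ball_of_isLittleO (n := 1) hGd hGb hGo hzb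
  rw [hG0, dist_zero_right, dist_zero_right] at h2
  have h3 : (G z).re = Real.log ‖φ z‖ - (deriv φ 0 * z).re := by
    rw [hG, ← hre z (hsub hzb), Complex.sub_re]
  rw [← h3]
  refine (Complex.abs_re_le_norm _).trans (h2.trans (le_of_eq ?_))
  have h4 : ‖z‖ / (R / 2) = 2 * (‖z‖ / R) := by field_simp
  rw [h4]
  ring

/-- the terms of the series -/
theorem z1a_KK_le {w : ℂ} (hw : ‖w‖ ≤ 1 / 2) : |KK 1 w| ≤ ‖w‖ ^ 2 := by
  have h1 := Complex.norm_log_one_add_sub_self_le (z := -w) (by rw [norm_neg]; linarith)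
  rw [norm_neg] at h1
  have h2 : KK 1 w = (Complex.log (1 + -w) - -w).re := by
    rw [Complex.sub_re, Complex.log_re, Complex.neg_re, KK, ← sub_eq_add_neg]
    push_cast
    ring
  rw [h2]
  refine (Complex.abs_re_le_norm _).trans (h1.trans ?_)
  have h3 : (1 - ‖w‖)⁻¹ ≤ 2 := by
    rw [inv_le_comm₀ (by linarith) (by norm_num)]
    linarith
  have h4 : 0 ≤ ‖w‖ ^ 2 := by positivity
  nlinarith

theorem hasSum_KK_one {f : ℂ → ℂ} (hf : Differentiable ℂ f) (h0 : f 0 = 1) {ρ K : ℝ}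
    (hρ1 : 1 < ρ) (hρ2 : ρ < 2) (hK : 0 < K)
    (hb : ∀ᶠ r : ℝ in atTop, ∀ z : ℂ, ‖z‖ ≤ r → ‖f z‖ ≤ Real.exp (K * r ^ ρ))
    {z : ℂ} (hz0 : z ≠ 0) (hz : ∀ i, z ≠ za f i) :
    HasSum (fun i => KK 1 (z / za f i)) (Real.log ‖f z‖ - (deriv f 0 * z).re) := by
  classical
  obtain ⟨C, hC, hcount⟩ := count_zeros hf h0 (by linarith : 0 < ρ) hK hb
  obtain ⟨K', hK', hs⟩ := sums_one (a := za f) (za_ne_zero h0) hρ1 hρ2 hC hcount
  have hzn : 0 < ‖z‖ := norm_pos_iff.2 hz0
  -- summability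
  have hsum : Summable fun i => KK 1 (z / za f i) := by
    apply Summable.of_norm_bounded_eventually (hs ‖z‖ hzn).1
    obtain ⟨I, hI, -⟩ := exists_finset hf h0 (2 * ‖z‖)
    have : {i | ¬ ‖KK 1 (z / za f i)‖ ≤ min (‖z‖ / ‖za f i‖) ((‖z‖ / ‖za f i‖) ^ 2)} ⊆ ↑I := by
      intro i hi
      rw [Finset.mem_coe, hI]
      by_contra hc
      rw [not_lt] at hc
      apply hi
      have ha : 0 < ‖za f i‖ := norm_pos_iff.2 (za_ne_zero h0 i)
      have h1 : ‖z / za f i‖ ≤ 1 / 2 := by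
        rw [norm_div, div_le_iff₀ ha]
        linarith
      rw [← norm_div, Real.norm_eq_abs]
      refine (z1a_KK_le h1).trans (le_min ?_ le_rfl)
      have h2 := norm_nonneg (z / za f i)
      nlinarith
    exact (I.finite_toSet.subset this)
  -- the exhaustion
  have hex : ∀ n : ℕ, ∃ I : Finset (ZI f), (∀ i, i ∈ I ↔ ‖za f i‖ < n) ∧ ∃ φ : ℂ → ℂ,
      Differentiable ℂ φ ∧ φ 0 = 1 ∧ (∀ z, ‖z‖ < n → φ z ≠ 0) ∧
      ∀ z, f z = (∏ i ∈ I, (1 - z / za f i)) * φ z := fun n => exists_finset hf h0 n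
  choose I hI φ hφ hφ0 hφne hp using hex
  have hIt : Tendsto I atTop atTop := by
    apply tendsto_atTop_finset_of_monotone
    · intro m n hmn i hi
      rw [hI] at hi ⊢
      exact lt_of_lt_of_le hi (by exact_mod_cast hmn)
    · intro i
      obtain ⟨n, hn⟩ := exists_nat_gt ‖za f i‖
      exact ⟨n, (hI n i).2 hn⟩
  have hlim1 : Tendsto (fun n => ∑ i ∈ I n, KK 1 (z / za f i)) atTop
      (𝓝 (∑' i, KK 1 (z / za f i))) := hsum.hasSum.comp hIt
  have hne1 : ∀ i, (1 - z / za f i) ≠ 0 := by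
    intro i
    rw [sub_ne_zero]
    intro e
    apply hz i
    rw [eq_comm, div_eq_one_iff_eq (za_ne_zero h0 i)] at e
    exact e
  have hfz : f z ≠ 0 := by
    intro e
    obtain ⟨i, hi⟩ := exists_za hf ⟨0, by rw [h0]; exact one_ne_zero⟩ e
    exact hz i hi.symm
  have hφz : ∀ n, φ n z ≠ 0 := by
    intro n e
    apply hfz
    rw [hp n z, e, mul_zero]
  -- the functions `ψ`
  set S : ℕ → ℂ := fun n => ∑ i ∈ I n, (za f i)⁻¹ with hS
  set ψ : ℕ → ℂ → ℂ := fun n w => φ n w * Complex.exp (-(S n * w)) with hψ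
  have hψd : ∀ n, Differentiable ℂ (ψ n) := fun n => (hφ n).mul (by fun_prop)
  have hψ0 : ∀ n, ψ n 0 = 1 := by intro n; simp [hψ, hφ0 n]
  have hψ' : ∀ n, deriv (ψ n) 0 = deriv f 0 := by
    intro n
    have h1 : HasDerivAt (ψ n) (deriv (φ n) 0 - S n) 0 := by
      have h2 : HasDerivAt (fun w : ℂ => Complex.exp (-(S n * w))) (-(S n)) 0 := by
        have h3 : HasDerivAt (fun w : ℂ => -(S n * w)) (-(S n)) 0 := by
          have := ((hasDerivAt_id (0 : ℂ)).const_mul (S n)).fun_neg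
          rw [mul_one] at this
          exact this
        simpa using h3.cexp
      have h4 := ((hφ n) 0).hasDerivAt.mul h2
      simp only [mul_zero, neg_zero, Complex.exp_zero, mul_one, hφ0 n, one_mul] at h4
      convert! h4 using 1
    have h5 : HasDerivAt f (deriv (φ n) 0 - S n) 0 := by
      have h6 : HasDerivAt (fun w : ℂ => ∏ i ∈ I n, (1 - w / za f i)) (-(S n)) 0 := by
        have h7 := HasDerivAt.fun_finsetProd (u := I n) (f := fun i (w : ℂ) => 1 - w / za f i)
          (f' := fun i => -(za f i)⁻¹) (x := 0) (by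
            intro i _
            have := ((hasDerivAt_id (0 : ℂ)).div_const (za f i)).const_sub 1
            simpa using this)
        simp only [zero_div, sub_zero, Finset.prod_const_one, one_smul] at h7
        rw [Finset.sum_neg_distrib] at h7
        exact h7
      have h8 := h6.mul ((hφ n) 0).hasDerivAt
      simp only [zero_div, sub_zero, Finset.prod_const_one, one_mul, hφ0 n, mul_one] at h8
      have h9 : f = (fun w : ℂ => ∏ i ∈ I n, (1 - w / za f i)) * φ n := by
        funext w; exact hp n w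
      rw [← h9] at h8
      have h10 : deriv (φ n) 0 - S n = -(S n) + deriv (φ n) 0 := by ring
      rw [h10]
      exact h8
    rw [h1.deriv, h5.deriv]
  have hid : ∀ n, ∑ i ∈ I n, KK 1 (z / za f i) = Real.log ‖f z‖ - Real.log ‖ψ n z‖ := by
    intro n
    have e1 : Real.log ‖ψ n z‖ = Real.log ‖φ n z‖ - (S n * z).re := by
      rw [hψ, norm_mul, Complex.norm_exp, Real.log_mul (norm_ne_zero_iff.2 (hφz n))
        (Real.exp_pos _).ne', Real.log_exp, Complex.neg_re]
      ring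
    have e2 : (S n * z).re = ∑ i ∈ I n, (z / za f i).re := by
      rw [hS, Finset.sum_mul, Complex.re_sum]
      apply Finset.sum_congr rfl
      intro i _
      rw [div_eq_mul_inv, mul_comm]
    rw [e1, e2, hp n z, norm_mul, norm_prod, Real.log_mul, Real.log_prod]
    · simp only [KK, Nat.cast_one, one_mul]
      rw [Finset.sum_add_distrib]
      ring
    · intro i _; exact norm_ne_zero_iff.2 (hne1 i)
    · exact Finset.prod_ne_zero_iff.2 (fun i _ => norm_ne_zero_iff.2 (hne1 i))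
    · exact norm_ne_zero_iff.2 (hφz n)
  -- the remainder
  have hrem : Tendsto (fun n => Real.log ‖ψ n z‖ - (deriv f 0 * z).re) atTop (𝓝 0) := by
    have hbn : ∀ᶠ n : ℕ in atTop, ∀ w : ℂ, ‖w‖ ≤ 3 * n → ‖f w‖ ≤ Real.exp (K * (3 * n) ^ ρ) := by
      have : Tendsto (fun n : ℕ => 3 * (n : ℝ)) atTop atTop :=
        (tendsto_natCast_atTop_atTop).const_mul_atTop (by norm_num)
      exact this.eventually hb
    have hn4 : ∀ᶠ n : ℕ in atTop, 4 * ‖z‖ < n :=
      (tendsto_natCast_atTop_atTop (R := ℝ)).eventually_gt_atTop _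
    have hmaj : Tendsto (fun n : ℕ => 16 * (K * 3 ^ ρ + K') * ‖z‖ ^ 2 * (n : ℝ) ^ (-(2 - ρ)))
        atTop (𝓝 0) := by
      have h1 : Tendsto (fun n : ℕ => (n : ℝ) ^ (-(2 - ρ))) atTop (𝓝 0) :=
        (tendsto_rpow_neg_atTop (by linarith)).comp tendsto_natCast_atTop_atTop
      simpa using h1.const_mul (16 * (K * 3 ^ ρ + K') * ‖z‖ ^ 2)
    apply squeeze_zero_norm' _ hmaj
    filter_upwards [hbn, hn4] with n hn hn4
    have hn0 : (0 : ℝ) < n := by linarith
    have hSn : (n : ℝ) * ‖S n‖ ≤ K' * (n : ℝ) ^ ρ := by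
      calc (n : ℝ) * ‖S n‖ ≤ n * ∑ i ∈ I n, ‖(za f i)⁻¹‖ := by
            gcongr
            exact norm_sum_le _ _
        _ = ∑ i ∈ I n, min ((n : ℝ) / ‖za f i‖) (((n : ℝ) / ‖za f i‖) ^ 2) := by
            rw [Finset.mul_sum]
            apply Finset.sum_congr rfl
            intro i hi
            have ha : 0 < ‖za f i‖ := norm_pos_iff.2 (za_ne_zero h0 i)
            have h1 : 1 ≤ (n : ℝ) / ‖za f i‖ := by
              rw [le_div_iff₀ ha, one_mul]
              exact ((hI n i).1 hi).le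
            rw [norm_inv, ← div_eq_mul_inv, min_eq_left]
            nlinarith
        _ ≤ ∑' i, min ((n : ℝ) / ‖za f i‖) (((n : ℝ) / ‖za f i‖) ^ 2) := by
            apply (hs n hn0).1.sum_le_tsum
            intro i _
            positivity
        _ ≤ K' * (n : ℝ) ^ ρ := (hs n hn0).2
    set L := (K * 3 ^ ρ + K') * (n : ℝ) ^ ρ with hL
    have hL0 : 0 < L := by positivity
    have hψb : ∀ w ∈ Metric.ball (0 : ℂ) n, ‖ψ n w‖ ≤ Real.exp L := by
      intro w hw
      rw [mem_ball_zero_iff] at hw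
      have h1 := phi_bound h0 hn0 (hI n) (hφ n) (hp n) hn (z := w) (by linarith)
      have h2 : ‖φ n w‖ ≤ Real.exp (K * (3 * n) ^ ρ) := by
        refine h1.trans ?_
        apply div_le_self (Real.exp_pos _).le
        exact one_le_pow₀ (by norm_num)
      have h3 : (-(S n * w)).re ≤ K' * (n : ℝ) ^ ρ := by
        calc (-(S n * w)).re ≤ ‖-(S n * w)‖ := Complex.re_le_norm _
          _ = ‖S n‖ * ‖w‖ := by rw [norm_neg, norm_mul]
          _ ≤ ‖S n‖ * n := by gcongr
          _ = n * ‖S n‖ := mul_comm _ _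
          _ ≤ _ := hSn
      calc ‖ψ n w‖ = ‖φ n w‖ * Real.exp (-(S n * w)).re := by
            rw [hψ, norm_mul, Complex.norm_exp]
        _ ≤ Real.exp (K * (3 * n) ^ ρ) * Real.exp (K' * (n : ℝ) ^ ρ) := by gcongr
        _ = Real.exp L := by
            rw [← Real.exp_add, hL, Real.mul_rpow (by norm_num) hn0.le]
            congr 1
            ring
    have h1 := z1a_log (φ := ψ n) hn0 hL0 (hψd n).differentiableOn
      (fun w hw => mul_ne_zero (hφne n w (by rwa [mem_ball_zero_iff] at hw))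
        (Complex.exp_ne_zero _)) (hψ0 n) hψb (z := z) (by linarith)
    rw [hψ' n] at h1
    rw [Real.norm_eq_abs]
    refine h1.trans (le_of_eq ?_)
    rw [hL, neg_sub, Real.rpow_sub hn0, Real.rpow_two, div_pow]
    ring
  have hlim2 : Tendsto (fun n => ∑ i ∈ I n, KK 1 (z / za f i)) atTop
      (𝓝 (Real.log ‖f z‖ - (deriv f 0 * z).re)) := by
    have := (tendsto_const_nhds (x := Real.log ‖f z‖ - (deriv f 0 * z).re)
      (f := atTop (α := ℕ))).sub hrem
    rw [sub_zero] at this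
    refine this.congr (fun n => ?_)
    rw [hid n]
    ring
  rw [← tendsto_nhds_unique hlim1 hlim2]
  exact hsum.hasSum

end HBInd
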