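import Pool.Agent.HBInd.ZerosB

/-!
# Sums over the zeros, order between one and two

Model: `log_sums` in `Pool.Agent.HBInd.ZerosB`. Dyadic sums: at most `C 2^{(k+1) ρ}` of the `a i` have
`2^k ≤ |a i| < 2^{k+1}`, and `min t (t²)` with `t = x / |a i|`, `2^n ≤ x < 2^{n+1}`, is at most `2^{n+1-k}` for
`k ≤ n` and at most `4^{n+1-k}` for `k > n`; the sum over `k` is at most a constant times `2^{nρ}`
(`∑_{k ≤ n} 2^{kρ} 2^{n-k}`, `ρ > 1`, and `∑_{k > n} 2^{kρ} 4^{n-k}`, `ρ < 2`).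
-/

namespace HBInd

open Complex Filter Topology Set Bornology
open scoped Real ComplexConjugate

/-- the dyadic series for `min t (t²)` -/
theorem zs_summable_dyadic {ρ : ℝ} (hρ1 : 1 < ρ) (hρ2 : ρ < 2) :
    Summable fun k : ℤ => ((2 : ℝ) ^ (k + 1)) ^ ρ *
      min (((2 : ℝ) ^ k)⁻¹) ((((2 : ℝ) ^ k)⁻¹) ^ 2) := by
  apply Summable.of_nat_of_neg
  · -- `k = n`
    have hr : (2 : ℝ) ^ (ρ - 2) < 1 := Real.rpow_lt_one_of_one_lt_of_neg (by norm_num) (by linarith)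
    have hs : Summable fun n : ℕ => (2 : ℝ) ^ ρ * ((2 : ℝ) ^ (ρ - 2)) ^ n :=
      (summable_geometric_of_lt_one (by positivity) hr).mul_left _
    apply Summable.of_nonneg_of_le _ _ hs
    · intro n
      positivity
    · intro n
      have h2 : ((2 : ℝ) ^ ((n : ℤ) + 1)) ^ ρ = 2 ^ ρ * ((2 : ℝ) ^ ρ) ^ n := by
        rw [zpow_add₀ (by norm_num), zpow_one, zpow_natCast, Real.mul_rpow (by positivity) (by norm_num),
          ← Real.rpow_natCast, ← Real.rpow_mul (by norm_num), mul_comm (n : ℝ) ρ,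
          Real.rpow_mul (by norm_num), Real.rpow_natCast]
        ring
      calc ((2 : ℝ) ^ ((n : ℤ) + 1)) ^ ρ * min (((2 : ℝ) ^ (n : ℤ))⁻¹) ((((2 : ℝ) ^ (n : ℤ))⁻¹) ^ 2)
          ≤ ((2 : ℝ) ^ ((n : ℤ) + 1)) ^ ρ * (((2 : ℝ) ^ (n : ℤ))⁻¹) ^ 2 := by
            gcongr
            exact min_le_right _ _
        _ = (2 : ℝ) ^ ρ * ((2 : ℝ) ^ (ρ - 2)) ^ n := by
            rw [h2, zpow_natCast, Real.rpow_sub (by norm_num), div_pow]
            have h3 : ((2 : ℝ) ^ (2 : ℝ)) = 2 ^ (2 : ℕ) := by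
              rw [← Real.rpow_natCast]; norm_num
            have h4 : ((2 : ℝ) ^ (2 : ℕ)) ^ n = (2 : ℝ) ^ n * 2 ^ n := by
              rw [pow_two, mul_pow]
            rw [h3, h4]
            field_simp
  · have hr : (2 : ℝ) ^ (1 - ρ) < 1 := Real.rpow_lt_one_of_one_lt_of_neg (by norm_num) (by linarith)
    have hs : Summable fun n : ℕ => (2 : ℝ) ^ ρ * ((2 : ℝ) ^ (1 - ρ)) ^ n :=
      (summable_geometric_of_lt_one (by positivity) hr).mul_left _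
    apply Summable.of_nonneg_of_le _ _ hs
    · intro n
      positivity
    · intro n
      have h2 : ((2 : ℝ) ^ (-(n : ℤ) + 1)) ^ ρ = 2 ^ ρ * (((2 : ℝ) ^ ρ)⁻¹) ^ n := by
        rw [zpow_add₀ (by norm_num), zpow_one, zpow_neg, zpow_natCast,
          Real.mul_rpow (by positivity) (by norm_num), Real.inv_rpow (by positivity),
          ← Real.rpow_natCast, ← Real.rpow_mul (by norm_num), mul_comm (n : ℝ) ρ,
          Real.rpow_mul (by norm_num), Real.rpow_natCast, inv_pow]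
        ring
      calc ((2 : ℝ) ^ (-(n : ℤ) + 1)) ^ ρ *
            min (((2 : ℝ) ^ (-(n : ℤ)))⁻¹) ((((2 : ℝ) ^ (-(n : ℤ)))⁻¹) ^ 2)
          ≤ ((2 : ℝ) ^ (-(n : ℤ) + 1)) ^ ρ * ((2 : ℝ) ^ (-(n : ℤ)))⁻¹ := by
            gcongr
            exact min_le_left _ _
        _ = (2 : ℝ) ^ ρ * ((2 : ℝ) ^ (1 - ρ)) ^ n := by
            rw [h2, zpow_neg, inv_inv, zpow_natCast, Real.rpow_sub (by norm_num), Real.rpow_one,
              div_pow, inv_pow]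
            field_simp

theorem sums_one {ι : Type} {a : ι → ℂ} (ha : ∀ i, a i ≠ 0) {ρ C : ℝ} (hρ1 : 1 < ρ) (hρ2 : ρ < 2)
    (hC : 0 < C)
    (hcount : ∀ R : ℝ, 0 < R → ∀ J : Finset ι, (∀ i ∈ J, ‖a i‖ < R) → (J.card : ℝ) ≤ C * R ^ ρ) :
    ∃ K' : ℝ, 0 < K' ∧ ∀ x : ℝ, 0 < x →
      (Summable fun i => min (x / ‖a i‖) ((x / ‖a i‖) ^ 2)) ∧
        ∑' i, min (x / ‖a i‖) ((x / ‖a i‖) ^ 2) ≤ K' * x ^ ρ := by
  classical
  set b : ℤ → ℝ := fun k => ((2 : ℝ) ^ (k + 1)) ^ ρ *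
    min (((2 : ℝ) ^ k)⁻¹) ((((2 : ℝ) ^ k)⁻¹) ^ 2) with hbdef
  have hb : Summable b := zs_summable_dyadic hρ1 hρ2
  have hw0 : ∀ k : ℤ, 0 < min (((2 : ℝ) ^ k)⁻¹) ((((2 : ℝ) ^ k)⁻¹) ^ 2) := by
    intro k
    positivity
  have hb0 : ∀ k, 0 < b k := fun k => mul_pos (by positivity) (hw0 k)
  have hbt : 0 ≤ ∑' k, b k := tsum_nonneg (fun k => (hb0 k).le)
  refine ⟨C * ∑' k, b k + 1, by positivity, ?_⟩
  intro x hx
  have ha' : ∀ i, 0 < ‖a i‖ := fun i => norm_pos_iff.2 (ha i)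
  have hexp : ∀ i, ∃ k : ℤ, (2 : ℝ) ^ k ≤ ‖a i‖ / x ∧ ‖a i‖ / x < (2 : ℝ) ^ (k + 1) := by
    intro i
    obtain ⟨k, hk⟩ := exists_mem_Ico_zpow (x := ‖a i‖ / x) (y := (2 : ℝ)) (div_pos (ha' i) hx)
      (by norm_num)
    exact ⟨k, hk.1, hk.2⟩
  choose κ hκ1 hκ2 using hexp
  have hpos : ∀ i, 0 < x / ‖a i‖ := fun i => div_pos hx (ha' i)
  have hnn : ∀ i, 0 ≤ min (x / ‖a i‖) ((x / ‖a i‖) ^ 2) := by
    intro i
    have := hpos i
    positivity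
  have hterm : ∀ i, min (x / ‖a i‖) ((x / ‖a i‖) ^ 2) ≤
      min (((2 : ℝ) ^ κ i)⁻¹) ((((2 : ℝ) ^ κ i)⁻¹) ^ 2) := by
    intro i
    have h1 : x / ‖a i‖ ≤ ((2 : ℝ) ^ κ i)⁻¹ := by
      rw [← inv_div]
      exact inv_anti₀ (by positivity) (hκ1 i)
    exact min_le_min h1 (pow_le_pow_left₀ (hpos i).le h1 2)
  have hfin : ∀ J : Finset ι, ∑ i ∈ J, min (x / ‖a i‖) ((x / ‖a i‖) ^ 2) ≤
      C * (∑' k, b k) * x ^ ρ := by
    intro J
    calc ∑ i ∈ J, min (x / ‖a i‖) ((x / ‖a i‖) ^ 2)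
        ≤ ∑ i ∈ J, min (((2 : ℝ) ^ κ i)⁻¹) ((((2 : ℝ) ^ κ i)⁻¹) ^ 2) :=
          Finset.sum_le_sum (fun i _ => hterm i)
      _ = ∑ k ∈ J.image κ, (J.filter (fun i => κ i = k)).card •
            min (((2 : ℝ) ^ k)⁻¹) ((((2 : ℝ) ^ k)⁻¹) ^ 2) :=
          Finset.sum_comp (fun k : ℤ => min (((2 : ℝ) ^ k)⁻¹) ((((2 : ℝ) ^ k)⁻¹) ^ 2)) κ
      _ ≤ ∑ k ∈ J.image κ, (C * x ^ ρ) * b k := by
          apply Finset.sum_le_sum
          intro k _
          have h1 : (((J.filter (fun i => κ i = k)).card : ℕ) : ℝ) ≤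
              C * ((2 : ℝ) ^ (k + 1) * x) ^ ρ := by
            apply hcount _ (by positivity)
            intro i hi
            rw [Finset.mem_filter] at hi
            have := hκ2 i
            rw [hi.2, div_lt_iff₀ hx] at this
            exact this
          rw [nsmul_eq_mul]
          calc (((J.filter (fun i => κ i = k)).card : ℕ) : ℝ) *
                min (((2 : ℝ) ^ k)⁻¹) ((((2 : ℝ) ^ k)⁻¹) ^ 2)
              ≤ (C * ((2 : ℝ) ^ (k + 1) * x) ^ ρ) *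
                min (((2 : ℝ) ^ k)⁻¹) ((((2 : ℝ) ^ k)⁻¹) ^ 2) :=
                mul_le_mul_of_nonneg_right h1 (hw0 k).le
            _ = (C * x ^ ρ) * b k := by
                rw [Real.mul_rpow (by positivity) hx.le, hbdef]
                ring
      _ = (C * x ^ ρ) * ∑ k ∈ J.image κ, b k := by rw [Finset.mul_sum]
      _ ≤ (C * x ^ ρ) * ∑' k, b k := by
          gcongr
          exact hb.sum_le_tsum _ (fun k _ => (hb0 k).le)
      _ = C * (∑' k, b k) * x ^ ρ := by ring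
  have hsum : Summable fun i => min (x / ‖a i‖) ((x / ‖a i‖) ^ 2) :=
    summable_of_sum_le hnn hfin
  refine ⟨hsum, ?_⟩
  have h1 : ∑' i, min (x / ‖a i‖) ((x / ‖a i‖) ^ 2) ≤ C * (∑' k, b k) * x ^ ρ :=
    hsum.tsum_le_of_sum_le hfin
  have h2 : 0 < x ^ ρ := by positivity
  calc _ ≤ C * (∑' k, b k) * x ^ ρ := h1
    _ ≤ (C * ∑' k, b k + 1) * x ^ ρ := by nlinarith

end HBInd
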